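import Pool.Agent.NearSuper255.FinChk

/-!
# The case analysis for multiples of three
-/

namespace Pool.Agent.NearSuper255

open Finset

theorem lookupR_ge (x : ℕ) : ∀ l : List (ℕ × ℕ), (∀ a ∈ l, 239 ≤ a.2) → 239 ≤ lookupR x l := by
  intro l
  induction l with
  | nil => intro _; exact le_refl _
  | cons a l ih =>
    intro h
    unfold lookupR
    split_ifs
    · exact h a List.mem_cons_self
    · exact ih (fun b hb => h b (List.mem_cons_of_mem _ hb))

theorem Rt_ge (x : ℕ) : 239 ≤ Rt x := by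
  unfold Rt
  split_ifs
  · exact le_refl _
  · exact lookupR_ge x RtL (by decide)

theorem Xf_ge (x : ℕ) : 240 ≤ Xf x := by
  unfold Xf
  have := Rt_ge x
  have h2 := le_max_left (Rt x) x
  omega

theorem Xf_large {x : ℕ} (h : 509 < x) : Xf x = x + 1 := by
  unfold Xf Rt
  rw [if_pos h, max_eq_right (by omega)]

theorem frac_anti {a b : ℚ} (ha : 1 < a) (hab : a ≤ b) : b / (b - 1) ≤ a / (a - 1) := by
  rw [div_le_div_iff₀ (by linarith) (by linarith)]
  nlinarith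

theorem frac_ge {b : ℚ} (hb : 1 < b) : 1 ≤ b / (b - 1) := by
  rw [le_div_iff₀ (by linarith)]
  linarith

def fW (k x : ℕ) : ℚ :=
  ((x : ℚ) / (x - 1)) * ((Xf x : ℚ) / (Xf x - 1)) ^ k * ((Xf x : ℚ) ^ 2 / ((Xf x : ℚ) ^ 2 - 1))

theorem Xq (x : ℕ) : (240 : ℚ) ≤ (Xf x : ℚ) := by exact_mod_cast Xf_ge x

theorem Xq2 (x : ℕ) : (1 : ℚ) < (Xf x : ℚ) ^ 2 := by
  have := Xq x
  nlinarith

theorem fW_one_le (k : ℕ) {x : ℕ} (hx : 2 ≤ x) : 1 ≤ fW k x := by
  have hx' : (2 : ℚ) ≤ (x : ℚ) := by exact_mod_cast hx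
  have h1 := frac_ge (b := (x : ℚ)) (by linarith)
  have h2 := frac_ge (b := (Xf x : ℚ)) (by have := Xq x; linarith)
  have h3 := frac_ge (Xq2 x)
  have h4 := one_le_pow₀ h2 (n := k)
  unfold fW
  exact one_le_mul_of_one_le_of_one_le (one_le_mul_of_one_le_of_one_le h1 h4) h3

theorem fW_mono {k l : ℕ} (hkl : k ≤ l) {x : ℕ} (hx : 2 ≤ x) : fW k x ≤ fW l x := by
  have hx' : (2 : ℚ) ≤ (x : ℚ) := by exact_mod_cast hx
  have h1 := frac_ge (b := (x : ℚ)) (by linarith)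
  have h2 := frac_ge (b := (Xf x : ℚ)) (by have := Xq x; linarith)
  have h3 := frac_ge (Xq2 x)
  have h4 := pow_le_pow_right₀ h2 hkl
  unfold fW
  gcongr

theorem fW_large (k : ℕ) {x : ℕ} (hx : 523 ≤ x) : fW k x ≤ fW k 523 := by
  have hx' : (523 : ℚ) ≤ (x : ℚ) := by exact_mod_cast hx
  have e1 : (Xf x : ℚ) = x + 1 := by rw [Xf_large (by omega)]; push_cast; ring
  have e2 : (Xf 523 : ℚ) = 524 := by rw [Xf_large (by omega)]; norm_num
  have h1 := frac_anti (a := 523) (b := (x : ℚ)) (by norm_num) hx'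
  have h2 := frac_anti (a := 524) (b := (Xf x : ℚ)) (by norm_num) (by rw [e1]; linarith)
  have h3 := frac_anti (a := 524 ^ 2) (b := (Xf x : ℚ) ^ 2) (by norm_num)
    (by rw [e1]; nlinarith)
  have p2 := frac_ge (b := (Xf x : ℚ)) (by have := Xq x; linarith)
  have p3 := frac_ge (Xq2 x)
  have h4 := pow_le_pow_left₀ (by linarith) h2 k
  have p1 := frac_ge (b := (x : ℚ)) (by linarith)
  have p4 := one_le_pow₀ p2 (n := k)
  unfold fW
  rw [e2]
  push_cast
  refine mul_le_mul (mul_le_mul h1 h4 (by linarith) ?_) h3 (by linarith) ?_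
  · norm_num
  · exact mul_nonneg (by norm_num) (pow_nonneg (by norm_num) _)

/-- consequences of the entry check -/
theorem ent_spec {e : Ent} (h : entOk e = true) :
    3 ≤ e.1 ∧ fW 1 e.1 = (e.2.1 : ℚ) / e.2.2.1 ∧ fW 7 e.1 = (e.2.2.2.1 : ℚ) / e.2.2.2.2.1 ∧
    0 < e.2.2.1 ∧ 0 < e.2.2.2.2.1 ∧ e.1 ≤ 523 ∧ 0 < e.2.2.2.2.2.2 ∧
    (e.1 = 523 → e.2.2.2.2.2.1 = 1 ∧ e.2.2.2.2.2.2 = 1) ∧
    (e.1 ≠ 523 → e.2.2.2.2.2.1 = S e.1 (amin e.1 + 1) ∧ e.2.2.2.2.2.2 = e.1 ^ amin e.1) := by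
  obtain ⟨t, N1, D1, N7, D7, LN, LD⟩ := e
  simp only [entOk, Bool.and_eq_true, Bool.or_eq_true, beq_iff] at h
  obtain ⟨h1, h2, h3, h4, h5, h6⟩ := h
  have ht : 3 ≤ t := Nat.le_of_ble_eq_true h5
  have hX := Xf_ge t
  have hX1 : 0 < Xf t - 1 := by omega
  have hX2 : 0 < Xf t ^ 2 - 1 := by
    have : 1 < Xf t ^ 2 := Nat.one_lt_pow (by norm_num) (by omega)
    omega
  have c1 : ((t - 1 : ℕ) : ℚ) = (t : ℚ) - 1 := by rw [Nat.cast_sub (by omega)]; simp
  have c2 : ((Xf t - 1 : ℕ) : ℚ) = (Xf t : ℚ) - 1 := by rw [Nat.cast_sub (by omega)]; simp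
  have c3 : ((Xf t ^ 2 - 1 : ℕ) : ℚ) = (Xf t : ℚ) ^ 2 - 1 := by
    rw [Nat.cast_sub (by omega)]; simp
  have d1 : (t : ℚ) - 1 ≠ 0 := by rw [← c1]; exact_mod_cast (by omega : t - 1 ≠ 0)
  have d2 : (Xf t : ℚ) - 1 ≠ 0 := by rw [← c2]; exact_mod_cast hX1.ne'
  have d3 : (Xf t : ℚ) ^ 2 - 1 ≠ 0 := by rw [← c3]; exact_mod_cast hX2.ne'
  refine ⟨ht, ?_, ?_, ?_, ?_, ?_, ?_, ?_, ?_⟩
  · simp only [fW, h1, h2]
    push_cast [c1, c2, c3]
    field_simp
  · simp only [fW, h3, h4]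
    push_cast [c1, c2, c3]
    field_simp
  · simp only [h2]
    exact Nat.mul_pos (Nat.mul_pos (by omega) hX1) hX2
  · simp only [h4]
    exact Nat.mul_pos (Nat.mul_pos (by omega) (pow_pos hX1 7)) hX2
  · rcases h6 with h6 | h6
    · exact h6.1.le
    · have := Nat.le_of_ble_eq_true h6.1
      show t ≤ 523
      omega
  · rcases h6 with h6 | h6
    · show 0 < LD
      rw [h6.2.2]; exact Nat.one_pos
    · show 0 < LD
      rw [h6.2.2]; exact pow_pos (by omega) _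
  · intro h7
    rcases h6 with h6 | h6
    · exact h6.2
    · have := Nat.le_of_ble_eq_true h6.1
      simp only at h7
      omega
  · intro h7
    rcases h6 with h6 | h6
    · exact absurd h6.1 h7
    · exact h6.2

theorem exists_ent {x : ℕ} (hx : x.Prime) (h5 : 5 ≤ x) :
    ∃ e ∈ TL, e.1 = min x 523 := by
  rcases Nat.lt_or_ge x 523 with h | h
  · rcases cover_TL x (List.mem_range.2 (by omega)) with h1 | h1 | h1
    · omega
    · obtain ⟨e, he, he2⟩ := List.mem_map.1 (memB_sound h1)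
      exact ⟨e, he, by rw [he2]; omega⟩
    · exact absurd hx (hasDiv_sound h1)
  · rcases cover_TL 523 (List.mem_range.2 (by omega)) with h1 | h1 | h1
    · omega
    · obtain ⟨e, he, he2⟩ := List.mem_map.1 (memB_sound h1)
      exact ⟨e, he, by rw [he2]; omega⟩
    · exact absurd (by norm_num : Nat.Prime 523) (hasDiv_sound h1)

theorem fW_le_min (k : ℕ) {x : ℕ} : fW k x ≤ fW k (min x 523) := by
  rcases Nat.lt_or_ge x 523 with h | h
  · rw [min_eq_left (by omega)]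
  · rw [min_eq_right h]
    exact fW_large k h

theorem S_div_mono {x A a : ℕ} (hx : 0 < x) (hA : A ≤ a) :
    (S x (A + 1) : ℚ) / (x : ℚ) ^ A ≤ (S x (a + 1) : ℚ) / (x : ℚ) ^ a := by
  have hx' : (0 : ℚ) < (x : ℚ) := by exact_mod_cast hx
  obtain ⟨b, rfl⟩ := Nat.exists_eq_add_of_le hA
  have h1 : x ^ b * S x (A + 1) ≤ S x (A + b + 1) := by
    unfold S
    rw [show A + b + 1 = b + (A + 1) by ring,
      Finset.sum_range_add (fun i => x ^ i) b (A + 1), Finset.mul_sum]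
    have : ∑ i ∈ range (A + 1), x ^ b * x ^ i = ∑ i ∈ range (A + 1), x ^ (b + i) :=
      Finset.sum_congr rfl (fun i _ => (pow_add x b i).symm)
    omega
  have h1' : (x : ℚ) ^ b * (S x (A + 1) : ℚ) ≤ (S x (A + b + 1) : ℚ) := by exact_mod_cast h1
  rw [div_le_div_iff₀ (by positivity) (by positivity), pow_add]
  calc (S x (A + 1) : ℚ) * ((x : ℚ) ^ A * (x : ℚ) ^ b)
      = ((x : ℚ) ^ b * (S x (A + 1) : ℚ)) * (x : ℚ) ^ A := by ring
    _ ≤ (S x (A + b + 1) : ℚ) * (x : ℚ) ^ A := by gcongr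

/-- the lower bound for one factor -/
theorem lb_factor {n x : ℕ} (hx : 1 < x) (ha : amin x ≤ n.factorization x) {e : Ent}
    (he : entOk e = true) (hex : e.1 = min x 523) :
    (e.2.2.2.2.2.1 : ℚ) / e.2.2.2.2.2.2 ≤ (rv n x : ℚ) / (x : ℚ) ^ (n.factorization x) := by
  obtain ⟨-, -, -, -, -, -, -, h523, hne⟩ := ent_spec he
  by_cases h : e.1 = 523
  · obtain ⟨h1, h2⟩ := h523 h
    rw [h1, h2]
    have h3 := S_div_mono (x := x) (A := 0) (a := n.factorization x) (by omega) (Nat.zero_le _)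
    unfold rv
    simpa [S] using h3
  · obtain ⟨h1, h2⟩ := hne h
    have h4 : e.1 = x := by
      rcases Nat.lt_or_ge x 523 with h5 | h5
      · rw [hex, min_eq_left (by omega)]
      · rw [hex, min_eq_right h5] at h
        exact absurd rfl h
    rw [h1, h2, h4]
    unfold rv
    push_cast
    exact S_div_mono (by omega) ha

end Pool.Agent.NearSuper255
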