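import Pool.Agent.NearSuper255.FinTab2
import Pool.Agent.NearSuper255.CaseA

/-!
# Branch and bound for the finite check
-/

namespace Pool.Agent.NearSuper255

open Finset

/-- lower bound for the partner of `t` in its class, second table -/
def Xg (t : ℕ) : ℕ := max (Rt2 t) t + 1

def amin2 (t : ℕ) : ℕ :=
  if t = 3 then 16 else if t = 5 then 10 else if t = 7 then 6 else if t = 11 then 4
  else if t = 13 then 4 else if t = 17 then 4 else if t = 19 then 4 else if t = 23 then 4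
  else if t = 29 then 4 else 2

def gW (k x : ℕ) : ℚ :=
  ((x : ℚ) / (x - 1)) * ((Xg x : ℚ) / (Xg x - 1)) ^ k * ((Xg x : ℚ) ^ 2 / ((Xg x : ℚ) ^ 2 - 1))

theorem Rt2_ge (x : ℕ) : 239 ≤ Rt2 x := by
  unfold Rt2
  split_ifs
  · exact le_refl _
  · exact lookupR_ge x R2L (by decide +kernel)

theorem Xg_ge (x : ℕ) : 240 ≤ Xg x := by
  unfold Xg
  have := Rt2_ge x
  have h2 := le_max_left (Rt2 x) x
  omega

theorem Xg_gt (x : ℕ) : x + 1 ≤ Xg x := by
  unfold Xg
  have h2 := le_max_right (Rt2 x) x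
  omega

theorem Xgq (x : ℕ) : (240 : ℚ) ≤ (Xg x : ℚ) := by exact_mod_cast Xg_ge x

theorem Xgq2 (x : ℕ) : (1 : ℚ) < (Xg x : ℚ) ^ 2 := by
  have := Xgq x
  nlinarith

theorem gW_one_le (k : ℕ) {x : ℕ} (hx : 2 ≤ x) : 1 ≤ gW k x := by
  have hx' : (2 : ℚ) ≤ (x : ℚ) := by exact_mod_cast hx
  have h1 := frac_ge (b := (x : ℚ)) (by linarith)
  have h2 := frac_ge (b := (Xg x : ℚ)) (by have := Xgq x; linarith)
  have h3 := frac_ge (Xgq2 x)
  have h4 := one_le_pow₀ h2 (n := k)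
  unfold gW
  exact one_le_mul_of_one_le_of_one_le (one_le_mul_of_one_le_of_one_le h1 h4) h3

theorem gW_mono {k l : ℕ} (hkl : k ≤ l) {x : ℕ} (hx : 2 ≤ x) : gW k x ≤ gW l x := by
  have hx' : (2 : ℚ) ≤ (x : ℚ) := by exact_mod_cast hx
  have h1 := frac_ge (b := (x : ℚ)) (by linarith)
  have h2 := frac_ge (b := (Xg x : ℚ)) (by have := Xgq x; linarith)
  have h3 := frac_ge (Xgq2 x)
  have h4 := pow_le_pow_right₀ h2 hkl
  unfold gW
  gcongr

/-- the weight is at most the one computed from lower bounds for `x` and for the partner -/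
theorem gW_le (k : ℕ) {x t y : ℕ} (ht : 2 ≤ t) (htx : t ≤ x) (hy : 2 ≤ y) (hyX : y ≤ Xg x) :
    gW k x ≤ ((t : ℚ) / (t - 1)) * ((y : ℚ) / (y - 1)) ^ k * ((y : ℚ) ^ 2 / ((y : ℚ) ^ 2 - 1)) := by
  have ht' : (2 : ℚ) ≤ (t : ℚ) := by exact_mod_cast ht
  have htx' : (t : ℚ) ≤ (x : ℚ) := by exact_mod_cast htx
  have hy' : (2 : ℚ) ≤ (y : ℚ) := by exact_mod_cast hy
  have hyX' : (y : ℚ) ≤ (Xg x : ℚ) := by exact_mod_cast hyX
  have h1 := frac_anti (a := (t : ℚ)) (b := (x : ℚ)) (by linarith) htx'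
  have h2 := frac_anti (a := (y : ℚ)) (b := (Xg x : ℚ)) (by linarith) hyX'
  have h3 := frac_anti (a := (y : ℚ) ^ 2) (b := (Xg x : ℚ) ^ 2) (by nlinarith) (by nlinarith)
  have p2 := frac_ge (b := (Xg x : ℚ)) (by have := Xgq x; linarith)
  have p3 := frac_ge (Xgq2 x)
  have h4 := pow_le_pow_left₀ (by linarith) h2 k
  have p1 := frac_ge (b := (x : ℚ)) (by linarith)
  have p4 := one_le_pow₀ p2 (n := k)
  have q1 := frac_ge (b := (t : ℚ)) (by linarith)
  have q2 := frac_ge (b := (y : ℚ)) (by linarith)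
  have q4 := one_le_pow₀ q2 (n := k)
  unfold gW
  refine mul_le_mul (mul_le_mul h1 h4 (by linarith) (by linarith)) h3 (by linarith) ?_
  exact mul_nonneg (by linarith) (by linarith)

/-- the branch and bound check -/
def bb (fN fD : En2 → ℕ) (TN TD c1 c2 tN tD : ℕ) (L : List En2) :
    ℕ → ℕ → ℕ → ℕ → ℕ → Bool :=
  @List.rec En2 (fun _ => ℕ → ℕ → ℕ → ℕ → ℕ → Bool)
    (fun j N D LN LD =>
      Nat.ble (Nat.mul TN LD) (Nat.mul LN TD) ||
      Nat.ble (Nat.mul N (Nat.pow tN j)) (Nat.mul (Nat.mul 2 D) (Nat.pow tD j)))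
    (fun e _ ih j N D LN LD =>
      Nat.ble (Nat.mul TN LD) (Nat.mul LN TD) ||
      (Nat.ble (Nat.mul N (Nat.pow (Nat.mul e.1 c1) j))
        (Nat.mul (Nat.mul 2 D) (Nat.pow (Nat.mul (Nat.sub e.1 1) c2) j)) ||
      (Nat.ble 1 j &&
        (ih (Nat.sub j 1) (Nat.mul N (fN e)) (Nat.mul D (fD e)) (Nat.mul LN e.2.2.2.2.2.1)
            (Nat.mul LD e.2.2.2.2.2.2) &&
          ih j N D LN LD)))) L

theorem bb_nil (fN fD : En2 → ℕ) (TN TD c1 c2 tN tD j N D LN LD : ℕ) :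
    bb fN fD TN TD c1 c2 tN tD [] j N D LN LD =
      (Nat.ble (TN * LD) (LN * TD) || Nat.ble (N * tN ^ j) (2 * D * tD ^ j)) := rfl

theorem bb_cons (fN fD : En2 → ℕ) (TN TD c1 c2 tN tD : ℕ) (e : En2) (l : List En2)
    (j N D LN LD : ℕ) :
    bb fN fD TN TD c1 c2 tN tD (e :: l) j N D LN LD =
      (Nat.ble (TN * LD) (LN * TD) ||
      (Nat.ble (N * (e.1 * c1) ^ j) (2 * D * ((e.1 - 1) * c2) ^ j) ||
      (Nat.ble 1 j &&
        (bb fN fD TN TD c1 c2 tN tD l (j - 1) (N * fN e) (D * fD e) (LN * e.2.2.2.2.2.1)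
            (LD * e.2.2.2.2.2.2) &&
          bb fN fD TN TD c1 c2 tN tD l j N D LN LD)))) := rfl

theorem bb_bound {P : ℚ} {w : ℕ → ℚ} {T : Finset ℕ} {j N D cN cD : ℕ} (hj : T.card = j)
    (hP : 0 ≤ P) (hPN : P ≤ (N : ℚ) / D) (hD : 0 < D) (hc : 0 < cD)
    (hw0 : ∀ x ∈ T, 0 ≤ w x) (hw : ∀ x ∈ T, w x ≤ (cN : ℚ) / cD)
    (h : N * cN ^ j ≤ 2 * D * cD ^ j) : P * ∏ x ∈ T, w x ≤ 2 := by
  have h1 : ∏ x ∈ T, w x ≤ ((cN : ℚ) / cD) ^ j := by
    rw [← hj, ← Finset.prod_const]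
    exact Finset.prod_le_prod hw0 hw
  have h2 : 0 ≤ ∏ x ∈ T, w x := Finset.prod_nonneg hw0
  have hD' : (0 : ℚ) < D := by exact_mod_cast hD
  have hc' : (0 : ℚ) < cD := by exact_mod_cast hc
  have h3 : P * ∏ x ∈ T, w x ≤ (N : ℚ) / D * ((cN : ℚ) / cD) ^ j :=
    mul_le_mul hPN h1 h2 (le_trans hP hPN)
  refine le_trans h3 ?_
  rw [div_pow, div_mul_div_comm, div_le_iff₀ (by positivity)]
  have h4 : (N : ℚ) * (cN : ℚ) ^ j ≤ 2 * D * (cD : ℚ) ^ j := by exact_mod_cast h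
  linarith

theorem bb_sound {fN fD : En2 → ℕ} {TN TD c1 c2 tN tD tmax : ℕ} {w lb : ℕ → ℚ} {V : Finset ℕ}
    (hTD : 0 < TD) (hc2 : 0 < c2) (htD : 0 < tD) (htm : 2 ≤ tmax)
    (hlt : ∀ U ⊆ V, ∏ x ∈ U, lb x < (TN : ℚ) / TD)
    (hlb0 : ∀ x ∈ V, 0 ≤ lb x) (hw0 : ∀ x ∈ V, 0 ≤ w x)
    (hcoarse : ∀ t x, 2 ≤ t → t ≤ x → x ∈ V → w x ≤ ((t * c1 : ℕ) : ℚ) / ((t - 1) * c2 : ℕ))
    (htail : ∀ x, tmax ≤ x → x ∈ V → w x ≤ (tN : ℚ) / tD) :
    ∀ (L : List En2), (∀ e ∈ L, 2 ≤ e.1 ∧ e.1 < tmax ∧ 0 < fD e ∧ 0 < e.2.2.2.2.2.2) →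
      (∀ e ∈ L, e.1 ∈ V → w e.1 ≤ (fN e : ℚ) / fD e ∧
        (e.2.2.2.2.2.1 : ℚ) / e.2.2.2.2.2.2 ≤ lb e.1) →
      L.Pairwise (fun a b => a.1 < b.1) →
      ∀ (j N D LN LD : ℕ), bb fN fD TN TD c1 c2 tN tD L j N D LN LD = true →
      ∀ (T U : Finset ℕ) (P : ℚ), T ⊆ V → U ⊆ V → Disjoint U T → T.card = j →
      (∀ x ∈ T, x ∈ L.map Prod.fst ∨ tmax ≤ x) → 0 ≤ P → P ≤ (N : ℚ) / D → 0 < D → 0 < LD →
      (LN : ℚ) / LD ≤ ∏ x ∈ U, lb x → P * ∏ x ∈ T, w x ≤ 2 := by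
  intro L
  have hviol : ∀ (LN LD : ℕ) (U : Finset ℕ), U ⊆ V → 0 < LD → Nat.ble (TN * LD) (LN * TD) = true →
      (LN : ℚ) / LD ≤ ∏ x ∈ U, lb x → False := by
    intro LN LD U hU hLD hb hl
    have h1 := Nat.le_of_ble_eq_true hb
    have h2 := hlt U hU
    have h3 : (TN : ℚ) / TD ≤ (LN : ℚ) / LD := by
      rw [div_le_div_iff₀ (by exact_mod_cast hTD) (by exact_mod_cast hLD)]
      exact_mod_cast h1
    linarith
  induction L with
  | nil =>
    intro _ _ _ j N D LN LD hb T U P hT hU hdis hj hcov hP hPN hD hLD hl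
    rw [bb_nil, Bool.or_eq_true] at hb
    rcases hb with hb | hb
    · exact (hviol LN LD U hU hLD hb hl).elim
    · refine bb_bound hj hP hPN hD htD (fun x hx => hw0 x (hT hx)) (fun x hx => ?_)
        (Nat.le_of_ble_eq_true hb)
      rcases hcov x hx with h1 | h1
      · simp at h1
      · exact htail x h1 (hT hx)
  | cons e l ih =>
    intro hpos hent hpw j N D LN LD hb T U P hT hU hdis hj hcov hP hPN hD hLD hl
    rw [bb_cons, Bool.or_eq_true, Bool.or_eq_true, Bool.and_eq_true, Bool.and_eq_true] at hb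
    obtain ⟨he2, het, hfD, hLDe⟩ := hpos e List.mem_cons_self
    have hpw' := List.pairwise_cons.1 hpw
    rcases hb with hb | hb | ⟨hj1, hb1, hb2⟩
    · exact (hviol LN LD U hU hLD hb hl).elim
    · refine bb_bound hj hP hPN hD (Nat.mul_pos (by omega) hc2) (fun x hx => hw0 x (hT hx))
        (fun x hx => ?_) (Nat.le_of_ble_eq_true hb)
      refine hcoarse e.1 x he2 ?_ (hT hx)
      rcases hcov x hx with h1 | h1
      · rw [List.map_cons, List.mem_cons] at h1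
        rcases h1 with h1 | h1
        · exact h1.ge
        · obtain ⟨e', he', h2⟩ := List.mem_map.1 h1
          have := hpw'.1 e' he'
          omega
      · omega
    · have hj1' := Nat.le_of_ble_eq_true hj1
      have hpos' : ∀ e ∈ l, 2 ≤ e.1 ∧ e.1 < tmax ∧ 0 < fD e ∧ 0 < e.2.2.2.2.2.2 :=
        fun e' he' => hpos e' (List.mem_cons_of_mem _ he')
      have hent' : ∀ e ∈ l, e.1 ∈ V → w e.1 ≤ (fN e : ℚ) / fD e ∧
        (e.2.2.2.2.2.1 : ℚ) / e.2.2.2.2.2.2 ≤ lb e.1 :=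
        fun e' he' => hent e' (List.mem_cons_of_mem _ he')
      by_cases heT : e.1 ∈ T
      · have heV := hT heT
        obtain ⟨hw1, hlb1⟩ := hent e List.mem_cons_self heV
        have heU : e.1 ∉ U := fun h => (Finset.disjoint_left.1 hdis) h heT
        have hprod : P * ∏ x ∈ T, w x = (P * w e.1) * ∏ x ∈ T.erase e.1, w x := by
          rw [← Finset.mul_prod_erase T _ heT]
          ring
        rw [hprod]
        have hD' : (0 : ℚ) < D := by exact_mod_cast hD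
        have hfD' : (0 : ℚ) < fD e := by exact_mod_cast hfD
        have hLD' : (0 : ℚ) < LD := by exact_mod_cast hLD
        have hLDe' : (0 : ℚ) < e.2.2.2.2.2.2 := by exact_mod_cast hLDe
        refine ih hpos' hent' hpw'.2 (j - 1) _ _ _ _ hb1 (T.erase e.1) (insert e.1 U) (P * w e.1)
          ((Finset.erase_subset _ _).trans hT) ?_ ?_ ?_ ?_ ?_ ?_ ?_ ?_ ?_
        · exact Finset.insert_subset heV hU
        · rw [Finset.disjoint_left]
          intro x hx hx2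
          rcases Finset.mem_insert.1 hx with rfl | hx
          · exact (Finset.mem_erase.1 hx2).1 rfl
          · exact (Finset.disjoint_left.1 hdis) hx (Finset.mem_of_mem_erase hx2)
        · rw [Finset.card_erase_of_mem heT, hj]
        · intro x hx
          rcases hcov x (Finset.mem_of_mem_erase hx) with h1 | h1
          · rw [List.map_cons, List.mem_cons] at h1
            rcases h1 with h1 | h1
            · exact absurd h1 (Finset.mem_erase.1 hx).1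
            · exact Or.inl h1
          · exact Or.inr h1
        · exact mul_nonneg hP (hw0 _ heV)
        · push_cast
          rw [← div_mul_div_comm]
          exact mul_le_mul hPN hw1 (hw0 _ heV) (le_trans hP hPN)
        · exact Nat.mul_pos hD hfD
        · exact Nat.mul_pos hLD hLDe
        · rw [Finset.prod_insert heU]
          push_cast
          rw [← div_mul_div_comm, mul_comm]
          refine mul_le_mul hlb1 hl (by positivity) (hlb0 _ heV)
      · refine ih hpos' hent' hpw'.2 j N D LN LD hb2 T U P hT hU hdis hj ?_ hP hPN hD hLD hl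
        intro x hx
        rcases hcov x hx with h1 | h1
        · rw [List.map_cons, List.mem_cons] at h1
          rcases h1 with h1 | h1
          · exact absurd (h1 ▸ hx) heT
          · exact Or.inl h1
        · exact Or.inr h1

end Pool.Agent.NearSuper255
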