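import Pool.Agent.NearSuper255.Bnb

/-!
# The finite checks by branch and bound
-/

namespace Pool.Agent.NearSuper255

open Finset

def entOk2 (e : En2) : Bool :=
  Nat.beq e.2.1 (e.1 * Xg e.1 * (Xg e.1) ^ 2) &&
  (Nat.beq e.2.2.1 ((e.1 - 1) * (Xg e.1 - 1) * ((Xg e.1) ^ 2 - 1)) &&
  (Nat.beq e.2.2.2.1 (e.1 * (Xg e.1) ^ 3 * (Xg e.1) ^ 2) &&
  (Nat.beq e.2.2.2.2.1 ((e.1 - 1) * (Xg e.1 - 1) ^ 3 * ((Xg e.1) ^ 2 - 1)) &&
  (Nat.ble 3 e.1 && (Nat.ble e.1 797 &&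
  (Nat.beq e.2.2.2.2.2.1 (S e.1 (amin2 e.1 + 1)) &&
      Nat.beq e.2.2.2.2.2.2 (e.1 ^ amin2 e.1)))))))

def allF (f : En2 → Bool) (l : List En2) : Bool :=
  @List.rec En2 (fun _ => Bool) true (fun x _ ih => @Bool.rec (fun _ => Bool) false ih (f x)) l

theorem allF_cons (f : En2 → Bool) (x : En2) (l : List En2) :
    allF f (x :: l) = (f x && allF f l) := by
  show @Bool.rec (fun _ => Bool) false (allF f l) (f x) = _
  cases f x <;> rfl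

theorem allF_sound {f : En2 → Bool} : ∀ {l : List En2}, allF f l = true → ∀ x ∈ l, f x = true := by
  intro l
  induction l with
  | nil => intro _ x hx; simp at hx
  | cons a l ih =>
    intro h x hx
    rw [allF_cons, Bool.and_eq_true] at h
    rcases List.mem_cons.1 hx with rfl | hx
    · exact h.1
    · exact ih h.2 x hx

theorem fl_ok : allF entOk2 (f3 :: f5 :: FL) = true := by decide +kernel

theorem fl_sorted : (f5 :: FL).Pairwise (fun a b => a.1 < b.1) := by decide +kernel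

theorem cover5 : ∀ t ∈ List.range 798, t < 5 ∨ memB t ((f5 :: FL).map Prod.fst) = true ∨
    hasDiv t = true := by
  decide +kernel

theorem cover7 : ∀ t ∈ List.range 798, t < 7 ∨ memB t (FL.map Prod.fst) = true ∨
    hasDiv t = true := by
  decide +kernel

def n1 (e : En2) : ℕ := e.2.1

def d1 (e : En2) : ℕ := e.2.2.1

def n3 (e : En2) : ℕ := e.2.2.2.1

def d3 (e : En2) : ℕ := e.2.2.2.2.1

theorem bb1 : bb n1 d1 156251 78125 (240 ^ 1 * 240 ^ 2) (239 ^ 1 * (240 ^ 2 - 1))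
    (798 * 799 ^ 1 * 799 ^ 2) (797 * 798 ^ 1 * (799 ^ 2 - 1)) (f5 :: FL) 7 1 1 1 1 = true := by
  decide +kernel

theorem bb2 : bb n3 d3 156251 78125 (240 ^ 3 * 240 ^ 2) (239 ^ 3 * (240 ^ 2 - 1))
    (798 * 799 ^ 3 * 799 ^ 2) (797 * 798 ^ 3 * (799 ^ 2 - 1)) (f5 :: FL) 6 1 1 1 1 = true := by
  decide +kernel

theorem bb3 : bb n1 d1 354295 177147 (240 ^ 1 * 240 ^ 2) (239 ^ 1 * (240 ^ 2 - 1))
    (798 * 799 ^ 1 * 799 ^ 2) (797 * 798 ^ 1 * (799 ^ 2 - 1)) FL 4 (n1 f3) (d1 f3)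
    f3.2.2.2.2.2.1 f3.2.2.2.2.2.2 = true := by
  decide +kernel

theorem bb4 : bb n3 d3 354295 177147 (240 ^ 3 * 240 ^ 2) (239 ^ 3 * (240 ^ 2 - 1))
    (798 * 799 ^ 3 * 799 ^ 2) (797 * 798 ^ 3 * (799 ^ 2 - 1)) FL 3 (n3 f3) (d3 f3)
    f3.2.2.2.2.2.1 f3.2.2.2.2.2.2 = true := by
  decide +kernel

/-- consequences of the entry check -/
theorem ent_spec2 {e : En2} (h : entOk2 e = true) :
    3 ≤ e.1 ∧ e.1 ≤ 797 ∧ gW 1 e.1 = (n1 e : ℚ) / d1 e ∧ gW 3 e.1 = (n3 e : ℚ) / d3 e ∧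
    0 < d1 e ∧ 0 < d3 e ∧ 0 < e.2.2.2.2.2.2 ∧
    e.2.2.2.2.2.1 = S e.1 (amin2 e.1 + 1) ∧ e.2.2.2.2.2.2 = e.1 ^ amin2 e.1 := by
  obtain ⟨t, N1, D1, N3, D3, LN, LD⟩ := e
  simp only [entOk2, Bool.and_eq_true, beq_iff] at h
  obtain ⟨h1, h2, h3, h4, h5, h6, h7, h8⟩ := h
  have ht : 3 ≤ t := Nat.le_of_ble_eq_true h5
  have ht2 : t ≤ 797 := Nat.le_of_ble_eq_true h6
  have hX := Xg_ge t
  have hX1 : 0 < Xg t - 1 := by omega
  have hX2 : 0 < Xg t ^ 2 - 1 := by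
    have : 1 < Xg t ^ 2 := Nat.one_lt_pow (by norm_num) (by omega)
    omega
  have c1 : ((t - 1 : ℕ) : ℚ) = (t : ℚ) - 1 := by rw [Nat.cast_sub (by omega)]; simp
  have c2 : ((Xg t - 1 : ℕ) : ℚ) = (Xg t : ℚ) - 1 := by rw [Nat.cast_sub (by omega)]; simp
  have c3 : ((Xg t ^ 2 - 1 : ℕ) : ℚ) = (Xg t : ℚ) ^ 2 - 1 := by
    rw [Nat.cast_sub (by omega)]; simp
  have e1 : (t : ℚ) - 1 ≠ 0 := by rw [← c1]; exact_mod_cast (by omega : t - 1 ≠ 0)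
  have e2 : (Xg t : ℚ) - 1 ≠ 0 := by rw [← c2]; exact_mod_cast hX1.ne'
  have e3 : (Xg t : ℚ) ^ 2 - 1 ≠ 0 := by rw [← c3]; exact_mod_cast hX2.ne'
  refine ⟨ht, ht2, ?_, ?_, ?_, ?_, ?_, h7, h8⟩
  · simp only [gW, n1, d1, h1, h2]
    push_cast [c1, c2, c3]
    field_simp
  · simp only [gW, n3, d3, h3, h4]
    push_cast [c1, c2, c3]
    field_simp
  · simp only [d1, h2]
    exact Nat.mul_pos (Nat.mul_pos (by omega) hX1) hX2
  · simp only [d3, h4]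
    exact Nat.mul_pos (Nat.mul_pos (by omega) (pow_pos hX1 3)) hX2
  · show 0 < LD
    rw [h8]; exact pow_pos (by omega) _

theorem lb_factor2 {n : ℕ} {e : En2} (he : entOk2 e = true)
    (ha : amin2 e.1 ≤ n.factorization e.1) :
    (e.2.2.2.2.2.1 : ℚ) / e.2.2.2.2.2.2 ≤ (rv n e.1 : ℚ) / (e.1 : ℚ) ^ (n.factorization e.1) := by
  obtain ⟨h3, -, -, -, -, -, -, h1, h2⟩ := ent_spec2 he
  rw [h1, h2]
  unfold rv
  push_cast
  exact S_div_mono (by omega) ha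

theorem coarse_bd (k : ℕ) {t x : ℕ} (ht : 2 ≤ t) (htx : t ≤ x) :
    gW k x ≤ ((t * (240 ^ k * 240 ^ 2) : ℕ) : ℚ) / ((t - 1) * (239 ^ k * (240 ^ 2 - 1)) : ℕ) := by
  have h := gW_le k ht htx (y := 240) (by norm_num) (Xg_ge x)
  refine le_trans h (le_of_eq ?_)
  have c1 : ((t - 1 : ℕ) : ℚ) = (t : ℚ) - 1 := by rw [Nat.cast_sub (by omega)]; simp
  have ht' : (t : ℚ) - 1 ≠ 0 := by
    rw [← c1]; exact_mod_cast (by omega : t - 1 ≠ 0)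
  push_cast [c1]
  have h9 : ((240 : ℚ) - 1) = 239 := by norm_num
  rw [h9, div_pow]
  field_simp
  norm_num

theorem tail_bd (k : ℕ) {x : ℕ} (hx : 798 ≤ x) :
    gW k x ≤ ((798 * 799 ^ k * 799 ^ 2 : ℕ) : ℚ) / (797 * 798 ^ k * (799 ^ 2 - 1) : ℕ) := by
  have h := gW_le k (t := 798) (by norm_num) hx (y := 799) (by norm_num)
    (by have := Xg_gt x; omega)
  refine le_trans h (le_of_eq ?_)
  push_cast
  have h8 : ((798 : ℚ) - 1) = 797 := by norm_num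
  have h9 : ((799 : ℚ) - 1) = 798 := by norm_num
  rw [h8, h9, div_pow]
  field_simp
  norm_num

end Pool.Agent.NearSuper255
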