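import Pool.Agent.NearSuper255.Search

/-!
# Chunks: a range of bases with certificates for the exceptions
-/

namespace Pool.Agent.NearSuper255

open Finset

/-- no divisor `d, d + 1, ...` up to the square root, within the given fuel -/
def noDiv (f : ℕ) (k : ℕ) : ℕ → Bool :=
  @Nat.rec (fun _ => ℕ → Bool) (fun _ => false)
    (fun _ ih d =>
      @Bool.rec (fun _ => Bool)
        (@Bool.rec (fun _ => Bool) (ih (Nat.succ d)) false (Nat.beq (Nat.mod f d) 0))
        true (Nat.ble (Nat.succ f) (Nat.mul d d))) k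

theorem noDiv_succ (f k d : ℕ) : noDiv f (k + 1) d =
    bif Nat.ble (f + 1) (d * d) then true else
      bif Nat.beq (f % d) 0 then false else noDiv f k (d + 1) := by
  show @Bool.rec (fun _ => Bool)
        (@Bool.rec (fun _ => Bool) (noDiv f k (d + 1)) false (Nat.beq (f % d) 0))
        true (Nat.ble (f + 1) (d * d)) = _
  cases Nat.ble (f + 1) (d * d) <;> cases Nat.beq (f % d) 0 <;> rfl

theorem noDiv_sound {f : ℕ} : ∀ (k d : ℕ), noDiv f k d = true →
    ∀ m, d ≤ m → m * m ≤ f → ¬ m ∣ f := by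
  intro k
  induction k with
  | zero => intro d h; exact absurd h (by show ¬ (false = true); simp)
  | succ k ih =>
    intro d h m hm hmf hdvd
    rw [noDiv_succ] at h
    cases h1 : Nat.ble (f + 1) (d * d) with
    | true =>
      have h2 : f + 1 ≤ d * d := Nat.le_of_ble_eq_true h1
      have := Nat.mul_le_mul hm hm
      omega
    | false =>
      rw [h1] at h
      simp only [cond_false] at h
      cases h3 : Nat.beq (f % d) 0 with
      | true => rw [h3] at h; simp at h
      | false =>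
        rw [h3] at h
        simp only [cond_false] at h
        rcases Nat.eq_or_lt_of_le hm with h4 | h4
        · subst h4
          have h5 : f % d = 0 := Nat.mod_eq_zero_of_dvd hdvd
          rw [h5] at h3
          simp at h3
        · exact ih (d + 1) h m h4 hmf hdvd

/-- a primality test by trial division -/
def prB (f : ℕ) : Bool := Nat.ble 2 f && noDiv f 1000 2

theorem prB_sound {f : ℕ} (h : prB f = true) : f.Prime := by
  unfold prB at h
  rw [Bool.and_eq_true] at h
  have h2 : 2 ≤ f := Nat.le_of_ble_eq_true h.1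
  rw [Nat.prime_def_le_sqrt]
  refine ⟨h2, fun m hm hms => ?_⟩
  exact noDiv_sound 1000 2 h.2 m hm (Nat.le_sqrt.1 hms)

def prL : List (ℕ × ℕ) → Bool
  | [] => true
  | x :: l => prB x.2 && prL l

theorem prL_sound : ∀ {l : List (ℕ × ℕ)}, prL l = true → ∀ x ∈ l, x.2.Prime := by
  intro l
  induction l with
  | nil => intro _ x hx; simp at hx
  | cons a l ih =>
    intro h x hx
    unfold prL at h
    rw [Bool.and_eq_true] at h
    rcases List.mem_cons.1 hx with rfl | hx
    · exact prB_sound h.1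
    · exact ih h.2 x hx

def prQ : List ℕ → Bool
  | [] => true
  | x :: l => prB x && prQ l

theorem prQ_sound : ∀ {l : List ℕ}, prQ l = true → ∀ x ∈ l, x.Prime := by
  intro l
  induction l with
  | nil => intro _ x hx; simp at hx
  | cons a l ih =>
    intro h x hx
    unfold prQ at h
    rw [Bool.and_eq_true] at h
    rcases List.mem_cons.1 hx with rfl | hx
    · exact prB_sound h.1
    · exact ih h.2 x hx

def prG : List (ℕ × List (ℕ × ℕ)) → Bool
  | [] => true
  | x :: l => prL x.2 && prG l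

theorem prG_sound : ∀ {l : List (ℕ × List (ℕ × ℕ))}, prG l = true →
    ∀ g ∈ l, ∀ x ∈ g.2, x.2.Prime := by
  intro l
  induction l with
  | nil => intro _ x hx; simp at hx
  | cons a l ih =>
    intro h x hx
    unfold prG at h
    rw [Bool.and_eq_true] at h
    rcases List.mem_cons.1 hx with rfl | hx
    · exact prL_sound h.1
    · exact ih h.2 x hx

/-- one certificate for the pair `(p, q)`: swap flag, `Y0`, `e0`, `fq`, `G`, `FN`, `n` -/
def cchk1 (p q : ℕ) (sw : Bool) (Y0 : ℕ) (e0 : List (ℕ × ℕ)) (fq : List ℕ)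
    (G : List (ℕ × List (ℕ × ℕ))) (FN : List (ℕ × ℕ)) (n : ℕ) : Bool :=
  Nat.ble 1 Y0 && (prL e0 && (prQ fq && (prG G &&
    (bif sw then search Y0 e0 fq G FN n q p else search Y0 e0 fq G FN n p q))))

theorem cchk1_sound {p q : ℕ} {sw : Bool} {Y0 : ℕ} {e0 : List (ℕ × ℕ)} {fq : List ℕ}
    {G : List (ℕ × List (ℕ × ℕ))} {FN : List (ℕ × ℕ)} {n : ℕ}
    (h : cchk1 p q sw Y0 e0 fq G FN n = true) {N M : ℕ} (hS : Sol p q N M) : False := by
  unfold cchk1 at h
  simp only [Bool.and_eq_true] at h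
  obtain ⟨h1, h2, h3, h4, h5⟩ := h
  have hY : 0 < Y0 := Nat.le_of_ble_eq_true h1
  cases sw with
  | true => exact search_sound hS.symm hY (prL_sound h2) (prQ_sound h3) (prG_sound h4) h5
  | false => exact search_sound hS hY (prL_sound h2) (prQ_sound h3) (prG_sound h4) h5

/-- certificates: `(q, sw, Y0, e0, fq, G, FN, n)` -/
abbrev Cert : Type := ℕ × Bool × ℕ × List (ℕ × ℕ) × List ℕ × List (ℕ × List (ℕ × ℕ)) ×
  List (ℕ × ℕ) × ℕ

def cchk (p : ℕ) : List Cert → Bool
  | [] => true
  | c :: l => cchk1 p c.1 c.2.1 c.2.2.1 c.2.2.2.1 c.2.2.2.2.1 c.2.2.2.2.2.1 c.2.2.2.2.2.2.1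
      c.2.2.2.2.2.2.2 && cchk p l

theorem cchk_sound {p : ℕ} : ∀ {l : List Cert}, cchk p l = true → ∀ q ∈ l.map Prod.fst,
    ∀ N M, Sol p q N M → False := by
  intro l
  induction l with
  | nil => intro _ q hq; simp at hq
  | cons c l ih =>
    intro h q hq N M hS
    unfold cchk at h
    rw [Bool.and_eq_true] at h
    rw [List.map_cons] at hq
    rcases List.mem_cons.1 hq with rfl | hq
    · exact cchk1_sound h.1 hS
    · exact ih h.2 q hq N M hS

/-- a chunk: all `q0, q0 + 2, ...` (`k` numbers) -/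
def chunk (W : ℕ) (s : ℕ → Bool) (p : ℕ) (C : List Cert) (k q0 : ℕ) : Bool :=
  cchk p C && rchk W (C.map Prod.fst) s k q0

theorem chunk_sound {W B p k q0 Y0 : ℕ} {C : List Cert} {efp : List (ℕ × ℕ)} {fq : List ℕ}
    {G : List (ℕ × List (ℕ × ℕ))} {FN : List (ℕ × ℕ)} {n : ℕ}
    (h : chunk W (search Y0 efp fq G FN n p) p C k q0 = true)
    (hW : W ∣ B.factorial) (hB : B < q0) (hY : 0 < Y0)
    (he : ∀ x ∈ efp, x.2.Prime) (hfq : ∀ f ∈ fq, f.Prime)
    (hG : ∀ g ∈ G, ∀ x ∈ g.2, x.2.Prime) {q : ℕ} (hq : q.Prime) (h1 : q0 ≤ q)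
    (h2 : q < q0 + 2 * k) (h3 : q % 2 = q0 % 2) {N M : ℕ} (hS : Sol p q N M) : False := by
  unfold chunk at h
  rw [Bool.and_eq_true] at h
  rcases rchk_sound hW k q0 hB h.2 q hq h1 h2 h3 with h4 | h4
  · exact search_sound hS hY he hfq hG h4
  · exact cchk_sound h.1 q h4 N M hS

end Pool.Agent.NearSuper255
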