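import Mathlib

/-!
# Odd near superperfect numbers with prime sigma components: definitions

Project for MP_255fbb_nt.
-/

namespace Pool.Agent.NearSuper255

open Finset

/-- The sum `1 + x + ... + x ^ (n - 1)`. -/
def S (x n : ℕ) : ℕ := ∑ i ∈ range n, x ^ i

/-- Property (P): `σ(p ^ a)` is prime for every prime power `p ^ a` exactly dividing `n`. -/
def PropP (n : ℕ) : Prop :=
  ∀ p a : ℕ, p.Prime → 1 ≤ a → p ^ a ∣ n → ¬ p ^ (a + 1) ∣ n →
    (ArithmeticFunction.sigma 1 (p ^ a)).Prime

/-- `n` is near superperfect: `σ(σ(n)) = 2 n + d` for some positive divisor `d` of `n`. -/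
def NearSP (n : ℕ) : Prop :=
  ∃ d : ℕ, 0 < d ∧ d ∣ n ∧
    ArithmeticFunction.sigma 1 (ArithmeticFunction.sigma 1 n) = 2 * n + d

/-- The component `σ(p ^ a)` of `n` at the prime `p`, where `p ^ a` exactly divides `n`. -/
def rv (n p : ℕ) : ℕ := S p (n.factorization p + 1)

end Pool.Agent.NearSuper255
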