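import Pool.Agent.NearSuper255.Tab

/-!
# Ranges of excluded pairs, file 0
-/

namespace Pool.Agent.NearSuper255

theorem ck3_5 : chunk 6 (search 1 ef3 fqT GT FN3 3 3) 3
    [] 12 5 = true := by
  decide +kernel

theorem ck3_29 : chunk W23 (search 1 ef3 fqT GT FN3 3 3) 3
    [] 337 29 = true := by
  decide +kernel

theorem ck3_703 : chunk WW (search 1 ef3 fqT GT FN3 3 3) 3
    [(4943, false, 1, [], [7], [(547, [(273, 2), (182, 3), (78, 7), (42, 13)])], [], 1),
    (7643, false, 3, [], [], [], [(37, 18)], 0),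
    (8627, false, 1, [], [19], [(2851, [(1425, 2), (950, 3), (570, 5), (114, 5), (150, 19)])], [], 1),
    (10067, false, 1, [], [7], [(547, [(273, 2), (182, 3), (78, 7), (42, 13)])], [], 1)] 5000 703 = true := by
  decide +kernel

theorem ck3_10703 : chunk WW (search 1 ef3 fqT GT FN3 3 3) 3
    [(10831, false, 1, [], [5, 19], [(37, [(18, 2), (9, 2), (12, 3), (4, 3)]), (191, [(95, 2), (38, 5), (10, 19)]), (281, [(140, 2), (70, 2), (35, 2), (56, 5), (40, 7)]), (337, [(168, 2), (84, 2), (42, 2), (21, 2), (112, 3), (48, 7)])], [(631, 630)], 1),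
    (11243, false, 1, [], [], [(937, [(468, 2), (234, 2), (117, 2), (312, 3), (104, 3), (72, 13)]), (1171, [(585, 2), (390, 3), (130, 3), (234, 5), (90, 13)])], [(79, 78)], 1),
    (12073, false, 1, [], [], [(19, [(9, 2), (6, 3), (2, 3)]), (757, [(378, 2), (189, 2), (252, 3), (84, 3), (28, 3), (108, 7)])], [], 1),
    (14423, false, 1, [], [], [(601, [(300, 2), (150, 2), (75, 2), (200, 3), (120, 5), (24, 5)])], [(7, 6)], 1),
    (14737, false, 1, [], [], [(433, [(216, 2), (108, 2), (54, 2), (27, 2), (144, 3), (48, 3), (16, 3)]), (541, [(270, 2), (135, 2), (180, 3), (60, 3), (20, 3), (108, 5)])], [], 2),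
    (14771, false, 1, [], [7], [(547, [(273, 2), (182, 3), (78, 7), (42, 13)])], [], 1),
    (15527, false, 1, [], [], [], [(571, 570)], 0),
    (15683, false, 1, [], [], [], [(1021, 34)], 0),
    (16229, false, 1, [], [], [], [(661, 22)], 0),
    (16267, false, 3, [], [], [], [(109, 27)], 0),
    (18047, false, 1, [], [7], [(547, [(273, 2), (182, 3), (78, 7), (42, 13)])], [], 1),
    (20323, false, 1, [], [3], [(757, [(378, 2), (189, 2), (252, 3), (84, 3), (28, 3), (108, 7)])], [], 1),
    (20407, false, 1, [], [19], [(7, [(3, 2), (2, 3)]), (191, [(95, 2), (38, 5), (10, 19)]), (229, [(114, 2), (57, 2), (76, 3), (12, 19)]), (271, [(135, 2), (90, 3), (30, 3), (10, 3), (54, 5)])], [], 2)] 5000 10703 = true := by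
  decide +kernel

theorem ck3_20703 : chunk WW (search 1 ef3 fqT GT FN3 3 3) 3
    [(25339, false, 1, [], [], [(181, [(90, 2), (45, 2), (60, 3), (20, 3), (36, 5)]), (271, [(135, 2), (90, 3), (30, 3), (10, 3), (54, 5)])], [], 1),
    (28387, false, 1, [], [3], [(151, [(75, 2), (50, 3), (30, 5), (6, 5)]), (271, [(135, 2), (90, 3), (30, 3), (10, 3), (54, 5)])], [], 1),
    (30467, false, 1, [], [], [(2539, [(1269, 2), (846, 3), (282, 3), (94, 3), (54, 47)])], [(31, 30)], 1)] 5000 20703 = true := by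
  decide +kernel

theorem ck3_30703 : chunk WW (search 1 ef3 fqT GT FN3 3 3) 3
    [(31387, false, 1, [], [], [(79, [(39, 2), (26, 3), (6, 13)]), (313, [(156, 2), (78, 2), (39, 2), (104, 3), (24, 13)]), (421, [(210, 2), (105, 2), (140, 3), (84, 5), (60, 7)]), (547, [(273, 2), (182, 3), (78, 7), (42, 13)])], [(379, 378)], 1),
    (31907, false, 1, [], [7], [(547, [(273, 2), (182, 3), (78, 7), (42, 13)])], [], 1),
    (38459, false, 1, [], [], [(641, [(320, 2), (160, 2), (80, 2), (40, 2), (20, 2), (10, 2), (5, 2), (128, 5)]), (1181, [(590, 2), (295, 2), (236, 5), (20, 59)])], [(709, 177)], 1),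
    (38923, false, 1, [], [3, 13], [(313, [(156, 2), (78, 2), (39, 2), (104, 3), (24, 13)])], [(73, 12)], 1)] 5000 30703 = true := by
  decide +kernel

theorem ck3_40703 : chunk WW (search 1 ef3 fqT GT FN3 3 3) 3
    [(40927, false, 1, [], [3], [], [(541, 135)], 0),
    (42323, false, 1, [], [7], [(547, [(273, 2), (182, 3), (78, 7), (42, 13)])], [(463, 462)], 1),
    (45767, false, 1, [], [7], [(547, [(273, 2), (182, 3), (78, 7), (42, 13)])], [], 1),
    (46591, false, 1, [], [3], [(61, [(30, 2), (15, 2), (20, 3), (12, 5)]), (271, [(135, 2), (90, 3), (30, 3), (10, 3), (54, 5)])], [], 1),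
    (48481, false, 1, [], [2], [(41, [(20, 2), (10, 2), (5, 2), (8, 5)]), (433, [(216, 2), (108, 2), (54, 2), (27, 2), (144, 3), (48, 3), (16, 3)]), (541, [(270, 2), (135, 2), (180, 3), (60, 3), (20, 3), (108, 5)])], [], 2),
    (50123, false, 1, [], [19], [(2851, [(1425, 2), (950, 3), (570, 5), (114, 5), (150, 19)])], [(61, 10)], 1)] 5000 40703 = true := by
  decide +kernel

theorem ck3_50703 : chunk WW (search 1 ef3 fqT GT FN3 3 3) 3
    [(51719, false, 1, [], [], [(5, [(2, 2), (1, 2)]), (29, [(14, 2), (7, 2), (4, 7)]), (173, [(86, 2), (43, 2), (4, 43)]), (431, [(215, 2), (86, 5), (10, 43)]), (547, [(273, 2), (182, 3), (78, 7), (42, 13)])], [], 3),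
    (56687, false, 1, [], [7], [(547, [(273, 2), (182, 3), (78, 7), (42, 13)])], [], 1),
    (59447, false, 1, [], [], [(5, [(2, 2), (1, 2)]), (2477, [(1238, 2), (619, 2), (4, 619)])], [(13, 3)], 2)] 5000 50703 = true := by
  decide +kernel

theorem ck3_60703 : chunk WW (search 1 ef3 fqT GT FN3 3 3) 3
    [(61223, false, 1, [], [], [], [(547, 14)], 0),
    (65579, false, 1, [], [], [(547, [(273, 2), (182, 3), (78, 7), (42, 13)]), (1093, [(546, 2), (273, 2), (364, 3), (156, 7), (84, 13)])], [], 2),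
    (66919, false, 1, [], [], [(239, [(119, 2), (34, 7), (14, 17)]), (307, [(153, 2), (102, 3), (34, 3), (18, 17)])], [], 1),
    (68099, false, 1, [], [], [(227, [(113, 2), (2, 113)]), (1583, [(791, 2), (226, 7), (14, 113)])], [(127, 126)], 1),
    (69149, false, 1, [], [], [(61, [(30, 2), (15, 2), (20, 3), (12, 5)]), (461, [(230, 2), (115, 2), (92, 5), (20, 23)])], [], 2),
    (69847, false, 1, [], [7], [(547, [(273, 2), (182, 3), (78, 7), (42, 13)])], [(127, 126)], 1)] 5000 60703 = true := by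
  decide +kernel

theorem ck3_70703 : chunk WW (search 1 ef3 fqT GT FN3 3 3) 3
    [(71879, false, 1, [], [], [(47, [(23, 2), (2, 23)]), (599, [(299, 2), (46, 13), (26, 23)])], [(277, 69)], 2),
    (71971, false, 1, [], [], [(271, [(135, 2), (90, 3), (30, 3), (10, 3), (54, 5)]), (421, [(210, 2), (105, 2), (140, 3), (84, 5), (60, 7)])], [], 2),
    (74831, false, 1, [], [7], [(547, [(273, 2), (182, 3), (78, 7), (42, 13)])], [], 1),
    (75407, false, 1, [], [], [], [(2371, 2370)], 0),
    (75629, false, 1, [], [2], [], [(2113, 1056)], 0),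
    (75913, false, 1, [], [2, 3], [(73, [(36, 2), (18, 2), (9, 2), (24, 3), (8, 3)]), (241, [(120, 2), (60, 2), (30, 2), (15, 2), (80, 3), (48, 5)]), (271, [(135, 2), (90, 3), (30, 3), (10, 3), (54, 5)])], [], 1),
    (76079, false, 3, [], [], [], [(37, 18)], 0),
    (76667, false, 3, [], [], [], [(19, 18)], 0),
    (77339, false, 1, [], [], [(47, [(23, 2), (2, 23)]), (1289, [(644, 2), (322, 2), (161, 2), (184, 7), (56, 23)])], [(691, 690)], 2),
    (77899, false, 1, [], [], [(19, [(9, 2), (6, 3), (2, 3)]), (757, [(378, 2), (189, 2), (252, 3), (84, 3), (28, 3), (108, 7)])], [(1009, 168)], 1)] 5000 70703 = true := by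
  decide +kernel

theorem ck3_80703 : chunk WW (search 1 ef3 fqT GT FN3 3 3) 3
    [(81517, false, 1, [], [3], [(13, [(6, 2), (3, 2), (4, 3)]), (101, [(50, 2), (25, 2), (20, 5), (4, 5)]), (271, [(135, 2), (90, 3), (30, 3), (10, 3), (54, 5)])], [], 1),
    (82657, false, 1, [], [2, 7], [(29, [(14, 2), (7, 2), (4, 7)]), (197, [(98, 2), (49, 2), (28, 7), (4, 7)]), (491, [(245, 2), (98, 5), (70, 7), (10, 7)])], [(631, 630)], 1),
    (83563, false, 1, [], [3, 19], [(229, [(114, 2), (57, 2), (76, 3), (12, 19)])], [(541, 135)], 1),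
    (84979, false, 1, [], [3], [(13, [(6, 2), (3, 2), (4, 3)]), (109, [(54, 2), (27, 2), (36, 3), (12, 3), (4, 3)]), (433, [(216, 2), (108, 2), (54, 2), (27, 2), (144, 3), (48, 3), (16, 3)])], [], 1),
    (86243, false, 3, [], [], [], [(37, 18)], 0),
    (86927, false, 1, [], [7], [(547, [(273, 2), (182, 3), (78, 7), (42, 13)])], [(157, 78)], 1),
    (87013, false, 1, [], [], [(181, [(90, 2), (45, 2), (60, 3), (20, 3), (36, 5)]), (271, [(135, 2), (90, 3), (30, 3), (10, 3), (54, 5)])], [], 1),
    (88259, false, 1, [], [], [(1471, [(735, 2), (490, 3), (294, 5), (210, 7), (30, 7)])], [(229, 57)], 1),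
    (88427, false, 1, [], [19], [(2851, [(1425, 2), (950, 3), (570, 5), (114, 5), (150, 19)])], [], 1),
    (89867, false, 1, [], [7], [(547, [(273, 2), (182, 3), (78, 7), (42, 13)])], [], 1),
    (89983, false, 1, [], [3], [(757, [(378, 2), (189, 2), (252, 3), (84, 3), (28, 3), (108, 7)])], [], 1),
    (90163, false, 1, [], [], [(229, [(114, 2), (57, 2), (76, 3), (12, 19)]), (271, [(135, 2), (90, 3), (30, 3), (10, 3), (54, 5)]), (457, [(228, 2), (114, 2), (57, 2), (152, 3), (24, 19)]), (571, [(285, 2), (190, 3), (114, 5), (30, 19)])], [], 3)] 5000 80703 = true := by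
  decide +kernel

theorem ck3_90703 : chunk WW (search 1 ef3 fqT GT FN3 3 3) 3
    [(91703, false, 3, [], [], [], [(19, 18)], 0),
    (91771, false, 1, [], [], [(211, [(105, 2), (70, 3), (42, 5), (30, 7)]), (421, [(210, 2), (105, 2), (140, 3), (84, 5), (60, 7)])], [(631, 630)], 1),
    (92459, false, 1, [], [], [(23, [(11, 2), (2, 11)]), (661, [(330, 2), (165, 2), (220, 3), (132, 5), (60, 11)])], [(991, 330)], 1),
    (92669, false, 1, [], [], [], [(1051, 210)], 0),
    (93047, false, 1, [], [], [], [(1201, 300)], 0),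
    (96167, false, 1, [], [7], [(547, [(273, 2), (182, 3), (78, 7), (42, 13)])], [(43, 42)], 1),
    (96827, false, 3, [], [], [], [(4519, 4518)], 0),
    (97931, false, 1, [], [7], [(547, [(273, 2), (182, 3), (78, 7), (42, 13)])], [], 1),
    (99409, false, 1, [], [2], [(43, [(21, 2), (14, 3), (6, 7)]), (73, [(36, 2), (18, 2), (9, 2), (24, 3), (8, 3)]), (97, [(48, 2), (24, 2), (12, 2), (6, 2), (3, 2), (32, 3)]), (577, [(288, 2), (144, 2), (72, 2), (36, 2), (18, 2), (9, 2), (192, 3), (64, 3)])], [], 1),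
    (100523, false, 3, [], [], [], [(73, 12)], 0)] 5000 90703 = true := by
  decide +kernel

theorem ck3_100703 : chunk WW (search 1 ef3 fqT GT FN3 3 3) 3
    [(101363, false, 1, [], [], [], [(2467, 2466)], 0),
    (103307, false, 1, [], [7], [(547, [(273, 2), (182, 3), (78, 7), (42, 13)])], [], 1),
    (106753, false, 1, [], [], [], [(631, 630)], 0),
    (108587, true, 1, [(2, 54293)], [], [], [(63849157, 31924578)], 0)] 5000 100703 = true := by
  decide +kernel

theorem ck3_110703 : chunk WW (search 1 ef3 fqT GT FN3 3 3) 3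
    [(110909, false, 1, [], [17], [(307, [(153, 2), (102, 3), (34, 3), (18, 17)])], [], 1),
    (111821, false, 1, [], [], [], [(1117, 93)], 0),
    (113567, false, 3, [], [], [], [(19, 18)], 0),
    (113963, false, 1, [], [], [], [(997, 166)], 0),
    (114143, false, 1, [], [7], [(547, [(273, 2), (182, 3), (78, 7), (42, 13)])], [], 1),
    (115571, false, 1, [], [7], [(547, [(273, 2), (182, 3), (78, 7), (42, 13)])], [(157, 78)], 1),
    (115727, false, 1, [], [], [], [(607, 606)], 0),
    (115979, false, 1, [], [], [(547, [(273, 2), (182, 3), (78, 7), (42, 13)]), (1933, [(966, 2), (483, 2), (644, 3), (276, 7), (84, 23)])], [], 2),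
    (116903, false, 3, [], [], [], [(271, 30)], 0),
    (119687, false, 1, [], [7], [(547, [(273, 2), (182, 3), (78, 7), (42, 13)])], [], 1)] 5000 110703 = true := by
  decide +kernel

theorem ck3_120703 : chunk WW (search 1 ef3 fqT GT FN3 3 3) 3
    [(120863, false, 1, [], [7], [(547, [(273, 2), (182, 3), (78, 7), (42, 13)])], [(79, 78)], 1),
    (121019, false, 1, [], [], [(2017, [(1008, 2), (504, 2), (252, 2), (126, 2), (63, 2), (672, 3), (224, 3), (288, 7)])], [(19, 18)], 1),
    (127541, false, 1, [], [7], [(547, [(273, 2), (182, 3), (78, 7), (42, 13)])], [(157, 78)], 1),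
    (129967, false, 1, [], [], [], [(577, 48)], 0)] 5000 120703 = true := by
  decide +kernel

theorem ck3_130703 : chunk WW (search 1 ef3 fqT GT FN3 3 3) 3
    [(132547, false, 1, [], [], [], [(613, 102)], 0),
    (134293, false, 1, [], [], [], [(829, 207)], 0),
    (136993, false, 1, [], [3], [(11, [(5, 2), (2, 5)]), (271, [(135, 2), (90, 3), (30, 3), (10, 3), (54, 5)])], [], 1),
    (137399, false, 1, [], [], [(229, [(114, 2), (57, 2), (76, 3), (12, 19)])], [(7, 6)], 1),
    (137827, false, 1, [], [3, 19], [(229, [(114, 2), (57, 2), (76, 3), (12, 19)])], [(37, 18)], 1),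
    (137947, false, 1, [], [], [(19, [(9, 2), (6, 3), (2, 3)]), (757, [(378, 2), (189, 2), (252, 3), (84, 3), (28, 3), (108, 7)])], [], 1),
    (139343, false, 3, [], [], [], [(127, 126)], 0)] 5000 130703 = true := by
  decide +kernel

theorem ck3_140703 : chunk WW (search 1 ef3 fqT GT FN3 3 3) 3
    [(145967, false, 3, [], [], [], [(271, 30)], 0),
    (146197, false, 1, [], [], [(127, [(63, 2), (42, 3), (14, 3), (18, 7)]), (211, [(105, 2), (70, 3), (42, 5), (30, 7)]), (271, [(135, 2), (90, 3), (30, 3), (10, 3), (54, 5)]), (547, [(273, 2), (182, 3), (78, 7), (42, 13)])], [], 2),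
    (147227, false, 3, [], [], [], [(163, 162)], 0),
    (147451, false, 1, [], [5], [(193, [(96, 2), (48, 2), (24, 2), (12, 2), (6, 2), (3, 2), (64, 3)]), (401, [(200, 2), (100, 2), (50, 2), (25, 2), (80, 5), (16, 5)])], [(541, 135)], 1),
    (149503, false, 1, [], [], [(109, [(54, 2), (27, 2), (36, 3), (12, 3), (4, 3)]), (433, [(216, 2), (108, 2), (54, 2), (27, 2), (144, 3), (48, 3), (16, 3)])], [], 1)] 5000 140703 = true := by
  decide +kernel

theorem ck3_150703 : chunk WW (search 1 ef3 fqT GT FN3 3 3) 3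
    [(151153, false, 1, [], [], [], [(541, 135)], 0),
    (152111, false, 1, [], [7], [(547, [(273, 2), (182, 3), (78, 7), (42, 13)])], [], 1),
    (152267, false, 1, [], [19], [(2851, [(1425, 2), (950, 3), (570, 5), (114, 5), (150, 19)])], [], 1),
    (152363, false, 1, [], [7], [(547, [(273, 2), (182, 3), (78, 7), (42, 13)])], [], 1),
    (153151, false, 1, [], [3, 5], [(271, [(135, 2), (90, 3), (30, 3), (10, 3), (54, 5)])], [], 1),
    (153949, false, 1, [], [], [(19, [(9, 2), (6, 3), (2, 3)]), (29, [(14, 2), (7, 2), (4, 7)]), (37, [(18, 2), (9, 2), (12, 3), (4, 3)]), (109, [(54, 2), (27, 2), (36, 3), (12, 3), (4, 3)]), (379, [(189, 2), (126, 3), (42, 3), (14, 3), (54, 7)])], [], 2),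
    (154589, false, 3, [], [], [], [(307, 34)], 0),
    (154787, false, 3, [], [], [], [(37, 18)], 0),
    (155387, false, 1, [], [7], [(547, [(273, 2), (182, 3), (78, 7), (42, 13)])], [], 1),
    (157483, false, 1, [], [], [(19, [(9, 2), (6, 3), (2, 3)]), (349, [(174, 2), (87, 2), (116, 3), (12, 29)]), (523, [(261, 2), (174, 3), (58, 3), (18, 29)])], [(577, 48)], 2),
    (158189, false, 3, [], [], [], [(73, 12)], 0),
    (159167, false, 1, [], [7], [(547, [(273, 2), (182, 3), (78, 7), (42, 13)])], [(211, 210)], 1)] 5000 150703 = true := by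
  decide +kernel

end Pool.Agent.NearSuper255
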