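import Pool.Agent.NearSuper255.Tab

/-!
# Ranges of excluded pairs, file 1
-/

namespace Pool.Agent.NearSuper255

theorem ck3_160703 : chunk WW (search 1 ef3 fqT GT FN3 3 3) 3
    [(162389, false, 3, [], [], [], [(73, 12)], 0),
    (162937, false, 1, [], [3], [(257, [(128, 2), (64, 2), (32, 2), (16, 2), (8, 2), (4, 2), (2, 2), (1, 2)]), (577, [(288, 2), (144, 2), (72, 2), (36, 2), (18, 2), (9, 2), (192, 3), (64, 3)])], [], 1),
    (165877, false, 1, [], [], [(37, [(18, 2), (9, 2), (12, 3), (4, 3)]), (79, [(39, 2), (26, 3), (6, 13)]), (127, [(63, 2), (42, 3), (14, 3), (18, 7)]), (157, [(78, 2), (39, 2), (52, 3), (12, 13)]), (547, [(273, 2), (182, 3), (78, 7), (42, 13)])], [], 2),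
    (165983, false, 1, [], [], [(19, [(9, 2), (6, 3), (2, 3)]), (757, [(378, 2), (189, 2), (252, 3), (84, 3), (28, 3), (108, 7)])], [], 1),
    (166471, false, 1, [], [3, 5], [(271, [(135, 2), (90, 3), (30, 3), (10, 3), (54, 5)])], [], 1),
    (167429, false, 1, [], [], [], [(1117, 93)], 0),
    (167611, false, 1, [], [5], [(19, [(9, 2), (6, 3), (2, 3)]), (271, [(135, 2), (90, 3), (30, 3), (10, 3), (54, 5)])], [], 1),
    (167987, false, 1, [], [13], [(2029, [(1014, 2), (507, 2), (676, 3), (156, 13), (12, 13)])], [(157, 78)], 1),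
    (168899, false, 3, [], [], [], [(5869, 1467)], 0),
    (169583, false, 1, [], [7], [(547, [(273, 2), (182, 3), (78, 7), (42, 13)])], [], 1),
    (169783, false, 1, [], [], [(631, [(315, 2), (210, 3), (70, 3), (126, 5), (90, 7)]), (1051, [(525, 2), (350, 3), (210, 5), (42, 5), (150, 7)]), (1093, [(546, 2), (273, 2), (364, 3), (156, 7), (84, 13)])], [(1171, 234)], 1)] 5000 160703 = true := by
  decide +kernel

theorem ck3_170703 : chunk WW (search 1 ef3 fqT GT FN3 3 3) 3
    [(171571, false, 1, [], [5, 19], [(191, [(95, 2), (38, 5), (10, 19)]), (229, [(114, 2), (57, 2), (76, 3), (12, 19)]), (457, [(228, 2), (114, 2), (57, 2), (152, 3), (24, 19)])], [(181, 45)], 2),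
    (172597, false, 1, [], [19], [(409, [(204, 2), (102, 2), (51, 2), (136, 3), (24, 17)]), (457, [(228, 2), (114, 2), (57, 2), (152, 3), (24, 19)])], [(73, 12)], 1),
    (179357, false, 1, [], [], [(167, [(83, 2), (2, 83)]), (997, [(498, 2), (249, 2), (332, 3), (12, 83)])], [], 1),
    (180007, false, 1, [], [19], [(7, [(3, 2), (2, 3)]), (229, [(114, 2), (57, 2), (76, 3), (12, 19)])], [(181, 45)], 1)] 5000 170703 = true := by
  decide +kernel

theorem ck3_180703 : chunk WW (search 1 ef3 fqT GT FN3 3 3) 3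
    [(182549, false, 1, [], [], [(193, [(96, 2), (48, 2), (24, 2), (12, 2), (6, 2), (3, 2), (64, 3)]), (1217, [(608, 2), (304, 2), (152, 2), (76, 2), (38, 2), (19, 2), (64, 19)])], [(337, 168)], 2),
    (182603, false, 1, [], [7], [(547, [(273, 2), (182, 3), (78, 7), (42, 13)])], [], 1),
    (183611, false, 1, [], [7], [(547, [(273, 2), (182, 3), (78, 7), (42, 13)])], [], 1),
    (185123, false, 1, [], [7], [(491, [(245, 2), (98, 5), (70, 7), (10, 7)])], [(631, 630)], 1),
    (187211, false, 1, [], [], [], [(1021, 34)], 0),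
    (187547, false, 3, [], [], [], [(19, 18)], 0),
    (189491, false, 1, [], [7], [(547, [(273, 2), (182, 3), (78, 7), (42, 13)])], [], 1),
    (189799, false, 1, [], [7], [(211, [(105, 2), (70, 3), (42, 5), (30, 7)]), (421, [(210, 2), (105, 2), (140, 3), (84, 5), (60, 7)]), (547, [(273, 2), (182, 3), (78, 7), (42, 13)])], [(631, 630)], 2)] 5000 180703 = true := by
  decide +kernel

theorem ck3_190703 : chunk WW (search 1 ef3 fqT GT FN3 3 3) 3
    [(190823, false, 1, [], [], [], [(571, 570)], 0),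
    (198047, false, 3, [], [], [], [(73, 12)], 0),
    (198277, false, 1, [], [3, 13], [(313, [(156, 2), (78, 2), (39, 2), (104, 3), (24, 13)])], [(433, 27)], 1),
    (199487, false, 1, [], [7], [(547, [(273, 2), (182, 3), (78, 7), (42, 13)])], [], 1)] 5000 190703 = true := by
  decide +kernel

theorem ck3_200703 : chunk WW (search 1 ef3 fqT GT FN3 3 3) 3
    [(203339, false, 1, [], [19], [(2851, [(1425, 2), (950, 3), (570, 5), (114, 5), (150, 19)])], [(2281, 228)], 1),
    (205103, false, 3, [], [], [], [(37, 18)], 0),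
    (206627, false, 1, [], [7], [(547, [(273, 2), (182, 3), (78, 7), (42, 13)])], [], 1),
    (208099, false, 1, [], [], [], [(523, 58)], 0),
    (209227, false, 1, [], [], [(19, [(9, 2), (6, 3), (2, 3)]), (757, [(378, 2), (189, 2), (252, 3), (84, 3), (28, 3), (108, 7)])], [], 1)] 5000 200703 = true := by
  decide +kernel

theorem ck3_210703 : chunk WW (search 1 ef3 fqT GT FN3 3 3) 3
    [(210827, false, 1, [], [7], [(547, [(273, 2), (182, 3), (78, 7), (42, 13)])], [(211, 210)], 1),
    (214009, false, 1, [], [], [(73, [(36, 2), (18, 2), (9, 2), (24, 3), (8, 3)]), (101, [(50, 2), (25, 2), (20, 5), (4, 5)]), (151, [(75, 2), (50, 3), (30, 5), (6, 5)]), (401, [(200, 2), (100, 2), (50, 2), (25, 2), (80, 5), (16, 5)]), (457, [(228, 2), (114, 2), (57, 2), (152, 3), (24, 19)]), (577, [(288, 2), (144, 2), (72, 2), (36, 2), (18, 2), (9, 2), (192, 3), (64, 3)])], [], 2),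
    (214691, false, 1, [], [7], [(547, [(273, 2), (182, 3), (78, 7), (42, 13)])], [(127, 126)], 1),
    (215563, false, 1, [], [], [(19, [(9, 2), (6, 3), (2, 3)])], [(739, 738)], 1),
    (217561, false, 1, [], [3, 5], [(271, [(135, 2), (90, 3), (30, 3), (10, 3), (54, 5)])], [], 1),
    (220327, false, 1, [], [], [(673, [(336, 2), (168, 2), (84, 2), (42, 2), (21, 2), (224, 3), (96, 7)]), (1093, [(546, 2), (273, 2), (364, 3), (156, 7), (84, 13)])], [(433, 27)], 1),
    (220403, false, 1, [], [7], [(547, [(273, 2), (182, 3), (78, 7), (42, 13)])], [(157, 78)], 1)] 5000 210703 = true := by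
  decide +kernel

theorem ck3_220703 : chunk WW (search 1 ef3 fqT GT FN3 3 3) 3
    [(222877, false, 1, [], [3], [], [(541, 135)], 0),
    (225427, false, 1, [], [], [(31, [(15, 2), (10, 3), (6, 5)]), (271, [(135, 2), (90, 3), (30, 3), (10, 3), (54, 5)])], [], 1),
    (225527, false, 1, [], [7], [(547, [(273, 2), (182, 3), (78, 7), (42, 13)])], [], 1),
    (226103, false, 3, [], [], [], [(37, 18)], 0),
    (226649, false, 3, [], [], [], [(271, 30)], 0),
    (227027, false, 3, [], [], [], [(4993, 832)], 0),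
    (227363, false, 3, [], [], [], [(73, 12)], 0),
    (230089, false, 1, [], [], [(463, [(231, 2), (154, 3), (66, 7), (42, 11)]), (547, [(273, 2), (182, 3), (78, 7), (42, 13)])], [(631, 630)], 1),
    (230189, false, 3, [], [], [], [(37, 18)], 0)] 5000 220703 = true := by
  decide +kernel

theorem ck3_230703 : chunk WW (search 1 ef3 fqT GT FN3 3 3) 3
    [(231827, false, 1, [], [7], [(547, [(273, 2), (182, 3), (78, 7), (42, 13)])], [(43, 42)], 1),
    (233687, false, 3, [], [], [], [(19, 18)], 0),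
    (234083, false, 3, [], [], [], [(127, 126)], 0),
    (236867, false, 1, [], [7], [(547, [(273, 2), (182, 3), (78, 7), (42, 13)])], [], 1),
    (239879, false, 1, [], [], [], [(1789, 894)], 0)] 5000 230703 = true := by
  decide +kernel

theorem ck3_240703 : chunk WW (search 1 ef3 fqT GT FN3 3 3) 3
    [(245759, false, 3, [], [], [], [(181, 45)], 0),
    (250643, false, 1, [], [7], [(547, [(273, 2), (182, 3), (78, 7), (42, 13)])], [], 1)] 5000 240703 = true := by
  decide +kernel

theorem ck3_250703 : chunk WW (search 1 ef3 fqT GT FN3 3 3) 3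
    [(251947, false, 1, [], [], [(337, [(168, 2), (84, 2), (42, 2), (21, 2), (112, 3), (48, 7)]), (547, [(273, 2), (182, 3), (78, 7), (42, 13)])], [(127, 126)], 1),
    (253247, false, 1, [], [7], [(547, [(273, 2), (182, 3), (78, 7), (42, 13)])], [], 1),
    (253823, false, 1, [], [], [(23, [(11, 2), (2, 11)]), (661, [(330, 2), (165, 2), (220, 3), (132, 5), (60, 11)])], [(397, 198)], 2),
    (253867, false, 1, [], [], [(19, [(9, 2), (6, 3), (2, 3)]), (757, [(378, 2), (189, 2), (252, 3), (84, 3), (28, 3), (108, 7)])], [], 1),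
    (255181, false, 1, [], [5], [(19, [(9, 2), (6, 3), (2, 3)]), (271, [(135, 2), (90, 3), (30, 3), (10, 3), (54, 5)])], [], 1),
    (255503, false, 3, [], [], [], [(19, 18)], 0),
    (255733, false, 1, [], [], [(883, [(441, 2), (294, 3), (98, 3), (126, 7), (18, 7)]), (1093, [(546, 2), (273, 2), (364, 3), (156, 7), (84, 13)])], [(757, 9)], 1),
    (255767, false, 1, [], [7], [(547, [(273, 2), (182, 3), (78, 7), (42, 13)])], [], 1),
    (257099, false, 1, [], [], [(41, [(20, 2), (10, 2), (5, 2), (8, 5)]), (857, [(428, 2), (214, 2), (107, 2), (8, 107)])], [(397, 198)], 2),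
    (259339, false, 1, [], [], [(43, [(21, 2), (14, 3), (6, 7)]), (239, [(119, 2), (34, 7), (14, 17)]), (307, [(153, 2), (102, 3), (34, 3), (18, 17)]), (547, [(273, 2), (182, 3), (78, 7), (42, 13)])], [(613, 102)], 2)] 5000 250703 = true := by
  decide +kernel

theorem ck3_260703 : chunk WW (search 1 ef3 fqT GT FN3 3 3) 3
    [(260879, false, 1, [], [], [], [(547, 14)], 0),
    (262657, false, 1, [], [2, 19], [(41, [(20, 2), (10, 2), (5, 2), (8, 5)]), (397, [(198, 2), (99, 2), (132, 3), (44, 3), (36, 11)]), (419, [(209, 2), (38, 11), (22, 19)])], [(199, 198)], 1),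
    (263399, false, 1, [], [], [], [(673, 168)], 0),
    (267523, false, 1, [], [], [(379, [(189, 2), (126, 3), (42, 3), (14, 3), (54, 7)])], [(163, 162)], 1),
    (267907, false, 1, [], [3], [(151, [(75, 2), (50, 3), (30, 5), (6, 5)]), (271, [(135, 2), (90, 3), (30, 3), (10, 3), (54, 5)])], [], 1)] 5000 260703 = true := by
  decide +kernel

theorem ck3_270703 : chunk WW (search 1 ef3 fqT GT FN3 3 3) 3
    [(276629, false, 1, [], [11], [(661, [(330, 2), (165, 2), (220, 3), (132, 5), (60, 11)])], [], 1),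
    (278363, false, 1, [], [7], [(547, [(273, 2), (182, 3), (78, 7), (42, 13)])], [], 1),
    (278687, false, 3, [], [], [], [(19, 18)], 0),
    (279607, false, 1, [], [], [], [(2143, 2142)], 0),
    (279779, false, 1, [], [], [], [(1693, 846)], 0)] 5000 270703 = true := by
  decide +kernel

theorem ck3_280703 : chunk WW (search 1 ef3 fqT GT FN3 3 3) 3
    [(281669, false, 1, [], [], [(229, [(114, 2), (57, 2), (76, 3), (12, 19)])], [(421, 105)], 1),
    (282427, false, 1, [], [3], [(13, [(6, 2), (3, 2), (4, 3)]), (257, [(128, 2), (64, 2), (32, 2), (16, 2), (8, 2), (4, 2), (2, 2), (1, 2)]), (577, [(288, 2), (144, 2), (72, 2), (36, 2), (18, 2), (9, 2), (192, 3), (64, 3)])], [], 1),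
    (284023, false, 1, [], [], [(919, [(459, 2), (306, 3), (102, 3), (34, 3), (54, 17)]), (1021, [(510, 2), (255, 2), (340, 3), (204, 5), (60, 17)])], [(181, 45)], 1),
    (284707, false, 1, [], [], [(109, [(54, 2), (27, 2), (36, 3), (12, 3), (4, 3)]), (433, [(216, 2), (108, 2), (54, 2), (27, 2), (144, 3), (48, 3), (16, 3)])], [], 1),
    (286369, false, 1, [], [2, 3], [(73, [(36, 2), (18, 2), (9, 2), (24, 3), (8, 3)]), (233, [(116, 2), (58, 2), (29, 2), (8, 29)]), (523, [(261, 2), (174, 3), (58, 3), (18, 29)])], [], 1),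
    (286711, false, 1, [], [19], [(1597, [(798, 2), (399, 2), (532, 3), (228, 7), (84, 19)])], [(2269, 42)], 1),
    (287003, false, 1, [], [], [], [(1297, 162)], 0),
    (288767, false, 3, [], [], [], [(2719, 2718)], 0),
    (289369, false, 1, [], [3], [(757, [(378, 2), (189, 2), (252, 3), (84, 3), (28, 3), (108, 7)])], [], 1)] 5000 280703 = true := by
  decide +kernel

theorem ck3_290703 : chunk WW (search 1 ef3 fqT GT FN3 3 3) 3
    [(291299, false, 1, [], [], [(5, [(2, 2), (1, 2)]), (971, [(485, 2), (194, 5), (10, 97)]), (1181, [(590, 2), (295, 2), (236, 5), (20, 59)])], [(709, 177)], 1),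
    (292727, false, 1, [], [7], [(547, [(273, 2), (182, 3), (78, 7), (42, 13)])], [], 1),
    (295039, false, 1, [], [], [(97, [(48, 2), (24, 2), (12, 2), (6, 2), (3, 2), (32, 3)]), (103, [(51, 2), (34, 3), (6, 17)]), (137, [(68, 2), (34, 2), (17, 2), (8, 17)])], [(613, 102)], 1),
    (299027, false, 3, [], [], [], [(163, 162)], 0)] 4649 290703 = true := by
  decide +kernel

theorem ck5_7 : chunk 30 (search 1 ef5 fqT GT FN5 3 5) 5
    [] 11 7 = true := by
  decide +kernel

theorem ck5_29 : chunk W23 (search 1 ef5 fqT GT FN5 3 5) 5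
    [(383, false, 5, [(1, 2)], [], [], [(701, 350)], 0),
    (431, true, 1, [(86, 5), (10, 43)], [], [], [(3449, 862)], 0),
    (701, false, 1, [], [5], [(521, [(260, 2), (130, 2), (65, 2), (104, 5), (40, 13)])], [(1301, 650)], 1)] 337 29 = true := by
  decide +kernel

theorem ck5_703 : chunk WW (search 1 ef5 fqT GT FN5 3 5) 5
    [(1061, true, 1, [(212, 5), (20, 53)], [], [(71, [(35, 2), (14, 5), (10, 7)])], [(21221, 10610)], 1),
    (2777, false, 1, [(1, 2)], [], [(463, [(231, 2), (154, 3), (66, 7), (42, 11)])], [(151, 75)], 1),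
    (4909, false, 1, [], [], [], [(1201, 600)], 0),
    (5783, false, 1, [], [7], [(449, [(224, 2), (112, 2), (56, 2), (28, 2), (14, 2), (7, 2), (64, 7)])], [(281, 140)], 1),
    (9431, false, 1, [], [5], [(521, [(260, 2), (130, 2), (65, 2), (104, 5), (40, 13)])], [(1301, 650)], 1),
    (9677, false, 1, [(1, 2)], [], [(17, [(8, 2), (4, 2), (2, 2), (1, 2)]), (313, [(156, 2), (78, 2), (39, 2), (104, 3), (24, 13)])], [(131, 65)], 1)] 5000 703 = true := by
  decide +kernel

theorem ck5_10703 : chunk WW (search 1 ef5 fqT GT FN5 3 5) 5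
    [(11161, false, 1, [], [5], [], [(1151, 575)], 0),
    (12527, false, 1, [], [], [(29, [(14, 2), (7, 2), (4, 7)]), (449, [(224, 2), (112, 2), (56, 2), (28, 2), (14, 2), (7, 2), (64, 7)])], [(641, 64)], 1),
    (12659, false, 1, [], [], [(211, [(105, 2), (70, 3), (42, 5), (30, 7)])], [(41, 20)], 1),
    (12983, false, 1, [(1, 2)], [], [(541, [(270, 2), (135, 2), (180, 3), (60, 3), (20, 3), (108, 5)])], [(461, 115)], 1),
    (13127, false, 1, [], [], [(449, [(224, 2), (112, 2), (56, 2), (28, 2), (14, 2), (7, 2), (64, 7)]), (547, [(273, 2), (182, 3), (78, 7), (42, 13)])], [(701, 350)], 2),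
    (13331, false, 1, [], [], [(101, [(50, 2), (25, 2), (20, 5), (4, 5)]), (401, [(200, 2), (100, 2), (50, 2), (25, 2), (80, 5), (16, 5)])], [(1201, 600)], 1),
    (14341, false, 1, [], [], [(101, [(50, 2), (25, 2), (20, 5), (4, 5)]), (401, [(200, 2), (100, 2), (50, 2), (25, 2), (80, 5), (16, 5)])], [], 1),
    (16139, false, 1, [], [], [(269, [(134, 2), (67, 2), (4, 67)]), (1609, [(804, 2), (402, 2), (201, 2), (536, 3), (24, 67)])], [(4021, 1005)], 1),
    (16979, false, 1, [], [13], [(79, [(39, 2), (26, 3), (6, 13)]), (283, [(141, 2), (94, 3), (6, 47)])], [(601, 12)], 2),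
    (17041, false, 1, [], [5], [(521, [(260, 2), (130, 2), (65, 2), (104, 5), (40, 13)])], [(1301, 650)], 1),
    (17477, false, 1, [], [17], [(409, [(204, 2), (102, 2), (51, 2), (136, 3), (24, 17)])], [(1021, 255)], 1),
    (18371, false, 1, [], [], [(521, [(260, 2), (130, 2), (65, 2), (104, 5), (40, 13)]), (1181, [(590, 2), (295, 2), (236, 5), (20, 59)])], [(1601, 400)], 2),
    (20051, false, 1, [], [5], [(521, [(260, 2), (130, 2), (65, 2), (104, 5), (40, 13)])], [(1301, 650)], 1)] 5000 10703 = true := by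
  decide +kernel

theorem ck5_20703 : chunk WW (search 1 ef5 fqT GT FN5 3 5) 5
    [(21059, false, 5, [], [], [], [(251, 25)], 0),
    (21701, false, 1, [], [5], [(521, [(260, 2), (130, 2), (65, 2), (104, 5), (40, 13)])], [(1301, 650)], 1),
    (21751, false, 1, [], [5], [], [(1201, 600)], 0),
    (22271, false, 1, [], [5], [(521, [(260, 2), (130, 2), (65, 2), (104, 5), (40, 13)])], [(1301, 650)], 1),
    (22619, false, 1, [], [], [(29, [(14, 2), (7, 2), (4, 7)])], [(1471, 735)], 1),
    (25127, false, 1, [], [17], [(409, [(204, 2), (102, 2), (51, 2), (136, 3), (24, 17)])], [(1021, 255)], 1),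
    (25229, false, 1, [], [7], [(449, [(224, 2), (112, 2), (56, 2), (28, 2), (14, 2), (7, 2), (64, 7)])], [(601, 12)], 1),
    (25679, false, 5, [], [], [], [(151, 75)], 0),
    (25919, false, 1, [], [], [], [(2791, 465)], 0),
    (28871, false, 1, [], [], [], [(1051, 525)], 0),
    (29383, false, 1, [(1, 2)], [], [], [(1021, 255)], 0)] 5000 20703 = true := by
  decide +kernel

end Pool.Agent.NearSuper255
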