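import Pool.Agent.NearSuper255.Tab

/-!
# Ranges of excluded pairs, file 10
-/

namespace Pool.Agent.NearSuper255

theorem ck257_259 : chunk W23 (search 1 ef257 fqT GT FN257 4 257) 257
    [] 222 259 = true := by
  decide +kernel

theorem ck257_703 : chunk WW (search 1 ef257 fqT GT FN257 4 257) 257
    [(1129, true, 1, [(282, 2), (141, 2), (24, 47)], [], [], [(4517, 1129)], 0),
    (1543, true, 1, [(514, 3), (6, 257)], [], [], [(18517, 9258)], 0)] 1000 703 = true := by
  decide +kernel

theorem ck257_2703 : chunk WW (search 1 ef257 fqT GT FN257 4 257) 257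
    [(3209, false, 1, [(64, 2), (32, 2), (16, 2), (8, 2), (4, 2), (2, 2), (1, 2)], [], [(43, [(21, 2), (14, 3), (6, 7)]), (241, [(120, 2), (60, 2), (30, 2), (15, 2), (80, 3), (48, 5)]), (337, [(168, 2), (84, 2), (42, 2), (21, 2), (112, 3), (48, 7)]), (449, [(224, 2), (112, 2), (56, 2), (28, 2), (14, 2), (7, 2), (64, 7)])], [(1543, 771)], 2)] 1000 2703 = true := by
  decide +kernel

theorem ck257_4703 : chunk WW (search 1 ef257 fqT GT FN257 4 257) 257
    [(6203, false, 1, [(16, 2), (8, 2), (4, 2), (2, 2), (1, 2)], [7], [(11, [(5, 2), (2, 5)]), (199, [(99, 2), (66, 3), (22, 3), (18, 11)]), (421, [(210, 2), (105, 2), (140, 3), (84, 5), (60, 7)]), (449, [(224, 2), (112, 2), (56, 2), (28, 2), (14, 2), (7, 2), (64, 7)]), (491, [(245, 2), (98, 5), (70, 7), (10, 7)]), (541, [(270, 2), (135, 2), (180, 3), (60, 3), (20, 3), (108, 5)])], [(16963, 771)], 4),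
    (6563, false, 1, [(64, 2), (32, 2), (16, 2), (8, 2), (4, 2), (2, 2), (1, 2)], [], [(401, [(200, 2), (100, 2), (50, 2), (25, 2), (80, 5), (16, 5)]), (421, [(210, 2), (105, 2), (140, 3), (84, 5), (60, 7)]), (547, [(273, 2), (182, 3), (78, 7), (42, 13)])], [(1543, 771)], 2)] 1000 4703 = true := by
  decide +kernel

end Pool.Agent.NearSuper255
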