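import Pool.Agent.NearSuper255.Tab

/-!
# Ranges of excluded pairs, file 11
-/

namespace Pool.Agent.NearSuper255

theorem ck257_6703 : chunk WW (search 1 ef257 fqT GT FN257 4 257) 257
    [(8387, false, 1, [(64, 2), (32, 2), (16, 2), (8, 2), (4, 2), (2, 2), (1, 2)], [7], [(29, [(14, 2), (7, 2), (4, 7)]), (241, [(120, 2), (60, 2), (30, 2), (15, 2), (80, 3), (48, 5)]), (337, [(168, 2), (84, 2), (42, 2), (21, 2), (112, 3), (48, 7)]), (421, [(210, 2), (105, 2), (140, 3), (84, 5), (60, 7)]), (449, [(224, 2), (112, 2), (56, 2), (28, 2), (14, 2), (7, 2), (64, 7)]), (491, [(245, 2), (98, 5), (70, 7), (10, 7)])], [(1543, 771)], 2)] 1000 6703 = true := by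
  decide +kernel

theorem ck257_8703 : chunk WW (search 1 ef257 fqT GT FN257 4 257) 257
    [(9767, false, 1, [], [], [], [(3962941, 1981470)], 0),
    (9769, false, 1, [(64, 2), (32, 2), (16, 2), (8, 2), (4, 2), (2, 2), (1, 2)], [], [(43, [(21, 2), (14, 3), (6, 7)]), (211, [(105, 2), (70, 3), (42, 5), (30, 7)]), (241, [(120, 2), (60, 2), (30, 2), (15, 2), (80, 3), (48, 5)])], [(1543, 771)], 1)] 1000 8703 = true := by
  decide +kernel

theorem ck257_10703 : chunk WW (search 1 ef257 fqT GT FN257 4 257) 257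
    [(11093, false, 1, [(32, 2), (16, 2), (8, 2), (4, 2), (2, 2), (1, 2)], [], [(1153, [(576, 2), (288, 2), (144, 2), (72, 2), (36, 2), (18, 2), (9, 2), (384, 3), (128, 3)]), (1321, [(660, 2), (330, 2), (165, 2), (440, 3), (264, 5), (120, 11)])], [(45233, 5654)], 1),
    (11317, false, 1, [(32, 2), (16, 2), (8, 2), (4, 2), (2, 2), (1, 2)], [], [(113, [(56, 2), (28, 2), (14, 2), (7, 2), (16, 7)]), (281, [(140, 2), (70, 2), (35, 2), (56, 5), (40, 7)]), (449, [(224, 2), (112, 2), (56, 2), (28, 2), (14, 2), (7, 2), (64, 7)]), (491, [(245, 2), (98, 5), (70, 7), (10, 7)]), (541, [(270, 2), (135, 2), (180, 3), (60, 3), (20, 3), (108, 5)]), (577, [(288, 2), (144, 2), (72, 2), (36, 2), (18, 2), (9, 2), (192, 3), (64, 3)])], [(13879, 6939)], 2)] 1000 10703 = true := by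
  decide +kernel

theorem ck257_12703 : chunk WW (search 1 ef257 fqT GT FN257 4 257) 257
    [(13879, false, 1, [], [3], [(43, [(21, 2), (14, 3), (6, 7)]), (199, [(99, 2), (66, 3), (22, 3), (18, 11)])], [(30514639, 15257319)], 1)] 1000 12703 = true := by
  decide +kernel

end Pool.Agent.NearSuper255
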