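import Pool.Agent.NearSuper255.Tab

/-!
# Ranges of excluded pairs, file 12
-/

namespace Pool.Agent.NearSuper255

theorem ck257_14703 : chunk WW (search 1 ef257 fqT GT FN257 4 257) 257
    [(14753, false, 1, [(32, 2), (16, 2), (8, 2), (4, 2), (2, 2), (1, 2)], [], [(43, [(21, 2), (14, 3), (6, 7)]), (97, [(48, 2), (24, 2), (12, 2), (6, 2), (3, 2), (32, 3)]), (307, [(153, 2), (102, 3), (34, 3), (18, 17)]), (449, [(224, 2), (112, 2), (56, 2), (28, 2), (14, 2), (7, 2), (64, 7)])], [(1543, 771)], 2)] 1000 14703 = true := by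
  decide +kernel

theorem ck257_16703 : chunk WW (search 1 ef257 fqT GT FN257 4 257) 257
    [(16963, false, 1, [], [3], [(13, [(6, 2), (3, 2), (4, 3)]), (61, [(30, 2), (15, 2), (20, 3), (12, 5)])], [(38308421, 19154210)], 1),
    (17477, false, 1, [], [], [(43, [(21, 2), (14, 3), (6, 7)])], [(19418407, 3236401)], 1)] 1000 16703 = true := by
  decide +kernel

theorem ck257_18703 : chunk WW (search 1 ef257 fqT GT FN257 4 257) 257
    [(20047, false, 1, [], [], [], [(10699939, 1783323)], 0)] 1000 18703 = true := by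
  decide +kernel

theorem ck257_20703 : chunk WW (search 1 ef257 fqT GT FN257 4 257) 257
    [(21589, false, 1, [], [], [(43, [(21, 2), (14, 3), (6, 7)])], [(38836813, 9709203)], 1),
    (21929, false, 1, [(32, 2), (16, 2), (8, 2), (4, 2), (2, 2), (1, 2)], [2], [(1321, [(660, 2), (330, 2), (165, 2), (440, 3), (264, 5), (120, 11)])], [(45233, 5654)], 1)] 1000 20703 = true := by
  decide +kernel

end Pool.Agent.NearSuper255
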