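import Pool.Agent.NearSuper255.Tab

/-!
# Ranges of excluded pairs, file 14
-/

namespace Pool.Agent.NearSuper255

theorem ck257_32703 : chunk WW (search 1 ef257 fqT GT FN257 4 257) 257
    [(34439, false, 1, [], [], [(7, [(3, 2), (2, 3)]), (19, [(9, 2), (6, 3), (2, 3)]), (43, [(21, 2), (14, 3), (6, 7)]), (61, [(30, 2), (15, 2), (20, 3), (12, 5)]), (199, [(99, 2), (66, 3), (22, 3), (18, 11)])], [(30514639, 15257319)], 2)] 1000 32703 = true := by
  decide +kernel

theorem ck257_34703 : chunk WW (search 1 ef257 fqT GT FN257 4 257) 257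
    [] 1000 34703 = true := by
  decide +kernel

theorem ck257_36703 : chunk WW (search 1 ef257 fqT GT FN257 4 257) 257
    [(36761, false, 1, [(64, 2), (32, 2), (16, 2), (8, 2), (4, 2), (2, 2), (1, 2)], [5], [(43, [(21, 2), (14, 3), (6, 7)]), (421, [(210, 2), (105, 2), (140, 3), (84, 5), (60, 7)]), (449, [(224, 2), (112, 2), (56, 2), (28, 2), (14, 2), (7, 2), (64, 7)])], [(16963, 771)], 2)] 1000 36703 = true := by
  decide +kernel

theorem ck257_38703 : chunk WW (search 1 ef257 fqT GT FN257 4 257) 257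
    [(39323, false, 1, [(4, 2), (2, 2), (1, 2)], [], [(809, [(404, 2), (202, 2), (101, 2), (8, 101)]), (1321, [(660, 2), (330, 2), (165, 2), (440, 3), (264, 5), (120, 11)])], [(45233, 5654)], 1),
    (39791, false, 1, [(16, 2), (8, 2), (4, 2), (2, 2), (1, 2)], [23], [(43, [(21, 2), (14, 3), (6, 7)]), (211, [(105, 2), (70, 3), (42, 5), (30, 7)]), (277, [(138, 2), (69, 2), (92, 3), (12, 23)]), (449, [(224, 2), (112, 2), (56, 2), (28, 2), (14, 2), (7, 2), (64, 7)])], [(1543, 771)], 2),
    (40093, false, 1, [], [13], [(7, [(3, 2), (2, 3)]), (43, [(21, 2), (14, 3), (6, 7)]), (79, [(39, 2), (26, 3), (6, 13)])], [(5151823, 2575911)], 2)] 1000 38703 = true := by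
  decide +kernel

theorem ck257_40703 : chunk WW (search 1 ef257 fqT GT FN257 4 257) 257
    [] 1000 40703 = true := by
  decide +kernel

end Pool.Agent.NearSuper255
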