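import Pool.Agent.NearSuper255.Tab

/-!
# Ranges of excluded pairs, file 15
-/

namespace Pool.Agent.NearSuper255

theorem ck257_42703 : chunk WW (search 1 ef257 fqT GT FN257 4 257) 257
    [(43177, false, 1, [], [], [], [(7133293, 1188882)], 0),
    (43403, false, 1, [(8, 2), (4, 2), (2, 2), (1, 2)], [], [(229, [(114, 2), (57, 2), (76, 3), (12, 19)]), (647, [(323, 2), (38, 17), (34, 19)])], [(17477, 8738)], 1),
    (43691, false, 1, [], [], [(7, [(3, 2), (2, 3)]), (13, [(6, 2), (3, 2), (4, 3)]), (37, [(18, 2), (9, 2), (12, 3), (4, 3)]), (43, [(21, 2), (14, 3), (6, 7)]), (199, [(99, 2), (66, 3), (22, 3), (18, 11)])], [(30514639, 15257319)], 2)] 1000 42703 = true := by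
  decide +kernel

theorem ck257_44703 : chunk WW (search 1 ef257 fqT GT FN257 4 257) 257
    [(45233, false, 1, [], [11], [(23, [(11, 2), (2, 11)]), (43, [(21, 2), (14, 3), (6, 7)])], [(30514639, 15257319)], 1),
    (46261, false, 1, [], [], [], [(3962941, 1981470)], 0)] 1000 44703 = true := by
  decide +kernel

theorem ck257_46703 : chunk WW (search 1 ef257 fqT GT FN257 4 257) 257
    [(47777, false, 1, [(32, 2), (16, 2), (8, 2), (4, 2), (2, 2), (1, 2)], [], [(7, [(3, 2), (2, 3)]), (31, [(15, 2), (10, 3), (6, 5)]), (43, [(21, 2), (14, 3), (6, 7)]), (271, [(135, 2), (90, 3), (30, 3), (10, 3), (54, 5)]), (337, [(168, 2), (84, 2), (42, 2), (21, 2), (112, 3), (48, 7)]), (433, [(216, 2), (108, 2), (54, 2), (27, 2), (144, 3), (48, 3), (16, 3)]), (491, [(245, 2), (98, 5), (70, 7), (10, 7)])], [(13879, 6939)], 3),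
    (47903, false, 1, [(64, 2), (32, 2), (16, 2), (8, 2), (4, 2), (2, 2), (1, 2)], [], [(61, [(30, 2), (15, 2), (20, 3), (12, 5)]), (499, [(249, 2), (166, 3), (6, 83)])], [(1543, 771)], 2),
    (48029, false, 1, [(8, 2), (4, 2), (2, 2), (1, 2)], [], [(43, [(21, 2), (14, 3), (6, 7)]), (239, [(119, 2), (34, 7), (14, 17)]), (409, [(204, 2), (102, 2), (51, 2), (136, 3), (24, 17)]), (449, [(224, 2), (112, 2), (56, 2), (28, 2), (14, 2), (7, 2), (64, 7)])], [(17477, 8738)], 2),
    (48119, false, 1, [(8, 2), (4, 2), (2, 2), (1, 2)], [], [(137, [(68, 2), (34, 2), (17, 2), (8, 17)]), (409, [(204, 2), (102, 2), (51, 2), (136, 3), (24, 17)])], [(17477, 8738)], 2)] 1000 46703 = true := by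
  decide +kernel

theorem ck257_48703 : chunk WW (search 1 ef257 fqT GT FN257 4 257) 257
    [(50053, false, 1, [(32, 2), (16, 2), (8, 2), (4, 2), (2, 2), (1, 2)], [], [(199, [(99, 2), (66, 3), (22, 3), (18, 11)]), (577, [(288, 2), (144, 2), (72, 2), (36, 2), (18, 2), (9, 2), (192, 3), (64, 3)])], [(16963, 771)], 2)] 1000 48703 = true := by
  decide +kernel

theorem ck257_50703 : chunk WW (search 1 ef257 fqT GT FN257 4 257) 257
    [(52223, false, 1, [(32, 2), (16, 2), (8, 2), (4, 2), (2, 2), (1, 2)], [], [(43, [(21, 2), (14, 3), (6, 7)]), (97, [(48, 2), (24, 2), (12, 2), (6, 2), (3, 2), (32, 3)]), (449, [(224, 2), (112, 2), (56, 2), (28, 2), (14, 2), (7, 2), (64, 7)])], [(1543, 771)], 2)] 1000 50703 = true := by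
  decide +kernel

end Pool.Agent.NearSuper255
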