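import Pool.Agent.NearSuper255.Tab

/-!
# Ranges of excluded pairs, file 16
-/

namespace Pool.Agent.NearSuper255

theorem ck257_52703 : chunk WW (search 1 ef257 fqT GT FN257 4 257) 257
    [] 1000 52703 = true := by
  decide +kernel

theorem ck257_54703 : chunk WW (search 1 ef257 fqT GT FN257 4 257) 257
    [] 1000 54703 = true := by
  decide +kernel

theorem ck257_56703 : chunk WW (search 1 ef257 fqT GT FN257 4 257) 257
    [(56911, false, 1, [(32, 2), (16, 2), (8, 2), (4, 2), (2, 2), (1, 2)], [5, 7], [(421, [(210, 2), (105, 2), (140, 3), (84, 5), (60, 7)]), (449, [(224, 2), (112, 2), (56, 2), (28, 2), (14, 2), (7, 2), (64, 7)]), (491, [(245, 2), (98, 5), (70, 7), (10, 7)]), (577, [(288, 2), (144, 2), (72, 2), (36, 2), (18, 2), (9, 2), (192, 3), (64, 3)])], [(1543, 771)], 3),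
    (57383, false, 1, [(32, 2), (16, 2), (8, 2), (4, 2), (2, 2), (1, 2)], [], [(31, [(15, 2), (10, 3), (6, 5)]), (43, [(21, 2), (14, 3), (6, 7)]), (61, [(30, 2), (15, 2), (20, 3), (12, 5)]), (281, [(140, 2), (70, 2), (35, 2), (56, 5), (40, 7)]), (491, [(245, 2), (98, 5), (70, 7), (10, 7)])], [(1543, 771)], 2)] 1000 56703 = true := by
  decide +kernel

theorem ck257_58703 : chunk WW (search 1 ef257 fqT GT FN257 4 257) 257
    [(60139, false, 1, [], [], [], [(3962941, 1981470)], 0)] 1000 58703 = true := by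
  decide +kernel

theorem ck257_60703 : chunk WW (search 1 ef257 fqT GT FN257 4 257) 257
    [(61681, false, 1, [], [5], [], [(4623431, 2311715)], 0)] 1000 60703 = true := by
  decide +kernel

end Pool.Agent.NearSuper255
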