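import Pool.Agent.NearSuper255.Tab

/-!
# Ranges of excluded pairs, file 17
-/

namespace Pool.Agent.NearSuper255

theorem ck257_62703 : chunk WW (search 1 ef257 fqT GT FN257 4 257) 257
    [(63737, false, 1, [], [2], [(5, [(2, 2), (1, 2)]), (17, [(8, 2), (4, 2), (2, 2), (1, 2)]), (29, [(14, 2), (7, 2), (4, 7)]), (43, [(21, 2), (14, 3), (6, 7)]), (97, [(48, 2), (24, 2), (12, 2), (6, 2), (3, 2), (32, 3)]), (113, [(56, 2), (28, 2), (14, 2), (7, 2), (16, 7)]), (193, [(96, 2), (48, 2), (24, 2), (12, 2), (6, 2), (3, 2), (64, 3)])], [(4227137, 1056784)], 3)] 1000 62703 = true := by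
  decide +kernel

theorem ck257_64703 : chunk WW (search 1 ef257 fqT GT FN257 4 257) 257
    [(66047, false, 1, [(4, 2), (2, 2), (1, 2)], [], [(193, [(96, 2), (48, 2), (24, 2), (12, 2), (6, 2), (3, 2), (64, 3)]), (353, [(176, 2), (88, 2), (44, 2), (22, 2), (11, 2), (32, 11)])], [(1543, 771)], 2)] 1000 64703 = true := by
  decide +kernel

theorem ck257_66703 : chunk WW (search 1 ef257 fqT GT FN257 4 257) 257
    [(66821, false, 1, [], [5], [], [(4623431, 2311715)], 0)] 1000 66703 = true := by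
  decide +kernel

theorem ck257_68703 : chunk WW (search 1 ef257 fqT GT FN257 4 257) 257
    [] 1000 68703 = true := by
  decide +kernel

theorem ck257_70703 : chunk WW (search 1 ef257 fqT GT FN257 4 257) 257
    [(71419, false, 1, [(64, 2), (32, 2), (16, 2), (8, 2), (4, 2), (2, 2), (1, 2)], [], [(43, [(21, 2), (14, 3), (6, 7)]), (337, [(168, 2), (84, 2), (42, 2), (21, 2), (112, 3), (48, 7)])], [(1543, 771)], 1)] 1000 70703 = true := by
  decide +kernel

end Pool.Agent.NearSuper255
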