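import Pool.Agent.NearSuper255.Tab

/-!
# Ranges of excluded pairs, file 18
-/

namespace Pool.Agent.NearSuper255

theorem ck257_72703 : chunk WW (search 1 ef257 fqT GT FN257 4 257) 257
    [(74017, false, 1, [], [3], [(43, [(21, 2), (14, 3), (6, 7)]), (61, [(30, 2), (15, 2), (20, 3), (12, 5)]), (97, [(48, 2), (24, 2), (12, 2), (6, 2), (3, 2), (32, 3)]), (193, [(96, 2), (48, 2), (24, 2), (12, 2), (6, 2), (3, 2), (64, 3)])], [(20078897, 10039448)], 1),
    (74531, false, 1, [], [], [(43, [(21, 2), (14, 3), (6, 7)]), (97, [(48, 2), (24, 2), (12, 2), (6, 2), (3, 2), (32, 3)]), (193, [(96, 2), (48, 2), (24, 2), (12, 2), (6, 2), (3, 2), (64, 3)])], [(15059173, 3764793)], 1)] 1000 72703 = true := by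
  decide +kernel

theorem ck257_74703 : chunk WW (search 1 ef257 fqT GT FN257 4 257) 257
    [(75937, false, 1, [(32, 2), (16, 2), (8, 2), (4, 2), (2, 2), (1, 2)], [], [(97, [(48, 2), (24, 2), (12, 2), (6, 2), (3, 2), (32, 3)]), (331, [(165, 2), (110, 3), (66, 5), (30, 11)]), (353, [(176, 2), (88, 2), (44, 2), (22, 2), (11, 2), (32, 11)])], [(16963, 771)], 2)] 1000 74703 = true := by
  decide +kernel

theorem ck257_76703 : chunk WW (search 1 ef257 fqT GT FN257 4 257) 257
    [(77101, false, 1, [], [], [(19, [(9, 2), (6, 3), (2, 3)]), (61, [(30, 2), (15, 2), (20, 3), (12, 5)]), (181, [(90, 2), (45, 2), (60, 3), (20, 3), (36, 5)]), (199, [(99, 2), (66, 3), (22, 3), (18, 11)])], [(36326951, 18163475)], 2),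
    (78347, false, 1, [(64, 2), (32, 2), (16, 2), (8, 2), (4, 2), (2, 2), (1, 2)], [], [(97, [(48, 2), (24, 2), (12, 2), (6, 2), (3, 2), (32, 3)]), (449, [(224, 2), (112, 2), (56, 2), (28, 2), (14, 2), (7, 2), (64, 7)])], [(13879, 6939)], 2),
    (78643, false, 1, [], [], [], [(21796171, 10898085)], 0)] 1000 76703 = true := by
  decide +kernel

theorem ck257_78703 : chunk WW (search 1 ef257 fqT GT FN257 4 257) 257
    [] 1000 78703 = true := by
  decide +kernel

theorem ck257_80703 : chunk WW (search 1 ef257 fqT GT FN257 4 257) 257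
    [(81727, false, 1, [], [], [], [(15059173, 3764793)], 0),
    (82241, false, 1, [], [], [], [(7133293, 1188882)], 0),
    (82619, false, 1, [(32, 2), (16, 2), (8, 2), (4, 2), (2, 2), (1, 2)], [], [(61, [(30, 2), (15, 2), (20, 3), (12, 5)]), (241, [(120, 2), (60, 2), (30, 2), (15, 2), (80, 3), (48, 5)])], [(1543, 771)], 2)] 1000 80703 = true := by
  decide +kernel

end Pool.Agent.NearSuper255
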