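import Pool.Agent.NearSuper255.Tab

/-!
# Ranges of excluded pairs, file 19
-/

namespace Pool.Agent.NearSuper255

theorem ck257_82703 : chunk WW (search 1 ef257 fqT GT FN257 4 257) 257
    [(83269, false, 1, [], [3], [(11, [(5, 2), (2, 5)]), (31, [(15, 2), (10, 3), (6, 5)])], [(36326951, 18163475)], 1),
    (84431, false, 1, [(32, 2), (16, 2), (8, 2), (4, 2), (2, 2), (1, 2)], [5], [(43, [(21, 2), (14, 3), (6, 7)]), (379, [(189, 2), (126, 3), (42, 3), (14, 3), (54, 7)]), (449, [(224, 2), (112, 2), (56, 2), (28, 2), (14, 2), (7, 2), (64, 7)]), (541, [(270, 2), (135, 2), (180, 3), (60, 3), (20, 3), (108, 5)])], [(13879, 6939)], 1),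
    (84659, false, 1, [(64, 2), (32, 2), (16, 2), (8, 2), (4, 2), (2, 2), (1, 2)], [7], [(883, [(441, 2), (294, 3), (98, 3), (126, 7), (18, 7)])], [(43177, 3598)], 1)] 1000 82703 = true := by
  decide +kernel

theorem ck257_84703 : chunk WW (search 1 ef257 fqT GT FN257 4 257) 257
    [(84811, false, 1, [], [], [], [(8718469, 1453078)], 0),
    (85523, false, 1, [(32, 2), (16, 2), (8, 2), (4, 2), (2, 2), (1, 2)], [], [(233, [(116, 2), (58, 2), (29, 2), (8, 29)]), (349, [(174, 2), (87, 2), (116, 3), (12, 29)])], [(1543, 771)], 1),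
    (85829, false, 1, [(32, 2), (16, 2), (8, 2), (4, 2), (2, 2), (1, 2)], [], [(769, [(384, 2), (192, 2), (96, 2), (48, 2), (24, 2), (12, 2), (6, 2), (3, 2), (256, 3)]), (1321, [(660, 2), (330, 2), (165, 2), (440, 3), (264, 5), (120, 11)])], [(45233, 5654)], 1),
    (86353, false, 1, [], [3], [(61, [(30, 2), (15, 2), (20, 3), (12, 5)]), (151, [(75, 2), (50, 3), (30, 5), (6, 5)])], [(38308421, 19154210)], 1)] 1000 84703 = true := by
  decide +kernel

theorem ck257_86703 : chunk WW (search 1 ef257 fqT GT FN257 4 257) 257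
    [] 1000 86703 = true := by
  decide +kernel

theorem ck257_88703 : chunk WW (search 1 ef257 fqT GT FN257 4 257) 257
    [(89399, false, 1, [(64, 2), (32, 2), (16, 2), (8, 2), (4, 2), (2, 2), (1, 2)], [], [(149, [(74, 2), (37, 2), (4, 37)]), (223, [(111, 2), (74, 3), (6, 37)]), (229, [(114, 2), (57, 2), (76, 3), (12, 19)]), (457, [(228, 2), (114, 2), (57, 2), (152, 3), (24, 19)])], [(9767, 4883)], 1),
    (89633, false, 1, [(8, 2), (4, 2), (2, 2), (1, 2)], [], [(43, [(21, 2), (14, 3), (6, 7)]), (229, [(114, 2), (57, 2), (76, 3), (12, 19)]), (281, [(140, 2), (70, 2), (35, 2), (56, 5), (40, 7)]), (421, [(210, 2), (105, 2), (140, 3), (84, 5), (60, 7)])], [(13879, 6939)], 2),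
    (90149, false, 1, [(32, 2), (16, 2), (8, 2), (4, 2), (2, 2), (1, 2)], [], [(313, [(156, 2), (78, 2), (39, 2), (104, 3), (24, 13)]), (449, [(224, 2), (112, 2), (56, 2), (28, 2), (14, 2), (7, 2), (64, 7)]), (547, [(273, 2), (182, 3), (78, 7), (42, 13)])], [(13879, 6939)], 1)] 1000 88703 = true := by
  decide +kernel

theorem ck257_90703 : chunk WW (search 1 ef257 fqT GT FN257 4 257) 257
    [(90731, false, 1, [(64, 2), (32, 2), (16, 2), (8, 2), (4, 2), (2, 2), (1, 2)], [], [(241, [(120, 2), (60, 2), (30, 2), (15, 2), (80, 3), (48, 5)]), (353, [(176, 2), (88, 2), (44, 2), (22, 2), (11, 2), (32, 11)]), (397, [(198, 2), (99, 2), (132, 3), (44, 3), (36, 11)])], [(16963, 771)], 1),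
    (91493, false, 1, [], [], [], [(10699939, 1783323)], 0)] 1000 90703 = true := by
  decide +kernel

end Pool.Agent.NearSuper255
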