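import Pool.Agent.NearSuper255.Tab

/-!
# Ranges of excluded pairs, file 2
-/

namespace Pool.Agent.NearSuper255

theorem ck5_30703 : chunk WW (search 1 ef5 fqT GT FN5 3 5) 5
    [(31727, false, 1, [(1, 2)], [], [(1061, [(530, 2), (265, 2), (212, 5), (20, 53)])], [(11, 5)], 1),
    (31859, false, 1, [], [17], [(409, [(204, 2), (102, 2), (51, 2), (136, 3), (24, 17)])], [(1021, 255)], 1),
    (32369, false, 1, [], [17], [(409, [(204, 2), (102, 2), (51, 2), (136, 3), (24, 17)])], [(1361, 340)], 1),
    (32429, false, 5, [], [], [], [(251, 25)], 0),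
    (32609, false, 1, [], [2], [(313, [(156, 2), (78, 2), (39, 2), (104, 3), (24, 13)])], [(1171, 45)], 1),
    (32783, false, 1, [(1, 2)], [], [(683, [(341, 2), (62, 11), (22, 31)])], [(2531, 1265)], 1),
    (33409, false, 1, [], [], [(257, [(128, 2), (64, 2), (32, 2), (16, 2), (8, 2), (4, 2), (2, 2), (1, 2)]), (313, [(156, 2), (78, 2), (39, 2), (104, 3), (24, 13)])], [(911, 455)], 1),
    (34031, false, 1, [], [], [(101, [(50, 2), (25, 2), (20, 5), (4, 5)]), (401, [(200, 2), (100, 2), (50, 2), (25, 2), (80, 5), (16, 5)])], [], 1),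
    (34303, false, 1, [(1, 2)], [], [], [(1051, 525)], 0),
    (36389, false, 1, [], [11], [(1213, [(606, 2), (303, 2), (404, 3), (12, 101)]), (1321, [(660, 2), (330, 2), (165, 2), (440, 3), (264, 5), (120, 11)]), (1453, [(726, 2), (363, 2), (484, 3), (132, 11), (12, 11)])], [(881, 440)], 2),
    (39869, false, 1, [], [], [(409, [(204, 2), (102, 2), (51, 2), (136, 3), (24, 17)]), (443, [(221, 2), (34, 13), (26, 17)])], [(1361, 340)], 2)] 5000 30703 = true := by
  decide +kernel

theorem ck5_40703 : chunk WW (search 1 ef5 fqT GT FN5 3 5) 5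
    [(40759, false, 1, [], [3], [(7, [(3, 2), (2, 3)])], [(2311, 165)], 1),
    (41627, false, 1, [(1, 2)], [], [], [(1051, 525)], 0),
    (41759, false, 1, [], [], [(29, [(14, 2), (7, 2), (4, 7)]), (449, [(224, 2), (112, 2), (56, 2), (28, 2), (14, 2), (7, 2), (64, 7)])], [(701, 350)], 1),
    (42359, false, 1, [], [], [(313, [(156, 2), (78, 2), (39, 2), (104, 3), (24, 13)]), (353, [(176, 2), (88, 2), (44, 2), (22, 2), (11, 2), (32, 11)])], [(661, 330)], 2),
    (44189, false, 1, [], [], [(491, [(245, 2), (98, 5), (70, 7), (10, 7)])], [(11, 5)], 1),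
    (44963, false, 1, [], [], [(601, [(300, 2), (150, 2), (75, 2), (200, 3), (120, 5), (24, 5)]), (1249, [(624, 2), (312, 2), (156, 2), (78, 2), (39, 2), (416, 3), (96, 13)])], [], 2),
    (45959, false, 1, [], [11], [(23, [(11, 2), (2, 11)])], [(2531, 1265)], 1),
    (49109, false, 1, [], [], [], [(5711, 571)], 0),
    (50459, false, 1, [], [], [(29, [(14, 2), (7, 2), (4, 7)]), (449, [(224, 2), (112, 2), (56, 2), (28, 2), (14, 2), (7, 2), (64, 7)])], [(641, 64)], 1)] 5000 40703 = true := by
  decide +kernel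

theorem ck5_50703 : chunk WW (search 1 ef5 fqT GT FN5 3 5) 5
    [(51419, false, 1, [], [], [(643, [(321, 2), (214, 3), (6, 107)]), (857, [(428, 2), (214, 2), (107, 2), (8, 107)])], [(61, 30)], 2),
    (51767, false, 1, [(1, 2)], [], [], [(1381, 690)], 0),
    (53309, false, 1, [], [], [(601, [(300, 2), (150, 2), (75, 2), (200, 3), (120, 5), (24, 5)]), (1777, [(888, 2), (444, 2), (222, 2), (111, 2), (592, 3), (48, 37)])], [], 2),
    (57487, false, 1, [(1, 2)], [], [], [(1951, 975)], 0),
    (58229, false, 1, [], [], [(647, [(323, 2), (38, 17), (34, 19)]), (761, [(380, 2), (190, 2), (95, 2), (152, 5), (40, 19)])], [], 1)] 5000 50703 = true := by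
  decide +kernel

theorem ck5_60703 : chunk WW (search 1 ef5 fqT GT FN5 3 5) 5
    [(64223, false, 1, [(1, 2)], [], [(223, [(111, 2), (74, 3), (6, 37)])], [(991, 495)], 1),
    (65111, false, 1, [], [5], [(521, [(260, 2), (130, 2), (65, 2), (104, 5), (40, 13)])], [(1301, 650)], 1),
    (66089, false, 1, [], [11], [(23, [(11, 2), (2, 11)]), (331, [(165, 2), (110, 3), (66, 5), (30, 11)]), (521, [(260, 2), (130, 2), (65, 2), (104, 5), (40, 13)])], [], 1),
    (66509, false, 1, [], [], [], [(1481, 740)], 0),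
    (67883, false, 5, [(1, 2)], [], [], [(101, 25)], 0),
    (67961, false, 1, [], [], [(241, [(120, 2), (60, 2), (30, 2), (15, 2), (80, 3), (48, 5)]), (313, [(156, 2), (78, 2), (39, 2), (104, 3), (24, 13)])], [(101, 25)], 1),
    (69709, false, 1, [], [], [], [(1721, 430)], 0)] 5000 60703 = true := by
  decide +kernel

theorem ck5_70703 : chunk WW (search 1 ef5 fqT GT FN5 3 5) 5
    [(71419, false, 5, [], [], [], [(401, 25)], 0),
    (71879, false, 1, [], [], [(47, [(23, 2), (2, 23)]), (89, [(44, 2), (22, 2), (11, 2), (8, 11)]), (599, [(299, 2), (46, 13), (26, 23)]), (1013, [(506, 2), (253, 2), (92, 11), (44, 23)])], [(2531, 1265)], 3),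
    (73133, false, 1, [], [], [(239, [(119, 2), (34, 7), (14, 17)]), (449, [(224, 2), (112, 2), (56, 2), (28, 2), (14, 2), (7, 2), (64, 7)])], [(641, 64)], 1),
    (74189, false, 1, [], [17], [(409, [(204, 2), (102, 2), (51, 2), (136, 3), (24, 17)])], [(1021, 255)], 1),
    (74729, false, 1, [], [], [(47, [(23, 2), (2, 23)]), (53, [(26, 2), (13, 2), (4, 13)]), (599, [(299, 2), (46, 13), (26, 23)])], [(131, 65)], 1),
    (75289, false, 1, [], [], [], [(1601, 400)], 0),
    (76421, false, 1, [], [5], [], [(1201, 600)], 0),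
    (78059, false, 1, [], [], [(1301, [(650, 2), (325, 2), (260, 5), (52, 5), (100, 13)])], [(151, 75)], 1),
    (79481, false, 1, [], [], [(101, [(50, 2), (25, 2), (20, 5), (4, 5)]), (521, [(260, 2), (130, 2), (65, 2), (104, 5), (40, 13)])], [(1301, 650)], 1)] 5000 70703 = true := by
  decide +kernel

theorem ck5_80703 : chunk WW (search 1 ef5 fqT GT FN5 3 5) 5
    [(81041, false, 1, [], [2], [(313, [(156, 2), (78, 2), (39, 2), (104, 3), (24, 13)])], [(1301, 650)], 1),
    (81083, false, 1, [(1, 2)], [], [(233, [(116, 2), (58, 2), (29, 2), (8, 29)]), (313, [(156, 2), (78, 2), (39, 2), (104, 3), (24, 13)])], [(1171, 45)], 1),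
    (81331, false, 1, [], [5], [(521, [(260, 2), (130, 2), (65, 2), (104, 5), (40, 13)])], [(1301, 650)], 1),
    (81611, false, 1, [], [5], [], [(1151, 575)], 0),
    (81629, false, 1, [], [], [], [(2801, 350)], 0),
    (83459, false, 5, [], [], [], [(401, 25)], 0),
    (84121, false, 1, [], [5], [(521, [(260, 2), (130, 2), (65, 2), (104, 5), (40, 13)])], [(1301, 650)], 1),
    (84629, false, 1, [], [], [(7, [(3, 2), (2, 3)]), (13, [(6, 2), (3, 2), (4, 3)]), (601, [(300, 2), (150, 2), (75, 2), (200, 3), (120, 5), (24, 5)])], [], 1),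
    (85703, false, 1, [(1, 2)], [], [], [(1301, 650)], 0),
    (85909, false, 1, [], [], [(11, [(5, 2), (2, 5)]), (521, [(260, 2), (130, 2), (65, 2), (104, 5), (40, 13)])], [(1301, 650)], 1),
    (87359, false, 1, [], [], [], [(1091, 109)], 0),
    (87833, false, 1, [], [2], [(313, [(156, 2), (78, 2), (39, 2), (104, 3), (24, 13)])], [(1171, 45)], 1),
    (88469, false, 1, [], [], [], [(1061, 265)], 0),
    (89891, false, 1, [], [5], [(61, [(30, 2), (15, 2), (20, 3), (12, 5)]), (181, [(90, 2), (45, 2), (60, 3), (20, 3), (36, 5)]), (521, [(260, 2), (130, 2), (65, 2), (104, 5), (40, 13)])], [(751, 375)], 2)] 5000 80703 = true := by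
  decide +kernel

theorem ck5_90703 : chunk WW (search 1 ef5 fqT GT FN5 3 5) 5
    [(91577, false, 1, [(1, 2)], [], [], [(1301, 650)], 0),
    (92831, false, 1, [], [], [(11, [(5, 2), (2, 5)]), (521, [(260, 2), (130, 2), (65, 2), (104, 5), (40, 13)])], [(401, 25)], 1),
    (93719, false, 1, [], [], [(11, [(5, 2), (2, 5)]), (521, [(260, 2), (130, 2), (65, 2), (104, 5), (40, 13)])], [(281, 140)], 1),
    (93809, false, 1, [], [2], [(313, [(156, 2), (78, 2), (39, 2), (104, 3), (24, 13)])], [(181, 15)], 1),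
    (97259, false, 1, [], [], [(1621, [(810, 2), (405, 2), (540, 3), (180, 3), (60, 3), (20, 3), (324, 5)])], [(2311, 165)], 1),
    (100019, false, 1, [], [], [], [(3511, 1755)], 0),
    (100559, false, 1, [], [], [(191, [(95, 2), (38, 5), (10, 19)]), (419, [(209, 2), (38, 11), (22, 19)])], [], 2)] 5000 90703 = true := by
  decide +kernel

theorem ck5_100703 : chunk WW (search 1 ef5 fqT GT FN5 3 5) 5
    [(101159, false, 1, [], [], [(281, [(140, 2), (70, 2), (35, 2), (56, 5), (40, 7)])], [(11, 5)], 1),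
    (104009, false, 1, [], [], [], [(1181, 590)], 0),
    (104891, false, 1, [], [5], [(521, [(260, 2), (130, 2), (65, 2), (104, 5), (40, 13)])], [(1301, 650)], 1),
    (106619, false, 1, [], [], [], [(1601, 400)], 0),
    (108971, false, 1, [], [5], [(521, [(260, 2), (130, 2), (65, 2), (104, 5), (40, 13)])], [(701, 350)], 1),
    (109379, false, 1, [], [17], [(409, [(204, 2), (102, 2), (51, 2), (136, 3), (24, 17)])], [(61, 30)], 1),
    (109541, false, 1, [], [5], [(521, [(260, 2), (130, 2), (65, 2), (104, 5), (40, 13)])], [(1301, 650)], 1)] 5000 100703 = true := by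
  decide +kernel

theorem ck5_110703 : chunk WW (search 1 ef5 fqT GT FN5 3 5) 5
    [(111611, false, 1, [], [5], [(521, [(260, 2), (130, 2), (65, 2), (104, 5), (40, 13)])], [(1301, 650)], 1),
    (111977, false, 1, [], [2], [(313, [(156, 2), (78, 2), (39, 2), (104, 3), (24, 13)])], [(1171, 45)], 1),
    (115561, false, 1, [], [], [(101, [(50, 2), (25, 2), (20, 5), (4, 5)]), (401, [(200, 2), (100, 2), (50, 2), (25, 2), (80, 5), (16, 5)])], [], 1),
    (116239, false, 1, [], [], [], [(1031, 515)], 0),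
    (118661, false, 1, [], [], [], [(1451, 725)], 0),
    (120283, false, 1, [(1, 2)], [], [], [(1201, 600)], 0)] 5000 110703 = true := by
  decide +kernel

theorem ck5_120703 : chunk WW (search 1 ef5 fqT GT FN5 3 5) 5
    [(120941, false, 1, [], [], [(11, [(5, 2), (2, 5)]), (521, [(260, 2), (130, 2), (65, 2), (104, 5), (40, 13)])], [(1301, 650)], 1),
    (121229, false, 1, [], [], [(29, [(14, 2), (7, 2), (4, 7)]), (449, [(224, 2), (112, 2), (56, 2), (28, 2), (14, 2), (7, 2), (64, 7)])], [(911, 455)], 2),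
    (123259, false, 5, [], [], [], [(601, 12)], 0),
    (124919, false, 1, [], [], [(347, [(173, 2), (2, 173)]), (1039, [(519, 2), (346, 3), (6, 173)])], [(241, 40)], 1),
    (125471, false, 1, [], [], [], [(1301, 650)], 0),
    (125941, false, 1, [], [5], [(521, [(260, 2), (130, 2), (65, 2), (104, 5), (40, 13)])], [(1301, 650)], 1),
    (126359, false, 5, [], [], [], [(151, 75)], 0),
    (128861, false, 1, [], [5], [(521, [(260, 2), (130, 2), (65, 2), (104, 5), (40, 13)])], [(1301, 650)], 1),
    (129341, false, 1, [], [], [], [(1151, 575)], 0),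
    (129581, false, 1, [], [19], [(313, [(156, 2), (78, 2), (39, 2), (104, 3), (24, 13)]), (457, [(228, 2), (114, 2), (57, 2), (152, 3), (24, 19)])], [(401, 25)], 1),
    (130259, false, 1, [], [], [], [(2081, 520)], 0)] 5000 120703 = true := by
  decide +kernel

theorem ck5_130703 : chunk WW (search 1 ef5 fqT GT FN5 3 5) 5
    [(131477, false, 1, [], [], [(17, [(8, 2), (4, 2), (2, 2), (1, 2)]), (313, [(156, 2), (78, 2), (39, 2), (104, 3), (24, 13)])], [(521, 10)], 1),
    (133919, false, 1, [], [], [(7, [(3, 2), (2, 3)]), (31, [(15, 2), (10, 3), (6, 5)]), (1117, [(558, 2), (279, 2), (372, 3), (124, 3), (36, 31)]), (1303, [(651, 2), (434, 3), (186, 7), (42, 31)])], [(1861, 31)], 2),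
    (134909, false, 1, [], [], [(643, [(321, 2), (214, 3), (6, 107)]), (1499, [(749, 2), (214, 7), (14, 107)])], [(181, 15)], 2),
    (138059, false, 5, [], [], [], [(7351, 3675)], 0),
    (138239, false, 5, [], [], [], [(1151, 575)], 0),
    (138371, false, 1, [], [5], [(71, [(35, 2), (14, 5), (10, 7)]), (449, [(224, 2), (112, 2), (56, 2), (28, 2), (14, 2), (7, 2), (64, 7)]), (491, [(245, 2), (98, 5), (70, 7), (10, 7)])], [(701, 350)], 2),
    (139339, true, 1, [(18, 7741)], [], [], [(3065459, 278678)], 0),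
    (140627, false, 1, [(1, 2)], [], [], [(1531, 85)], 0),
    (140659, false, 1, [], [], [(541, [(270, 2), (135, 2), (180, 3), (60, 3), (20, 3), (108, 5)])], [(271, 27)], 1)] 5000 130703 = true := by
  decide +kernel

theorem ck5_140703 : chunk WW (search 1 ef5 fqT GT FN5 3 5) 5
    [(141971, false, 1, [], [5], [(521, [(260, 2), (130, 2), (65, 2), (104, 5), (40, 13)])], [(1301, 650)], 1),
    (143159, false, 1, [], [], [(313, [(156, 2), (78, 2), (39, 2), (104, 3), (24, 13)]), (1193, [(596, 2), (298, 2), (149, 2), (8, 149)])], [(1171, 45)], 2),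
    (144259, false, 5, [], [], [], [(424351, 70725)], 0),
    (144659, false, 1, [], [], [(2411, [(1205, 2), (482, 5), (10, 241)])], [(11, 5)], 1),
    (144709, false, 1, [], [], [(29, [(14, 2), (7, 2), (4, 7)]), (449, [(224, 2), (112, 2), (56, 2), (28, 2), (14, 2), (7, 2), (64, 7)])], [(1361, 340)], 1),
    (145679, false, 1, [], [], [(31, [(15, 2), (10, 3), (6, 5)]), (607, [(303, 2), (202, 3), (6, 101)])], [], 2),
    (146309, false, 5, [], [], [], [(4801, 2400)], 0),
    (148139, false, 1, [], [17], [(409, [(204, 2), (102, 2), (51, 2), (136, 3), (24, 17)])], [(31, 3)], 1),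
    (148403, false, 5, [(1, 2)], [], [], [(101, 25)], 0),
    (148429, false, 1, [], [31], [(1303, [(651, 2), (434, 3), (186, 7), (42, 31)])], [(151901, 1085)], 1),
    (148439, false, 1, [], [], [(619, [(309, 2), (206, 3), (6, 103)]), (1237, [(618, 2), (309, 2), (412, 3), (12, 103)])], [(1031, 515)], 2),
    (149059, false, 1, [], [7], [(449, [(224, 2), (112, 2), (56, 2), (28, 2), (14, 2), (7, 2), (64, 7)])], [(281, 140)], 1),
    (149411, false, 1, [], [], [(421, [(210, 2), (105, 2), (140, 3), (84, 5), (60, 7)])], [(151, 75)], 1),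
    (150239, false, 1, [], [], [(13, [(6, 2), (3, 2), (4, 3)]), (313, [(156, 2), (78, 2), (39, 2), (104, 3), (24, 13)])], [(1021, 255)], 2)] 5000 140703 = true := by
  decide +kernel

theorem ck5_150703 : chunk WW (search 1 ef5 fqT GT FN5 3 5) 5
    [(152111, false, 1, [], [5, 7], [(449, [(224, 2), (112, 2), (56, 2), (28, 2), (14, 2), (7, 2), (64, 7)])], [(401, 25)], 1),
    (152539, false, 1, [], [], [(29, [(14, 2), (7, 2), (4, 7)]), (449, [(224, 2), (112, 2), (56, 2), (28, 2), (14, 2), (7, 2), (64, 7)])], [(491, 245)], 1),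
    (153059, false, 1, [], [], [(2551, [(1275, 2), (850, 3), (510, 5), (102, 5), (150, 17)])], [(281, 140)], 1),
    (154619, false, 1, [], [], [(31, [(15, 2), (10, 3), (6, 5)]), (859, [(429, 2), (286, 3), (78, 11), (66, 13)])], [], 2),
    (155579, false, 1, [], [], [(2593, [(1296, 2), (648, 2), (324, 2), (162, 2), (81, 2), (864, 3), (288, 3), (96, 3), (32, 3)])], [(41, 20)], 1),
    (156109, false, 1, [], [], [(233, [(116, 2), (58, 2), (29, 2), (8, 29)]), (313, [(156, 2), (78, 2), (39, 2), (104, 3), (24, 13)])], [(1301, 650)], 1),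
    (156623, false, 1, [(1, 2)], [], [(251, [(125, 2), (50, 5), (10, 5), (2, 5)])], [(131, 65)], 1),
    (157229, false, 1, [], [23], [(47, [(23, 2), (2, 23)]), (1151, [(575, 2), (230, 5), (46, 5), (50, 23)])], [(11, 5)], 1),
    (158351, false, 1, [], [], [(101, [(50, 2), (25, 2), (20, 5), (4, 5)]), (401, [(200, 2), (100, 2), (50, 2), (25, 2), (80, 5), (16, 5)])], [], 1),
    (158909, false, 1, [], [], [], [(1901, 50)], 0),
    (158959, false, 1, [], [], [], [(4861, 81)], 0),
    (159191, false, 1, [], [5], [(71, [(35, 2), (14, 5), (10, 7)]), (211, [(105, 2), (70, 3), (42, 5), (30, 7)])], [(701, 350)], 1)] 5000 150703 = true := by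
  decide +kernel

theorem ck5_160703 : chunk WW (search 1 ef5 fqT GT FN5 3 5) 5
    [(161009, false, 1, [], [2], [(313, [(156, 2), (78, 2), (39, 2), (104, 3), (24, 13)])], [(1171, 45)], 1),
    (161639, false, 1, [], [], [(29, [(14, 2), (7, 2), (4, 7)]), (449, [(224, 2), (112, 2), (56, 2), (28, 2), (14, 2), (7, 2), (64, 7)])], [(281, 140)], 2),
    (162011, false, 1, [], [5], [(521, [(260, 2), (130, 2), (65, 2), (104, 5), (40, 13)])], [(1301, 650)], 1),
    (162209, false, 5, [], [], [], [(401, 25)], 0),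
    (162881, false, 1, [], [], [], [(1151, 575)], 0),
    (163309, false, 1, [], [], [(89, [(44, 2), (22, 2), (11, 2), (8, 11)]), (2333, [(1166, 2), (583, 2), (212, 11), (44, 53)])], [(1321, 660)], 2),
    (165379, true, 1, [(3846, 43), (258, 641)], [], [], [(25468367, 25468366)], 0),
    (165601, false, 1, [], [5], [(251, [(125, 2), (50, 5), (10, 5), (2, 5)])], [], 1),
    (169733, false, 1, [(1, 2)], [], [], [(1361, 340)], 0),
    (170111, false, 1, [], [5], [(521, [(260, 2), (130, 2), (65, 2), (104, 5), (40, 13)])], [(1301, 650)], 1)] 5000 160703 = true := by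
  decide +kernel

theorem ck5_170703 : chunk WW (search 1 ef5 fqT GT FN5 3 5) 5
    [(171659, false, 1, [], [], [], [(1031, 515)], 0),
    (172721, false, 1, [], [5], [(521, [(260, 2), (130, 2), (65, 2), (104, 5), (40, 13)])], [(1301, 650)], 1),
    (173087, false, 1, [(1, 2)], [], [(641, [(320, 2), (160, 2), (80, 2), (40, 2), (20, 2), (10, 2), (5, 2), (128, 5)]), (769, [(384, 2), (192, 2), (96, 2), (48, 2), (24, 2), (12, 2), (6, 2), (3, 2), (256, 3)])], [], 2),
    (175411, false, 1, [], [5], [], [(1301, 650)], 0),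
    (175781, false, 1, [], [17], [(409, [(204, 2), (102, 2), (51, 2), (136, 3), (24, 17)]), (449, [(224, 2), (112, 2), (56, 2), (28, 2), (14, 2), (7, 2), (64, 7)]), (521, [(260, 2), (130, 2), (65, 2), (104, 5), (40, 13)]), (547, [(273, 2), (182, 3), (78, 7), (42, 13)]), (1021, [(510, 2), (255, 2), (340, 3), (204, 5), (60, 17)])], [(2801, 350)], 3),
    (177011, false, 1, [], [5], [(71, [(35, 2), (14, 5), (10, 7)]), (449, [(224, 2), (112, 2), (56, 2), (28, 2), (14, 2), (7, 2), (64, 7)]), (491, [(245, 2), (98, 5), (70, 7), (10, 7)])], [(401, 25)], 2)] 5000 170703 = true := by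
  decide +kernel

theorem ck5_180703 : chunk WW (search 1 ef5 fqT GT FN5 3 5) 5
    [(182333, true, 1, [(45583, 2), (2308, 79), (316, 577)], [], [], [(3646661, 182333)], 0),
    (182789, false, 1, [], [], [(53, [(26, 2), (13, 2), (4, 13)]), (677, [(338, 2), (169, 2), (52, 13), (4, 13)])], [(911, 455)], 2),
    (183383, false, 1, [(1, 2)], [], [(283, [(141, 2), (94, 3), (6, 47)])], [(271, 27)], 1),
    (185183, false, 1, [(1, 2)], [], [(349, [(174, 2), (87, 2), (116, 3), (12, 29)])], [(1451, 725)], 1),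
    (187223, false, 1, [], [7], [(449, [(224, 2), (112, 2), (56, 2), (28, 2), (14, 2), (7, 2), (64, 7)])], [(41, 20)], 1)] 5000 180703 = true := by
  decide +kernel

theorem ck5_190703 : chunk WW (search 1 ef5 fqT GT FN5 3 5) 5
    [(195659, false, 5, [], [], [], [(101, 25)], 0),
    (195731, false, 1, [], [], [], [(1301, 650)], 0),
    (197831, false, 1, [], [], [(11, [(5, 2), (2, 5)]), (521, [(260, 2), (130, 2), (65, 2), (104, 5), (40, 13)])], [(1201, 600)], 1),
    (197909, false, 1, [], [], [(367, [(183, 2), (122, 3), (6, 61)]), (733, [(366, 2), (183, 2), (244, 3), (12, 61)])], [(61, 30)], 2),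
    (198971, false, 1, [], [5], [(521, [(260, 2), (130, 2), (65, 2), (104, 5), (40, 13)])], [(1301, 650)], 1),
    (200063, false, 1, [(1, 2)], [], [(521, [(260, 2), (130, 2), (65, 2), (104, 5), (40, 13)])], [(11, 5)], 1)] 5000 190703 = true := by
  decide +kernel

end Pool.Agent.NearSuper255
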