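import Pool.Agent.NearSuper255.Tab

/-!
# Ranges of excluded pairs, file 20
-/

namespace Pool.Agent.NearSuper255

theorem ck257_92703 : chunk WW (search 1 ef257 fqT GT FN257 4 257) 257
    [(94063, false, 1, [], [], [], [(15059173, 3764793)], 0)] 1000 92703 = true := by
  decide +kernel

theorem ck257_94703 : chunk WW (search 1 ef257 fqT GT FN257 4 257) 257
    [] 1000 94703 = true := by
  decide +kernel

theorem ck257_96703 : chunk WW (search 1 ef257 fqT GT FN257 4 257) 257
    [(97379, false, 1, [(64, 2), (32, 2), (16, 2), (8, 2), (4, 2), (2, 2), (1, 2)], [], [(43, [(21, 2), (14, 3), (6, 7)]), (449, [(224, 2), (112, 2), (56, 2), (28, 2), (14, 2), (7, 2), (64, 7)]), (541, [(270, 2), (135, 2), (180, 3), (60, 3), (20, 3), (108, 5)]), (577, [(288, 2), (144, 2), (72, 2), (36, 2), (18, 2), (9, 2), (192, 3), (64, 3)])], [(1543, 771)], 1),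
    (98689, false, 1, [], [2], [(71, [(35, 2), (14, 5), (10, 7)]), (113, [(56, 2), (28, 2), (14, 2), (7, 2), (16, 7)])], [(13473997, 2245666)], 1)] 1000 96703 = true := by
  decide +kernel

theorem ck257_98703 : chunk WW (search 1 ef257 fqT GT FN257 4 257) 257
    [(98729, false, 1, [(64, 2), (32, 2), (16, 2), (8, 2), (4, 2), (2, 2), (1, 2)], [2], [(1321, [(660, 2), (330, 2), (165, 2), (440, 3), (264, 5), (120, 11)])], [(45233, 5654)], 1),
    (99733, false, 1, [(8, 2), (4, 2)], [], [(43, [(21, 2), (14, 3), (6, 7)]), (97, [(48, 2), (24, 2), (12, 2), (6, 2), (3, 2), (32, 3)]), (449, [(224, 2), (112, 2), (56, 2), (28, 2), (14, 2), (7, 2), (64, 7)])], [(1543, 771)], 2),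
    (100483, false, 1, [(2, 2), (1, 2)], [], [(43, [(21, 2), (14, 3), (6, 7)]), (193, [(96, 2), (48, 2), (24, 2), (12, 2), (6, 2), (3, 2), (64, 3)]), (337, [(168, 2), (84, 2), (42, 2), (21, 2), (112, 3), (48, 7)]), (449, [(224, 2), (112, 2), (56, 2), (28, 2), (14, 2), (7, 2), (64, 7)])], [(1543, 771)], 2)] 1000 98703 = true := by
  decide +kernel

theorem ck257_100703 : chunk WW (search 1 ef257 fqT GT FN257 4 257) 257
    [(102329, false, 1, [(64, 2), (32, 2), (16, 2), (8, 2), (4, 2), (2, 2), (1, 2)], [2], [(379, [(189, 2), (126, 3), (42, 3), (14, 3), (54, 7)]), (433, [(216, 2), (108, 2), (54, 2), (27, 2), (144, 3), (48, 3), (16, 3)])], [(1543, 771)], 1)] 1000 100703 = true := by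
  decide +kernel

end Pool.Agent.NearSuper255
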