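import Pool.Agent.NearSuper255.Tab

/-!
# Ranges of excluded pairs, file 21
-/

namespace Pool.Agent.NearSuper255

theorem ck257_102703 : chunk WW (search 1 ef257 fqT GT FN257 4 257) 257
    [] 1000 102703 = true := by
  decide +kernel

theorem ck257_104703 : chunk WW (search 1 ef257 fqT GT FN257 4 257) 257
    [(105389, false, 1, [(64, 2), (32, 2), (16, 2), (8, 2), (4, 2), (2, 2), (1, 2)], [], [(113, [(56, 2), (28, 2), (14, 2), (7, 2), (16, 7)]), (239, [(119, 2), (34, 7), (14, 17)]), (409, [(204, 2), (102, 2), (51, 2), (136, 3), (24, 17)]), (449, [(224, 2), (112, 2), (56, 2), (28, 2), (14, 2), (7, 2), (64, 7)]), (577, [(288, 2), (144, 2), (72, 2), (36, 2), (18, 2), (9, 2), (192, 3), (64, 3)])], [(17477, 8738)], 3)] 1000 104703 = true := by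
  decide +kernel

theorem ck257_106703 : chunk WW (search 1 ef257 fqT GT FN257 4 257) 257
    [(107699, false, 1, [(1, 2)], [], [(17, [(8, 2), (4, 2), (2, 2), (1, 2)]), (1321, [(660, 2), (330, 2), (165, 2), (440, 3), (264, 5), (120, 11)])], [(45233, 5654)], 1),
    (107941, false, 1, [], [5, 7], [(11, [(5, 2), (2, 5)]), (29, [(14, 2), (7, 2), (4, 7)])], [(4623431, 2311715)], 1)] 1000 106703 = true := by
  decide +kernel

theorem ck257_108703 : chunk WW (search 1 ef257 fqT GT FN257 4 257) 257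
    [(108917, false, 1, [(64, 2), (32, 2), (16, 2), (8, 2), (4, 2), (2, 2), (1, 2)], [], [(43, [(21, 2), (14, 3), (6, 7)]), (337, [(168, 2), (84, 2), (42, 2), (21, 2), (112, 3), (48, 7)])], [(1543, 771)], 1),
    (109133, false, 1, [(16, 2), (8, 2), (4, 2), (2, 2), (1, 2)], [], [(233, [(116, 2), (58, 2), (29, 2), (8, 29)]), (349, [(174, 2), (87, 2), (116, 3), (12, 29)]), (523, [(261, 2), (174, 3), (58, 3), (18, 29)])], [(1543, 771)], 1),
    (109357, false, 1, [(64, 2), (32, 2), (16, 2), (8, 2), (4, 2), (2, 2), (1, 2)], [], [(43, [(21, 2), (14, 3), (6, 7)]), (97, [(48, 2), (24, 2), (12, 2), (6, 2), (3, 2), (32, 3)]), (449, [(224, 2), (112, 2), (56, 2), (28, 2), (14, 2), (7, 2), (64, 7)])], [(1543, 771)], 2),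
    (110119, false, 1, [(16, 2), (8, 2), (4, 2), (2, 2), (1, 2)], [], [(43, [(21, 2), (14, 3), (6, 7)]), (97, [(48, 2), (24, 2), (12, 2), (6, 2), (3, 2), (32, 3)]), (127, [(63, 2), (42, 3), (14, 3), (18, 7)]), (449, [(224, 2), (112, 2), (56, 2), (28, 2), (14, 2), (7, 2), (64, 7)])], [(1543, 771)], 2),
    (110597, false, 1, [(64, 2), (32, 2), (16, 2), (8, 2), (4, 2), (2, 2), (1, 2)], [2], [(1321, [(660, 2), (330, 2), (165, 2), (440, 3), (264, 5), (120, 11)])], [(45233, 5654)], 1)] 1000 108703 = true := by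
  decide +kernel

theorem ck257_110703 : chunk WW (search 1 ef257 fqT GT FN257 4 257) 257
    [(111539, false, 1, [], [], [(43, [(21, 2), (14, 3), (6, 7)]), (127, [(63, 2), (42, 3), (14, 3), (18, 7)]), (199, [(99, 2), (66, 3), (22, 3), (18, 11)])], [(30514639, 15257319)], 1)] 1000 110703 = true := by
  decide +kernel

end Pool.Agent.NearSuper255
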