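import Pool.Agent.NearSuper255.Tab

/-!
# Ranges of excluded pairs, file 22
-/

namespace Pool.Agent.NearSuper255

theorem ck257_112703 : chunk WW (search 1 ef257 fqT GT FN257 4 257) 257
    [(113081, false, 1, [], [], [(43, [(21, 2), (14, 3), (6, 7)]), (127, [(63, 2), (42, 3), (14, 3), (18, 7)]), (199, [(99, 2), (66, 3), (22, 3), (18, 11)])], [(30514639, 15257319)], 1)] 1000 112703 = true := by
  decide +kernel

theorem ck257_114703 : chunk WW (search 1 ef257 fqT GT FN257 4 257) 257
    [(115067, false, 1, [(64, 2), (32, 2), (16, 2), (8, 2), (4, 2), (2, 2), (1, 2)], [7], [(401, [(200, 2), (100, 2), (50, 2), (25, 2), (80, 5), (16, 5)]), (421, [(210, 2), (105, 2), (140, 3), (84, 5), (60, 7)])], [(1543, 771)], 1)] 1000 114703 = true := by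
  decide +kernel

theorem ck257_116703 : chunk WW (search 1 ef257 fqT GT FN257 4 257) 257
    [(117193, false, 1, [], [19], [(43, [(21, 2), (14, 3), (6, 7)]), (191, [(95, 2), (38, 5), (10, 19)])], [(35138069, 17569034)], 1),
    (118463, false, 1, [(64, 2), (32, 2), (16, 2), (8, 2), (4, 2), (2, 2), (1, 2)], [], [(101, [(50, 2), (25, 2), (20, 5), (4, 5)]), (433, [(216, 2), (108, 2), (54, 2), (27, 2), (144, 3), (48, 3), (16, 3)]), (541, [(270, 2), (135, 2), (180, 3), (60, 3), (20, 3), (108, 5)])], [(13879, 6939)], 1)] 1000 116703 = true := by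
  decide +kernel

theorem ck257_118703 : chunk WW (search 1 ef257 fqT GT FN257 4 257) 257
    [(120277, false, 1, [], [3], [(61, [(30, 2), (15, 2), (20, 3), (12, 5)])], [(38836813, 9709203)], 1)] 1000 118703 = true := by
  decide +kernel

theorem ck257_120703 : chunk WW (search 1 ef257 fqT GT FN257 4 257) 257
    [(121949, false, 1, [(64, 2), (32, 2), (16, 2), (8, 2), (4, 2), (2, 2), (1, 2)], [2], [(271, [(135, 2), (90, 3), (30, 3), (10, 3), (54, 5)]), (541, [(270, 2), (135, 2), (180, 3), (60, 3), (20, 3), (108, 5)])], [(13879, 6939)], 1)] 1000 120703 = true := by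
  decide +kernel

end Pool.Agent.NearSuper255
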