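import Pool.Agent.NearSuper255.Tab

/-!
# Ranges of excluded pairs, file 23
-/

namespace Pool.Agent.NearSuper255

theorem ck257_122703 : chunk WW (search 1 ef257 fqT GT FN257 4 257) 257
    [(122867, false, 1, [(32, 2), (16, 2), (8, 2), (4, 2), (2, 2), (1, 2)], [], [(43, [(21, 2), (14, 3), (6, 7)]), (71, [(35, 2), (14, 5), (10, 7)]), (421, [(210, 2), (105, 2), (140, 3), (84, 5), (60, 7)]), (449, [(224, 2), (112, 2), (56, 2), (28, 2), (14, 2), (7, 2), (64, 7)])], [(1543, 771)], 2)] 1000 122703 = true := by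
  decide +kernel

theorem ck257_124703 : chunk WW (search 1 ef257 fqT GT FN257 4 257) 257
    [] 1000 124703 = true := by
  decide +kernel

theorem ck257_126703 : chunk WW (search 1 ef257 fqT GT FN257 4 257) 257
    [(127709, false, 1, [(64, 2), (32, 2), (16, 2), (8, 2), (4, 2), (2, 2), (1, 2)], [2, 7], [(11, [(5, 2), (2, 5)]), (421, [(210, 2), (105, 2), (140, 3), (84, 5), (60, 7)])], [(1543, 771)], 1),
    (128399, false, 1, [(64, 2), (32, 2), (16, 2), (8, 2), (4, 2), (2, 2), (1, 2)], [], [(929, [(464, 2), (232, 2), (116, 2), (58, 2), (29, 2), (32, 29)]), (1321, [(660, 2), (330, 2), (165, 2), (440, 3), (264, 5), (120, 11)])], [(45233, 5654)], 1)] 1000 126703 = true := by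
  decide +kernel

theorem ck257_128703 : chunk WW (search 1 ef257 fqT GT FN257 4 257) 257
    [(129529, false, 1, [], [], [], [(21796171, 10898085)], 0),
    (130043, false, 1, [], [], [], [(4227137, 1056784)], 0)] 1000 128703 = true := by
  decide +kernel

theorem ck257_130703 : chunk WW (search 1 ef257 fqT GT FN257 4 257) 257
    [(131071, false, 1, [], [3, 5, 17], [(11, [(5, 2), (2, 5)]), (103, [(51, 2), (34, 3), (6, 17)]), (181, [(90, 2), (45, 2), (60, 3), (20, 3), (36, 5)]), (199, [(99, 2), (66, 3), (22, 3), (18, 11)])], [(36326951, 18163475)], 1),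
    (131111, false, 1, [(64, 2), (32, 2), (16, 2), (8, 2), (4, 2), (2, 2), (1, 2)], [5, 7], [(239, [(119, 2), (34, 7), (14, 17)]), (409, [(204, 2), (102, 2), (51, 2), (136, 3), (24, 17)]), (449, [(224, 2), (112, 2), (56, 2), (28, 2), (14, 2), (7, 2), (64, 7)]), (491, [(245, 2), (98, 5), (70, 7), (10, 7)])], [(17477, 8738)], 3),
    (132611, true, 1, [(1490, 89), (890, 149)], [], [(179, [(89, 2), (2, 89)])], [(47209517, 23604758)], 1)] 1000 130703 = true := by
  decide +kernel

end Pool.Agent.NearSuper255
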