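import Pool.Agent.NearSuper255.Tab

/-!
# Ranges of excluded pairs, file 24
-/

namespace Pool.Agent.NearSuper255

theorem ck257_132703 : chunk WW (search 1 ef257 fqT GT FN257 4 257) 257
    [(134039, false, 1, [(64, 2), (32, 2), (16, 2), (8, 2), (4, 2), (2, 2), (1, 2)], [], [(97, [(48, 2), (24, 2), (12, 2), (6, 2), (3, 2), (32, 3)]), (353, [(176, 2), (88, 2), (44, 2), (22, 2), (11, 2), (32, 11)])], [(1543, 771)], 2),
    (134669, false, 1, [], [], [(5, [(2, 2), (1, 2)]), (67, [(33, 2), (22, 3), (6, 11)]), (89, [(44, 2), (22, 2), (11, 2), (8, 11)]), (97, [(48, 2), (24, 2), (12, 2), (6, 2), (3, 2), (32, 3)]), (193, [(96, 2), (48, 2), (24, 2), (12, 2), (6, 2), (3, 2), (64, 3)])], [(4227137, 1056784)], 1)] 1000 132703 = true := by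
  decide +kernel

theorem ck257_134703 : chunk WW (search 1 ef257 fqT GT FN257 4 257) 257
    [(135697, false, 1, [], [], [], [(4623431, 2311715)], 0),
    (136607, false, 1, [(16, 2), (8, 2), (4, 2), (2, 2), (1, 2)], [], [(7, [(3, 2), (2, 3)]), (43, [(21, 2), (14, 3), (6, 7)]), (337, [(168, 2), (84, 2), (42, 2), (21, 2), (112, 3), (48, 7)])], [(1543, 771)], 2)] 1000 134703 = true := by
  decide +kernel

theorem ck257_136703 : chunk WW (search 1 ef257 fqT GT FN257 4 257) 257
    [(137239, false, 1, [], [3], [(13, [(6, 2), (3, 2), (4, 3)]), (43, [(21, 2), (14, 3), (6, 7)]), (109, [(54, 2), (27, 2), (36, 3), (12, 3), (4, 3)]), (127, [(63, 2), (42, 3), (14, 3), (18, 7)]), (199, [(99, 2), (66, 3), (22, 3), (18, 11)])], [(30514639, 15257319)], 2),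
    (137771, false, 1, [(64, 2), (32, 2), (16, 2), (8, 2), (4, 2), (2, 2), (1, 2)], [], [(331, [(165, 2), (110, 3), (66, 5), (30, 11)]), (353, [(176, 2), (88, 2), (44, 2), (22, 2), (11, 2), (32, 11)]), (433, [(216, 2), (108, 2), (54, 2), (27, 2), (144, 3), (48, 3), (16, 3)])], [(1543, 771)], 2)] 1000 136703 = true := by
  decide +kernel

theorem ck257_138703 : chunk WW (search 1 ef257 fqT GT FN257 4 257) 257
    [] 1000 138703 = true := by
  decide +kernel

theorem ck257_140703 : chunk WW (search 1 ef257 fqT GT FN257 4 257) 257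
    [(140837, false, 1, [], [], [(43, [(21, 2), (14, 3), (6, 7)])], [(16644349, 8322174)], 1),
    (141061, false, 1, [(4, 2), (2, 2), (1, 2)], [], [(43, [(21, 2), (14, 3), (6, 7)]), (337, [(168, 2), (84, 2), (42, 2), (21, 2), (112, 3), (48, 7)])], [(1543, 771)], 1)] 1000 140703 = true := by
  decide +kernel

end Pool.Agent.NearSuper255
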