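import Pool.Agent.NearSuper255.Tab

/-!
# Ranges of excluded pairs, file 25
-/

namespace Pool.Agent.NearSuper255

theorem ck257_142703 : chunk WW (search 1 ef257 fqT GT FN257 4 257) 257
    [(143249, false, 1, [(32, 2), (16, 2), (8, 2), (4, 2), (2, 2), (1, 2)], [], [(191, [(95, 2), (38, 5), (10, 19)]), (457, [(228, 2), (114, 2), (57, 2), (152, 3), (24, 19)])], [(9767, 4883)], 1)] 1000 142703 = true := by
  decide +kernel

theorem ck257_144703 : chunk WW (search 1 ef257 fqT GT FN257 4 257) 257
    [(145463, false, 1, [], [], [(11, [(5, 2), (2, 5)]), (29, [(14, 2), (7, 2), (4, 7)]), (71, [(35, 2), (14, 5), (10, 7)])], [(38308421, 19154210)], 1),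
    (146249, false, 1, [], [2], [(43, [(21, 2), (14, 3), (6, 7)]), (73, [(36, 2), (18, 2), (9, 2), (24, 3), (8, 3)]), (199, [(99, 2), (66, 3), (22, 3), (18, 11)]), (223, [(111, 2), (74, 3), (6, 37)]), (593, [(296, 2), (148, 2), (74, 2), (37, 2), (16, 37)])], [(16963, 771)], 2)] 1000 144703 = true := by
  decide +kernel

theorem ck257_146703 : chunk WW (search 1 ef257 fqT GT FN257 4 257) 257
    [] 1000 146703 = true := by
  decide +kernel

theorem ck257_148703 : chunk WW (search 1 ef257 fqT GT FN257 4 257) 257
    [(150089, false, 1, [], [], [], [(3830843, 1915421)], 0)] 1000 148703 = true := by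
  decide +kernel

theorem ck257_150703 : chunk WW (search 1 ef257 fqT GT FN257 4 257) 257
    [(151631, false, 1, [], [], [(43, [(21, 2), (14, 3), (6, 7)])], [(30514639, 15257319)], 1)] 1000 150703 = true := by
  decide +kernel

end Pool.Agent.NearSuper255
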