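import Pool.Agent.NearSuper255.Tab

/-!
# Ranges of excluded pairs, file 26
-/

namespace Pool.Agent.NearSuper255

theorem ck257_152703 : chunk WW (search 1 ef257 fqT GT FN257 4 257) 257
    [(154073, false, 1, [(64, 2), (32, 2), (16, 2), (8, 2), (4, 2), (2, 2), (1, 2)], [], [(43, [(21, 2), (14, 3), (6, 7)]), (337, [(168, 2), (84, 2), (42, 2), (21, 2), (112, 3), (48, 7)])], [(13879, 6939)], 1),
    (154589, false, 1, [(64, 2), (32, 2), (16, 2), (8, 2), (4, 2), (2, 2), (1, 2)], [7], [(29, [(14, 2), (7, 2), (4, 7)]), (281, [(140, 2), (70, 2), (35, 2), (56, 5), (40, 7)]), (421, [(210, 2), (105, 2), (140, 3), (84, 5), (60, 7)]), (433, [(216, 2), (108, 2), (54, 2), (27, 2), (144, 3), (48, 3), (16, 3)]), (541, [(270, 2), (135, 2), (180, 3), (60, 3), (20, 3), (108, 5)])], [(13879, 6939)], 1)] 1000 152703 = true := by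
  decide +kernel

theorem ck257_154703 : chunk WW (search 1 ef257 fqT GT FN257 4 257) 257
    [(155747, false, 1, [(64, 2), (32, 2), (16, 2), (8, 2), (4, 2), (2, 2), (1, 2)], [], [(17, [(8, 2), (4, 2), (2, 2), (1, 2)]), (29, [(14, 2), (7, 2), (4, 7)]), (113, [(56, 2), (28, 2), (14, 2), (7, 2), (16, 7)]), (281, [(140, 2), (70, 2), (35, 2), (56, 5), (40, 7)]), (421, [(210, 2), (105, 2), (140, 3), (84, 5), (60, 7)])], [(1543, 771)], 1),
    (156257, false, 1, [], [2, 19], [(17, [(8, 2), (4, 2), (2, 2), (1, 2)]), (37, [(18, 2), (9, 2), (12, 3), (4, 3)]), (191, [(95, 2), (38, 5), (10, 19)]), (199, [(99, 2), (66, 3), (22, 3), (18, 11)])], [(36326951, 18163475)], 1)] 1000 154703 = true := by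
  decide +kernel

theorem ck257_156703 : chunk WW (search 1 ef257 fqT GT FN257 4 257) 257
    [(157427, false, 1, [(32, 2), (16, 2), (8, 2), (4, 2), (2, 2), (1, 2)], [], [(7, [(3, 2), (2, 3)]), (43, [(21, 2), (14, 3), (6, 7)]), (337, [(168, 2), (84, 2), (42, 2), (21, 2), (112, 3), (48, 7)])], [(1543, 771)], 2),
    (157799, false, 1, [], [], [(29, [(14, 2), (7, 2), (4, 7)]), (43, [(21, 2), (14, 3), (6, 7)]), (71, [(35, 2), (14, 5), (10, 7)])], [(38836813, 9709203)], 2)] 1000 156703 = true := by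
  decide +kernel

theorem ck257_158703 : chunk WW (search 1 ef257 fqT GT FN257 4 257) 257
    [] 1000 158703 = true := by
  decide +kernel

theorem ck257_160703 : chunk WW (search 1 ef257 fqT GT FN257 4 257) 257
    [(160883, false, 1, [], [], [], [(4623431, 2311715)], 0),
    (161033, false, 1, [(64, 2), (32, 2), (16, 2), (8, 2), (4, 2), (2, 2), (1, 2)], [], [(43, [(21, 2), (14, 3), (6, 7)]), (199, [(99, 2), (66, 3), (22, 3), (18, 11)]), (211, [(105, 2), (70, 3), (42, 5), (30, 7)]), (241, [(120, 2), (60, 2), (30, 2), (15, 2), (80, 3), (48, 5)]), (577, [(288, 2), (144, 2), (72, 2), (36, 2), (18, 2), (9, 2), (192, 3), (64, 3)])], [(16963, 771)], 2),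
    (161911, false, 1, [], [3, 7], [(61, [(30, 2), (15, 2), (20, 3), (12, 5)]), (109, [(54, 2), (27, 2), (36, 3), (12, 3), (4, 3)]), (199, [(99, 2), (66, 3), (22, 3), (18, 11)])], [(30514639, 15257319)], 1),
    (162389, false, 1, [(16, 2), (8, 2), (4, 2), (2, 2), (1, 2)], [], [(233, [(116, 2), (58, 2), (29, 2), (8, 29)]), (349, [(174, 2), (87, 2), (116, 3), (12, 29)]), (523, [(261, 2), (174, 3), (58, 3), (18, 29)])], [(1543, 771)], 1),
    (162419, false, 1, [(64, 2), (32, 2), (16, 2), (8, 2), (4, 2), (2, 2), (1, 2)], [17], [(19, [(9, 2), (6, 3), (2, 3)]), (193, [(96, 2), (48, 2), (24, 2), (12, 2), (6, 2), (3, 2), (64, 3)]), (199, [(99, 2), (66, 3), (22, 3), (18, 11)]), (409, [(204, 2), (102, 2), (51, 2), (136, 3), (24, 17)])], [(16963, 771)], 2)] 1000 160703 = true := by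
  decide +kernel

theorem ck257_162703 : chunk WW (search 1 ef257 fqT GT FN257 4 257) 257
    [(163573, false, 1, [(8, 2), (4, 2), (2, 2), (1, 2)], [3], [(199, [(99, 2), (66, 3), (22, 3), (18, 11)]), (241, [(120, 2), (60, 2), (30, 2), (15, 2), (80, 3), (48, 5)]), (541, [(270, 2), (135, 2), (180, 3), (60, 3), (20, 3), (108, 5)])], [(16963, 771)], 2),
    (163733, false, 1, [(64, 2), (32, 2), (16, 2), (8, 2), (4, 2), (2, 2), (1, 2)], [], [(43, [(21, 2), (14, 3), (6, 7)]), (337, [(168, 2), (84, 2), (42, 2), (21, 2), (112, 3), (48, 7)]), (353, [(176, 2), (88, 2), (44, 2), (22, 2), (11, 2), (32, 11)]), (397, [(198, 2), (99, 2), (132, 3), (44, 3), (36, 11)])], [(13879, 6939)], 1)] 1000 162703 = true := by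
  decide +kernel

end Pool.Agent.NearSuper255
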