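import Pool.Agent.NearSuper255.Tab

/-!
# Ranges of excluded pairs, file 27
-/

namespace Pool.Agent.NearSuper255

theorem ck257_164703 : chunk WW (search 1 ef257 fqT GT FN257 4 257) 257
    [(165379, false, 1, [(4, 2), (2, 2), (1, 2)], [], [(137, [(68, 2), (34, 2), (17, 2), (8, 17)]), (409, [(204, 2), (102, 2), (51, 2), (136, 3), (24, 17)])], [(17477, 8738)], 2),
    (166027, false, 1, [(64, 2), (32, 2), (16, 2), (8, 2), (4, 2), (2, 2), (1, 2)], [7], [(29, [(14, 2), (7, 2), (4, 7)]), (97, [(48, 2), (24, 2), (12, 2), (6, 2), (3, 2), (32, 3)]), (449, [(224, 2), (112, 2), (56, 2), (28, 2), (14, 2), (7, 2), (64, 7)])], [(1543, 771)], 2)] 1000 164703 = true := by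
  decide +kernel

theorem ck257_166703 : chunk WW (search 1 ef257 fqT GT FN257 4 257) 257
    [(167051, false, 1, [], [5], [(11, [(5, 2), (2, 5)])], [(38308421, 19154210)], 1),
    (167917, false, 1, [(64, 2), (32, 2), (16, 2), (8, 2), (4, 2), (2, 2), (1, 2)], [7], [(29, [(14, 2), (7, 2), (4, 7)]), (239, [(119, 2), (34, 7), (14, 17)]), (409, [(204, 2), (102, 2), (51, 2), (136, 3), (24, 17)]), (449, [(224, 2), (112, 2), (56, 2), (28, 2), (14, 2), (7, 2), (64, 7)])], [(17477, 8738)], 2),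
    (168281, false, 1, [(64, 2), (32, 2), (16, 2), (8, 2), (4, 2), (2, 2), (1, 2)], [7], [(29, [(14, 2), (7, 2), (4, 7)]), (281, [(140, 2), (70, 2), (35, 2), (56, 5), (40, 7)]), (421, [(210, 2), (105, 2), (140, 3), (84, 5), (60, 7)])], [(13879, 6939)], 1),
    (168599, false, 1, [(64, 2), (32, 2), (16, 2), (8, 2), (4, 2), (2, 2), (1, 2)], [], [(43, [(21, 2), (14, 3), (6, 7)]), (97, [(48, 2), (24, 2), (12, 2), (6, 2), (3, 2), (32, 3)]), (449, [(224, 2), (112, 2), (56, 2), (28, 2), (14, 2), (7, 2), (64, 7)]), (577, [(288, 2), (144, 2), (72, 2), (36, 2), (18, 2), (9, 2), (192, 3), (64, 3)])], [(13879, 6939)], 2)] 1000 166703 = true := by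
  decide +kernel

theorem ck257_168703 : chunk WW (search 1 ef257 fqT GT FN257 4 257) 257
    [(169097, false, 1, [(32, 2), (16, 2), (8, 2), (4, 2), (2, 2), (1, 2)], [], [(43, [(21, 2), (14, 3), (6, 7)]), (337, [(168, 2), (84, 2), (42, 2), (21, 2), (112, 3), (48, 7)]), (353, [(176, 2), (88, 2), (44, 2), (22, 2), (11, 2), (32, 11)]), (397, [(198, 2), (99, 2), (132, 3), (44, 3), (36, 11)])], [(16963, 771)], 1),
    (169373, false, 1, [(64, 2), (32, 2), (16, 2), (8, 2), (4, 2), (2, 2), (1, 2)], [7], [(137, [(68, 2), (34, 2), (17, 2), (8, 17)]), (239, [(119, 2), (34, 7), (14, 17)])], [(17477, 8738)], 1)] 1000 168703 = true := by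
  decide +kernel

theorem ck257_170703 : chunk WW (search 1 ef257 fqT GT FN257 4 257) 257
    [(171163, false, 1, [], [], [], [(19682603, 9841301)], 0),
    (171167, false, 1, [(64, 2), (32, 2), (16, 2), (8, 2), (4, 2), (2, 2), (1, 2)], [], [(43, [(21, 2), (14, 3), (6, 7)]), (337, [(168, 2), (84, 2), (42, 2), (21, 2), (112, 3), (48, 7)]), (449, [(224, 2), (112, 2), (56, 2), (28, 2), (14, 2), (7, 2), (64, 7)]), (577, [(288, 2), (144, 2), (72, 2), (36, 2), (18, 2), (9, 2), (192, 3), (64, 3)])], [(1543, 771)], 2),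
    (172643, false, 1, [(32, 2), (16, 2), (8, 2), (4, 2), (2, 2), (1, 2)], [], [(31, [(15, 2), (10, 3), (6, 5)]), (43, [(21, 2), (14, 3), (6, 7)]), (61, [(30, 2), (15, 2), (20, 3), (12, 5)]), (281, [(140, 2), (70, 2), (35, 2), (56, 5), (40, 7)]), (491, [(245, 2), (98, 5), (70, 7), (10, 7)])], [(16963, 771)], 2),
    (172649, false, 1, [(64, 2), (32, 2), (16, 2), (8, 2), (4, 2), (2, 2), (1, 2)], [2], [(43, [(21, 2), (14, 3), (6, 7)]), (71, [(35, 2), (14, 5), (10, 7)]), (421, [(210, 2), (105, 2), (140, 3), (84, 5), (60, 7)])], [(16963, 771)], 1)] 1000 170703 = true := by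
  decide +kernel

theorem ck257_172703 : chunk WW (search 1 ef257 fqT GT FN257 4 257) 257
    [(173219, false, 1, [], [], [(43, [(21, 2), (14, 3), (6, 7)])], [(13473997, 2245666)], 1),
    (174311, false, 1, [(64, 2), (32, 2), (16, 2), (8, 2), (4, 2), (2, 2), (1, 2)], [], [(97, [(48, 2), (24, 2), (12, 2), (6, 2), (3, 2), (32, 3)]), (449, [(224, 2), (112, 2), (56, 2), (28, 2), (14, 2), (7, 2), (64, 7)])], [(1543, 771)], 2)] 1000 172703 = true := by
  decide +kernel

theorem ck257_174703 : chunk WW (search 1 ef257 fqT GT FN257 4 257) 257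
    [(174761, false, 1, [], [], [(37, [(18, 2), (9, 2), (12, 3), (4, 3)]), (43, [(21, 2), (14, 3), (6, 7)]), (127, [(63, 2), (42, 3), (14, 3), (18, 7)]), (199, [(99, 2), (66, 3), (22, 3), (18, 11)])], [(30514639, 15257319)], 3),
    (176303, false, 1, [], [], [(43, [(21, 2), (14, 3), (6, 7)]), (73, [(36, 2), (18, 2), (9, 2), (24, 3), (8, 3)]), (199, [(99, 2), (66, 3), (22, 3), (18, 11)])], [(30514639, 15257319)], 1),
    (176557, false, 1, [(4, 2), (2, 2), (1, 2)], [], [(313, [(156, 2), (78, 2), (39, 2), (104, 3), (24, 13)]), (449, [(224, 2), (112, 2), (56, 2), (28, 2), (14, 2), (7, 2), (64, 7)]), (547, [(273, 2), (182, 3), (78, 7), (42, 13)])], [(1543, 771)], 1)] 1000 174703 = true := by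
  decide +kernel

end Pool.Agent.NearSuper255
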