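import Pool.Agent.NearSuper255.Tab

/-!
# Ranges of excluded pairs, file 29
-/

namespace Pool.Agent.NearSuper255

theorem ck257_188703 : chunk WW (search 1 ef257 fqT GT FN257 4 257) 257
    [(190181, false, 1, [], [5], [(11, [(5, 2), (2, 5)])], [(34345481, 17172740)], 1)] 749 188703 = true := by
  decide +kernel

end Pool.Agent.NearSuper255
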