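import Pool.Agent.NearSuper255.Tab

/-!
# Ranges of excluded pairs, file 3
-/

namespace Pool.Agent.NearSuper255

theorem ck5_200703 : chunk WW (search 1 ef5 fqT GT FN5 3 5) 5
    [(200771, false, 1, [], [], [(101, [(50, 2), (25, 2), (20, 5), (4, 5)]), (401, [(200, 2), (100, 2), (50, 2), (25, 2), (80, 5), (16, 5)])], [], 1),
    (201359, false, 1, [], [1213], [(254731, [(127365, 2), (84910, 3), (50946, 5), (36390, 7), (210, 1213)])], [], 1),
    (201731, false, 1, [], [5], [(29, [(14, 2), (7, 2), (4, 7)]), (71, [(35, 2), (14, 5), (10, 7)]), (449, [(224, 2), (112, 2), (56, 2), (28, 2), (14, 2), (7, 2), (64, 7)])], [(601, 12)], 2),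
    (203989, false, 1, [], [], [], [(1721, 430)], 0),
    (205171, false, 1, [], [5], [(521, [(260, 2), (130, 2), (65, 2), (104, 5), (40, 13)])], [(1301, 650)], 1),
    (206083, false, 1, [(1, 2)], [], [], [(1901, 50)], 0),
    (208519, false, 1, [], [], [(401, [(200, 2), (100, 2), (50, 2), (25, 2), (80, 5), (16, 5)])], [(11, 5)], 1),
    (209269, false, 1, [], [], [(17, [(8, 2), (4, 2), (2, 2), (1, 2)]), (313, [(156, 2), (78, 2), (39, 2), (104, 3), (24, 13)])], [(241, 40)], 1),
    (210191, false, 1, [], [5], [(521, [(260, 2), (130, 2), (65, 2), (104, 5), (40, 13)])], [(1301, 650)], 1)] 5000 200703 = true := by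
  decide +kernel

theorem ck5_210703 : chunk WW (search 1 ef5 fqT GT FN5 3 5) 5
    [(210719, false, 1, [], [], [(31, [(15, 2), (10, 3), (6, 5)]), (439, [(219, 2), (146, 3), (6, 73)])], [], 2),
    (210809, false, 1, [], [], [], [(4481, 2240)], 0),
    (211061, false, 1, [], [], [(29, [(14, 2), (7, 2), (4, 7)]), (449, [(224, 2), (112, 2), (56, 2), (28, 2), (14, 2), (7, 2), (64, 7)])], [(1051, 525)], 1),
    (211619, false, 1, [], [], [], [(1031, 515)], 0),
    (214559, true, 1, [(2, 107279)], [], [], [(4291181, 2145590)], 0),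
    (215239, false, 5, [], [], [], [(60251, 30125)], 0),
    (215483, false, 1, [(1, 2)], [], [], [(1721, 430)], 0),
    (217859, false, 5, [], [], [], [(7451, 3725)], 0),
    (218509, false, 1, [], [], [], [(46771, 4677)], 0),
    (220163, false, 1, [(1, 2)], [], [(17, [(8, 2), (4, 2), (2, 2), (1, 2)]), (313, [(156, 2), (78, 2), (39, 2), (104, 3), (24, 13)])], [(521, 10)], 1),
    (220559, false, 1, [], [13, 17], [(443, [(221, 2), (34, 13), (26, 17)])], [(1361, 340)], 1)] 5000 210703 = true := by
  decide +kernel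

theorem ck5_220703 : chunk WW (search 1 ef5 fqT GT FN5 3 5) 5
    [(223361, false, 1, [], [], [(191, [(95, 2), (38, 5), (10, 19)]), (331, [(165, 2), (110, 3), (66, 5), (30, 11)]), (571, [(285, 2), (190, 3), (114, 5), (30, 19)])], [(601, 12)], 1),
    (223529, false, 1, [], [], [], [(2741, 274)], 0),
    (223919, false, 1, [], [], [(311, [(155, 2), (62, 5), (10, 31)])], [(41, 20)], 1),
    (224423, false, 1, [(1, 2)], [], [], [(1861, 31)], 0),
    (225023, false, 1, [(1, 2)], [], [(293, [(146, 2), (73, 2), (4, 73)]), (373, [(186, 2), (93, 2), (124, 3), (12, 31)]), (439, [(219, 2), (146, 3), (6, 73)])], [(181, 15)], 1),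
    (225383, false, 5, [(1, 2)], [], [], [(601, 12)], 0),
    (228409, false, 1, [], [], [(251, [(125, 2), (50, 5), (10, 5), (2, 5)])], [(211, 35)], 1)] 5000 220703 = true := by
  decide +kernel

theorem ck5_230703 : chunk WW (search 1 ef5 fqT GT FN5 3 5) 5
    [(230939, false, 5, [], [], [], [(4201, 35)], 0),
    (231611, false, 1, [], [19], [(191, [(95, 2), (38, 5), (10, 19)]), (521, [(260, 2), (130, 2), (65, 2), (104, 5), (40, 13)]), (571, [(285, 2), (190, 3), (114, 5), (30, 19)])], [(1301, 650)], 2),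
    (232109, false, 1, [], [], [], [(1381, 690)], 0),
    (232811, false, 1, [], [5], [(521, [(260, 2), (130, 2), (65, 2), (104, 5), (40, 13)])], [(1301, 650)], 1),
    (233609, false, 1, [], [2], [(53, [(26, 2), (13, 2), (4, 13)]), (599, [(299, 2), (46, 13), (26, 23)])], [(131, 65)], 2),
    (234211, false, 1, [], [], [(11, [(5, 2), (2, 5)]), (521, [(260, 2), (130, 2), (65, 2), (104, 5), (40, 13)])], [(101, 25)], 1),
    (236153, false, 1, [], [2], [(313, [(156, 2), (78, 2), (39, 2), (104, 3), (24, 13)])], [(1171, 45)], 1),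
    (236723, false, 5, [(1, 2)], [], [], [(101, 25)], 0),
    (238859, false, 1, [], [], [(1327, [(663, 2), (442, 3), (102, 13), (78, 17)])], [(31, 3)], 1),
    (240263, false, 1, [(1, 2)], [], [(71, [(35, 2), (14, 5), (10, 7)])], [(1481, 740)], 1),
    (240509, true, 1, [(4, 60127)], [], [], [(9139343, 4569671)], 0)] 5000 230703 = true := by
  decide +kernel

theorem ck5_240703 : chunk WW (search 1 ef5 fqT GT FN5 3 5) 5
    [(241321, false, 1, [], [], [], [(1051, 525)], 0),
    (242069, false, 1, [], [829], [(33161, [(16580, 2), (8290, 2), (4145, 2), (6632, 5), (40, 829)])], [], 1),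
    (247439, false, 1, [], [], [(1031, [(515, 2), (206, 5), (10, 103)])], [(41, 20)], 1),
    (248621, false, 1, [], [], [(211, [(105, 2), (70, 3), (42, 5), (30, 7)]), (491, [(245, 2), (98, 5), (70, 7), (10, 7)])], [(1051, 525)], 2),
    (248987, false, 5, [(1, 2)], [], [], [(701, 350)], 0)] 5000 240703 = true := by
  decide +kernel

theorem ck5_250703 : chunk WW (search 1 ef5 fqT GT FN5 3 5) 5
    [(250721, false, 1, [], [5], [(521, [(260, 2), (130, 2), (65, 2), (104, 5), (40, 13)])], [(601, 12)], 1),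
    (252731, false, 1, [], [5], [(521, [(260, 2), (130, 2), (65, 2), (104, 5), (40, 13)])], [(1301, 650)], 1),
    (254021, false, 1, [], [], [(211, [(105, 2), (70, 3), (42, 5), (30, 7)]), (449, [(224, 2), (112, 2), (56, 2), (28, 2), (14, 2), (7, 2), (64, 7)])], [(1051, 525)], 1),
    (255191, false, 1, [], [5], [], [(1451, 725)], 0),
    (255887, false, 1, [(1, 2)], [], [], [(1021, 255)], 0),
    (257861, false, 1, [], [5], [(521, [(260, 2), (130, 2), (65, 2), (104, 5), (40, 13)])], [(1301, 650)], 1),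
    (258611, false, 1, [], [5], [(521, [(260, 2), (130, 2), (65, 2), (104, 5), (40, 13)])], [(1301, 650)], 1),
    (258659, false, 1, [], [23], [(13, [(6, 2), (3, 2), (4, 3)]), (47, [(23, 2), (2, 23)]), (277, [(138, 2), (69, 2), (92, 3), (12, 23)])], [(1381, 690)], 2),
    (259829, false, 1, [], [], [], [(1181, 590)], 0)] 5000 250703 = true := by
  decide +kernel

theorem ck5_260703 : chunk WW (search 1 ef5 fqT GT FN5 3 5) 5
    [(264101, false, 1, [], [5], [(521, [(260, 2), (130, 2), (65, 2), (104, 5), (40, 13)])], [(1301, 650)], 1),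
    (265571, false, 1, [], [5], [(521, [(260, 2), (130, 2), (65, 2), (104, 5), (40, 13)])], [(1301, 650)], 1),
    (266051, false, 1, [], [5, 17], [(409, [(204, 2), (102, 2), (51, 2), (136, 3), (24, 17)])], [(751, 375)], 1),
    (266159, false, 5, [], [], [], [(101, 25)], 0),
    (267227, false, 1, [(1, 2)], [], [(571, [(285, 2), (190, 3), (114, 5), (30, 19)])], [(71, 5)], 1),
    (267431, false, 1, [], [], [], [(1201, 600)], 0)] 5000 260703 = true := by
  decide +kernel

theorem ck5_270703 : chunk WW (search 1 ef5 fqT GT FN5 3 5) 5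
    [(271619, false, 5, [], [], [], [(101, 25)], 0),
    (272267, false, 1, [(1, 2)], [], [(2521, [(1260, 2), (630, 2), (315, 2), (840, 3), (280, 3), (504, 5), (360, 7)])], [(61, 30)], 1),
    (272759, false, 1, [], [], [(2273, [(1136, 2), (568, 2), (284, 2), (142, 2), (71, 2), (32, 71)]), (2593, [(1296, 2), (648, 2), (324, 2), (162, 2), (81, 2), (864, 3), (288, 3), (96, 3), (32, 3)])], [(5581, 2790)], 1),
    (273359, false, 1, [], [], [(17, [(8, 2), (4, 2), (2, 2), (1, 2)]), (313, [(156, 2), (78, 2), (39, 2), (104, 3), (24, 13)])], [(1291, 215)], 1),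
    (275269, false, 1, [], [7], [(449, [(224, 2), (112, 2), (56, 2), (28, 2), (14, 2), (7, 2), (64, 7)])], [(281, 140)], 1),
    (275531, false, 1, [], [5], [(521, [(260, 2), (130, 2), (65, 2), (104, 5), (40, 13)])], [(1301, 650)], 1),
    (275783, false, 1, [(1, 2)], [13], [(233, [(116, 2), (58, 2), (29, 2), (8, 29)]), (313, [(156, 2), (78, 2), (39, 2), (104, 3), (24, 13)])], [(1301, 650)], 1),
    (276901, false, 1, [], [5], [(521, [(260, 2), (130, 2), (65, 2), (104, 5), (40, 13)])], [(1301, 650)], 1),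
    (277331, false, 1, [], [5], [(521, [(260, 2), (130, 2), (65, 2), (104, 5), (40, 13)])], [(1301, 650)], 1)] 5000 270703 = true := by
  decide +kernel

theorem ck5_280703 : chunk WW (search 1 ef5 fqT GT FN5 3 5) 5
    [(281033, false, 1, [], [2], [(313, [(156, 2), (78, 2), (39, 2), (104, 3), (24, 13)])], [(641, 64)], 1),
    (282059, false, 1, [], [], [(487, [(243, 2), (162, 3), (54, 3), (18, 3), (6, 3), (2, 3)]), (1567, [(783, 2), (522, 3), (174, 3), (58, 3), (54, 29)])], [(4861, 81)], 2),
    (282167, false, 1, [], [17], [(409, [(204, 2), (102, 2), (51, 2), (136, 3), (24, 17)])], [(521, 10)], 1),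
    (284729, false, 1, [], [], [], [(1061, 265)], 0),
    (284839, false, 5, [], [], [], [(151, 75)], 0),
    (287159, false, 1, [], [], [(53, [(26, 2), (13, 2), (4, 13)]), (2393, [(1196, 2), (598, 2), (299, 2), (184, 13), (104, 23)])], [(4421, 442)], 2),
    (288209, false, 1, [], [2], [(313, [(156, 2), (78, 2), (39, 2), (104, 3), (24, 13)])], [(911, 455)], 1),
    (288227, false, 5, [(1, 2)], [], [], [(101, 25)], 0),
    (289283, false, 1, [(1, 2)], [], [], [(2141, 1070)], 0)] 5000 280703 = true := by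
  decide +kernel

theorem ck5_290703 : chunk WW (search 1 ef5 fqT GT FN5 3 5) 5
    [(291419, false, 1, [], [], [], [(1861, 31)], 0),
    (292367, false, 1, [(1, 2)], [], [(313, [(156, 2), (78, 2), (39, 2), (104, 3), (24, 13)])], [(41, 20)], 1),
    (294311, false, 1, [], [5], [(521, [(260, 2), (130, 2), (65, 2), (104, 5), (40, 13)])], [(1301, 650)], 1),
    (294479, false, 5, [], [], [], [(401, 25)], 0),
    (294989, false, 1, [], [], [], [(1171, 45)], 0),
    (295871, false, 1, [], [], [(23, [(11, 2), (2, 11)]), (53, [(26, 2), (13, 2), (4, 13)]), (89, [(44, 2), (22, 2), (11, 2), (8, 11)]), (131, [(65, 2), (26, 5), (10, 13)]), (521, [(260, 2), (130, 2), (65, 2), (104, 5), (40, 13)])], [(1301, 650)], 2),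
    (296279, false, 1, [], [], [(823, [(411, 2), (274, 3), (6, 137)]), (2741, [(1370, 2), (685, 2), (548, 5), (20, 137)])], [], 1),
    (296909, false, 1, [], [], [], [(1361, 340)], 0),
    (297509, false, 1, [], [], [(211, [(105, 2), (70, 3), (42, 5), (30, 7)])], [(11, 5)], 1),
    (297911, false, 1, [], [], [(11, [(5, 2), (2, 5)]), (157, [(78, 2), (39, 2), (52, 3), (12, 13)]), (191, [(95, 2), (38, 5), (10, 19)]), (229, [(114, 2), (57, 2), (76, 3), (12, 19)]), (521, [(260, 2), (130, 2), (65, 2), (104, 5), (40, 13)])], [(1301, 650)], 2),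
    (298691, false, 1, [], [5], [(521, [(260, 2), (130, 2), (65, 2), (104, 5), (40, 13)])], [(1301, 650)], 1)] 4649 290703 = true := by
  decide +kernel

end Pool.Agent.NearSuper255
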