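import Pool.Agent.NearSuper255.Tab

/-!
# Ranges of excluded pairs, file 30
-/

namespace Pool.Agent.NearSuper255

theorem ck263_265 : chunk W23 (search 1 ef263 fqT GT FN263 4 263) 263
    [(383, false, 1, [(2, 131)], [], [(223, [(111, 2), (74, 3), (6, 37)]), (787, [(393, 2), (262, 3), (6, 131)])], [(1579, 1578)], 2),
    (509, true, 1, [(127, 2), (4, 127)], [], [], [(4073, 2036)], 0)] 219 265 = true := by
  decide +kernel

theorem ck263_703 : chunk WW (search 1 ef263 fqT GT FN263 4 263) 263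
    [(719, true, 1, [(2, 359)], [], [(5, [(2, 2), (1, 2)])], [(17257, 2876)], 1),
    (733, false, 1, [(2, 131)], [], [(109, [(54, 2), (27, 2), (36, 3), (12, 3), (4, 3)]), (367, [(183, 2), (122, 3), (6, 61)])], [(1579, 1578)], 2),
    (1187, false, 1, [(2, 131)], [], [(787, [(393, 2), (262, 3), (6, 131)])], [(1579, 1578)], 1),
    (1579, true, 1, [(526, 3), (6, 263)], [], [], [(15791, 15790)], 0),
    (1913, false, 1, [(2, 131)], [], [(5, [(2, 2), (1, 2)]), (29, [(14, 2), (7, 2), (4, 7)]), (223, [(111, 2), (74, 3), (6, 37)]), (1249, [(624, 2), (312, 2), (156, 2), (78, 2), (39, 2), (416, 3), (96, 13)])], [(29983, 29982)], 3),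
    (2089, false, 1, [(2, 131)], [3], [(109, [(54, 2), (27, 2), (36, 3), (12, 3), (4, 3)]), (379, [(189, 2), (126, 3), (42, 3), (14, 3), (54, 7)]), (463, [(231, 2), (154, 3), (66, 7), (42, 11)])], [(11047, 1578)], 1),
    (2137, false, 1, [(2, 131)], [], [(223, [(111, 2), (74, 3), (6, 37)]), (1069, [(534, 2), (267, 2), (356, 3), (12, 89)])], [(45763, 45762)], 2),
    (2383, false, 1, [(2, 131)], [], [(149, [(74, 2), (37, 2), (4, 37)]), (1481, [(740, 2), (370, 2), (185, 2), (296, 5), (40, 37)])], [(19463, 19462)], 1),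
    (2903, false, 1, [(2, 131)], [], [(223, [(111, 2), (74, 3), (6, 37)]), (787, [(393, 2), (262, 3), (6, 131)])], [(19463, 19462)], 2),
    (3083, false, 1, [(2, 131)], [], [(257, [(128, 2), (64, 2), (32, 2), (16, 2), (8, 2), (4, 2), (2, 2), (1, 2)]), (577, [(288, 2), (144, 2), (72, 2), (36, 2), (18, 2), (9, 2), (192, 3), (64, 3)])], [(1579, 1578)], 1),
    (3539, false, 1, [(2, 131)], [], [(59, [(29, 2), (2, 29)]), (349, [(174, 2), (87, 2), (116, 3), (12, 29)]), (397, [(198, 2), (99, 2), (132, 3), (44, 3), (36, 11)])], [(1579, 1578)], 1)] 1500 703 = true := by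
  decide +kernel

theorem ck263_3703 : chunk WW (search 1 ef263 fqT GT FN263 4 263) 263
    [(3739, false, 1, [(2, 131)], [3, 7], [(463, [(231, 2), (154, 3), (66, 7), (42, 11)])], [(17359, 17358)], 1),
    (4079, false, 1, [(2, 131)], [], [(11, [(5, 2), (2, 5)]), (31, [(15, 2), (10, 3), (6, 5)]), (311, [(155, 2), (62, 5), (10, 31)])], [(1579, 1578)], 2),
    (4421, false, 1, [(2, 131)], [], [(67, [(33, 2), (22, 3), (6, 11)]), (89, [(44, 2), (22, 2), (11, 2), (8, 11)]), (353, [(176, 2), (88, 2), (44, 2), (22, 2), (11, 2), (32, 11)]), (577, [(288, 2), (144, 2), (72, 2), (36, 2), (18, 2), (9, 2), (192, 3), (64, 3)])], [(17359, 17358)], 1),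
    (4457, false, 1, [(2, 131)], [], [(223, [(111, 2), (74, 3), (6, 37)]), (787, [(393, 2), (262, 3), (6, 131)])], [(50497, 8416)], 2),
    (5021, false, 1, [(2, 131)], [], [(787, [(393, 2), (262, 3), (6, 131)])], [(45763, 45762)], 1),
    (5261, false, 1, [], [5], [(31, [(15, 2), (10, 3), (6, 5)]), (61, [(30, 2), (15, 2), (20, 3), (12, 5)]), (109, [(54, 2), (27, 2), (36, 3), (12, 3), (4, 3)])], [(22410757, 11205378)], 1),
    (5309, false, 1, [(2, 131)], [], [(59, [(29, 2), (2, 29)]), (349, [(174, 2), (87, 2), (116, 3), (12, 29)]), (523, [(261, 2), (174, 3), (58, 3), (18, 29)])], [(1579, 1578)], 1),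
    (5399, false, 1, [(2, 131)], [], [(223, [(111, 2), (74, 3), (6, 37)]), (593, [(296, 2), (148, 2), (74, 2), (37, 2), (16, 37)]), (787, [(393, 2), (262, 3), (6, 131)])], [(19463, 19462)], 2),
    (5413, false, 1, [(2, 131)], [], [(17, [(8, 2), (4, 2), (2, 2), (1, 2)]), (193, [(96, 2), (48, 2), (24, 2), (12, 2), (6, 2), (3, 2), (64, 3)]), (1049, [(524, 2), (262, 2), (131, 2), (8, 131)])], [(45763, 45762)], 2),
    (6053, false, 1, [(2, 131)], [17], [(1009, [(504, 2), (252, 2), (126, 2), (63, 2), (336, 3), (112, 3), (144, 7)]), (1429, [(714, 2), (357, 2), (476, 3), (204, 7), (84, 17)])], [(11047, 1578)], 1),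
    (6143, false, 1, [(2, 131)], [], [(11, [(5, 2), (2, 5)]), (991, [(495, 2), (330, 3), (110, 3), (198, 5), (90, 11)]), (1321, [(660, 2), (330, 2), (165, 2), (440, 3), (264, 5), (120, 11)])], [(23671, 7890)], 1),
    (6563, false, 1, [(2, 131)], [], [(239, [(119, 2), (34, 7), (14, 17)]), (281, [(140, 2), (70, 2), (35, 2), (56, 5), (40, 7)]), (421, [(210, 2), (105, 2), (140, 3), (84, 5), (60, 7)]), (547, [(273, 2), (182, 3), (78, 7), (42, 13)])], [(11047, 1578)], 2),
    (6637, false, 1, [(2, 131)], [7], [(223, [(111, 2), (74, 3), (6, 37)]), (239, [(119, 2), (34, 7), (14, 17)]), (463, [(231, 2), (154, 3), (66, 7), (42, 11)])], [(11047, 1578)], 2)] 1500 3703 = true := by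
  decide +kernel

end Pool.Agent.NearSuper255
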