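import Pool.Agent.NearSuper255.Tab

/-!
# Ranges of excluded pairs, file 31
-/

namespace Pool.Agent.NearSuper255

theorem ck263_6703 : chunk WW (search 1 ef263 fqT GT FN263 4 263) 263
    [(7127, false, 1, [(2, 131)], [7], [(239, [(119, 2), (34, 7), (14, 17)])], [(11047, 1578)], 1),
    (7243, false, 1, [(2, 131)], [17], [(1327, [(663, 2), (442, 3), (102, 13), (78, 17)])], [(44711, 44710)], 1),
    (7919, false, 1, [(2, 131)], [], [], [(114143, 114142)], 0),
    (8221, false, 1, [(2, 131)], [], [(11, [(5, 2), (2, 5)]), (2621, [(1310, 2), (655, 2), (524, 5), (20, 131)])], [(5261, 1315)], 1),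
    (8243, false, 1, [(2, 131)], [], [(5, [(2, 2), (1, 2)]), (11, [(5, 2), (2, 5)]), (229, [(114, 2), (57, 2), (76, 3), (12, 19)])], [(5261, 1315)], 2),
    (8447, false, 1, [(2, 131)], [], [(223, [(111, 2), (74, 3), (6, 37)]), (787, [(393, 2), (262, 3), (6, 131)])], [(19463, 19462)], 2),
    (8597, false, 1, [(2, 131)], [7], [(239, [(119, 2), (34, 7), (14, 17)])], [(11047, 1578)], 1),
    (8753, false, 1, [(2, 131)], [], [(11, [(5, 2), (2, 5)]), (101, [(50, 2), (25, 2), (20, 5), (4, 5)]), (251, [(125, 2), (50, 5), (10, 5), (2, 5)]), (521, [(260, 2), (130, 2), (65, 2), (104, 5), (40, 13)])], [(13151, 13150)], 2),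
    (9413, false, 1, [(2, 131)], [], [(223, [(111, 2), (74, 3), (6, 37)]), (523, [(261, 2), (174, 3), (58, 3), (18, 29)])], [(1579, 1578)], 2)] 1500 6703 = true := by
  decide +kernel

theorem ck263_9703 : chunk WW (search 1 ef263 fqT GT FN263 4 263) 263
    [(9859, false, 1, [(2, 131)], [], [(29, [(14, 2), (7, 2), (4, 7)]), (239, [(119, 2), (34, 7), (14, 17)]), (307, [(153, 2), (102, 3), (34, 3), (18, 17)]), (463, [(231, 2), (154, 3), (66, 7), (42, 11)])], [(17359, 17358)], 1),
    (9941, false, 1, [(2, 131)], [7], [(239, [(119, 2), (34, 7), (14, 17)])], [(11047, 1578)], 1)] 449 9703 = true := by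
  decide +kernel

theorem ck269_271 : chunk W23 (search 1 ef269 fqT GT FN269 4 269) 269
    [] 216 271 = true := by
  decide +kernel

end Pool.Agent.NearSuper255
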