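import Pool.Agent.NearSuper255.Tab

/-!
# Ranges of excluded pairs, file 32
-/

namespace Pool.Agent.NearSuper255

theorem ck269_703 : chunk WW (search 1 ef269 fqT GT FN269 4 269) 269
    [(773, true, 1, [(4, 193)], [], [], [(4639, 2319)], 0),
    (1879, true, 1, [(6, 313)], [], [], [(270577, 11274)], 0),
    (1907, false, 1, [(4, 67)], [], [(53, [(26, 2), (13, 2), (4, 13)]), (313, [(156, 2), (78, 2), (39, 2), (104, 3), (24, 13)])], [(16141, 4035)], 1),
    (2153, false, 1, [], [2], [(13, [(6, 2), (3, 2), (4, 3)]), (97, [(48, 2), (24, 2), (12, 2), (6, 2), (3, 2), (32, 3)]), (151, [(75, 2), (50, 3), (30, 5), (6, 5)])], [(21708301, 1809025)], 2),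
    (2447, false, 1, [(67, 2), (4, 67)], [], [(17, [(8, 2), (4, 2), (2, 2), (1, 2)]), (373, [(186, 2), (93, 2), (124, 3), (12, 31)])], [(3229, 807)], 1),
    (2741, false, 1, [(4, 67)], [], [(229, [(114, 2), (57, 2), (76, 3), (12, 19)]), (457, [(228, 2), (114, 2), (57, 2), (152, 3), (24, 19)])], [(10223, 5111)], 2),
    (3229, false, 1, [], [], [], [(25471073, 795971)], 0),
    (3767, false, 1, [], [], [], [(31259953, 5209992)], 0),
    (4799, false, 269, [(4, 67)], [], [], [(21708301, 1809025)], 0),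
    (5381, false, 1, [], [], [(13, [(6, 2), (3, 2), (4, 3)]), (23, [(11, 2), (2, 11)]), (43, [(21, 2), (14, 3), (6, 7)]), (89, [(44, 2), (22, 2), (11, 2), (8, 11)]), (127, [(63, 2), (42, 3), (14, 3), (18, 7)]), (151, [(75, 2), (50, 3), (30, 5), (6, 5)]), (181, [(90, 2), (45, 2), (60, 3), (20, 3), (36, 5)])], [(33430783, 1519581)], 2),
    (5399, false, 1, [(67, 2), (4, 67)], [], [], [(108139, 54069)], 0)] 2449 703 = true := by
  decide +kernel

theorem ck271_273 : chunk W23 (search 1 ef271 fqT GT FN271 4 271) 271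
    [] 215 273 = true := by
  decide +kernel

end Pool.Agent.NearSuper255
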