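import Pool.Agent.NearSuper255.Tab

/-!
# Ranges of excluded pairs, file 33
-/

namespace Pool.Agent.NearSuper255

theorem ck271_703 : chunk WW (search 1 ef271 fqT GT FN271 4 271) 271
    [(1627, true, 1, [(542, 3), (6, 271)], [], [(17, [(8, 2), (4, 2), (2, 2), (1, 2)]), (73, [(36, 2), (18, 2), (9, 2), (24, 3), (8, 3)]), (97, [(48, 2), (24, 2), (12, 2), (6, 2), (3, 2), (32, 3)]), (109, [(54, 2), (27, 2), (36, 3), (12, 3), (4, 3)])], [(58573, 14643)], 2),
    (2711, false, 1, [], [], [], [(27173171, 5434634)], 0),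
    (3253, false, 1, [], [3], [(7, [(3, 2), (2, 3)]), (17, [(8, 2), (4, 2), (2, 2), (1, 2)]), (41, [(20, 2), (10, 2), (5, 2), (8, 5)]), (67, [(33, 2), (22, 3), (6, 11)]), (101, [(50, 2), (25, 2), (20, 5), (4, 5)]), (181, [(90, 2), (45, 2), (60, 3), (20, 3), (36, 5)]), (193, [(96, 2), (48, 2), (24, 2), (12, 2), (6, 2), (3, 2), (64, 3)]), (199, [(99, 2), (66, 3), (22, 3), (18, 11)])], [(40392551, 40392550)], 2),
    (4337, false, 1, [], [], [(17, [(8, 2), (4, 2), (2, 2), (1, 2)]), (41, [(20, 2), (10, 2), (5, 2), (8, 5)]), (61, [(30, 2), (15, 2), (20, 3), (12, 5)])], [(4847107, 4847106)], 1)] 2074 703 = true := by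
  decide +kernel

theorem ck277_279 : chunk W23 (search 1 ef277 fqT GT FN277 4 277) 277
    [] 212 279 = true := by
  decide +kernel

theorem ck277_703 : chunk WW (search 1 ef277 fqT GT FN277 4 277) 277
    [(1109, true, 1, [(4, 277)], [], [], [(13309, 6654)], 0),
    (1663, true, 1, [(554, 3), (6, 277)], [], [], [(16631, 16630)], 0)] 1399 703 = true := by
  decide +kernel

end Pool.Agent.NearSuper255
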