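import Pool.Agent.NearSuper255.Tab

/-!
# Ranges of excluded pairs, file 34
-/

namespace Pool.Agent.NearSuper255

theorem ck281_283 : chunk W23 (search 1 ef281 fqT GT FN281 4 281) 281
    [(563, false, 1, [], [], [], [(48639977, 12159994)], 0)] 210 283 = true := by
  decide +kernel

theorem ck281_703 : chunk WW (search 1 ef281 fqT GT FN281 4 281) 281
    [] 1134 703 = true := by
  decide +kernel

theorem ck283_285 : chunk W23 (search 1 ef283 fqT GT FN283 4 283) 283
    [] 209 285 = true := by
  decide +kernel

theorem ck283_703 : chunk WW (search 1 ef283 fqT GT FN283 4 283) 283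
    [(1699, true, 1, [(566, 3), (6, 283)], [], [], [(20389, 5097)], 0)] 1029 703 = true := by
  decide +kernel

theorem ck293_295 : chunk W23 (search 1 ef293 fqT GT FN293 4 293) 293
    [(503, false, 1, [(4, 73)], [], [(1753, [(876, 2), (438, 2), (219, 2), (584, 3), (24, 73)]), (2833, [(1416, 2), (708, 2), (354, 2), (177, 2), (944, 3), (48, 59)])], [(276593, 138296)], 1),
    (587, true, 1, [(2, 293)], [], [], [(8219, 8218)], 0)] 204 295 = true := by
  decide +kernel

theorem ck293_703 : chunk WW (search 1 ef293 fqT GT FN293 4 293) 293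
    [(1759, true, 1, [(586, 3), (6, 293)], [], [(11, [(5, 2), (2, 5)]), (31, [(15, 2), (10, 3), (6, 5)]), (41, [(20, 2), (10, 2), (5, 2), (8, 5)]), (101, [(50, 2), (25, 2), (20, 5), (4, 5)]), (197, [(98, 2), (49, 2), (28, 7), (4, 7)])], [(49253, 24626)], 1)] 684 703 = true := by
  decide +kernel

end Pool.Agent.NearSuper255
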