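import Pool.Agent.NearSuper255.Tab

/-!
# Ranges of excluded pairs, file 35
-/

namespace Pool.Agent.NearSuper255

theorem ck307_309 : chunk W23 (search 1 ef307 fqT GT FN307 4 307) 307
    [] 197 309 = true := by
  decide +kernel

theorem ck307_703 : chunk WW (search 1 ef307 fqT GT FN307 4 307) 307
    [(1229, true, 1, [(4, 307)], [], [], [(2459, 1229)], 0)] 434 703 = true := by
  decide +kernel

theorem ck311_313 : chunk W23 (search 1 ef311 fqT GT FN311 4 311) 311
    [(389, true, 1, [(4, 97)], [5], [(191, [(95, 2), (38, 5), (10, 19)])], [(14783, 7391)], 1),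
    (467, false, 1, [(62, 5), (10, 31)], [], [(41, [(20, 2), (10, 2), (5, 2), (8, 5)]), (353, [(176, 2), (88, 2), (44, 2), (22, 2), (11, 2), (32, 11)])], [(6221, 1555)], 1)] 195 313 = true := by
  decide +kernel

theorem ck311_703 : chunk WW (search 1 ef311 fqT GT FN311 4 311) 311
    [] 384 703 = true := by
  decide +kernel

theorem ck313_315 : chunk W23 (search 1 ef313 fqT GT FN313 4 313) 313
    [] 194 315 = true := by
  decide +kernel

theorem ck313_703 : chunk WW (search 1 ef313 fqT GT FN313 4 313) 313
    [] 364 703 = true := by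
  decide +kernel

theorem ck317_319 : chunk W23 (search 1 ef317 fqT GT FN317 4 317) 317
    [] 192 319 = true := by
  decide +kernel

theorem ck317_703 : chunk WW (search 1 ef317 fqT GT FN317 4 317) 317
    [(1061, true, 1, [(20, 53)], [], [], [(6367, 3183)], 0)] 324 703 = true := by
  decide +kernel

theorem ck331_333 : chunk W23 (search 1 ef331 fqT GT FN331 4 331) 331
    [] 185 333 = true := by
  decide +kernel

theorem ck331_703 : chunk WW (search 1 ef331 fqT GT FN331 4 331) 331
    [] 224 703 = true := by
  decide +kernel

theorem ck337_339 : chunk W23 (search 1 ef337 fqT GT FN337 4 337) 337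
    [] 182 339 = true := by
  decide +kernel

theorem ck337_703 : chunk WW (search 1 ef337 fqT GT FN337 4 337) 337
    [] 189 703 = true := by
  decide +kernel

theorem ck347_349 : chunk W23 (search 1 ef347 fqT GT FN347 4 347) 347
    [(431, true, 1, [(86, 5), (10, 43)], [], [], [(3449, 862)], 0),
    (509, true, 1, [(127, 2), (4, 127)], [], [], [(4073, 2036)], 0)] 177 349 = true := by
  decide +kernel

theorem ck347_703 : chunk WW (search 1 ef347 fqT GT FN347 4 347) 347
    [(863, false, 1, [(2, 173)], [], [(29, [(14, 2), (7, 2), (4, 7)]), (1039, [(519, 2), (346, 3), (6, 173)]), (2423, [(1211, 2), (346, 7), (14, 173)])], [(8329, 2082)], 2)] 144 703 = true := by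
  decide +kernel

end Pool.Agent.NearSuper255
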