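import Pool.Agent.NearSuper255.Tab

/-!
# Ranges of excluded pairs, file 36
-/

namespace Pool.Agent.NearSuper255

theorem ck349_351 : chunk W23 (search 1 ef349 fqT GT FN349 4 349) 349
    [(449, true, 1, [(28, 2), (14, 2), (7, 2)], [], [], [(14369, 3592)], 0)] 176 351 = true := by
  decide +kernel

theorem ck349_703 : chunk WW (search 1 ef349 fqT GT FN349 4 349) 349
    [] 137 703 = true := by
  decide +kernel

theorem ck353_355 : chunk W23 (search 1 ef353 fqT GT FN353 4 353) 353
    [] 174 355 = true := by
  decide +kernel

theorem ck353_703 : chunk WW (search 1 ef353 fqT GT FN353 4 353) 353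
    [] 122 703 = true := by
  decide +kernel

theorem ck359_361 : chunk W23 (search 1 ef359 fqT GT FN359 4 359) 359
    [(479, true, 1, [(2, 239)], [], [], [(8623, 958)], 0),
    (599, false, 1, [(2, 179)], [23], [(181, [(90, 2), (45, 2), (60, 3), (20, 3), (36, 5)]), (461, [(230, 2), (115, 2), (92, 5), (20, 23)]), (499, [(249, 2), (166, 3), (6, 83)])], [(10771, 10770)], 2)] 171 361 = true := by
  decide +kernel

theorem ck359_703 : chunk WW (search 1 ef359 fqT GT FN359 4 359) 359
    [(719, true, 1, [(2, 359)], [], [], [(1439, 1438)], 0)] 102 703 = true := by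
  decide +kernel

theorem ck367_369 : chunk W23 (search 1 ef367 fqT GT FN367 4 367) 367
    [(431, true, 1, [(10, 43)], [], [], [(3449, 862)], 0)] 167 369 = true := by
  decide +kernel

theorem ck367_703 : chunk WW (search 1 ef367 fqT GT FN367 4 367) 367
    [] 79 703 = true := by
  decide +kernel

theorem ck373_375 : chunk W23 (search 1 ef373 fqT GT FN373 4 373) 373
    [] 164 375 = true := by
  decide +kernel

theorem ck373_703 : chunk WW (search 1 ef373 fqT GT FN373 4 373) 373
    [] 64 703 = true := by
  decide +kernel

theorem ck379_381 : chunk W23 (search 1 ef379 fqT GT FN379 4 379) 379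
    [] 161 381 = true := by
  decide +kernel

theorem ck379_703 : chunk WW (search 1 ef379 fqT GT FN379 4 379) 379
    [] 49 703 = true := by
  decide +kernel

theorem ck383_385 : chunk W23 (search 1 ef383 fqT GT FN383 4 383) 383
    [(389, true, 1, [(4, 97)], [], [], [(31121, 3112)], 0),
    (431, true, 1, [(10, 43)], [], [(79, [(39, 2), (26, 3), (6, 13)]), (173, [(86, 2), (43, 2), (4, 43)]), (443, [(221, 2), (34, 13), (26, 17)]), (613, [(306, 2), (153, 2), (204, 3), (68, 3), (36, 17)]), (2237, [(1118, 2), (559, 2), (172, 13), (52, 43)])], [(232741, 58185)], 2),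
    (587, true, 1, [(2, 293)], [], [(7, [(3, 2), (2, 3)]), (631, [(315, 2), (210, 3), (70, 3), (126, 5), (90, 7)]), (1759, [(879, 2), (586, 3), (6, 293)])], [(35221, 8805)], 2),
    (641, true, 1, [(40, 2), (20, 2), (10, 2), (5, 2)], [], [], [(1283, 641)], 0)] 159 385 = true := by
  decide +kernel

theorem ck383_703 : chunk WW (search 1 ef383 fqT GT FN383 4 383) 383
    [] 39 703 = true := by
  decide +kernel

theorem ck389_391 : chunk W23 (search 1 ef389 fqT GT FN389 4 389) 389
    [(419, false, 1, [(4, 97)], [19], [(457, [(228, 2), (114, 2), (57, 2), (152, 3), (24, 19)])], [(14783, 7391)], 1)] 156 391 = true := by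
  decide +kernel

theorem ck389_703 : chunk WW (search 1 ef389 fqT GT FN389 4 389) 389
    [] 29 703 = true := by
  decide +kernel

theorem ck397_399 : chunk W23 (search 1 ef397 fqT GT FN397 4 397) 397
    [] 152 399 = true := by
  decide +kernel

theorem ck397_703 : chunk WW (search 1 ef397 fqT GT FN397 4 397) 397
    [] 14 703 = true := by
  decide +kernel

theorem ck401_403 : chunk W23 (search 1 ef401 fqT GT FN401 4 401) 401
    [] 150 403 = true := by
  decide +kernel

theorem ck401_703 : chunk WW (search 1 ef401 fqT GT FN401 4 401) 401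
    [] 9 703 = true := by
  decide +kernel

theorem ck409_411 : chunk W23 (search 1 ef409 fqT GT FN409 4 409) 409
    [] 143 411 = true := by
  decide +kernel

theorem ck419_421 : chunk W23 (search 1 ef419 fqT GT FN419 4 419) 419
    [] 125 421 = true := by
  decide +kernel

theorem ck421_423 : chunk W23 (search 1 ef421 fqT GT FN421 4 421) 421
    [] 119 423 = true := by
  decide +kernel

theorem ck431_433 : chunk W23 (search 1 ef431 fqT GT FN431 4 431) 431
    [] 104 433 = true := by
  decide +kernel

theorem ck433_435 : chunk W23 (search 1 ef433 fqT GT FN433 4 433) 433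
    [] 101 435 = true := by
  decide +kernel

theorem ck439_441 : chunk W23 (search 1 ef439 fqT GT FN439 4 439) 439
    [] 90 441 = true := by
  decide +kernel

theorem ck443_445 : chunk W23 (search 1 ef443 fqT GT FN443 4 443) 443
    [] 86 445 = true := by
  decide +kernel

theorem ck449_451 : chunk W23 (search 1 ef449 fqT GT FN449 4 449) 449
    [] 75 451 = true := by
  decide +kernel

theorem ck457_459 : chunk W23 (search 1 ef457 fqT GT FN457 4 457) 457
    [] 66 459 = true := by
  decide +kernel

theorem ck461_463 : chunk W23 (search 1 ef461 fqT GT FN461 4 461) 461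
    [] 59 463 = true := by
  decide +kernel

end Pool.Agent.NearSuper255
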