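import Pool.Agent.NearSuper255.Tab

/-!
# Ranges of excluded pairs, file 37
-/

namespace Pool.Agent.NearSuper255

theorem ck463_465 : chunk W23 (search 1 ef463 fqT GT FN463 4 463) 463
    [] 58 465 = true := by
  decide +kernel

theorem ck467_469 : chunk W23 (search 1 ef467 fqT GT FN467 4 467) 467
    [] 54 469 = true := by
  decide +kernel

theorem ck479_481 : chunk W23 (search 1 ef479 fqT GT FN479 4 479) 479
    [] 40 481 = true := by
  decide +kernel

theorem ck487_489 : chunk W23 (search 1 ef487 fqT GT FN487 4 487) 487
    [] 29 489 = true := by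
  decide +kernel

theorem ck491_493 : chunk W23 (search 1 ef491 fqT GT FN491 4 491) 491
    [] 24 493 = true := by
  decide +kernel

theorem ck499_501 : chunk W23 (search 1 ef499 fqT GT FN499 4 499) 499
    [] 15 501 = true := by
  decide +kernel

theorem ck503_505 : chunk W23 (search 1 ef503 fqT GT FN503 4 503) 503
    [] 13 505 = true := by
  decide +kernel

theorem ck509_511 : chunk W23 (search 1 ef509 fqT GT FN509 4 509) 509
    [] 5 511 = true := by
  decide +kernel

end Pool.Agent.NearSuper255
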