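import Pool.Agent.NearSuper255.Tab

/-!
# Ranges of excluded pairs, file 4
-/

namespace Pool.Agent.NearSuper255

theorem ck7_9 : chunk 30 (search 1 ef7 fqT GT FN7 4 7) 7
    [] 10 9 = true := by
  decide +kernel

theorem ck7_29 : chunk W23 (search 1 ef7 fqT GT FN7 4 7) 7
    [] 337 29 = true := by
  decide +kernel

theorem ck7_703 : chunk WW (search 1 ef7 fqT GT FN7 4 7) 7
    [(1499, true, 1, [(14, 107)], [], [], [(2999, 2998)], 0)] 399 703 = true := by
  decide +kernel

theorem ck11_13 : chunk 30 (search 1 ef11 fqT GT FN11 4 11) 11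
    [] 8 13 = true := by
  decide +kernel

theorem ck11_29 : chunk W23 (search 1 ef11 fqT GT FN11 4 11) 11
    [(149, true, 1, [(37, 2), (4, 37)], [], [], [(1789, 894)], 0),
    (179, true, 1, [(2, 89)], [], [], [(359, 358)], 0)] 337 29 = true := by
  decide +kernel

theorem ck11_703 : chunk WW (search 1 ef11 fqT GT FN11 4 11) 11
    [] 399 703 = true := by
  decide +kernel

theorem ck13_15 : chunk 30 (search 1 ef13 fqT GT FN13 4 13) 13
    [] 7 15 = true := by
  decide +kernel

theorem ck13_29 : chunk W23 (search 1 ef13 fqT GT FN13 4 13) 13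
    [] 111 29 = true := by
  decide +kernel

end Pool.Agent.NearSuper255
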