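import Pool.Agent.NearSuper255.Tab

/-!
# Ranges of excluded pairs, file 5
-/

namespace Pool.Agent.NearSuper255

theorem ck17_19 : chunk 30 (search 1 ef17 fqT GT FN17 3 17) 17
    [] 5 19 = true := by
  decide +kernel

theorem ck17_29 : chunk W23 (search 1 ef17 fqT GT FN17 3 17) 17
    [] 337 29 = true := by
  decide +kernel

theorem ck17_703 : chunk WW (search 1 ef17 fqT GT FN17 3 17) 17
    [(919, true, 1, [(102, 3), (34, 3), (54, 17)], [], [], [(31247, 31246)], 0),
    (1973, true, 1, [(116, 17), (68, 29)], [], [(7, [(3, 2), (2, 3)])], [(23677, 11838)], 1),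
    (2957, false, 17, [], [], [(5, [(2, 2), (1, 2)]), (29, [(14, 2), (7, 2), (4, 7)])], [(3469, 578)], 2),
    (3061, false, 1, [], [], [], [(6359, 3179)], 0),
    (3469, false, 1, [], [], [(5, [(2, 2), (1, 2)]), (29, [(14, 2), (7, 2), (4, 7)])], [(8093, 289)], 1),
    (3877, false, 1, [], [17, 19], [(13, [(6, 2), (3, 2), (4, 3)]), (37, [(18, 2), (9, 2), (12, 3), (4, 3)]), (137, [(68, 2), (34, 2), (17, 2), (8, 17)]), (181, [(90, 2), (45, 2), (60, 3), (20, 3), (36, 5)]), (277, [(138, 2), (69, 2), (92, 3), (12, 23)]), (397, [(198, 2), (99, 2), (132, 3), (44, 3), (36, 11)]), (419, [(209, 2), (38, 11), (22, 19)])], [(6359, 3179)], 3),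
    (4013, false, 1, [], [], [(5, [(2, 2), (1, 2)]), (29, [(14, 2), (7, 2), (4, 7)]), (71, [(35, 2), (14, 5), (10, 7)]), (101, [(50, 2), (25, 2), (20, 5), (4, 5)]), (149, [(74, 2), (37, 2), (4, 37)]), (181, [(90, 2), (45, 2), (60, 3), (20, 3), (36, 5)]), (223, [(111, 2), (74, 3), (6, 37)]), (541, [(270, 2), (135, 2), (180, 3), (60, 3), (20, 3), (108, 5)])], [(3469, 578)], 3),
    (4523, false, 1, [], [7], [(13, [(6, 2), (3, 2), (4, 3)]), (43, [(21, 2), (14, 3), (6, 7)]), (307, [(153, 2), (102, 3), (34, 3), (18, 17)]), (379, [(189, 2), (126, 3), (42, 3), (14, 3), (54, 7)]), (433, [(216, 2), (108, 2), (54, 2), (27, 2), (144, 3), (48, 3), (16, 3)])], [(3469, 578)], 1),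
    (4793, false, 1, [], [], [], [(16661, 119)], 0),
    (5099, false, 1, [], [], [(5, [(2, 2), (1, 2)]), (29, [(14, 2), (7, 2), (4, 7)]), (1471, [(735, 2), (490, 3), (294, 5), (210, 7), (30, 7)])], [(239, 119)], 1),
    (5507, false, 1, [], [], [], [(22679, 493)], 0),
    (6563, false, 1, [], [], [(13, [(6, 2), (3, 2), (4, 3)]), (547, [(273, 2), (182, 3), (78, 7), (42, 13)])], [(3469, 578)], 2),
    (7673, false, 1, [(4, 2), (2, 2), (1, 2)], [], [], [(4931, 145)], 0),
    (8807, false, 1, [], [17], [(367, [(183, 2), (122, 3), (6, 61)]), (409, [(204, 2), (102, 2), (51, 2), (136, 3), (24, 17)])], [(3469, 578)], 1),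
    (9011, false, 1, [], [], [], [(6359, 3179)], 0),
    (9623, false, 1, [], [], [(401, [(200, 2), (100, 2), (50, 2), (25, 2), (80, 5), (16, 5)]), (409, [(204, 2), (102, 2), (51, 2), (136, 3), (24, 17)]), (541, [(270, 2), (135, 2), (180, 3), (60, 3), (20, 3), (108, 5)])], [(3469, 578)], 1)] 5000 703 = true := by
  decide +kernel

theorem ck17_10703 : chunk WW (search 1 ef17 fqT GT FN17 3 17) 17
    [(14519, false, 1, [], [7], [(11, [(5, 2), (2, 5)]), (101, [(50, 2), (25, 2), (20, 5), (4, 5)]), (337, [(168, 2), (84, 2), (42, 2), (21, 2), (112, 3), (48, 7)]), (401, [(200, 2), (100, 2), (50, 2), (25, 2), (80, 5), (16, 5)])], [(3469, 578)], 2),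
    (16231, false, 1, [(1, 2)], [], [(257, [(128, 2), (64, 2), (32, 2), (16, 2), (8, 2), (4, 2), (2, 2), (1, 2)]), (449, [(224, 2), (112, 2), (56, 2), (28, 2), (14, 2), (7, 2), (64, 7)])], [(6529, 816)], 2),
    (17783, false, 1, [], [], [(19, [(9, 2), (6, 3), (2, 3)]), (443, [(221, 2), (34, 13), (26, 17)]), (991, [(495, 2), (330, 3), (110, 3), (198, 5), (90, 11)]), (1123, [(561, 2), (374, 3), (102, 11), (66, 17)]), (1423, [(711, 2), (474, 3), (158, 3), (18, 79)])], [(6359, 3179)], 2),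
    (17851, false, 1, [], [7, 17], [(29, [(14, 2), (7, 2), (4, 7)]), (71, [(35, 2), (14, 5), (10, 7)]), (101, [(50, 2), (25, 2), (20, 5), (4, 5)]), (239, [(119, 2), (34, 7), (14, 17)]), (421, [(210, 2), (105, 2), (140, 3), (84, 5), (60, 7)]), (541, [(270, 2), (135, 2), (180, 3), (60, 3), (20, 3), (108, 5)])], [(3469, 578)], 2),
    (18191, false, 1, [], [17], [], [(6359, 3179)], 0),
    (19211, false, 1, [], [5], [(41, [(20, 2), (10, 2), (5, 2), (8, 5)]), (71, [(35, 2), (14, 5), (10, 7)]), (101, [(50, 2), (25, 2), (20, 5), (4, 5)]), (137, [(68, 2), (34, 2), (17, 2), (8, 17)]), (239, [(119, 2), (34, 7), (14, 17)]), (257, [(128, 2), (64, 2), (32, 2), (16, 2), (8, 2), (4, 2), (2, 2), (1, 2)]), (337, [(168, 2), (84, 2), (42, 2), (21, 2), (112, 3), (48, 7)])], [(3469, 578)], 2),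
    (19993, false, 1, [], [3, 7], [(43, [(21, 2), (14, 3), (6, 7)]), (113, [(56, 2), (28, 2), (14, 2), (7, 2), (16, 7)]), (181, [(90, 2), (45, 2), (60, 3), (20, 3), (36, 5)]), (199, [(99, 2), (66, 3), (22, 3), (18, 11)]), (211, [(105, 2), (70, 3), (42, 5), (30, 7)]), (331, [(165, 2), (110, 3), (66, 5), (30, 11)]), (379, [(189, 2), (126, 3), (42, 3), (14, 3), (54, 7)]), (433, [(216, 2), (108, 2), (54, 2), (27, 2), (144, 3), (48, 3), (16, 3)])], [(6359, 3179)], 2),
    (20333, false, 1, [], [], [(103, [(51, 2), (34, 3), (6, 17)]), (409, [(204, 2), (102, 2), (51, 2), (136, 3), (24, 17)])], [(3469, 578)], 1)] 5000 10703 = true := by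
  decide +kernel

theorem ck17_20703 : chunk WW (search 1 ef17 fqT GT FN17 3 17) 17
    [(21557, false, 1, [], [], [(103, [(51, 2), (34, 3), (6, 17)]), (307, [(153, 2), (102, 3), (34, 3), (18, 17)]), (613, [(306, 2), (153, 2), (204, 3), (68, 3), (36, 17)]), (919, [(459, 2), (306, 3), (102, 3), (34, 3), (54, 17)])], [(3469, 578)], 2),
    (21863, false, 1, [], [], [(103, [(51, 2), (34, 3), (6, 17)]), (409, [(204, 2), (102, 2), (51, 2), (136, 3), (24, 17)]), (641, [(320, 2), (160, 2), (80, 2), (40, 2), (20, 2), (10, 2), (5, 2), (128, 5)]), (673, [(336, 2), (168, 2), (84, 2), (42, 2), (21, 2), (224, 3), (96, 7)]), (701, [(350, 2), (175, 2), (140, 5), (28, 5), (100, 7)]), (911, [(455, 2), (182, 5), (130, 7), (70, 13)])], [(8093, 289)], 3),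
    (22067, false, 1, [], [17], [], [(6359, 3179)], 0),
    (23053, true, 1, [(1356, 17), (204, 113)], [], [], [(783803, 391901)], 0),
    (23357, false, 1, [], [], [(101, [(50, 2), (25, 2), (20, 5), (4, 5)]), (191, [(95, 2), (38, 5), (10, 19)]), (229, [(114, 2), (57, 2), (76, 3), (12, 19)]), (457, [(228, 2), (114, 2), (57, 2), (152, 3), (24, 19)])], [(7481, 374)], 3),
    (23767, false, 1, [], [], [(71, [(35, 2), (14, 5), (10, 7)]), (211, [(105, 2), (70, 3), (42, 5), (30, 7)]), (701, [(350, 2), (175, 2), (140, 5), (28, 5), (100, 7)]), (1021, [(510, 2), (255, 2), (340, 3), (204, 5), (60, 17)])], [(8093, 289)], 2),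
    (24481, false, 1, [], [17], [], [(6359, 3179)], 0),
    (28493, false, 1, [], [17], [], [(6359, 3179)], 0),
    (28661, false, 1, [], [], [(281, [(140, 2), (70, 2), (35, 2), (56, 5), (40, 7)])], [(953, 476)], 1),
    (29207, false, 1, [], [17], [(1217, [(608, 2), (304, 2), (152, 2), (76, 2), (38, 2), (19, 2), (64, 19)]), (1409, [(704, 2), (352, 2), (176, 2), (88, 2), (44, 2), (22, 2), (11, 2), (128, 11)])], [(6359, 3179)], 1),
    (29389, false, 1, [(1, 2)], [], [(1429, [(714, 2), (357, 2), (476, 3), (204, 7), (84, 17)])], [(103, 51)], 1)] 5000 20703 = true := by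
  decide +kernel

theorem ck17_30703 : chunk WW (search 1 ef17 fqT GT FN17 3 17) 17
    [(31667, false, 1, [(1, 2)], [], [(7, [(3, 2), (2, 3)]), (307, [(153, 2), (102, 3), (34, 3), (18, 17)])], [(613, 153)], 1),
    (31859, false, 1, [], [17], [(5, [(2, 2), (1, 2)]), (59, [(29, 2), (2, 29)]), (137, [(68, 2), (34, 2), (17, 2), (8, 17)]), (409, [(204, 2), (102, 2), (51, 2), (136, 3), (24, 17)]), (523, [(261, 2), (174, 3), (58, 3), (18, 29)])], [(3469, 578)], 1),
    (33083, false, 1, [], [7], [(919, [(459, 2), (306, 3), (102, 3), (34, 3), (54, 17)]), (1429, [(714, 2), (357, 2), (476, 3), (204, 7), (84, 17)])], [(8093, 289)], 1),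
    (34613, false, 1, [], [], [(79, [(39, 2), (26, 3), (6, 13)]), (443, [(221, 2), (34, 13), (26, 17)])], [(3469, 578)], 2),
    (35327, false, 1, [], [], [(23, [(11, 2), (2, 11)]), (947, [(473, 2), (86, 11), (22, 43)])], [(6359, 3179)], 1),
    (35597, false, 1, [], [], [(59, [(29, 2), (2, 29)]), (349, [(174, 2), (87, 2), (116, 3), (12, 29)])], [(4931, 145)], 2),
    (36857, false, 1, [], [2], [(29, [(14, 2), (7, 2), (4, 7)]), (379, [(189, 2), (126, 3), (42, 3), (14, 3), (54, 7)]), (433, [(216, 2), (108, 2), (54, 2), (27, 2), (144, 3), (48, 3), (16, 3)])], [(3469, 578)], 1),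
    (38711, false, 1, [(2, 2), (1, 2)], [7], [(1613, [(806, 2), (403, 2), (124, 13), (52, 31)]), (2003, [(1001, 2), (286, 7), (182, 11), (154, 13)])], [(28289, 442)], 1),
    (39983, false, 1, [], [], [(7, [(3, 2), (2, 3)]), (307, [(153, 2), (102, 3), (34, 3), (18, 17)])], [], 1),
    (40427, false, 1, [], [], [(7, [(3, 2), (2, 3)]), (409, [(204, 2), (102, 2), (51, 2), (136, 3), (24, 17)])], [(3469, 578)], 2)] 5000 30703 = true := by
  decide +kernel

theorem ck17_40703 : chunk WW (search 1 ef17 fqT GT FN17 3 17) 17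
    [(41413, false, 1, [], [7], [(919, [(459, 2), (306, 3), (102, 3), (34, 3), (54, 17)]), (1429, [(714, 2), (357, 2), (476, 3), (204, 7), (84, 17)])], [(8093, 289)], 1),
    (42467, false, 1, [], [], [(103, [(51, 2), (34, 3), (6, 17)]), (239, [(119, 2), (34, 7), (14, 17)]), (1429, [(714, 2), (357, 2), (476, 3), (204, 7), (84, 17)])], [(8093, 289)], 1),
    (42773, false, 1, [], [], [], [(292469, 146234)], 0),
    (43997, false, 1, [], [17], [], [(20231, 10115)], 0),
    (47363, false, 1, [], [7, 17], [(181, [(90, 2), (45, 2), (60, 3), (20, 3), (36, 5)]), (197, [(98, 2), (49, 2), (28, 7), (4, 7)]), (239, [(119, 2), (34, 7), (14, 17)]), (307, [(153, 2), (102, 3), (34, 3), (18, 17)]), (491, [(245, 2), (98, 5), (70, 7), (10, 7)])], [(3469, 578)], 3),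
    (47431, false, 1, [], [3, 17], [(11, [(5, 2), (2, 5)]), (409, [(204, 2), (102, 2), (51, 2), (136, 3), (24, 17)]), (541, [(270, 2), (135, 2), (180, 3), (60, 3), (20, 3), (108, 5)]), (937, [(468, 2), (234, 2), (117, 2), (312, 3), (104, 3), (72, 13)]), (1051, [(525, 2), (350, 3), (210, 5), (42, 5), (150, 7)]), (1423, [(711, 2), (474, 3), (158, 3), (18, 79)]), (1471, [(735, 2), (490, 3), (294, 5), (210, 7), (30, 7)])], [(8093, 289)], 3),
    (47533, false, 1, [], [], [(101, [(50, 2), (25, 2), (20, 5), (4, 5)]), (151, [(75, 2), (50, 3), (30, 5), (6, 5)]), (307, [(153, 2), (102, 3), (34, 3), (18, 17)]), (409, [(204, 2), (102, 2), (51, 2), (136, 3), (24, 17)])], [(3469, 578)], 4),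
    (48823, false, 1, [], [], [], [(4591, 2295)], 0),
    (48859, false, 1, [], [], [(7, [(3, 2), (2, 3)]), (13, [(6, 2), (3, 2), (4, 3)]), (349, [(174, 2), (87, 2), (116, 3), (12, 29)]), (523, [(261, 2), (174, 3), (58, 3), (18, 29)])], [(3469, 578)], 1),
    (50423, false, 1, [], [], [(71, [(35, 2), (14, 5), (10, 7)]), (127, [(63, 2), (42, 3), (14, 3), (18, 7)]), (191, [(95, 2), (38, 5), (10, 19)]), (241, [(120, 2), (60, 2), (30, 2), (15, 2), (80, 3), (48, 5)]), (307, [(153, 2), (102, 3), (34, 3), (18, 17)]), (337, [(168, 2), (84, 2), (42, 2), (21, 2), (112, 3), (48, 7)])], [(3469, 578)], 3)] 5000 40703 = true := by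
  decide +kernel

theorem ck17_50703 : chunk WW (search 1 ef17 fqT GT FN17 3 17) 17
    [(51137, false, 1, [], [], [], [(8093, 289)], 0),
    (51203, false, 1, [], [], [(101, [(50, 2), (25, 2), (20, 5), (4, 5)]), (251, [(125, 2), (50, 5), (10, 5), (2, 5)])], [(2551, 25)], 2),
    (51307, false, 1, [], [3, 17], [(101, [(50, 2), (25, 2), (20, 5), (4, 5)]), (313, [(156, 2), (78, 2), (39, 2), (104, 3), (24, 13)]), (331, [(165, 2), (110, 3), (66, 5), (30, 11)]), (353, [(176, 2), (88, 2), (44, 2), (22, 2), (11, 2), (32, 11)]), (409, [(204, 2), (102, 2), (51, 2), (136, 3), (24, 17)]), (541, [(270, 2), (135, 2), (180, 3), (60, 3), (20, 3), (108, 5)])], [(6359, 3179)], 3),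
    (51511, false, 1, [], [5], [(23, [(11, 2), (2, 11)]), (71, [(35, 2), (14, 5), (10, 7)]), (463, [(231, 2), (154, 3), (66, 7), (42, 11)])], [(6359, 3179)], 2),
    (51613, false, 1, [], [3, 11], [(199, [(99, 2), (66, 3), (22, 3), (18, 11)])], [(6359, 3179)], 1),
    (51647, false, 1, [], [17], [], [(6359, 3179)], 0),
    (52223, true, 1, [(2, 26111)], [], [], [(116248399, 16606914)], 0),
    (54503, false, 1, [], [7, 17], [(43, [(21, 2), (14, 3), (6, 7)]), (239, [(119, 2), (34, 7), (14, 17)]), (409, [(204, 2), (102, 2), (51, 2), (136, 3), (24, 17)])], [(3469, 578)], 2),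
    (54773, false, 17, [], [], [], [(15607, 7803)], 0),
    (54979, false, 1, [], [11], [(23, [(11, 2), (2, 11)])], [(6359, 3179)], 1),
    (55931, false, 1, [], [5], [(101, [(50, 2), (25, 2), (20, 5), (4, 5)]), (631, [(315, 2), (210, 3), (70, 3), (126, 5), (90, 7)]), (701, [(350, 2), (175, 2), (140, 5), (28, 5), (100, 7)])], [(8093, 289)], 1),
    (56237, false, 1, [], [17], [(7, [(3, 2), (2, 3)]), (409, [(204, 2), (102, 2), (51, 2), (136, 3), (24, 17)])], [(3469, 578)], 1),
    (56747, true, 1, [(3338, 17), (34, 1669)], [], [], [(2156387, 2156386)], 0),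
    (56813, true, 1, [(8116, 7), (28, 2029)], [], [], [(3067903, 56813)], 0),
    (58481, false, 1, [], [5], [(71, [(35, 2), (14, 5), (10, 7)]), (101, [(50, 2), (25, 2), (20, 5), (4, 5)])], [(8093, 289)], 1),
    (58889, false, 1, [], [], [], [(6359, 3179)], 0),
    (59093, false, 1, [], [11], [(23, [(11, 2), (2, 11)])], [(6359, 3179)], 1),
    (60623, false, 1, [], [], [(41, [(20, 2), (10, 2), (5, 2), (8, 5)]), (73, [(36, 2), (18, 2), (9, 2), (24, 3), (8, 3)]), (101, [(50, 2), (25, 2), (20, 5), (4, 5)]), (421, [(210, 2), (105, 2), (140, 3), (84, 5), (60, 7)])], [(3469, 578)], 3)] 5000 50703 = true := by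
  decide +kernel

theorem ck17_60703 : chunk WW (search 1 ef17 fqT GT FN17 3 17) 17
    [(60757, false, 1, [], [], [(1787, [(893, 2), (94, 19), (38, 47)]), (2927, [(1463, 2), (418, 7), (266, 11), (154, 19)])], [(21319, 10659)], 1),
    (60793, false, 1, [], [3], [(113, [(56, 2), (28, 2), (14, 2), (7, 2), (16, 7)]), (1321, [(660, 2), (330, 2), (165, 2), (440, 3), (264, 5), (120, 11)])], [(6359, 3179)], 1),
    (61643, false, 1, [], [17], [(307, [(153, 2), (102, 3), (34, 3), (18, 17)]), (409, [(204, 2), (102, 2), (51, 2), (136, 3), (24, 17)])], [(3469, 578)], 1),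
    (62459, false, 1, [], [11], [(23, [(11, 2), (2, 11)])], [(6359, 3179)], 1),
    (62627, false, 1, [], [], [(13, [(6, 2), (3, 2), (4, 3)]), (307, [(153, 2), (102, 3), (34, 3), (18, 17)])], [(6529, 816)], 2),
    (63103, false, 1, [], [809], [(35597, [(17798, 2), (8899, 2), (3236, 11), (44, 809)])], [(1123, 187)], 1),
    (63443, false, 1, [], [], [(311, [(155, 2), (62, 5), (10, 31)]), (373, [(186, 2), (93, 2), (124, 3), (12, 31)])], [(4217, 2108)], 1),
    (64091, false, 1, [], [17], [(109, [(54, 2), (27, 2), (36, 3), (12, 3), (4, 3)]), (181, [(90, 2), (45, 2), (60, 3), (20, 3), (36, 5)]), (991, [(495, 2), (330, 3), (110, 3), (198, 5), (90, 11)]), (1123, [(561, 2), (374, 3), (102, 11), (66, 17)])], [(6359, 3179)], 1),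
    (64601, false, 1, [], [2], [(29, [(14, 2), (7, 2), (4, 7)])], [(8093, 289)], 1),
    (64667, false, 1, [], [], [], [(4999, 2499)], 0),
    (66029, false, 1, [], [17], [(31, [(15, 2), (10, 3), (6, 5)]), (101, [(50, 2), (25, 2), (20, 5), (4, 5)]), (137, [(68, 2), (34, 2), (17, 2), (8, 17)]), (181, [(90, 2), (45, 2), (60, 3), (20, 3), (36, 5)]), (251, [(125, 2), (50, 5), (10, 5), (2, 5)]), (661, [(330, 2), (165, 2), (220, 3), (132, 5), (60, 11)]), (751, [(375, 2), (250, 3), (150, 5), (30, 5), (6, 5)]), (947, [(473, 2), (86, 11), (22, 43)])], [(6359, 3179)], 3),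
    (66403, false, 1, [], [3, 17], [(197, [(98, 2), (49, 2), (28, 7), (4, 7)]), (331, [(165, 2), (110, 3), (66, 5), (30, 11)]), (397, [(198, 2), (99, 2), (132, 3), (44, 3), (36, 11)]), (409, [(204, 2), (102, 2), (51, 2), (136, 3), (24, 17)]), (421, [(210, 2), (105, 2), (140, 3), (84, 5), (60, 7)]), (491, [(245, 2), (98, 5), (70, 7), (10, 7)]), (541, [(270, 2), (135, 2), (180, 3), (60, 3), (20, 3), (108, 5)])], [(6359, 3179)], 4),
    (67763, false, 1, [], [1993], [(23917, [(11958, 2), (5979, 2), (7972, 3), (12, 1993)])], [(156061, 2890)], 1),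
    (68477, false, 1, [], [], [(101, [(50, 2), (25, 2), (20, 5), (4, 5)]), (113, [(56, 2), (28, 2), (14, 2), (7, 2), (16, 7)]), (199, [(99, 2), (66, 3), (22, 3), (18, 11)]), (241, [(120, 2), (60, 2), (30, 2), (15, 2), (80, 3), (48, 5)]), (331, [(165, 2), (110, 3), (66, 5), (30, 11)]), (541, [(270, 2), (135, 2), (180, 3), (60, 3), (20, 3), (108, 5)]), (577, [(288, 2), (144, 2), (72, 2), (36, 2), (18, 2), (9, 2), (192, 3), (64, 3)])], [(6359, 3179)], 3),
    (69427, false, 1, [], [19], [(457, [(228, 2), (114, 2), (57, 2), (152, 3), (24, 19)])], [(5849, 1462)], 1),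
    (70177, false, 1, [], [], [(103, [(51, 2), (34, 3), (6, 17)]), (409, [(204, 2), (102, 2), (51, 2), (136, 3), (24, 17)])], [(3469, 578)], 1)] 5000 60703 = true := by
  decide +kernel

theorem ck17_70703 : chunk WW (search 1 ef17 fqT GT FN17 3 17) 17
    [(70823, false, 1, [], [], [(13, [(6, 2), (3, 2), (4, 3)]), (103, [(51, 2), (34, 3), (6, 17)]), (109, [(54, 2), (27, 2), (36, 3), (12, 3), (4, 3)]), (137, [(68, 2), (34, 2), (17, 2), (8, 17)]), (307, [(153, 2), (102, 3), (34, 3), (18, 17)])], [(3469, 578)], 2),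
    (71333, false, 1, [], [], [(239, [(119, 2), (34, 7), (14, 17)]), (1321, [(660, 2), (330, 2), (165, 2), (440, 3), (264, 5), (120, 11)]), (1361, [(680, 2), (340, 2), (170, 2), (85, 2), (272, 5), (80, 17)]), (1429, [(714, 2), (357, 2), (476, 3), (204, 7), (84, 17)])], [(8093, 289)], 1),
    (71537, false, 1, [], [], [], [(13873, 2312)], 0),
    (71741, false, 1, [], [5, 17], [(71, [(35, 2), (14, 5), (10, 7)]), (113, [(56, 2), (28, 2), (14, 2), (7, 2), (16, 7)]), (137, [(68, 2), (34, 2), (17, 2), (8, 17)]), (197, [(98, 2), (49, 2), (28, 7), (4, 7)]), (241, [(120, 2), (60, 2), (30, 2), (15, 2), (80, 3), (48, 5)])], [(3469, 578)], 3),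
    (71809, false, 1, [], [17], [(43, [(21, 2), (14, 3), (6, 7)]), (137, [(68, 2), (34, 2), (17, 2), (8, 17)]), (307, [(153, 2), (102, 3), (34, 3), (18, 17)]), (487, [(243, 2), (162, 3), (54, 3), (18, 3), (6, 3), (2, 3)]), (541, [(270, 2), (135, 2), (180, 3), (60, 3), (20, 3), (108, 5)]), (811, [(405, 2), (270, 3), (90, 3), (30, 3), (10, 3), (162, 5)]), (1093, [(546, 2), (273, 2), (364, 3), (156, 7), (84, 13)])], [(8093, 289)], 3),
    (71843, false, 1, [], [], [], [(8093, 289)], 0),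
    (72931, false, 1, [], [5, 11], [(101, [(50, 2), (25, 2), (20, 5), (4, 5)]), (353, [(176, 2), (88, 2), (44, 2), (22, 2), (11, 2), (32, 11)]), (401, [(200, 2), (100, 2), (50, 2), (25, 2), (80, 5), (16, 5)])], [(6359, 3179)], 2),
    (73133, false, 1, [], [], [(239, [(119, 2), (34, 7), (14, 17)])], [(103, 51)], 1),
    (73951, false, 1, [], [17], [], [(6359, 3179)], 0),
    (74189, false, 1, [], [17], [(307, [(153, 2), (102, 3), (34, 3), (18, 17)]), (409, [(204, 2), (102, 2), (51, 2), (136, 3), (24, 17)])], [(3469, 578)], 1),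
    (74597, false, 1, [], [], [(53, [(26, 2), (13, 2), (4, 13)]), (313, [(156, 2), (78, 2), (39, 2), (104, 3), (24, 13)]), (409, [(204, 2), (102, 2), (51, 2), (136, 3), (24, 17)]), (443, [(221, 2), (34, 13), (26, 17)])], [(3469, 578)], 2),
    (75821, false, 1, [], [5], [(71, [(35, 2), (14, 5), (10, 7)])], [(8093, 289)], 1),
    (75991, false, 1, [], [3], [(23, [(11, 2), (2, 11)]), (67, [(33, 2), (22, 3), (6, 11)])], [(6359, 3179)], 1),
    (77213, false, 1, [], [], [], [(7243, 3621)], 0),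
    (79187, false, 1, [], [], [], [(6359, 3179)], 0),
    (80071, false, 1, [], [5], [(101, [(50, 2), (25, 2), (20, 5), (4, 5)]), (137, [(68, 2), (34, 2), (17, 2), (8, 17)]), (151, [(75, 2), (50, 3), (30, 5), (6, 5)]), (331, [(165, 2), (110, 3), (66, 5), (30, 11)]), (397, [(198, 2), (99, 2), (132, 3), (44, 3), (36, 11)]), (541, [(270, 2), (135, 2), (180, 3), (60, 3), (20, 3), (108, 5)])], [(6359, 3179)], 2),
    (80309, false, 1, [], [], [(5, [(2, 2), (1, 2)]), (29, [(14, 2), (7, 2), (4, 7)]), (103, [(51, 2), (34, 3), (6, 17)]), (181, [(90, 2), (45, 2), (60, 3), (20, 3), (36, 5)]), (307, [(153, 2), (102, 3), (34, 3), (18, 17)]), (331, [(165, 2), (110, 3), (66, 5), (30, 11)]), (337, [(168, 2), (84, 2), (42, 2), (21, 2), (112, 3), (48, 7)]), (353, [(176, 2), (88, 2), (44, 2), (22, 2), (11, 2), (32, 11)]), (379, [(189, 2), (126, 3), (42, 3), (14, 3), (54, 7)])], [(6359, 3179)], 2)] 5000 70703 = true := by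
  decide +kernel

theorem ck17_80703 : chunk WW (search 1 ef17 fqT GT FN17 3 17) 17
    [(80831, false, 1, [(1, 2)], [], [(307, [(153, 2), (102, 3), (34, 3), (18, 17)]), (421, [(210, 2), (105, 2), (140, 3), (84, 5), (60, 7)])], [], 2),
    (81293, false, 17, [], [], [], [(41617, 10404)], 0),
    (81463, false, 1, [], [], [(53, [(26, 2), (13, 2), (4, 13)]), (599, [(299, 2), (46, 13), (26, 23)])], [(5237, 1309)], 2),
    (82723, false, 1, [], [3, 17], [(409, [(204, 2), (102, 2), (51, 2), (136, 3), (24, 17)])], [(3469, 578)], 1),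
    (82757, false, 1, [], [], [(13, [(6, 2), (3, 2), (4, 3)]), (271, [(135, 2), (90, 3), (30, 3), (10, 3), (54, 5)]), (307, [(153, 2), (102, 3), (34, 3), (18, 17)]), (433, [(216, 2), (108, 2), (54, 2), (27, 2), (144, 3), (48, 3), (16, 3)])], [(3469, 578)], 2),
    (83063, false, 1, [], [7, 17], [(53, [(26, 2), (13, 2), (4, 13)]), (113, [(56, 2), (28, 2), (14, 2), (7, 2), (16, 7)]), (239, [(119, 2), (34, 7), (14, 17)]), (337, [(168, 2), (84, 2), (42, 2), (21, 2), (112, 3), (48, 7)]), (547, [(273, 2), (182, 3), (78, 7), (42, 13)])], [(3469, 578)], 2),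
    (85259, false, 1, [(1, 2)], [], [(7, [(3, 2), (2, 3)]), (307, [(153, 2), (102, 3), (34, 3), (18, 17)])], [], 1),
    (85577, false, 1, [], [19], [(457, [(228, 2), (114, 2), (57, 2), (152, 3), (24, 19)])], [(3877, 323)], 1),
    (86531, false, 1, [], [5], [(71, [(35, 2), (14, 5), (10, 7)]), (379, [(189, 2), (126, 3), (42, 3), (14, 3), (54, 7)]), (757, [(378, 2), (189, 2), (252, 3), (84, 3), (28, 3), (108, 7)]), (1297, [(648, 2), (324, 2), (162, 2), (81, 2), (432, 3), (144, 3), (48, 3), (16, 3)]), (1321, [(660, 2), (330, 2), (165, 2), (440, 3), (264, 5), (120, 11)])], [(8093, 289)], 1),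
    (87359, false, 1, [(1, 2)], [], [(7, [(3, 2), (2, 3)]), (307, [(153, 2), (102, 3), (34, 3), (18, 17)])], [], 1),
    (87721, false, 1, [], [3], [(23, [(11, 2), (2, 11)]), (199, [(99, 2), (66, 3), (22, 3), (18, 11)])], [(6359, 3179)], 1),
    (88843, false, 1, [], [17], [(19, [(9, 2), (6, 3), (2, 3)]), (409, [(204, 2), (102, 2), (51, 2), (136, 3), (24, 17)])], [(3469, 578)], 1),
    (89591, false, 1, [], [], [], [(655453, 19278)], 0),
    (90203, false, 1, [], [7, 17], [(43, [(21, 2), (14, 3), (6, 7)]), (103, [(51, 2), (34, 3), (6, 17)]), (239, [(119, 2), (34, 7), (14, 17)])], [(3469, 578)], 2),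
    (90679, false, 1, [], [17], [(5, [(2, 2), (1, 2)]), (29, [(14, 2), (7, 2), (4, 7)]), (43, [(21, 2), (14, 3), (6, 7)]), (89, [(44, 2), (22, 2), (11, 2), (8, 11)]), (199, [(99, 2), (66, 3), (22, 3), (18, 11)]), (409, [(204, 2), (102, 2), (51, 2), (136, 3), (24, 17)])], [(6359, 3179)], 2)] 5000 80703 = true := by
  decide +kernel

theorem ck17_90703 : chunk WW (search 1 ef17 fqT GT FN17 3 17) 17
    [(90917, false, 1, [], [], [], [(6359, 3179)], 0),
    (91019, false, 1, [], [], [], [(8093, 289)], 0),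
    (91529, false, 1, [], [17], [(23, [(11, 2), (2, 11)]), (73, [(36, 2), (18, 2), (9, 2), (24, 3), (8, 3)]), (89, [(44, 2), (22, 2), (11, 2), (8, 11)]), (113, [(56, 2), (28, 2), (14, 2), (7, 2), (16, 7)]), (137, [(68, 2), (34, 2), (17, 2), (8, 17)]), (199, [(99, 2), (66, 3), (22, 3), (18, 11)])], [(3469, 578)], 4),
    (91711, false, 1, [(1, 2)], [], [], [(5237, 1309)], 0),
    (91813, false, 1, [(1, 2)], [], [(227, [(113, 2), (2, 113)]), (1583, [(791, 2), (226, 7), (14, 113)])], [(11527, 339)], 2),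
    (92243, false, 1, [], [], [], [(8093, 289)], 0),
    (92957, false, 1, [], [], [(53, [(26, 2), (13, 2), (4, 13)]), (307, [(153, 2), (102, 3), (34, 3), (18, 17)]), (443, [(221, 2), (34, 13), (26, 17)]), (521, [(260, 2), (130, 2), (65, 2), (104, 5), (40, 13)]), (541, [(270, 2), (135, 2), (180, 3), (60, 3), (20, 3), (108, 5)])], [(3469, 578)], 2),
    (94079, false, 1, [], [], [(7, [(3, 2), (2, 3)]), (29, [(14, 2), (7, 2), (4, 7)]), (31, [(15, 2), (10, 3), (6, 5)]), (61, [(30, 2), (15, 2), (20, 3), (12, 5)]), (101, [(50, 2), (25, 2), (20, 5), (4, 5)]), (103, [(51, 2), (34, 3), (6, 17)]), (137, [(68, 2), (34, 2), (17, 2), (8, 17)]), (307, [(153, 2), (102, 3), (34, 3), (18, 17)]), (331, [(165, 2), (110, 3), (66, 5), (30, 11)]), (337, [(168, 2), (84, 2), (42, 2), (21, 2), (112, 3), (48, 7)]), (353, [(176, 2), (88, 2), (44, 2), (22, 2), (11, 2), (32, 11)])], [(6359, 3179)], 4),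
    (96289, false, 1, [], [], [(5, [(2, 2), (1, 2)]), (919, [(459, 2), (306, 3), (102, 3), (34, 3), (54, 17)]), (1361, [(680, 2), (340, 2), (170, 2), (85, 2), (272, 5), (80, 17)]), (1423, [(711, 2), (474, 3), (158, 3), (18, 79)])], [(3469, 578)], 1),
    (96323, false, 1, [], [17], [(23, [(11, 2), (2, 11)]), (1123, [(561, 2), (374, 3), (102, 11), (66, 17)])], [(6359, 3179)], 1),
    (96493, false, 1, [], [11], [(23, [(11, 2), (2, 11)])], [(6359, 3179)], 1),
    (96527, false, 1, [], [], [(101, [(50, 2), (25, 2), (20, 5), (4, 5)]), (2011, [(1005, 2), (670, 3), (402, 5), (30, 67)])], [(20231, 10115)], 2),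
    (96697, false, 1, [], [3], [(409, [(204, 2), (102, 2), (51, 2), (136, 3), (24, 17)]), (443, [(221, 2), (34, 13), (26, 17)])], [(3469, 578)], 2),
    (98057, false, 1, [], [], [(277, [(138, 2), (69, 2), (92, 3), (12, 23)]), (307, [(153, 2), (102, 3), (34, 3), (18, 17)])], [(3469, 578)], 1),
    (98227, false, 1, [], [3, 17], [(409, [(204, 2), (102, 2), (51, 2), (136, 3), (24, 17)]), (641, [(320, 2), (160, 2), (80, 2), (40, 2), (20, 2), (10, 2), (5, 2), (128, 5)]), (1321, [(660, 2), (330, 2), (165, 2), (440, 3), (264, 5), (120, 11)])], [(6359, 3179)], 1),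
    (98327, false, 1, [], [], [], [(6359, 3179)], 0),
    (100403, false, 1, [], [], [(67, [(33, 2), (22, 3), (6, 11)]), (89, [(44, 2), (22, 2), (11, 2), (8, 11)]), (103, [(51, 2), (34, 3), (6, 17)]), (193, [(96, 2), (48, 2), (24, 2), (12, 2), (6, 2), (3, 2), (64, 3)]), (409, [(204, 2), (102, 2), (51, 2), (136, 3), (24, 17)])], [(6359, 3179)], 3)] 5000 90703 = true := by
  decide +kernel

theorem ck17_100703 : chunk WW (search 1 ef17 fqT GT FN17 3 17) 17
    [(100811, false, 1, [], [5, 17], [(101, [(50, 2), (25, 2), (20, 5), (4, 5)]), (601, [(300, 2), (150, 2), (75, 2), (200, 3), (120, 5), (24, 5)]), (1321, [(660, 2), (330, 2), (165, 2), (440, 3), (264, 5), (120, 11)])], [(6359, 3179)], 1),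
    (101117, false, 1, [], [17], [(19, [(9, 2), (6, 3), (2, 3)]), (409, [(204, 2), (102, 2), (51, 2), (136, 3), (24, 17)]), (449, [(224, 2), (112, 2), (56, 2), (28, 2), (14, 2), (7, 2), (64, 7)]), (673, [(336, 2), (168, 2), (84, 2), (42, 2), (21, 2), (224, 3), (96, 7)])], [(8093, 289)], 1),
    (101693, false, 1, [], [], [(307, [(153, 2), (102, 3), (34, 3), (18, 17)]), (997, [(498, 2), (249, 2), (332, 3), (12, 83)])], [], 2),
    (102407, false, 1, [], [], [(101, [(50, 2), (25, 2), (20, 5), (4, 5)]), (251, [(125, 2), (50, 5), (10, 5), (2, 5)])], [(5101, 75)], 2),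
    (103769, false, 1, [], [17], [(307, [(153, 2), (102, 3), (34, 3), (18, 17)]), (409, [(204, 2), (102, 2), (51, 2), (136, 3), (24, 17)])], [(3469, 578)], 1),
    (104891, false, 1, [], [5], [(71, [(35, 2), (14, 5), (10, 7)])], [(8093, 289)], 1),
    (106693, false, 1, [], [3, 17], [(67, [(33, 2), (22, 3), (6, 11)]), (199, [(99, 2), (66, 3), (22, 3), (18, 11)]), (409, [(204, 2), (102, 2), (51, 2), (136, 3), (24, 17)])], [(6359, 3179)], 2),
    (106727, false, 1, [], [], [(5, [(2, 2), (1, 2)]), (61, [(30, 2), (15, 2), (20, 3), (12, 5)]), (101, [(50, 2), (25, 2), (20, 5), (4, 5)]), (103, [(51, 2), (34, 3), (6, 17)]), (137, [(68, 2), (34, 2), (17, 2), (8, 17)]), (281, [(140, 2), (70, 2), (35, 2), (56, 5), (40, 7)])], [(3469, 578)], 4),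
    (107033, false, 1, [], [], [(53, [(26, 2), (13, 2), (4, 13)]), (89, [(44, 2), (22, 2), (11, 2), (8, 11)]), (199, [(99, 2), (66, 3), (22, 3), (18, 11)]), (409, [(204, 2), (102, 2), (51, 2), (136, 3), (24, 17)]), (443, [(221, 2), (34, 13), (26, 17)])], [(6359, 3179)], 2),
    (107101, false, 1, [], [3], [(13, [(6, 2), (3, 2), (4, 3)]), (89, [(44, 2), (22, 2), (11, 2), (8, 11)]), (199, [(99, 2), (66, 3), (22, 3), (18, 11)])], [(6359, 3179)], 1)] 5000 100703 = true := by
  decide +kernel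

theorem ck17_110703 : chunk WW (search 1 ef17 fqT GT FN17 3 17) 17
    [(111317, false, 1, [], [], [(73, [(36, 2), (18, 2), (9, 2), (24, 3), (8, 3)]), (223, [(111, 2), (74, 3), (6, 37)]), (307, [(153, 2), (102, 3), (34, 3), (18, 17)]), (409, [(204, 2), (102, 2), (51, 2), (136, 3), (24, 17)]), (593, [(296, 2), (148, 2), (74, 2), (37, 2), (16, 37)])], [(3469, 578)], 3),
    (111623, false, 1, [], [], [], [(6359, 3179)], 0),
    (113083, false, 1, [], [], [], [(6053, 3026)], 0),
    (114479, false, 1, [], [13, 17], [(79, [(39, 2), (26, 3), (6, 13)]), (313, [(156, 2), (78, 2), (39, 2), (104, 3), (24, 13)]), (409, [(204, 2), (102, 2), (51, 2), (136, 3), (24, 17)])], [(3469, 578)], 1),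
    (116927, false, 1, [], [19], [(229, [(114, 2), (57, 2), (76, 3), (12, 19)])], [(3469, 578)], 1),
    (118661, false, 1, [], [5], [(71, [(35, 2), (14, 5), (10, 7)]), (409, [(204, 2), (102, 2), (51, 2), (136, 3), (24, 17)]), (443, [(221, 2), (34, 13), (26, 17)]), (449, [(224, 2), (112, 2), (56, 2), (28, 2), (14, 2), (7, 2), (64, 7)]), (521, [(260, 2), (130, 2), (65, 2), (104, 5), (40, 13)]), (541, [(270, 2), (135, 2), (180, 3), (60, 3), (20, 3), (108, 5)])], [(3469, 578)], 2),
    (119033, false, 1, [], [], [], [(8297, 4148)], 0)] 5000 110703 = true := by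
  decide +kernel

theorem ck17_120703 : chunk WW (search 1 ef17 fqT GT FN17 3 17) 17
    [(121007, false, 1, [], [], [], [(15607, 7803)], 0),
    (121313, false, 1, [], [], [], [(13873, 2312)], 0),
    (122027, false, 1, [], [], [], [(20231, 10115)], 0),
    (123829, false, 1, [], [], [(61, [(30, 2), (15, 2), (20, 3), (12, 5)]), (73, [(36, 2), (18, 2), (9, 2), (24, 3), (8, 3)]), (101, [(50, 2), (25, 2), (20, 5), (4, 5)]), (353, [(176, 2), (88, 2), (44, 2), (22, 2), (11, 2), (32, 11)]), (397, [(198, 2), (99, 2), (132, 3), (44, 3), (36, 11)]), (401, [(200, 2), (100, 2), (50, 2), (25, 2), (80, 5), (16, 5)])], [(6359, 3179)], 3),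
    (124427, false, 17, [(1, 2)], [], [], [(3469, 578)], 0),
    (124951, false, 1, [], [5], [(71, [(35, 2), (14, 5), (10, 7)]), (199, [(99, 2), (66, 3), (22, 3), (18, 11)]), (331, [(165, 2), (110, 3), (66, 5), (30, 11)]), (379, [(189, 2), (126, 3), (42, 3), (14, 3), (54, 7)]), (433, [(216, 2), (108, 2), (54, 2), (27, 2), (144, 3), (48, 3), (16, 3)])], [(6359, 3179)], 2),
    (125597, false, 1, [], [], [(11, [(5, 2), (2, 5)]), (71, [(35, 2), (14, 5), (10, 7)]), (241, [(120, 2), (60, 2), (30, 2), (15, 2), (80, 3), (48, 5)]), (307, [(153, 2), (102, 3), (34, 3), (18, 17)]), (541, [(270, 2), (135, 2), (180, 3), (60, 3), (20, 3), (108, 5)])], [(8093, 289)], 1),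
    (127331, false, 1, [], [], [], [(6359, 3179)], 0),
    (129643, false, 1, [], [3], [(13, [(6, 2), (3, 2), (4, 3)])], [(8093, 289)], 1)] 5000 120703 = true := by
  decide +kernel

theorem ck17_130703 : chunk WW (search 1 ef17 fqT GT FN17 3 17) 17
    [(133213, false, 1, [], [3], [(31, [(15, 2), (10, 3), (6, 5)]), (307, [(153, 2), (102, 3), (34, 3), (18, 17)]), (541, [(270, 2), (135, 2), (180, 3), (60, 3), (20, 3), (108, 5)]), (661, [(330, 2), (165, 2), (220, 3), (132, 5), (60, 11)]), (947, [(473, 2), (86, 11), (22, 43)]), (1213, [(606, 2), (303, 2), (404, 3), (12, 101)])], [(6359, 3179)], 2),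
    (138107, false, 1, [], [], [(53, [(26, 2), (13, 2), (4, 13)]), (677, [(338, 2), (169, 2), (52, 13), (4, 13)])], [(1327, 663)], 2),
    (138143, false, 1, [], [], [(79, [(39, 2), (26, 3), (6, 13)]), (103, [(51, 2), (34, 3), (6, 17)]), (409, [(204, 2), (102, 2), (51, 2), (136, 3), (24, 17)]), (443, [(221, 2), (34, 13), (26, 17)])], [(3469, 578)], 2),
    (138517, false, 1, [], [17], [], [(570487, 285243)], 0),
    (138923, false, 1, [], [7], [(227, [(113, 2), (2, 113)]), (1583, [(791, 2), (226, 7), (14, 113)])], [(11527, 339)], 1)] 5000 130703 = true := by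
  decide +kernel

theorem ck17_140703 : chunk WW (search 1 ef17 fqT GT FN17 3 17) 17
    [(142019, false, 1, [], [], [(613, [(306, 2), (153, 2), (204, 3), (68, 3), (36, 17)]), (1009, [(504, 2), (252, 2), (126, 2), (63, 2), (336, 3), (112, 3), (144, 7)]), (1321, [(660, 2), (330, 2), (165, 2), (440, 3), (264, 5), (120, 11)]), (1423, [(711, 2), (474, 3), (158, 3), (18, 79)])], [(6359, 3179)], 2),
    (142223, false, 1, [], [], [(101, [(50, 2), (25, 2), (20, 5), (4, 5)]), (1871, [(935, 2), (374, 5), (170, 11), (110, 17)])], [(20231, 10115)], 2),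
    (142427, false, 1, [], [17], [(13, [(6, 2), (3, 2), (4, 3)]), (23, [(11, 2), (2, 11)]), (307, [(153, 2), (102, 3), (34, 3), (18, 17)]), (397, [(198, 2), (99, 2), (132, 3), (44, 3), (36, 11)]), (409, [(204, 2), (102, 2), (51, 2), (136, 3), (24, 17)])], [(6359, 3179)], 3),
    (142529, false, 1, [], [2], [(29, [(14, 2), (7, 2), (4, 7)]), (71, [(35, 2), (14, 5), (10, 7)]), (101, [(50, 2), (25, 2), (20, 5), (4, 5)])], [(8093, 289)], 1),
    (142733, false, 1, [], [], [(137, [(68, 2), (34, 2), (17, 2), (8, 17)]), (317, [(158, 2), (79, 2), (4, 79)]), (919, [(459, 2), (306, 3), (102, 3), (34, 3), (54, 17)]), (1423, [(711, 2), (474, 3), (158, 3), (18, 79)])], [(3469, 578)], 3),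
    (143107, false, 1, [], [], [], [(8093, 289)], 0),
    (143413, false, 1, [], [3, 17], [(307, [(153, 2), (102, 3), (34, 3), (18, 17)]), (409, [(204, 2), (102, 2), (51, 2), (136, 3), (24, 17)])], [(3469, 578)], 1),
    (143617, false, 1, [], [2, 11], [(353, [(176, 2), (88, 2), (44, 2), (22, 2), (11, 2), (32, 11)])], [(6359, 3179)], 1),
    (144671, false, 1, [], [5], [(137, [(68, 2), (34, 2), (17, 2), (8, 17)]), (239, [(119, 2), (34, 7), (14, 17)]), (241, [(120, 2), (60, 2), (30, 2), (15, 2), (80, 3), (48, 5)]), (281, [(140, 2), (70, 2), (35, 2), (56, 5), (40, 7)]), (449, [(224, 2), (112, 2), (56, 2), (28, 2), (14, 2), (7, 2), (64, 7)])], [(3469, 578)], 2),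
    (145757, false, 1, [], [], [(103, [(51, 2), (34, 3), (6, 17)]), (1429, [(714, 2), (357, 2), (476, 3), (204, 7), (84, 17)])], [], 2),
    (146677, false, 1, [], [], [], [(6359, 3179)], 0),
    (148411, false, 1, [], [5], [(71, [(35, 2), (14, 5), (10, 7)]), (101, [(50, 2), (25, 2), (20, 5), (4, 5)]), (401, [(200, 2), (100, 2), (50, 2), (25, 2), (80, 5), (16, 5)]), (421, [(210, 2), (105, 2), (140, 3), (84, 5), (60, 7)]), (541, [(270, 2), (135, 2), (180, 3), (60, 3), (20, 3), (108, 5)])], [(3469, 578)], 1),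
    (148783, false, 1, [], [], [(547, [(273, 2), (182, 3), (78, 7), (42, 13)])], [(2347, 1173)], 1),
    (148853, false, 1, [], [11], [(23, [(11, 2), (2, 11)])], [(6359, 3179)], 1),
    (150077, false, 1, [], [17, 2207], [(1125571, [(562785, 2), (375190, 3), (225114, 5), (66210, 17), (510, 2207)])], [(1983697, 330616)], 1)] 5000 140703 = true := by
  decide +kernel

theorem ck17_150703 : chunk WW (search 1 ef17 fqT GT FN17 3 17) 17
    [(150893, false, 1, [], [7], [(137, [(68, 2), (34, 2), (17, 2), (8, 17)]), (953, [(476, 2), (238, 2), (119, 2), (136, 7), (56, 17)])], [(8093, 289)], 1),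
    (151471, false, 1, [], [5, 11], [(61, [(30, 2), (15, 2), (20, 3), (12, 5)]), (89, [(44, 2), (22, 2), (11, 2), (8, 11)]), (101, [(50, 2), (25, 2), (20, 5), (4, 5)])], [(6359, 3179)], 2),
    (151517, false, 1, [(1, 2)], [], [(29, [(14, 2), (7, 2), (4, 7)]), (113, [(56, 2), (28, 2), (14, 2), (7, 2), (16, 7)]), (313, [(156, 2), (78, 2), (39, 2), (104, 3), (24, 13)]), (547, [(273, 2), (182, 3), (78, 7), (42, 13)])], [(3061, 1530)], 2),
    (152183, true, 1, [(2, 76091)], [], [(373, [(186, 2), (93, 2), (124, 3), (12, 31)])], [(28306039, 28306038)], 1),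
    (152897, false, 1, [], [], [(1499, [(749, 2), (214, 7), (14, 107)])], [(953, 476)], 1),
    (153409, false, 1, [], [], [(23, [(11, 2), (2, 11)]), (103, [(51, 2), (34, 3), (6, 17)]), (199, [(99, 2), (66, 3), (22, 3), (18, 11)])], [(6359, 3179)], 1),
    (153443, false, 1, [], [17], [(19, [(9, 2), (6, 3), (2, 3)]), (137, [(68, 2), (34, 2), (17, 2), (8, 17)]), (307, [(153, 2), (102, 3), (34, 3), (18, 17)]), (379, [(189, 2), (126, 3), (42, 3), (14, 3), (54, 7)]), (397, [(198, 2), (99, 2), (132, 3), (44, 3), (36, 11)]), (433, [(216, 2), (108, 2), (54, 2), (27, 2), (144, 3), (48, 3), (16, 3)])], [(3469, 578)], 3),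
    (154871, false, 1, [], [], [(61, [(30, 2), (15, 2), (20, 3), (12, 5)]), (239, [(119, 2), (34, 7), (14, 17)]), (541, [(270, 2), (135, 2), (180, 3), (60, 3), (20, 3), (108, 5)]), (2381, [(1190, 2), (595, 2), (476, 5), (340, 7), (140, 17)])], [(17341, 102)], 2),
    (157523, false, 1, [], [], [(239, [(119, 2), (34, 7), (14, 17)]), (2381, [(1190, 2), (595, 2), (476, 5), (340, 7), (140, 17)])], [(20231, 10115)], 1),
    (158357, false, 1, [(2, 2), (1, 2)], [], [], [(4421, 1105)], 0),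
    (158747, false, 1, [], [], [(103, [(51, 2), (34, 3), (6, 17)]), (307, [(153, 2), (102, 3), (34, 3), (18, 17)]), (409, [(204, 2), (102, 2), (51, 2), (136, 3), (24, 17)])], [(3469, 578)], 1),
    (159223, false, 1, [], [3, 7, 17], [(61, [(30, 2), (15, 2), (20, 3), (12, 5)]), (137, [(68, 2), (34, 2), (17, 2), (8, 17)]), (307, [(153, 2), (102, 3), (34, 3), (18, 17)]), (541, [(270, 2), (135, 2), (180, 3), (60, 3), (20, 3), (108, 5)]), (641, [(320, 2), (160, 2), (80, 2), (40, 2), (20, 2), (10, 2), (5, 2), (128, 5)]), (673, [(336, 2), (168, 2), (84, 2), (42, 2), (21, 2), (224, 3), (96, 7)])], [(8093, 289)], 2),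
    (159869, false, 1, [], [], [(29, [(14, 2), (7, 2), (4, 7)]), (71, [(35, 2), (14, 5), (10, 7)]), (73, [(36, 2), (18, 2), (9, 2), (24, 3), (8, 3)]), (331, [(165, 2), (110, 3), (66, 5), (30, 11)]), (353, [(176, 2), (88, 2), (44, 2), (22, 2), (11, 2), (32, 11)]), (541, [(270, 2), (135, 2), (180, 3), (60, 3), (20, 3), (108, 5)])], [(6359, 3179)], 3),
    (160583, false, 1, [], [], [(947, [(473, 2), (86, 11), (22, 43)]), (1123, [(561, 2), (374, 3), (102, 11), (66, 17)])], [(6359, 3179)], 2)] 5000 150703 = true := by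
  decide +kernel

end Pool.Agent.NearSuper255
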