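import Pool.Agent.NearSuper255.Tab

/-!
# Ranges of excluded pairs, file 6
-/

namespace Pool.Agent.NearSuper255

theorem ck17_160703 : chunk WW (search 1 ef17 fqT GT FN17 3 17) 17
    [(161009, false, 1, [(2, 2), (1, 2)], [], [], [(7753, 1938)], 0),
    (161807, false, 1, [], [17], [], [(79187, 39593)], 0),
    (161873, false, 1, [], [], [], [(8501, 4250)], 0),
    (163847, false, 1, [], [17], [(7, [(3, 2), (2, 3)]), (307, [(153, 2), (102, 3), (34, 3), (18, 17)]), (409, [(204, 2), (102, 2), (51, 2), (136, 3), (24, 17)])], [(3469, 578)], 2),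
    (165533, false, 1, [(1, 2)], [], [(137, [(68, 2), (34, 2), (17, 2), (8, 17)])], [(4013, 2006)], 1),
    (165887, false, 1, [], [7, 17], [(29, [(14, 2), (7, 2), (4, 7)]), (137, [(68, 2), (34, 2), (17, 2), (8, 17)]), (239, [(119, 2), (34, 7), (14, 17)])], [(8093, 289)], 2),
    (166567, false, 1, [], [], [(79, [(39, 2), (26, 3), (6, 13)]), (443, [(221, 2), (34, 13), (26, 17)])], [(3469, 578)], 2),
    (166601, false, 1, [], [5], [(101, [(50, 2), (25, 2), (20, 5), (4, 5)]), (311, [(155, 2), (62, 5), (10, 31)]), (373, [(186, 2), (93, 2), (124, 3), (12, 31)])], [(3469, 578)], 1),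
    (167009, false, 1, [], [], [], [(8093, 289)], 0),
    (169319, false, 1, [], [], [(83, [(41, 2), (2, 41)]), (1231, [(615, 2), (410, 3), (246, 5), (30, 41)])], [(613, 153)], 1),
    (169457, false, 1, [], [], [(23, [(11, 2), (2, 11)]), (463, [(231, 2), (154, 3), (66, 7), (42, 11)])], [(6359, 3179)], 2),
    (169523, false, 1, [], [], [(277, [(138, 2), (69, 2), (92, 3), (12, 23)]), (307, [(153, 2), (102, 3), (34, 3), (18, 17)])], [], 1),
    (169933, false, 1, [], [7], [(101, [(50, 2), (25, 2), (20, 5), (4, 5)]), (491, [(245, 2), (98, 5), (70, 7), (10, 7)]), (883, [(441, 2), (294, 3), (98, 3), (126, 7), (18, 7)]), (1021, [(510, 2), (255, 2), (340, 3), (204, 5), (60, 17)])], [(8093, 289)], 2),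
    (170579, false, 1, [], [], [], [(8093, 289)], 0)] 5000 160703 = true := by
  decide +kernel

theorem ck17_170703 : chunk WW (search 1 ef17 fqT GT FN17 3 17) 17
    [(171293, false, 17, [], [], [], [(147391, 14739)], 0),
    (172313, false, 1, [], [2], [(31, [(15, 2), (10, 3), (6, 5)]), (43, [(21, 2), (14, 3), (6, 7)]), (101, [(50, 2), (25, 2), (20, 5), (4, 5)]), (137, [(68, 2), (34, 2), (17, 2), (8, 17)]), (239, [(119, 2), (34, 7), (14, 17)]), (281, [(140, 2), (70, 2), (35, 2), (56, 5), (40, 7)])], [(3469, 578)], 4),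
    (172583, false, 17, [], [], [(47, [(23, 2), (2, 23)])], [(321509611, 32150961)], 3),
    (175067, false, 1, [], [19], [(229, [(114, 2), (57, 2), (76, 3), (12, 19)])], [(3469, 578)], 1),
    (175303, false, 1, [], [], [(47, [(23, 2), (2, 23)]), (1289, [(644, 2), (322, 2), (161, 2), (184, 7), (56, 23)])], [(2347, 1173)], 2),
    (176357, false, 1, [], [], [], [(4421, 1105)], 0),
    (177787, false, 1, [], [3, 17], [(409, [(204, 2), (102, 2), (51, 2), (136, 3), (24, 17)])], [(3469, 578)], 1),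
    (178127, false, 1, [], [13], [(47, [(23, 2), (2, 23)]), (53, [(26, 2), (13, 2), (4, 13)]), (277, [(138, 2), (69, 2), (92, 3), (12, 23)]), (461, [(230, 2), (115, 2), (92, 5), (20, 23)]), (541, [(270, 2), (135, 2), (180, 3), (60, 3), (20, 3), (108, 5)]), (599, [(299, 2), (46, 13), (26, 23)])], [(3469, 578)], 2),
    (178603, false, 1, [], [], [(37, [(18, 2), (9, 2), (12, 3), (4, 3)]), (109, [(54, 2), (27, 2), (36, 3), (12, 3), (4, 3)]), (433, [(216, 2), (108, 2), (54, 2), (27, 2), (144, 3), (48, 3), (16, 3)]), (487, [(243, 2), (162, 3), (54, 3), (18, 3), (6, 3), (2, 3)]), (613, [(306, 2), (153, 2), (204, 3), (68, 3), (36, 17)]), (811, [(405, 2), (270, 3), (90, 3), (30, 3), (10, 3), (162, 5)]), (881, [(440, 2), (220, 2), (110, 2), (55, 2), (176, 5), (80, 11)]), (947, [(473, 2), (86, 11), (22, 43)]), (1423, [(711, 2), (474, 3), (158, 3), (18, 79)])], [(6359, 3179)], 3),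
    (179657, false, 1, [], [2], [(29, [(14, 2), (7, 2), (4, 7)]), (89, [(44, 2), (22, 2), (11, 2), (8, 11)]), (337, [(168, 2), (84, 2), (42, 2), (21, 2), (112, 3), (48, 7)]), (409, [(204, 2), (102, 2), (51, 2), (136, 3), (24, 17)]), (463, [(231, 2), (154, 3), (66, 7), (42, 11)])], [(3469, 578)], 1)] 5000 170703 = true := by
  decide +kernel

theorem ck17_180703 : chunk WW (search 1 ef17 fqT GT FN17 3 17) 17
    [(182309, false, 1, [], [7], [(59, [(29, 2), (2, 29)]), (127, [(63, 2), (42, 3), (14, 3), (18, 7)]), (307, [(153, 2), (102, 3), (34, 3), (18, 17)]), (349, [(174, 2), (87, 2), (116, 3), (12, 29)]), (433, [(216, 2), (108, 2), (54, 2), (27, 2), (144, 3), (48, 3), (16, 3)]), (709, [(354, 2), (177, 2), (236, 3), (12, 59)])], [(8093, 289)], 3),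
    (182443, false, 1, [], [2339], [(28069, [(14034, 2), (7017, 2), (9356, 3), (12, 2339)])], [(1123, 187)], 1),
    (183091, false, 1, [], [5, 17], [(101, [(50, 2), (25, 2), (20, 5), (4, 5)]), (151, [(75, 2), (50, 3), (30, 5), (6, 5)]), (353, [(176, 2), (88, 2), (44, 2), (22, 2), (11, 2), (32, 11)]), (397, [(198, 2), (99, 2), (132, 3), (44, 3), (36, 11)]), (409, [(204, 2), (102, 2), (51, 2), (136, 3), (24, 17)])], [(6359, 3179)], 2),
    (183397, false, 1, [], [], [(107, [(53, 2), (2, 53)]), (541, [(270, 2), (135, 2), (180, 3), (60, 3), (20, 3), (108, 5)]), (571, [(285, 2), (190, 3), (114, 5), (30, 19)]), (857, [(428, 2), (214, 2), (107, 2), (8, 107)]), (1061, [(530, 2), (265, 2), (212, 5), (20, 53)])], [(3469, 578)], 3),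
    (183907, false, 1, [], [3, 17], [(409, [(204, 2), (102, 2), (51, 2), (136, 3), (24, 17)])], [(3469, 578)], 1),
    (184111, false, 1, [], [5], [(71, [(35, 2), (14, 5), (10, 7)]), (101, [(50, 2), (25, 2), (20, 5), (4, 5)])], [(8093, 289)], 1),
    (185027, false, 1, [], [], [(907, [(453, 2), (302, 3), (6, 151)])], [(103, 51)], 1),
    (185063, false, 1, [], [17], [(11, [(5, 2), (2, 5)]), (13, [(6, 2), (3, 2), (4, 3)]), (71, [(35, 2), (14, 5), (10, 7)]), (73, [(36, 2), (18, 2), (9, 2), (24, 3), (8, 3)]), (101, [(50, 2), (25, 2), (20, 5), (4, 5)]), (137, [(68, 2), (34, 2), (17, 2), (8, 17)]), (241, [(120, 2), (60, 2), (30, 2), (15, 2), (80, 3), (48, 5)]), (281, [(140, 2), (70, 2), (35, 2), (56, 5), (40, 7)])], [(3469, 578)], 3),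
    (185131, false, 1, [], [11, 17], [(23, [(11, 2), (2, 11)])], [(6359, 3179)], 1),
    (185177, false, 1, [(1, 2)], [], [(7, [(3, 2), (2, 3)]), (307, [(153, 2), (102, 3), (34, 3), (18, 17)])], [], 1),
    (186569, false, 1, [(4, 2), (2, 2), (1, 2)], [], [], [(6257, 184)], 0),
    (186763, false, 1, [], [3, 17], [(307, [(153, 2), (102, 3), (34, 3), (18, 17)]), (379, [(189, 2), (126, 3), (42, 3), (14, 3), (54, 7)]), (433, [(216, 2), (108, 2), (54, 2), (27, 2), (144, 3), (48, 3), (16, 3)]), (1153, [(576, 2), (288, 2), (144, 2), (72, 2), (36, 2), (18, 2), (9, 2), (384, 3), (128, 3)]), (1409, [(704, 2), (352, 2), (176, 2), (88, 2), (44, 2), (22, 2), (11, 2), (128, 11)])], [(6359, 3179)], 1),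
    (187477, false, 1, [], [], [(239, [(119, 2), (34, 7), (14, 17)]), (2381, [(1190, 2), (595, 2), (476, 5), (340, 7), (140, 17)])], [(20231, 10115)], 1),
    (187987, false, 1, [], [19], [(151, [(75, 2), (50, 3), (30, 5), (6, 5)]), (211, [(105, 2), (70, 3), (42, 5), (30, 7)]), (457, [(228, 2), (114, 2), (57, 2), (152, 3), (24, 19)]), (953, [(476, 2), (238, 2), (119, 2), (136, 7), (56, 17)]), (1361, [(680, 2), (340, 2), (170, 2), (85, 2), (272, 5), (80, 17)])], [(3469, 578)], 2),
    (188633, false, 1, [], [19], [(229, [(114, 2), (57, 2), (76, 3), (12, 19)])], [(3469, 578)], 1)] 5000 180703 = true := by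
  decide +kernel

theorem ck17_190703 : chunk WW (search 1 ef17 fqT GT FN17 3 17) 17
    [(190843, false, 1, [], [], [], [(6359, 3179)], 0),
    (191047, false, 1, [], [3, 17], [(67, [(33, 2), (22, 3), (6, 11)]), (199, [(99, 2), (66, 3), (22, 3), (18, 11)]), (409, [(204, 2), (102, 2), (51, 2), (136, 3), (24, 17)])], [(6359, 3179)], 2),
    (191249, false, 1, [], [2], [(29, [(14, 2), (7, 2), (4, 7)]), (449, [(224, 2), (112, 2), (56, 2), (28, 2), (14, 2), (7, 2), (64, 7)])], [(239, 119)], 1),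
    (191353, false, 1, [], [7], [(397, [(198, 2), (99, 2), (132, 3), (44, 3), (36, 11)]), (463, [(231, 2), (154, 3), (66, 7), (42, 11)])], [(6359, 3179)], 1),
    (193597, false, 1, [], [3, 17], [(307, [(153, 2), (102, 3), (34, 3), (18, 17)]), (409, [(204, 2), (102, 2), (51, 2), (136, 3), (24, 17)]), (577, [(288, 2), (144, 2), (72, 2), (36, 2), (18, 2), (9, 2), (192, 3), (64, 3)]), (1321, [(660, 2), (330, 2), (165, 2), (440, 3), (264, 5), (120, 11)])], [(6359, 3179)], 1),
    (193937, false, 1, [], [], [(29, [(14, 2), (7, 2), (4, 7)]), (521, [(260, 2), (130, 2), (65, 2), (104, 5), (40, 13)]), (1259, [(629, 2), (74, 17), (34, 37)]), (1481, [(740, 2), (370, 2), (185, 2), (296, 5), (40, 37)])], [(8093, 289)], 3),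
    (194717, false, 1, [], [], [(83, [(41, 2), (2, 41)]), (1231, [(615, 2), (410, 3), (246, 5), (30, 41)])], [(6971, 205)], 1),
    (195127, false, 1, [], [], [(241, [(120, 2), (60, 2), (30, 2), (15, 2), (80, 3), (48, 5)]), (257, [(128, 2), (64, 2), (32, 2), (16, 2), (8, 2), (4, 2), (2, 2), (1, 2)]), (431, [(215, 2), (86, 5), (10, 43)]), (953, [(476, 2), (238, 2), (119, 2), (136, 7), (56, 17)]), (1361, [(680, 2), (340, 2), (170, 2), (85, 2), (272, 5), (80, 17)])], [(3469, 578)], 3),
    (197711, false, 1, [], [17], [(307, [(153, 2), (102, 3), (34, 3), (18, 17)]), (409, [(204, 2), (102, 2), (51, 2), (136, 3), (24, 17)])], [(3469, 578)], 1),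
    (198017, false, 1, [], [17], [], [(6359, 3179)], 0),
    (199853, false, 1, [], [], [], [(8093, 289)], 0),
    (200227, false, 1, [], [3, 17], [(409, [(204, 2), (102, 2), (51, 2), (136, 3), (24, 17)])], [(3469, 578)], 1),
    (200363, false, 1, [], [17], [(283, [(141, 2), (94, 3), (6, 47)]), (409, [(204, 2), (102, 2), (51, 2), (136, 3), (24, 17)])], [(3469, 578)], 1)] 5000 190703 = true := by
  decide +kernel

theorem ck17_200703 : chunk WW (search 1 ef17 fqT GT FN17 3 17) 17
    [(202063, false, 1, [], [17], [(71, [(35, 2), (14, 5), (10, 7)]), (137, [(68, 2), (34, 2), (17, 2), (8, 17)]), (173, [(86, 2), (43, 2), (4, 43)]), (181, [(90, 2), (45, 2), (60, 3), (20, 3), (36, 5)]), (433, [(216, 2), (108, 2), (54, 2), (27, 2), (144, 3), (48, 3), (16, 3)]), (571, [(285, 2), (190, 3), (114, 5), (30, 19)])], [(8093, 289)], 4),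
    (203117, false, 1, [], [17], [(97, [(48, 2), (24, 2), (12, 2), (6, 2), (3, 2), (32, 3)]), (1321, [(660, 2), (330, 2), (165, 2), (440, 3), (264, 5), (120, 11)])], [(6359, 3179)], 1),
    (204443, false, 1, [], [17], [], [(6359, 3179)], 0),
    (204509, false, 1, [], [], [(101, [(50, 2), (25, 2), (20, 5), (4, 5)]), (401, [(200, 2), (100, 2), (50, 2), (25, 2), (80, 5), (16, 5)])], [(6121, 340)], 2),
    (205223, true, 1, [(2, 102611)], [], [], [(12313381, 6156690)], 0),
    (206483, false, 1, [], [], [], [(604589, 578)], 0),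
    (207367, false, 1, [], [19], [(23, [(11, 2), (2, 11)]), (419, [(209, 2), (38, 11), (22, 19)])], [(6359, 3179)], 1),
    (208147, true, 1, [(1842, 113), (678, 307)], [], [], [(7493293, 1873323)], 0),
    (208283, false, 1, [], [], [(1021, [(510, 2), (255, 2), (340, 3), (204, 5), (60, 17)])], [(5407, 2703)], 1),
    (209543, false, 1, [], [], [(947, [(473, 2), (86, 11), (22, 43)]), (1871, [(935, 2), (374, 5), (170, 11), (110, 17)])], [(6359, 3179)], 2),
    (210019, false, 1, [], [17], [(5, [(2, 2), (1, 2)]), (181, [(90, 2), (45, 2), (60, 3), (20, 3), (36, 5)]), (307, [(153, 2), (102, 3), (34, 3), (18, 17)]), (1361, [(680, 2), (340, 2), (170, 2), (85, 2), (272, 5), (80, 17)])], [(3469, 578)], 2),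
    (210323, false, 1, [], [], [(619, [(309, 2), (206, 3), (6, 103)]), (1031, [(515, 2), (206, 5), (10, 103)])], [(1531, 765)], 2)] 5000 200703 = true := by
  decide +kernel

theorem ck17_210703 : chunk WW (search 1 ef17 fqT GT FN17 3 17) 17
    [(211039, false, 1, [], [], [(5, [(2, 2), (1, 2)]), (29, [(14, 2), (7, 2), (4, 7)]), (103, [(51, 2), (34, 3), (6, 17)]), (307, [(153, 2), (102, 3), (34, 3), (18, 17)]), (379, [(189, 2), (126, 3), (42, 3), (14, 3), (54, 7)]), (433, [(216, 2), (108, 2), (54, 2), (27, 2), (144, 3), (48, 3), (16, 3)])], [(3469, 578)], 1),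
    (213847, false, 1, [(1, 2)], [], [(41, [(20, 2), (10, 2), (5, 2), (8, 5)]), (281, [(140, 2), (70, 2), (35, 2), (56, 5), (40, 7)]), (337, [(168, 2), (84, 2), (42, 2), (21, 2), (112, 3), (48, 7)])], [(1429, 714)], 2),
    (216173, false, 1, [], [11], [(23, [(11, 2), (2, 11)])], [(6359, 3179)], 1),
    (216851, false, 1, [], [5], [(1063, [(531, 2), (354, 3), (118, 3), (18, 59)]), (1181, [(590, 2), (295, 2), (236, 5), (20, 59)])], [(8161, 816)], 1),
    (218213, false, 1, [], [], [(257, [(128, 2), (64, 2), (32, 2), (16, 2), (8, 2), (4, 2), (2, 2), (1, 2)]), (307, [(153, 2), (102, 3), (34, 3), (18, 17)]), (353, [(176, 2), (88, 2), (44, 2), (22, 2), (11, 2), (32, 11)]), (397, [(198, 2), (99, 2), (132, 3), (44, 3), (36, 11)]), (449, [(224, 2), (112, 2), (56, 2), (28, 2), (14, 2), (7, 2), (64, 7)])], [(6359, 3179)], 2),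
    (219503, false, 1, [], [], [(29, [(14, 2), (7, 2), (4, 7)]), (269, [(134, 2), (67, 2), (4, 67)])], [(2143, 1071)], 2),
    (220151, false, 1, [], [], [], [(6359, 3179)], 0)] 5000 210703 = true := by
  decide +kernel

theorem ck17_220703 : chunk WW (search 1 ef17 fqT GT FN17 3 17) 17
    [(221953, false, 1, [], [2, 17], [(137, [(68, 2), (34, 2), (17, 2), (8, 17)]), (241, [(120, 2), (60, 2), (30, 2), (15, 2), (80, 3), (48, 5)]), (307, [(153, 2), (102, 3), (34, 3), (18, 17)]), (541, [(270, 2), (135, 2), (180, 3), (60, 3), (20, 3), (108, 5)])], [(3469, 578)], 1),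
    (222293, false, 1, [], [7], [(613, [(306, 2), (153, 2), (204, 3), (68, 3), (36, 17)]), (1429, [(714, 2), (357, 2), (476, 3), (204, 7), (84, 17)])], [(8093, 289)], 1),
    (223823, false, 1, [], [], [], [(936361, 13005)], 0),
    (225523, false, 1, [], [3, 17], [(409, [(204, 2), (102, 2), (51, 2), (136, 3), (24, 17)])], [(3469, 578)], 1),
    (226133, false, 1, [], [], [(739, [(369, 2), (246, 3), (82, 3), (18, 41)]), (1423, [(711, 2), (474, 3), (158, 3), (18, 79)])], [(8059, 1343)], 1),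
    (228617, false, 1, [], [17], [(13, [(6, 2), (3, 2), (4, 3)]), (409, [(204, 2), (102, 2), (51, 2), (136, 3), (24, 17)])], [(3469, 578)], 1),
    (228923, false, 1, [], [], [(29, [(14, 2), (7, 2), (4, 7)]), (137, [(68, 2), (34, 2), (17, 2), (8, 17)]), (211, [(105, 2), (70, 3), (42, 5), (30, 7)]), (541, [(270, 2), (135, 2), (180, 3), (60, 3), (20, 3), (108, 5)])], [(3469, 578)], 2),
    (229093, false, 17, [], [], [], [(206347, 2023)], 0),
    (229637, false, 1, [], [11], [(23, [(11, 2), (2, 11)])], [(6359, 3179)], 1)] 5000 220703 = true := by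
  decide +kernel

theorem ck17_230703 : chunk WW (search 1 ef17 fqT GT FN17 3 17) 17
    [(231643, false, 1, [], [], [(953, [(476, 2), (238, 2), (119, 2), (136, 7), (56, 17)])], [(16763, 8381)], 1),
    (232187, false, 1, [], [], [(11, [(5, 2), (2, 5)]), (101, [(50, 2), (25, 2), (20, 5), (4, 5)]), (137, [(68, 2), (34, 2), (17, 2), (8, 17)]), (409, [(204, 2), (102, 2), (51, 2), (136, 3), (24, 17)]), (541, [(270, 2), (135, 2), (180, 3), (60, 3), (20, 3), (108, 5)])], [(3469, 578)], 1),
    (233173, false, 1, [], [3], [(23, [(11, 2), (2, 11)]), (89, [(44, 2), (22, 2), (11, 2), (8, 11)]), (433, [(216, 2), (108, 2), (54, 2), (27, 2), (144, 3), (48, 3), (16, 3)]), (577, [(288, 2), (144, 2), (72, 2), (36, 2), (18, 2), (9, 2), (192, 3), (64, 3)])], [(6359, 3179)], 2),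
    (234907, false, 1, [], [3, 7], [(307, [(153, 2), (102, 3), (34, 3), (18, 17)]), (709, [(354, 2), (177, 2), (236, 3), (12, 59)]), (1093, [(546, 2), (273, 2), (364, 3), (156, 7), (84, 13)])], [(8093, 289)], 1),
    (235007, false, 1, [], [117503], [(28200721, [(14100360, 2), (7050180, 2), (3525090, 2), (1762545, 2), (9400240, 3), (5640144, 5), (240, 117503)])], [(142189, 2091)], 1),
    (236947, false, 1, [], [], [(37, [(18, 2), (9, 2), (12, 3), (4, 3)]), (137, [(68, 2), (34, 2), (17, 2), (8, 17)]), (181, [(90, 2), (45, 2), (60, 3), (20, 3), (36, 5)]), (661, [(330, 2), (165, 2), (220, 3), (132, 5), (60, 11)]), (947, [(473, 2), (86, 11), (22, 43)])], [(6359, 3179)], 1),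
    (237287, false, 1, [], [], [], [(8093, 289)], 0),
    (238103, false, 1, [], [17], [], [(6359, 3179)], 0),
    (238747, true, 1, [(6, 39791)], [], [], [(30082123, 3342458)], 0),
    (239531, false, 1, [], [], [], [(17341, 102)], 0),
    (239803, false, 1, [], [], [], [(94793, 47396)], 0),
    (239947, false, 17, [(2, 2), (1, 2)], [], [], [(3469, 578)], 0),
    (240041, false, 1, [], [17], [(11, [(5, 2), (2, 5)]), (31, [(15, 2), (10, 3), (6, 5)]), (71, [(35, 2), (14, 5), (10, 7)]), (409, [(204, 2), (102, 2), (51, 2), (136, 3), (24, 17)])], [(3469, 578)], 2),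
    (240517, false, 1, [], [], [(73, [(36, 2), (18, 2), (9, 2), (24, 3), (8, 3)]), (241, [(120, 2), (60, 2), (30, 2), (15, 2), (80, 3), (48, 5)]), (499, [(249, 2), (166, 3), (6, 83)])], [(3469, 578)], 2)] 5000 230703 = true := by
  decide +kernel

theorem ck17_240703 : chunk WW (search 1 ef17 fqT GT FN17 3 17) 17
    [(243167, false, 1, [], [], [(149, [(74, 2), (37, 2), (4, 37)]), (223, [(111, 2), (74, 3), (6, 37)])], [(6121, 340)], 1),
    (244393, false, 1, [], [2], [(29, [(14, 2), (7, 2), (4, 7)]), (61, [(30, 2), (15, 2), (20, 3), (12, 5)]), (73, [(36, 2), (18, 2), (9, 2), (24, 3), (8, 3)]), (197, [(98, 2), (49, 2), (28, 7), (4, 7)]), (491, [(245, 2), (98, 5), (70, 7), (10, 7)]), (593, [(296, 2), (148, 2), (74, 2), (37, 2), (16, 37)])], [(3469, 578)], 2),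
    (244597, false, 1, [], [17], [], [(6359, 3179)], 0),
    (248201, false, 1, [], [5], [(101, [(50, 2), (25, 2), (20, 5), (4, 5)]), (353, [(176, 2), (88, 2), (44, 2), (22, 2), (11, 2), (32, 11)]), (397, [(198, 2), (99, 2), (132, 3), (44, 3), (36, 11)]), (571, [(285, 2), (190, 3), (114, 5), (30, 19)])], [(6359, 3179)], 2),
    (248267, false, 1, [], [], [(1217, [(608, 2), (304, 2), (152, 2), (76, 2), (38, 2), (19, 2), (64, 19)]), (1409, [(704, 2), (352, 2), (176, 2), (88, 2), (44, 2), (22, 2), (11, 2), (128, 11)])], [(11969, 748)], 1),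
    (248813, false, 1, [], [], [(23, [(11, 2), (2, 11)]), (947, [(473, 2), (86, 11), (22, 43)])], [(6359, 3179)], 1),
    (250307, false, 1, [], [19], [(457, [(228, 2), (114, 2), (57, 2), (152, 3), (24, 19)])], [(6733, 1683)], 1)] 5000 240703 = true := by
  decide +kernel

theorem ck17_250703 : chunk WW (search 1 ef17 fqT GT FN17 3 17) 17
    [(250853, false, 1, [], [17], [(307, [(153, 2), (102, 3), (34, 3), (18, 17)]), (409, [(204, 2), (102, 2), (51, 2), (136, 3), (24, 17)])], [(3469, 578)], 1),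
    (251159, false, 1, [], [17], [], [(6359, 3179)], 0),
    (251231, false, 1, [(4, 2), (2, 2), (1, 2)], [], [(593, [(296, 2), (148, 2), (74, 2), (37, 2), (16, 37)])], [(137, 68)], 1),
    (251567, false, 1, [], [7, 17], [(61, [(30, 2), (15, 2), (20, 3), (12, 5)]), (101, [(50, 2), (25, 2), (20, 5), (4, 5)]), (137, [(68, 2), (34, 2), (17, 2), (8, 17)]), (337, [(168, 2), (84, 2), (42, 2), (21, 2), (112, 3), (48, 7)]), (401, [(200, 2), (100, 2), (50, 2), (25, 2), (80, 5), (16, 5)]), (491, [(245, 2), (98, 5), (70, 7), (10, 7)])], [(3469, 578)], 3),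
    (252893, false, 1, [], [17], [(113, [(56, 2), (28, 2), (14, 2), (7, 2), (16, 7)]), (337, [(168, 2), (84, 2), (42, 2), (21, 2), (112, 3), (48, 7)])], [(3469, 578)], 1),
    (253607, false, 1, [], [], [(239, [(119, 2), (34, 7), (14, 17)]), (2381, [(1190, 2), (595, 2), (476, 5), (340, 7), (140, 17)])], [(20231, 10115)], 1),
    (254083, false, 1, [], [], [(137, [(68, 2), (34, 2), (17, 2), (8, 17)]), (1361, [(680, 2), (340, 2), (170, 2), (85, 2), (272, 5), (80, 17)])], [(8093, 289)], 2),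
    (254831, false, 1, [], [5], [(71, [(35, 2), (14, 5), (10, 7)]), (113, [(56, 2), (28, 2), (14, 2), (7, 2), (16, 7)]), (337, [(168, 2), (84, 2), (42, 2), (21, 2), (112, 3), (48, 7)])], [(8093, 289)], 1),
    (255239, false, 1, [], [], [(5, [(2, 2), (1, 2)]), (29, [(14, 2), (7, 2), (4, 7)]), (113, [(56, 2), (28, 2), (14, 2), (7, 2), (16, 7)]), (337, [(168, 2), (84, 2), (42, 2), (21, 2), (112, 3), (48, 7)])], [(3469, 578)], 1),
    (257447, false, 1, [], [7], [(491, [(245, 2), (98, 5), (70, 7), (10, 7)])], [(1667, 833)], 1),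
    (260543, false, 1, [], [], [(59, [(29, 2), (2, 29)]), (349, [(174, 2), (87, 2), (116, 3), (12, 29)])], [(3469, 578)], 1)] 5000 250703 = true := by
  decide +kernel

theorem ck17_260703 : chunk WW (search 1 ef17 fqT GT FN17 3 17) 17
    [(260747, false, 1, [], [17], [], [(6359, 3179)], 0),
    (261529, false, 1, [], [17], [(5, [(2, 2), (1, 2)]), (29, [(14, 2), (7, 2), (4, 7)]), (131, [(65, 2), (26, 5), (10, 13)]), (197, [(98, 2), (49, 2), (28, 7), (4, 7)]), (199, [(99, 2), (66, 3), (22, 3), (18, 11)]), (307, [(153, 2), (102, 3), (34, 3), (18, 17)]), (331, [(165, 2), (110, 3), (66, 5), (30, 11)]), (409, [(204, 2), (102, 2), (51, 2), (136, 3), (24, 17)]), (491, [(245, 2), (98, 5), (70, 7), (10, 7)]), (541, [(270, 2), (135, 2), (180, 3), (60, 3), (20, 3), (108, 5)])], [(6359, 3179)], 4),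
    (261563, false, 1, [], [7], [(71, [(35, 2), (14, 5), (10, 7)]), (101, [(50, 2), (25, 2), (20, 5), (4, 5)]), (137, [(68, 2), (34, 2), (17, 2), (8, 17)]), (257, [(128, 2), (64, 2), (32, 2), (16, 2), (8, 2), (4, 2), (2, 2), (1, 2)]), (281, [(140, 2), (70, 2), (35, 2), (56, 5), (40, 7)]), (307, [(153, 2), (102, 3), (34, 3), (18, 17)]), (353, [(176, 2), (88, 2), (44, 2), (22, 2), (11, 2), (32, 11)]), (397, [(198, 2), (99, 2), (132, 3), (44, 3), (36, 11)]), (449, [(224, 2), (112, 2), (56, 2), (28, 2), (14, 2), (7, 2), (64, 7)])], [(6359, 3179)], 2),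
    (262957, false, 1, [], [], [(61, [(30, 2), (15, 2), (20, 3), (12, 5)]), (137, [(68, 2), (34, 2), (17, 2), (8, 17)]), (307, [(153, 2), (102, 3), (34, 3), (18, 17)]), (409, [(204, 2), (102, 2), (51, 2), (136, 3), (24, 17)])], [(3469, 578)], 3),
    (263399, false, 1, [], [], [(29, [(14, 2), (7, 2), (4, 7)]), (73, [(36, 2), (18, 2), (9, 2), (24, 3), (8, 3)]), (113, [(56, 2), (28, 2), (14, 2), (7, 2), (16, 7)]), (173, [(86, 2), (43, 2), (4, 43)]), (293, [(146, 2), (73, 2), (4, 73)]), (439, [(219, 2), (146, 3), (6, 73)])], [(3469, 578)], 5),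
    (264793, false, 1, [], [3, 17], [(409, [(204, 2), (102, 2), (51, 2), (136, 3), (24, 17)])], [(3469, 578)], 1),
    (265711, false, 1, [], [17], [], [(6359, 3179)], 0),
    (266117, false, 1, [], [], [(2609, [(1304, 2), (652, 2), (326, 2), (163, 2), (16, 163)])], [(137, 68)], 1),
    (266867, false, 1, [], [17], [(7, [(3, 2), (2, 3)]), (409, [(204, 2), (102, 2), (51, 2), (136, 3), (24, 17)])], [(3469, 578)], 1),
    (266933, false, 1, [], [], [(2399, [(1199, 2), (218, 11), (22, 109)]), (2617, [(1308, 2), (654, 2), (327, 2), (872, 3), (24, 109)])], [(11119, 1853)], 2),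
    (267887, false, 1, [], [], [(947, [(473, 2), (86, 11), (22, 43)]), (1123, [(561, 2), (374, 3), (102, 11), (66, 17)])], [(6359, 3179)], 2),
    (268171, false, 1, [(1, 2)], [7], [(601, [(300, 2), (150, 2), (75, 2), (200, 3), (120, 5), (24, 5)]), (1471, [(735, 2), (490, 3), (294, 5), (210, 7), (30, 7)])], [(10949, 17)], 1),
    (269383, false, 1, [], [3, 17], [(409, [(204, 2), (102, 2), (51, 2), (136, 3), (24, 17)])], [(3469, 578)], 1),
    (269519, false, 1, [], [17], [(307, [(153, 2), (102, 3), (34, 3), (18, 17)]), (409, [(204, 2), (102, 2), (51, 2), (136, 3), (24, 17)])], [(3469, 578)], 1),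
    (269723, false, 1, [], [17], [(19, [(9, 2), (6, 3), (2, 3)]), (409, [(204, 2), (102, 2), (51, 2), (136, 3), (24, 17)])], [(3469, 578)], 1),
    (270097, false, 1, [], [2, 17], [(71, [(35, 2), (14, 5), (10, 7)]), (137, [(68, 2), (34, 2), (17, 2), (8, 17)]), (241, [(120, 2), (60, 2), (30, 2), (15, 2), (80, 3), (48, 5)])], [(8093, 289)], 2)] 5000 260703 = true := by
  decide +kernel

theorem ck17_270703 : chunk WW (search 1 ef17 fqT GT FN17 3 17) 17
    [(271253, false, 1, [], [], [], [(8093, 289)], 0),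
    (272191, false, 1, [(1, 2)], [], [], [(10099, 297)], 0),
    (272477, false, 1, [], [], [(103, [(51, 2), (34, 3), (6, 17)]), (191, [(95, 2), (38, 5), (10, 19)]), (241, [(120, 2), (60, 2), (30, 2), (15, 2), (80, 3), (48, 5)]), (307, [(153, 2), (102, 3), (34, 3), (18, 17)]), (331, [(165, 2), (110, 3), (66, 5), (30, 11)]), (353, [(176, 2), (88, 2), (44, 2), (22, 2), (11, 2), (32, 11)]), (571, [(285, 2), (190, 3), (114, 5), (30, 19)])], [(6359, 3179)], 2),
    (274277, false, 1, [], [], [(307, [(153, 2), (102, 3), (34, 3), (18, 17)]), (2689, [(1344, 2), (672, 2), (336, 2), (168, 2), (84, 2), (42, 2), (21, 2), (896, 3), (384, 7)])], [], 2),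
    (274517, false, 1, [], [11], [(151, [(75, 2), (50, 3), (30, 5), (6, 5)]), (331, [(165, 2), (110, 3), (66, 5), (30, 11)])], [(6359, 3179)], 1),
    (274787, false, 1, [], [], [(449, [(224, 2), (112, 2), (56, 2), (28, 2), (14, 2), (7, 2), (64, 7)])], [(1429, 714)], 1),
    (275129, false, 1, [], [2, 17], [(29, [(14, 2), (7, 2), (4, 7)]), (137, [(68, 2), (34, 2), (17, 2), (8, 17)]), (421, [(210, 2), (105, 2), (140, 3), (84, 5), (60, 7)]), (541, [(270, 2), (135, 2), (180, 3), (60, 3), (20, 3), (108, 5)])], [(3469, 578)], 1),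
    (276467, false, 1, [(1, 2)], [], [(29, [(14, 2), (7, 2), (4, 7)]), (1873, [(936, 2), (468, 2), (234, 2), (117, 2), (624, 3), (208, 3), (144, 13)]), (2017, [(1008, 2), (504, 2), (252, 2), (126, 2), (63, 2), (672, 3), (224, 3), (288, 7)])], [(239, 119)], 2),
    (276557, false, 1, [], [7, 17], [(29, [(14, 2), (7, 2), (4, 7)]), (137, [(68, 2), (34, 2), (17, 2), (8, 17)]), (491, [(245, 2), (98, 5), (70, 7), (10, 7)])], [(3469, 578)], 2),
    (277169, false, 1, [], [2], [(239, [(119, 2), (34, 7), (14, 17)]), (953, [(476, 2), (238, 2), (119, 2), (136, 7), (56, 17)])], [(8093, 289)], 1),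
    (277373, false, 1, [], [], [(2371, [(1185, 2), (790, 3), (474, 5), (30, 79)]), (2687, [(1343, 2), (158, 17), (34, 79)])], [(17341, 102)], 2),
    (278393, false, 1, [], [23], [(1021, [(510, 2), (255, 2), (340, 3), (204, 5), (60, 17)]), (1381, [(690, 2), (345, 2), (460, 3), (276, 5), (60, 23)])], [(8093, 289)], 1),
    (278903, false, 1, [], [17], [], [(6359, 3179)], 0)] 5000 270703 = true := by
  decide +kernel

theorem ck17_280703 : chunk WW (search 1 ef17 fqT GT FN17 3 17) 17
    [(282167, false, 1, [], [], [(7, [(3, 2), (2, 3)]), (67, [(33, 2), (22, 3), (6, 11)]), (199, [(99, 2), (66, 3), (22, 3), (18, 11)]), (307, [(153, 2), (102, 3), (34, 3), (18, 17)])], [(6359, 3179)], 2),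
    (284377, false, 1, [], [], [], [(6359, 3179)], 0),
    (284783, false, 17, [], [], [], [(35837, 17918)], 0),
    (285071, false, 17, [(2, 2), (1, 2)], [], [], [(3469, 578)], 0),
    (287437, false, 1, [], [], [], [(8093, 289)], 0),
    (288049, false, 1, [], [2], [(29, [(14, 2), (7, 2), (4, 7)])], [(8093, 289)], 1),
    (288389, false, 1, [], [17], [(5, [(2, 2), (1, 2)]), (29, [(14, 2), (7, 2), (4, 7)]), (181, [(90, 2), (45, 2), (60, 3), (20, 3), (36, 5)]), (197, [(98, 2), (49, 2), (28, 7), (4, 7)]), (307, [(153, 2), (102, 3), (34, 3), (18, 17)]), (379, [(189, 2), (126, 3), (42, 3), (14, 3), (54, 7)]), (433, [(216, 2), (108, 2), (54, 2), (27, 2), (144, 3), (48, 3), (16, 3)]), (491, [(245, 2), (98, 5), (70, 7), (10, 7)])], [(3469, 578)], 2),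
    (289103, false, 1, [], [11], [(23, [(11, 2), (2, 11)])], [(6359, 3179)], 1),
    (289543, false, 1, [], [11], [(947, [(473, 2), (86, 11), (22, 43)])], [(5849, 1462)], 1),
    (289987, false, 1, [], [3], [(7, [(3, 2), (2, 3)]), (379, [(189, 2), (126, 3), (42, 3), (14, 3), (54, 7)]), (433, [(216, 2), (108, 2), (54, 2), (27, 2), (144, 3), (48, 3), (16, 3)])], [(3469, 578)], 1),
    (290041, false, 1, [(1, 2)], [], [(173, [(86, 2), (43, 2), (4, 43)]), (2237, [(1118, 2), (559, 2), (172, 13), (52, 43)])], [(5849, 1462)], 1)] 5000 280703 = true := by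
  decide +kernel

theorem ck17_290703 : chunk WW (search 1 ef17 fqT GT FN17 3 17) 17
    [(291143, false, 1, [], [], [], [(6359, 3179)], 0),
    (292367, false, 1, [], [], [(7, [(3, 2), (2, 3)]), (53, [(26, 2), (13, 2), (4, 13)]), (409, [(204, 2), (102, 2), (51, 2), (136, 3), (24, 17)]), (443, [(221, 2), (34, 13), (26, 17)])], [(3469, 578)], 2),
    (292673, false, 1, [], [17], [(307, [(153, 2), (102, 3), (34, 3), (18, 17)]), (409, [(204, 2), (102, 2), (51, 2), (136, 3), (24, 17)])], [(3469, 578)], 1),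
    (293081, false, 1, [], [17], [], [(6359, 3179)], 0),
    (293149, false, 1, [], [17], [(41, [(20, 2), (10, 2), (5, 2), (8, 5)]), (71, [(35, 2), (14, 5), (10, 7)]), (137, [(68, 2), (34, 2), (17, 2), (8, 17)])], [(8093, 289)], 1),
    (294781, false, 1, [], [3, 5, 17], [(101, [(50, 2), (25, 2), (20, 5), (4, 5)]), (641, [(320, 2), (160, 2), (80, 2), (40, 2), (20, 2), (10, 2), (5, 2), (128, 5)]), (1321, [(660, 2), (330, 2), (165, 2), (440, 3), (264, 5), (120, 11)])], [(6359, 3179)], 1),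
    (295663, false, 1, [], [3], [(307, [(153, 2), (102, 3), (34, 3), (18, 17)])], [], 1),
    (295903, false, 1, [], [3, 17], [(19, [(9, 2), (6, 3), (2, 3)]), (409, [(204, 2), (102, 2), (51, 2), (136, 3), (24, 17)])], [(3469, 578)], 1),
    (296651, false, 1, [], [5], [(41, [(20, 2), (10, 2), (5, 2), (8, 5)]), (71, [(35, 2), (14, 5), (10, 7)]), (353, [(176, 2), (88, 2), (44, 2), (22, 2), (11, 2), (32, 11)]), (419, [(209, 2), (38, 11), (22, 19)])], [(6359, 3179)], 2),
    (297161, false, 1, [], [19], [(457, [(228, 2), (114, 2), (57, 2), (152, 3), (24, 19)])], [(3469, 578)], 1),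
    (299063, false, 1, [], [], [(367, [(183, 2), (122, 3), (6, 61)]), (733, [(366, 2), (183, 2), (244, 3), (12, 61)])], [(613, 153)], 2),
    (299983, false, 1, [], [3], [(97, [(48, 2), (24, 2), (12, 2), (6, 2), (3, 2), (32, 3)]), (307, [(153, 2), (102, 3), (34, 3), (18, 17)]), (353, [(176, 2), (88, 2), (44, 2), (22, 2), (11, 2), (32, 11)]), (379, [(189, 2), (126, 3), (42, 3), (14, 3), (54, 7)]), (397, [(198, 2), (99, 2), (132, 3), (44, 3), (36, 11)]), (433, [(216, 2), (108, 2), (54, 2), (27, 2), (144, 3), (48, 3), (16, 3)]), (577, [(288, 2), (144, 2), (72, 2), (36, 2), (18, 2), (9, 2), (192, 3), (64, 3)])], [(6359, 3179)], 2)] 4649 290703 = true := by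
  decide +kernel

end Pool.Agent.NearSuper255
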