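import Pool.Agent.NearSuper255.Tab

/-!
# Ranges of excluded pairs, file 7
-/

namespace Pool.Agent.NearSuper255

theorem ck19_21 : chunk 30 (search 1 ef19 fqT GT FN19 4 19) 19
    [] 4 21 = true := by
  decide +kernel

theorem ck19_29 : chunk W23 (search 1 ef19 fqT GT FN19 4 19) 19
    [(191, true, 1, [(38, 5), (10, 19)], [], [], [(383, 382)], 0),
    (229, true, 1, [(76, 3), (12, 19)], [], [(127, [(63, 2), (42, 3), (14, 3), (18, 7)]), (239, [(119, 2), (34, 7), (14, 17)])], [(19237, 3206)], 1),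
    (419, true, 1, [(38, 11), (22, 19)], [], [], [(15923, 15922)], 0),
    (457, true, 1, [(152, 3), (24, 19)], [], [(11, [(5, 2), (2, 5)]), (29, [(14, 2), (7, 2), (4, 7)]), (127, [(63, 2), (42, 3), (14, 3), (18, 7)]), (181, [(90, 2), (45, 2), (60, 3), (20, 3), (36, 5)])], [(13711, 6855)], 3),
    (571, true, 1, [(190, 3), (114, 5), (30, 19)], [], [], [(5711, 1142)], 0),
    (647, true, 1, [(38, 17), (34, 19)], [], [(5, [(2, 2), (1, 2)]), (41, [(20, 2), (10, 2), (5, 2), (8, 5)])], [(12941, 3235)], 1)] 337 29 = true := by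
  decide +kernel

theorem ck19_703 : chunk WW (search 1 ef19 fqT GT FN19 4 19) 19
    [(761, true, 1, [(95, 2), (152, 5), (40, 19)], [], [], [(9133, 2283)], 0),
    (1103, true, 1, [(58, 19), (38, 29)], [], [(23, [(11, 2), (2, 11)]), (229, [(114, 2), (57, 2), (76, 3), (12, 19)]), (419, [(209, 2), (38, 11), (22, 19)])], [(6619, 6618)], 2),
    (1217, true, 1, [(19, 2), (64, 19)], [], [], [(29209, 3651)], 0),
    (1483, true, 1, [(114, 13), (78, 19)], [], [(7, [(3, 2), (2, 3)])], [(44491, 2966)], 1),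
    (1559, true, 1, [(82, 19), (38, 41)], [], [(13, [(6, 2), (3, 2), (4, 3)])], [(12473, 1559)], 1),
    (1597, true, 1, [(532, 3), (228, 7), (84, 19)], [], [], [(6389, 1597)], 0),
    (1787, true, 1, [(94, 19), (38, 47)], [], [(37, [(18, 2), (9, 2), (12, 3), (4, 3)]), (283, [(141, 2), (94, 3), (6, 47)])], [(64333, 5361)], 2),
    (1901, true, 1, [(76, 5), (100, 19)], [], [(61, [(30, 2), (15, 2), (20, 3), (12, 5)]), (73, [(36, 2), (18, 2), (9, 2), (24, 3), (8, 3)]), (103, [(51, 2), (34, 3), (6, 17)]), (151, [(75, 2), (50, 3), (30, 5), (6, 5)])], [(68437, 1901)], 3),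
    (2053, false, 1, [], [3], [(79, [(39, 2), (26, 3), (6, 13)]), (131, [(65, 2), (26, 5), (10, 13)]), (151, [(75, 2), (50, 3), (30, 5), (6, 5)]), (199, [(99, 2), (66, 3), (22, 3), (18, 11)]), (331, [(165, 2), (110, 3), (66, 5), (30, 11)])], [(10831, 10830)], 2),
    (2129, false, 1, [], [2], [(181, [(90, 2), (45, 2), (60, 3), (20, 3), (36, 5)]), (241, [(120, 2), (60, 2), (30, 2), (15, 2), (80, 3), (48, 5)]), (307, [(153, 2), (102, 3), (34, 3), (18, 17)]), (379, [(189, 2), (126, 3), (42, 3), (14, 3), (54, 7)]), (409, [(204, 2), (102, 2), (51, 2), (136, 3), (24, 17)]), (433, [(216, 2), (108, 2), (54, 2), (27, 2), (144, 3), (48, 3), (16, 3)]), (487, [(243, 2), (162, 3), (54, 3), (18, 3), (6, 3), (2, 3)])], [(10831, 10830)], 3),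
    (2243, false, 1, [], [], [(11, [(5, 2), (2, 5)]), (271, [(135, 2), (90, 3), (30, 3), (10, 3), (54, 5)]), (911, [(455, 2), (182, 5), (130, 7), (70, 13)]), (1249, [(624, 2), (312, 2), (156, 2), (78, 2), (39, 2), (416, 3), (96, 13)])], [(10831, 10830)], 2),
    (2281, false, 1, [], [3], [(127, [(63, 2), (42, 3), (14, 3), (18, 7)]), (463, [(231, 2), (154, 3), (66, 7), (42, 11)]), (701, [(350, 2), (175, 2), (140, 5), (28, 5), (100, 7)])], [(10831, 10830)], 1),
    (2357, false, 1, [], [], [(127, [(63, 2), (42, 3), (14, 3), (18, 7)]), (131, [(65, 2), (26, 5), (10, 13)]), (281, [(140, 2), (70, 2), (35, 2), (56, 5), (40, 7)]), (311, [(155, 2), (62, 5), (10, 31)]), (313, [(156, 2), (78, 2), (39, 2), (104, 3), (24, 13)]), (457, [(228, 2), (114, 2), (57, 2), (152, 3), (24, 19)]), (599, [(299, 2), (46, 13), (26, 23)]), (1427, [(713, 2), (62, 23), (46, 31)])], [(10831, 10830)], 2),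
    (2699, false, 1, [], [], [(191, [(95, 2), (38, 5), (10, 19)]), (911, [(455, 2), (182, 5), (130, 7), (70, 13)])], [(10831, 10830)], 1),
    (2851, false, 1, [], [3, 5], [(101, [(50, 2), (25, 2), (20, 5), (4, 5)]), (127, [(63, 2), (42, 3), (14, 3), (18, 7)])], [(10831, 10830)], 1),
    (2927, false, 1, [], [], [(61, [(30, 2), (15, 2), (20, 3), (12, 5)]), (151, [(75, 2), (50, 3), (30, 5), (6, 5)])], [(10831, 10830)], 1),
    (3041, false, 1, [], [5], [(281, [(140, 2), (70, 2), (35, 2), (56, 5), (40, 7)]), (337, [(168, 2), (84, 2), (42, 2), (21, 2), (112, 3), (48, 7)]), (577, [(288, 2), (144, 2), (72, 2), (36, 2), (18, 2), (9, 2), (192, 3), (64, 3)]), (911, [(455, 2), (182, 5), (130, 7), (70, 13)])], [(10831, 10830)], 3),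
    (3079, false, 1, [], [3], [(11, [(5, 2), (2, 5)]), (31, [(15, 2), (10, 3), (6, 5)])], [(10831, 10830)], 1),
    (3307, false, 1, [], [19], [], [(10831, 10830)], 0)] 1500 703 = true := by
  decide +kernel

theorem ck19_3703 : chunk WW (search 1 ef19 fqT GT FN19 4 19) 19
    [(3877, false, 1, [], [3, 19], [(127, [(63, 2), (42, 3), (14, 3), (18, 7)]), (457, [(228, 2), (114, 2), (57, 2), (152, 3), (24, 19)]), (541, [(270, 2), (135, 2), (180, 3), (60, 3), (20, 3), (108, 5)]), (571, [(285, 2), (190, 3), (114, 5), (30, 19)])], [(10831, 10830)], 1),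
    (4219, false, 1, [], [19], [(211, [(105, 2), (70, 3), (42, 5), (30, 7)]), (457, [(228, 2), (114, 2), (57, 2), (152, 3), (24, 19)])], [(10831, 10830)], 1),
    (4409, false, 1, [], [2], [(7, [(3, 2), (2, 3)]), (13, [(6, 2), (3, 2), (4, 3)]), (37, [(18, 2), (9, 2), (12, 3), (4, 3)]), (73, [(36, 2), (18, 2), (9, 2), (24, 3), (8, 3)]), (127, [(63, 2), (42, 3), (14, 3), (18, 7)]), (337, [(168, 2), (84, 2), (42, 2), (21, 2), (112, 3), (48, 7)]), (701, [(350, 2), (175, 2), (140, 5), (28, 5), (100, 7)])], [(10831, 10830)], 1),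
    (4447, false, 1, [], [13, 19], [(131, [(65, 2), (26, 5), (10, 13)]), (313, [(156, 2), (78, 2), (39, 2), (104, 3), (24, 13)])], [(10831, 10830)], 1),
    (4523, false, 1, [], [], [(29, [(14, 2), (7, 2), (4, 7)]), (181, [(90, 2), (45, 2), (60, 3), (20, 3), (36, 5)])], [(10831, 10830)], 1),
    (4561, false, 1, [], [5], [(151, [(75, 2), (50, 3), (30, 5), (6, 5)])], [(10831, 10830)], 1),
    (4637, false, 1, [], [], [(229, [(114, 2), (57, 2), (76, 3), (12, 19)]), (241, [(120, 2), (60, 2), (30, 2), (15, 2), (80, 3), (48, 5)]), (487, [(243, 2), (162, 3), (54, 3), (18, 3), (6, 3), (2, 3)]), (523, [(261, 2), (174, 3), (58, 3), (18, 29)]), (577, [(288, 2), (144, 2), (72, 2), (36, 2), (18, 2), (9, 2), (192, 3), (64, 3)]), (769, [(384, 2), (192, 2), (96, 2), (48, 2), (24, 2), (12, 2), (6, 2), (3, 2), (256, 3)]), (773, [(386, 2), (193, 2), (4, 193)])], [(10831, 10830)], 4),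
    (4751, false, 1, [], [5, 19], [(109, [(54, 2), (27, 2), (36, 3), (12, 3), (4, 3)]), (251, [(125, 2), (50, 5), (10, 5), (2, 5)]), (911, [(455, 2), (182, 5), (130, 7), (70, 13)]), (1301, [(650, 2), (325, 2), (260, 5), (52, 5), (100, 13)]), (1483, [(741, 2), (494, 3), (114, 13), (78, 19)])], [(10831, 10830)], 2),
    (4789, false, 1, [], [3, 7], [(71, [(35, 2), (14, 5), (10, 7)]), (197, [(98, 2), (49, 2), (28, 7), (4, 7)]), (271, [(135, 2), (90, 3), (30, 3), (10, 3), (54, 5)])], [(10831, 10830)], 2),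
    (4903, false, 1, [], [3], [(127, [(63, 2), (42, 3), (14, 3), (18, 7)]), (241, [(120, 2), (60, 2), (30, 2), (15, 2), (80, 3), (48, 5)]), (673, [(336, 2), (168, 2), (84, 2), (42, 2), (21, 2), (224, 3), (96, 7)])], [(10831, 10830)], 2),
    (5701, false, 1, [], [5, 19], [(271, [(135, 2), (90, 3), (30, 3), (10, 3), (54, 5)]), (457, [(228, 2), (114, 2), (57, 2), (152, 3), (24, 19)]), (911, [(455, 2), (182, 5), (130, 7), (70, 13)])], [(10831, 10830)], 2),
    (6043, false, 1, [], [3], [(127, [(63, 2), (42, 3), (14, 3), (18, 7)]), (421, [(210, 2), (105, 2), (140, 3), (84, 5), (60, 7)]), (701, [(350, 2), (175, 2), (140, 5), (28, 5), (100, 7)])], [(10831, 10830)], 1),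
    (6271, false, 1, [], [3, 5], [(271, [(135, 2), (90, 3), (30, 3), (10, 3), (54, 5)])], [(10831, 10830)], 1),
    (6689, false, 1, [], [11], [(223, [(111, 2), (74, 3), (6, 37)]), (761, [(380, 2), (190, 2), (95, 2), (152, 5), (40, 19)]), (769, [(384, 2), (192, 2), (96, 2), (48, 2), (24, 2), (12, 2), (6, 2), (3, 2), (256, 3)]), (859, [(429, 2), (286, 3), (78, 11), (66, 13)]), (911, [(455, 2), (182, 5), (130, 7), (70, 13)]), (1093, [(546, 2), (273, 2), (364, 3), (156, 7), (84, 13)])], [(10831, 10830)], 3)] 1500 3703 = true := by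
  decide +kernel

theorem ck19_6703 : chunk WW (search 1 ef19 fqT GT FN19 4 19) 19
    [(6803, false, 1, [], [], [(7, [(3, 2), (2, 3)]), (127, [(63, 2), (42, 3), (14, 3), (18, 7)]), (281, [(140, 2), (70, 2), (35, 2), (56, 5), (40, 7)]), (911, [(455, 2), (182, 5), (130, 7), (70, 13)])], [(10831, 10830)], 1),
    (6841, false, 1, [], [3], [(271, [(135, 2), (90, 3), (30, 3), (10, 3), (54, 5)]), (311, [(155, 2), (62, 5), (10, 31)])], [(10831, 10830)], 2),
    (6917, false, 1, [], [13], [(313, [(156, 2), (78, 2), (39, 2), (104, 3), (24, 13)]), (521, [(260, 2), (130, 2), (65, 2), (104, 5), (40, 13)]), (601, [(300, 2), (150, 2), (75, 2), (200, 3), (120, 5), (24, 5)])], [(10831, 10830)], 2),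
    (7069, false, 1, [], [3], [(127, [(63, 2), (42, 3), (14, 3), (18, 7)]), (151, [(75, 2), (50, 3), (30, 5), (6, 5)]), (541, [(270, 2), (135, 2), (180, 3), (60, 3), (20, 3), (108, 5)])], [(10831, 10830)], 2),
    (7297, false, 1, [], [2, 3, 19], [(97, [(48, 2), (24, 2), (12, 2), (6, 2), (3, 2), (32, 3)]), (109, [(54, 2), (27, 2), (36, 3), (12, 3), (4, 3)]), (127, [(63, 2), (42, 3), (14, 3), (18, 7)]), (163, [(81, 2), (54, 3), (18, 3), (6, 3), (2, 3)]), (241, [(120, 2), (60, 2), (30, 2), (15, 2), (80, 3), (48, 5)])], [(10831, 10830)], 3),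
    (7411, false, 1, [], [5, 13], [(241, [(120, 2), (60, 2), (30, 2), (15, 2), (80, 3), (48, 5)]), (271, [(135, 2), (90, 3), (30, 3), (10, 3), (54, 5)]), (313, [(156, 2), (78, 2), (39, 2), (104, 3), (24, 13)])], [(10831, 10830)], 2),
    (7487, false, 1, [], [], [(13, [(6, 2), (3, 2), (4, 3)]), (191, [(95, 2), (38, 5), (10, 19)]), (271, [(135, 2), (90, 3), (30, 3), (10, 3), (54, 5)])], [(10831, 10830)], 1),
    (7639, false, 1, [], [], [], [(10831, 10830)], 0),
    (7753, false, 1, [], [2, 19], [(181, [(90, 2), (45, 2), (60, 3), (20, 3), (36, 5)])], [(10831, 10830)], 1),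
    (7829, false, 1, [], [], [(181, [(90, 2), (45, 2), (60, 3), (20, 3), (36, 5)]), (229, [(114, 2), (57, 2), (76, 3), (12, 19)]), (457, [(228, 2), (114, 2), (57, 2), (152, 3), (24, 19)]), (937, [(468, 2), (234, 2), (117, 2), (312, 3), (104, 3), (72, 13)])], [(10831, 10830)], 2),
    (7867, false, 1, [], [], [], [(10831, 10830)], 0),
    (8171, false, 1, [], [5], [(151, [(75, 2), (50, 3), (30, 5), (6, 5)])], [(10831, 10830)], 1),
    (8209, false, 1, [], [], [(151, [(75, 2), (50, 3), (30, 5), (6, 5)]), (821, [(410, 2), (205, 2), (164, 5), (20, 41)])], [(10831, 10830)], 2),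
    (8513, false, 1, [], [2, 19], [(181, [(90, 2), (45, 2), (60, 3), (20, 3), (36, 5)])], [(10831, 10830)], 1),
    (8627, false, 1, [], [], [(5, [(2, 2), (1, 2)]), (37, [(18, 2), (9, 2), (12, 3), (4, 3)]), (191, [(95, 2), (38, 5), (10, 19)]), (271, [(135, 2), (90, 3), (30, 3), (10, 3), (54, 5)])], [(10831, 10830)], 1),
    (8741, false, 1, [], [], [(31, [(15, 2), (10, 3), (6, 5)]), (151, [(75, 2), (50, 3), (30, 5), (6, 5)])], [(10831, 10830)], 1),
    (8779, false, 1, [], [], [], [(10831, 10830)], 0),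
    (8893, false, 1, [], [3], [(523, [(261, 2), (174, 3), (58, 3), (18, 29)])], [(10831, 10830)], 1),
    (8969, false, 1, [], [2, 19], [(181, [(90, 2), (45, 2), (60, 3), (20, 3), (36, 5)])], [(10831, 10830)], 1),
    (9007, false, 1, [], [], [], [(10831, 10830)], 0),
    (9311, false, 1, [], [5, 7], [(197, [(98, 2), (49, 2), (28, 7), (4, 7)]), (271, [(135, 2), (90, 3), (30, 3), (10, 3), (54, 5)]), (463, [(231, 2), (154, 3), (66, 7), (42, 11)])], [(10831, 10830)], 2),
    (9349, false, 1, [], [3], [(127, [(63, 2), (42, 3), (14, 3), (18, 7)]), (193, [(96, 2), (48, 2), (24, 2), (12, 2), (6, 2), (3, 2), (64, 3)]), (241, [(120, 2), (60, 2), (30, 2), (15, 2), (80, 3), (48, 5)])], [(10831, 10830)], 1),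
    (9463, false, 1, [], [], [(13, [(6, 2), (3, 2), (4, 3)]), (181, [(90, 2), (45, 2), (60, 3), (20, 3), (36, 5)])], [(10831, 10830)], 1),
    (9539, false, 1, [], [19], [(53, [(26, 2), (13, 2), (4, 13)]), (181, [(90, 2), (45, 2), (60, 3), (20, 3), (36, 5)])], [(10831, 10830)], 1)] 1500 6703 = true := by
  decide +kernel

theorem ck19_9703 : chunk WW (search 1 ef19 fqT GT FN19 4 19) 19
    [(9767, false, 1, [], [], [(37, [(18, 2), (9, 2), (12, 3), (4, 3)]), (199, [(99, 2), (66, 3), (22, 3), (18, 11)]), (271, [(135, 2), (90, 3), (30, 3), (10, 3), (54, 5)]), (331, [(165, 2), (110, 3), (66, 5), (30, 11)])], [(10831, 10830)], 2),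
    (10223, false, 1, [], [], [(71, [(35, 2), (14, 5), (10, 7)]), (151, [(75, 2), (50, 3), (30, 5), (6, 5)])], [(10831, 10830)], 1),
    (10337, false, 1, [], [2], [(181, [(90, 2), (45, 2), (60, 3), (20, 3), (36, 5)])], [(10831, 10830)], 1),
    (10831, false, 1, [], [19], [], [(16607, 16606)], 0),
    (11059, false, 1, [], [], [(79, [(39, 2), (26, 3), (6, 13)]), (131, [(65, 2), (26, 5), (10, 13)])], [(10831, 10830)], 1),
    (11173, false, 1, [], [3, 7], [(71, [(35, 2), (14, 5), (10, 7)]), (197, [(98, 2), (49, 2), (28, 7), (4, 7)]), (271, [(135, 2), (90, 3), (30, 3), (10, 3), (54, 5)])], [(10831, 10830)], 2),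
    (11287, false, 1, [], [3], [(97, [(48, 2), (24, 2), (12, 2), (6, 2), (3, 2), (32, 3)]), (241, [(120, 2), (60, 2), (30, 2), (15, 2), (80, 3), (48, 5)]), (487, [(243, 2), (162, 3), (54, 3), (18, 3), (6, 3), (2, 3)])], [(10831, 10830)], 2),
    (11399, false, 1, [], [], [], [(4789, 798)], 0),
    (11743, false, 1, [], [3], [(7, [(3, 2), (2, 3)]), (31, [(15, 2), (10, 3), (6, 5)]), (151, [(75, 2), (50, 3), (30, 5), (6, 5)])], [(10831, 10830)], 1),
    (11933, false, 1, [], [], [(17, [(8, 2), (4, 2), (2, 2), (1, 2)]), (181, [(90, 2), (45, 2), (60, 3), (20, 3), (36, 5)])], [(10831, 10830)], 1),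
    (11939, false, 1, [], [], [(199, [(99, 2), (66, 3), (22, 3), (18, 11)]), (523, [(261, 2), (174, 3), (58, 3), (18, 29)])], [(4789, 798)], 1),
    (11971, false, 1, [], [], [], [(18773, 4693)], 0),
    (12161, false, 1, [], [2, 19], [(181, [(90, 2), (45, 2), (60, 3), (20, 3), (36, 5)])], [(10831, 10830)], 1),
    (12503, false, 1, [], [7], [(571, [(285, 2), (190, 3), (114, 5), (30, 19)]), (701, [(350, 2), (175, 2), (140, 5), (28, 5), (100, 7)]), (769, [(384, 2), (192, 2), (96, 2), (48, 2), (24, 2), (12, 2), (6, 2), (3, 2), (256, 3)]), (1201, [(600, 2), (300, 2), (150, 2), (75, 2), (400, 3), (240, 5), (48, 5)])], [(10831, 10830)], 2),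
    (12541, false, 1, [], [11, 19], [(23, [(11, 2), (2, 11)]), (89, [(44, 2), (22, 2), (11, 2), (8, 11)]), (181, [(90, 2), (45, 2), (60, 3), (20, 3), (36, 5)])], [(10831, 10830)], 1)] 1500 9703 = true := by
  decide +kernel

theorem ck19_12703 : chunk WW (search 1 ef19 fqT GT FN19 4 19) 19
    [(12959, true, 1, [(682, 19), (418, 31)], [], [], [(777541, 64795)], 0),
    (13187, false, 1, [], [], [(157, [(78, 2), (39, 2), (52, 3), (12, 13)]), (313, [(156, 2), (78, 2), (39, 2), (104, 3), (24, 13)])], [(10831, 10830)], 1),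
    (13339, false, 1, [], [13, 19], [(131, [(65, 2), (26, 5), (10, 13)])], [(10831, 10830)], 1),
    (13567, false, 1, [], [7], [(53, [(26, 2), (13, 2), (4, 13)]), (131, [(65, 2), (26, 5), (10, 13)]), (151, [(75, 2), (50, 3), (30, 5), (6, 5)]), (197, [(98, 2), (49, 2), (28, 7), (4, 7)]), (331, [(165, 2), (110, 3), (66, 5), (30, 11)]), (491, [(245, 2), (98, 5), (70, 7), (10, 7)])], [(10831, 10830)], 2),
    (13681, false, 1, [], [3, 5], [(151, [(75, 2), (50, 3), (30, 5), (6, 5)]), (523, [(261, 2), (174, 3), (58, 3), (18, 29)])], [(10831, 10830)], 1),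
    (13757, false, 1, [], [], [(5, [(2, 2), (1, 2)]), (53, [(26, 2), (13, 2), (4, 13)]), (157, [(78, 2), (39, 2), (52, 3), (12, 13)]), (191, [(95, 2), (38, 5), (10, 19)]), (271, [(135, 2), (90, 3), (30, 3), (10, 3), (54, 5)]), (599, [(299, 2), (46, 13), (26, 23)])], [(10831, 10830)], 2),
    (14251, false, 1, [], [5], [(251, [(125, 2), (50, 5), (10, 5), (2, 5)])], [(10831, 10830)], 1),
    (14327, false, 1, [], [13], [(131, [(65, 2), (26, 5), (10, 13)])], [(10831, 10830)], 1),
    (14479, false, 1, [], [3], [(191, [(95, 2), (38, 5), (10, 19)]), (271, [(135, 2), (90, 3), (30, 3), (10, 3), (54, 5)])], [(10831, 10830)], 1),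
    (14593, false, 1, [], [3, 19], [(61, [(30, 2), (15, 2), (20, 3), (12, 5)]), (151, [(75, 2), (50, 3), (30, 5), (6, 5)]), (457, [(228, 2), (114, 2), (57, 2), (152, 3), (24, 19)])], [(10831, 10830)], 2),
    (14669, false, 1, [], [], [(163, [(81, 2), (54, 3), (18, 3), (6, 3), (2, 3)]), (191, [(95, 2), (38, 5), (10, 19)]), (271, [(135, 2), (90, 3), (30, 3), (10, 3), (54, 5)])], [(10831, 10830)], 1),
    (14783, false, 1, [], [], [(11, [(5, 2), (2, 5)]), (151, [(75, 2), (50, 3), (30, 5), (6, 5)])], [(10831, 10830)], 1),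
    (14821, false, 1, [], [3], [(127, [(63, 2), (42, 3), (14, 3), (18, 7)]), (421, [(210, 2), (105, 2), (140, 3), (84, 5), (60, 7)]), (701, [(350, 2), (175, 2), (140, 5), (28, 5), (100, 7)])], [(10831, 10830)], 1),
    (14897, false, 1, [], [2], [(181, [(90, 2), (45, 2), (60, 3), (20, 3), (36, 5)])], [(10831, 10830)], 1),
    (15277, false, 1, [], [], [(5, [(2, 2), (1, 2)]), (181, [(90, 2), (45, 2), (60, 3), (20, 3), (36, 5)]), (541, [(270, 2), (135, 2), (180, 3), (60, 3), (20, 3), (108, 5)]), (569, [(284, 2), (142, 2), (71, 2), (8, 71)]), (811, [(405, 2), (270, 3), (90, 3), (30, 3), (10, 3), (162, 5)])], [(10831, 10830)], 2),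
    (15391, false, 1, [], [5], [(151, [(75, 2), (50, 3), (30, 5), (6, 5)])], [(10831, 10830)], 1),
    (15467, false, 1, [], [19], [(181, [(90, 2), (45, 2), (60, 3), (20, 3), (36, 5)]), (1289, [(644, 2), (322, 2), (161, 2), (184, 7), (56, 23)])], [(10831, 10830)], 2),
    (15581, false, 1, [], [19], [(53, [(26, 2), (13, 2), (4, 13)]), (181, [(90, 2), (45, 2), (60, 3), (20, 3), (36, 5)])], [(10831, 10830)], 1),
    (15619, false, 1, [], [], [(71, [(35, 2), (14, 5), (10, 7)]), (151, [(75, 2), (50, 3), (30, 5), (6, 5)])], [(10831, 10830)], 1)] 1500 12703 = true := by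
  decide +kernel

theorem ck19_15703 : chunk WW (search 1 ef19 fqT GT FN19 4 19) 19
    [(15733, false, 1, [], [3], [(127, [(63, 2), (42, 3), (14, 3), (18, 7)]), (181, [(90, 2), (45, 2), (60, 3), (20, 3), (36, 5)]), (449, [(224, 2), (112, 2), (56, 2), (28, 2), (14, 2), (7, 2), (64, 7)])], [(10831, 10830)], 2),
    (15809, false, 1, [], [2, 19], [(181, [(90, 2), (45, 2), (60, 3), (20, 3), (36, 5)])], [(10831, 10830)], 1),
    (15923, false, 1, [], [], [(131, [(65, 2), (26, 5), (10, 13)]), (191, [(95, 2), (38, 5), (10, 19)]), (229, [(114, 2), (57, 2), (76, 3), (12, 19)]), (313, [(156, 2), (78, 2), (39, 2), (104, 3), (24, 13)]), (641, [(320, 2), (160, 2), (80, 2), (40, 2), (20, 2), (10, 2), (5, 2), (128, 5)]), (769, [(384, 2), (192, 2), (96, 2), (48, 2), (24, 2), (12, 2), (6, 2), (3, 2), (256, 3)]), (911, [(455, 2), (182, 5), (130, 7), (70, 13)])], [(10831, 10830)], 3),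
    (16189, false, 1, [], [3], [(127, [(63, 2), (42, 3), (14, 3), (18, 7)])], [(10831, 10830)], 1),
    (16417, false, 1, [], [19], [], [(10831, 10830)], 0),
    (16493, false, 1, [], [7, 19], [(151, [(75, 2), (50, 3), (30, 5), (6, 5)]), (617, [(308, 2), (154, 2), (77, 2), (88, 7), (56, 11)]), (701, [(350, 2), (175, 2), (140, 5), (28, 5), (100, 7)]), (761, [(380, 2), (190, 2), (95, 2), (152, 5), (40, 19)]), (1217, [(608, 2), (304, 2), (152, 2), (76, 2), (38, 2), (19, 2), (64, 19)])], [(10831, 10830)], 4),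
    (16607, false, 1, [], [], [(173, [(86, 2), (43, 2), (4, 43)]), (181, [(90, 2), (45, 2), (60, 3), (20, 3), (36, 5)])], [(10831, 10830)], 1),
    (16759, false, 1, [], [3, 7], [(197, [(98, 2), (49, 2), (28, 7), (4, 7)]), (397, [(198, 2), (99, 2), (132, 3), (44, 3), (36, 11)]), (463, [(231, 2), (154, 3), (66, 7), (42, 11)]), (523, [(261, 2), (174, 3), (58, 3), (18, 29)]), (617, [(308, 2), (154, 2), (77, 2), (88, 7), (56, 11)]), (631, [(315, 2), (210, 3), (70, 3), (126, 5), (90, 7)]), (661, [(330, 2), (165, 2), (220, 3), (132, 5), (60, 11)])], [(10831, 10830)], 2),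
    (16987, false, 1, [], [3, 19], [(73, [(36, 2), (18, 2), (9, 2), (24, 3), (8, 3)]), (127, [(63, 2), (42, 3), (14, 3), (18, 7)]), (137, [(68, 2), (34, 2), (17, 2), (8, 17)]), (281, [(140, 2), (70, 2), (35, 2), (56, 5), (40, 7)]), (379, [(189, 2), (126, 3), (42, 3), (14, 3), (54, 7)]), (521, [(260, 2), (130, 2), (65, 2), (104, 5), (40, 13)])], [(10831, 10830)], 3),
    (17291, false, 1, [], [13], [(313, [(156, 2), (78, 2), (39, 2), (104, 3), (24, 13)]), (761, [(380, 2), (190, 2), (95, 2), (152, 5), (40, 19)]), (769, [(384, 2), (192, 2), (96, 2), (48, 2), (24, 2), (12, 2), (6, 2), (3, 2), (256, 3)]), (937, [(468, 2), (234, 2), (117, 2), (312, 3), (104, 3), (72, 13)])], [(10831, 10830)], 3),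
    (17443, false, 1, [], [3, 19], [(457, [(228, 2), (114, 2), (57, 2), (152, 3), (24, 19)])], [(10831, 10830)], 1),
    (17519, false, 1, [], [19], [], [(10831, 10830)], 0),
    (17747, false, 1, [], [], [(29, [(14, 2), (7, 2), (4, 7)]), (241, [(120, 2), (60, 2), (30, 2), (15, 2), (80, 3), (48, 5)]), (577, [(288, 2), (144, 2), (72, 2), (36, 2), (18, 2), (9, 2), (192, 3), (64, 3)]), (701, [(350, 2), (175, 2), (140, 5), (28, 5), (100, 7)])], [(10831, 10830)], 2),
    (18013, false, 1, [], [3], [(127, [(63, 2), (42, 3), (14, 3), (18, 7)]), (379, [(189, 2), (126, 3), (42, 3), (14, 3), (54, 7)]), (701, [(350, 2), (175, 2), (140, 5), (28, 5), (100, 7)])], [(10831, 10830)], 1),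
    (18089, false, 1, [], [2], [(181, [(90, 2), (45, 2), (60, 3), (20, 3), (36, 5)])], [(10831, 10830)], 1),
    (18127, false, 1, [], [], [(11, [(5, 2), (2, 5)]), (151, [(75, 2), (50, 3), (30, 5), (6, 5)])], [(10831, 10830)], 1),
    (18583, false, 1, [], [], [(101, [(50, 2), (25, 2), (20, 5), (4, 5)]), (151, [(75, 2), (50, 3), (30, 5), (6, 5)])], [(10831, 10830)], 1)] 1500 15703 = true := by
  decide +kernel

theorem ck19_18703 : chunk WW (search 1 ef19 fqT GT FN19 4 19) 19
    [(18773, false, 1, [], [13], [(131, [(65, 2), (26, 5), (10, 13)])], [(10831, 10830)], 1),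
    (19001, false, 1, [], [5], [(31, [(15, 2), (10, 3), (6, 5)]), (127, [(63, 2), (42, 3), (14, 3), (18, 7)]), (251, [(125, 2), (50, 5), (10, 5), (2, 5)])], [(10831, 10830)], 2),
    (19267, false, 1, [], [13, 19], [(131, [(65, 2), (26, 5), (10, 13)])], [(10831, 10830)], 1),
    (19381, false, 1, [], [3, 5], [(151, [(75, 2), (50, 3), (30, 5), (6, 5)]), (271, [(135, 2), (90, 3), (30, 3), (10, 3), (54, 5)])], [(10831, 10830)], 1),
    (19457, false, 1, [], [19], [(47, [(23, 2), (2, 23)]), (277, [(138, 2), (69, 2), (92, 3), (12, 23)])], [(10831, 10830)], 1),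
    (19571, false, 1, [], [5], [(7, [(3, 2), (2, 3)]), (271, [(135, 2), (90, 3), (30, 3), (10, 3), (54, 5)])], [(10831, 10830)], 1),
    (19609, false, 1, [], [3, 19], [(53, [(26, 2), (13, 2), (4, 13)]), (127, [(63, 2), (42, 3), (14, 3), (18, 7)]), (131, [(65, 2), (26, 5), (10, 13)])], [(10831, 10830)], 1),
    (19913, false, 1, [], [], [(5, [(2, 2), (1, 2)]), (181, [(90, 2), (45, 2), (60, 3), (20, 3), (36, 5)]), (397, [(198, 2), (99, 2), (132, 3), (44, 3), (36, 11)]), (769, [(384, 2), (192, 2), (96, 2), (48, 2), (24, 2), (12, 2), (6, 2), (3, 2), (256, 3)]), (859, [(429, 2), (286, 3), (78, 11), (66, 13)])], [(10831, 10830)], 3),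
    (20369, false, 1, [], [2, 19], [(181, [(90, 2), (45, 2), (60, 3), (20, 3), (36, 5)])], [(10831, 10830)], 1),
    (20407, false, 1, [], [], [(191, [(95, 2), (38, 5), (10, 19)]), (911, [(455, 2), (182, 5), (130, 7), (70, 13)])], [(10831, 10830)], 1),
    (20483, false, 1, [], [7, 19], [(13, [(6, 2), (3, 2), (4, 3)]), (61, [(30, 2), (15, 2), (20, 3), (12, 5)]), (127, [(63, 2), (42, 3), (14, 3), (18, 7)]), (151, [(75, 2), (50, 3), (30, 5), (6, 5)]), (197, [(98, 2), (49, 2), (28, 7), (4, 7)])], [(10831, 10830)], 3),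
    (20521, false, 1, [], [3], [(181, [(90, 2), (45, 2), (60, 3), (20, 3), (36, 5)]), (523, [(261, 2), (174, 3), (58, 3), (18, 29)]), (829, [(414, 2), (207, 2), (276, 3), (92, 3), (36, 23)])], [(10831, 10830)], 2),
    (20749, false, 1, [], [7, 13], [(191, [(95, 2), (38, 5), (10, 19)]), (197, [(98, 2), (49, 2), (28, 7), (4, 7)]), (313, [(156, 2), (78, 2), (39, 2), (104, 3), (24, 13)]), (337, [(168, 2), (84, 2), (42, 2), (21, 2), (112, 3), (48, 7)]), (571, [(285, 2), (190, 3), (114, 5), (30, 19)])], [(10831, 10830)], 1),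
    (20939, false, 1, [], [], [(127, [(63, 2), (42, 3), (14, 3), (18, 7)]), (349, [(174, 2), (87, 2), (116, 3), (12, 29)]), (379, [(189, 2), (126, 3), (42, 3), (14, 3), (54, 7)]), (701, [(350, 2), (175, 2), (140, 5), (28, 5), (100, 7)])], [(10831, 10830)], 2),
    (21319, false, 1, [], [], [(41, [(20, 2), (10, 2), (5, 2), (8, 5)]), (151, [(75, 2), (50, 3), (30, 5), (6, 5)])], [(10831, 10830)], 1),
    (21433, false, 1, [], [2], [(181, [(90, 2), (45, 2), (60, 3), (20, 3), (36, 5)])], [(10831, 10830)], 1),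
    (21661, false, 1, [], [3, 5, 19], [(151, [(75, 2), (50, 3), (30, 5), (6, 5)]), (457, [(228, 2), (114, 2), (57, 2), (152, 3), (24, 19)]), (521, [(260, 2), (130, 2), (65, 2), (104, 5), (40, 13)]), (599, [(299, 2), (46, 13), (26, 23)])], [(18773, 4693)], 1)] 1500 18703 = true := by
  decide +kernel

theorem ck19_21703 : chunk WW (search 1 ef19 fqT GT FN19 4 19) 19
    [(21737, false, 1, [], [], [], [(10831, 10830)], 0),
    (21851, false, 1, [], [5], [(101, [(50, 2), (25, 2), (20, 5), (4, 5)]), (157, [(78, 2), (39, 2), (52, 3), (12, 13)]), (313, [(156, 2), (78, 2), (39, 2), (104, 3), (24, 13)])], [(10831, 10830)], 1),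
    (22003, false, 1, [], [], [(151, [(75, 2), (50, 3), (30, 5), (6, 5)]), (191, [(95, 2), (38, 5), (10, 19)])], [(10831, 10830)], 2),
    (22079, false, 1, [], [7, 19], [(701, [(350, 2), (175, 2), (140, 5), (28, 5), (100, 7)]), (911, [(455, 2), (182, 5), (130, 7), (70, 13)]), (1301, [(650, 2), (325, 2), (260, 5), (52, 5), (100, 13)]), (1481, [(740, 2), (370, 2), (185, 2), (296, 5), (40, 37)]), (1483, [(741, 2), (494, 3), (114, 13), (78, 19)])], [(10831, 10830)], 2),
    (22193, false, 1, [], [], [(137, [(68, 2), (34, 2), (17, 2), (8, 17)]), (181, [(90, 2), (45, 2), (60, 3), (20, 3), (36, 5)])], [(10831, 10830)], 1),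
    (22307, false, 1, [], [], [(13, [(6, 2), (3, 2), (4, 3)]), (271, [(135, 2), (90, 3), (30, 3), (10, 3), (54, 5)]), (641, [(320, 2), (160, 2), (80, 2), (40, 2), (20, 2), (10, 2), (5, 2), (128, 5)]), (769, [(384, 2), (192, 2), (96, 2), (48, 2), (24, 2), (12, 2), (6, 2), (3, 2), (256, 3)])], [(10831, 10830)], 3),
    (22573, false, 1, [], [3], [(37, [(18, 2), (9, 2), (12, 3), (4, 3)]), (241, [(120, 2), (60, 2), (30, 2), (15, 2), (80, 3), (48, 5)]), (523, [(261, 2), (174, 3), (58, 3), (18, 29)]), (577, [(288, 2), (144, 2), (72, 2), (36, 2), (18, 2), (9, 2), (192, 3), (64, 3)]), (769, [(384, 2), (192, 2), (96, 2), (48, 2), (24, 2), (12, 2), (6, 2), (3, 2), (256, 3)])], [(10831, 10830)], 4),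
    (22877, false, 1, [], [7], [(71, [(35, 2), (14, 5), (10, 7)]), (197, [(98, 2), (49, 2), (28, 7), (4, 7)]), (491, [(245, 2), (98, 5), (70, 7), (10, 7)])], [(10831, 10830)], 2),
    (23029, false, 1, [], [19], [(47, [(23, 2), (2, 23)]), (139, [(69, 2), (46, 3), (6, 23)]), (277, [(138, 2), (69, 2), (92, 3), (12, 23)]), (571, [(285, 2), (190, 3), (114, 5), (30, 19)]), (661, [(330, 2), (165, 2), (220, 3), (132, 5), (60, 11)]), (769, [(384, 2), (192, 2), (96, 2), (48, 2), (24, 2), (12, 2), (6, 2), (3, 2), (256, 3)])], [(10831, 10830)], 2),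
    (23143, false, 1, [], [3], [(127, [(63, 2), (42, 3), (14, 3), (18, 7)])], [(10831, 10830)], 1),
    (23333, false, 1, [], [], [(5, [(2, 2), (1, 2)]), (73, [(36, 2), (18, 2), (9, 2), (24, 3), (8, 3)]), (181, [(90, 2), (45, 2), (60, 3), (20, 3), (36, 5)])], [(10831, 10830)], 1),
    (23371, false, 1, [], [5], [(151, [(75, 2), (50, 3), (30, 5), (6, 5)])], [(10831, 10830)], 1),
    (23447, false, 1, [], [19], [(5, [(2, 2), (1, 2)]), (17, [(8, 2), (4, 2), (2, 2), (1, 2)]), (181, [(90, 2), (45, 2), (60, 3), (20, 3), (36, 5)])], [(10831, 10830)], 1),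
    (23561, false, 1, [], [5], [(151, [(75, 2), (50, 3), (30, 5), (6, 5)])], [(10831, 10830)], 1),
    (23599, false, 1, [], [3], [(37, [(18, 2), (9, 2), (12, 3), (4, 3)]), (127, [(63, 2), (42, 3), (14, 3), (18, 7)]), (181, [(90, 2), (45, 2), (60, 3), (20, 3), (36, 5)])], [(10831, 10830)], 2),
    (23789, false, 1, [], [], [(61, [(30, 2), (15, 2), (20, 3), (12, 5)]), (911, [(455, 2), (182, 5), (130, 7), (70, 13)])], [(10831, 10830)], 1),
    (23827, false, 1, [], [3], [(53, [(26, 2), (13, 2), (4, 13)]), (97, [(48, 2), (24, 2), (12, 2), (6, 2), (3, 2), (32, 3)]), (127, [(63, 2), (42, 3), (14, 3), (18, 7)]), (131, [(65, 2), (26, 5), (10, 13)]), (577, [(288, 2), (144, 2), (72, 2), (36, 2), (18, 2), (9, 2), (192, 3), (64, 3)])], [(10831, 10830)], 3),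
    (24169, false, 1, [], [2, 3], [(13, [(6, 2), (3, 2), (4, 3)]), (97, [(48, 2), (24, 2), (12, 2), (6, 2), (3, 2), (32, 3)]), (241, [(120, 2), (60, 2), (30, 2), (15, 2), (80, 3), (48, 5)])], [(10831, 10830)], 1),
    (24359, false, 1, [], [], [(29, [(14, 2), (7, 2), (4, 7)]), (181, [(90, 2), (45, 2), (60, 3), (20, 3), (36, 5)])], [(10831, 10830)], 1),
    (24473, false, 1, [], [7], [(173, [(86, 2), (43, 2), (4, 43)]), (181, [(90, 2), (45, 2), (60, 3), (20, 3), (36, 5)]), (197, [(98, 2), (49, 2), (28, 7), (4, 7)])], [(32491, 10830)], 2)] 1500 21703 = true := by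
  decide +kernel

theorem ck19_24703 : chunk WW (search 1 ef19 fqT GT FN19 4 19) 19
    [(24967, false, 1, [], [3], [(5, [(2, 2), (1, 2)]), (13, [(6, 2), (3, 2), (4, 3)]), (181, [(90, 2), (45, 2), (60, 3), (20, 3), (36, 5)]), (191, [(95, 2), (38, 5), (10, 19)]), (523, [(261, 2), (174, 3), (58, 3), (18, 29)])], [(10831, 10830)], 2),
    (25309, false, 1, [], [], [], [(21661, 570)], 0),
    (25423, false, 1, [], [3], [(127, [(63, 2), (42, 3), (14, 3), (18, 7)]), (673, [(336, 2), (168, 2), (84, 2), (42, 2), (21, 2), (224, 3), (96, 7)]), (701, [(350, 2), (175, 2), (140, 5), (28, 5), (100, 7)])], [(10831, 10830)], 1),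
    (25537, false, 1, [], [3], [(113, [(56, 2), (28, 2), (14, 2), (7, 2), (16, 7)]), (601, [(300, 2), (150, 2), (75, 2), (200, 3), (120, 5), (24, 5)]), (769, [(384, 2), (192, 2), (96, 2), (48, 2), (24, 2), (12, 2), (6, 2), (3, 2), (256, 3)]), (911, [(455, 2), (182, 5), (130, 7), (70, 13)])], [(10831, 10830)], 2),
    (25841, false, 1, [], [19], [(73, [(36, 2), (18, 2), (9, 2), (24, 3), (8, 3)]), (199, [(99, 2), (66, 3), (22, 3), (18, 11)])], [(10831, 10830)], 1),
    (26107, false, 1, [], [3], [(7, [(3, 2), (2, 3)]), (43, [(21, 2), (14, 3), (6, 7)]), (701, [(350, 2), (175, 2), (140, 5), (28, 5), (100, 7)])], [(10831, 10830)], 1),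
    (26183, false, 1, [], [13], [(313, [(156, 2), (78, 2), (39, 2), (104, 3), (24, 13)]), (673, [(336, 2), (168, 2), (84, 2), (42, 2), (21, 2), (224, 3), (96, 7)]), (701, [(350, 2), (175, 2), (140, 5), (28, 5), (100, 7)])], [(10831, 10830)], 1),
    (26297, false, 1, [], [2, 19], [(181, [(90, 2), (45, 2), (60, 3), (20, 3), (36, 5)])], [(10831, 10830)], 1),
    (26449, false, 1, [], [2, 3], [(31, [(15, 2), (10, 3), (6, 5)]), (271, [(135, 2), (90, 3), (30, 3), (10, 3), (54, 5)]), (769, [(384, 2), (192, 2), (96, 2), (48, 2), (24, 2), (12, 2), (6, 2), (3, 2), (256, 3)])], [(10831, 10830)], 2),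
    (26903, false, 1, [], [], [(59, [(29, 2), (2, 29)]), (233, [(116, 2), (58, 2), (29, 2), (8, 29)])], [(4409, 116)], 1),
    (26981, false, 1, [], [5], [(151, [(75, 2), (50, 3), (30, 5), (6, 5)])], [(10831, 10830)], 1),
    (27361, false, 1, [], [5], [(151, [(75, 2), (50, 3), (30, 5), (6, 5)])], [(10831, 10830)], 1),
    (27437, false, 1, [], [19], [(181, [(90, 2), (45, 2), (60, 3), (20, 3), (36, 5)]), (269, [(134, 2), (67, 2), (4, 67)])], [(10831, 10830)], 2),
    (27551, false, 1, [], [], [(41, [(20, 2), (10, 2), (5, 2), (8, 5)]), (181, [(90, 2), (45, 2), (60, 3), (20, 3), (36, 5)]), (911, [(455, 2), (182, 5), (130, 7), (70, 13)])], [(10831, 10830)], 1)] 1500 24703 = true := by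
  decide +kernel

theorem ck19_27703 : chunk WW (search 1 ef19 fqT GT FN19 4 19) 19
    [(27779, false, 1, [], [], [(463, [(231, 2), (154, 3), (66, 7), (42, 11)]), (769, [(384, 2), (192, 2), (96, 2), (48, 2), (24, 2), (12, 2), (6, 2), (3, 2), (256, 3)]), (859, [(429, 2), (286, 3), (78, 11), (66, 13)]), (881, [(440, 2), (220, 2), (110, 2), (55, 2), (176, 5), (80, 11)]), (911, [(455, 2), (182, 5), (130, 7), (70, 13)])], [(10831, 10830)], 2),
    (27817, false, 1, [], [3], [(191, [(95, 2), (38, 5), (10, 19)]), (271, [(135, 2), (90, 3), (30, 3), (10, 3), (54, 5)])], [(10831, 10830)], 1),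
    (27893, false, 1, [], [], [(5, [(2, 2), (1, 2)]), (13, [(6, 2), (3, 2), (4, 3)]), (131, [(65, 2), (26, 5), (10, 13)]), (769, [(384, 2), (192, 2), (96, 2), (48, 2), (24, 2), (12, 2), (6, 2), (3, 2), (256, 3)]), (1249, [(624, 2), (312, 2), (156, 2), (78, 2), (39, 2), (416, 3), (96, 13)])], [(10831, 10830)], 2),
    (28349, false, 1, [], [19], [(7, [(3, 2), (2, 3)]), (127, [(63, 2), (42, 3), (14, 3), (18, 7)]), (271, [(135, 2), (90, 3), (30, 3), (10, 3), (54, 5)]), (911, [(455, 2), (182, 5), (130, 7), (70, 13)])], [(10831, 10830)], 1),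
    (28387, false, 1, [], [19], [(5, [(2, 2), (1, 2)]), (181, [(90, 2), (45, 2), (60, 3), (20, 3), (36, 5)]), (593, [(296, 2), (148, 2), (74, 2), (37, 2), (16, 37)])], [(10831, 10830)], 2),
    (28463, false, 1, [], [7], [(241, [(120, 2), (60, 2), (30, 2), (15, 2), (80, 3), (48, 5)]), (577, [(288, 2), (144, 2), (72, 2), (36, 2), (18, 2), (9, 2), (192, 3), (64, 3)]), (701, [(350, 2), (175, 2), (140, 5), (28, 5), (100, 7)])], [(10831, 10830)], 2),
    (28729, false, 1, [], [3], [(523, [(261, 2), (174, 3), (58, 3), (18, 29)])], [(10831, 10830)], 1),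
    (28843, false, 1, [], [11, 19], [(5, [(2, 2), (1, 2)]), (29, [(14, 2), (7, 2), (4, 7)]), (191, [(95, 2), (38, 5), (10, 19)]), (197, [(98, 2), (49, 2), (28, 7), (4, 7)]), (211, [(105, 2), (70, 3), (42, 5), (30, 7)]), (331, [(165, 2), (110, 3), (66, 5), (30, 11)]), (491, [(245, 2), (98, 5), (70, 7), (10, 7)])], [(10831, 10830)], 2),
    (29033, false, 1, [], [], [(5, [(2, 2), (1, 2)]), (761, [(380, 2), (190, 2), (95, 2), (152, 5), (40, 19)]), (1901, [(950, 2), (475, 2), (380, 5), (76, 5), (100, 19)])], [(21661, 570)], 1),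
    (29147, false, 1, [], [], [], [(10831, 10830)], 0),
    (29527, false, 1, [], [7], [(701, [(350, 2), (175, 2), (140, 5), (28, 5), (100, 7)])], [(10831, 10830)], 1),
    (29641, false, 1, [], [5], [(151, [(75, 2), (50, 3), (30, 5), (6, 5)])], [(10831, 10830)], 1),
    (29717, false, 1, [], [], [(13, [(6, 2), (3, 2), (4, 3)]), (181, [(90, 2), (45, 2), (60, 3), (20, 3), (36, 5)])], [(10831, 10830)], 1),
    (29983, false, 1, [], [19], [(5, [(2, 2), (1, 2)]), (191, [(95, 2), (38, 5), (10, 19)]), (521, [(260, 2), (130, 2), (65, 2), (104, 5), (40, 13)]), (541, [(270, 2), (135, 2), (180, 3), (60, 3), (20, 3), (108, 5)]), (811, [(405, 2), (270, 3), (90, 3), (30, 3), (10, 3), (162, 5)])], [(10831, 10830)], 2)] 1149 27703 = true := by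
  decide +kernel

theorem ck23_25 : chunk 30 (search 1 ef23 fqT GT FN23 4 23) 23
    [] 2 25 = true := by
  decide +kernel

theorem ck23_29 : chunk W23 (search 1 ef23 fqT GT FN23 4 23) 23
    [(47, true, 1, [(2, 23)], [], [(61, [(30, 2), (15, 2), (20, 3), (12, 5)]), (139, [(69, 2), (46, 3), (6, 23)])], [(5641, 940)], 2),
    (139, true, 1, [(6, 23)], [], [(7, [(3, 2), (2, 3)])], [(1669, 417)], 1),
    (277, true, 1, [(92, 3), (12, 23)], [], [], [(7757, 1939)], 0),
    (461, true, 1, [(20, 23)], [], [(7, [(3, 2), (2, 3)]), (79, [(39, 2), (26, 3), (6, 13)])], [(2767, 1383)], 1),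
    (599, true, 1, [(46, 13), (26, 23)], [], [], [(4793, 2396)], 0),
    (691, true, 1, [(230, 3), (30, 23)], [], [], [(8293, 1382)], 0)] 337 29 = true := by
  decide +kernel

theorem ck23_703 : chunk WW (search 1 ef23 fqT GT FN23 4 23) 23
    [(829, true, 1, [(276, 3), (92, 3), (36, 23)], [], [], [(9949, 4974)], 0),
    (967, true, 1, [(138, 7), (42, 23)], [], [], [(27077, 13538)], 0),
    (1013, true, 1, [(44, 23)], [], [(139, [(69, 2), (46, 3), (6, 23)])], [(12157, 3039)], 1),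
    (1151, true, 1, [(230, 5), (46, 5), (50, 23)], [], [], [(6907, 2302)], 0),
    (1289, true, 1, [(56, 23)], [], [], [(2579, 1289)], 0),
    (1381, true, 1, [(460, 3), (276, 5), (60, 23)], [], [], [(16573, 4143)], 0),
    (1427, true, 1, [(62, 23), (46, 31)], [], [(7, [(3, 2), (2, 3)]), (17, [(8, 2), (4, 2), (2, 2), (1, 2)]), (37, [(18, 2), (9, 2), (12, 3), (4, 3)])], [(8563, 8562)], 1),
    (1657, true, 1, [(207, 2), (552, 3), (184, 3), (72, 23)], [], [], [(39769, 19884)], 0),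
    (1933, true, 1, [(644, 3), (84, 23)], [], [], [(57991, 5799)], 0),
    (1979, true, 1, [(86, 23), (46, 43)], [], [(5, [(2, 2), (1, 2)]), (53, [(26, 2), (13, 2), (4, 13)]), (461, [(230, 2), (115, 2), (92, 5), (20, 23)]), (521, [(260, 2), (130, 2), (65, 2), (104, 5), (40, 13)])], [(39581, 9895)], 1),
    (2207, false, 1, [], [1103], [(15443, [(7721, 2), (2206, 7), (14, 1103)])], [(3221, 805)], 1),
    (2347, false, 1, [], [17], [(239, [(119, 2), (34, 7), (14, 17)])], [(17987, 17986)], 1),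
    (2393, false, 1, [], [], [], [(14813, 1058)], 0)] 899 703 = true := by
  decide +kernel

theorem ck29_31 : chunk W23 (search 1 ef29 fqT GT FN29 4 29) 29
    [(59, true, 1, [(2, 29)], [], [], [(9677, 4838)], 0),
    (233, true, 1, [(8, 29)], [], [], [(2797, 233)], 0),
    (349, true, 1, [(116, 3), (12, 29)], [], [], [(8377, 349)], 0),
    (523, true, 1, [(174, 3), (58, 3), (18, 29)], [], [], [(6277, 1046)], 0),
    (563, false, 1, [(7, 2)], [], [(47, [(23, 2), (2, 23)]), (1093, [(546, 2), (273, 2), (364, 3), (156, 7), (84, 13)]), (1289, [(644, 2), (322, 2), (161, 2), (184, 7), (56, 23)])], [(11369, 812)], 1),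
    (587, false, 1, [(4, 7)], [], [], [(20707, 493)], 0)] 336 31 = true := by
  decide +kernel

end Pool.Agent.NearSuper255
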