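import Pool.Agent.NearSuper255.Tab

/-!
# Ranges of excluded pairs, file 8
-/

namespace Pool.Agent.NearSuper255

theorem ck29_703 : chunk WW (search 1 ef29 fqT GT FN29 4 29) 29
    [(829, true, 1, [(36, 23)], [2], [(41, [(20, 2), (10, 2), (5, 2), (8, 5)])], [(8291, 4145)], 1),
    (929, true, 1, [(116, 2), (58, 2), (29, 2), (32, 29)], [], [], [(7433, 3716)], 0),
    (1103, false, 1, [], [19], [(23, [(11, 2), (2, 11)]), (59, [(29, 2), (2, 29)]), (229, [(114, 2), (57, 2), (76, 3), (12, 19)]), (419, [(209, 2), (38, 11), (22, 19)]), (421, [(210, 2), (105, 2), (140, 3), (84, 5), (60, 7)])], [(10093, 5046)], 2),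
    (1277, true, 1, [(116, 11), (44, 29)], [], [(23, [(11, 2), (2, 11)]), (31, [(15, 2), (10, 3), (6, 5)]), (71, [(35, 2), (14, 5), (10, 7)]), (97, [(48, 2), (24, 2), (12, 2), (6, 2), (3, 2), (32, 3)]), (181, [(90, 2), (45, 2), (60, 3), (20, 3), (36, 5)]), (199, [(99, 2), (66, 3), (22, 3), (18, 11)])], [(30649, 5108)], 4)] 299 703 = true := by
  decide +kernel

theorem ck31_33 : chunk W23 (search 1 ef31 fqT GT FN31 4 31) 31
    [(311, true, 1, [(62, 5), (10, 31)], [], [(41, [(20, 2), (10, 2), (5, 2), (8, 5)]), (137, [(68, 2), (34, 2), (17, 2), (8, 17)])], [(6221, 1555)], 1),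
    (373, true, 1, [(12, 31)], [], [], [(1493, 373)], 0),
    (619, true, 1, [(6, 103)], [], [], [(2477, 619)], 0),
    (683, true, 1, [(62, 11), (22, 31)], [], [(19, [(9, 2), (6, 3), (2, 3)]), (67, [(33, 2), (22, 3), (6, 11)])], [(4099, 4098)], 1)] 335 33 = true := by
  decide +kernel

theorem ck31_703 : chunk WW (search 1 ef31 fqT GT FN31 4 31) 31
    [(743, true, 1, [(106, 7), (14, 53)], [], [(41, [(20, 2), (10, 2), (5, 2), (8, 5)]), (61, [(30, 2), (15, 2), (20, 3), (12, 5)]), (101, [(50, 2), (25, 2), (20, 5), (4, 5)]), (1061, [(530, 2), (265, 2), (212, 5), (20, 53)])], [(59441, 29720)], 3)] 99 703 = true := by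
  decide +kernel

theorem ck37_39 : chunk W23 (search 1 ef37 fqT GT FN37 4 37) 37
    [] 332 39 = true := by
  decide +kernel

theorem ck37_703 : chunk WW (search 1 ef37 fqT GT FN37 4 37) 37
    [] 49 703 = true := by
  decide +kernel

theorem ck41_43 : chunk W23 (search 1 ef41 fqT GT FN41 4 41) 41
    [(83, true, 1, [(2, 41)], [], [], [(13613, 3403)], 0),
    (167, false, 1, [(10, 2), (5, 2)], [], [(2789, [(1394, 2), (697, 2), (164, 17), (68, 41)])], [(12547, 6273)], 1)] 109 43 = true := by
  decide +kernel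

theorem ck43_45 : chunk W23 (search 1 ef43 fqT GT FN43 4 43) 43
    [(173, true, 1, [(4, 43)], [], [(29, [(14, 2), (7, 2), (4, 7)]), (37, [(18, 2), (9, 2), (12, 3), (4, 3)]), (109, [(54, 2), (27, 2), (36, 3), (12, 3), (4, 3)])], [(6229, 1557)], 1)] 98 45 = true := by
  decide +kernel

theorem ck47_49 : chunk W23 (search 1 ef47 fqT GT FN47 4 47) 47
    [] 96 49 = true := by
  decide +kernel

theorem ck53_55 : chunk W23 (search 1 ef53 fqT GT FN53 4 53) 53
    [(59, true, 1, [(2, 29)], [], [], [], 0),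
    (107, true, 1, [(2, 53)], [], [], [(5779, 5778)], 0),
    (293, true, 1, [(4, 73)], [], [], [(587, 293)], 0),
    (347, false, 1, [(4, 13)], [], [(29, [(14, 2), (7, 2), (4, 7)]), (239, [(119, 2), (34, 7), (14, 17)]), (443, [(221, 2), (34, 13), (26, 17)])], [(5407, 2703)], 2),
    (509, true, 1, [(4, 127)], [], [(17, [(8, 2), (4, 2), (2, 2), (1, 2)])], [(4073, 2036)], 1)] 324 55 = true := by
  decide +kernel

theorem ck53_703 : chunk WW (search 1 ef53 fqT GT FN53 4 53) 53
    [(743, true, 1, [(106, 7), (14, 53)], [], [], [(1487, 1486)], 0),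
    (863, false, 1, [(4, 13)], [], [(47, [(23, 2), (2, 23)]), (599, [(299, 2), (46, 13), (26, 23)])], [(4877, 2438)], 2),
    (1061, true, 1, [(212, 5), (20, 53)], [], [], [(38197, 3183)], 0),
    (1483, false, 1, [], [3], [(409, [(204, 2), (102, 2), (51, 2), (136, 3), (24, 17)])], [(10177, 848)], 1)] 449 703 = true := by
  decide +kernel

theorem ck59_61 : chunk W23 (search 1 ef59 fqT GT FN59 4 59) 59
    [(269, true, 1, [(67, 2), (4, 67)], [], [], [(5381, 2690)], 0),
    (277, false, 1, [(2, 29)], [23], [(47, [(23, 2), (2, 23)]), (53, [(26, 2), (13, 2), (4, 13)]), (313, [(156, 2), (78, 2), (39, 2), (104, 3), (24, 13)]), (599, [(299, 2), (46, 13), (26, 23)])], [(10267, 10266)], 2),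
    (347, true, 1, [(2, 173)], [], [], [(16657, 2776)], 0),
    (353, false, 1, [], [2], [(337, [(168, 2), (84, 2), (42, 2), (21, 2), (112, 3), (48, 7)])], [(14869, 126)], 1),
    (359, false, 1, [(2, 29)], [], [(233, [(116, 2), (58, 2), (29, 2), (8, 29)])], [(10267, 10266)], 1),
    (383, false, 1, [(2, 29)], [], [(5, [(2, 2), (1, 2)])], [(14869, 126)], 1)] 170 61 = true := by
  decide +kernel

theorem ck61_63 : chunk W23 (search 1 ef61 fqT GT FN61 4 61) 61
    [] 134 63 = true := by
  decide +kernel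

theorem ck67_69 : chunk W23 (search 1 ef67 fqT GT FN67 4 67) 67
    [] 86 69 = true := by
  decide +kernel

theorem ck71_73 : chunk W23 (search 1 ef71 fqT GT FN71 4 71) 71
    [(179, true, 1, [(2, 89)], [], [], [(359, 358)], 0),
    (239, true, 1, [(14, 17)], [], [], [(3347, 3346)], 0)] 84 73 = true := by
  decide +kernel

theorem ck73_75 : chunk W23 (search 1 ef73 fqT GT FN73 4 73) 73
    [] 83 75 = true := by
  decide +kernel

theorem ck79_81 : chunk W23 (search 1 ef79 fqT GT FN79 4 79) 79
    [] 80 81 = true := by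
  decide +kernel

theorem ck83_85 : chunk W23 (search 1 ef83 fqT GT FN83 4 83) 83
    [(167, true, 1, [(2, 83)], [], [], [(2339, 2338)], 0)] 78 85 = true := by
  decide +kernel

theorem ck89_91 : chunk W23 (search 1 ef89 fqT GT FN89 4 89) 89
    [(179, true, 1, [(2, 89)], [], [], [(3581, 895)], 0)] 75 91 = true := by
  decide +kernel

theorem ck97_99 : chunk W23 (search 1 ef97 fqT GT FN97 4 97) 97
    [(389, true, 1, [(4, 97)], [], [(13, [(6, 2), (3, 2), (4, 3)])], [(9337, 2334)], 1)] 302 99 = true := by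
  decide +kernel

theorem ck97_703 : chunk WW (search 1 ef97 fqT GT FN97 4 97) 97
    [(971, true, 1, [(194, 5), (10, 97)], [], [], [(25247, 25246)], 0),
    (1553, true, 1, [(16, 97)], [], [(37, [(18, 2), (9, 2), (12, 3), (4, 3)])], [(46591, 7765)], 1),
    (1747, true, 1, [(582, 3), (194, 3), (18, 97)], [], [(17, [(8, 2), (4, 2), (2, 2), (1, 2)]), (23, [(11, 2), (2, 11)]), (89, [(44, 2), (22, 2), (11, 2), (8, 11)])], [(27953, 3494)], 2),
    (1879, true, 1, [(6, 313)], [], [], [(7517, 1879)], 0),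
    (3299, false, 1, [], [], [(11, [(5, 2), (2, 5)]), (31, [(15, 2), (10, 3), (6, 5)]), (73, [(36, 2), (18, 2), (9, 2), (24, 3), (8, 3)]), (139, [(69, 2), (46, 3), (6, 23)]), (151, [(75, 2), (50, 3), (30, 5), (6, 5)]), (277, [(138, 2), (69, 2), (92, 3), (12, 23)])], [(112909, 56454)], 3)] 1500 703 = true := by
  decide +kernel

theorem ck97_3703 : chunk WW (search 1 ef97 fqT GT FN97 4 97) 97
    [(3881, false, 1, [], [2], [(421, [(210, 2), (105, 2), (140, 3), (84, 5), (60, 7)]), (941, [(470, 2), (235, 2), (188, 5), (20, 47)]), (967, [(483, 2), (322, 3), (138, 7), (42, 23)])], [(112909, 56454)], 2),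
    (4463, false, 1, [], [], [(7, [(3, 2), (2, 3)])], [(112909, 56454)], 1),
    (4657, false, 1, [], [3], [(139, [(69, 2), (46, 3), (6, 23)])], [(112909, 56454)], 1),
    (5821, false, 1, [], [], [], [(112909, 56454)], 0)] 1500 3703 = true := by
  decide +kernel

theorem ck97_6703 : chunk WW (search 1 ef97 fqT GT FN97 4 97) 97
    [(6791, false, 1, [], [7], [(113, [(56, 2), (28, 2), (14, 2), (7, 2), (16, 7)]), (139, [(69, 2), (46, 3), (6, 23)]), (283, [(141, 2), (94, 3), (6, 47)])], [(112909, 56454)], 2),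
    (8147, false, 1, [], [4073], [(1368529, [(684264, 2), (342132, 2), (171066, 2), (85533, 2), (456176, 3), (195504, 7), (336, 4073)])], [(130369, 65184)], 1),
    (8537, false, 1, [], [11], [(7, [(3, 2), (2, 3)]), (89, [(44, 2), (22, 2), (11, 2), (8, 11)])], [(112909, 56454)], 1),
    (8731, false, 1, [], [3, 5], [(139, [(69, 2), (46, 3), (6, 23)]), (241, [(120, 2), (60, 2), (30, 2), (15, 2), (80, 3), (48, 5)]), (277, [(138, 2), (69, 2), (92, 3), (12, 23)])], [(112909, 56454)], 2)] 1500 6703 = true := by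
  decide +kernel

theorem ck97_9703 : chunk WW (search 1 ef97 fqT GT FN97 4 97) 97
    [(10477, false, 1, [], [3], [(109, [(54, 2), (27, 2), (36, 3), (12, 3), (4, 3)])], [(112909, 56454)], 1),
    (11059, false, 1, [], [], [(5, [(2, 2), (1, 2)]), (79, [(39, 2), (26, 3), (6, 13)]), (313, [(156, 2), (78, 2), (39, 2), (104, 3), (24, 13)])], [(112909, 56454)], 1),
    (11447, false, 1, [], [], [(53, [(26, 2), (13, 2), (4, 13)]), (79, [(39, 2), (26, 3), (6, 13)]), (157, [(78, 2), (39, 2), (52, 3), (12, 13)]), (941, [(470, 2), (235, 2), (188, 5), (20, 47)]), (1171, [(585, 2), (390, 3), (130, 3), (234, 5), (90, 13)]), (1301, [(650, 2), (325, 2), (260, 5), (52, 5), (100, 13)])], [(112909, 56454)], 2),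
    (12611, false, 1, [], [], [], [(112909, 56454)], 0)] 1500 9703 = true := by
  decide +kernel

theorem ck97_12703 : chunk WW (search 1 ef97 fqT GT FN97 4 97) 97
    [(14551, false, 1, [], [3, 5], [(67, [(33, 2), (22, 3), (6, 11)]), (101, [(50, 2), (25, 2), (20, 5), (4, 5)])], [(112909, 56454)], 1)] 949 12703 = true := by
  decide +kernel

theorem ck101_103 : chunk W23 (search 1 ef101 fqT GT FN101 4 101) 101
    [(607, true, 1, [(6, 101)], [], [], [(3643, 3642)], 0)] 300 103 = true := by
  decide +kernel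

theorem ck101_703 : chunk WW (search 1 ef101 fqT GT FN101 4 101) 101
    [(809, true, 1, [(101, 2), (8, 101)], [], [], [(6473, 3236)], 0),
    (1213, true, 1, [(12, 101)], [], [(17, [(8, 2), (4, 2), (2, 2), (1, 2)]), (89, [(44, 2), (22, 2), (11, 2), (8, 11)]), (241, [(120, 2), (60, 2), (30, 2), (15, 2), (80, 3), (48, 5)]), (331, [(165, 2), (110, 3), (66, 5), (30, 11)])], [(26687, 13343)], 2)] 699 703 = true := by
  decide +kernel

theorem ck103_105 : chunk W23 (search 1 ef103 fqT GT FN103 4 103) 103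
    [(619, true, 1, [(206, 3), (6, 103)], [], [(5, [(2, 2), (1, 2)])], [(2477, 619)], 1)] 299 105 = true := by
  decide +kernel

theorem ck103_703 : chunk WW (search 1 ef103 fqT GT FN103 4 103) 103
    [(1031, true, 1, [(10, 103)], [], [], [(2063, 2062)], 0),
    (1237, true, 1, [(12, 103)], [], [(7, [(3, 2), (2, 3)]), (13, [(6, 2), (3, 2), (4, 3)]), (79, [(39, 2), (26, 3), (6, 13)]), (157, [(78, 2), (39, 2), (52, 3), (12, 13)])], [(19793, 2474)], 2)] 399 703 = true := by
  decide +kernel

theorem ck107_109 : chunk W23 (search 1 ef107 fqT GT FN107 4 107) 107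
    [(191, false, 1, [(2, 53)], [19], [(23, [(11, 2), (2, 11)]), (419, [(209, 2), (38, 11), (22, 19)]), (463, [(231, 2), (154, 3), (66, 7), (42, 11)])], [(1499, 1498)], 2),
    (383, true, 1, [(2, 191)], [], [], [(731531, 146306)], 0),
    (431, true, 1, [(10, 43)], [], [], [(7759, 7758)], 0),
    (479, true, 1, [(2, 239)], [], [(5, [(2, 2), (1, 2)])], [(11497, 5748)], 1),
    (509, true, 1, [(4, 127)], [], [], [(1019, 509)], 0),
    (643, true, 1, [(6, 107)], [], [(7, [(3, 2), (2, 3)])], [(7717, 1929)], 1)] 297 109 = true := by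
  decide +kernel

theorem ck107_703 : chunk WW (search 1 ef107 fqT GT FN107 4 107) 107
    [(719, true, 1, [(2, 359)], [], [], [(17257, 2876)], 0),
    (809, true, 1, [(202, 2), (101, 2), (8, 101)], [], [], [(6473, 3236)], 0),
    (857, true, 1, [(107, 2), (8, 107)], [], [], [(22283, 11141)], 0)] 134 703 = true := by
  decide +kernel

theorem ck109_111 : chunk W23 (search 1 ef109 fqT GT FN109 4 109) 109
    [] 296 111 = true := by
  decide +kernel

theorem ck109_703 : chunk WW (search 1 ef109 fqT GT FN109 4 109) 109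
    [] 64 703 = true := by
  decide +kernel

theorem ck113_115 : chunk W23 (search 1 ef113 fqT GT FN113 4 113) 113
    [(227, true, 1, [(2, 113)], [], [], [(5449, 2724)], 0)] 273 115 = true := by
  decide +kernel

theorem ck127_129 : chunk W23 (search 1 ef127 fqT GT FN127 4 127) 127
    [(349, true, 1, [(87, 2), (12, 29)], [], [], [(3491, 349)], 0)] 136 129 = true := by
  decide +kernel

theorem ck131_133 : chunk W23 (search 1 ef131 fqT GT FN131 4 131) 131
    [(263, true, 1, [(2, 131)], [], [(17, [(8, 2), (4, 2), (2, 2), (1, 2)]), (113, [(56, 2), (28, 2), (14, 2), (7, 2), (16, 7)]), (673, [(336, 2), (168, 2), (84, 2), (42, 2), (21, 2), (224, 3), (96, 7)]), (1049, [(524, 2), (262, 2), (131, 2), (8, 131)])], [(50497, 8416)], 2)] 119 133 = true := by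
  decide +kernel

theorem ck137_139 : chunk W23 (search 1 ef137 fqT GT FN137 4 137) 137
    [] 96 139 = true := by
  decide +kernel

theorem ck139_141 : chunk W23 (search 1 ef139 fqT GT FN139 4 139) 139
    [] 90 141 = true := by
  decide +kernel

theorem ck149_151 : chunk W23 (search 1 ef149 fqT GT FN149 4 149) 149
    [] 65 151 = true := by
  decide +kernel

theorem ck151_153 : chunk W23 (search 1 ef151 fqT GT FN151 4 151) 151
    [] 59 153 = true := by
  decide +kernel

theorem ck157_159 : chunk W23 (search 1 ef157 fqT GT FN157 4 157) 157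
    [] 46 159 = true := by
  decide +kernel

end Pool.Agent.NearSuper255
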