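import Pool.Agent.NearSuper255.Tab

/-!
# Ranges of excluded pairs, file 9
-/

namespace Pool.Agent.NearSuper255

theorem ck163_165 : chunk W23 (search 1 ef163 fqT GT FN163 4 163) 163
    [] 38 165 = true := by
  decide +kernel

theorem ck167_169 : chunk W23 (search 1 ef167 fqT GT FN167 4 167) 167
    [] 36 169 = true := by
  decide +kernel

theorem ck173_175 : chunk W23 (search 1 ef173 fqT GT FN173 4 173) 173
    [] 33 175 = true := by
  decide +kernel

theorem ck179_181 : chunk W23 (search 1 ef179 fqT GT FN179 4 179) 179
    [] 30 181 = true := by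
  decide +kernel

theorem ck181_183 : chunk W23 (search 1 ef181 fqT GT FN181 4 181) 181
    [] 29 183 = true := by
  decide +kernel

theorem ck191_193 : chunk W23 (search 1 ef191 fqT GT FN191 4 191) 191
    [] 24 193 = true := by
  decide +kernel

theorem ck193_195 : chunk W23 (search 1 ef193 fqT GT FN193 4 193) 193
    [] 23 195 = true := by
  decide +kernel

theorem ck197_199 : chunk W23 (search 1 ef197 fqT GT FN197 4 197) 197
    [] 21 199 = true := by
  decide +kernel

theorem ck199_201 : chunk W23 (search 1 ef199 fqT GT FN199 4 199) 199
    [] 20 201 = true := by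
  decide +kernel

theorem ck211_213 : chunk W23 (search 1 ef211 fqT GT FN211 4 211) 211
    [] 14 213 = true := by
  decide +kernel

theorem ck223_225 : chunk W23 (search 1 ef223 fqT GT FN223 4 223) 223
    [] 8 225 = true := by
  decide +kernel

theorem ck227_229 : chunk W23 (search 1 ef227 fqT GT FN227 4 227) 227
    [] 6 229 = true := by
  decide +kernel

theorem ck229_231 : chunk W23 (search 1 ef229 fqT GT FN229 4 229) 229
    [] 5 231 = true := by
  decide +kernel

theorem ck233_235 : chunk W23 (search 1 ef233 fqT GT FN233 4 233) 233
    [] 3 235 = true := by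
  decide +kernel

end Pool.Agent.NearSuper255
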