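import Pool.Agent.NearSuper255.RtDef
import Pool.Agent.NearSuper255.Rng0
import Pool.Agent.NearSuper255.Rng1
import Pool.Agent.NearSuper255.Rng2
import Pool.Agent.NearSuper255.Rng3
import Pool.Agent.NearSuper255.Rng4
import Pool.Agent.NearSuper255.Rng5
import Pool.Agent.NearSuper255.Rng6
import Pool.Agent.NearSuper255.Rng7
import Pool.Agent.NearSuper255.Rng8
import Pool.Agent.NearSuper255.Rng9
import Pool.Agent.NearSuper255.Rng10
import Pool.Agent.NearSuper255.Rng11
import Pool.Agent.NearSuper255.Rng12
import Pool.Agent.NearSuper255.Rng13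
import Pool.Agent.NearSuper255.Rng14
import Pool.Agent.NearSuper255.Rng15
import Pool.Agent.NearSuper255.Rng16
import Pool.Agent.NearSuper255.Rng17
import Pool.Agent.NearSuper255.Rng18
import Pool.Agent.NearSuper255.Rng19
import Pool.Agent.NearSuper255.Rng20
import Pool.Agent.NearSuper255.Rng21
import Pool.Agent.NearSuper255.Rng22
import Pool.Agent.NearSuper255.Rng23
import Pool.Agent.NearSuper255.Rng24
import Pool.Agent.NearSuper255.Rng25
import Pool.Agent.NearSuper255.Rng26
import Pool.Agent.NearSuper255.Rng27
import Pool.Agent.NearSuper255.Rng28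
import Pool.Agent.NearSuper255.Rng29
import Pool.Agent.NearSuper255.Rng30
import Pool.Agent.NearSuper255.Rng31
import Pool.Agent.NearSuper255.Rng32
import Pool.Agent.NearSuper255.Rng33
import Pool.Agent.NearSuper255.Rng34
import Pool.Agent.NearSuper255.Rng35
import Pool.Agent.NearSuper255.Rng36
import Pool.Agent.NearSuper255.Rng37

/-!
# Excluded pairs of bases
-/

namespace Pool.Agent.NearSuper255

theorem six_dvd : 6 ∣ Nat.factorial 3 := by decide

theorem thirty_dvd : 30 ∣ Nat.factorial 5 := by decide

theorem ef3_prime : ∀ x ∈ ef3, x.2.Prime := prL_sound (by decide +kernel)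

theorem E3 {q : ℕ} (hq : q.Prime) (h1 : 3 < q) (h2 : q ≤ 300000) {N M : ℕ}
    (h : Sol 3 q N M) : False := by
  have ho : q % 2 = 1 := (hq.eq_two_or_odd).resolve_left (by omega)
  rcases Nat.lt_or_ge q 29 with hb | hb
  · exact chunk_sound ck3_5 six_dvd (by norm_num) Nat.one_pos ef3_prime fqT_prime GT_prime hq
      (by omega) (by omega) (by omega) h
  rcases Nat.lt_or_ge q 703 with hb | hb
  · exact chunk_sound ck3_29 W23_dvd (by norm_num) Nat.one_pos ef3_prime fqT_prime GT_prime hq
      (by omega) (by omega) (by omega) h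
  rcases Nat.lt_or_ge q 10703 with hb | hb
  · exact chunk_sound ck3_703 WW_dvd (by norm_num) Nat.one_pos ef3_prime fqT_prime GT_prime hq
      (by omega) (by omega) (by omega) h
  rcases Nat.lt_or_ge q 20703 with hb | hb
  · exact chunk_sound ck3_10703 WW_dvd (by norm_num) Nat.one_pos ef3_prime fqT_prime GT_prime hq
      (by omega) (by omega) (by omega) h
  rcases Nat.lt_or_ge q 30703 with hb | hb
  · exact chunk_sound ck3_20703 WW_dvd (by norm_num) Nat.one_pos ef3_prime fqT_prime GT_prime hq
      (by omega) (by omega) (by omega) h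
  rcases Nat.lt_or_ge q 40703 with hb | hb
  · exact chunk_sound ck3_30703 WW_dvd (by norm_num) Nat.one_pos ef3_prime fqT_prime GT_prime hq
      (by omega) (by omega) (by omega) h
  rcases Nat.lt_or_ge q 50703 with hb | hb
  · exact chunk_sound ck3_40703 WW_dvd (by norm_num) Nat.one_pos ef3_prime fqT_prime GT_prime hq
      (by omega) (by omega) (by omega) h
  rcases Nat.lt_or_ge q 60703 with hb | hb
  · exact chunk_sound ck3_50703 WW_dvd (by norm_num) Nat.one_pos ef3_prime fqT_prime GT_prime hq
      (by omega) (by omega) (by omega) h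
  rcases Nat.lt_or_ge q 70703 with hb | hb
  · exact chunk_sound ck3_60703 WW_dvd (by norm_num) Nat.one_pos ef3_prime fqT_prime GT_prime hq
      (by omega) (by omega) (by omega) h
  rcases Nat.lt_or_ge q 80703 with hb | hb
  · exact chunk_sound ck3_70703 WW_dvd (by norm_num) Nat.one_pos ef3_prime fqT_prime GT_prime hq
      (by omega) (by omega) (by omega) h
  rcases Nat.lt_or_ge q 90703 with hb | hb
  · exact chunk_sound ck3_80703 WW_dvd (by norm_num) Nat.one_pos ef3_prime fqT_prime GT_prime hq
      (by omega) (by omega) (by omega) h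
  rcases Nat.lt_or_ge q 100703 with hb | hb
  · exact chunk_sound ck3_90703 WW_dvd (by norm_num) Nat.one_pos ef3_prime fqT_prime GT_prime hq
      (by omega) (by omega) (by omega) h
  rcases Nat.lt_or_ge q 110703 with hb | hb
  · exact chunk_sound ck3_100703 WW_dvd (by norm_num) Nat.one_pos ef3_prime fqT_prime GT_prime hq
      (by omega) (by omega) (by omega) h
  rcases Nat.lt_or_ge q 120703 with hb | hb
  · exact chunk_sound ck3_110703 WW_dvd (by norm_num) Nat.one_pos ef3_prime fqT_prime GT_prime hq
      (by omega) (by omega) (by omega) h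
  rcases Nat.lt_or_ge q 130703 with hb | hb
  · exact chunk_sound ck3_120703 WW_dvd (by norm_num) Nat.one_pos ef3_prime fqT_prime GT_prime hq
      (by omega) (by omega) (by omega) h
  rcases Nat.lt_or_ge q 140703 with hb | hb
  · exact chunk_sound ck3_130703 WW_dvd (by norm_num) Nat.one_pos ef3_prime fqT_prime GT_prime hq
      (by omega) (by omega) (by omega) h
  rcases Nat.lt_or_ge q 150703 with hb | hb
  · exact chunk_sound ck3_140703 WW_dvd (by norm_num) Nat.one_pos ef3_prime fqT_prime GT_prime hq
      (by omega) (by omega) (by omega) h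
  rcases Nat.lt_or_ge q 160703 with hb | hb
  · exact chunk_sound ck3_150703 WW_dvd (by norm_num) Nat.one_pos ef3_prime fqT_prime GT_prime hq
      (by omega) (by omega) (by omega) h
  rcases Nat.lt_or_ge q 170703 with hb | hb
  · exact chunk_sound ck3_160703 WW_dvd (by norm_num) Nat.one_pos ef3_prime fqT_prime GT_prime hq
      (by omega) (by omega) (by omega) h
  rcases Nat.lt_or_ge q 180703 with hb | hb
  · exact chunk_sound ck3_170703 WW_dvd (by norm_num) Nat.one_pos ef3_prime fqT_prime GT_prime hq
      (by omega) (by omega) (by omega) h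
  rcases Nat.lt_or_ge q 190703 with hb | hb
  · exact chunk_sound ck3_180703 WW_dvd (by norm_num) Nat.one_pos ef3_prime fqT_prime GT_prime hq
      (by omega) (by omega) (by omega) h
  rcases Nat.lt_or_ge q 200703 with hb | hb
  · exact chunk_sound ck3_190703 WW_dvd (by norm_num) Nat.one_pos ef3_prime fqT_prime GT_prime hq
      (by omega) (by omega) (by omega) h
  rcases Nat.lt_or_ge q 210703 with hb | hb
  · exact chunk_sound ck3_200703 WW_dvd (by norm_num) Nat.one_pos ef3_prime fqT_prime GT_prime hq
      (by omega) (by omega) (by omega) h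
  rcases Nat.lt_or_ge q 220703 with hb | hb
  · exact chunk_sound ck3_210703 WW_dvd (by norm_num) Nat.one_pos ef3_prime fqT_prime GT_prime hq
      (by omega) (by omega) (by omega) h
  rcases Nat.lt_or_ge q 230703 with hb | hb
  · exact chunk_sound ck3_220703 WW_dvd (by norm_num) Nat.one_pos ef3_prime fqT_prime GT_prime hq
      (by omega) (by omega) (by omega) h
  rcases Nat.lt_or_ge q 240703 with hb | hb
  · exact chunk_sound ck3_230703 WW_dvd (by norm_num) Nat.one_pos ef3_prime fqT_prime GT_prime hq
      (by omega) (by omega) (by omega) h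
  rcases Nat.lt_or_ge q 250703 with hb | hb
  · exact chunk_sound ck3_240703 WW_dvd (by norm_num) Nat.one_pos ef3_prime fqT_prime GT_prime hq
      (by omega) (by omega) (by omega) h
  rcases Nat.lt_or_ge q 260703 with hb | hb
  · exact chunk_sound ck3_250703 WW_dvd (by norm_num) Nat.one_pos ef3_prime fqT_prime GT_prime hq
      (by omega) (by omega) (by omega) h
  rcases Nat.lt_or_ge q 270703 with hb | hb
  · exact chunk_sound ck3_260703 WW_dvd (by norm_num) Nat.one_pos ef3_prime fqT_prime GT_prime hq
      (by omega) (by omega) (by omega) h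
  rcases Nat.lt_or_ge q 280703 with hb | hb
  · exact chunk_sound ck3_270703 WW_dvd (by norm_num) Nat.one_pos ef3_prime fqT_prime GT_prime hq
      (by omega) (by omega) (by omega) h
  rcases Nat.lt_or_ge q 290703 with hb | hb
  · exact chunk_sound ck3_280703 WW_dvd (by norm_num) Nat.one_pos ef3_prime fqT_prime GT_prime hq
      (by omega) (by omega) (by omega) h
  exact chunk_sound ck3_290703 WW_dvd (by norm_num) Nat.one_pos ef3_prime fqT_prime GT_prime hq
      (by omega) (by omega) (by omega) h

theorem ef5_prime : ∀ x ∈ ef5, x.2.Prime := prL_sound (by decide +kernel)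

theorem E5 {q : ℕ} (hq : q.Prime) (h1 : 5 < q) (h2 : q ≤ 300000) {N M : ℕ}
    (h : Sol 5 q N M) : False := by
  have ho : q % 2 = 1 := (hq.eq_two_or_odd).resolve_left (by omega)
  rcases Nat.lt_or_ge q 29 with hb | hb
  · exact chunk_sound ck5_7 thirty_dvd (by norm_num) Nat.one_pos ef5_prime fqT_prime GT_prime hq
      (by omega) (by omega) (by omega) h
  rcases Nat.lt_or_ge q 703 with hb | hb
  · exact chunk_sound ck5_29 W23_dvd (by norm_num) Nat.one_pos ef5_prime fqT_prime GT_prime hq
      (by omega) (by omega) (by omega) h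
  rcases Nat.lt_or_ge q 10703 with hb | hb
  · exact chunk_sound ck5_703 WW_dvd (by norm_num) Nat.one_pos ef5_prime fqT_prime GT_prime hq
      (by omega) (by omega) (by omega) h
  rcases Nat.lt_or_ge q 20703 with hb | hb
  · exact chunk_sound ck5_10703 WW_dvd (by norm_num) Nat.one_pos ef5_prime fqT_prime GT_prime hq
      (by omega) (by omega) (by omega) h
  rcases Nat.lt_or_ge q 30703 with hb | hb
  · exact chunk_sound ck5_20703 WW_dvd (by norm_num) Nat.one_pos ef5_prime fqT_prime GT_prime hq
      (by omega) (by omega) (by omega) h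
  rcases Nat.lt_or_ge q 40703 with hb | hb
  · exact chunk_sound ck5_30703 WW_dvd (by norm_num) Nat.one_pos ef5_prime fqT_prime GT_prime hq
      (by omega) (by omega) (by omega) h
  rcases Nat.lt_or_ge q 50703 with hb | hb
  · exact chunk_sound ck5_40703 WW_dvd (by norm_num) Nat.one_pos ef5_prime fqT_prime GT_prime hq
      (by omega) (by omega) (by omega) h
  rcases Nat.lt_or_ge q 60703 with hb | hb
  · exact chunk_sound ck5_50703 WW_dvd (by norm_num) Nat.one_pos ef5_prime fqT_prime GT_prime hq
      (by omega) (by omega) (by omega) h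
  rcases Nat.lt_or_ge q 70703 with hb | hb
  · exact chunk_sound ck5_60703 WW_dvd (by norm_num) Nat.one_pos ef5_prime fqT_prime GT_prime hq
      (by omega) (by omega) (by omega) h
  rcases Nat.lt_or_ge q 80703 with hb | hb
  · exact chunk_sound ck5_70703 WW_dvd (by norm_num) Nat.one_pos ef5_prime fqT_prime GT_prime hq
      (by omega) (by omega) (by omega) h
  rcases Nat.lt_or_ge q 90703 with hb | hb
  · exact chunk_sound ck5_80703 WW_dvd (by norm_num) Nat.one_pos ef5_prime fqT_prime GT_prime hq
      (by omega) (by omega) (by omega) h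
  rcases Nat.lt_or_ge q 100703 with hb | hb
  · exact chunk_sound ck5_90703 WW_dvd (by norm_num) Nat.one_pos ef5_prime fqT_prime GT_prime hq
      (by omega) (by omega) (by omega) h
  rcases Nat.lt_or_ge q 110703 with hb | hb
  · exact chunk_sound ck5_100703 WW_dvd (by norm_num) Nat.one_pos ef5_prime fqT_prime GT_prime hq
      (by omega) (by omega) (by omega) h
  rcases Nat.lt_or_ge q 120703 with hb | hb
  · exact chunk_sound ck5_110703 WW_dvd (by norm_num) Nat.one_pos ef5_prime fqT_prime GT_prime hq
      (by omega) (by omega) (by omega) h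
  rcases Nat.lt_or_ge q 130703 with hb | hb
  · exact chunk_sound ck5_120703 WW_dvd (by norm_num) Nat.one_pos ef5_prime fqT_prime GT_prime hq
      (by omega) (by omega) (by omega) h
  rcases Nat.lt_or_ge q 140703 with hb | hb
  · exact chunk_sound ck5_130703 WW_dvd (by norm_num) Nat.one_pos ef5_prime fqT_prime GT_prime hq
      (by omega) (by omega) (by omega) h
  rcases Nat.lt_or_ge q 150703 with hb | hb
  · exact chunk_sound ck5_140703 WW_dvd (by norm_num) Nat.one_pos ef5_prime fqT_prime GT_prime hq
      (by omega) (by omega) (by omega) h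
  rcases Nat.lt_or_ge q 160703 with hb | hb
  · exact chunk_sound ck5_150703 WW_dvd (by norm_num) Nat.one_pos ef5_prime fqT_prime GT_prime hq
      (by omega) (by omega) (by omega) h
  rcases Nat.lt_or_ge q 170703 with hb | hb
  · exact chunk_sound ck5_160703 WW_dvd (by norm_num) Nat.one_pos ef5_prime fqT_prime GT_prime hq
      (by omega) (by omega) (by omega) h
  rcases Nat.lt_or_ge q 180703 with hb | hb
  · exact chunk_sound ck5_170703 WW_dvd (by norm_num) Nat.one_pos ef5_prime fqT_prime GT_prime hq
      (by omega) (by omega) (by omega) h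
  rcases Nat.lt_or_ge q 190703 with hb | hb
  · exact chunk_sound ck5_180703 WW_dvd (by norm_num) Nat.one_pos ef5_prime fqT_prime GT_prime hq
      (by omega) (by omega) (by omega) h
  rcases Nat.lt_or_ge q 200703 with hb | hb
  · exact chunk_sound ck5_190703 WW_dvd (by norm_num) Nat.one_pos ef5_prime fqT_prime GT_prime hq
      (by omega) (by omega) (by omega) h
  rcases Nat.lt_or_ge q 210703 with hb | hb
  · exact chunk_sound ck5_200703 WW_dvd (by norm_num) Nat.one_pos ef5_prime fqT_prime GT_prime hq
      (by omega) (by omega) (by omega) h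
  rcases Nat.lt_or_ge q 220703 with hb | hb
  · exact chunk_sound ck5_210703 WW_dvd (by norm_num) Nat.one_pos ef5_prime fqT_prime GT_prime hq
      (by omega) (by omega) (by omega) h
  rcases Nat.lt_or_ge q 230703 with hb | hb
  · exact chunk_sound ck5_220703 WW_dvd (by norm_num) Nat.one_pos ef5_prime fqT_prime GT_prime hq
      (by omega) (by omega) (by omega) h
  rcases Nat.lt_or_ge q 240703 with hb | hb
  · exact chunk_sound ck5_230703 WW_dvd (by norm_num) Nat.one_pos ef5_prime fqT_prime GT_prime hq
      (by omega) (by omega) (by omega) h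
  rcases Nat.lt_or_ge q 250703 with hb | hb
  · exact chunk_sound ck5_240703 WW_dvd (by norm_num) Nat.one_pos ef5_prime fqT_prime GT_prime hq
      (by omega) (by omega) (by omega) h
  rcases Nat.lt_or_ge q 260703 with hb | hb
  · exact chunk_sound ck5_250703 WW_dvd (by norm_num) Nat.one_pos ef5_prime fqT_prime GT_prime hq
      (by omega) (by omega) (by omega) h
  rcases Nat.lt_or_ge q 270703 with hb | hb
  · exact chunk_sound ck5_260703 WW_dvd (by norm_num) Nat.one_pos ef5_prime fqT_prime GT_prime hq
      (by omega) (by omega) (by omega) h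
  rcases Nat.lt_or_ge q 280703 with hb | hb
  · exact chunk_sound ck5_270703 WW_dvd (by norm_num) Nat.one_pos ef5_prime fqT_prime GT_prime hq
      (by omega) (by omega) (by omega) h
  rcases Nat.lt_or_ge q 290703 with hb | hb
  · exact chunk_sound ck5_280703 WW_dvd (by norm_num) Nat.one_pos ef5_prime fqT_prime GT_prime hq
      (by omega) (by omega) (by omega) h
  exact chunk_sound ck5_290703 WW_dvd (by norm_num) Nat.one_pos ef5_prime fqT_prime GT_prime hq
      (by omega) (by omega) (by omega) h

theorem ef7_prime : ∀ x ∈ ef7, x.2.Prime := prL_sound (by decide +kernel)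

theorem E7 {q : ℕ} (hq : q.Prime) (h1 : 7 < q) (h2 : q ≤ 1500) {N M : ℕ}
    (h : Sol 7 q N M) : False := by
  have ho : q % 2 = 1 := (hq.eq_two_or_odd).resolve_left (by omega)
  rcases Nat.lt_or_ge q 29 with hb | hb
  · exact chunk_sound ck7_9 thirty_dvd (by norm_num) Nat.one_pos ef7_prime fqT_prime GT_prime hq
      (by omega) (by omega) (by omega) h
  rcases Nat.lt_or_ge q 703 with hb | hb
  · exact chunk_sound ck7_29 W23_dvd (by norm_num) Nat.one_pos ef7_prime fqT_prime GT_prime hq
      (by omega) (by omega) (by omega) h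
  exact chunk_sound ck7_703 WW_dvd (by norm_num) Nat.one_pos ef7_prime fqT_prime GT_prime hq
      (by omega) (by omega) (by omega) h

theorem ef11_prime : ∀ x ∈ ef11, x.2.Prime := prL_sound (by decide +kernel)

theorem E11 {q : ℕ} (hq : q.Prime) (h1 : 11 < q) (h2 : q ≤ 1500) {N M : ℕ}
    (h : Sol 11 q N M) : False := by
  have ho : q % 2 = 1 := (hq.eq_two_or_odd).resolve_left (by omega)
  rcases Nat.lt_or_ge q 29 with hb | hb
  · exact chunk_sound ck11_13 thirty_dvd (by norm_num) Nat.one_pos ef11_prime fqT_prime GT_prime hq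
      (by omega) (by omega) (by omega) h
  rcases Nat.lt_or_ge q 703 with hb | hb
  · exact chunk_sound ck11_29 W23_dvd (by norm_num) Nat.one_pos ef11_prime fqT_prime GT_prime hq
      (by omega) (by omega) (by omega) h
  exact chunk_sound ck11_703 WW_dvd (by norm_num) Nat.one_pos ef11_prime fqT_prime GT_prime hq
      (by omega) (by omega) (by omega) h

theorem ef13_prime : ∀ x ∈ ef13, x.2.Prime := prL_sound (by decide +kernel)

theorem E13 {q : ℕ} (hq : q.Prime) (h1 : 13 < q) (h2 : q ≤ 250) {N M : ℕ}
    (h : Sol 13 q N M) : False := by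
  have ho : q % 2 = 1 := (hq.eq_two_or_odd).resolve_left (by omega)
  rcases Nat.lt_or_ge q 29 with hb | hb
  · exact chunk_sound ck13_15 thirty_dvd (by norm_num) Nat.one_pos ef13_prime fqT_prime GT_prime hq
      (by omega) (by omega) (by omega) h
  exact chunk_sound ck13_29 W23_dvd (by norm_num) Nat.one_pos ef13_prime fqT_prime GT_prime hq
      (by omega) (by omega) (by omega) h

theorem ef17_prime : ∀ x ∈ ef17, x.2.Prime := prL_sound (by decide +kernel)

theorem E17 {q : ℕ} (hq : q.Prime) (h1 : 17 < q) (h2 : q ≤ 300000) {N M : ℕ}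
    (h : Sol 17 q N M) : False := by
  have ho : q % 2 = 1 := (hq.eq_two_or_odd).resolve_left (by omega)
  rcases Nat.lt_or_ge q 29 with hb | hb
  · exact chunk_sound ck17_19 thirty_dvd (by norm_num) Nat.one_pos ef17_prime fqT_prime GT_prime hq
      (by omega) (by omega) (by omega) h
  rcases Nat.lt_or_ge q 703 with hb | hb
  · exact chunk_sound ck17_29 W23_dvd (by norm_num) Nat.one_pos ef17_prime fqT_prime GT_prime hq
      (by omega) (by omega) (by omega) h
  rcases Nat.lt_or_ge q 10703 with hb | hb
  · exact chunk_sound ck17_703 WW_dvd (by norm_num) Nat.one_pos ef17_prime fqT_prime GT_prime hq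
      (by omega) (by omega) (by omega) h
  rcases Nat.lt_or_ge q 20703 with hb | hb
  · exact chunk_sound ck17_10703 WW_dvd (by norm_num) Nat.one_pos ef17_prime fqT_prime GT_prime hq
      (by omega) (by omega) (by omega) h
  rcases Nat.lt_or_ge q 30703 with hb | hb
  · exact chunk_sound ck17_20703 WW_dvd (by norm_num) Nat.one_pos ef17_prime fqT_prime GT_prime hq
      (by omega) (by omega) (by omega) h
  rcases Nat.lt_or_ge q 40703 with hb | hb
  · exact chunk_sound ck17_30703 WW_dvd (by norm_num) Nat.one_pos ef17_prime fqT_prime GT_prime hq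
      (by omega) (by omega) (by omega) h
  rcases Nat.lt_or_ge q 50703 with hb | hb
  · exact chunk_sound ck17_40703 WW_dvd (by norm_num) Nat.one_pos ef17_prime fqT_prime GT_prime hq
      (by omega) (by omega) (by omega) h
  rcases Nat.lt_or_ge q 60703 with hb | hb
  · exact chunk_sound ck17_50703 WW_dvd (by norm_num) Nat.one_pos ef17_prime fqT_prime GT_prime hq
      (by omega) (by omega) (by omega) h
  rcases Nat.lt_or_ge q 70703 with hb | hb
  · exact chunk_sound ck17_60703 WW_dvd (by norm_num) Nat.one_pos ef17_prime fqT_prime GT_prime hq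
      (by omega) (by omega) (by omega) h
  rcases Nat.lt_or_ge q 80703 with hb | hb
  · exact chunk_sound ck17_70703 WW_dvd (by norm_num) Nat.one_pos ef17_prime fqT_prime GT_prime hq
      (by omega) (by omega) (by omega) h
  rcases Nat.lt_or_ge q 90703 with hb | hb
  · exact chunk_sound ck17_80703 WW_dvd (by norm_num) Nat.one_pos ef17_prime fqT_prime GT_prime hq
      (by omega) (by omega) (by omega) h
  rcases Nat.lt_or_ge q 100703 with hb | hb
  · exact chunk_sound ck17_90703 WW_dvd (by norm_num) Nat.one_pos ef17_prime fqT_prime GT_prime hq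
      (by omega) (by omega) (by omega) h
  rcases Nat.lt_or_ge q 110703 with hb | hb
  · exact chunk_sound ck17_100703 WW_dvd (by norm_num) Nat.one_pos ef17_prime fqT_prime GT_prime hq
      (by omega) (by omega) (by omega) h
  rcases Nat.lt_or_ge q 120703 with hb | hb
  · exact chunk_sound ck17_110703 WW_dvd (by norm_num) Nat.one_pos ef17_prime fqT_prime GT_prime hq
      (by omega) (by omega) (by omega) h
  rcases Nat.lt_or_ge q 130703 with hb | hb
  · exact chunk_sound ck17_120703 WW_dvd (by norm_num) Nat.one_pos ef17_prime fqT_prime GT_prime hq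
      (by omega) (by omega) (by omega) h
  rcases Nat.lt_or_ge q 140703 with hb | hb
  · exact chunk_sound ck17_130703 WW_dvd (by norm_num) Nat.one_pos ef17_prime fqT_prime GT_prime hq
      (by omega) (by omega) (by omega) h
  rcases Nat.lt_or_ge q 150703 with hb | hb
  · exact chunk_sound ck17_140703 WW_dvd (by norm_num) Nat.one_pos ef17_prime fqT_prime GT_prime hq
      (by omega) (by omega) (by omega) h
  rcases Nat.lt_or_ge q 160703 with hb | hb
  · exact chunk_sound ck17_150703 WW_dvd (by norm_num) Nat.one_pos ef17_prime fqT_prime GT_prime hq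
      (by omega) (by omega) (by omega) h
  rcases Nat.lt_or_ge q 170703 with hb | hb
  · exact chunk_sound ck17_160703 WW_dvd (by norm_num) Nat.one_pos ef17_prime fqT_prime GT_prime hq
      (by omega) (by omega) (by omega) h
  rcases Nat.lt_or_ge q 180703 with hb | hb
  · exact chunk_sound ck17_170703 WW_dvd (by norm_num) Nat.one_pos ef17_prime fqT_prime GT_prime hq
      (by omega) (by omega) (by omega) h
  rcases Nat.lt_or_ge q 190703 with hb | hb
  · exact chunk_sound ck17_180703 WW_dvd (by norm_num) Nat.one_pos ef17_prime fqT_prime GT_prime hq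
      (by omega) (by omega) (by omega) h
  rcases Nat.lt_or_ge q 200703 with hb | hb
  · exact chunk_sound ck17_190703 WW_dvd (by norm_num) Nat.one_pos ef17_prime fqT_prime GT_prime hq
      (by omega) (by omega) (by omega) h
  rcases Nat.lt_or_ge q 210703 with hb | hb
  · exact chunk_sound ck17_200703 WW_dvd (by norm_num) Nat.one_pos ef17_prime fqT_prime GT_prime hq
      (by omega) (by omega) (by omega) h
  rcases Nat.lt_or_ge q 220703 with hb | hb
  · exact chunk_sound ck17_210703 WW_dvd (by norm_num) Nat.one_pos ef17_prime fqT_prime GT_prime hq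
      (by omega) (by omega) (by omega) h
  rcases Nat.lt_or_ge q 230703 with hb | hb
  · exact chunk_sound ck17_220703 WW_dvd (by norm_num) Nat.one_pos ef17_prime fqT_prime GT_prime hq
      (by omega) (by omega) (by omega) h
  rcases Nat.lt_or_ge q 240703 with hb | hb
  · exact chunk_sound ck17_230703 WW_dvd (by norm_num) Nat.one_pos ef17_prime fqT_prime GT_prime hq
      (by omega) (by omega) (by omega) h
  rcases Nat.lt_or_ge q 250703 with hb | hb
  · exact chunk_sound ck17_240703 WW_dvd (by norm_num) Nat.one_pos ef17_prime fqT_prime GT_prime hq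
      (by omega) (by omega) (by omega) h
  rcases Nat.lt_or_ge q 260703 with hb | hb
  · exact chunk_sound ck17_250703 WW_dvd (by norm_num) Nat.one_pos ef17_prime fqT_prime GT_prime hq
      (by omega) (by omega) (by omega) h
  rcases Nat.lt_or_ge q 270703 with hb | hb
  · exact chunk_sound ck17_260703 WW_dvd (by norm_num) Nat.one_pos ef17_prime fqT_prime GT_prime hq
      (by omega) (by omega) (by omega) h
  rcases Nat.lt_or_ge q 280703 with hb | hb
  · exact chunk_sound ck17_270703 WW_dvd (by norm_num) Nat.one_pos ef17_prime fqT_prime GT_prime hq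
      (by omega) (by omega) (by omega) h
  rcases Nat.lt_or_ge q 290703 with hb | hb
  · exact chunk_sound ck17_280703 WW_dvd (by norm_num) Nat.one_pos ef17_prime fqT_prime GT_prime hq
      (by omega) (by omega) (by omega) h
  exact chunk_sound ck17_290703 WW_dvd (by norm_num) Nat.one_pos ef17_prime fqT_prime GT_prime hq
      (by omega) (by omega) (by omega) h

theorem ef19_prime : ∀ x ∈ ef19, x.2.Prime := prL_sound (by decide +kernel)

theorem E19 {q : ℕ} (hq : q.Prime) (h1 : 19 < q) (h2 : q ≤ 30000) {N M : ℕ}
    (h : Sol 19 q N M) : False := by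
  have ho : q % 2 = 1 := (hq.eq_two_or_odd).resolve_left (by omega)
  rcases Nat.lt_or_ge q 29 with hb | hb
  · exact chunk_sound ck19_21 thirty_dvd (by norm_num) Nat.one_pos ef19_prime fqT_prime GT_prime hq
      (by omega) (by omega) (by omega) h
  rcases Nat.lt_or_ge q 703 with hb | hb
  · exact chunk_sound ck19_29 W23_dvd (by norm_num) Nat.one_pos ef19_prime fqT_prime GT_prime hq
      (by omega) (by omega) (by omega) h
  rcases Nat.lt_or_ge q 3703 with hb | hb
  · exact chunk_sound ck19_703 WW_dvd (by norm_num) Nat.one_pos ef19_prime fqT_prime GT_prime hq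
      (by omega) (by omega) (by omega) h
  rcases Nat.lt_or_ge q 6703 with hb | hb
  · exact chunk_sound ck19_3703 WW_dvd (by norm_num) Nat.one_pos ef19_prime fqT_prime GT_prime hq
      (by omega) (by omega) (by omega) h
  rcases Nat.lt_or_ge q 9703 with hb | hb
  · exact chunk_sound ck19_6703 WW_dvd (by norm_num) Nat.one_pos ef19_prime fqT_prime GT_prime hq
      (by omega) (by omega) (by omega) h
  rcases Nat.lt_or_ge q 12703 with hb | hb
  · exact chunk_sound ck19_9703 WW_dvd (by norm_num) Nat.one_pos ef19_prime fqT_prime GT_prime hq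
      (by omega) (by omega) (by omega) h
  rcases Nat.lt_or_ge q 15703 with hb | hb
  · exact chunk_sound ck19_12703 WW_dvd (by norm_num) Nat.one_pos ef19_prime fqT_prime GT_prime hq
      (by omega) (by omega) (by omega) h
  rcases Nat.lt_or_ge q 18703 with hb | hb
  · exact chunk_sound ck19_15703 WW_dvd (by norm_num) Nat.one_pos ef19_prime fqT_prime GT_prime hq
      (by omega) (by omega) (by omega) h
  rcases Nat.lt_or_ge q 21703 with hb | hb
  · exact chunk_sound ck19_18703 WW_dvd (by norm_num) Nat.one_pos ef19_prime fqT_prime GT_prime hq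
      (by omega) (by omega) (by omega) h
  rcases Nat.lt_or_ge q 24703 with hb | hb
  · exact chunk_sound ck19_21703 WW_dvd (by norm_num) Nat.one_pos ef19_prime fqT_prime GT_prime hq
      (by omega) (by omega) (by omega) h
  rcases Nat.lt_or_ge q 27703 with hb | hb
  · exact chunk_sound ck19_24703 WW_dvd (by norm_num) Nat.one_pos ef19_prime fqT_prime GT_prime hq
      (by omega) (by omega) (by omega) h
  exact chunk_sound ck19_27703 WW_dvd (by norm_num) Nat.one_pos ef19_prime fqT_prime GT_prime hq
      (by omega) (by omega) (by omega) h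

theorem ef23_prime : ∀ x ∈ ef23, x.2.Prime := prL_sound (by decide +kernel)

theorem E23 {q : ℕ} (hq : q.Prime) (h1 : 23 < q) (h2 : q ≤ 2500) {N M : ℕ}
    (h : Sol 23 q N M) : False := by
  have ho : q % 2 = 1 := (hq.eq_two_or_odd).resolve_left (by omega)
  rcases Nat.lt_or_ge q 29 with hb | hb
  · exact chunk_sound ck23_25 thirty_dvd (by norm_num) Nat.one_pos ef23_prime fqT_prime GT_prime hq
      (by omega) (by omega) (by omega) h
  rcases Nat.lt_or_ge q 703 with hb | hb
  · exact chunk_sound ck23_29 W23_dvd (by norm_num) Nat.one_pos ef23_prime fqT_prime GT_prime hq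
      (by omega) (by omega) (by omega) h
  exact chunk_sound ck23_703 WW_dvd (by norm_num) Nat.one_pos ef23_prime fqT_prime GT_prime hq
      (by omega) (by omega) (by omega) h

theorem ef29_prime : ∀ x ∈ ef29, x.2.Prime := prL_sound (by decide +kernel)

theorem E29 {q : ℕ} (hq : q.Prime) (h1 : 29 < q) (h2 : q ≤ 1300) {N M : ℕ}
    (h : Sol 29 q N M) : False := by
  have ho : q % 2 = 1 := (hq.eq_two_or_odd).resolve_left (by omega)
  rcases Nat.lt_or_ge q 703 with hb | hb
  · exact chunk_sound ck29_31 W23_dvd (by norm_num) Nat.one_pos ef29_prime fqT_prime GT_prime hq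
      (by omega) (by omega) (by omega) h
  exact chunk_sound ck29_703 WW_dvd (by norm_num) Nat.one_pos ef29_prime fqT_prime GT_prime hq
      (by omega) (by omega) (by omega) h

theorem ef31_prime : ∀ x ∈ ef31, x.2.Prime := prL_sound (by decide +kernel)

theorem E31 {q : ℕ} (hq : q.Prime) (h1 : 31 < q) (h2 : q ≤ 900) {N M : ℕ}
    (h : Sol 31 q N M) : False := by
  have ho : q % 2 = 1 := (hq.eq_two_or_odd).resolve_left (by omega)
  rcases Nat.lt_or_ge q 703 with hb | hb
  · exact chunk_sound ck31_33 W23_dvd (by norm_num) Nat.one_pos ef31_prime fqT_prime GT_prime hq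
      (by omega) (by omega) (by omega) h
  exact chunk_sound ck31_703 WW_dvd (by norm_num) Nat.one_pos ef31_prime fqT_prime GT_prime hq
      (by omega) (by omega) (by omega) h

theorem ef37_prime : ∀ x ∈ ef37, x.2.Prime := prL_sound (by decide +kernel)

theorem E37 {q : ℕ} (hq : q.Prime) (h1 : 37 < q) (h2 : q ≤ 800) {N M : ℕ}
    (h : Sol 37 q N M) : False := by
  have ho : q % 2 = 1 := (hq.eq_two_or_odd).resolve_left (by omega)
  rcases Nat.lt_or_ge q 703 with hb | hb
  · exact chunk_sound ck37_39 W23_dvd (by norm_num) Nat.one_pos ef37_prime fqT_prime GT_prime hq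
      (by omega) (by omega) (by omega) h
  exact chunk_sound ck37_703 WW_dvd (by norm_num) Nat.one_pos ef37_prime fqT_prime GT_prime hq
      (by omega) (by omega) (by omega) h

theorem ef41_prime : ∀ x ∈ ef41, x.2.Prime := prL_sound (by decide +kernel)

theorem E41 {q : ℕ} (hq : q.Prime) (h1 : 41 < q) (h2 : q ≤ 260) {N M : ℕ}
    (h : Sol 41 q N M) : False := by
  have ho : q % 2 = 1 := (hq.eq_two_or_odd).resolve_left (by omega)
  exact chunk_sound ck41_43 W23_dvd (by norm_num) Nat.one_pos ef41_prime fqT_prime GT_prime hq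
      (by omega) (by omega) (by omega) h

theorem ef43_prime : ∀ x ∈ ef43, x.2.Prime := prL_sound (by decide +kernel)

theorem E43 {q : ℕ} (hq : q.Prime) (h1 : 43 < q) (h2 : q ≤ 239) {N M : ℕ}
    (h : Sol 43 q N M) : False := by
  have ho : q % 2 = 1 := (hq.eq_two_or_odd).resolve_left (by omega)
  exact chunk_sound ck43_45 W23_dvd (by norm_num) Nat.one_pos ef43_prime fqT_prime GT_prime hq
      (by omega) (by omega) (by omega) h

theorem ef47_prime : ∀ x ∈ ef47, x.2.Prime := prL_sound (by decide +kernel)

theorem E47 {q : ℕ} (hq : q.Prime) (h1 : 47 < q) (h2 : q ≤ 239) {N M : ℕ}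
    (h : Sol 47 q N M) : False := by
  have ho : q % 2 = 1 := (hq.eq_two_or_odd).resolve_left (by omega)
  exact chunk_sound ck47_49 W23_dvd (by norm_num) Nat.one_pos ef47_prime fqT_prime GT_prime hq
      (by omega) (by omega) (by omega) h

theorem ef53_prime : ∀ x ∈ ef53, x.2.Prime := prL_sound (by decide +kernel)

theorem E53 {q : ℕ} (hq : q.Prime) (h1 : 53 < q) (h2 : q ≤ 1600) {N M : ℕ}
    (h : Sol 53 q N M) : False := by
  have ho : q % 2 = 1 := (hq.eq_two_or_odd).resolve_left (by omega)
  rcases Nat.lt_or_ge q 703 with hb | hb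
  · exact chunk_sound ck53_55 W23_dvd (by norm_num) Nat.one_pos ef53_prime fqT_prime GT_prime hq
      (by omega) (by omega) (by omega) h
  exact chunk_sound ck53_703 WW_dvd (by norm_num) Nat.one_pos ef53_prime fqT_prime GT_prime hq
      (by omega) (by omega) (by omega) h

theorem ef59_prime : ∀ x ∈ ef59, x.2.Prime := prL_sound (by decide +kernel)

theorem E59 {q : ℕ} (hq : q.Prime) (h1 : 59 < q) (h2 : q ≤ 400) {N M : ℕ}
    (h : Sol 59 q N M) : False := by
  have ho : q % 2 = 1 := (hq.eq_two_or_odd).resolve_left (by omega)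
  exact chunk_sound ck59_61 W23_dvd (by norm_num) Nat.one_pos ef59_prime fqT_prime GT_prime hq
      (by omega) (by omega) (by omega) h

theorem ef61_prime : ∀ x ∈ ef61, x.2.Prime := prL_sound (by decide +kernel)

theorem E61 {q : ℕ} (hq : q.Prime) (h1 : 61 < q) (h2 : q ≤ 330) {N M : ℕ}
    (h : Sol 61 q N M) : False := by
  have ho : q % 2 = 1 := (hq.eq_two_or_odd).resolve_left (by omega)
  exact chunk_sound ck61_63 W23_dvd (by norm_num) Nat.one_pos ef61_prime fqT_prime GT_prime hq
      (by omega) (by omega) (by omega) h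

theorem ef67_prime : ∀ x ∈ ef67, x.2.Prime := prL_sound (by decide +kernel)

theorem E67 {q : ℕ} (hq : q.Prime) (h1 : 67 < q) (h2 : q ≤ 239) {N M : ℕ}
    (h : Sol 67 q N M) : False := by
  have ho : q % 2 = 1 := (hq.eq_two_or_odd).resolve_left (by omega)
  exact chunk_sound ck67_69 W23_dvd (by norm_num) Nat.one_pos ef67_prime fqT_prime GT_prime hq
      (by omega) (by omega) (by omega) h

theorem ef71_prime : ∀ x ∈ ef71, x.2.Prime := prL_sound (by decide +kernel)

theorem E71 {q : ℕ} (hq : q.Prime) (h1 : 71 < q) (h2 : q ≤ 239) {N M : ℕ}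
    (h : Sol 71 q N M) : False := by
  have ho : q % 2 = 1 := (hq.eq_two_or_odd).resolve_left (by omega)
  exact chunk_sound ck71_73 W23_dvd (by norm_num) Nat.one_pos ef71_prime fqT_prime GT_prime hq
      (by omega) (by omega) (by omega) h

theorem ef73_prime : ∀ x ∈ ef73, x.2.Prime := prL_sound (by decide +kernel)

theorem E73 {q : ℕ} (hq : q.Prime) (h1 : 73 < q) (h2 : q ≤ 239) {N M : ℕ}
    (h : Sol 73 q N M) : False := by
  have ho : q % 2 = 1 := (hq.eq_two_or_odd).resolve_left (by omega)
  exact chunk_sound ck73_75 W23_dvd (by norm_num) Nat.one_pos ef73_prime fqT_prime GT_prime hq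
      (by omega) (by omega) (by omega) h

theorem ef79_prime : ∀ x ∈ ef79, x.2.Prime := prL_sound (by decide +kernel)

theorem E79 {q : ℕ} (hq : q.Prime) (h1 : 79 < q) (h2 : q ≤ 239) {N M : ℕ}
    (h : Sol 79 q N M) : False := by
  have ho : q % 2 = 1 := (hq.eq_two_or_odd).resolve_left (by omega)
  exact chunk_sound ck79_81 W23_dvd (by norm_num) Nat.one_pos ef79_prime fqT_prime GT_prime hq
      (by omega) (by omega) (by omega) h

theorem ef83_prime : ∀ x ∈ ef83, x.2.Prime := prL_sound (by decide +kernel)

theorem E83 {q : ℕ} (hq : q.Prime) (h1 : 83 < q) (h2 : q ≤ 239) {N M : ℕ}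
    (h : Sol 83 q N M) : False := by
  have ho : q % 2 = 1 := (hq.eq_two_or_odd).resolve_left (by omega)
  exact chunk_sound ck83_85 W23_dvd (by norm_num) Nat.one_pos ef83_prime fqT_prime GT_prime hq
      (by omega) (by omega) (by omega) h

theorem ef89_prime : ∀ x ∈ ef89, x.2.Prime := prL_sound (by decide +kernel)

theorem E89 {q : ℕ} (hq : q.Prime) (h1 : 89 < q) (h2 : q ≤ 239) {N M : ℕ}
    (h : Sol 89 q N M) : False := by
  have ho : q % 2 = 1 := (hq.eq_two_or_odd).resolve_left (by omega)
  exact chunk_sound ck89_91 W23_dvd (by norm_num) Nat.one_pos ef89_prime fqT_prime GT_prime hq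
      (by omega) (by omega) (by omega) h

theorem ef97_prime : ∀ x ∈ ef97, x.2.Prime := prL_sound (by decide +kernel)

theorem E97 {q : ℕ} (hq : q.Prime) (h1 : 97 < q) (h2 : q ≤ 14600) {N M : ℕ}
    (h : Sol 97 q N M) : False := by
  have ho : q % 2 = 1 := (hq.eq_two_or_odd).resolve_left (by omega)
  rcases Nat.lt_or_ge q 703 with hb | hb
  · exact chunk_sound ck97_99 W23_dvd (by norm_num) Nat.one_pos ef97_prime fqT_prime GT_prime hq
      (by omega) (by omega) (by omega) h
  rcases Nat.lt_or_ge q 3703 with hb | hb
  · exact chunk_sound ck97_703 WW_dvd (by norm_num) Nat.one_pos ef97_prime fqT_prime GT_prime hq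
      (by omega) (by omega) (by omega) h
  rcases Nat.lt_or_ge q 6703 with hb | hb
  · exact chunk_sound ck97_3703 WW_dvd (by norm_num) Nat.one_pos ef97_prime fqT_prime GT_prime hq
      (by omega) (by omega) (by omega) h
  rcases Nat.lt_or_ge q 9703 with hb | hb
  · exact chunk_sound ck97_6703 WW_dvd (by norm_num) Nat.one_pos ef97_prime fqT_prime GT_prime hq
      (by omega) (by omega) (by omega) h
  rcases Nat.lt_or_ge q 12703 with hb | hb
  · exact chunk_sound ck97_9703 WW_dvd (by norm_num) Nat.one_pos ef97_prime fqT_prime GT_prime hq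
      (by omega) (by omega) (by omega) h
  exact chunk_sound ck97_12703 WW_dvd (by norm_num) Nat.one_pos ef97_prime fqT_prime GT_prime hq
      (by omega) (by omega) (by omega) h

theorem ef101_prime : ∀ x ∈ ef101, x.2.Prime := prL_sound (by decide +kernel)

theorem E101 {q : ℕ} (hq : q.Prime) (h1 : 101 < q) (h2 : q ≤ 2100) {N M : ℕ}
    (h : Sol 101 q N M) : False := by
  have ho : q % 2 = 1 := (hq.eq_two_or_odd).resolve_left (by omega)
  rcases Nat.lt_or_ge q 703 with hb | hb
  · exact chunk_sound ck101_103 W23_dvd (by norm_num) Nat.one_pos ef101_prime fqT_prime GT_prime hq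
      (by omega) (by omega) (by omega) h
  exact chunk_sound ck101_703 WW_dvd (by norm_num) Nat.one_pos ef101_prime fqT_prime GT_prime hq
      (by omega) (by omega) (by omega) h

theorem ef103_prime : ∀ x ∈ ef103, x.2.Prime := prL_sound (by decide +kernel)

theorem E103 {q : ℕ} (hq : q.Prime) (h1 : 103 < q) (h2 : q ≤ 1500) {N M : ℕ}
    (h : Sol 103 q N M) : False := by
  have ho : q % 2 = 1 := (hq.eq_two_or_odd).resolve_left (by omega)
  rcases Nat.lt_or_ge q 703 with hb | hb
  · exact chunk_sound ck103_105 W23_dvd (by norm_num) Nat.one_pos ef103_prime fqT_prime GT_prime hq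
      (by omega) (by omega) (by omega) h
  exact chunk_sound ck103_703 WW_dvd (by norm_num) Nat.one_pos ef103_prime fqT_prime GT_prime hq
      (by omega) (by omega) (by omega) h

theorem ef107_prime : ∀ x ∈ ef107, x.2.Prime := prL_sound (by decide +kernel)

theorem E107 {q : ℕ} (hq : q.Prime) (h1 : 107 < q) (h2 : q ≤ 970) {N M : ℕ}
    (h : Sol 107 q N M) : False := by
  have ho : q % 2 = 1 := (hq.eq_two_or_odd).resolve_left (by omega)
  rcases Nat.lt_or_ge q 703 with hb | hb
  · exact chunk_sound ck107_109 W23_dvd (by norm_num) Nat.one_pos ef107_prime fqT_prime GT_prime hq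
      (by omega) (by omega) (by omega) h
  exact chunk_sound ck107_703 WW_dvd (by norm_num) Nat.one_pos ef107_prime fqT_prime GT_prime hq
      (by omega) (by omega) (by omega) h

theorem ef109_prime : ∀ x ∈ ef109, x.2.Prime := prL_sound (by decide +kernel)

theorem E109 {q : ℕ} (hq : q.Prime) (h1 : 109 < q) (h2 : q ≤ 830) {N M : ℕ}
    (h : Sol 109 q N M) : False := by
  have ho : q % 2 = 1 := (hq.eq_two_or_odd).resolve_left (by omega)
  rcases Nat.lt_or_ge q 703 with hb | hb
  · exact chunk_sound ck109_111 W23_dvd (by norm_num) Nat.one_pos ef109_prime fqT_prime GT_prime hq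
      (by omega) (by omega) (by omega) h
  exact chunk_sound ck109_703 WW_dvd (by norm_num) Nat.one_pos ef109_prime fqT_prime GT_prime hq
      (by omega) (by omega) (by omega) h

theorem ef113_prime : ∀ x ∈ ef113, x.2.Prime := prL_sound (by decide +kernel)

theorem E113 {q : ℕ} (hq : q.Prime) (h1 : 113 < q) (h2 : q ≤ 660) {N M : ℕ}
    (h : Sol 113 q N M) : False := by
  have ho : q % 2 = 1 := (hq.eq_two_or_odd).resolve_left (by omega)
  exact chunk_sound ck113_115 W23_dvd (by norm_num) Nat.one_pos ef113_prime fqT_prime GT_prime hq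
      (by omega) (by omega) (by omega) h

theorem ef127_prime : ∀ x ∈ ef127, x.2.Prime := prL_sound (by decide +kernel)

theorem E127 {q : ℕ} (hq : q.Prime) (h1 : 127 < q) (h2 : q ≤ 400) {N M : ℕ}
    (h : Sol 127 q N M) : False := by
  have ho : q % 2 = 1 := (hq.eq_two_or_odd).resolve_left (by omega)
  exact chunk_sound ck127_129 W23_dvd (by norm_num) Nat.one_pos ef127_prime fqT_prime GT_prime hq
      (by omega) (by omega) (by omega) h

theorem ef131_prime : ∀ x ∈ ef131, x.2.Prime := prL_sound (by decide +kernel)

theorem E131 {q : ℕ} (hq : q.Prime) (h1 : 131 < q) (h2 : q ≤ 370) {N M : ℕ}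
    (h : Sol 131 q N M) : False := by
  have ho : q % 2 = 1 := (hq.eq_two_or_odd).resolve_left (by omega)
  exact chunk_sound ck131_133 W23_dvd (by norm_num) Nat.one_pos ef131_prime fqT_prime GT_prime hq
      (by omega) (by omega) (by omega) h

theorem ef137_prime : ∀ x ∈ ef137, x.2.Prime := prL_sound (by decide +kernel)

theorem E137 {q : ℕ} (hq : q.Prime) (h1 : 137 < q) (h2 : q ≤ 330) {N M : ℕ}
    (h : Sol 137 q N M) : False := by
  have ho : q % 2 = 1 := (hq.eq_two_or_odd).resolve_left (by omega)
  exact chunk_sound ck137_139 W23_dvd (by norm_num) Nat.one_pos ef137_prime fqT_prime GT_prime hq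
      (by omega) (by omega) (by omega) h

theorem ef139_prime : ∀ x ∈ ef139, x.2.Prime := prL_sound (by decide +kernel)

theorem E139 {q : ℕ} (hq : q.Prime) (h1 : 139 < q) (h2 : q ≤ 320) {N M : ℕ}
    (h : Sol 139 q N M) : False := by
  have ho : q % 2 = 1 := (hq.eq_two_or_odd).resolve_left (by omega)
  exact chunk_sound ck139_141 W23_dvd (by norm_num) Nat.one_pos ef139_prime fqT_prime GT_prime hq
      (by omega) (by omega) (by omega) h

theorem ef149_prime : ∀ x ∈ ef149, x.2.Prime := prL_sound (by decide +kernel)

theorem E149 {q : ℕ} (hq : q.Prime) (h1 : 149 < q) (h2 : q ≤ 280) {N M : ℕ}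
    (h : Sol 149 q N M) : False := by
  have ho : q % 2 = 1 := (hq.eq_two_or_odd).resolve_left (by omega)
  exact chunk_sound ck149_151 W23_dvd (by norm_num) Nat.one_pos ef149_prime fqT_prime GT_prime hq
      (by omega) (by omega) (by omega) h

theorem ef151_prime : ∀ x ∈ ef151, x.2.Prime := prL_sound (by decide +kernel)

theorem E151 {q : ℕ} (hq : q.Prime) (h1 : 151 < q) (h2 : q ≤ 270) {N M : ℕ}
    (h : Sol 151 q N M) : False := by
  have ho : q % 2 = 1 := (hq.eq_two_or_odd).resolve_left (by omega)
  exact chunk_sound ck151_153 W23_dvd (by norm_num) Nat.one_pos ef151_prime fqT_prime GT_prime hq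
      (by omega) (by omega) (by omega) h

theorem ef157_prime : ∀ x ∈ ef157, x.2.Prime := prL_sound (by decide +kernel)

theorem E157 {q : ℕ} (hq : q.Prime) (h1 : 157 < q) (h2 : q ≤ 250) {N M : ℕ}
    (h : Sol 157 q N M) : False := by
  have ho : q % 2 = 1 := (hq.eq_two_or_odd).resolve_left (by omega)
  exact chunk_sound ck157_159 W23_dvd (by norm_num) Nat.one_pos ef157_prime fqT_prime GT_prime hq
      (by omega) (by omega) (by omega) h

theorem ef163_prime : ∀ x ∈ ef163, x.2.Prime := prL_sound (by decide +kernel)

theorem E163 {q : ℕ} (hq : q.Prime) (h1 : 163 < q) (h2 : q ≤ 239) {N M : ℕ}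
    (h : Sol 163 q N M) : False := by
  have ho : q % 2 = 1 := (hq.eq_two_or_odd).resolve_left (by omega)
  exact chunk_sound ck163_165 W23_dvd (by norm_num) Nat.one_pos ef163_prime fqT_prime GT_prime hq
      (by omega) (by omega) (by omega) h

theorem ef167_prime : ∀ x ∈ ef167, x.2.Prime := prL_sound (by decide +kernel)

theorem E167 {q : ℕ} (hq : q.Prime) (h1 : 167 < q) (h2 : q ≤ 239) {N M : ℕ}
    (h : Sol 167 q N M) : False := by
  have ho : q % 2 = 1 := (hq.eq_two_or_odd).resolve_left (by omega)
  exact chunk_sound ck167_169 W23_dvd (by norm_num) Nat.one_pos ef167_prime fqT_prime GT_prime hq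
      (by omega) (by omega) (by omega) h

theorem ef173_prime : ∀ x ∈ ef173, x.2.Prime := prL_sound (by decide +kernel)

theorem E173 {q : ℕ} (hq : q.Prime) (h1 : 173 < q) (h2 : q ≤ 239) {N M : ℕ}
    (h : Sol 173 q N M) : False := by
  have ho : q % 2 = 1 := (hq.eq_two_or_odd).resolve_left (by omega)
  exact chunk_sound ck173_175 W23_dvd (by norm_num) Nat.one_pos ef173_prime fqT_prime GT_prime hq
      (by omega) (by omega) (by omega) h

theorem ef179_prime : ∀ x ∈ ef179, x.2.Prime := prL_sound (by decide +kernel)

theorem E179 {q : ℕ} (hq : q.Prime) (h1 : 179 < q) (h2 : q ≤ 239) {N M : ℕ}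
    (h : Sol 179 q N M) : False := by
  have ho : q % 2 = 1 := (hq.eq_two_or_odd).resolve_left (by omega)
  exact chunk_sound ck179_181 W23_dvd (by norm_num) Nat.one_pos ef179_prime fqT_prime GT_prime hq
      (by omega) (by omega) (by omega) h

theorem ef181_prime : ∀ x ∈ ef181, x.2.Prime := prL_sound (by decide +kernel)

theorem E181 {q : ℕ} (hq : q.Prime) (h1 : 181 < q) (h2 : q ≤ 239) {N M : ℕ}
    (h : Sol 181 q N M) : False := by
  have ho : q % 2 = 1 := (hq.eq_two_or_odd).resolve_left (by omega)
  exact chunk_sound ck181_183 W23_dvd (by norm_num) Nat.one_pos ef181_prime fqT_prime GT_prime hq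
      (by omega) (by omega) (by omega) h

theorem ef191_prime : ∀ x ∈ ef191, x.2.Prime := prL_sound (by decide +kernel)

theorem E191 {q : ℕ} (hq : q.Prime) (h1 : 191 < q) (h2 : q ≤ 239) {N M : ℕ}
    (h : Sol 191 q N M) : False := by
  have ho : q % 2 = 1 := (hq.eq_two_or_odd).resolve_left (by omega)
  exact chunk_sound ck191_193 W23_dvd (by norm_num) Nat.one_pos ef191_prime fqT_prime GT_prime hq
      (by omega) (by omega) (by omega) h

theorem ef193_prime : ∀ x ∈ ef193, x.2.Prime := prL_sound (by decide +kernel)

theorem E193 {q : ℕ} (hq : q.Prime) (h1 : 193 < q) (h2 : q ≤ 239) {N M : ℕ}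
    (h : Sol 193 q N M) : False := by
  have ho : q % 2 = 1 := (hq.eq_two_or_odd).resolve_left (by omega)
  exact chunk_sound ck193_195 W23_dvd (by norm_num) Nat.one_pos ef193_prime fqT_prime GT_prime hq
      (by omega) (by omega) (by omega) h

theorem ef197_prime : ∀ x ∈ ef197, x.2.Prime := prL_sound (by decide +kernel)

theorem E197 {q : ℕ} (hq : q.Prime) (h1 : 197 < q) (h2 : q ≤ 239) {N M : ℕ}
    (h : Sol 197 q N M) : False := by
  have ho : q % 2 = 1 := (hq.eq_two_or_odd).resolve_left (by omega)
  exact chunk_sound ck197_199 W23_dvd (by norm_num) Nat.one_pos ef197_prime fqT_prime GT_prime hq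
      (by omega) (by omega) (by omega) h

theorem ef199_prime : ∀ x ∈ ef199, x.2.Prime := prL_sound (by decide +kernel)

theorem E199 {q : ℕ} (hq : q.Prime) (h1 : 199 < q) (h2 : q ≤ 239) {N M : ℕ}
    (h : Sol 199 q N M) : False := by
  have ho : q % 2 = 1 := (hq.eq_two_or_odd).resolve_left (by omega)
  exact chunk_sound ck199_201 W23_dvd (by norm_num) Nat.one_pos ef199_prime fqT_prime GT_prime hq
      (by omega) (by omega) (by omega) h

theorem ef211_prime : ∀ x ∈ ef211, x.2.Prime := prL_sound (by decide +kernel)

theorem E211 {q : ℕ} (hq : q.Prime) (h1 : 211 < q) (h2 : q ≤ 239) {N M : ℕ}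
    (h : Sol 211 q N M) : False := by
  have ho : q % 2 = 1 := (hq.eq_two_or_odd).resolve_left (by omega)
  exact chunk_sound ck211_213 W23_dvd (by norm_num) Nat.one_pos ef211_prime fqT_prime GT_prime hq
      (by omega) (by omega) (by omega) h

theorem ef223_prime : ∀ x ∈ ef223, x.2.Prime := prL_sound (by decide +kernel)

theorem E223 {q : ℕ} (hq : q.Prime) (h1 : 223 < q) (h2 : q ≤ 239) {N M : ℕ}
    (h : Sol 223 q N M) : False := by
  have ho : q % 2 = 1 := (hq.eq_two_or_odd).resolve_left (by omega)
  exact chunk_sound ck223_225 W23_dvd (by norm_num) Nat.one_pos ef223_prime fqT_prime GT_prime hq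
      (by omega) (by omega) (by omega) h

theorem ef227_prime : ∀ x ∈ ef227, x.2.Prime := prL_sound (by decide +kernel)

theorem E227 {q : ℕ} (hq : q.Prime) (h1 : 227 < q) (h2 : q ≤ 239) {N M : ℕ}
    (h : Sol 227 q N M) : False := by
  have ho : q % 2 = 1 := (hq.eq_two_or_odd).resolve_left (by omega)
  exact chunk_sound ck227_229 W23_dvd (by norm_num) Nat.one_pos ef227_prime fqT_prime GT_prime hq
      (by omega) (by omega) (by omega) h

theorem ef229_prime : ∀ x ∈ ef229, x.2.Prime := prL_sound (by decide +kernel)

theorem E229 {q : ℕ} (hq : q.Prime) (h1 : 229 < q) (h2 : q ≤ 239) {N M : ℕ}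
    (h : Sol 229 q N M) : False := by
  have ho : q % 2 = 1 := (hq.eq_two_or_odd).resolve_left (by omega)
  exact chunk_sound ck229_231 W23_dvd (by norm_num) Nat.one_pos ef229_prime fqT_prime GT_prime hq
      (by omega) (by omega) (by omega) h

theorem ef233_prime : ∀ x ∈ ef233, x.2.Prime := prL_sound (by decide +kernel)

theorem E233 {q : ℕ} (hq : q.Prime) (h1 : 233 < q) (h2 : q ≤ 239) {N M : ℕ}
    (h : Sol 233 q N M) : False := by
  have ho : q % 2 = 1 := (hq.eq_two_or_odd).resolve_left (by omega)
  exact chunk_sound ck233_235 W23_dvd (by norm_num) Nat.one_pos ef233_prime fqT_prime GT_prime hq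
      (by omega) (by omega) (by omega) h

theorem ef257_prime : ∀ x ∈ ef257, x.2.Prime := prL_sound (by decide +kernel)

theorem E257 {q : ℕ} (hq : q.Prime) (h1 : 257 < q) (h2 : q ≤ 190200) {N M : ℕ}
    (h : Sol 257 q N M) : False := by
  have ho : q % 2 = 1 := (hq.eq_two_or_odd).resolve_left (by omega)
  rcases Nat.lt_or_ge q 703 with hb | hb
  · exact chunk_sound ck257_259 W23_dvd (by norm_num) Nat.one_pos ef257_prime fqT_prime GT_prime hq
      (by omega) (by omega) (by omega) h
  rcases Nat.lt_or_ge q 2703 with hb | hb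
  · exact chunk_sound ck257_703 WW_dvd (by norm_num) Nat.one_pos ef257_prime fqT_prime GT_prime hq
      (by omega) (by omega) (by omega) h
  rcases Nat.lt_or_ge q 4703 with hb | hb
  · exact chunk_sound ck257_2703 WW_dvd (by norm_num) Nat.one_pos ef257_prime fqT_prime GT_prime hq
      (by omega) (by omega) (by omega) h
  rcases Nat.lt_or_ge q 6703 with hb | hb
  · exact chunk_sound ck257_4703 WW_dvd (by norm_num) Nat.one_pos ef257_prime fqT_prime GT_prime hq
      (by omega) (by omega) (by omega) h
  rcases Nat.lt_or_ge q 8703 with hb | hb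
  · exact chunk_sound ck257_6703 WW_dvd (by norm_num) Nat.one_pos ef257_prime fqT_prime GT_prime hq
      (by omega) (by omega) (by omega) h
  rcases Nat.lt_or_ge q 10703 with hb | hb
  · exact chunk_sound ck257_8703 WW_dvd (by norm_num) Nat.one_pos ef257_prime fqT_prime GT_prime hq
      (by omega) (by omega) (by omega) h
  rcases Nat.lt_or_ge q 12703 with hb | hb
  · exact chunk_sound ck257_10703 WW_dvd (by norm_num) Nat.one_pos ef257_prime fqT_prime GT_prime hq
      (by omega) (by omega) (by omega) h
  rcases Nat.lt_or_ge q 14703 with hb | hb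
  · exact chunk_sound ck257_12703 WW_dvd (by norm_num) Nat.one_pos ef257_prime fqT_prime GT_prime hq
      (by omega) (by omega) (by omega) h
  rcases Nat.lt_or_ge q 16703 with hb | hb
  · exact chunk_sound ck257_14703 WW_dvd (by norm_num) Nat.one_pos ef257_prime fqT_prime GT_prime hq
      (by omega) (by omega) (by omega) h
  rcases Nat.lt_or_ge q 18703 with hb | hb
  · exact chunk_sound ck257_16703 WW_dvd (by norm_num) Nat.one_pos ef257_prime fqT_prime GT_prime hq
      (by omega) (by omega) (by omega) h
  rcases Nat.lt_or_ge q 20703 with hb | hb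
  · exact chunk_sound ck257_18703 WW_dvd (by norm_num) Nat.one_pos ef257_prime fqT_prime GT_prime hq
      (by omega) (by omega) (by omega) h
  rcases Nat.lt_or_ge q 22703 with hb | hb
  · exact chunk_sound ck257_20703 WW_dvd (by norm_num) Nat.one_pos ef257_prime fqT_prime GT_prime hq
      (by omega) (by omega) (by omega) h
  rcases Nat.lt_or_ge q 24703 with hb | hb
  · exact chunk_sound ck257_22703 WW_dvd (by norm_num) Nat.one_pos ef257_prime fqT_prime GT_prime hq
      (by omega) (by omega) (by omega) h
  rcases Nat.lt_or_ge q 26703 with hb | hb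
  · exact chunk_sound ck257_24703 WW_dvd (by norm_num) Nat.one_pos ef257_prime fqT_prime GT_prime hq
      (by omega) (by omega) (by omega) h
  rcases Nat.lt_or_ge q 28703 with hb | hb
  · exact chunk_sound ck257_26703 WW_dvd (by norm_num) Nat.one_pos ef257_prime fqT_prime GT_prime hq
      (by omega) (by omega) (by omega) h
  rcases Nat.lt_or_ge q 30703 with hb | hb
  · exact chunk_sound ck257_28703 WW_dvd (by norm_num) Nat.one_pos ef257_prime fqT_prime GT_prime hq
      (by omega) (by omega) (by omega) h
  rcases Nat.lt_or_ge q 32703 with hb | hb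
  · exact chunk_sound ck257_30703 WW_dvd (by norm_num) Nat.one_pos ef257_prime fqT_prime GT_prime hq
      (by omega) (by omega) (by omega) h
  rcases Nat.lt_or_ge q 34703 with hb | hb
  · exact chunk_sound ck257_32703 WW_dvd (by norm_num) Nat.one_pos ef257_prime fqT_prime GT_prime hq
      (by omega) (by omega) (by omega) h
  rcases Nat.lt_or_ge q 36703 with hb | hb
  · exact chunk_sound ck257_34703 WW_dvd (by norm_num) Nat.one_pos ef257_prime fqT_prime GT_prime hq
      (by omega) (by omega) (by omega) h
  rcases Nat.lt_or_ge q 38703 with hb | hb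
  · exact chunk_sound ck257_36703 WW_dvd (by norm_num) Nat.one_pos ef257_prime fqT_prime GT_prime hq
      (by omega) (by omega) (by omega) h
  rcases Nat.lt_or_ge q 40703 with hb | hb
  · exact chunk_sound ck257_38703 WW_dvd (by norm_num) Nat.one_pos ef257_prime fqT_prime GT_prime hq
      (by omega) (by omega) (by omega) h
  rcases Nat.lt_or_ge q 42703 with hb | hb
  · exact chunk_sound ck257_40703 WW_dvd (by norm_num) Nat.one_pos ef257_prime fqT_prime GT_prime hq
      (by omega) (by omega) (by omega) h
  rcases Nat.lt_or_ge q 44703 with hb | hb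
  · exact chunk_sound ck257_42703 WW_dvd (by norm_num) Nat.one_pos ef257_prime fqT_prime GT_prime hq
      (by omega) (by omega) (by omega) h
  rcases Nat.lt_or_ge q 46703 with hb | hb
  · exact chunk_sound ck257_44703 WW_dvd (by norm_num) Nat.one_pos ef257_prime fqT_prime GT_prime hq
      (by omega) (by omega) (by omega) h
  rcases Nat.lt_or_ge q 48703 with hb | hb
  · exact chunk_sound ck257_46703 WW_dvd (by norm_num) Nat.one_pos ef257_prime fqT_prime GT_prime hq
      (by omega) (by omega) (by omega) h
  rcases Nat.lt_or_ge q 50703 with hb | hb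
  · exact chunk_sound ck257_48703 WW_dvd (by norm_num) Nat.one_pos ef257_prime fqT_prime GT_prime hq
      (by omega) (by omega) (by omega) h
  rcases Nat.lt_or_ge q 52703 with hb | hb
  · exact chunk_sound ck257_50703 WW_dvd (by norm_num) Nat.one_pos ef257_prime fqT_prime GT_prime hq
      (by omega) (by omega) (by omega) h
  rcases Nat.lt_or_ge q 54703 with hb | hb
  · exact chunk_sound ck257_52703 WW_dvd (by norm_num) Nat.one_pos ef257_prime fqT_prime GT_prime hq
      (by omega) (by omega) (by omega) h
  rcases Nat.lt_or_ge q 56703 with hb | hb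
  · exact chunk_sound ck257_54703 WW_dvd (by norm_num) Nat.one_pos ef257_prime fqT_prime GT_prime hq
      (by omega) (by omega) (by omega) h
  rcases Nat.lt_or_ge q 58703 with hb | hb
  · exact chunk_sound ck257_56703 WW_dvd (by norm_num) Nat.one_pos ef257_prime fqT_prime GT_prime hq
      (by omega) (by omega) (by omega) h
  rcases Nat.lt_or_ge q 60703 with hb | hb
  · exact chunk_sound ck257_58703 WW_dvd (by norm_num) Nat.one_pos ef257_prime fqT_prime GT_prime hq
      (by omega) (by omega) (by omega) h
  rcases Nat.lt_or_ge q 62703 with hb | hb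
  · exact chunk_sound ck257_60703 WW_dvd (by norm_num) Nat.one_pos ef257_prime fqT_prime GT_prime hq
      (by omega) (by omega) (by omega) h
  rcases Nat.lt_or_ge q 64703 with hb | hb
  · exact chunk_sound ck257_62703 WW_dvd (by norm_num) Nat.one_pos ef257_prime fqT_prime GT_prime hq
      (by omega) (by omega) (by omega) h
  rcases Nat.lt_or_ge q 66703 with hb | hb
  · exact chunk_sound ck257_64703 WW_dvd (by norm_num) Nat.one_pos ef257_prime fqT_prime GT_prime hq
      (by omega) (by omega) (by omega) h
  rcases Nat.lt_or_ge q 68703 with hb | hb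
  · exact chunk_sound ck257_66703 WW_dvd (by norm_num) Nat.one_pos ef257_prime fqT_prime GT_prime hq
      (by omega) (by omega) (by omega) h
  rcases Nat.lt_or_ge q 70703 with hb | hb
  · exact chunk_sound ck257_68703 WW_dvd (by norm_num) Nat.one_pos ef257_prime fqT_prime GT_prime hq
      (by omega) (by omega) (by omega) h
  rcases Nat.lt_or_ge q 72703 with hb | hb
  · exact chunk_sound ck257_70703 WW_dvd (by norm_num) Nat.one_pos ef257_prime fqT_prime GT_prime hq
      (by omega) (by omega) (by omega) h
  rcases Nat.lt_or_ge q 74703 with hb | hb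
  · exact chunk_sound ck257_72703 WW_dvd (by norm_num) Nat.one_pos ef257_prime fqT_prime GT_prime hq
      (by omega) (by omega) (by omega) h
  rcases Nat.lt_or_ge q 76703 with hb | hb
  · exact chunk_sound ck257_74703 WW_dvd (by norm_num) Nat.one_pos ef257_prime fqT_prime GT_prime hq
      (by omega) (by omega) (by omega) h
  rcases Nat.lt_or_ge q 78703 with hb | hb
  · exact chunk_sound ck257_76703 WW_dvd (by norm_num) Nat.one_pos ef257_prime fqT_prime GT_prime hq
      (by omega) (by omega) (by omega) h
  rcases Nat.lt_or_ge q 80703 with hb | hb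
  · exact chunk_sound ck257_78703 WW_dvd (by norm_num) Nat.one_pos ef257_prime fqT_prime GT_prime hq
      (by omega) (by omega) (by omega) h
  rcases Nat.lt_or_ge q 82703 with hb | hb
  · exact chunk_sound ck257_80703 WW_dvd (by norm_num) Nat.one_pos ef257_prime fqT_prime GT_prime hq
      (by omega) (by omega) (by omega) h
  rcases Nat.lt_or_ge q 84703 with hb | hb
  · exact chunk_sound ck257_82703 WW_dvd (by norm_num) Nat.one_pos ef257_prime fqT_prime GT_prime hq
      (by omega) (by omega) (by omega) h
  rcases Nat.lt_or_ge q 86703 with hb | hb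
  · exact chunk_sound ck257_84703 WW_dvd (by norm_num) Nat.one_pos ef257_prime fqT_prime GT_prime hq
      (by omega) (by omega) (by omega) h
  rcases Nat.lt_or_ge q 88703 with hb | hb
  · exact chunk_sound ck257_86703 WW_dvd (by norm_num) Nat.one_pos ef257_prime fqT_prime GT_prime hq
      (by omega) (by omega) (by omega) h
  rcases Nat.lt_or_ge q 90703 with hb | hb
  · exact chunk_sound ck257_88703 WW_dvd (by norm_num) Nat.one_pos ef257_prime fqT_prime GT_prime hq
      (by omega) (by omega) (by omega) h
  rcases Nat.lt_or_ge q 92703 with hb | hb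
  · exact chunk_sound ck257_90703 WW_dvd (by norm_num) Nat.one_pos ef257_prime fqT_prime GT_prime hq
      (by omega) (by omega) (by omega) h
  rcases Nat.lt_or_ge q 94703 with hb | hb
  · exact chunk_sound ck257_92703 WW_dvd (by norm_num) Nat.one_pos ef257_prime fqT_prime GT_prime hq
      (by omega) (by omega) (by omega) h
  rcases Nat.lt_or_ge q 96703 with hb | hb
  · exact chunk_sound ck257_94703 WW_dvd (by norm_num) Nat.one_pos ef257_prime fqT_prime GT_prime hq
      (by omega) (by omega) (by omega) h
  rcases Nat.lt_or_ge q 98703 with hb | hb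
  · exact chunk_sound ck257_96703 WW_dvd (by norm_num) Nat.one_pos ef257_prime fqT_prime GT_prime hq
      (by omega) (by omega) (by omega) h
  rcases Nat.lt_or_ge q 100703 with hb | hb
  · exact chunk_sound ck257_98703 WW_dvd (by norm_num) Nat.one_pos ef257_prime fqT_prime GT_prime hq
      (by omega) (by omega) (by omega) h
  rcases Nat.lt_or_ge q 102703 with hb | hb
  · exact chunk_sound ck257_100703 WW_dvd (by norm_num) Nat.one_pos ef257_prime fqT_prime GT_prime hq
      (by omega) (by omega) (by omega) h
  rcases Nat.lt_or_ge q 104703 with hb | hb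
  · exact chunk_sound ck257_102703 WW_dvd (by norm_num) Nat.one_pos ef257_prime fqT_prime GT_prime hq
      (by omega) (by omega) (by omega) h
  rcases Nat.lt_or_ge q 106703 with hb | hb
  · exact chunk_sound ck257_104703 WW_dvd (by norm_num) Nat.one_pos ef257_prime fqT_prime GT_prime hq
      (by omega) (by omega) (by omega) h
  rcases Nat.lt_or_ge q 108703 with hb | hb
  · exact chunk_sound ck257_106703 WW_dvd (by norm_num) Nat.one_pos ef257_prime fqT_prime GT_prime hq
      (by omega) (by omega) (by omega) h
  rcases Nat.lt_or_ge q 110703 with hb | hb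
  · exact chunk_sound ck257_108703 WW_dvd (by norm_num) Nat.one_pos ef257_prime fqT_prime GT_prime hq
      (by omega) (by omega) (by omega) h
  rcases Nat.lt_or_ge q 112703 with hb | hb
  · exact chunk_sound ck257_110703 WW_dvd (by norm_num) Nat.one_pos ef257_prime fqT_prime GT_prime hq
      (by omega) (by omega) (by omega) h
  rcases Nat.lt_or_ge q 114703 with hb | hb
  · exact chunk_sound ck257_112703 WW_dvd (by norm_num) Nat.one_pos ef257_prime fqT_prime GT_prime hq
      (by omega) (by omega) (by omega) h
  rcases Nat.lt_or_ge q 116703 with hb | hb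
  · exact chunk_sound ck257_114703 WW_dvd (by norm_num) Nat.one_pos ef257_prime fqT_prime GT_prime hq
      (by omega) (by omega) (by omega) h
  rcases Nat.lt_or_ge q 118703 with hb | hb
  · exact chunk_sound ck257_116703 WW_dvd (by norm_num) Nat.one_pos ef257_prime fqT_prime GT_prime hq
      (by omega) (by omega) (by omega) h
  rcases Nat.lt_or_ge q 120703 with hb | hb
  · exact chunk_sound ck257_118703 WW_dvd (by norm_num) Nat.one_pos ef257_prime fqT_prime GT_prime hq
      (by omega) (by omega) (by omega) h
  rcases Nat.lt_or_ge q 122703 with hb | hb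
  · exact chunk_sound ck257_120703 WW_dvd (by norm_num) Nat.one_pos ef257_prime fqT_prime GT_prime hq
      (by omega) (by omega) (by omega) h
  rcases Nat.lt_or_ge q 124703 with hb | hb
  · exact chunk_sound ck257_122703 WW_dvd (by norm_num) Nat.one_pos ef257_prime fqT_prime GT_prime hq
      (by omega) (by omega) (by omega) h
  rcases Nat.lt_or_ge q 126703 with hb | hb
  · exact chunk_sound ck257_124703 WW_dvd (by norm_num) Nat.one_pos ef257_prime fqT_prime GT_prime hq
      (by omega) (by omega) (by omega) h
  rcases Nat.lt_or_ge q 128703 with hb | hb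
  · exact chunk_sound ck257_126703 WW_dvd (by norm_num) Nat.one_pos ef257_prime fqT_prime GT_prime hq
      (by omega) (by omega) (by omega) h
  rcases Nat.lt_or_ge q 130703 with hb | hb
  · exact chunk_sound ck257_128703 WW_dvd (by norm_num) Nat.one_pos ef257_prime fqT_prime GT_prime hq
      (by omega) (by omega) (by omega) h
  rcases Nat.lt_or_ge q 132703 with hb | hb
  · exact chunk_sound ck257_130703 WW_dvd (by norm_num) Nat.one_pos ef257_prime fqT_prime GT_prime hq
      (by omega) (by omega) (by omega) h
  rcases Nat.lt_or_ge q 134703 with hb | hb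
  · exact chunk_sound ck257_132703 WW_dvd (by norm_num) Nat.one_pos ef257_prime fqT_prime GT_prime hq
      (by omega) (by omega) (by omega) h
  rcases Nat.lt_or_ge q 136703 with hb | hb
  · exact chunk_sound ck257_134703 WW_dvd (by norm_num) Nat.one_pos ef257_prime fqT_prime GT_prime hq
      (by omega) (by omega) (by omega) h
  rcases Nat.lt_or_ge q 138703 with hb | hb
  · exact chunk_sound ck257_136703 WW_dvd (by norm_num) Nat.one_pos ef257_prime fqT_prime GT_prime hq
      (by omega) (by omega) (by omega) h
  rcases Nat.lt_or_ge q 140703 with hb | hb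
  · exact chunk_sound ck257_138703 WW_dvd (by norm_num) Nat.one_pos ef257_prime fqT_prime GT_prime hq
      (by omega) (by omega) (by omega) h
  rcases Nat.lt_or_ge q 142703 with hb | hb
  · exact chunk_sound ck257_140703 WW_dvd (by norm_num) Nat.one_pos ef257_prime fqT_prime GT_prime hq
      (by omega) (by omega) (by omega) h
  rcases Nat.lt_or_ge q 144703 with hb | hb
  · exact chunk_sound ck257_142703 WW_dvd (by norm_num) Nat.one_pos ef257_prime fqT_prime GT_prime hq
      (by omega) (by omega) (by omega) h
  rcases Nat.lt_or_ge q 146703 with hb | hb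
  · exact chunk_sound ck257_144703 WW_dvd (by norm_num) Nat.one_pos ef257_prime fqT_prime GT_prime hq
      (by omega) (by omega) (by omega) h
  rcases Nat.lt_or_ge q 148703 with hb | hb
  · exact chunk_sound ck257_146703 WW_dvd (by norm_num) Nat.one_pos ef257_prime fqT_prime GT_prime hq
      (by omega) (by omega) (by omega) h
  rcases Nat.lt_or_ge q 150703 with hb | hb
  · exact chunk_sound ck257_148703 WW_dvd (by norm_num) Nat.one_pos ef257_prime fqT_prime GT_prime hq
      (by omega) (by omega) (by omega) h
  rcases Nat.lt_or_ge q 152703 with hb | hb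
  · exact chunk_sound ck257_150703 WW_dvd (by norm_num) Nat.one_pos ef257_prime fqT_prime GT_prime hq
      (by omega) (by omega) (by omega) h
  rcases Nat.lt_or_ge q 154703 with hb | hb
  · exact chunk_sound ck257_152703 WW_dvd (by norm_num) Nat.one_pos ef257_prime fqT_prime GT_prime hq
      (by omega) (by omega) (by omega) h
  rcases Nat.lt_or_ge q 156703 with hb | hb
  · exact chunk_sound ck257_154703 WW_dvd (by norm_num) Nat.one_pos ef257_prime fqT_prime GT_prime hq
      (by omega) (by omega) (by omega) h
  rcases Nat.lt_or_ge q 158703 with hb | hb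
  · exact chunk_sound ck257_156703 WW_dvd (by norm_num) Nat.one_pos ef257_prime fqT_prime GT_prime hq
      (by omega) (by omega) (by omega) h
  rcases Nat.lt_or_ge q 160703 with hb | hb
  · exact chunk_sound ck257_158703 WW_dvd (by norm_num) Nat.one_pos ef257_prime fqT_prime GT_prime hq
      (by omega) (by omega) (by omega) h
  rcases Nat.lt_or_ge q 162703 with hb | hb
  · exact chunk_sound ck257_160703 WW_dvd (by norm_num) Nat.one_pos ef257_prime fqT_prime GT_prime hq
      (by omega) (by omega) (by omega) h
  rcases Nat.lt_or_ge q 164703 with hb | hb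
  · exact chunk_sound ck257_162703 WW_dvd (by norm_num) Nat.one_pos ef257_prime fqT_prime GT_prime hq
      (by omega) (by omega) (by omega) h
  rcases Nat.lt_or_ge q 166703 with hb | hb
  · exact chunk_sound ck257_164703 WW_dvd (by norm_num) Nat.one_pos ef257_prime fqT_prime GT_prime hq
      (by omega) (by omega) (by omega) h
  rcases Nat.lt_or_ge q 168703 with hb | hb
  · exact chunk_sound ck257_166703 WW_dvd (by norm_num) Nat.one_pos ef257_prime fqT_prime GT_prime hq
      (by omega) (by omega) (by omega) h
  rcases Nat.lt_or_ge q 170703 with hb | hb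
  · exact chunk_sound ck257_168703 WW_dvd (by norm_num) Nat.one_pos ef257_prime fqT_prime GT_prime hq
      (by omega) (by omega) (by omega) h
  rcases Nat.lt_or_ge q 172703 with hb | hb
  · exact chunk_sound ck257_170703 WW_dvd (by norm_num) Nat.one_pos ef257_prime fqT_prime GT_prime hq
      (by omega) (by omega) (by omega) h
  rcases Nat.lt_or_ge q 174703 with hb | hb
  · exact chunk_sound ck257_172703 WW_dvd (by norm_num) Nat.one_pos ef257_prime fqT_prime GT_prime hq
      (by omega) (by omega) (by omega) h
  rcases Nat.lt_or_ge q 176703 with hb | hb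
  · exact chunk_sound ck257_174703 WW_dvd (by norm_num) Nat.one_pos ef257_prime fqT_prime GT_prime hq
      (by omega) (by omega) (by omega) h
  rcases Nat.lt_or_ge q 178703 with hb | hb
  · exact chunk_sound ck257_176703 WW_dvd (by norm_num) Nat.one_pos ef257_prime fqT_prime GT_prime hq
      (by omega) (by omega) (by omega) h
  rcases Nat.lt_or_ge q 180703 with hb | hb
  · exact chunk_sound ck257_178703 WW_dvd (by norm_num) Nat.one_pos ef257_prime fqT_prime GT_prime hq
      (by omega) (by omega) (by omega) h
  rcases Nat.lt_or_ge q 182703 with hb | hb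
  · exact chunk_sound ck257_180703 WW_dvd (by norm_num) Nat.one_pos ef257_prime fqT_prime GT_prime hq
      (by omega) (by omega) (by omega) h
  rcases Nat.lt_or_ge q 184703 with hb | hb
  · exact chunk_sound ck257_182703 WW_dvd (by norm_num) Nat.one_pos ef257_prime fqT_prime GT_prime hq
      (by omega) (by omega) (by omega) h
  rcases Nat.lt_or_ge q 186703 with hb | hb
  · exact chunk_sound ck257_184703 WW_dvd (by norm_num) Nat.one_pos ef257_prime fqT_prime GT_prime hq
      (by omega) (by omega) (by omega) h
  rcases Nat.lt_or_ge q 188703 with hb | hb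
  · exact chunk_sound ck257_186703 WW_dvd (by norm_num) Nat.one_pos ef257_prime fqT_prime GT_prime hq
      (by omega) (by omega) (by omega) h
  exact chunk_sound ck257_188703 WW_dvd (by norm_num) Nat.one_pos ef257_prime fqT_prime GT_prime hq
      (by omega) (by omega) (by omega) h

theorem ef263_prime : ∀ x ∈ ef263, x.2.Prime := prL_sound (by decide +kernel)

theorem E263 {q : ℕ} (hq : q.Prime) (h1 : 263 < q) (h2 : q ≤ 10600) {N M : ℕ}
    (h : Sol 263 q N M) : False := by
  have ho : q % 2 = 1 := (hq.eq_two_or_odd).resolve_left (by omega)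
  rcases Nat.lt_or_ge q 703 with hb | hb
  · exact chunk_sound ck263_265 W23_dvd (by norm_num) Nat.one_pos ef263_prime fqT_prime GT_prime hq
      (by omega) (by omega) (by omega) h
  rcases Nat.lt_or_ge q 3703 with hb | hb
  · exact chunk_sound ck263_703 WW_dvd (by norm_num) Nat.one_pos ef263_prime fqT_prime GT_prime hq
      (by omega) (by omega) (by omega) h
  rcases Nat.lt_or_ge q 6703 with hb | hb
  · exact chunk_sound ck263_3703 WW_dvd (by norm_num) Nat.one_pos ef263_prime fqT_prime GT_prime hq
      (by omega) (by omega) (by omega) h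
  rcases Nat.lt_or_ge q 9703 with hb | hb
  · exact chunk_sound ck263_6703 WW_dvd (by norm_num) Nat.one_pos ef263_prime fqT_prime GT_prime hq
      (by omega) (by omega) (by omega) h
  exact chunk_sound ck263_9703 WW_dvd (by norm_num) Nat.one_pos ef263_prime fqT_prime GT_prime hq
      (by omega) (by omega) (by omega) h

theorem ef269_prime : ∀ x ∈ ef269, x.2.Prime := prL_sound (by decide +kernel)

theorem E269 {q : ℕ} (hq : q.Prime) (h1 : 269 < q) (h2 : q ≤ 5600) {N M : ℕ}
    (h : Sol 269 q N M) : False := by
  have ho : q % 2 = 1 := (hq.eq_two_or_odd).resolve_left (by omega)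
  rcases Nat.lt_or_ge q 703 with hb | hb
  · exact chunk_sound ck269_271 W23_dvd (by norm_num) Nat.one_pos ef269_prime fqT_prime GT_prime hq
      (by omega) (by omega) (by omega) h
  exact chunk_sound ck269_703 WW_dvd (by norm_num) Nat.one_pos ef269_prime fqT_prime GT_prime hq
      (by omega) (by omega) (by omega) h

theorem ef271_prime : ∀ x ∈ ef271, x.2.Prime := prL_sound (by decide +kernel)

theorem E271 {q : ℕ} (hq : q.Prime) (h1 : 271 < q) (h2 : q ≤ 4850) {N M : ℕ}
    (h : Sol 271 q N M) : False := by
  have ho : q % 2 = 1 := (hq.eq_two_or_odd).resolve_left (by omega)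
  rcases Nat.lt_or_ge q 703 with hb | hb
  · exact chunk_sound ck271_273 W23_dvd (by norm_num) Nat.one_pos ef271_prime fqT_prime GT_prime hq
      (by omega) (by omega) (by omega) h
  exact chunk_sound ck271_703 WW_dvd (by norm_num) Nat.one_pos ef271_prime fqT_prime GT_prime hq
      (by omega) (by omega) (by omega) h

theorem ef277_prime : ∀ x ∈ ef277, x.2.Prime := prL_sound (by decide +kernel)

theorem E277 {q : ℕ} (hq : q.Prime) (h1 : 277 < q) (h2 : q ≤ 3500) {N M : ℕ}
    (h : Sol 277 q N M) : False := by
  have ho : q % 2 = 1 := (hq.eq_two_or_odd).resolve_left (by omega)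
  rcases Nat.lt_or_ge q 703 with hb | hb
  · exact chunk_sound ck277_279 W23_dvd (by norm_num) Nat.one_pos ef277_prime fqT_prime GT_prime hq
      (by omega) (by omega) (by omega) h
  exact chunk_sound ck277_703 WW_dvd (by norm_num) Nat.one_pos ef277_prime fqT_prime GT_prime hq
      (by omega) (by omega) (by omega) h

theorem ef281_prime : ∀ x ∈ ef281, x.2.Prime := prL_sound (by decide +kernel)

theorem E281 {q : ℕ} (hq : q.Prime) (h1 : 281 < q) (h2 : q ≤ 2970) {N M : ℕ}
    (h : Sol 281 q N M) : False := by
  have ho : q % 2 = 1 := (hq.eq_two_or_odd).resolve_left (by omega)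
  rcases Nat.lt_or_ge q 703 with hb | hb
  · exact chunk_sound ck281_283 W23_dvd (by norm_num) Nat.one_pos ef281_prime fqT_prime GT_prime hq
      (by omega) (by omega) (by omega) h
  exact chunk_sound ck281_703 WW_dvd (by norm_num) Nat.one_pos ef281_prime fqT_prime GT_prime hq
      (by omega) (by omega) (by omega) h

theorem ef283_prime : ∀ x ∈ ef283, x.2.Prime := prL_sound (by decide +kernel)

theorem E283 {q : ℕ} (hq : q.Prime) (h1 : 283 < q) (h2 : q ≤ 2760) {N M : ℕ}
    (h : Sol 283 q N M) : False := by
  have ho : q % 2 = 1 := (hq.eq_two_or_odd).resolve_left (by omega)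
  rcases Nat.lt_or_ge q 703 with hb | hb
  · exact chunk_sound ck283_285 W23_dvd (by norm_num) Nat.one_pos ef283_prime fqT_prime GT_prime hq
      (by omega) (by omega) (by omega) h
  exact chunk_sound ck283_703 WW_dvd (by norm_num) Nat.one_pos ef283_prime fqT_prime GT_prime hq
      (by omega) (by omega) (by omega) h

theorem ef293_prime : ∀ x ∈ ef293, x.2.Prime := prL_sound (by decide +kernel)

theorem E293 {q : ℕ} (hq : q.Prime) (h1 : 293 < q) (h2 : q ≤ 2070) {N M : ℕ}
    (h : Sol 293 q N M) : False := by
  have ho : q % 2 = 1 := (hq.eq_two_or_odd).resolve_left (by omega)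
  rcases Nat.lt_or_ge q 703 with hb | hb
  · exact chunk_sound ck293_295 W23_dvd (by norm_num) Nat.one_pos ef293_prime fqT_prime GT_prime hq
      (by omega) (by omega) (by omega) h
  exact chunk_sound ck293_703 WW_dvd (by norm_num) Nat.one_pos ef293_prime fqT_prime GT_prime hq
      (by omega) (by omega) (by omega) h

theorem ef307_prime : ∀ x ∈ ef307, x.2.Prime := prL_sound (by decide +kernel)

theorem E307 {q : ℕ} (hq : q.Prime) (h1 : 307 < q) (h2 : q ≤ 1570) {N M : ℕ}
    (h : Sol 307 q N M) : False := by
  have ho : q % 2 = 1 := (hq.eq_two_or_odd).resolve_left (by omega)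
  rcases Nat.lt_or_ge q 703 with hb | hb
  · exact chunk_sound ck307_309 W23_dvd (by norm_num) Nat.one_pos ef307_prime fqT_prime GT_prime hq
      (by omega) (by omega) (by omega) h
  exact chunk_sound ck307_703 WW_dvd (by norm_num) Nat.one_pos ef307_prime fqT_prime GT_prime hq
      (by omega) (by omega) (by omega) h

theorem ef311_prime : ∀ x ∈ ef311, x.2.Prime := prL_sound (by decide +kernel)

theorem E311 {q : ℕ} (hq : q.Prime) (h1 : 311 < q) (h2 : q ≤ 1470) {N M : ℕ}
    (h : Sol 311 q N M) : False := by
  have ho : q % 2 = 1 := (hq.eq_two_or_odd).resolve_left (by omega)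
  rcases Nat.lt_or_ge q 703 with hb | hb
  · exact chunk_sound ck311_313 W23_dvd (by norm_num) Nat.one_pos ef311_prime fqT_prime GT_prime hq
      (by omega) (by omega) (by omega) h
  exact chunk_sound ck311_703 WW_dvd (by norm_num) Nat.one_pos ef311_prime fqT_prime GT_prime hq
      (by omega) (by omega) (by omega) h

theorem ef313_prime : ∀ x ∈ ef313, x.2.Prime := prL_sound (by decide +kernel)

theorem E313 {q : ℕ} (hq : q.Prime) (h1 : 313 < q) (h2 : q ≤ 1430) {N M : ℕ}
    (h : Sol 313 q N M) : False := by
  have ho : q % 2 = 1 := (hq.eq_two_or_odd).resolve_left (by omega)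
  rcases Nat.lt_or_ge q 703 with hb | hb
  · exact chunk_sound ck313_315 W23_dvd (by norm_num) Nat.one_pos ef313_prime fqT_prime GT_prime hq
      (by omega) (by omega) (by omega) h
  exact chunk_sound ck313_703 WW_dvd (by norm_num) Nat.one_pos ef313_prime fqT_prime GT_prime hq
      (by omega) (by omega) (by omega) h

theorem ef317_prime : ∀ x ∈ ef317, x.2.Prime := prL_sound (by decide +kernel)

theorem E317 {q : ℕ} (hq : q.Prime) (h1 : 317 < q) (h2 : q ≤ 1350) {N M : ℕ}
    (h : Sol 317 q N M) : False := by
  have ho : q % 2 = 1 := (hq.eq_two_or_odd).resolve_left (by omega)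
  rcases Nat.lt_or_ge q 703 with hb | hb
  · exact chunk_sound ck317_319 W23_dvd (by norm_num) Nat.one_pos ef317_prime fqT_prime GT_prime hq
      (by omega) (by omega) (by omega) h
  exact chunk_sound ck317_703 WW_dvd (by norm_num) Nat.one_pos ef317_prime fqT_prime GT_prime hq
      (by omega) (by omega) (by omega) h

theorem ef331_prime : ∀ x ∈ ef331, x.2.Prime := prL_sound (by decide +kernel)

theorem E331 {q : ℕ} (hq : q.Prime) (h1 : 331 < q) (h2 : q ≤ 1150) {N M : ℕ}
    (h : Sol 331 q N M) : False := by
  have ho : q % 2 = 1 := (hq.eq_two_or_odd).resolve_left (by omega)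
  rcases Nat.lt_or_ge q 703 with hb | hb
  · exact chunk_sound ck331_333 W23_dvd (by norm_num) Nat.one_pos ef331_prime fqT_prime GT_prime hq
      (by omega) (by omega) (by omega) h
  exact chunk_sound ck331_703 WW_dvd (by norm_num) Nat.one_pos ef331_prime fqT_prime GT_prime hq
      (by omega) (by omega) (by omega) h

theorem ef337_prime : ∀ x ∈ ef337, x.2.Prime := prL_sound (by decide +kernel)

theorem E337 {q : ℕ} (hq : q.Prime) (h1 : 337 < q) (h2 : q ≤ 1080) {N M : ℕ}
    (h : Sol 337 q N M) : False := by
  have ho : q % 2 = 1 := (hq.eq_two_or_odd).resolve_left (by omega)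
  rcases Nat.lt_or_ge q 703 with hb | hb
  · exact chunk_sound ck337_339 W23_dvd (by norm_num) Nat.one_pos ef337_prime fqT_prime GT_prime hq
      (by omega) (by omega) (by omega) h
  exact chunk_sound ck337_703 WW_dvd (by norm_num) Nat.one_pos ef337_prime fqT_prime GT_prime hq
      (by omega) (by omega) (by omega) h

theorem ef347_prime : ∀ x ∈ ef347, x.2.Prime := prL_sound (by decide +kernel)

theorem E347 {q : ℕ} (hq : q.Prime) (h1 : 347 < q) (h2 : q ≤ 990) {N M : ℕ}
    (h : Sol 347 q N M) : False := by
  have ho : q % 2 = 1 := (hq.eq_two_or_odd).resolve_left (by omega)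
  rcases Nat.lt_or_ge q 703 with hb | hb
  · exact chunk_sound ck347_349 W23_dvd (by norm_num) Nat.one_pos ef347_prime fqT_prime GT_prime hq
      (by omega) (by omega) (by omega) h
  exact chunk_sound ck347_703 WW_dvd (by norm_num) Nat.one_pos ef347_prime fqT_prime GT_prime hq
      (by omega) (by omega) (by omega) h

theorem ef349_prime : ∀ x ∈ ef349, x.2.Prime := prL_sound (by decide +kernel)

theorem E349 {q : ℕ} (hq : q.Prime) (h1 : 349 < q) (h2 : q ≤ 975) {N M : ℕ}
    (h : Sol 349 q N M) : False := by
  have ho : q % 2 = 1 := (hq.eq_two_or_odd).resolve_left (by omega)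
  rcases Nat.lt_or_ge q 703 with hb | hb
  · exact chunk_sound ck349_351 W23_dvd (by norm_num) Nat.one_pos ef349_prime fqT_prime GT_prime hq
      (by omega) (by omega) (by omega) h
  exact chunk_sound ck349_703 WW_dvd (by norm_num) Nat.one_pos ef349_prime fqT_prime GT_prime hq
      (by omega) (by omega) (by omega) h

theorem ef353_prime : ∀ x ∈ ef353, x.2.Prime := prL_sound (by decide +kernel)

theorem E353 {q : ℕ} (hq : q.Prime) (h1 : 353 < q) (h2 : q ≤ 945) {N M : ℕ}
    (h : Sol 353 q N M) : False := by
  have ho : q % 2 = 1 := (hq.eq_two_or_odd).resolve_left (by omega)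
  rcases Nat.lt_or_ge q 703 with hb | hb
  · exact chunk_sound ck353_355 W23_dvd (by norm_num) Nat.one_pos ef353_prime fqT_prime GT_prime hq
      (by omega) (by omega) (by omega) h
  exact chunk_sound ck353_703 WW_dvd (by norm_num) Nat.one_pos ef353_prime fqT_prime GT_prime hq
      (by omega) (by omega) (by omega) h

theorem ef359_prime : ∀ x ∈ ef359, x.2.Prime := prL_sound (by decide +kernel)

theorem E359 {q : ℕ} (hq : q.Prime) (h1 : 359 < q) (h2 : q ≤ 905) {N M : ℕ}
    (h : Sol 359 q N M) : False := by
  have ho : q % 2 = 1 := (hq.eq_two_or_odd).resolve_left (by omega)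
  rcases Nat.lt_or_ge q 703 with hb | hb
  · exact chunk_sound ck359_361 W23_dvd (by norm_num) Nat.one_pos ef359_prime fqT_prime GT_prime hq
      (by omega) (by omega) (by omega) h
  exact chunk_sound ck359_703 WW_dvd (by norm_num) Nat.one_pos ef359_prime fqT_prime GT_prime hq
      (by omega) (by omega) (by omega) h

theorem ef367_prime : ∀ x ∈ ef367, x.2.Prime := prL_sound (by decide +kernel)

theorem E367 {q : ℕ} (hq : q.Prime) (h1 : 367 < q) (h2 : q ≤ 860) {N M : ℕ}
    (h : Sol 367 q N M) : False := by
  have ho : q % 2 = 1 := (hq.eq_two_or_odd).resolve_left (by omega)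
  rcases Nat.lt_or_ge q 703 with hb | hb
  · exact chunk_sound ck367_369 W23_dvd (by norm_num) Nat.one_pos ef367_prime fqT_prime GT_prime hq
      (by omega) (by omega) (by omega) h
  exact chunk_sound ck367_703 WW_dvd (by norm_num) Nat.one_pos ef367_prime fqT_prime GT_prime hq
      (by omega) (by omega) (by omega) h

theorem ef373_prime : ∀ x ∈ ef373, x.2.Prime := prL_sound (by decide +kernel)

theorem E373 {q : ℕ} (hq : q.Prime) (h1 : 373 < q) (h2 : q ≤ 830) {N M : ℕ}
    (h : Sol 373 q N M) : False := by
  have ho : q % 2 = 1 := (hq.eq_two_or_odd).resolve_left (by omega)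
  rcases Nat.lt_or_ge q 703 with hb | hb
  · exact chunk_sound ck373_375 W23_dvd (by norm_num) Nat.one_pos ef373_prime fqT_prime GT_prime hq
      (by omega) (by omega) (by omega) h
  exact chunk_sound ck373_703 WW_dvd (by norm_num) Nat.one_pos ef373_prime fqT_prime GT_prime hq
      (by omega) (by omega) (by omega) h

theorem ef379_prime : ∀ x ∈ ef379, x.2.Prime := prL_sound (by decide +kernel)

theorem E379 {q : ℕ} (hq : q.Prime) (h1 : 379 < q) (h2 : q ≤ 800) {N M : ℕ}
    (h : Sol 379 q N M) : False := by
  have ho : q % 2 = 1 := (hq.eq_two_or_odd).resolve_left (by omega)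
  rcases Nat.lt_or_ge q 703 with hb | hb
  · exact chunk_sound ck379_381 W23_dvd (by norm_num) Nat.one_pos ef379_prime fqT_prime GT_prime hq
      (by omega) (by omega) (by omega) h
  exact chunk_sound ck379_703 WW_dvd (by norm_num) Nat.one_pos ef379_prime fqT_prime GT_prime hq
      (by omega) (by omega) (by omega) h

theorem ef383_prime : ∀ x ∈ ef383, x.2.Prime := prL_sound (by decide +kernel)

theorem E383 {q : ℕ} (hq : q.Prime) (h1 : 383 < q) (h2 : q ≤ 780) {N M : ℕ}
    (h : Sol 383 q N M) : False := by
  have ho : q % 2 = 1 := (hq.eq_two_or_odd).resolve_left (by omega)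
  rcases Nat.lt_or_ge q 703 with hb | hb
  · exact chunk_sound ck383_385 W23_dvd (by norm_num) Nat.one_pos ef383_prime fqT_prime GT_prime hq
      (by omega) (by omega) (by omega) h
  exact chunk_sound ck383_703 WW_dvd (by norm_num) Nat.one_pos ef383_prime fqT_prime GT_prime hq
      (by omega) (by omega) (by omega) h

theorem ef389_prime : ∀ x ∈ ef389, x.2.Prime := prL_sound (by decide +kernel)

theorem E389 {q : ℕ} (hq : q.Prime) (h1 : 389 < q) (h2 : q ≤ 760) {N M : ℕ}
    (h : Sol 389 q N M) : False := by
  have ho : q % 2 = 1 := (hq.eq_two_or_odd).resolve_left (by omega)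
  rcases Nat.lt_or_ge q 703 with hb | hb
  · exact chunk_sound ck389_391 W23_dvd (by norm_num) Nat.one_pos ef389_prime fqT_prime GT_prime hq
      (by omega) (by omega) (by omega) h
  exact chunk_sound ck389_703 WW_dvd (by norm_num) Nat.one_pos ef389_prime fqT_prime GT_prime hq
      (by omega) (by omega) (by omega) h

theorem ef397_prime : ∀ x ∈ ef397, x.2.Prime := prL_sound (by decide +kernel)

theorem E397 {q : ℕ} (hq : q.Prime) (h1 : 397 < q) (h2 : q ≤ 730) {N M : ℕ}
    (h : Sol 397 q N M) : False := by
  have ho : q % 2 = 1 := (hq.eq_two_or_odd).resolve_left (by omega)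
  rcases Nat.lt_or_ge q 703 with hb | hb
  · exact chunk_sound ck397_399 W23_dvd (by norm_num) Nat.one_pos ef397_prime fqT_prime GT_prime hq
      (by omega) (by omega) (by omega) h
  exact chunk_sound ck397_703 WW_dvd (by norm_num) Nat.one_pos ef397_prime fqT_prime GT_prime hq
      (by omega) (by omega) (by omega) h

theorem ef401_prime : ∀ x ∈ ef401, x.2.Prime := prL_sound (by decide +kernel)

theorem E401 {q : ℕ} (hq : q.Prime) (h1 : 401 < q) (h2 : q ≤ 720) {N M : ℕ}
    (h : Sol 401 q N M) : False := by
  have ho : q % 2 = 1 := (hq.eq_two_or_odd).resolve_left (by omega)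
  rcases Nat.lt_or_ge q 703 with hb | hb
  · exact chunk_sound ck401_403 W23_dvd (by norm_num) Nat.one_pos ef401_prime fqT_prime GT_prime hq
      (by omega) (by omega) (by omega) h
  exact chunk_sound ck401_703 WW_dvd (by norm_num) Nat.one_pos ef401_prime fqT_prime GT_prime hq
      (by omega) (by omega) (by omega) h

theorem ef409_prime : ∀ x ∈ ef409, x.2.Prime := prL_sound (by decide +kernel)

theorem E409 {q : ℕ} (hq : q.Prime) (h1 : 409 < q) (h2 : q ≤ 695) {N M : ℕ}
    (h : Sol 409 q N M) : False := by
  have ho : q % 2 = 1 := (hq.eq_two_or_odd).resolve_left (by omega)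
  exact chunk_sound ck409_411 W23_dvd (by norm_num) Nat.one_pos ef409_prime fqT_prime GT_prime hq
      (by omega) (by omega) (by omega) h

theorem ef419_prime : ∀ x ∈ ef419, x.2.Prime := prL_sound (by decide +kernel)

theorem E419 {q : ℕ} (hq : q.Prime) (h1 : 419 < q) (h2 : q ≤ 670) {N M : ℕ}
    (h : Sol 419 q N M) : False := by
  have ho : q % 2 = 1 := (hq.eq_two_or_odd).resolve_left (by omega)
  exact chunk_sound ck419_421 W23_dvd (by norm_num) Nat.one_pos ef419_prime fqT_prime GT_prime hq
      (by omega) (by omega) (by omega) h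

theorem ef421_prime : ∀ x ∈ ef421, x.2.Prime := prL_sound (by decide +kernel)

theorem E421 {q : ℕ} (hq : q.Prime) (h1 : 421 < q) (h2 : q ≤ 660) {N M : ℕ}
    (h : Sol 421 q N M) : False := by
  have ho : q % 2 = 1 := (hq.eq_two_or_odd).resolve_left (by omega)
  exact chunk_sound ck421_423 W23_dvd (by norm_num) Nat.one_pos ef421_prime fqT_prime GT_prime hq
      (by omega) (by omega) (by omega) h

theorem ef431_prime : ∀ x ∈ ef431, x.2.Prime := prL_sound (by decide +kernel)

theorem E431 {q : ℕ} (hq : q.Prime) (h1 : 431 < q) (h2 : q ≤ 640) {N M : ℕ}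
    (h : Sol 431 q N M) : False := by
  have ho : q % 2 = 1 := (hq.eq_two_or_odd).resolve_left (by omega)
  exact chunk_sound ck431_433 W23_dvd (by norm_num) Nat.one_pos ef431_prime fqT_prime GT_prime hq
      (by omega) (by omega) (by omega) h

theorem ef433_prime : ∀ x ∈ ef433, x.2.Prime := prL_sound (by decide +kernel)

theorem E433 {q : ℕ} (hq : q.Prime) (h1 : 433 < q) (h2 : q ≤ 635) {N M : ℕ}
    (h : Sol 433 q N M) : False := by
  have ho : q % 2 = 1 := (hq.eq_two_or_odd).resolve_left (by omega)
  exact chunk_sound ck433_435 W23_dvd (by norm_num) Nat.one_pos ef433_prime fqT_prime GT_prime hq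
      (by omega) (by omega) (by omega) h

theorem ef439_prime : ∀ x ∈ ef439, x.2.Prime := prL_sound (by decide +kernel)

theorem E439 {q : ℕ} (hq : q.Prime) (h1 : 439 < q) (h2 : q ≤ 620) {N M : ℕ}
    (h : Sol 439 q N M) : False := by
  have ho : q % 2 = 1 := (hq.eq_two_or_odd).resolve_left (by omega)
  exact chunk_sound ck439_441 W23_dvd (by norm_num) Nat.one_pos ef439_prime fqT_prime GT_prime hq
      (by omega) (by omega) (by omega) h

theorem ef443_prime : ∀ x ∈ ef443, x.2.Prime := prL_sound (by decide +kernel)

theorem E443 {q : ℕ} (hq : q.Prime) (h1 : 443 < q) (h2 : q ≤ 615) {N M : ℕ}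
    (h : Sol 443 q N M) : False := by
  have ho : q % 2 = 1 := (hq.eq_two_or_odd).resolve_left (by omega)
  exact chunk_sound ck443_445 W23_dvd (by norm_num) Nat.one_pos ef443_prime fqT_prime GT_prime hq
      (by omega) (by omega) (by omega) h

theorem ef449_prime : ∀ x ∈ ef449, x.2.Prime := prL_sound (by decide +kernel)

theorem E449 {q : ℕ} (hq : q.Prime) (h1 : 449 < q) (h2 : q ≤ 600) {N M : ℕ}
    (h : Sol 449 q N M) : False := by
  have ho : q % 2 = 1 := (hq.eq_two_or_odd).resolve_left (by omega)
  exact chunk_sound ck449_451 W23_dvd (by norm_num) Nat.one_pos ef449_prime fqT_prime GT_prime hq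
      (by omega) (by omega) (by omega) h

theorem ef457_prime : ∀ x ∈ ef457, x.2.Prime := prL_sound (by decide +kernel)

theorem E457 {q : ℕ} (hq : q.Prime) (h1 : 457 < q) (h2 : q ≤ 590) {N M : ℕ}
    (h : Sol 457 q N M) : False := by
  have ho : q % 2 = 1 := (hq.eq_two_or_odd).resolve_left (by omega)
  exact chunk_sound ck457_459 W23_dvd (by norm_num) Nat.one_pos ef457_prime fqT_prime GT_prime hq
      (by omega) (by omega) (by omega) h

theorem ef461_prime : ∀ x ∈ ef461, x.2.Prime := prL_sound (by decide +kernel)

theorem E461 {q : ℕ} (hq : q.Prime) (h1 : 461 < q) (h2 : q ≤ 580) {N M : ℕ}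
    (h : Sol 461 q N M) : False := by
  have ho : q % 2 = 1 := (hq.eq_two_or_odd).resolve_left (by omega)
  exact chunk_sound ck461_463 W23_dvd (by norm_num) Nat.one_pos ef461_prime fqT_prime GT_prime hq
      (by omega) (by omega) (by omega) h

theorem ef463_prime : ∀ x ∈ ef463, x.2.Prime := prL_sound (by decide +kernel)

theorem E463 {q : ℕ} (hq : q.Prime) (h1 : 463 < q) (h2 : q ≤ 580) {N M : ℕ}
    (h : Sol 463 q N M) : False := by
  have ho : q % 2 = 1 := (hq.eq_two_or_odd).resolve_left (by omega)
  exact chunk_sound ck463_465 W23_dvd (by norm_num) Nat.one_pos ef463_prime fqT_prime GT_prime hq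
      (by omega) (by omega) (by omega) h

theorem ef467_prime : ∀ x ∈ ef467, x.2.Prime := prL_sound (by decide +kernel)

theorem E467 {q : ℕ} (hq : q.Prime) (h1 : 467 < q) (h2 : q ≤ 575) {N M : ℕ}
    (h : Sol 467 q N M) : False := by
  have ho : q % 2 = 1 := (hq.eq_two_or_odd).resolve_left (by omega)
  exact chunk_sound ck467_469 W23_dvd (by norm_num) Nat.one_pos ef467_prime fqT_prime GT_prime hq
      (by omega) (by omega) (by omega) h

theorem ef479_prime : ∀ x ∈ ef479, x.2.Prime := prL_sound (by decide +kernel)

theorem E479 {q : ℕ} (hq : q.Prime) (h1 : 479 < q) (h2 : q ≤ 560) {N M : ℕ}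
    (h : Sol 479 q N M) : False := by
  have ho : q % 2 = 1 := (hq.eq_two_or_odd).resolve_left (by omega)
  exact chunk_sound ck479_481 W23_dvd (by norm_num) Nat.one_pos ef479_prime fqT_prime GT_prime hq
      (by omega) (by omega) (by omega) h

theorem ef487_prime : ∀ x ∈ ef487, x.2.Prime := prL_sound (by decide +kernel)

theorem E487 {q : ℕ} (hq : q.Prime) (h1 : 487 < q) (h2 : q ≤ 545) {N M : ℕ}
    (h : Sol 487 q N M) : False := by
  have ho : q % 2 = 1 := (hq.eq_two_or_odd).resolve_left (by omega)
  exact chunk_sound ck487_489 W23_dvd (by norm_num) Nat.one_pos ef487_prime fqT_prime GT_prime hq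
      (by omega) (by omega) (by omega) h

theorem ef491_prime : ∀ x ∈ ef491, x.2.Prime := prL_sound (by decide +kernel)

theorem E491 {q : ℕ} (hq : q.Prime) (h1 : 491 < q) (h2 : q ≤ 540) {N M : ℕ}
    (h : Sol 491 q N M) : False := by
  have ho : q % 2 = 1 := (hq.eq_two_or_odd).resolve_left (by omega)
  exact chunk_sound ck491_493 W23_dvd (by norm_num) Nat.one_pos ef491_prime fqT_prime GT_prime hq
      (by omega) (by omega) (by omega) h

theorem ef499_prime : ∀ x ∈ ef499, x.2.Prime := prL_sound (by decide +kernel)

theorem E499 {q : ℕ} (hq : q.Prime) (h1 : 499 < q) (h2 : q ≤ 530) {N M : ℕ}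
    (h : Sol 499 q N M) : False := by
  have ho : q % 2 = 1 := (hq.eq_two_or_odd).resolve_left (by omega)
  exact chunk_sound ck499_501 W23_dvd (by norm_num) Nat.one_pos ef499_prime fqT_prime GT_prime hq
      (by omega) (by omega) (by omega) h

theorem ef503_prime : ∀ x ∈ ef503, x.2.Prime := prL_sound (by decide +kernel)

theorem E503 {q : ℕ} (hq : q.Prime) (h1 : 503 < q) (h2 : q ≤ 530) {N M : ℕ}
    (h : Sol 503 q N M) : False := by
  have ho : q % 2 = 1 := (hq.eq_two_or_odd).resolve_left (by omega)
  exact chunk_sound ck503_505 W23_dvd (by norm_num) Nat.one_pos ef503_prime fqT_prime GT_prime hq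
      (by omega) (by omega) (by omega) h

theorem ef509_prime : ∀ x ∈ ef509, x.2.Prime := prL_sound (by decide +kernel)

theorem E509 {q : ℕ} (hq : q.Prime) (h1 : 509 < q) (h2 : q ≤ 520) {N M : ℕ}
    (h : Sol 509 q N M) : False := by
  have ho : q % 2 = 1 := (hq.eq_two_or_odd).resolve_left (by omega)
  exact chunk_sound ck509_511 W23_dvd (by norm_num) Nat.one_pos ef509_prime fqT_prime GT_prime hq
      (by omega) (by omega) (by omega) h

theorem pair_excl {p q : ℕ} (hp : p.Prime) (h3 : 3 ≤ p) (hq : q.Prime) (hpq : p < q)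
    (hR : q ≤ Rt p) {N M : ℕ} (h : Sol p q N M) : False := by
  rcases Nat.lt_or_ge 509 p with h5 | h5
  · rw [Rt, if_pos h5] at hR
    omega
  have hmem : p ∈ PLst := by
    rcases cover_PL p (List.mem_range.2 (by omega)) with h6 | h6 | h6
    · omega
    · exact memB_sound h6
    · exact absurd hp (hasDiv_sound h6)
  rw [Rt, if_neg (by omega)] at hR
  simp only [PLst, List.mem_cons, List.not_mem_nil, or_false] at hmem
  rcases hmem with rfl | rfl | rfl | rfl | rfl | rfl | rfl | rfl | rfl | rfl | rfl | rfl | rfl | rfl | rfl | rfl | rfl | rfl | rfl | rfl | rfl | rfl | rfl | rfl | rfl | rfl | rfl | rfl | rfl | rfl | rfl | rfl | rfl | rfl | rfl | rfl | rfl | rfl | rfl | rfl | rfl | rfl | rfl | rfl | rfl | rfl | rfl | rfl | rfl | rfl | rfl | rfl | rfl | rfl | rfl | rfl | rfl | rfl | rfl | rfl | rfl | rfl | rfl | rfl | rfl | rfl | rfl | rfl | rfl | rfl | rfl | rfl | rfl | rfl | rfl | rfl | rfl | rfl | rfl | rfl | rfl | rfl | rfl | rfl | rfl | rfl | rfl | rfl | rfl | rfl | rfl | rfl | rfl | rfl | rfl | rfl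
  · exact E3 hq hpq (by simpa [RtL, lookupR] using hR) h
  · exact E5 hq hpq (by simpa [RtL, lookupR] using hR) h
  · exact E7 hq hpq (by simpa [RtL, lookupR] using hR) h
  · exact E11 hq hpq (by simpa [RtL, lookupR] using hR) h
  · exact E13 hq hpq (by simpa [RtL, lookupR] using hR) h
  · exact E17 hq hpq (by simpa [RtL, lookupR] using hR) h
  · exact E19 hq hpq (by simpa [RtL, lookupR] using hR) h
  · exact E23 hq hpq (by simpa [RtL, lookupR] using hR) h
  · exact E29 hq hpq (by simpa [RtL, lookupR] using hR) h
  · exact E31 hq hpq (by simpa [RtL, lookupR] using hR) h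
  · exact E37 hq hpq (by simpa [RtL, lookupR] using hR) h
  · exact E41 hq hpq (by simpa [RtL, lookupR] using hR) h
  · exact E43 hq hpq (by simpa [RtL, lookupR] using hR) h
  · exact E47 hq hpq (by simpa [RtL, lookupR] using hR) h
  · exact E53 hq hpq (by simpa [RtL, lookupR] using hR) h
  · exact E59 hq hpq (by simpa [RtL, lookupR] using hR) h
  · exact E61 hq hpq (by simpa [RtL, lookupR] using hR) h
  · exact E67 hq hpq (by simpa [RtL, lookupR] using hR) h
  · exact E71 hq hpq (by simpa [RtL, lookupR] using hR) h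
  · exact E73 hq hpq (by simpa [RtL, lookupR] using hR) h
  · exact E79 hq hpq (by simpa [RtL, lookupR] using hR) h
  · exact E83 hq hpq (by simpa [RtL, lookupR] using hR) h
  · exact E89 hq hpq (by simpa [RtL, lookupR] using hR) h
  · exact E97 hq hpq (by simpa [RtL, lookupR] using hR) h
  · exact E101 hq hpq (by simpa [RtL, lookupR] using hR) h
  · exact E103 hq hpq (by simpa [RtL, lookupR] using hR) h
  · exact E107 hq hpq (by simpa [RtL, lookupR] using hR) h
  · exact E109 hq hpq (by simpa [RtL, lookupR] using hR) h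
  · exact E113 hq hpq (by simpa [RtL, lookupR] using hR) h
  · exact E127 hq hpq (by simpa [RtL, lookupR] using hR) h
  · exact E131 hq hpq (by simpa [RtL, lookupR] using hR) h
  · exact E137 hq hpq (by simpa [RtL, lookupR] using hR) h
  · exact E139 hq hpq (by simpa [RtL, lookupR] using hR) h
  · exact E149 hq hpq (by simpa [RtL, lookupR] using hR) h
  · exact E151 hq hpq (by simpa [RtL, lookupR] using hR) h
  · exact E157 hq hpq (by simpa [RtL, lookupR] using hR) h
  · exact E163 hq hpq (by simpa [RtL, lookupR] using hR) h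
  · exact E167 hq hpq (by simpa [RtL, lookupR] using hR) h
  · exact E173 hq hpq (by simpa [RtL, lookupR] using hR) h
  · exact E179 hq hpq (by simpa [RtL, lookupR] using hR) h
  · exact E181 hq hpq (by simpa [RtL, lookupR] using hR) h
  · exact E191 hq hpq (by simpa [RtL, lookupR] using hR) h
  · exact E193 hq hpq (by simpa [RtL, lookupR] using hR) h
  · exact E197 hq hpq (by simpa [RtL, lookupR] using hR) h
  · exact E199 hq hpq (by simpa [RtL, lookupR] using hR) h
  · exact E211 hq hpq (by simpa [RtL, lookupR] using hR) h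
  · exact E223 hq hpq (by simpa [RtL, lookupR] using hR) h
  · exact E227 hq hpq (by simpa [RtL, lookupR] using hR) h
  · exact E229 hq hpq (by simpa [RtL, lookupR] using hR) h
  · exact E233 hq hpq (by simpa [RtL, lookupR] using hR) h
  · have h7 : lookupR 239 RtL ≤ 239 := by decide
    omega
  · have h7 : lookupR 241 RtL ≤ 241 := by decide
    omega
  · have h7 : lookupR 251 RtL ≤ 251 := by decide
    omega
  · exact E257 hq hpq (by simpa [RtL, lookupR] using hR) h
  · exact E263 hq hpq (by simpa [RtL, lookupR] using hR) h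
  · exact E269 hq hpq (by simpa [RtL, lookupR] using hR) h
  · exact E271 hq hpq (by simpa [RtL, lookupR] using hR) h
  · exact E277 hq hpq (by simpa [RtL, lookupR] using hR) h
  · exact E281 hq hpq (by simpa [RtL, lookupR] using hR) h
  · exact E283 hq hpq (by simpa [RtL, lookupR] using hR) h
  · exact E293 hq hpq (by simpa [RtL, lookupR] using hR) h
  · exact E307 hq hpq (by simpa [RtL, lookupR] using hR) h
  · exact E311 hq hpq (by simpa [RtL, lookupR] using hR) h
  · exact E313 hq hpq (by simpa [RtL, lookupR] using hR) h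
  · exact E317 hq hpq (by simpa [RtL, lookupR] using hR) h
  · exact E331 hq hpq (by simpa [RtL, lookupR] using hR) h
  · exact E337 hq hpq (by simpa [RtL, lookupR] using hR) h
  · exact E347 hq hpq (by simpa [RtL, lookupR] using hR) h
  · exact E349 hq hpq (by simpa [RtL, lookupR] using hR) h
  · exact E353 hq hpq (by simpa [RtL, lookupR] using hR) h
  · exact E359 hq hpq (by simpa [RtL, lookupR] using hR) h
  · exact E367 hq hpq (by simpa [RtL, lookupR] using hR) h
  · exact E373 hq hpq (by simpa [RtL, lookupR] using hR) h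
  · exact E379 hq hpq (by simpa [RtL, lookupR] using hR) h
  · exact E383 hq hpq (by simpa [RtL, lookupR] using hR) h
  · exact E389 hq hpq (by simpa [RtL, lookupR] using hR) h
  · exact E397 hq hpq (by simpa [RtL, lookupR] using hR) h
  · exact E401 hq hpq (by simpa [RtL, lookupR] using hR) h
  · exact E409 hq hpq (by simpa [RtL, lookupR] using hR) h
  · exact E419 hq hpq (by simpa [RtL, lookupR] using hR) h
  · exact E421 hq hpq (by simpa [RtL, lookupR] using hR) h
  · exact E431 hq hpq (by simpa [RtL, lookupR] using hR) h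
  · exact E433 hq hpq (by simpa [RtL, lookupR] using hR) h
  · exact E439 hq hpq (by simpa [RtL, lookupR] using hR) h
  · exact E443 hq hpq (by simpa [RtL, lookupR] using hR) h
  · exact E449 hq hpq (by simpa [RtL, lookupR] using hR) h
  · exact E457 hq hpq (by simpa [RtL, lookupR] using hR) h
  · exact E461 hq hpq (by simpa [RtL, lookupR] using hR) h
  · exact E463 hq hpq (by simpa [RtL, lookupR] using hR) h
  · exact E467 hq hpq (by simpa [RtL, lookupR] using hR) h
  · exact E479 hq hpq (by simpa [RtL, lookupR] using hR) h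
  · exact E487 hq hpq (by simpa [RtL, lookupR] using hR) h
  · exact E491 hq hpq (by simpa [RtL, lookupR] using hR) h
  · exact E499 hq hpq (by simpa [RtL, lookupR] using hR) h
  · exact E503 hq hpq (by simpa [RtL, lookupR] using hR) h
  · exact E509 hq hpq (by simpa [RtL, lookupR] using hR) h

end Pool.Agent.NearSuper255
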