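import Pool.Agent.NearSuper255.TabX

/-!
# Ranges of excluded pairs, second part, file 0
-/

namespace Pool.Agent.NearSuper255

theorem ck7_1501 : chunk WW (search 1 ef7 fqT GT FN7 4 7) 7
    [(2099, false, 7, [], [], [], [(1373, 343)], 0),
    (3947, false, 1, [], [], [], [(4649, 2324)], 0),
    (4759, false, 1, [], [], [(17, [(8, 2), (4, 2), (2, 2), (1, 2)]), (1201, [(600, 2), (300, 2), (150, 2), (75, 2), (400, 3), (240, 5), (48, 5)])], [(4201, 2100)], 1)] 2500 1501 = true := by
  decide +kernel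

theorem ck7_6501 : chunk WW (search 1 ef7 fqT GT FN7 4 7) 7
    [(7559, false, 7, [], [], [], [(7841, 3920)], 0),
    (9157, false, 1, [], [7], [(241, [(120, 2), (60, 2), (30, 2), (15, 2), (80, 3), (48, 5)]), (449, [(224, 2), (112, 2), (56, 2), (28, 2), (14, 2), (7, 2), (64, 7)])], [(197, 98)], 1),
    (10079, false, 7, [], [], [], [(3529, 49)], 0)] 2500 6501 = true := by
  decide +kernel

theorem ck7_11501 : chunk WW (search 1 ef7 fqT GT FN7 4 7) 7
    [(14939, false, 1, [], [], [], [(1471, 1470)], 0)] 2500 11501 = true := by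
  decide +kernel

theorem ck7_16501 : chunk WW (search 1 ef7 fqT GT FN7 4 7) 7
    [(17807, false, 7, [], [], [], [(1667, 1666)], 0),
    (18047, false, 1, [], [7], [(31, [(15, 2), (10, 3), (6, 5)]), (113, [(56, 2), (28, 2), (14, 2), (7, 2), (16, 7)]), (137, [(68, 2), (34, 2), (17, 2), (8, 17)]), (191, [(95, 2), (38, 5), (10, 19)]), (193, [(96, 2), (48, 2), (24, 2), (12, 2), (6, 2), (3, 2), (64, 3)]), (239, [(119, 2), (34, 7), (14, 17)]), (409, [(204, 2), (102, 2), (51, 2), (136, 3), (24, 17)])], [(1471, 1470)], 3),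
    (19489, false, 1, [], [7], [(281, [(140, 2), (70, 2), (35, 2), (56, 5), (40, 7)]), (421, [(210, 2), (105, 2), (140, 3), (84, 5), (60, 7)])], [(491, 490)], 1),
    (19867, false, 1, [], [], [], [(3529, 49)], 0)] 2500 16501 = true := by
  decide +kernel

theorem ck7_21501 : chunk WW (search 1 ef7 fqT GT FN7 4 7) 7
    [(21757, false, 1, [], [], [(11, [(5, 2), (2, 5)]), (191, [(95, 2), (38, 5), (10, 19)])], [(1471, 1470)], 1),
    (23143, false, 1, [], [19], [(211, [(105, 2), (70, 3), (42, 5), (30, 7)]), (457, [(228, 2), (114, 2), (57, 2), (152, 3), (24, 19)])], [(197, 98)], 1),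
    (23227, false, 1, [], [7], [(113, [(56, 2), (28, 2), (14, 2), (7, 2), (16, 7)]), (137, [(68, 2), (34, 2), (17, 2), (8, 17)]), (239, [(119, 2), (34, 7), (14, 17)]), (449, [(224, 2), (112, 2), (56, 2), (28, 2), (14, 2), (7, 2), (64, 7)])], [(1667, 1666)], 2)] 2500 21501 = true := by
  decide +kernel

theorem ck7_26501 : chunk WW (search 1 ef7 fqT GT FN7 4 7) 7
    [(26683, false, 1, [], [], [(29, [(14, 2), (7, 2), (4, 7)]), (953, [(476, 2), (238, 2), (119, 2), (136, 7), (56, 17)])], [], 2),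
    (27803, false, 1, [], [], [(191, [(95, 2), (38, 5), (10, 19)]), (331, [(165, 2), (110, 3), (66, 5), (30, 11)])], [(2129, 56)], 2),
    (27943, false, 1, [], [], [(499, [(249, 2), (166, 3), (6, 83)])], [(1429, 357)], 1),
    (28307, false, 1, [], [], [(337, [(168, 2), (84, 2), (42, 2), (21, 2), (112, 3), (48, 7)])], [(1303, 1302)], 1),
    (28979, false, 1, [], [], [(23, [(11, 2), (2, 11)]), (1123, [(561, 2), (374, 3), (102, 11), (66, 17)])], [(2857, 204)], 1),
    (29959, false, 7, [], [], [], [(197, 98)], 0),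
    (31039, false, 1, [], [7], [(113, [(56, 2), (28, 2), (14, 2), (7, 2), (16, 7)]), (197, [(98, 2), (49, 2), (28, 7), (4, 7)]), (421, [(210, 2), (105, 2), (140, 3), (84, 5), (60, 7)]), (491, [(245, 2), (98, 5), (70, 7), (10, 7)])], [], 1)] 2500 26501 = true := by
  decide +kernel

theorem ck7_31501 : chunk WW (search 1 ef7 fqT GT FN7 4 7) 7
    [(32327, false, 1, [], [7], [(113, [(56, 2), (28, 2), (14, 2), (7, 2), (16, 7)]), (409, [(204, 2), (102, 2), (51, 2), (136, 3), (24, 17)]), (433, [(216, 2), (108, 2), (54, 2), (27, 2), (144, 3), (48, 3), (16, 3)])], [(1667, 1666)], 2),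
    (32789, false, 1, [], [7], [(113, [(56, 2), (28, 2), (14, 2), (7, 2), (16, 7)]), (281, [(140, 2), (70, 2), (35, 2), (56, 5), (40, 7)]), (421, [(210, 2), (105, 2), (140, 3), (84, 5), (60, 7)])], [(1471, 1470)], 1),
    (34487, false, 7, [(2, 3)], [], [], [(883, 98)], 0),
    (34679, false, 1, [], [7], [(281, [(140, 2), (70, 2), (35, 2), (56, 5), (40, 7)]), (421, [(210, 2), (105, 2), (140, 3), (84, 5), (60, 7)])], [(491, 490)], 1),
    (35081, false, 1, [(2, 3)], [], [(19, [(9, 2), (6, 3), (2, 3)])], [(7057, 882)], 1),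
    (35363, false, 1, [], [], [(191, [(95, 2), (38, 5), (10, 19)]), (421, [(210, 2), (105, 2), (140, 3), (84, 5), (60, 7)])], [(281, 20)], 2)] 2500 31501 = true := by
  decide +kernel

theorem ck7_36501 : chunk WW (search 1 ef7 fqT GT FN7 4 7) 7
    [(37507, false, 1, [], [19], [(43, [(21, 2), (14, 3), (6, 7)]), (457, [(228, 2), (114, 2), (57, 2), (152, 3), (24, 19)])], [(1373, 343)], 1),
    (38723, false, 1, [], [19], [(461, [(230, 2), (115, 2), (92, 5), (20, 23)]), (571, [(285, 2), (190, 3), (114, 5), (30, 19)])], [(491, 490)], 1),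
    (41243, false, 1, [], [], [(491, [(245, 2), (98, 5), (70, 7), (10, 7)])], [(29, 7)], 1)] 2500 36501 = true := by
  decide +kernel

theorem ck7_41501 : chunk WW (search 1 ef7 fqT GT FN7 4 7) 7
    [(41999, false, 1, [], [23], [(47, [(23, 2), (2, 23)])], [(1933, 966)], 1),
    (43427, false, 1, [], [], [(11, [(5, 2), (2, 5)]), (191, [(95, 2), (38, 5), (10, 19)])], [(2129, 56)], 1),
    (45821, false, 1, [], [], [(1091, [(545, 2), (218, 5), (10, 109)])], [(71, 70)], 1),
    (46183, false, 1, [(2, 3)], [], [(251, [(125, 2), (50, 5), (10, 5), (2, 5)])], [(211, 210)], 1)] 2500 41501 = true := by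
  decide +kernel

end Pool.Agent.NearSuper255
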