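import Pool.Agent.NearSuper255.TabX

/-!
# Ranges of excluded pairs, second part, file 1
-/

namespace Pool.Agent.NearSuper255

theorem ck7_46501 : chunk WW (search 1 ef7 fqT GT FN7 4 7) 7
    [(47207, false, 1, [], [], [(11, [(5, 2), (2, 5)]), (281, [(140, 2), (70, 2), (35, 2), (56, 5), (40, 7)])], [(421, 70)], 2),
    (47963, false, 1, [], [], [(419, [(209, 2), (38, 11), (22, 19)]), (571, [(285, 2), (190, 3), (114, 5), (30, 19)])], [(463, 154)], 2),
    (48299, false, 1, [], [], [], [(3851, 350)], 0),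
    (49223, false, 1, [], [], [], [(1429, 357)], 0),
    (49559, false, 1, [], [], [(5, [(2, 2), (1, 2)]), (59, [(29, 2), (2, 29)]), (233, [(116, 2), (58, 2), (29, 2), (8, 29)])], [(29, 7)], 1),
    (49757, false, 1, [], [7], [(113, [(56, 2), (28, 2), (14, 2), (7, 2), (16, 7)])], [(1373, 343)], 1),
    (50287, false, 1, [], [], [], [(2017, 1008)], 0),
    (50723, false, 1, [], [], [(5, [(2, 2), (1, 2)]), (337, [(168, 2), (84, 2), (42, 2), (21, 2), (112, 3), (48, 7)]), (1409, [(704, 2), (352, 2), (176, 2), (88, 2), (44, 2), (22, 2), (11, 2), (128, 11)])], [(197, 98)], 2)] 2500 46501 = true := by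
  decide +kernel

theorem ck7_51501 : chunk WW (search 1 ef7 fqT GT FN7 4 7) 7
    [(51827, false, 1, [], [], [], [(3851, 350)], 0),
    (54517, false, 1, [], [11], [(23, [(11, 2), (2, 11)]), (113, [(56, 2), (28, 2), (14, 2), (7, 2), (16, 7)]), (463, [(231, 2), (154, 3), (66, 7), (42, 11)])], [(197, 98)], 2),
    (56267, false, 1, [], [], [(191, [(95, 2), (38, 5), (10, 19)]), (521, [(260, 2), (130, 2), (65, 2), (104, 5), (40, 13)])], [(491, 490)], 2)] 2500 51501 = true := by
  decide +kernel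

theorem ck7_56501 : chunk WW (search 1 ef7 fqT GT FN7 4 7) 7
    [(56813, false, 1, [], [7], [(113, [(56, 2), (28, 2), (14, 2), (7, 2), (16, 7)]), (181, [(90, 2), (45, 2), (60, 3), (20, 3), (36, 5)]), (257, [(128, 2), (64, 2), (32, 2), (16, 2), (8, 2), (4, 2), (2, 2), (1, 2)]), (337, [(168, 2), (84, 2), (42, 2), (21, 2), (112, 3), (48, 7)]), (409, [(204, 2), (102, 2), (51, 2), (136, 3), (24, 17)])], [(1471, 1470)], 2),
    (56909, false, 1, [], [], [(271, [(135, 2), (90, 3), (30, 3), (10, 3), (54, 5)]), (541, [(270, 2), (135, 2), (180, 3), (60, 3), (20, 3), (108, 5)])], [(2311, 110)], 1),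
    (57203, false, 1, [], [], [(227, [(113, 2), (2, 113)]), (1583, [(791, 2), (226, 7), (14, 113)])], [], 1),
    (57653, false, 1, [], [7], [(113, [(56, 2), (28, 2), (14, 2), (7, 2), (16, 7)]), (337, [(168, 2), (84, 2), (42, 2), (21, 2), (112, 3), (48, 7)]), (409, [(204, 2), (102, 2), (51, 2), (136, 3), (24, 17)]), (433, [(216, 2), (108, 2), (54, 2), (27, 2), (144, 3), (48, 3), (16, 3)]), (449, [(224, 2), (112, 2), (56, 2), (28, 2), (14, 2), (7, 2), (64, 7)])], [(1667, 1666)], 3),
    (58099, false, 1, [], [23], [(19, [(9, 2), (6, 3), (2, 3)]), (47, [(23, 2), (2, 23)]), (829, [(414, 2), (207, 2), (276, 3), (92, 3), (36, 23)])], [(1933, 966)], 2),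
    (59863, false, 1, [], [11], [(1069, [(534, 2), (267, 2), (356, 3), (12, 89)]), (1409, [(704, 2), (352, 2), (176, 2), (88, 2), (44, 2), (22, 2), (11, 2), (128, 11)])], [(2129, 56)], 1)] 1750 56501 = true := by
  decide +kernel

theorem ck11_1501 : chunk WW (search 1 ef11 fqT GT FN11 4 11) 11
    [(2399, false, 1, [], [], [(1321, [(660, 2), (330, 2), (165, 2), (440, 3), (264, 5), (120, 11)]), (1453, [(726, 2), (363, 2), (484, 3), (132, 11), (12, 11)])], [(727, 242)], 1),
    (3677, false, 1, [(2, 5)], [], [], [(6733, 1683)], 0),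
    (3701, false, 1, [(2, 5)], [], [(617, [(308, 2), (154, 2), (77, 2), (88, 7), (56, 11)])], [(23, 22)], 1),
    (3917, false, 1, [], [], [(661, [(330, 2), (165, 2), (220, 3), (132, 5), (60, 11)]), (1453, [(726, 2), (363, 2), (484, 3), (132, 11), (12, 11)])], [], 1),
    (5939, false, 11, [], [], [], [(727, 242)], 0)] 2500 1501 = true := by
  decide +kernel

theorem ck11_6501 : chunk WW (search 1 ef11 fqT GT FN11 4 11) 11
    [(6563, false, 1, [(2, 5)], [], [(547, [(273, 2), (182, 3), (78, 7), (42, 13)])], [(331, 330)], 1),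
    (6599, false, 11, [], [], [], [(2179, 726)], 0),
    (6827, false, 1, [(2, 5)], [], [(331, [(165, 2), (110, 3), (66, 5), (30, 11)])], [(199, 22)], 1),
    (7919, false, 1, [], [], [], [(14543, 14542)], 0),
    (8291, false, 1, [(2, 5)], [], [(691, [(345, 2), (230, 3), (138, 5), (30, 23)]), (1013, [(506, 2), (253, 2), (92, 11), (44, 23)])], [], 1)] 2500 6501 = true := by
  decide +kernel

theorem ck11_11501 : chunk WW (search 1 ef11 fqT GT FN11 4 11) 11
    [(11597, false, 1, [(2, 5)], [13], [(1093, [(546, 2), (273, 2), (364, 3), (156, 7), (84, 13)])], [(6007, 462)], 1),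
    (12107, false, 1, [(2, 5)], [], [], [(2311, 2310)], 0),
    (15277, false, 1, [(2, 5)], [], [(401, [(200, 2), (100, 2), (50, 2), (25, 2), (80, 5), (16, 5)])], [(3851, 3850)], 1),
    (15373, false, 1, [(2, 5)], [], [(1861, [(930, 2), (465, 2), (620, 3), (372, 5), (60, 31)]), (2791, [(1395, 2), (930, 3), (310, 3), (558, 5), (90, 31)])], [(10891, 3630)], 1),
    (15551, false, 1, [(2, 5)], [], [], [(3631, 330)], 0),
    (16127, false, 1, [], [], [(7, [(3, 2), (2, 3)]), (37, [(18, 2), (9, 2), (12, 3), (4, 3)]), (193, [(96, 2), (48, 2), (24, 2), (12, 2), (6, 2), (3, 2), (64, 3)]), (241, [(120, 2), (60, 2), (30, 2), (15, 2), (80, 3), (48, 5)])], [(3631, 330)], 1)] 2500 11501 = true := by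
  decide +kernel

theorem ck11_16501 : chunk WW (search 1 ef11 fqT GT FN11 4 11) 11
    [(18341, false, 1, [(2, 5)], [], [], [(3697, 924)], 0),
    (19051, false, 1, [], [], [(433, [(216, 2), (108, 2), (54, 2), (27, 2), (144, 3), (48, 3), (16, 3)]), (541, [(270, 2), (135, 2), (180, 3), (60, 3), (20, 3), (108, 5)])], [(2971, 2970)], 1),
    (19079, false, 1, [(2, 5)], [], [(53, [(26, 2), (13, 2), (4, 13)]), (1093, [(546, 2), (273, 2), (364, 3), (156, 7), (84, 13)])], [(2861, 715)], 1),
    (19919, false, 1, [(2, 5)], [23], [(47, [(23, 2), (2, 23)])], [(2531, 230)], 1)] 2500 16501 = true := by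
  decide +kernel

theorem ck11_21501 : chunk WW (search 1 ef11 fqT GT FN11 4 11) 11
    [(22817, false, 1, [(2, 5)], [23], [(47, [(23, 2), (2, 23)])], [(2531, 230)], 1),
    (24371, false, 1, [(2, 5)], [5], [], [(7481, 3740)], 0),
    (25919, false, 1, [(2, 5)], [], [], [(3631, 330)], 0)] 2500 21501 = true := by
  decide +kernel

theorem ck11_26501 : chunk WW (search 1 ef11 fqT GT FN11 4 11) 11
    [(27043, false, 1, [(2, 5)], [], [(881, [(440, 2), (220, 2), (110, 2), (55, 2), (176, 5), (80, 11)])], [(23, 22)], 1),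
    (30137, false, 1, [(2, 5)], [3767], [(113011, [(56505, 2), (37670, 3), (22602, 5), (30, 3767)])], [(9109, 2277)], 1),
    (30431, false, 1, [(2, 5)], [], [], [(2971, 2970)], 0)] 2500 26501 = true := by
  decide +kernel

end Pool.Agent.NearSuper255
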