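import Pool.Agent.NearSuper255.TabX

/-!
# Ranges of excluded pairs, second part, file 10
-/

namespace Pool.Agent.NearSuper255

theorem ck157_251 : chunk W23 (search 1 ef157 fqT GT FN157 4 157) 157
    [] 226 251 = true := by
  decide +kernel

theorem ck157_703 : chunk WW (search 1 ef157 fqT GT FN157 4 157) 157
    [] 49 703 = true := by
  decide +kernel

theorem ck163_241 : chunk W23 (search 1 ef163 fqT GT FN163 4 163) 163
    [(653, true, 1, [(4, 163)], [], [], [(1307, 653)], 0)] 231 241 = true := by
  decide +kernel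

theorem ck163_703 : chunk WW (search 1 ef163 fqT GT FN163 4 163) 163
    [] 49 703 = true := by
  decide +kernel

theorem ck167_241 : chunk W23 (search 1 ef167 fqT GT FN167 4 167) 167
    [(293, true, 1, [(4, 73)], [], [], [(5861, 1465)], 0),
    (349, true, 1, [(87, 2), (12, 29)], [], [(17, [(8, 2), (4, 2), (2, 2), (1, 2)]), (41, [(20, 2), (10, 2), (5, 2), (8, 5)]), (59, [(29, 2), (2, 29)]), (71, [(35, 2), (14, 5), (10, 7)]), (97, [(48, 2), (24, 2), (12, 2), (6, 2), (3, 2), (32, 3)]), (113, [(56, 2), (28, 2), (14, 2), (7, 2), (16, 7)]), (449, [(224, 2), (112, 2), (56, 2), (28, 2), (14, 2), (7, 2), (64, 7)]), (523, [(261, 2), (174, 3), (58, 3), (18, 29)]), (577, [(288, 2), (144, 2), (72, 2), (36, 2), (18, 2), (9, 2), (192, 3), (64, 3)])], [(3491, 349)], 4),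
    (389, true, 1, [(4, 97)], [], [(13, [(6, 2), (3, 2), (4, 3)])], [(9337, 2334)], 1),
    (503, true, 1, [(2, 251)], [], [], [(7043, 7042)], 0),
    (587, false, 1, [(2, 83)], [], [], [(89513, 44756)], 0)] 231 241 = true := by
  decide +kernel

theorem ck167_703 : chunk WW (search 1 ef167 fqT GT FN167 4 167) 167
    [(733, false, 1, [(2, 83)], [3], [(7, [(3, 2), (2, 3)])], [(59119, 59118)], 1)] 49 703 = true := by
  decide +kernel

theorem ck173_241 : chunk W23 (search 1 ef173 fqT GT FN173 4 173) 173
    [(347, false, 1, [], [], [], [(538723, 89787)], 0)] 231 241 = true := by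
  decide +kernel

theorem ck173_703 : chunk WW (search 1 ef173 fqT GT FN173 4 173) 173
    [] 49 703 = true := by
  decide +kernel

theorem ck179_241 : chunk W23 (search 1 ef179 fqT GT FN179 4 179) 179
    [(359, true, 1, [(2, 179)], [], [(17, [(8, 2), (4, 2), (2, 2), (1, 2)]), (1433, [(716, 2), (358, 2), (179, 2), (8, 179)])], [(45953, 22976)], 2),
    (479, true, 1, [(2, 239)], [], [], [(3833, 479)], 0)] 231 241 = true := by
  decide +kernel

theorem ck179_703 : chunk WW (search 1 ef179 fqT GT FN179 4 179) 179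
    [(719, false, 1, [(2, 89)], [], [], [(764689, 127448)], 0)] 49 703 = true := by
  decide +kernel

theorem ck181_241 : chunk W23 (search 1 ef181 fqT GT FN181 4 181) 181
    [] 231 241 = true := by
  decide +kernel

theorem ck181_703 : chunk WW (search 1 ef181 fqT GT FN181 4 181) 181
    [] 49 703 = true := by
  decide +kernel

theorem ck191_241 : chunk W23 (search 1 ef191 fqT GT FN191 4 191) 191
    [(383, true, 1, [(2, 191)], [], [], [(48259, 2298)], 0)] 231 241 = true := by
  decide +kernel

theorem ck191_703 : chunk WW (search 1 ef191 fqT GT FN191 4 191) 191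
    [(1187, true, 1, [(2, 593)], [], [], [(9497, 4748)], 0),
    (1367, false, 1, [(10, 19)], [], [(37, [(18, 2), (9, 2), (12, 3), (4, 3)]), (307, [(153, 2), (102, 3), (34, 3), (18, 17)]), (409, [(204, 2), (102, 2), (51, 2), (136, 3), (24, 17)]), (457, [(228, 2), (114, 2), (57, 2), (152, 3), (24, 19)])], [(19483, 19482)], 2),
    (2293, false, 1, [], [], [(31, [(15, 2), (10, 3), (6, 5)]), (37, [(18, 2), (9, 2), (12, 3), (4, 3)]), (383, [(191, 2), (2, 191)]), (2713, [(1356, 2), (678, 2), (339, 2), (904, 3), (24, 113)])], [(218887, 218886)], 1)] 1000 703 = true := by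
  decide +kernel

theorem ck191_2703 : chunk WW (search 1 ef191 fqT GT FN191 4 191) 191
    [(3821, false, 1, [], [5], [(11, [(5, 2), (2, 5)]), (271, [(135, 2), (90, 3), (30, 3), (10, 3), (54, 5)]), (1291, [(645, 2), (430, 3), (258, 5), (30, 43)])], [(218887, 218886)], 1),
    (4463, false, 1, [(10, 19)], [23], [(139, [(69, 2), (46, 3), (6, 23)]), (277, [(138, 2), (69, 2), (92, 3), (12, 23)]), (457, [(228, 2), (114, 2), (57, 2), (152, 3), (24, 19)])], [(17573, 8786)], 2),
    (4583, false, 1, [], [], [], [(1107419, 85186)], 0)] 1000 2703 = true := by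
  decide +kernel

theorem ck191_4703 : chunk WW (search 1 ef191 fqT GT FN191 4 191) 191
    [(4723, false, 1, [(10, 19)], [], [(353, [(176, 2), (88, 2), (44, 2), (22, 2), (11, 2), (32, 11)]), (419, [(209, 2), (38, 11), (22, 19)]), (1181, [(590, 2), (295, 2), (236, 5), (20, 59)])], [(33617, 16808)], 2),
    (4967, false, 1, [], [13], [(131, [(65, 2), (26, 5), (10, 13)]), (1429, [(714, 2), (357, 2), (476, 3), (204, 7), (84, 17)]), (1471, [(735, 2), (490, 3), (294, 5), (210, 7), (30, 7)])], [(218887, 218886)], 2),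
    (6113, false, 1, [], [2], [(37, [(18, 2), (9, 2), (12, 3), (4, 3)])], [(218887, 218886)], 1)] 1000 4703 = true := by
  decide +kernel

end Pool.Agent.NearSuper255
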