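import Pool.Agent.NearSuper255.TabX

/-!
# Ranges of excluded pairs, second part, file 11
-/

namespace Pool.Agent.NearSuper255

theorem ck191_6703 : chunk WW (search 1 ef191 fqT GT FN191 4 191) 191
    [(7283, false, 1, [(10, 19)], [], [(607, [(303, 2), (202, 3), (6, 101)]), (1213, [(606, 2), (303, 2), (404, 3), (12, 101)])], [(2293, 382)], 1)] 1000 6703 = true := by
  decide +kernel

theorem ck191_8703 : chunk WW (search 1 ef191 fqT GT FN191 4 191) 191
    [(8963, false, 1, [(10, 19)], [], [(41, [(20, 2), (10, 2), (5, 2), (8, 5)]), (83, [(41, 2), (2, 41)]), (193, [(96, 2), (48, 2), (24, 2), (12, 2), (6, 2), (3, 2), (64, 3)]), (739, [(369, 2), (246, 3), (82, 3), (18, 41)])], [(34381, 8595)], 3),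
    (9551, false, 1, [], [], [], [(218887, 218886)], 0)] 905 8703 = true := by
  decide +kernel

theorem ck193_241 : chunk W23 (search 1 ef193 fqT GT FN193 4 193) 193
    [] 231 241 = true := by
  decide +kernel

theorem ck193_703 : chunk WW (search 1 ef193 fqT GT FN193 4 193) 193
    [(773, true, 1, [(4, 193)], [], [], [(18553, 9276)], 0),
    (1931, true, 1, [(10, 193)], [], [(97, [(48, 2), (24, 2), (12, 2), (6, 2), (3, 2), (32, 3)]), (151, [(75, 2), (50, 3), (30, 5), (6, 5)])], [(34759, 34758)], 1)] 1000 703 = true := by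
  decide +kernel

theorem ck193_2703 : chunk WW (search 1 ef193 fqT GT FN193 4 193) 193
    [(3089, false, 1, [], [], [(103, [(51, 2), (34, 3), (6, 17)]), (137, [(68, 2), (34, 2), (17, 2), (8, 17)])], [(148997, 193)], 1)] 1000 2703 = true := by
  decide +kernel

theorem ck193_4703 : chunk WW (search 1 ef193 fqT GT FN193 4 193) 193
    [(5791, false, 1, [], [], [], [(148997, 193)], 0),
    (6563, false, 1, [], [], [], [(148997, 193)], 0)] 994 4703 = true := by
  decide +kernel

theorem ck197_241 : chunk W23 (search 1 ef197 fqT GT FN197 4 197) 197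
    [(263, true, 1, [(2, 131)], [2], [(5, [(2, 2), (1, 2)])], [(5261, 1315)], 1)] 231 241 = true := by
  decide +kernel

end Pool.Agent.NearSuper255
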