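import Pool.Agent.NearSuper255.TabX

/-!
# Ranges of excluded pairs, second part, file 13
-/

namespace Pool.Agent.NearSuper255

theorem ck229_241 : chunk W23 (search 1 ef229 fqT GT FN229 4 229) 229
    [] 231 241 = true := by
  decide +kernel

theorem ck229_703 : chunk WW (search 1 ef229 fqT GT FN229 4 229) 229
    [] 170 703 = true := by
  decide +kernel

theorem ck233_241 : chunk W23 (search 1 ef233 fqT GT FN233 4 233) 233
    [(467, false, 1, [], [], [(43, [(21, 2), (14, 3), (6, 7)]), (337, [(168, 2), (84, 2), (42, 2), (21, 2), (112, 3), (48, 7)]), (1399, [(699, 2), (466, 3), (6, 233)]), (2797, [(1398, 2), (699, 2), (932, 3), (12, 233)])], [(217157, 54289)], 2)] 231 241 = true := by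
  decide +kernel

theorem ck233_703 : chunk WW (search 1 ef233 fqT GT FN233 4 233) 233
    [] 132 703 = true := by
  decide +kernel

theorem ck239_241 : chunk W23 (search 1 ef239 fqT GT FN239 4 239) 239
    [(359, true, 1, [(2, 179)], [], [], [(719, 718)], 0),
    (479, true, 1, [(2, 239)], [], [(1289, [(644, 2), (322, 2), (161, 2), (184, 7), (56, 23)]), (1913, [(956, 2), (478, 2), (239, 2), (8, 239)])], [(80473, 13412)], 2)] 231 241 = true := by
  decide +kernel

theorem ck239_703 : chunk WW (search 1 ef239 fqT GT FN239 4 239) 239
    [] 87 703 = true := by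
  decide +kernel

theorem ck241_243 : chunk W23 (search 1 ef241 fqT GT FN241 4 241) 241
    [] 230 243 = true := by
  decide +kernel

theorem ck241_703 : chunk WW (search 1 ef241 fqT GT FN241 4 241) 241
    [] 74 703 = true := by
  decide +kernel

theorem ck251_253 : chunk W23 (search 1 ef251 fqT GT FN251 4 251) 251
    [(503, false, 1, [], [251], [], [(83035319, 83035318)], 0)] 225 253 = true := by
  decide +kernel

theorem ck251_703 : chunk WW (search 1 ef251 fqT GT FN251 4 251) 251
    [] 49 703 = true := by
  decide +kernel

theorem ck331_1151 : chunk WW (search 1 ef331 fqT GT FN331 4 331) 331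
    [(1987, true, 1, [(662, 3), (6, 331)], [], [], [(11923, 3974)], 0)] 1000 1151 = true := by
  decide +kernel

theorem ck331_3151 : chunk WW (search 1 ef331 fqT GT FN331 4 331) 331
    [] 1000 3151 = true := by
  decide +kernel

end Pool.Agent.NearSuper255
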