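import Pool.Agent.NearSuper255.TabX

/-!
# Ranges of excluded pairs, second part, file 14
-/

namespace Pool.Agent.NearSuper255

theorem ck331_5151 : chunk WW (search 1 ef331 fqT GT FN331 4 331) 331
    [(5297, false, 1, [], [], [(83, [(41, 2), (2, 41)])], [(53904013, 26952006)], 1),
    (6619, false, 1, [], [1103], [(88241, [(44120, 2), (22060, 2), (11030, 2), (5515, 2), (17648, 5), (80, 1103)])], [(730187, 730186)], 1)] 1000 5151 = true := by
  decide +kernel

theorem ck331_7151 : chunk WW (search 1 ef331 fqT GT FN331 4 331) 331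
    [(7283, false, 1, [], [], [], [(16434151, 5478050)], 0)] 1000 7151 = true := by
  decide +kernel

theorem ck331_9151 : chunk WW (search 1 ef331 fqT GT FN331 4 331) 331
    [(9931, false, 1, [], [5], [(13, [(6, 2), (3, 2), (4, 3)]), (29, [(14, 2), (7, 2), (4, 7)]), (31, [(15, 2), (10, 3), (6, 5)]), (79, [(39, 2), (26, 3), (6, 13)]), (131, [(65, 2), (26, 5), (10, 13)])], [(59820307, 59820306)], 1)] 1000 9151 = true := by
  decide +kernel

theorem ck331_11151 : chunk WW (search 1 ef331 fqT GT FN331 4 331) 331
    [] 1000 11151 = true := by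
  decide +kernel

end Pool.Agent.NearSuper255
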