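import Pool.Agent.NearSuper255.TabX

/-!
# Ranges of excluded pairs, second part, file 15
-/

namespace Pool.Agent.NearSuper255

theorem ck331_13151 : chunk WW (search 1 ef331 fqT GT FN331 4 331) 331
    [(13241, false, 1, [], [], [], [(6573661, 3286830)], 0),
    (13903, false, 1, [], [], [(83, [(41, 2), (2, 41)])], [(26952007, 8984002)], 1)] 1000 13151 = true := by
  decide +kernel

theorem ck331_15151 : chunk WW (search 1 ef331 fqT GT FN331 4 331) 331
    [(15227, true, 1, [(662, 23), (46, 331)], [], [], [(304541, 152270)], 0),
    (15889, false, 1, [], [2, 3], [(19, [(9, 2), (6, 3), (2, 3)]), (29, [(14, 2), (7, 2), (4, 7)]), (83, [(41, 2), (2, 41)])], [(53904013, 26952006)], 1)] 1000 15151 = true := by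
  decide +kernel

theorem ck331_17151 : chunk WW (search 1 ef331 fqT GT FN331 4 331) 331
    [] 1000 17151 = true := by
  decide +kernel

theorem ck331_19151 : chunk WW (search 1 ef331 fqT GT FN331 4 331) 331
    [] 283 19151 = true := by
  decide +kernel

end Pool.Agent.NearSuper255
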