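import Pool.Agent.NearSuper255.TabX

/-!
# Ranges of excluded pairs, second part, file 16
-/

namespace Pool.Agent.NearSuper255

theorem ck337_1081 : chunk WW (search 1 ef337 fqT GT FN337 4 337) 337
    [] 1000 1081 = true := by
  decide +kernel

theorem ck337_3081 : chunk WW (search 1 ef337 fqT GT FN337 4 337) 337
    [(3371, false, 1, [], [5], [(11, [(5, 2), (2, 5)]), (13, [(6, 2), (3, 2), (4, 3)]), (61, [(30, 2), (15, 2), (20, 3), (12, 5)]), (193, [(96, 2), (48, 2), (24, 2), (12, 2), (6, 2), (3, 2), (64, 3)])], [(61327261, 10221210)], 1)] 1000 3081 = true := by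
  decide +kernel

theorem ck337_5081 : chunk WW (search 1 ef337 fqT GT FN337 4 337) 337
    [(5393, false, 1, [], [], [], [(2044243, 340707)], 0),
    (6067, false, 1, [], [3], [(19, [(9, 2), (6, 3), (2, 3)]), (61, [(30, 2), (15, 2), (20, 3), (12, 5)]), (73, [(36, 2), (18, 2), (9, 2), (24, 3), (8, 3)])], [(61327261, 10221210)], 2)] 1000 5081 = true := by
  decide +kernel

end Pool.Agent.NearSuper255
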