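import Pool.Agent.NearSuper255.TabX

/-!
# Ranges of excluded pairs, second part, file 17
-/

namespace Pool.Agent.NearSuper255

theorem ck337_7081 : chunk WW (search 1 ef337 fqT GT FN337 4 337) 337
    [(8089, false, 1, [], [], [], [(16808213, 8404106)], 0)] 1000 7081 = true := by
  decide +kernel

theorem ck337_9081 : chunk WW (search 1 ef337 fqT GT FN337 4 337) 337
    [(9437, false, 1, [], [], [], [(17489627, 8744813)], 0)] 244 9081 = true := by
  decide +kernel

theorem ck347_991 : chunk WW (search 1 ef347 fqT GT FN347 4 347) 347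
    [(1019, false, 1, [(2, 173)], [], [(29, [(14, 2), (7, 2), (4, 7)]), (337, [(168, 2), (84, 2), (42, 2), (21, 2), (112, 3), (48, 7)])], [(6247, 6246)], 1),
    (1103, true, 1, [(58, 19), (38, 29)], [], [], [(33091, 33090)], 0),
    (1213, false, 1, [(2, 173)], [], [(29, [(14, 2), (7, 2), (4, 7)]), (113, [(56, 2), (28, 2), (14, 2), (7, 2), (16, 7)]), (607, [(303, 2), (202, 3), (6, 101)]), (809, [(404, 2), (202, 2), (101, 2), (8, 101)])], [(252617, 1388)], 1),
    (1277, false, 1, [(2, 173)], [], [(71, [(35, 2), (14, 5), (10, 7)]), (491, [(245, 2), (98, 5), (70, 7), (10, 7)])], [(19433, 4858)], 1),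
    (1451, false, 1, [(2, 173)], [], [(11, [(5, 2), (2, 5)]), (311, [(155, 2), (62, 5), (10, 31)]), (373, [(186, 2), (93, 2), (124, 3), (12, 31)])], [(2083, 2082)], 1),
    (1499, false, 1, [(2, 173)], [], [(29, [(14, 2), (7, 2), (4, 7)])], [(165173, 82586)], 1),
    (2083, false, 1, [], [3], [(7, [(3, 2), (2, 3)]), (29, [(14, 2), (7, 2), (4, 7)]), (73, [(36, 2), (18, 2), (9, 2), (24, 3), (8, 3)]), (199, [(99, 2), (66, 3), (22, 3), (18, 11)])], [(30343069, 15171534)], 2),
    (2087, false, 1, [(2, 173)], [], [], [(2715623, 2715622)], 0),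
    (2777, false, 1, [], [2], [(13, [(6, 2), (3, 2), (4, 3)]), (29, [(14, 2), (7, 2), (4, 7)]), (43, [(21, 2), (14, 3), (6, 7)]), (61, [(30, 2), (15, 2), (20, 3), (12, 5)]), (67, [(33, 2), (22, 3), (6, 11)]), (89, [(44, 2), (22, 2), (11, 2), (8, 11)]), (101, [(50, 2), (25, 2), (20, 5), (4, 5)]), (113, [(56, 2), (28, 2), (14, 2), (7, 2), (16, 7)]), (197, [(98, 2), (49, 2), (28, 7), (4, 7)])], [(39734971, 39734970)], 3),
    (2819, false, 1, [(2, 173)], [], [(29, [(14, 2), (7, 2), (4, 7)]), (353, [(176, 2), (88, 2), (44, 2), (22, 2), (11, 2), (32, 11)]), (449, [(224, 2), (112, 2), (56, 2), (28, 2), (14, 2), (7, 2), (64, 7)])], [(19433, 4858)], 2)] 1000 991 = true := by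
  decide +kernel

theorem ck347_2991 : chunk WW (search 1 ef347 fqT GT FN347 4 347) 347
    [(3011, false, 1, [(2, 173)], [7], [(251, [(125, 2), (50, 5), (10, 5), (2, 5)]), (491, [(245, 2), (98, 5), (70, 7), (10, 7)])], [(17351, 17350)], 1),
    (3803, false, 1, [(2, 173)], [], [(5, [(2, 2), (1, 2)]), (317, [(158, 2), (79, 2), (4, 79)])], [(2777, 1388)], 2),
    (4931, false, 1, [(2, 173)], [], [(137, [(68, 2), (34, 2), (17, 2), (8, 17)]), (647, [(323, 2), (38, 17), (34, 19)]), (1103, [(551, 2), (58, 19), (38, 29)])], [(13187, 13186)], 1)] 1000 2991 = true := by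
  decide +kernel

theorem ck347_4991 : chunk WW (search 1 ef347 fqT GT FN347 4 347) 347
    [(5189, false, 1, [(2, 173)], [], [(17, [(8, 2), (4, 2), (2, 2), (1, 2)]), (29, [(14, 2), (7, 2), (4, 7)]), (673, [(336, 2), (168, 2), (84, 2), (42, 2), (21, 2), (224, 3), (96, 7)])], [(19433, 4858)], 2),
    (5261, false, 1, [(2, 173)], [], [(877, [(438, 2), (219, 2), (292, 3), (12, 73)]), (1327, [(663, 2), (442, 3), (102, 13), (78, 17)])], [(16657, 2776)], 1)] 137 4991 = true := by
  decide +kernel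

end Pool.Agent.NearSuper255
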