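import Pool.Agent.NearSuper255.TabX

/-!
# Ranges of excluded pairs, second part, file 18
-/

namespace Pool.Agent.NearSuper255

theorem ck349_977 : chunk WW (search 1 ef349 fqT GT FN349 4 349) 349
    [(1949, false, 1, [(12, 29)], [], [(37, [(18, 2), (9, 2), (12, 3), (4, 3)]), (59, [(29, 2), (2, 29)]), (73, [(36, 2), (18, 2), (9, 2), (24, 3), (8, 3)]), (523, [(261, 2), (174, 3), (58, 3), (18, 29)])], [(8377, 349)], 2),
    (2659, false, 1, [(87, 2), (12, 29)], [], [(59, [(29, 2), (2, 29)]), (523, [(261, 2), (174, 3), (58, 3), (18, 29)])], [(8377, 349)], 1)] 1000 977 = true := by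
  decide +kernel

theorem ck349_2977 : chunk WW (search 1 ef349 fqT GT FN349 4 349) 349
    [(3491, false, 1, [], [], [(11, [(5, 2), (2, 5)]), (17, [(8, 2), (4, 2), (2, 2), (1, 2)]), (19, [(9, 2), (6, 3), (2, 3)]), (61, [(30, 2), (15, 2), (20, 3), (12, 5)]), (97, [(48, 2), (24, 2), (12, 2), (6, 2), (3, 2), (32, 3)]), (101, [(50, 2), (25, 2), (20, 5), (4, 5)]), (151, [(75, 2), (50, 3), (30, 5), (6, 5)])], [(54810451, 27405225)], 3)] 934 2977 = true := by
  decide +kernel

theorem ck353_947 : chunk WW (search 1 ef353 fqT GT FN353 4 353) 353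
    [(2467, false, 1, [(11, 2), (32, 11)], [], [(59, [(29, 2), (2, 29)]), (929, [(464, 2), (232, 2), (116, 2), (58, 2), (29, 2), (32, 29)])], [(40949, 10237)], 1)] 1000 947 = true := by
  decide +kernel

end Pool.Agent.NearSuper255
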