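import Pool.Agent.NearSuper255.TabX

/-!
# Ranges of excluded pairs, second part, file 19
-/

namespace Pool.Agent.NearSuper255

theorem ck353_2947 : chunk WW (search 1 ef353 fqT GT FN353 4 353) 353
    [] 620 2947 = true := by
  decide +kernel

theorem ck359_907 : chunk WW (search 1 ef359 fqT GT FN359 4 359) 359
    [(1093, false, 1, [(2, 179)], [7, 13], [(211, [(105, 2), (70, 3), (42, 5), (30, 7)]), (337, [(168, 2), (84, 2), (42, 2), (21, 2), (112, 3), (48, 7)]), (421, [(210, 2), (105, 2), (140, 3), (84, 5), (60, 7)]), (449, [(224, 2), (112, 2), (56, 2), (28, 2), (14, 2), (7, 2), (64, 7)]), (521, [(260, 2), (130, 2), (65, 2), (104, 5), (40, 13)])], [(10771, 10770)], 2),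
    (1213, true, 1, [(404, 3), (12, 101)], [], [(7, [(3, 2), (2, 3)]), (13, [(6, 2), (3, 2), (4, 3)])], [(14557, 7278)], 1),
    (1439, false, 1, [(2, 179)], [], [], [(2570441, 642610)], 0),
    (1559, true, 1, [(82, 19), (38, 41)], [], [], [(59243, 59242)], 0),
    (1753, true, 1, [(584, 3), (24, 73)], [], [], [(7013, 1753)], 0),
    (2237, false, 1, [(2, 179)], [], [(37, [(18, 2), (9, 2), (12, 3), (4, 3)]), (181, [(90, 2), (45, 2), (60, 3), (20, 3), (36, 5)]), (311, [(155, 2), (62, 5), (10, 31)]), (373, [(186, 2), (93, 2), (124, 3), (12, 31)])], [(10771, 10770)], 2),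
    (2389, false, 1, [(2, 179)], [], [(211, [(105, 2), (70, 3), (42, 5), (30, 7)]), (239, [(119, 2), (34, 7), (14, 17)])], [(10771, 10770)], 2),
    (2459, false, 1, [(2, 179)], [], [(11, [(5, 2), (2, 5)]), (41, [(20, 2), (10, 2), (5, 2), (8, 5)]), (421, [(210, 2), (105, 2), (140, 3), (84, 5), (60, 7)]), (449, [(224, 2), (112, 2), (56, 2), (28, 2), (14, 2), (7, 2), (64, 7)])], [(11489, 5744)], 2),
    (2693, false, 1, [(2, 179)], [], [(73, [(36, 2), (18, 2), (9, 2), (24, 3), (8, 3)]), (211, [(105, 2), (70, 3), (42, 5), (30, 7)]), (433, [(216, 2), (108, 2), (54, 2), (27, 2), (144, 3), (48, 3), (16, 3)]), (449, [(224, 2), (112, 2), (56, 2), (28, 2), (14, 2), (7, 2), (64, 7)])], [(19387, 19386)], 3)] 1000 907 = true := by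
  decide +kernel

theorem ck359_2907 : chunk WW (search 1 ef359 fqT GT FN359 4 359) 359
    [(2999, false, 1, [(2, 179)], [1499], [(37591, [(18795, 2), (12530, 3), (7518, 5), (5370, 7), (210, 179)]), (56963, [(28481, 2), (2998, 19), (38, 1499)]), (170887, [(85443, 2), (56962, 3), (8994, 19), (114, 1499)]), (209861, [(104930, 2), (52465, 2), (41972, 5), (29980, 7), (140, 1499)]), (227849, [(113924, 2), (56962, 2), (28481, 2), (11992, 19), (152, 1499)])], [(980071, 980070)], 2),
    (3119, false, 1, [(2, 179)], [], [], [(97649, 12206)], 0),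
    (3319, false, 1, [(2, 179)], [7], [(211, [(105, 2), (70, 3), (42, 5), (30, 7)])], [(10771, 10770)], 1)] 294 2907 = true := by
  decide +kernel

theorem ck367_861 : chunk WW (search 1 ef367 fqT GT FN367 4 367) 367
    [(1187, false, 1, [(6, 61)], [], [(11, [(5, 2), (2, 5)]), (211, [(105, 2), (70, 3), (42, 5), (30, 7)])], [(3671, 734)], 1),
    (1619, false, 1, [(6, 61)], [], [(23, [(11, 2), (2, 11)]), (31, [(15, 2), (10, 3), (6, 5)]), (397, [(198, 2), (99, 2), (132, 3), (44, 3), (36, 11)])], [(3671, 734)], 2),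
    (2203, false, 1, [], [], [], [(4579427, 4579426)], 0),
    (2207, false, 1, [(6, 61)], [1103], [(48533, [(24266, 2), (12133, 2), (4412, 11), (44, 1103)])], [(809603, 809602)], 1)] 1000 861 = true := by
  decide +kernel

theorem ck367_2861 : chunk WW (search 1 ef367 fqT GT FN367 4 367) 367
    [] 12 2861 = true := by
  decide +kernel

end Pool.Agent.NearSuper255
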