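import Pool.Agent.NearSuper255.TabX

/-!
# Ranges of excluded pairs, second part, file 2
-/

namespace Pool.Agent.NearSuper255

theorem ck11_31501 : chunk WW (search 1 ef11 fqT GT FN11 4 11) 11
    [(31727, false, 1, [(2, 5)], [], [(661, [(330, 2), (165, 2), (220, 3), (132, 5), (60, 11)])], [(1783, 1782)], 1),
    (35381, false, 1, [(2, 5)], [], [(1471, [(735, 2), (490, 3), (294, 5), (210, 7), (30, 7)])], [(67, 66)], 1),
    (35591, false, 1, [(2, 5)], [], [(1483, [(741, 2), (494, 3), (114, 13), (78, 19)])], [(331, 330)], 1),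
    (36319, false, 1, [(2, 5)], [], [(631, [(315, 2), (210, 3), (70, 3), (126, 5), (90, 7)])], [(67, 66)], 1)] 2500 31501 = true := by
  decide +kernel

theorem ck11_36501 : chunk WW (search 1 ef11 fqT GT FN11 4 11) 11
    [(37663, false, 1, [], [], [], [(2707, 902)], 0),
    (39023, false, 1, [(2, 5)], [], [(271, [(135, 2), (90, 3), (30, 3), (10, 3), (54, 5)]), (379, [(189, 2), (126, 3), (42, 3), (14, 3), (54, 7)])], [(2311, 2310)], 1),
    (40283, false, 1, [], [11], [], [(2663, 2662)], 0),
    (40841, false, 1, [(2, 5)], [], [], [(12541, 6270)], 0),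
    (40903, false, 1, [(2, 5)], [], [], [(3631, 330)], 0)] 2500 36501 = true := by
  decide +kernel

theorem ck11_41501 : chunk WW (search 1 ef11 fqT GT FN11 4 11) 11
    [(43781, false, 1, [], [11], [], [(4357, 726)], 0),
    (44027, false, 1, [(2, 5)], [], [], [(3631, 330)], 0),
    (44819, false, 1, [(2, 5)], [], [(83, [(41, 2), (2, 41)]), (1231, [(615, 2), (410, 3), (246, 5), (30, 41)])], [(7789, 1298)], 1)] 2500 41501 = true := by
  decide +kernel

theorem ck11_46501 : chunk WW (search 1 ef11 fqT GT FN11 4 11) 11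
    [(50411, false, 1, [(2, 5)], [], [(449, [(224, 2), (112, 2), (56, 2), (28, 2), (14, 2), (7, 2), (64, 7)]), (2801, [(1400, 2), (700, 2), (350, 2), (175, 2), (560, 5), (112, 5), (400, 7)])], [(14081, 7040)], 2),
    (50549, false, 1, [(2, 5)], [], [], [(2971, 2970)], 0),
    (51217, false, 1, [], [], [(37, [(18, 2), (9, 2), (12, 3), (4, 3)]), (397, [(198, 2), (99, 2), (132, 3), (44, 3), (36, 11)])], [(2179, 726)], 2),
    (51347, false, 11, [], [], [], [(34123, 11374)], 0)] 2500 46501 = true := by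
  decide +kernel

theorem ck11_51501 : chunk WW (search 1 ef11 fqT GT FN11 4 11) 11
    [(51839, false, 1, [(2, 5)], [], [], [(3301, 330)], 0),
    (54437, false, 1, [(2, 5)], [], [], [(4093, 2046)], 0),
    (56299, false, 1, [], [11], [(89, [(44, 2), (22, 2), (11, 2), (8, 11)]), (193, [(96, 2), (48, 2), (24, 2), (12, 2), (6, 2), (3, 2), (64, 3)]), (257, [(128, 2), (64, 2), (32, 2), (16, 2), (8, 2), (4, 2), (2, 2), (1, 2)])], [(1453, 33)], 2)] 2500 51501 = true := by
  decide +kernel

theorem ck11_56501 : chunk WW (search 1 ef11 fqT GT FN11 4 11) 11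
    [(56747, false, 1, [(2, 5)], [], [], [(2399, 2398)], 0),
    (57977, false, 1, [(2, 5)], [], [], [(10891, 3630)], 0),
    (59399, false, 1, [], [], [], [(4357, 726)], 0),
    (59447, false, 1, [(2, 5)], [], [], [(4951, 110)], 0)] 1750 56501 = true := by
  decide +kernel

theorem ck13_251 : chunk W23 (search 1 ef13 fqT GT FN13 4 13) 13
    [] 226 251 = true := by
  decide +kernel

theorem ck13_703 : chunk WW (search 1 ef13 fqT GT FN13 4 13) 13
    [(1187, false, 1, [(4, 3)], [], [(11, [(5, 2), (2, 5)]), (2411, [(1205, 2), (482, 5), (10, 241)])], [(521, 260)], 1),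
    (2903, false, 1, [(4, 3)], [], [(11, [(5, 2), (2, 5)]), (1033, [(516, 2), (258, 2), (129, 2), (344, 3), (24, 43)]), (1291, [(645, 2), (430, 3), (258, 5), (30, 43)])], [(6709, 1677)], 1)] 2500 703 = true := by
  decide +kernel

theorem ck13_5703 : chunk WW (search 1 ef13 fqT GT FN13 4 13) 13
    [(6397, false, 1, [], [], [(61, [(30, 2), (15, 2), (20, 3), (12, 5)]), (457, [(228, 2), (114, 2), (57, 2), (152, 3), (24, 19)])], [(2029, 507)], 2),
    (7643, false, 13, [], [], [], [(677, 169)], 0)] 2500 5703 = true := by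
  decide +kernel

theorem ck13_10703 : chunk WW (search 1 ef13 fqT GT FN13 4 13) 13
    [(12011, false, 1, [], [5], [(2411, [(1205, 2), (482, 5), (10, 241)])], [(131, 65)], 1),
    (13103, false, 13, [], [], [], [(677, 169)], 0),
    (14561, false, 1, [], [2], [(17, [(8, 2), (4, 2), (2, 2), (1, 2)])], [(4057, 338)], 1),
    (15289, false, 1, [], [], [], [(4057, 338)], 0)] 2500 10703 = true := by
  decide +kernel

end Pool.Agent.NearSuper255
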