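import Pool.Agent.NearSuper255.TabX

/-!
# Ranges of excluded pairs, second part, file 20
-/

namespace Pool.Agent.NearSuper255

theorem ck373_831 : chunk WW (search 1 ef373 fqT GT FN373 4 373) 373
    [(1493, true, 1, [(4, 373)], [], [(17, [(8, 2), (4, 2), (2, 2), (1, 2)]), (409, [(204, 2), (102, 2), (51, 2), (136, 3), (24, 17)]), (541, [(270, 2), (135, 2), (180, 3), (60, 3), (20, 3), (108, 5)]), (613, [(306, 2), (153, 2), (204, 3), (68, 3), (36, 17)]), (757, [(378, 2), (189, 2), (252, 3), (84, 3), (28, 3), (108, 7)]), (953, [(476, 2), (238, 2), (119, 2), (136, 7), (56, 17)]), (1201, [(600, 2), (300, 2), (150, 2), (75, 2), (400, 3), (240, 5), (48, 5)])], [(20903, 10451)], 3),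
    (2239, false, 1, [], [], [(17, [(8, 2), (4, 2), (2, 2), (1, 2)]), (67, [(33, 2), (22, 3), (6, 11)]), (97, [(48, 2), (24, 2), (12, 2), (6, 2), (3, 2), (32, 3)])], [(73460113, 1669548)], 2)] 866 831 = true := by
  decide +kernel

theorem ck379_801 : chunk WW (search 1 ef379 fqT GT FN379 4 379) 379
    [] 756 801 = true := by
  decide +kernel

theorem ck383_781 : chunk WW (search 1 ef383 fqT GT FN383 4 383) 383
    [(809, true, 1, [(8, 101)], [], [], [(1619, 809)], 0),
    (863, false, 1, [(2, 191)], [], [], [(101113, 12639)], 0),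
    (1069, true, 1, [(12, 89)], [], [(179, [(89, 2), (2, 89)])], [(190283, 95141)], 1),
    (1187, true, 1, [(2, 593)], [], [(11, [(5, 2), (2, 5)])], [(23741, 11870)], 1),
    (1283, true, 1, [(2, 641)], [], [], [(1141871, 1141870)], 0),
    (1433, false, 1, [(2, 191)], [], [(127, [(63, 2), (42, 3), (14, 3), (18, 7)]), (239, [(119, 2), (34, 7), (14, 17)])], [(16087, 16086)], 2),
    (1493, false, 1, [(2, 191)], [], [(83, [(41, 2), (2, 41)]), (739, [(369, 2), (246, 3), (82, 3), (18, 41)])], [(13789, 1149)], 1),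
    (1511, true, 1, [(10, 151)], [], [(7, [(3, 2), (2, 3)])], [(9067, 9066)], 1),
    (1559, true, 1, [(82, 19), (38, 41)], [], [], [(3119, 3118)], 0),
    (1583, true, 1, [(14, 113)], [], [], [(56989, 14247)], 0),
    (1613, false, 1, [(2, 191)], [13], [(29, [(14, 2), (7, 2), (4, 7)]), (443, [(221, 2), (34, 13), (26, 17)]), (547, [(273, 2), (182, 3), (78, 7), (42, 13)])], [(4597, 2298)], 2),
    (1637, false, 1, [(2, 191)], [2], [(5, [(2, 2), (1, 2)]), (7, [(3, 2), (2, 3)]), (31, [(15, 2), (10, 3), (6, 5)]), (173, [(86, 2), (43, 2), (4, 43)]), (281, [(140, 2), (70, 2), (35, 2), (56, 5), (40, 7)]), (431, [(215, 2), (86, 5), (10, 43)])], [(11491, 11490)], 3),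
    (1669, true, 1, [(12, 139)], [], [], [(20029, 1669)], 0),
    (1787, false, 1, [(2, 191)], [], [], [(877837, 438918)], 0),
    (2111, false, 1, [(2, 191)], [], [], [(241291, 48258)], 0)] 697 781 = true := by
  decide +kernel

theorem ck389_761 : chunk WW (search 1 ef389 fqT GT FN389 4 389) 389
    [(863, false, 1, [(4, 97)], [], [(5, [(2, 2), (1, 2)]), (127, [(63, 2), (42, 3), (14, 3), (18, 7)]), (337, [(168, 2), (84, 2), (42, 2), (21, 2), (112, 3), (48, 7)])], [(16339, 389)], 2),
    (1039, true, 1, [(6, 173)], [], [], [(4157, 1039)], 0),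
    (1399, true, 1, [(466, 3), (6, 233)], [], [], [(25183, 25182)], 0),
    (1439, true, 1, [(2, 719)], [], [(7, [(3, 2), (2, 3)]), (13, [(6, 2), (3, 2), (4, 3)])], [(86341, 43170)], 2),
    (1637, true, 1, [(4, 409)], [], [], [(62207, 31103)], 0),
    (1663, false, 1, [(4, 97)], [277], [(1109, [(554, 2), (277, 2), (4, 277)]), (29917, [(14958, 2), (7479, 2), (9972, 3), (3324, 3), (1108, 3), (108, 277)]), (101383, [(50691, 2), (33794, 3), (1662, 61), (366, 277)])], [(742213, 371106)], 2),
    (1709, true, 1, [(28, 61)], [], [(19, [(9, 2), (6, 3), (2, 3)])], [(30763, 15381)], 1),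
    (1723, true, 1, [(42, 41)], [], [], [(17231, 17230)], 0),
    (1867, false, 1, [(4, 97)], [], [(151, [(75, 2), (50, 3), (30, 5), (6, 5)]), (971, [(485, 2), (194, 5), (10, 97)])], [(46681, 23340)], 2)] 620 761 = true := by
  decide +kernel

end Pool.Agent.NearSuper255
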