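import Pool.Agent.NearSuper255.TabX

/-!
# Ranges of excluded pairs, second part, file 21
-/

namespace Pool.Agent.NearSuper255

theorem ck397_731 : chunk WW (search 1 ef397 fqT GT FN397 4 397) 397
    [] 541 731 = true := by
  decide +kernel

theorem ck401_721 : chunk WW (search 1 ef401 fqT GT FN401 4 401) 401
    [] 507 721 = true := by
  decide +kernel

theorem ck409_697 : chunk W23 (search 1 ef409 fqT GT FN409 4 409) 409
    [] 3 697 = true := by
  decide +kernel

theorem ck409_703 : chunk WW (search 1 ef409 fqT GT FN409 4 409) 409
    [] 449 703 = true := by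
  decide +kernel

theorem ck419_671 : chunk W23 (search 1 ef419 fqT GT FN419 4 419) 419
    [] 16 671 = true := by
  decide +kernel

theorem ck419_703 : chunk WW (search 1 ef419 fqT GT FN419 4 419) 419
    [(839, true, 1, [(2, 419)], [], [], [(203039, 203038)], 0)] 381 703 = true := by
  decide +kernel

theorem ck421_661 : chunk W23 (search 1 ef421 fqT GT FN421 4 421) 421
    [] 21 661 = true := by
  decide +kernel

theorem ck421_703 : chunk WW (search 1 ef421 fqT GT FN421 4 421) 421
    [] 369 703 = true := by
  decide +kernel

theorem ck431_641 : chunk W23 (search 1 ef431 fqT GT FN431 4 431) 431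
    [] 31 641 = true := by
  decide +kernel

theorem ck431_703 : chunk WW (search 1 ef431 fqT GT FN431 4 431) 431
    [(863, false, 1, [], [], [], [(5201309, 2600654)], 0),
    (1009, true, 1, [(144, 7)], [5], [(101, [(50, 2), (25, 2), (20, 5), (4, 5)])], [(10091, 5045)], 1),
    (1187, true, 1, [(2, 593)], [], [], [(9497, 4748)], 0),
    (1283, false, 1, [(86, 5), (10, 43)], [], [(1291, [(645, 2), (430, 3), (258, 5), (30, 43)]), (1301, [(650, 2), (325, 2), (260, 5), (52, 5), (100, 13)])], [(51721, 1724)], 1)] 317 703 = true := by
  decide +kernel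

theorem ck433_637 : chunk W23 (search 1 ef433 fqT GT FN433 4 433) 433
    [] 33 637 = true := by
  decide +kernel

end Pool.Agent.NearSuper255
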