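import Pool.Agent.NearSuper255.TabX

/-!
# Ranges of excluded pairs, second part, file 22
-/

namespace Pool.Agent.NearSuper255

theorem ck433_703 : chunk WW (search 1 ef433 fqT GT FN433 4 433) 433
    [] 307 703 = true := by
  decide +kernel

theorem ck439_621 : chunk W23 (search 1 ef439 fqT GT FN439 4 439) 439
    [] 41 621 = true := by
  decide +kernel

theorem ck439_703 : chunk WW (search 1 ef439 fqT GT FN439 4 439) 439
    [] 281 703 = true := by
  decide +kernel

theorem ck443_617 : chunk W23 (search 1 ef443 fqT GT FN443 4 443) 443
    [] 43 617 = true := by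
  decide +kernel

theorem ck443_703 : chunk WW (search 1 ef443 fqT GT FN443 4 443) 443
    [(887, true, 1, [(2, 443)], [], [], [(5323, 1774)], 0)] 265 703 = true := by
  decide +kernel

theorem ck449_601 : chunk W23 (search 1 ef449 fqT GT FN449 4 449) 449
    [] 51 601 = true := by
  decide +kernel

theorem ck449_703 : chunk WW (search 1 ef449 fqT GT FN449 4 449) 449
    [] 244 703 = true := by
  decide +kernel

theorem ck457_591 : chunk W23 (search 1 ef457 fqT GT FN457 4 457) 457
    [(683, true, 1, [(62, 11), (22, 31)], [], [], [(1367, 1366)], 0)] 56 591 = true := by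
  decide +kernel

theorem ck457_703 : chunk WW (search 1 ef457 fqT GT FN457 4 457) 457
    [(907, true, 1, [(6, 151)], [3], [(13, [(6, 2), (3, 2), (4, 3)])], [(32653, 8163)], 1),
    (997, true, 1, [(249, 2), (12, 83)], [], [], [(27917, 997)], 0)] 218 703 = true := by
  decide +kernel

theorem ck461_581 : chunk W23 (search 1 ef461 fqT GT FN461 4 461) 461
    [] 61 581 = true := by
  decide +kernel

theorem ck461_703 : chunk WW (search 1 ef461 fqT GT FN461 4 461) 461
    [] 206 703 = true := by
  decide +kernel

theorem ck463_581 : chunk W23 (search 1 ef463 fqT GT FN463 4 463) 463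
    [] 61 581 = true := by
  decide +kernel

theorem ck463_703 : chunk WW (search 1 ef463 fqT GT FN463 4 463) 463
    [] 200 703 = true := by
  decide +kernel

theorem ck467_577 : chunk W23 (search 1 ef467 fqT GT FN467 4 467) 467
    [] 63 577 = true := by
  decide +kernel

theorem ck467_703 : chunk WW (search 1 ef467 fqT GT FN467 4 467) 467
    [] 189 703 = true := by
  decide +kernel

theorem ck479_561 : chunk W23 (search 1 ef479 fqT GT FN479 4 479) 479
    [] 71 561 = true := by
  decide +kernel

end Pool.Agent.NearSuper255
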