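import Pool.Agent.NearSuper255.TabX

/-!
# Ranges of excluded pairs, second part, file 23
-/

namespace Pool.Agent.NearSuper255

theorem ck479_703 : chunk WW (search 1 ef479 fqT GT FN479 4 479) 479
    [(719, false, 1, [(2, 239)], [359], [(16253, [(8126, 2), (4063, 2), (956, 17), (68, 239)]), (47389, [(23694, 2), (11847, 2), (15796, 3), (4308, 11), (132, 359)]), (48757, [(24378, 2), (12189, 2), (16252, 3), (2868, 17), (204, 239)]), (89387, [(44693, 2), (8126, 11), (5258, 17), (374, 239)]), (97649, [(48824, 2), (24412, 2), (12206, 2), (6103, 2), (5744, 17), (272, 359)]), (118471, [(59235, 2), (39490, 3), (23694, 5), (10770, 11), (330, 359)])], [(1264561, 63228)], 2),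
    (971, true, 1, [(10, 97)], [], [], [(5827, 1942)], 0)] 160 703 = true := by
  decide +kernel

theorem ck487_547 : chunk W23 (search 1 ef487 fqT GT FN487 4 487) 487
    [] 78 547 = true := by
  decide +kernel

theorem ck487_703 : chunk WW (search 1 ef487 fqT GT FN487 4 487) 487
    [] 142 703 = true := by
  decide +kernel

theorem ck491_541 : chunk W23 (search 1 ef491 fqT GT FN491 4 491) 491
    [] 81 541 = true := by
  decide +kernel

theorem ck491_703 : chunk WW (search 1 ef491 fqT GT FN491 4 491) 491
    [] 135 703 = true := by
  decide +kernel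

theorem ck499_531 : chunk W23 (search 1 ef499 fqT GT FN499 4 499) 499
    [] 86 531 = true := by
  decide +kernel

theorem ck499_703 : chunk WW (search 1 ef499 fqT GT FN499 4 499) 499
    [(719, true, 1, [(2, 359)], [], [], [(1439, 1438)], 0)] 120 703 = true := by
  decide +kernel

theorem ck503_531 : chunk W23 (search 1 ef503 fqT GT FN503 4 503) 503
    [] 86 531 = true := by
  decide +kernel

theorem ck503_703 : chunk WW (search 1 ef503 fqT GT FN503 4 503) 503
    [(827, true, 1, [(118, 7), (14, 59)], [], [], [(21503, 21502)], 0),
    (839, true, 1, [(2, 419)], [], [], [(26849, 1678)], 0)] 113 703 = true := by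
  decide +kernel

theorem ck509_521 : chunk W23 (search 1 ef509 fqT GT FN509 4 509) 509
    [] 91 521 = true := by
  decide +kernel

theorem ck509_703 : chunk WW (search 1 ef509 fqT GT FN509 4 509) 509
    [] 103 703 = true := by
  decide +kernel

theorem ck521_523 : chunk W23 (search 1 ef521 fqT GT FN521 4 521) 521
    [] 90 523 = true := by
  decide +kernel

theorem ck521_703 : chunk WW (search 1 ef521 fqT GT FN521 4 521) 521
    [] 86 703 = true := by
  decide +kernel

theorem ck523_525 : chunk W23 (search 1 ef523 fqT GT FN523 4 523) 523
    [] 89 525 = true := by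
  decide +kernel

theorem ck523_703 : chunk WW (search 1 ef523 fqT GT FN523 4 523) 523
    [] 83 703 = true := by
  decide +kernel

theorem ck541_543 : chunk W23 (search 1 ef541 fqT GT FN541 4 541) 541
    [] 80 543 = true := by
  decide +kernel

theorem ck541_703 : chunk WW (search 1 ef541 fqT GT FN541 4 541) 541
    [] 60 703 = true := by
  decide +kernel

theorem ck547_549 : chunk W23 (search 1 ef547 fqT GT FN547 4 547) 547
    [] 77 549 = true := by
  decide +kernel

theorem ck547_703 : chunk WW (search 1 ef547 fqT GT FN547 4 547) 547
    [] 54 703 = true := by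
  decide +kernel

theorem ck557_559 : chunk W23 (search 1 ef557 fqT GT FN557 4 557) 557
    [] 72 559 = true := by
  decide +kernel

theorem ck557_703 : chunk WW (search 1 ef557 fqT GT FN557 4 557) 557
    [] 49 703 = true := by
  decide +kernel

theorem ck563_565 : chunk W23 (search 1 ef563 fqT GT FN563 4 563) 563
    [] 69 565 = true := by
  decide +kernel

theorem ck563_703 : chunk WW (search 1 ef563 fqT GT FN563 4 563) 563
    [] 49 703 = true := by
  decide +kernel

end Pool.Agent.NearSuper255
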