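import Pool.Agent.NearSuper255.TabX

/-!
# Ranges of excluded pairs, second part, file 24
-/

namespace Pool.Agent.NearSuper255

theorem ck569_571 : chunk W23 (search 1 ef569 fqT GT FN569 4 569) 569
    [] 66 571 = true := by
  decide +kernel

theorem ck569_703 : chunk WW (search 1 ef569 fqT GT FN569 4 569) 569
    [] 49 703 = true := by
  decide +kernel

theorem ck571_573 : chunk W23 (search 1 ef571 fqT GT FN571 4 571) 571
    [] 65 573 = true := by
  decide +kernel

theorem ck571_703 : chunk WW (search 1 ef571 fqT GT FN571 4 571) 571
    [] 49 703 = true := by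
  decide +kernel

theorem ck577_579 : chunk W23 (search 1 ef577 fqT GT FN577 4 577) 577
    [] 62 579 = true := by
  decide +kernel

theorem ck577_703 : chunk WW (search 1 ef577 fqT GT FN577 4 577) 577
    [] 49 703 = true := by
  decide +kernel

theorem ck587_589 : chunk W23 (search 1 ef587 fqT GT FN587 4 587) 587
    [(643, true, 1, [(214, 3), (6, 107)], [], [], [(10289, 643)], 0)] 57 589 = true := by
  decide +kernel

theorem ck587_703 : chunk WW (search 1 ef587 fqT GT FN587 4 587) 587
    [] 49 703 = true := by
  decide +kernel

theorem ck593_595 : chunk W23 (search 1 ef593 fqT GT FN593 4 593) 593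
    [] 54 595 = true := by
  decide +kernel

theorem ck593_703 : chunk WW (search 1 ef593 fqT GT FN593 4 593) 593
    [] 49 703 = true := by
  decide +kernel

theorem ck599_601 : chunk W23 (search 1 ef599 fqT GT FN599 4 599) 599
    [] 51 601 = true := by
  decide +kernel

theorem ck599_703 : chunk WW (search 1 ef599 fqT GT FN599 4 599) 599
    [] 49 703 = true := by
  decide +kernel

theorem ck601_603 : chunk W23 (search 1 ef601 fqT GT FN601 4 601) 601
    [] 50 603 = true := by
  decide +kernel

theorem ck601_703 : chunk WW (search 1 ef601 fqT GT FN601 4 601) 601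
    [] 49 703 = true := by
  decide +kernel

theorem ck607_609 : chunk W23 (search 1 ef607 fqT GT FN607 4 607) 607
    [(683, true, 1, [(22, 31)], [], [], [(1367, 1366)], 0)] 47 609 = true := by
  decide +kernel

theorem ck607_703 : chunk WW (search 1 ef607 fqT GT FN607 4 607) 607
    [] 49 703 = true := by
  decide +kernel

theorem ck613_615 : chunk W23 (search 1 ef613 fqT GT FN613 4 613) 613
    [] 44 615 = true := by
  decide +kernel

theorem ck613_703 : chunk WW (search 1 ef613 fqT GT FN613 4 613) 613
    [] 49 703 = true := by
  decide +kernel

theorem ck617_619 : chunk W23 (search 1 ef617 fqT GT FN617 4 617) 617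
    [] 42 619 = true := by
  decide +kernel

theorem ck617_703 : chunk WW (search 1 ef617 fqT GT FN617 4 617) 617
    [] 49 703 = true := by
  decide +kernel

theorem ck619_621 : chunk W23 (search 1 ef619 fqT GT FN619 4 619) 619
    [] 41 621 = true := by
  decide +kernel

theorem ck619_703 : chunk WW (search 1 ef619 fqT GT FN619 4 619) 619
    [] 49 703 = true := by
  decide +kernel

theorem ck631_633 : chunk W23 (search 1 ef631 fqT GT FN631 4 631) 631
    [] 35 633 = true := by
  decide +kernel

theorem ck631_703 : chunk WW (search 1 ef631 fqT GT FN631 4 631) 631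
    [] 49 703 = true := by
  decide +kernel

theorem ck641_643 : chunk W23 (search 1 ef641 fqT GT FN641 4 641) 641
    [] 30 643 = true := by
  decide +kernel

theorem ck641_703 : chunk WW (search 1 ef641 fqT GT FN641 4 641) 641
    [] 49 703 = true := by
  decide +kernel

theorem ck643_645 : chunk W23 (search 1 ef643 fqT GT FN643 4 643) 643
    [] 29 645 = true := by
  decide +kernel

theorem ck643_703 : chunk WW (search 1 ef643 fqT GT FN643 4 643) 643
    [] 49 703 = true := by
  decide +kernel

theorem ck647_649 : chunk W23 (search 1 ef647 fqT GT FN647 4 647) 647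
    [] 27 649 = true := by
  decide +kernel

theorem ck647_703 : chunk WW (search 1 ef647 fqT GT FN647 4 647) 647
    [] 49 703 = true := by
  decide +kernel

theorem ck653_655 : chunk W23 (search 1 ef653 fqT GT FN653 4 653) 653
    [] 24 655 = true := by
  decide +kernel

theorem ck653_703 : chunk WW (search 1 ef653 fqT GT FN653 4 653) 653
    [] 49 703 = true := by
  decide +kernel

theorem ck659_661 : chunk W23 (search 1 ef659 fqT GT FN659 4 659) 659
    [] 21 661 = true := by
  decide +kernel

theorem ck659_703 : chunk WW (search 1 ef659 fqT GT FN659 4 659) 659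
    [] 49 703 = true := by
  decide +kernel

theorem ck661_663 : chunk W23 (search 1 ef661 fqT GT FN661 4 661) 661
    [] 20 663 = true := by
  decide +kernel

theorem ck661_703 : chunk WW (search 1 ef661 fqT GT FN661 4 661) 661
    [] 49 703 = true := by
  decide +kernel

theorem ck673_675 : chunk W23 (search 1 ef673 fqT GT FN673 4 673) 673
    [] 14 675 = true := by
  decide +kernel

theorem ck673_703 : chunk WW (search 1 ef673 fqT GT FN673 4 673) 673
    [] 49 703 = true := by
  decide +kernel

theorem ck677_679 : chunk W23 (search 1 ef677 fqT GT FN677 4 677) 677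
    [] 12 679 = true := by
  decide +kernel

theorem ck677_703 : chunk WW (search 1 ef677 fqT GT FN677 4 677) 677
    [] 49 703 = true := by
  decide +kernel

theorem ck683_685 : chunk W23 (search 1 ef683 fqT GT FN683 4 683) 683
    [] 9 685 = true := by
  decide +kernel

theorem ck683_703 : chunk WW (search 1 ef683 fqT GT FN683 4 683) 683
    [] 49 703 = true := by
  decide +kernel

theorem ck691_693 : chunk W23 (search 1 ef691 fqT GT FN691 4 691) 691
    [] 5 693 = true := by
  decide +kernel

end Pool.Agent.NearSuper255
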