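import Pool.Agent.NearSuper255.TabX

/-!
# Ranges of excluded pairs, second part, file 25
-/

namespace Pool.Agent.NearSuper255

theorem ck691_703 : chunk WW (search 1 ef691 fqT GT FN691 4 691) 691
    [] 49 703 = true := by
  decide +kernel

theorem ck701_703 : chunk WW (search 1 ef701 fqT GT FN701 4 701) 701
    [] 49 703 = true := by
  decide +kernel

theorem ck709_711 : chunk WW (search 1 ef709 fqT GT FN709 4 709) 709
    [] 45 711 = true := by
  decide +kernel

theorem ck719_721 : chunk WW (search 1 ef719 fqT GT FN719 4 719) 719
    [] 40 721 = true := by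
  decide +kernel

theorem ck727_729 : chunk WW (search 1 ef727 fqT GT FN727 4 727) 727
    [] 36 729 = true := by
  decide +kernel

theorem ck733_735 : chunk WW (search 1 ef733 fqT GT FN733 4 733) 733
    [] 33 735 = true := by
  decide +kernel

theorem ck739_741 : chunk WW (search 1 ef739 fqT GT FN739 4 739) 739
    [] 30 741 = true := by
  decide +kernel

theorem ck743_745 : chunk WW (search 1 ef743 fqT GT FN743 4 743) 743
    [] 28 745 = true := by
  decide +kernel

theorem ck751_753 : chunk WW (search 1 ef751 fqT GT FN751 4 751) 751
    [] 24 753 = true := by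
  decide +kernel

theorem ck757_759 : chunk WW (search 1 ef757 fqT GT FN757 4 757) 757
    [] 21 759 = true := by
  decide +kernel

theorem ck761_763 : chunk WW (search 1 ef761 fqT GT FN761 4 761) 761
    [] 19 763 = true := by
  decide +kernel

theorem ck769_771 : chunk WW (search 1 ef769 fqT GT FN769 4 769) 769
    [] 15 771 = true := by
  decide +kernel

theorem ck773_775 : chunk WW (search 1 ef773 fqT GT FN773 4 773) 773
    [] 13 775 = true := by
  decide +kernel

theorem ck787_789 : chunk WW (search 1 ef787 fqT GT FN787 4 787) 787
    [] 6 789 = true := by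
  decide +kernel

theorem ck797_799 : chunk WW (search 1 ef797 fqT GT FN797 4 797) 797
    [] 1 799 = true := by
  decide +kernel

end Pool.Agent.NearSuper255
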