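import Pool.Agent.NearSuper255.TabX

/-!
# Ranges of excluded pairs, second part, file 3
-/

namespace Pool.Agent.NearSuper255

theorem ck13_15703 : chunk WW (search 1 ef13 fqT GT FN13 4 13) 13
    [(17597, false, 1, [(3, 2)], [], [(23, [(11, 2), (2, 11)]), (419, [(209, 2), (38, 11), (22, 19)])], [(859, 11)], 2),
    (19739, false, 1, [(3, 2)], [], [(47, [(23, 2), (2, 23)]), (433, [(216, 2), (108, 2), (54, 2), (27, 2), (144, 3), (48, 3), (16, 3)]), (461, [(230, 2), (115, 2), (92, 5), (20, 23)])], [(5981, 1495)], 1)] 2500 15703 = true := by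
  decide +kernel

theorem ck13_20703 : chunk WW (search 1 ef13 fqT GT FN13 4 13) 13
    [(23687, false, 1, [], [], [(47, [(23, 2), (2, 23)]), (277, [(138, 2), (69, 2), (92, 3), (12, 23)])], [(4057, 338)], 1),
    (25117, false, 1, [], [3, 13], [(53, [(26, 2), (13, 2), (4, 13)]), (61, [(30, 2), (15, 2), (20, 3), (12, 5)]), (71, [(35, 2), (14, 5), (10, 7)]), (127, [(63, 2), (42, 3), (14, 3), (18, 7)]), (199, [(99, 2), (66, 3), (22, 3), (18, 11)]), (419, [(209, 2), (38, 11), (22, 19)]), (541, [(270, 2), (135, 2), (180, 3), (60, 3), (20, 3), (108, 5)])], [(3719, 1859)], 2)] 2500 20703 = true := by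
  decide +kernel

theorem ck13_25703 : chunk WW (search 1 ef13 fqT GT FN13 4 13) 13
    [(26183, false, 1, [], [], [(7, [(3, 2), (2, 3)]), (229, [(114, 2), (57, 2), (76, 3), (12, 19)]), (457, [(228, 2), (114, 2), (57, 2), (152, 3), (24, 19)])], [(2029, 507)], 2)] 2500 25703 = true := by
  decide +kernel

theorem ck13_30703 : chunk WW (search 1 ef13 fqT GT FN13 4 13) 13
    [(31981, false, 1, [], [3], [(61, [(30, 2), (15, 2), (20, 3), (12, 5)]), (281, [(140, 2), (70, 2), (35, 2), (56, 5), (40, 7)]), (337, [(168, 2), (84, 2), (42, 2), (21, 2), (112, 3), (48, 7)])], [(4733, 182)], 1),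
    (33149, false, 13, [], [], [], [(677, 169)], 0),
    (33773, false, 1, [], [], [], [(2861, 55)], 0)] 2500 30703 = true := by
  decide +kernel

theorem ck13_35703 : chunk WW (search 1 ef13 fqT GT FN13 4 13) 13
    [(36947, false, 1, [], [], [(419, [(209, 2), (38, 11), (22, 19)]), (859, [(429, 2), (286, 3), (78, 11), (66, 13)])], [(3719, 1859)], 2)] 2149 35703 = true := by
  decide +kernel

theorem ck23_2501 : chunk WW (search 1 ef23 fqT GT FN23 4 23) 23
    [(2531, false, 1, [], [5], [(31, [(15, 2), (10, 3), (6, 5)]), (41, [(20, 2), (10, 2), (5, 2), (8, 5)])], [(12697, 6348)], 1),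
    (3037, false, 1, [], [3, 11], [(67, [(33, 2), (22, 3), (6, 11)]), (79, [(39, 2), (26, 3), (6, 13)]), (89, [(44, 2), (22, 2), (11, 2), (8, 11)]), (547, [(273, 2), (182, 3), (78, 7), (42, 13)]), (617, [(308, 2), (154, 2), (77, 2), (88, 7), (56, 11)])], [(14813, 1058)], 1),
    (3083, false, 1, [], [23], [(139, [(69, 2), (46, 3), (6, 23)]), (257, [(128, 2), (64, 2), (32, 2), (16, 2), (8, 2), (4, 2), (2, 2), (1, 2)]), (379, [(189, 2), (126, 3), (42, 3), (14, 3), (54, 7)]), (577, [(288, 2), (144, 2), (72, 2), (36, 2), (18, 2), (9, 2), (192, 3), (64, 3)])], [(12697, 6348)], 1),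
    (3221, false, 1, [], [5], [(31, [(15, 2), (10, 3), (6, 5)])], [(12697, 6348)], 1),
    (3313, false, 1, [], [23], [], [(12697, 6348)], 0),
    (3359, false, 1, [], [], [(7, [(3, 2), (2, 3)]), (13, [(6, 2), (3, 2), (4, 3)])], [(14813, 1058)], 1),
    (3727, false, 1, [], [3, 23], [(277, [(138, 2), (69, 2), (92, 3), (12, 23)]), (313, [(156, 2), (78, 2), (39, 2), (104, 3), (24, 13)]), (547, [(273, 2), (182, 3), (78, 7), (42, 13)]), (673, [(336, 2), (168, 2), (84, 2), (42, 2), (21, 2), (224, 3), (96, 7)]), (859, [(429, 2), (286, 3), (78, 11), (66, 13)])], [(14813, 1058)], 2),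
    (3911, false, 1, [], [5], [(211, [(105, 2), (70, 3), (42, 5), (30, 7)])], [(14813, 1058)], 1),
    (4003, false, 1, [], [3, 23], [(79, [(39, 2), (26, 3), (6, 13)]), (313, [(156, 2), (78, 2), (39, 2), (104, 3), (24, 13)]), (461, [(230, 2), (115, 2), (92, 5), (20, 23)]), (937, [(468, 2), (234, 2), (117, 2), (312, 3), (104, 3), (72, 13)])], [(12697, 6348)], 2),
    (4049, false, 1, [], [], [], [(12697, 6348)], 0),
    (4463, false, 1, [], [23], [], [(17987, 17986)], 0),
    (4831, false, 1, [], [], [], [(14813, 1058)], 0),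
    (4877, false, 1, [], [23], [(1013, [(506, 2), (253, 2), (92, 11), (44, 23)])], [(14813, 1058)], 1),
    (4969, false, 1, [], [2, 3], [(73, [(36, 2), (18, 2), (9, 2), (24, 3), (8, 3)])], [(12697, 6348)], 1),
    (5107, false, 1, [], [3], [(13, [(6, 2), (3, 2), (4, 3)]), (73, [(36, 2), (18, 2), (9, 2), (24, 3), (8, 3)]), (271, [(135, 2), (90, 3), (30, 3), (10, 3), (54, 5)]), (281, [(140, 2), (70, 2), (35, 2), (56, 5), (40, 7)]), (701, [(350, 2), (175, 2), (140, 5), (28, 5), (100, 7)])], [(14813, 1058)], 1),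
    (5153, false, 1, [], [2], [(13, [(6, 2), (3, 2), (4, 3)]), (37, [(18, 2), (9, 2), (12, 3), (4, 3)]), (43, [(21, 2), (14, 3), (6, 7)]), (53, [(26, 2), (13, 2), (4, 13)]), (71, [(35, 2), (14, 5), (10, 7)])], [(14813, 1058)], 2),
    (5521, false, 1, [], [2, 3], [(37, [(18, 2), (9, 2), (12, 3), (4, 3)])], [(12697, 6348)], 1),
    (5659, false, 1, [], [23], [], [(12697, 6348)], 0),
    (5843, false, 1, [], [], [(47, [(23, 2), (2, 23)]), (139, [(69, 2), (46, 3), (6, 23)]), (461, [(230, 2), (115, 2), (92, 5), (20, 23)]), (601, [(300, 2), (150, 2), (75, 2), (200, 3), (120, 5), (24, 5)]), (883, [(441, 2), (294, 3), (98, 3), (126, 7), (18, 7)]), (1051, [(525, 2), (350, 3), (210, 5), (42, 5), (150, 7)])], [(14813, 1058)], 1),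
    (5981, false, 1, [], [5], [(211, [(105, 2), (70, 3), (42, 5), (30, 7)]), (223, [(111, 2), (74, 3), (6, 37)]), (593, [(296, 2), (148, 2), (74, 2), (37, 2), (16, 37)])], [(12697, 6348)], 1),
    (6073, false, 1, [], [3], [(13, [(6, 2), (3, 2), (4, 3)])], [(12697, 6348)], 1),
    (6211, false, 1, [], [5], [(211, [(105, 2), (70, 3), (42, 5), (30, 7)]), (281, [(140, 2), (70, 2), (35, 2), (56, 5), (40, 7)]), (941, [(470, 2), (235, 2), (188, 5), (20, 47)])], [(14813, 1058)], 1),
    (6257, false, 1, [], [2, 17], [(137, [(68, 2), (34, 2), (17, 2), (8, 17)])], [(17987, 17986)], 1),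
    (6763, false, 1, [], [7], [(19, [(9, 2), (6, 3), (2, 3)]), (163, [(81, 2), (54, 3), (18, 3), (6, 3), (2, 3)]), (241, [(120, 2), (60, 2), (30, 2), (15, 2), (80, 3), (48, 5)]), (337, [(168, 2), (84, 2), (42, 2), (21, 2), (112, 3), (48, 7)])], [(14813, 1058)], 1),
    (6947, false, 1, [], [23], [(139, [(69, 2), (46, 3), (6, 23)]), (277, [(138, 2), (69, 2), (92, 3), (12, 23)]), (691, [(345, 2), (230, 3), (138, 5), (30, 23)]), (701, [(350, 2), (175, 2), (140, 5), (28, 5), (100, 7)]), (967, [(483, 2), (322, 3), (138, 7), (42, 23)])], [(14813, 1058)], 1),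
    (7039, false, 1, [], [3], [(13, [(6, 2), (3, 2), (4, 3)]), (271, [(135, 2), (90, 3), (30, 3), (10, 3), (54, 5)]), (401, [(200, 2), (100, 2), (50, 2), (25, 2), (80, 5), (16, 5)]), (601, [(300, 2), (150, 2), (75, 2), (200, 3), (120, 5), (24, 5)])], [(12697, 6348)], 1),
    (7177, false, 1, [], [], [(97, [(48, 2), (24, 2), (12, 2), (6, 2), (3, 2), (32, 3)]), (193, [(96, 2), (48, 2), (24, 2), (12, 2), (6, 2), (3, 2), (64, 3)])], [(14813, 1058)], 1),
    (7499, false, 1, [], [23], [(139, [(69, 2), (46, 3), (6, 23)])], [(12697, 6348)], 1)] 2500 2501 = true := by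
  decide +kernel

theorem ck23_7501 : chunk WW (search 1 ef23 fqT GT FN23 4 23) 23
    [(7591, false, 1, [], [3], [(79, [(39, 2), (26, 3), (6, 13)]), (443, [(221, 2), (34, 13), (26, 17)]), (613, [(306, 2), (153, 2), (204, 3), (68, 3), (36, 17)]), (677, [(338, 2), (169, 2), (52, 13), (4, 13)])], [(17987, 17986)], 2),
    (7703, false, 23, [(2, 11)], [], [], [(49727, 49726)], 0),
    (7867, false, 1, [], [3], [(109, [(54, 2), (27, 2), (36, 3), (12, 3), (4, 3)]), (281, [(140, 2), (70, 2), (35, 2), (56, 5), (40, 7)])], [(12697, 6348)], 2),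
    (8087, false, 1, [(2, 11)], [13], [(337, [(168, 2), (84, 2), (42, 2), (21, 2), (112, 3), (48, 7)]), (547, [(273, 2), (182, 3), (78, 7), (42, 13)])], [(10627, 10626)], 1),
    (8419, false, 1, [], [3], [(13, [(6, 2), (3, 2), (4, 3)])], [(14813, 1058)], 1),
    (8741, false, 1, [], [23], [(31, [(15, 2), (10, 3), (6, 5)]), (139, [(69, 2), (46, 3), (6, 23)]), (211, [(105, 2), (70, 3), (42, 5), (30, 7)]), (337, [(168, 2), (84, 2), (42, 2), (21, 2), (112, 3), (48, 7)]), (941, [(470, 2), (235, 2), (188, 5), (20, 47)])], [(14813, 1058)], 1),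
    (8971, false, 1, [], [3, 5, 23], [(151, [(75, 2), (50, 3), (30, 5), (6, 5)]), (1013, [(506, 2), (253, 2), (92, 11), (44, 23)])], [(12697, 6348)], 1),
    (9109, false, 1, [], [23], [], [(12697, 6348)], 0),
    (9293, false, 1, [], [], [], [(14813, 1058)], 0),
    (9431, false, 1, [], [5], [(211, [(105, 2), (70, 3), (42, 5), (30, 7)])], [(14813, 1058)], 1),
    (9661, false, 1, [], [23], [(139, [(69, 2), (46, 3), (6, 23)])], [(12697, 6348)], 1),
    (10259, false, 1, [], [], [(19, [(9, 2), (6, 3), (2, 3)]), (37, [(18, 2), (9, 2), (12, 3), (4, 3)]), (73, [(36, 2), (18, 2), (9, 2), (24, 3), (8, 3)]), (163, [(81, 2), (54, 3), (18, 3), (6, 3), (2, 3)]), (433, [(216, 2), (108, 2), (54, 2), (27, 2), (144, 3), (48, 3), (16, 3)]), (449, [(224, 2), (112, 2), (56, 2), (28, 2), (14, 2), (7, 2), (64, 7)]), (883, [(441, 2), (294, 3), (98, 3), (126, 7), (18, 7)])], [(14813, 1058)], 2),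
    (10627, false, 1, [], [3, 7, 11], [(67, [(33, 2), (22, 3), (6, 11)]), (433, [(216, 2), (108, 2), (54, 2), (27, 2), (144, 3), (48, 3), (16, 3)]), (449, [(224, 2), (112, 2), (56, 2), (28, 2), (14, 2), (7, 2), (64, 7)])], [(14813, 1058)], 1),
    (10903, false, 1, [], [3], [(29, [(14, 2), (7, 2), (4, 7)]), (43, [(21, 2), (14, 3), (6, 7)])], [(12697, 6348)], 1),
    (10949, false, 1, [], [7], [(673, [(336, 2), (168, 2), (84, 2), (42, 2), (21, 2), (224, 3), (96, 7)])], [(14813, 1058)], 1),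
    (11087, false, 1, [], [], [(7, [(3, 2), (2, 3)]), (13, [(6, 2), (3, 2), (4, 3)]), (73, [(36, 2), (18, 2), (9, 2), (24, 3), (8, 3)]), (163, [(81, 2), (54, 3), (18, 3), (6, 3), (2, 3)]), (281, [(140, 2), (70, 2), (35, 2), (56, 5), (40, 7)]), (541, [(270, 2), (135, 2), (180, 3), (60, 3), (20, 3), (108, 5)]), (701, [(350, 2), (175, 2), (140, 5), (28, 5), (100, 7)]), (811, [(405, 2), (270, 3), (90, 3), (30, 3), (10, 3), (162, 5)])], [(14813, 1058)], 3),
    (11317, false, 1, [], [3], [(19, [(9, 2), (6, 3), (2, 3)]), (79, [(39, 2), (26, 3), (6, 13)]), (163, [(81, 2), (54, 3), (18, 3), (6, 3), (2, 3)]), (433, [(216, 2), (108, 2), (54, 2), (27, 2), (144, 3), (48, 3), (16, 3)]), (757, [(378, 2), (189, 2), (252, 3), (84, 3), (28, 3), (108, 7)])], [(14813, 1058)], 2),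
    (11593, false, 1, [], [3], [(17, [(8, 2), (4, 2), (2, 2), (1, 2)]), (37, [(18, 2), (9, 2), (12, 3), (4, 3)]), (103, [(51, 2), (34, 3), (6, 17)]), (137, [(68, 2), (34, 2), (17, 2), (8, 17)])], [(17987, 17986)], 1),
    (11731, false, 1, [], [17], [(103, [(51, 2), (34, 3), (6, 17)])], [(17987, 17986)], 1),
    (11777, false, 1, [], [], [(151, [(75, 2), (50, 3), (30, 5), (6, 5)]), (211, [(105, 2), (70, 3), (42, 5), (30, 7)])], [(14813, 1058)], 1),
    (12007, false, 1, [], [23], [], [(17987, 17986)], 0),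
    (12329, false, 1, [], [23], [(139, [(69, 2), (46, 3), (6, 23)]), (163, [(81, 2), (54, 3), (18, 3), (6, 3), (2, 3)]), (271, [(135, 2), (90, 3), (30, 3), (10, 3), (54, 5)]), (541, [(270, 2), (135, 2), (180, 3), (60, 3), (20, 3), (108, 5)]), (811, [(405, 2), (270, 3), (90, 3), (30, 3), (10, 3), (162, 5)])], [(12697, 6348)], 2),
    (12421, false, 1, [], [3], [(73, [(36, 2), (18, 2), (9, 2), (24, 3), (8, 3)]), (109, [(54, 2), (27, 2), (36, 3), (12, 3), (4, 3)]), (163, [(81, 2), (54, 3), (18, 3), (6, 3), (2, 3)])], [(12697, 6348)], 3)] 2500 7501 = true := by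
  decide +kernel

theorem ck23_12501 : chunk WW (search 1 ef23 fqT GT FN23 4 23) 23
    [(12697, false, 1, [], [3], [(79, [(39, 2), (26, 3), (6, 13)])], [(41263, 13754)], 1),
    (12743, false, 1, [], [], [(59, [(29, 2), (2, 29)]), (233, [(116, 2), (58, 2), (29, 2), (8, 29)])], [(12697, 6348)], 1),
    (12973, false, 1, [], [3, 23], [(277, [(138, 2), (69, 2), (92, 3), (12, 23)])], [(12697, 6348)], 1),
    (13249, false, 1, [], [23], [(1013, [(506, 2), (253, 2), (92, 11), (44, 23)])], [(14813, 1058)], 1),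
    (13709, false, 1, [], [], [(457, [(228, 2), (114, 2), (57, 2), (152, 3), (24, 19)]), (599, [(299, 2), (46, 13), (26, 23)]), (881, [(440, 2), (220, 2), (110, 2), (55, 2), (176, 5), (80, 11)]), (911, [(455, 2), (182, 5), (130, 7), (70, 13)]), (937, [(468, 2), (234, 2), (117, 2), (312, 3), (104, 3), (72, 13)])], [(14813, 1058)], 2),
    (14537, false, 1, [], [23], [(1289, [(644, 2), (322, 2), (161, 2), (184, 7), (56, 23)])], [(14813, 1058)], 1),
    (14629, false, 1, [], [3], [(5, [(2, 2), (1, 2)]), (37, [(18, 2), (9, 2), (12, 3), (4, 3)]), (61, [(30, 2), (15, 2), (20, 3), (12, 5)]), (211, [(105, 2), (70, 3), (42, 5), (30, 7)])], [(14813, 1058)], 1),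
    (14767, false, 1, [], [], [(71, [(35, 2), (14, 5), (10, 7)]), (673, [(336, 2), (168, 2), (84, 2), (42, 2), (21, 2), (224, 3), (96, 7)])], [(14813, 1058)], 1),
    (14813, false, 1, [], [23], [], [(12697, 6348)], 0),
    (14843, false, 1, [(2, 11)], [], [(79, [(39, 2), (26, 3), (6, 13)]), (1237, [(618, 2), (309, 2), (412, 3), (12, 103)])], [(9109, 2277)], 2),
    (14951, false, 1, [], [5], [(211, [(105, 2), (70, 3), (42, 5), (30, 7)])], [(14813, 1058)], 1),
    (15227, false, 1, [], [23], [(109, [(54, 2), (27, 2), (36, 3), (12, 3), (4, 3)]), (271, [(135, 2), (90, 3), (30, 3), (10, 3), (54, 5)]), (1289, [(644, 2), (322, 2), (161, 2), (184, 7), (56, 23)])], [(12697, 6348)], 2),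
    (15319, false, 1, [], [], [], [(12697, 6348)], 0),
    (15641, false, 1, [], [17], [(103, [(51, 2), (34, 3), (6, 17)])], [(17987, 17986)], 1),
    (15733, false, 1, [], [3, 23], [(277, [(138, 2), (69, 2), (92, 3), (12, 23)])], [(12697, 6348)], 1),
    (16193, false, 1, [], [], [], [(12697, 6348)], 0),
    (16561, false, 1, [], [2, 3, 5], [(151, [(75, 2), (50, 3), (30, 5), (6, 5)]), (307, [(153, 2), (102, 3), (34, 3), (18, 17)]), (409, [(204, 2), (102, 2), (51, 2), (136, 3), (24, 17)])], [(17987, 17986)], 1),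
    (16607, false, 1, [], [23], [(1289, [(644, 2), (322, 2), (161, 2), (184, 7), (56, 23)])], [(14813, 1058)], 1),
    (16699, false, 1, [], [11, 23], [(139, [(69, 2), (46, 3), (6, 23)]), (211, [(105, 2), (70, 3), (42, 5), (30, 7)]), (277, [(138, 2), (69, 2), (92, 3), (12, 23)]), (311, [(155, 2), (62, 5), (10, 31)]), (331, [(165, 2), (110, 3), (66, 5), (30, 11)])], [(14813, 1058)], 3),
    (16883, false, 1, [], [], [(13, [(6, 2), (3, 2), (4, 3)]), (61, [(30, 2), (15, 2), (20, 3), (12, 5)]), (67, [(33, 2), (22, 3), (6, 11)]), (211, [(105, 2), (70, 3), (42, 5), (30, 7)])], [(14813, 1058)], 2),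
    (17021, false, 1, [], [5], [(211, [(105, 2), (70, 3), (42, 5), (30, 7)])], [(14813, 1058)], 1),
    (17159, false, 1, [], [23], [(13, [(6, 2), (3, 2), (4, 3)]), (277, [(138, 2), (69, 2), (92, 3), (12, 23)])], [(14813, 1058)], 1),
    (17389, false, 1, [], [7], [(71, [(35, 2), (14, 5), (10, 7)])], [(14813, 1058)], 1),
    (17489, false, 1, [(2, 11)], [], [], [(9109, 2277)], 0)] 2500 12501 = true := by
  decide +kernel

end Pool.Agent.NearSuper255
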