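import Pool.Agent.NearSuper255.TabX

/-!
# Ranges of excluded pairs, second part, file 4
-/

namespace Pool.Agent.NearSuper255

theorem ck23_17501 : chunk WW (search 1 ef23 fqT GT FN23 4 23) 23
    [(17573, false, 1, [], [], [(29, [(14, 2), (7, 2), (4, 7)]), (673, [(336, 2), (168, 2), (84, 2), (42, 2), (21, 2), (224, 3), (96, 7)])], [(14813, 1058)], 1),
    (17987, false, 1, [], [17], [(239, [(119, 2), (34, 7), (14, 17)])], [(14813, 1058)], 1),
    (18217, false, 1, [], [3], [(79, [(39, 2), (26, 3), (6, 13)]), (521, [(260, 2), (130, 2), (65, 2), (104, 5), (40, 13)]), (937, [(468, 2), (234, 2), (117, 2), (312, 3), (104, 3), (72, 13)])], [(12697, 6348)], 1),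
    (18401, false, 1, [], [5], [(211, [(105, 2), (70, 3), (42, 5), (30, 7)])], [(14813, 1058)], 1),
    (18493, false, 1, [], [], [], [(14813, 1058)], 0),
    (18503, false, 1, [], [11], [(257, [(128, 2), (64, 2), (32, 2), (16, 2), (8, 2), (4, 2), (2, 2), (1, 2)]), (353, [(176, 2), (88, 2), (44, 2), (22, 2), (11, 2), (32, 11)])], [(6073, 66)], 1),
    (18539, false, 1, [], [], [], [(12697, 6348)], 0),
    (19183, false, 1, [], [], [(109, [(54, 2), (27, 2), (36, 3), (12, 3), (4, 3)]), (271, [(135, 2), (90, 3), (30, 3), (10, 3), (54, 5)]), (541, [(270, 2), (135, 2), (180, 3), (60, 3), (20, 3), (108, 5)]), (577, [(288, 2), (144, 2), (72, 2), (36, 2), (18, 2), (9, 2), (192, 3), (64, 3)]), (757, [(378, 2), (189, 2), (252, 3), (84, 3), (28, 3), (108, 7)]), (937, [(468, 2), (234, 2), (117, 2), (312, 3), (104, 3), (72, 13)])], [(14813, 1058)], 2),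
    (19597, false, 1, [], [], [], [(12697, 6348)], 0),
    (19919, false, 1, [], [23], [(5, [(2, 2), (1, 2)]), (53, [(26, 2), (13, 2), (4, 13)]), (461, [(230, 2), (115, 2), (92, 5), (20, 23)]), (521, [(260, 2), (130, 2), (65, 2), (104, 5), (40, 13)]), (911, [(455, 2), (182, 5), (130, 7), (70, 13)]), (941, [(470, 2), (235, 2), (188, 5), (20, 47)])], [(14813, 1058)], 1),
    (20011, false, 1, [], [5], [(211, [(105, 2), (70, 3), (42, 5), (30, 7)])], [(14813, 1058)], 1),
    (20149, false, 1, [], [], [(5, [(2, 2), (1, 2)]), (31, [(15, 2), (10, 3), (6, 5)]), (941, [(470, 2), (235, 2), (188, 5), (20, 47)])], [(12697, 6348)], 1),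
    (20287, false, 1, [], [7], [(197, [(98, 2), (49, 2), (28, 7), (4, 7)])], [(14813, 1058)], 1),
    (20333, false, 1, [], [], [], [(14813, 1058)], 0),
    (20563, false, 1, [], [], [], [(14813, 1058)], 0),
    (20747, false, 1, [], [], [], [(14813, 1058)], 0),
    (21023, false, 1, [], [], [(73, [(36, 2), (18, 2), (9, 2), (24, 3), (8, 3)]), (1117, [(558, 2), (279, 2), (372, 3), (124, 3), (36, 31)])], [(12697, 6348)], 1),
    (21107, false, 1, [(2, 11)], [], [(79, [(39, 2), (26, 3), (6, 13)]), (1759, [(879, 2), (586, 3), (6, 293)])], [(599, 598)], 2),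
    (21391, false, 1, [], [5], [(211, [(105, 2), (70, 3), (42, 5), (30, 7)]), (281, [(140, 2), (70, 2), (35, 2), (56, 5), (40, 7)]), (941, [(470, 2), (235, 2), (188, 5), (20, 47)])], [(14813, 1058)], 1),
    (21529, false, 1, [], [3], [(19, [(9, 2), (6, 3), (2, 3)]), (379, [(189, 2), (126, 3), (42, 3), (14, 3), (54, 7)]), (883, [(441, 2), (294, 3), (98, 3), (126, 7), (18, 7)])], [(14813, 1058)], 2),
    (21713, false, 1, [], [], [], [(12697, 6348)], 0),
    (21851, false, 1, [], [5], [(211, [(105, 2), (70, 3), (42, 5), (30, 7)])], [(14813, 1058)], 1),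
    (21943, false, 1, [], [3], [(31, [(15, 2), (10, 3), (6, 5)]), (41, [(20, 2), (10, 2), (5, 2), (8, 5)]), (79, [(39, 2), (26, 3), (6, 13)]), (131, [(65, 2), (26, 5), (10, 13)]), (409, [(204, 2), (102, 2), (51, 2), (136, 3), (24, 17)]), (443, [(221, 2), (34, 13), (26, 17)])], [(17987, 17986)], 2)] 2500 17501 = true := by
  decide +kernel

theorem ck23_22501 : chunk WW (search 1 ef23 fqT GT FN23 4 23) 23
    [(22541, false, 1, [], [7], [(29, [(14, 2), (7, 2), (4, 7)])], [(14813, 1058)], 1),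
    (22679, false, 1, [], [17], [(61, [(30, 2), (15, 2), (20, 3), (12, 5)]), (103, [(51, 2), (34, 3), (6, 17)]), (211, [(105, 2), (70, 3), (42, 5), (30, 7)])], [(14813, 1058)], 2),
    (22817, false, 1, [], [23], [(97, [(48, 2), (24, 2), (12, 2), (6, 2), (3, 2), (32, 3)]), (193, [(96, 2), (48, 2), (24, 2), (12, 2), (6, 2), (3, 2), (64, 3)]), (461, [(230, 2), (115, 2), (92, 5), (20, 23)])], [(12697, 6348)], 2),
    (23327, true, 1, [(218, 107), (214, 109)], [], [], [(559849, 93308)], 0),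
    (23369, false, 1, [], [2], [(53, [(26, 2), (13, 2), (4, 13)]), (131, [(65, 2), (26, 5), (10, 13)]), (211, [(105, 2), (70, 3), (42, 5), (30, 7)])], [(14813, 1058)], 1),
    (23599, false, 1, [], [3], [(37, [(18, 2), (9, 2), (12, 3), (4, 3)]), (73, [(36, 2), (18, 2), (9, 2), (24, 3), (8, 3)]), (163, [(81, 2), (54, 3), (18, 3), (6, 3), (2, 3)])], [(12697, 6348)], 2),
    (24151, false, 1, [], [], [], [(12697, 6348)], 0),
    (24197, false, 1, [], [23], [(53, [(26, 2), (13, 2), (4, 13)]), (109, [(54, 2), (27, 2), (36, 3), (12, 3), (4, 3)]), (277, [(138, 2), (69, 2), (92, 3), (12, 23)]), (547, [(273, 2), (182, 3), (78, 7), (42, 13)]), (709, [(354, 2), (177, 2), (236, 3), (12, 59)]), (827, [(413, 2), (118, 7), (14, 59)])], [(14813, 1058)], 2),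
    (24473, false, 1, [], [7], [(71, [(35, 2), (14, 5), (10, 7)])], [(14813, 1058)], 1),
    (24611, false, 1, [], [], [], [(14813, 1058)], 0),
    (24749, false, 1, [], [], [], [(17987, 17986)], 0),
    (24841, false, 1, [], [], [], [(12697, 6348)], 0),
    (24979, false, 1, [], [3], [(13, [(6, 2), (3, 2), (4, 3)]), (53, [(26, 2), (13, 2), (4, 13)]), (229, [(114, 2), (57, 2), (76, 3), (12, 19)]), (521, [(260, 2), (130, 2), (65, 2), (104, 5), (40, 13)]), (937, [(468, 2), (234, 2), (117, 2), (312, 3), (104, 3), (72, 13)])], [(12697, 6348)], 2),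
    (25117, false, 1, [], [3, 7], [(43, [(21, 2), (14, 3), (6, 7)])], [(14813, 1058)], 1),
    (25163, false, 1, [], [23], [(1289, [(644, 2), (322, 2), (161, 2), (184, 7), (56, 23)])], [(14813, 1058)], 1),
    (25301, false, 1, [], [5, 11], [(101, [(50, 2), (25, 2), (20, 5), (4, 5)]), (151, [(75, 2), (50, 3), (30, 5), (6, 5)]), (331, [(165, 2), (110, 3), (66, 5), (30, 11)]), (397, [(198, 2), (99, 2), (132, 3), (44, 3), (36, 11)]), (1117, [(558, 2), (279, 2), (372, 3), (124, 3), (36, 31)])], [(12697, 6348)], 1),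
    (25439, false, 1, [], [7], [(71, [(35, 2), (14, 5), (10, 7)]), (617, [(308, 2), (154, 2), (77, 2), (88, 7), (56, 11)]), (911, [(455, 2), (182, 5), (130, 7), (70, 13)]), (941, [(470, 2), (235, 2), (188, 5), (20, 47)])], [(14813, 1058)], 1),
    (25577, false, 1, [], [2], [(53, [(26, 2), (13, 2), (4, 13)]), (73, [(36, 2), (18, 2), (9, 2), (24, 3), (8, 3)]), (163, [(81, 2), (54, 3), (18, 3), (6, 3), (2, 3)])], [(12697, 6348)], 1),
    (26083, false, 1, [], [7], [(673, [(336, 2), (168, 2), (84, 2), (42, 2), (21, 2), (224, 3), (96, 7)])], [(14813, 1058)], 1),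
    (26267, false, 1, [], [23], [(461, [(230, 2), (115, 2), (92, 5), (20, 23)])], [(14813, 1058)], 1),
    (26497, false, 1, [], [3, 23], [(271, [(135, 2), (90, 3), (30, 3), (10, 3), (54, 5)])], [(12697, 6348)], 1),
    (26681, false, 1, [], [5], [(211, [(105, 2), (70, 3), (42, 5), (30, 7)])], [(12697, 6348)], 1)] 2500 22501 = true := by
  decide +kernel

theorem ck23_27501 : chunk WW (search 1 ef23 fqT GT FN23 4 23) 23
    [(27509, false, 1, [], [], [(131, [(65, 2), (26, 5), (10, 13)]), (211, [(105, 2), (70, 3), (42, 5), (30, 7)])], [(14813, 1058)], 1),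
    (27647, false, 1, [], [23], [(1289, [(644, 2), (322, 2), (161, 2), (184, 7), (56, 23)])], [(14813, 1058)], 1),
    (27739, false, 1, [], [], [(19, [(9, 2), (6, 3), (2, 3)]), (1117, [(558, 2), (279, 2), (372, 3), (124, 3), (36, 31)])], [(14813, 1058)], 1),
    (28429, false, 1, [], [], [(157, [(78, 2), (39, 2), (52, 3), (12, 13)]), (277, [(138, 2), (69, 2), (92, 3), (12, 23)]), (691, [(345, 2), (230, 3), (138, 5), (30, 23)]), (859, [(429, 2), (286, 3), (78, 11), (66, 13)]), (911, [(455, 2), (182, 5), (130, 7), (70, 13)]), (991, [(495, 2), (330, 3), (110, 3), (198, 5), (90, 11)]), (1117, [(558, 2), (279, 2), (372, 3), (124, 3), (36, 31)])], [(14813, 1058)], 3),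
    (28751, false, 1, [], [5], [(101, [(50, 2), (25, 2), (20, 5), (4, 5)]), (599, [(299, 2), (46, 13), (26, 23)]), (911, [(455, 2), (182, 5), (130, 7), (70, 13)])], [(14813, 1058)], 1),
    (28843, false, 1, [], [23], [], [(12697, 6348)], 0),
    (29027, false, 1, [], [23], [(139, [(69, 2), (46, 3), (6, 23)])], [(12697, 6348)], 1),
    (29303, false, 1, [], [7], [(673, [(336, 2), (168, 2), (84, 2), (42, 2), (21, 2), (224, 3), (96, 7)])], [(14813, 1058)], 1),
    (29671, false, 1, [], [5], [(211, [(105, 2), (70, 3), (42, 5), (30, 7)]), (673, [(336, 2), (168, 2), (84, 2), (42, 2), (21, 2), (224, 3), (96, 7)]), (1051, [(525, 2), (350, 3), (210, 5), (42, 5), (150, 7)])], [(14813, 1058)], 2),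
    (29717, false, 1, [], [17], [(239, [(119, 2), (34, 7), (14, 17)])], [(17987, 17986)], 1),
    (29947, false, 1, [], [23], [], [(17987, 17986)], 0),
    (30223, false, 1, [], [3], [(13, [(6, 2), (3, 2), (4, 3)])], [(12697, 6348)], 1),
    (30269, false, 1, [], [], [(937, [(468, 2), (234, 2), (117, 2), (312, 3), (104, 3), (72, 13)]), (1009, [(504, 2), (252, 2), (126, 2), (63, 2), (336, 3), (112, 3), (144, 7)])], [(12697, 6348)], 2),
    (30637, false, 1, [], [3, 23], [(181, [(90, 2), (45, 2), (60, 3), (20, 3), (36, 5)]), (211, [(105, 2), (70, 3), (42, 5), (30, 7)]), (277, [(138, 2), (69, 2), (92, 3), (12, 23)])], [(14813, 1058)], 2),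
    (31051, false, 1, [], [5], [(211, [(105, 2), (70, 3), (42, 5), (30, 7)])], [(14813, 1058)], 1),
    (31189, false, 1, [], [23], [(461, [(230, 2), (115, 2), (92, 5), (20, 23)])], [(14813, 1058)], 1),
    (31327, false, 1, [], [3], [(89, [(44, 2), (22, 2), (11, 2), (8, 11)]), (937, [(468, 2), (234, 2), (117, 2), (312, 3), (104, 3), (72, 13)])], [(12697, 6348)], 1),
    (31511, false, 1, [], [], [(101, [(50, 2), (25, 2), (20, 5), (4, 5)]), (211, [(105, 2), (70, 3), (42, 5), (30, 7)])], [(14813, 1058)], 1),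
    (31649, false, 1, [], [23], [(139, [(69, 2), (46, 3), (6, 23)])], [(12697, 6348)], 1),
    (31741, false, 1, [], [5], [(59, [(29, 2), (2, 29)]), (97, [(48, 2), (24, 2), (12, 2), (6, 2), (3, 2), (32, 3)]), (151, [(75, 2), (50, 3), (30, 5), (6, 5)]), (233, [(116, 2), (58, 2), (29, 2), (8, 29)])], [(12697, 6348)], 2),
    (32063, false, 1, [], [23], [(139, [(69, 2), (46, 3), (6, 23)])], [(12697, 6348)], 1)] 2500 27501 = true := by
  decide +kernel

theorem ck23_32501 : chunk WW (search 1 ef23 fqT GT FN23 4 23) 23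
    [(32569, false, 1, [], [2], [(53, [(26, 2), (13, 2), (4, 13)]), (137, [(68, 2), (34, 2), (17, 2), (8, 17)]), (239, [(119, 2), (34, 7), (14, 17)])], [(17987, 17986)], 1),
    (32707, false, 1, [], [3], [(103, [(51, 2), (34, 3), (6, 17)]), (109, [(54, 2), (27, 2), (36, 3), (12, 3), (4, 3)]), (163, [(81, 2), (54, 3), (18, 3), (6, 3), (2, 3)]), (409, [(204, 2), (102, 2), (51, 2), (136, 3), (24, 17)])], [(17987, 17986)], 2),
    (32983, false, 1, [], [], [(31, [(15, 2), (10, 3), (6, 5)]), (211, [(105, 2), (70, 3), (42, 5), (30, 7)])], [(14813, 1058)], 1),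
    (33029, false, 1, [], [23], [(1289, [(644, 2), (322, 2), (161, 2), (184, 7), (56, 23)])], [(14813, 1058)], 1),
    (33203, false, 1, [(2, 11)], [], [], [(9109, 2277)], 0),
    (33581, false, 1, [], [5], [(211, [(105, 2), (70, 3), (42, 5), (30, 7)])], [(14813, 1058)], 1),
    (33811, false, 1, [], [7], [(197, [(98, 2), (49, 2), (28, 7), (4, 7)])], [(14813, 1058)], 1),
    (33857, false, 1, [], [2], [(19, [(9, 2), (6, 3), (2, 3)]), (73, [(36, 2), (18, 2), (9, 2), (24, 3), (8, 3)])], [(12697, 6348)], 1),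
    (34501, false, 1, [], [5, 23], [(271, [(135, 2), (90, 3), (30, 3), (10, 3), (54, 5)]), (281, [(140, 2), (70, 2), (35, 2), (56, 5), (40, 7)]), (379, [(189, 2), (126, 3), (42, 3), (14, 3), (54, 7)]), (677, [(338, 2), (169, 2), (52, 13), (4, 13)]), (941, [(470, 2), (235, 2), (188, 5), (20, 47)]), (1013, [(506, 2), (253, 2), (92, 11), (44, 23)])], [(14813, 1058)], 3),
    (34961, false, 1, [], [2, 5], [(53, [(26, 2), (13, 2), (4, 13)]), (211, [(105, 2), (70, 3), (42, 5), (30, 7)])], [(14813, 1058)], 1),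
    (35053, false, 1, [], [3], [(17, [(8, 2), (4, 2), (2, 2), (1, 2)]), (53, [(26, 2), (13, 2), (4, 13)]), (443, [(221, 2), (34, 13), (26, 17)]), (613, [(306, 2), (153, 2), (204, 3), (68, 3), (36, 17)])], [(17987, 17986)], 1),
    (35099, false, 1, [], [7], [(71, [(35, 2), (14, 5), (10, 7)]), (241, [(120, 2), (60, 2), (30, 2), (15, 2), (80, 3), (48, 5)]), (281, [(140, 2), (70, 2), (35, 2), (56, 5), (40, 7)])], [(14813, 1058)], 1),
    (36341, false, 1, [], [], [], [(14813, 1058)], 0),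
    (36433, false, 1, [], [23], [], [(17987, 17986)], 0),
    (36467, false, 1, [(2, 11)], [], [(79, [(39, 2), (26, 3), (6, 13)]), (331, [(165, 2), (110, 3), (66, 5), (30, 11)])], [(5659, 1886)], 2),
    (36479, false, 1, [], [], [(47, [(23, 2), (2, 23)]), (137, [(68, 2), (34, 2), (17, 2), (8, 17)]), (239, [(119, 2), (34, 7), (14, 17)]), (461, [(230, 2), (115, 2), (92, 5), (20, 23)])], [(17987, 17986)], 2),
    (36571, false, 1, [], [5], [(211, [(105, 2), (70, 3), (42, 5), (30, 7)])], [(14813, 1058)], 1),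
    (36683, false, 1, [(2, 11)], [], [], [(16193, 4048)], 0),
    (36709, false, 1, [], [7], [(71, [(35, 2), (14, 5), (10, 7)])], [(14813, 1058)], 1),
    (36847, false, 1, [], [], [], [(17987, 17986)], 0),
    (37123, false, 1, [], [23], [(1289, [(644, 2), (322, 2), (161, 2), (184, 7), (56, 23)])], [(14813, 1058)], 1),
    (37181, false, 1, [], [11, 13], [(2003, [(1001, 2), (286, 7), (182, 11), (154, 13)])], [(1289, 23)], 1),
    (37307, false, 1, [], [23], [(1289, [(644, 2), (322, 2), (161, 2), (184, 7), (56, 23)])], [(14813, 1058)], 1)] 2500 32501 = true := by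
  decide +kernel

theorem ck23_37501 : chunk WW (search 1 ef23 fqT GT FN23 4 23) 23
    [(37537, false, 1, [], [17], [(239, [(119, 2), (34, 7), (14, 17)])], [(17987, 17986)], 1),
    (37813, false, 1, [], [23], [(73, [(36, 2), (18, 2), (9, 2), (24, 3), (8, 3)]), (353, [(176, 2), (88, 2), (44, 2), (22, 2), (11, 2), (32, 11)]), (379, [(189, 2), (126, 3), (42, 3), (14, 3), (54, 7)]), (397, [(198, 2), (99, 2), (132, 3), (44, 3), (36, 11)]), (461, [(230, 2), (115, 2), (92, 5), (20, 23)]), (541, [(270, 2), (135, 2), (180, 3), (60, 3), (20, 3), (108, 5)]), (701, [(350, 2), (175, 2), (140, 5), (28, 5), (100, 7)]), (811, [(405, 2), (270, 3), (90, 3), (30, 3), (10, 3), (162, 5)])], [(14813, 1058)], 4),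
    (37951, false, 1, [], [5], [(41, [(20, 2), (10, 2), (5, 2), (8, 5)])], [(14813, 1058)], 1),
    (37997, false, 1, [], [7], [(71, [(35, 2), (14, 5), (10, 7)])], [(14813, 1058)], 1),
    (38273, false, 1, [], [2, 13, 23], [(157, [(78, 2), (39, 2), (52, 3), (12, 13)]), (461, [(230, 2), (115, 2), (92, 5), (20, 23)]), (829, [(414, 2), (207, 2), (276, 3), (92, 3), (36, 23)]), (1153, [(576, 2), (288, 2), (144, 2), (72, 2), (36, 2), (18, 2), (9, 2), (384, 3), (128, 3)])], [(12697, 6348)], 1),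
    (38917, false, 1, [], [], [(29, [(14, 2), (7, 2), (4, 7)]), (71, [(35, 2), (14, 5), (10, 7)])], [(14813, 1058)], 1),
    (39239, false, 1, [], [23], [], [(12697, 6348)], 0),
    (39607, false, 1, [], [7], [(673, [(336, 2), (168, 2), (84, 2), (42, 2), (21, 2), (224, 3), (96, 7)])], [(14813, 1058)], 1),
    (39791, false, 1, [], [5], [(211, [(105, 2), (70, 3), (42, 5), (30, 7)])], [(14813, 1058)], 1),
    (39883, false, 1, [], [17], [(239, [(119, 2), (34, 7), (14, 17)])], [(17987, 17986)], 1),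
    (39929, false, 1, [], [7], [(673, [(336, 2), (168, 2), (84, 2), (42, 2), (21, 2), (224, 3), (96, 7)])], [(14813, 1058)], 1)] 1250 37501 = true := by
  decide +kernel

theorem ck29_1301 : chunk WW (search 1 ef29 fqT GT FN29 4 29) 29
    [(1451, true, 1, [(290, 5), (58, 5), (50, 29)], [], [], [(26119, 26118)], 0),
    (1567, true, 1, [(522, 3), (174, 3), (58, 3), (54, 29)], [], [], [(9403, 9402)], 0),
    (1741, false, 1, [], [5], [(401, [(200, 2), (100, 2), (50, 2), (25, 2), (80, 5), (16, 5)])], [(13457, 841)], 1),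
    (1831, true, 1, [(30, 61)], [], [], [(29297, 1831)], 0),
    (1973, false, 1, [], [], [(271, [(135, 2), (90, 3), (30, 3), (10, 3), (54, 5)]), (349, [(174, 2), (87, 2), (116, 3), (12, 29)]), (433, [(216, 2), (108, 2), (54, 2), (27, 2), (144, 3), (48, 3), (16, 3)]), (487, [(243, 2), (162, 3), (54, 3), (18, 3), (6, 3), (2, 3)]), (577, [(288, 2), (144, 2), (72, 2), (36, 2), (18, 2), (9, 2), (192, 3), (64, 3)])], [(10093, 5046)], 3),
    (2089, false, 1, [], [], [], [(13457, 841)], 0),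
    (2437, false, 1, [], [], [], [(10093, 5046)], 0),
    (2477, false, 1, [(7, 2)], [2], [(421, [(210, 2), (105, 2), (140, 3), (84, 5), (60, 7)])], [(6091, 3045)], 1),
    (2789, false, 1, [(4, 7)], [], [], [(10789, 1798)], 0),
    (2843, false, 1, [], [], [(79, [(39, 2), (26, 3), (6, 13)]), (271, [(135, 2), (90, 3), (30, 3), (10, 3), (54, 5)])], [(10093, 5046)], 1),
    (3191, false, 1, [], [5], [(59, [(29, 2), (2, 29)]), (401, [(200, 2), (100, 2), (50, 2), (25, 2), (80, 5), (16, 5)])], [(13457, 841)], 1),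
    (3307, false, 1, [], [], [], [(10093, 5046)], 0),
    (3539, false, 1, [], [], [(59, [(29, 2), (2, 29)]), (233, [(116, 2), (58, 2), (29, 2), (8, 29)])], [(13457, 841)], 1),
    (4003, false, 1, [], [], [], [(13457, 841)], 0),
    (4177, false, 1, [], [3], [(103, [(51, 2), (34, 3), (6, 17)]), (137, [(68, 2), (34, 2), (17, 2), (8, 17)]), (271, [(135, 2), (90, 3), (30, 3), (10, 3), (54, 5)]), (433, [(216, 2), (108, 2), (54, 2), (27, 2), (144, 3), (48, 3), (16, 3)])], [(10093, 5046)], 2),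
    (4409, false, 1, [], [], [], [(10093, 5046)], 0),
    (4583, false, 1, [], [], [(31, [(15, 2), (10, 3), (6, 5)]), (191, [(95, 2), (38, 5), (10, 19)])], [(10093, 5046)], 2),
    (4871, false, 29, [], [], [], [(23549, 5887)], 0),
    (4931, false, 1, [], [5], [(401, [(200, 2), (100, 2), (50, 2), (25, 2), (80, 5), (16, 5)])], [(13457, 841)], 1),
    (5279, false, 1, [], [], [(59, [(29, 2), (2, 29)])], [(10093, 5046)], 1),
    (5569, false, 1, [], [2], [(421, [(210, 2), (105, 2), (140, 3), (84, 5), (60, 7)])], [(10093, 5046)], 1),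
    (5743, false, 1, [], [3], [(59, [(29, 2), (2, 29)]), (233, [(116, 2), (58, 2), (29, 2), (8, 29)]), (271, [(135, 2), (90, 3), (30, 3), (10, 3), (54, 5)])], [(10093, 5046)], 1),
    (5801, false, 1, [], [5], [(401, [(200, 2), (100, 2), (50, 2), (25, 2), (80, 5), (16, 5)])], [(13457, 841)], 1),
    (6089, false, 1, [], [2], [(421, [(210, 2), (105, 2), (140, 3), (84, 5), (60, 7)])], [(7309, 1218)], 1),
    (6091, false, 1, [], [3], [(271, [(135, 2), (90, 3), (30, 3), (10, 3), (54, 5)])], [(10093, 5046)], 1)] 2500 1301 = true := by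
  decide +kernel

theorem ck29_6301 : chunk WW (search 1 ef29 fqT GT FN29 4 29) 29
    [(6323, false, 1, [], [], [(31, [(15, 2), (10, 3), (6, 5)]), (401, [(200, 2), (100, 2), (50, 2), (25, 2), (80, 5), (16, 5)]), (541, [(270, 2), (135, 2), (180, 3), (60, 3), (20, 3), (108, 5)]), (577, [(288, 2), (144, 2), (72, 2), (36, 2), (18, 2), (9, 2), (192, 3), (64, 3)])], [(10093, 5046)], 2),
    (6827, false, 1, [], [], [(421, [(210, 2), (105, 2), (140, 3), (84, 5), (60, 7)]), (569, [(284, 2), (142, 2), (71, 2), (8, 71)])], [(6091, 3045)], 2),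
    (6961, false, 1, [], [], [], [(10093, 5046)], 0),
    (7019, false, 1, [], [], [(13, [(6, 2), (3, 2), (4, 3)]), (67, [(33, 2), (22, 3), (6, 11)])], [(10093, 5046)], 1),
    (7193, false, 1, [], [], [], [(10093, 5046)], 0),
    (7309, false, 1, [], [3], [(73, [(36, 2), (18, 2), (9, 2), (24, 3), (8, 3)]), (271, [(135, 2), (90, 3), (30, 3), (10, 3), (54, 5)]), (313, [(156, 2), (78, 2), (39, 2), (104, 3), (24, 13)])], [(10093, 5046)], 2),
    (7541, false, 1, [], [5], [(401, [(200, 2), (100, 2), (50, 2), (25, 2), (80, 5), (16, 5)])], [(13457, 841)], 1),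
    (7649, false, 1, [(4, 7)], [], [(547, [(273, 2), (182, 3), (78, 7), (42, 13)])], [(6091, 3045)], 1),
    (8069, false, 1, [(4, 7)], [], [], [(11369, 812)], 0),
    (8179, false, 1, [], [], [], [(13457, 841)], 0),
    (8237, false, 1, [], [], [(13, [(6, 2), (3, 2), (4, 3)]), (59, [(29, 2), (2, 29)]), (233, [(116, 2), (58, 2), (29, 2), (8, 29)]), (271, [(135, 2), (90, 3), (30, 3), (10, 3), (54, 5)])], [(10093, 5046)], 2),
    (8353, false, 1, [], [], [], [(13457, 841)], 0),
    (8527, false, 1, [], [7], [(197, [(98, 2), (49, 2), (28, 7), (4, 7)])], [(13457, 841)], 1),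
    (8933, false, 1, [], [11], [(5, [(2, 2), (1, 2)]), (73, [(36, 2), (18, 2), (9, 2), (24, 3), (8, 3)]), (353, [(176, 2), (88, 2), (44, 2), (22, 2), (11, 2), (32, 11)])], [(13457, 841)], 1),
    (9049, false, 1, [], [2], [(421, [(210, 2), (105, 2), (140, 3), (84, 5), (60, 7)])], [(10093, 5046)], 1),
    (9281, false, 1, [], [], [(59, [(29, 2), (2, 29)]), (233, [(116, 2), (58, 2), (29, 2), (8, 29)])], [(13457, 841)], 1),
    (9397, false, 1, [], [3], [(13, [(6, 2), (3, 2), (4, 3)]), (59, [(29, 2), (2, 29)])], [(10093, 5046)], 1),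
    (9467, false, 1, [(4, 7)], [], [(197, [(98, 2), (49, 2), (28, 7), (4, 7)]), (491, [(245, 2), (98, 5), (70, 7), (10, 7)])], [(2843, 1421)], 2),
    (9587, false, 1, [(7, 2)], [], [(421, [(210, 2), (105, 2), (140, 3), (84, 5), (60, 7)]), (569, [(284, 2), (142, 2), (71, 2), (8, 71)])], [(7309, 1218)], 2),
    (9623, false, 1, [(4, 7)], [], [(5, [(2, 2), (1, 2)])], [(13109, 3277)], 1),
    (9629, false, 1, [], [], [(271, [(135, 2), (90, 3), (30, 3), (10, 3), (54, 5)]), (2089, [(1044, 2), (522, 2), (261, 2), (696, 3), (232, 3), (72, 29)])], [(15139, 2523)], 2),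
    (9719, false, 1, [(4, 7)], [], [(281, [(140, 2), (70, 2), (35, 2), (56, 5), (40, 7)])], [(2843, 1421)], 1),
    (9743, false, 1, [], [], [], [(231943, 38657)], 0),
    (9803, false, 1, [], [], [(43, [(21, 2), (14, 3), (6, 7)]), (271, [(135, 2), (90, 3), (30, 3), (10, 3), (54, 5)])], [(10093, 5046)], 1),
    (10039, false, 1, [(4, 7)], [], [], [(8179, 1363)], 0),
    (10093, false, 1, [], [], [(5, [(2, 2), (1, 2)])], [(13457, 841)], 1),
    (10151, false, 1, [], [5], [(31, [(15, 2), (10, 3), (6, 5)]), (61, [(30, 2), (15, 2), (20, 3), (12, 5)]), (313, [(156, 2), (78, 2), (39, 2), (104, 3), (24, 13)])], [(10093, 5046)], 1),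
    (10267, false, 1, [], [3], [(67, [(33, 2), (22, 3), (6, 11)]), (151, [(75, 2), (50, 3), (30, 5), (6, 5)]), (233, [(116, 2), (58, 2), (29, 2), (8, 29)]), (401, [(200, 2), (100, 2), (50, 2), (25, 2), (80, 5), (16, 5)])], [(10093, 5046)], 2),
    (10499, false, 1, [], [], [(59, [(29, 2), (2, 29)]), (233, [(116, 2), (58, 2), (29, 2), (8, 29)])], [(13457, 841)], 1),
    (10789, false, 1, [], [], [(13, [(6, 2), (3, 2), (4, 3)]), (67, [(33, 2), (22, 3), (6, 11)]), (271, [(135, 2), (90, 3), (30, 3), (10, 3), (54, 5)]), (331, [(165, 2), (110, 3), (66, 5), (30, 11)]), (401, [(200, 2), (100, 2), (50, 2), (25, 2), (80, 5), (16, 5)])], [(10093, 5046)], 1),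
    (10847, false, 1, [], [11], [(113, [(56, 2), (28, 2), (14, 2), (7, 2), (16, 7)]), (353, [(176, 2), (88, 2), (44, 2), (22, 2), (11, 2), (32, 11)])], [(13457, 841)], 1)] 2500 6301 = true := by
  decide +kernel

theorem ck29_11301 : chunk WW (search 1 ef29 fqT GT FN29 4 29) 29
    [(11311, false, 1, [], [], [], [(13457, 841)], 0),
    (11369, false, 1, [], [], [], [(13457, 841)], 0),
    (11633, false, 1, [(4, 7)], [], [], [(10151, 5075)], 0),
    (11717, false, 1, [], [], [(59, [(29, 2), (2, 29)]), (233, [(116, 2), (58, 2), (29, 2), (8, 29)])], [(13457, 841)], 1),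
    (11833, false, 1, [], [3], [(271, [(135, 2), (90, 3), (30, 3), (10, 3), (54, 5)]), (331, [(165, 2), (110, 3), (66, 5), (30, 11)]), (401, [(200, 2), (100, 2), (50, 2), (25, 2), (80, 5), (16, 5)])], [(10093, 5046)], 1),
    (12007, false, 1, [], [3], [(271, [(135, 2), (90, 3), (30, 3), (10, 3), (54, 5)])], [(10093, 5046)], 1),
    (12113, false, 1, [(4, 7)], [], [], [(10093, 5046)], 0),
    (12239, false, 1, [], [], [], [(10093, 5046)], 0),
    (12269, false, 1, [(7, 2), (4, 7)], [], [(271, [(135, 2), (90, 3), (30, 3), (10, 3), (54, 5)]), (409, [(204, 2), (102, 2), (51, 2), (136, 3), (24, 17)])], [(7309, 1218)], 2),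
    (12413, false, 1, [], [], [(5, [(2, 2), (1, 2)]), (409, [(204, 2), (102, 2), (51, 2), (136, 3), (24, 17)]), (421, [(210, 2), (105, 2), (140, 3), (84, 5), (60, 7)])], [(10093, 5046)], 1),
    (12703, false, 1, [], [], [], [(10093, 5046)], 0),
    (13009, false, 1, [], [2], [(421, [(210, 2), (105, 2), (140, 3), (84, 5), (60, 7)])], [(5801, 580)], 1),
    (13109, false, 1, [], [], [(19, [(9, 2), (6, 3), (2, 3)]), (271, [(135, 2), (90, 3), (30, 3), (10, 3), (54, 5)])], [(10093, 5046)], 1),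
    (13399, false, 1, [], [3], [(181, [(90, 2), (45, 2), (60, 3), (20, 3), (36, 5)]), (271, [(135, 2), (90, 3), (30, 3), (10, 3), (54, 5)]), (401, [(200, 2), (100, 2), (50, 2), (25, 2), (80, 5), (16, 5)])], [(13457, 841)], 2),
    (13457, false, 1, [], [], [(59, [(29, 2), (2, 29)]), (233, [(116, 2), (58, 2), (29, 2), (8, 29)]), (421, [(210, 2), (105, 2), (140, 3), (84, 5), (60, 7)]), (577, [(288, 2), (144, 2), (72, 2), (36, 2), (18, 2), (9, 2), (192, 3), (64, 3)])], [(10093, 5046)], 2),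
    (13921, false, 1, [], [], [], [(13457, 841)], 0),
    (14153, false, 1, [], [], [], [(10093, 5046)], 0),
    (14327, false, 1, [], [], [(59, [(29, 2), (2, 29)]), (233, [(116, 2), (58, 2), (29, 2), (8, 29)])], [(13457, 841)], 1),
    (14557, false, 1, [], [], [(251, [(125, 2), (50, 5), (10, 5), (2, 5)]), (401, [(200, 2), (100, 2), (50, 2), (25, 2), (80, 5), (16, 5)])], [(3191, 1595)], 1),
    (14741, false, 1, [(4, 7)], [], [(43, [(21, 2), (14, 3), (6, 7)]), (271, [(135, 2), (90, 3), (30, 3), (10, 3), (54, 5)])], [(6091, 3045)], 1),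
    (15139, false, 1, [], [3], [(271, [(135, 2), (90, 3), (30, 3), (10, 3), (54, 5)]), (313, [(156, 2), (78, 2), (39, 2), (104, 3), (24, 13)]), (433, [(216, 2), (108, 2), (54, 2), (27, 2), (144, 3), (48, 3), (16, 3)])], [(10093, 5046)], 2),
    (15313, false, 1, [], [2, 11], [(353, [(176, 2), (88, 2), (44, 2), (22, 2), (11, 2), (32, 11)])], [(13457, 841)], 1),
    (15661, false, 1, [], [], [], [(10093, 5046)], 0),
    (16067, false, 1, [], [], [(103, [(51, 2), (34, 3), (6, 17)]), (271, [(135, 2), (90, 3), (30, 3), (10, 3), (54, 5)])], [(10093, 5046)], 1),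
    (16183, false, 1, [], [], [(59, [(29, 2), (2, 29)]), (233, [(116, 2), (58, 2), (29, 2), (8, 29)]), (421, [(210, 2), (105, 2), (140, 3), (84, 5), (60, 7)]), (461, [(230, 2), (115, 2), (92, 5), (20, 23)])], [(10093, 5046)], 2)] 2500 11301 = true := by
  decide +kernel

end Pool.Agent.NearSuper255
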