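import Pool.Agent.NearSuper255.TabX

/-!
# Ranges of excluded pairs, second part, file 5
-/

namespace Pool.Agent.NearSuper255

theorem ck29_16301 : chunk WW (search 1 ef29 fqT GT FN29 4 29) 29
    [(16763, false, 1, [], [], [(11, [(5, 2), (2, 5)]), (401, [(200, 2), (100, 2), (50, 2), (25, 2), (80, 5), (16, 5)])], [(13457, 841)], 1),
    (16879, false, 1, [], [3], [], [(10093, 5046)], 0),
    (16937, false, 1, [], [], [], [(13457, 841)], 0),
    (17053, false, 1, [], [7], [(197, [(98, 2), (49, 2), (28, 7), (4, 7)]), (229, [(114, 2), (57, 2), (76, 3), (12, 19)]), (457, [(228, 2), (114, 2), (57, 2), (152, 3), (24, 19)])], [(10093, 5046)], 1),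
    (17401, false, 1, [], [3], [(113, [(56, 2), (28, 2), (14, 2), (7, 2), (16, 7)]), (313, [(156, 2), (78, 2), (39, 2), (104, 3), (24, 13)])], [(10093, 5046)], 1),
    (17749, false, 1, [], [], [], [(10093, 5046)], 0),
    (17807, false, 1, [], [], [(53, [(26, 2), (13, 2), (4, 13)]), (401, [(200, 2), (100, 2), (50, 2), (25, 2), (80, 5), (16, 5)]), (521, [(260, 2), (130, 2), (65, 2), (104, 5), (40, 13)]), (541, [(270, 2), (135, 2), (180, 3), (60, 3), (20, 3), (108, 5)])], [(13457, 841)], 2),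
    (17923, false, 1, [], [3], [(271, [(135, 2), (90, 3), (30, 3), (10, 3), (54, 5)])], [(10093, 5046)], 1),
    (17981, false, 1, [], [], [(59, [(29, 2), (2, 29)]), (233, [(116, 2), (58, 2), (29, 2), (8, 29)])], [(13457, 841)], 1),
    (18097, false, 1, [], [2, 3], [(61, [(30, 2), (15, 2), (20, 3), (12, 5)]), (151, [(75, 2), (50, 3), (30, 5), (6, 5)]), (271, [(135, 2), (90, 3), (30, 3), (10, 3), (54, 5)]), (401, [(200, 2), (100, 2), (50, 2), (25, 2), (80, 5), (16, 5)])], [(13457, 841)], 2),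
    (18329, false, 1, [], [], [], [(13457, 841)], 0),
    (18503, false, 1, [], [], [], [(10093, 5046)], 0),
    (18793, false, 1, [], [], [], [(13457, 841)], 0),
    (18917, false, 1, [], [], [(5, [(2, 2), (1, 2)]), (17, [(8, 2), (4, 2), (2, 2), (1, 2)]), (421, [(210, 2), (105, 2), (140, 3), (84, 5), (60, 7)])], [(6091, 3045)], 1),
    (19141, false, 1, [], [], [], [(10093, 5046)], 0),
    (19373, false, 1, [], [], [(233, [(116, 2), (58, 2), (29, 2), (8, 29)]), (349, [(174, 2), (87, 2), (116, 3), (12, 29)])], [(13457, 841)], 2),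
    (19489, false, 1, [], [3], [(271, [(135, 2), (90, 3), (30, 3), (10, 3), (54, 5)])], [(10093, 5046)], 1),
    (20011, false, 1, [], [3, 5], [(271, [(135, 2), (90, 3), (30, 3), (10, 3), (54, 5)]), (281, [(140, 2), (70, 2), (35, 2), (56, 5), (40, 7)]), (337, [(168, 2), (84, 2), (42, 2), (21, 2), (112, 3), (48, 7)])], [(10093, 5046)], 2),
    (20359, false, 1, [], [13], [(521, [(260, 2), (130, 2), (65, 2), (104, 5), (40, 13)])], [(13457, 841)], 1),
    (20533, false, 1, [], [3], [(271, [(135, 2), (90, 3), (30, 3), (10, 3), (54, 5)])], [(10093, 5046)], 1),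
    (20707, false, 1, [], [], [(5, [(2, 2), (1, 2)]), (59, [(29, 2), (2, 29)]), (397, [(198, 2), (99, 2), (132, 3), (44, 3), (36, 11)]), (523, [(261, 2), (174, 3), (58, 3), (18, 29)])], [(10093, 5046)], 1),
    (20939, false, 1, [], [19], [(349, [(174, 2), (87, 2), (116, 3), (12, 29)]), (457, [(228, 2), (114, 2), (57, 2), (152, 3), (24, 19)]), (571, [(285, 2), (190, 3), (114, 5), (30, 19)])], [(10093, 5046)], 1)] 2500 16301 = true := by
  decide +kernel

theorem ck29_21301 : chunk WW (search 1 ef29 fqT GT FN29 4 29) 29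
    [(21577, false, 1, [], [], [(5, [(2, 2), (1, 2)]), (37, [(18, 2), (9, 2), (12, 3), (4, 3)]), (313, [(156, 2), (78, 2), (39, 2), (104, 3), (24, 13)])], [(10093, 5046)], 1),
    (21751, false, 1, [], [5], [(401, [(200, 2), (100, 2), (50, 2), (25, 2), (80, 5), (16, 5)])], [(13457, 841)], 1),
    (22157, false, 1, [], [], [(59, [(29, 2), (2, 29)])], [(10093, 5046)], 1),
    (22271, false, 1, [], [], [], [(8933, 2233)], 0),
    (22273, false, 1, [], [], [], [(13457, 841)], 0),
    (22447, false, 1, [], [], [(61, [(30, 2), (15, 2), (20, 3), (12, 5)]), (421, [(210, 2), (105, 2), (140, 3), (84, 5), (60, 7)])], [(10093, 5046)], 1),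
    (22621, false, 1, [], [5], [(401, [(200, 2), (100, 2), (50, 2), (25, 2), (80, 5), (16, 5)])], [(13457, 841)], 1),
    (22679, false, 1, [], [], [(59, [(29, 2), (2, 29)]), (233, [(116, 2), (58, 2), (29, 2), (8, 29)]), (271, [(135, 2), (90, 3), (30, 3), (10, 3), (54, 5)]), (349, [(174, 2), (87, 2), (116, 3), (12, 29)])], [(10093, 5046)], 2),
    (22853, false, 1, [], [], [(59, [(29, 2), (2, 29)])], [(13457, 841)], 1),
    (23027, false, 1, [], [], [(101, [(50, 2), (25, 2), (20, 5), (4, 5)]), (401, [(200, 2), (100, 2), (50, 2), (25, 2), (80, 5), (16, 5)])], [(13457, 841)], 1),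
    (23143, false, 1, [], [3], [(61, [(30, 2), (15, 2), (20, 3), (12, 5)]), (101, [(50, 2), (25, 2), (20, 5), (4, 5)]), (271, [(135, 2), (90, 3), (30, 3), (10, 3), (54, 5)])], [(10093, 5046)], 3),
    (23201, false, 1, [], [2], [(421, [(210, 2), (105, 2), (140, 3), (84, 5), (60, 7)]), (463, [(231, 2), (154, 3), (66, 7), (42, 11)])], [(10093, 5046)], 1),
    (23549, false, 1, [], [], [], [(10093, 5046)], 0),
    (23831, false, 1, [(4, 7)], [], [(331, [(165, 2), (110, 3), (66, 5), (30, 11)]), (401, [(200, 2), (100, 2), (50, 2), (25, 2), (80, 5), (16, 5)])], [(10151, 5075)], 1),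
    (23909, false, 1, [], [], [(421, [(210, 2), (105, 2), (140, 3), (84, 5), (60, 7)]), (797, [(398, 2), (199, 2), (4, 199)])], [(21751, 10875)], 2),
    (24061, false, 1, [(4, 7)], [], [(379, [(189, 2), (126, 3), (42, 3), (14, 3), (54, 7)])], [(523, 261)], 1),
    (24071, false, 1, [], [5], [(401, [(200, 2), (100, 2), (50, 2), (25, 2), (80, 5), (16, 5)])], [(13457, 841)], 1),
    (24137, false, 1, [(4, 7)], [], [], [(8527, 4263)], 0),
    (24359, false, 1, [], [], [], [(9049, 1508)], 0),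
    (24419, false, 1, [], [], [(37, [(18, 2), (9, 2), (12, 3), (4, 3)]), (313, [(156, 2), (78, 2), (39, 2), (104, 3), (24, 13)])], [(13457, 841)], 1),
    (24593, false, 1, [], [], [(5, [(2, 2), (1, 2)])], [(10093, 5046)], 1),
    (24709, false, 1, [], [], [(353, [(176, 2), (88, 2), (44, 2), (22, 2), (11, 2), (32, 11)]), (401, [(200, 2), (100, 2), (50, 2), (25, 2), (80, 5), (16, 5)]), (421, [(210, 2), (105, 2), (140, 3), (84, 5), (60, 7)]), (491, [(245, 2), (98, 5), (70, 7), (10, 7)])], [(13457, 841)], 2),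
    (24767, false, 1, [], [], [(43, [(21, 2), (14, 3), (6, 7)]), (67, [(33, 2), (22, 3), (6, 11)]), (89, [(44, 2), (22, 2), (11, 2), (8, 11)]), (353, [(176, 2), (88, 2), (44, 2), (22, 2), (11, 2), (32, 11)])], [(13457, 841)], 1),
    (25057, false, 1, [], [2, 3], [(313, [(156, 2), (78, 2), (39, 2), (104, 3), (24, 13)])], [(13457, 841)], 1),
    (25463, false, 1, [], [], [(5, [(2, 2), (1, 2)]), (53, [(26, 2), (13, 2), (4, 13)]), (521, [(260, 2), (130, 2), (65, 2), (104, 5), (40, 13)])], [(13457, 841)], 1),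
    (25579, false, 1, [], [3, 7], [(197, [(98, 2), (49, 2), (28, 7), (4, 7)])], [(10093, 5046)], 1)] 2500 21301 = true := by
  decide +kernel

theorem ck29_26301 : chunk WW (search 1 ef29 fqT GT FN29 4 29) 29
    [(26449, false, 1, [], [3], [(211, [(105, 2), (70, 3), (42, 5), (30, 7)]), (271, [(135, 2), (90, 3), (30, 3), (10, 3), (54, 5)]), (401, [(200, 2), (100, 2), (50, 2), (25, 2), (80, 5), (16, 5)])], [(13457, 841)], 2),
    (26681, false, 1, [], [], [], [(10093, 5046)], 0),
    (27551, false, 1, [], [], [(41, [(20, 2), (10, 2), (5, 2), (8, 5)]), (421, [(210, 2), (105, 2), (140, 3), (84, 5), (60, 7)])], [(10093, 5046)], 1),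
    (28097, false, 1, [(4, 7)], [], [], [(13109, 3277)], 0),
    (28409, false, 1, [(7, 2), (4, 7)], [], [], [(7309, 1218)], 0),
    (28537, false, 1, [], [2], [(421, [(210, 2), (105, 2), (140, 3), (84, 5), (60, 7)])], [(13457, 841)], 1),
    (28711, false, 1, [], [3], [(211, [(105, 2), (70, 3), (42, 5), (30, 7)]), (271, [(135, 2), (90, 3), (30, 3), (10, 3), (54, 5)]), (401, [(200, 2), (100, 2), (50, 2), (25, 2), (80, 5), (16, 5)])], [(13457, 841)], 2),
    (28793, false, 1, [], [2], [(421, [(210, 2), (105, 2), (140, 3), (84, 5), (60, 7)])], [(10151, 5075)], 1),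
    (29059, false, 1, [], [3], [(271, [(135, 2), (90, 3), (30, 3), (10, 3), (54, 5)])], [(10093, 5046)], 1),
    (29423, false, 1, [(7, 2)], [], [(17, [(8, 2), (4, 2), (2, 2), (1, 2)]), (421, [(210, 2), (105, 2), (140, 3), (84, 5), (60, 7)]), (541, [(270, 2), (135, 2), (180, 3), (60, 3), (20, 3), (108, 5)])], [(2437, 609)], 1),
    (29581, false, 1, [], [], [(59, [(29, 2), (2, 29)]), (233, [(116, 2), (58, 2), (29, 2), (8, 29)])], [(13457, 841)], 1),
    (30047, false, 1, [(7, 2), (4, 7)], [], [], [(8179, 1363)], 0),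
    (30103, false, 1, [], [], [(71, [(35, 2), (14, 5), (10, 7)]), (73, [(36, 2), (18, 2), (9, 2), (24, 3), (8, 3)]), (271, [(135, 2), (90, 3), (30, 3), (10, 3), (54, 5)]), (401, [(200, 2), (100, 2), (50, 2), (25, 2), (80, 5), (16, 5)])], [(10093, 5046)], 2),
    (30161, false, 1, [], [5], [(181, [(90, 2), (45, 2), (60, 3), (20, 3), (36, 5)]), (457, [(228, 2), (114, 2), (57, 2), (152, 3), (24, 19)])], [(10093, 5046)], 2),
    (30509, false, 1, [], [], [(113, [(56, 2), (28, 2), (14, 2), (7, 2), (16, 7)]), (421, [(210, 2), (105, 2), (140, 3), (84, 5), (60, 7)]), (433, [(216, 2), (108, 2), (54, 2), (27, 2), (144, 3), (48, 3), (16, 3)])], [(10093, 5046)], 1),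
    (31147, false, 1, [], [3], [(67, [(33, 2), (22, 3), (6, 11)]), (271, [(135, 2), (90, 3), (30, 3), (10, 3), (54, 5)]), (331, [(165, 2), (110, 3), (66, 5), (30, 11)]), (401, [(200, 2), (100, 2), (50, 2), (25, 2), (80, 5), (16, 5)])], [(13457, 841)], 1)] 2500 26301 = true := by
  decide +kernel

theorem ck29_31301 : chunk WW (search 1 ef29 fqT GT FN29 4 29) 29
    [(31319, false, 1, [], [], [], [(233509, 116754)], 0),
    (31321, false, 1, [], [3, 5], [(281, [(140, 2), (70, 2), (35, 2), (56, 5), (40, 7)]), (379, [(189, 2), (126, 3), (42, 3), (14, 3), (54, 7)]), (401, [(200, 2), (100, 2), (50, 2), (25, 2), (80, 5), (16, 5)])], [(10093, 5046)], 2),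
    (31379, false, 1, [], [], [(19, [(9, 2), (6, 3), (2, 3)]), (37, [(18, 2), (9, 2), (12, 3), (4, 3)]), (131, [(65, 2), (26, 5), (10, 13)]), (401, [(200, 2), (100, 2), (50, 2), (25, 2), (80, 5), (16, 5)]), (421, [(210, 2), (105, 2), (140, 3), (84, 5), (60, 7)]), (523, [(261, 2), (174, 3), (58, 3), (18, 29)])], [(13457, 841)], 3),
    (31727, false, 1, [], [], [(59, [(29, 2), (2, 29)]), (233, [(116, 2), (58, 2), (29, 2), (8, 29)])], [(13457, 841)], 1),
    (32191, false, 1, [], [5], [(59, [(29, 2), (2, 29)]), (401, [(200, 2), (100, 2), (50, 2), (25, 2), (80, 5), (16, 5)])], [(10093, 5046)], 1),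
    (32423, false, 1, [], [], [], [(13457, 841)], 0),
    (32429, false, 1, [(4, 7)], [], [(967, [(483, 2), (322, 3), (138, 7), (42, 23)]), (1289, [(644, 2), (322, 2), (161, 2), (184, 7), (56, 23)])], [(17749, 4437)], 2),
    (32713, false, 1, [], [], [], [(13457, 841)], 0),
    (32771, false, 1, [], [5], [(401, [(200, 2), (100, 2), (50, 2), (25, 2), (80, 5), (16, 5)])], [(13457, 841)], 1),
    (32887, false, 1, [], [3], [(487, [(243, 2), (162, 3), (54, 3), (18, 3), (6, 3), (2, 3)])], [(10093, 5046)], 1),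
    (33119, false, 1, [], [], [(233, [(116, 2), (58, 2), (29, 2), (8, 29)]), (349, [(174, 2), (87, 2), (116, 3), (12, 29)])], [(13457, 841)], 2),
    (33409, false, 1, [], [2, 3], [(313, [(156, 2), (78, 2), (39, 2), (104, 3), (24, 13)])], [(13457, 841)], 1),
    (33641, false, 1, [], [2], [(233, [(116, 2), (58, 2), (29, 2), (8, 29)]), (421, [(210, 2), (105, 2), (140, 3), (84, 5), (60, 7)])], [(10093, 5046)], 2),
    (33757, false, 1, [], [], [(5, [(2, 2), (1, 2)])], [(10093, 5046)], 1),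
    (33931, false, 1, [], [5], [(401, [(200, 2), (100, 2), (50, 2), (25, 2), (80, 5), (16, 5)])], [(13457, 841)], 1),
    (34337, false, 1, [], [], [(97, [(48, 2), (24, 2), (12, 2), (6, 2), (3, 2), (32, 3)]), (313, [(156, 2), (78, 2), (39, 2), (104, 3), (24, 13)])], [(10093, 5046)], 1),
    (34511, false, 1, [], [], [(59, [(29, 2), (2, 29)]), (233, [(116, 2), (58, 2), (29, 2), (8, 29)])], [(10093, 5046)], 1),
    (35149, false, 1, [], [3], [(67, [(33, 2), (22, 3), (6, 11)]), (199, [(99, 2), (66, 3), (22, 3), (18, 11)]), (397, [(198, 2), (99, 2), (132, 3), (44, 3), (36, 11)])], [(10093, 5046)], 1),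
    (35323, false, 1, [], [3], [(59, [(29, 2), (2, 29)]), (67, [(33, 2), (22, 3), (6, 11)]), (89, [(44, 2), (22, 2), (11, 2), (8, 11)]), (233, [(116, 2), (58, 2), (29, 2), (8, 29)]), (421, [(210, 2), (105, 2), (140, 3), (84, 5), (60, 7)])], [(10093, 5046)], 2),
    (35381, false, 1, [], [], [(59, [(29, 2), (2, 29)])], [(13457, 841)], 1),
    (35671, false, 1, [], [5], [(401, [(200, 2), (100, 2), (50, 2), (25, 2), (80, 5), (16, 5)])], [(10093, 5046)], 1),
    (35729, false, 1, [], [2], [(397, [(198, 2), (99, 2), (132, 3), (44, 3), (36, 11)]), (421, [(210, 2), (105, 2), (140, 3), (84, 5), (60, 7)]), (491, [(245, 2), (98, 5), (70, 7), (10, 7)]), (541, [(270, 2), (135, 2), (180, 3), (60, 3), (20, 3), (108, 5)])], [(10093, 5046)], 1),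
    (36251, false, 1, [], [], [], [(13457, 841)], 0)] 2500 31301 = true := by
  decide +kernel

theorem ck29_36301 : chunk WW (search 1 ef29 fqT GT FN29 4 29) 29
    [(36541, false, 1, [], [5], [(401, [(200, 2), (100, 2), (50, 2), (25, 2), (80, 5), (16, 5)])], [(13457, 841)], 1),
    (36599, false, 1, [], [], [(61, [(30, 2), (15, 2), (20, 3), (12, 5)])], [(10093, 5046)], 1),
    (36779, false, 1, [(4, 7)], [], [(281, [(140, 2), (70, 2), (35, 2), (56, 5), (40, 7)]), (401, [(200, 2), (100, 2), (50, 2), (25, 2), (80, 5), (16, 5)])], [(10151, 5075)], 1),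
    (36947, false, 1, [], [7], [(197, [(98, 2), (49, 2), (28, 7), (4, 7)]), (349, [(174, 2), (87, 2), (116, 3), (12, 29)]), (379, [(189, 2), (126, 3), (42, 3), (14, 3), (54, 7)]), (523, [(261, 2), (174, 3), (58, 3), (18, 29)])], [(10093, 5046)], 1),
    (37643, false, 1, [], [11], [(13, [(6, 2), (3, 2), (4, 3)]), (23, [(11, 2), (2, 11)]), (89, [(44, 2), (22, 2), (11, 2), (8, 11)]), (313, [(156, 2), (78, 2), (39, 2), (104, 3), (24, 13)]), (353, [(176, 2), (88, 2), (44, 2), (22, 2), (11, 2), (32, 11)])], [(10093, 5046)], 2),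
    (37991, false, 1, [], [5], [(401, [(200, 2), (100, 2), (50, 2), (25, 2), (80, 5), (16, 5)])], [(13457, 841)], 1),
    (38281, false, 1, [], [2], [(421, [(210, 2), (105, 2), (140, 3), (84, 5), (60, 7)])], [(10093, 5046)], 1),
    (38629, false, 1, [], [], [], [(13457, 841)], 0),
    (38723, false, 1, [(4, 7)], [], [(401, [(200, 2), (100, 2), (50, 2), (25, 2), (80, 5), (16, 5)]), (461, [(230, 2), (115, 2), (92, 5), (20, 23)])], [(9281, 928)], 2),
    (38803, false, 1, [], [3], [(251, [(125, 2), (50, 5), (10, 5), (2, 5)]), (271, [(135, 2), (90, 3), (30, 3), (10, 3), (54, 5)]), (401, [(200, 2), (100, 2), (50, 2), (25, 2), (80, 5), (16, 5)])], [(13457, 841)], 2),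
    (38861, false, 1, [], [], [(59, [(29, 2), (2, 29)]), (127, [(63, 2), (42, 3), (14, 3), (18, 7)]), (233, [(116, 2), (58, 2), (29, 2), (8, 29)]), (271, [(135, 2), (90, 3), (30, 3), (10, 3), (54, 5)])], [(10093, 5046)], 1),
    (38977, false, 1, [], [2, 3], [(67, [(33, 2), (22, 3), (6, 11)]), (73, [(36, 2), (18, 2), (9, 2), (24, 3), (8, 3)]), (109, [(54, 2), (27, 2), (36, 3), (12, 3), (4, 3)])], [(10093, 5046)], 2),
    (39199, false, 29, [(4, 7)], [], [], [(23549, 5887)], 0),
    (39209, false, 1, [], [2], [(67, [(33, 2), (22, 3), (6, 11)]), (89, [(44, 2), (22, 2), (11, 2), (8, 11)]), (349, [(174, 2), (87, 2), (116, 3), (12, 29)]), (353, [(176, 2), (88, 2), (44, 2), (22, 2), (11, 2), (32, 11)]), (421, [(210, 2), (105, 2), (140, 3), (84, 5), (60, 7)])], [(13457, 841)], 2),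
    (39323, false, 1, [], [], [(113, [(56, 2), (28, 2), (14, 2), (7, 2), (16, 7)]), (421, [(210, 2), (105, 2), (140, 3), (84, 5), (60, 7)])], [(2437, 609)], 1),
    (39383, false, 1, [], [], [(59, [(29, 2), (2, 29)]), (233, [(116, 2), (58, 2), (29, 2), (8, 29)])], [(10093, 5046)], 1),
    (39499, false, 1, [], [3], [(67, [(33, 2), (22, 3), (6, 11)]), (271, [(135, 2), (90, 3), (30, 3), (10, 3), (54, 5)]), (331, [(165, 2), (110, 3), (66, 5), (30, 11)]), (401, [(200, 2), (100, 2), (50, 2), (25, 2), (80, 5), (16, 5)])], [(10093, 5046)], 1),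
    (39847, false, 1, [], [], [(349, [(174, 2), (87, 2), (116, 3), (12, 29)]), (353, [(176, 2), (88, 2), (44, 2), (22, 2), (11, 2), (32, 11)]), (421, [(210, 2), (105, 2), (140, 3), (84, 5), (60, 7)]), (523, [(261, 2), (174, 3), (58, 3), (18, 29)])], [(10093, 5046)], 2),
    (40253, false, 1, [], [], [(5, [(2, 2), (1, 2)]), (41, [(20, 2), (10, 2), (5, 2), (8, 5)]), (401, [(200, 2), (100, 2), (50, 2), (25, 2), (80, 5), (16, 5)])], [(13457, 841)], 1),
    (40427, false, 1, [], [], [], [(10093, 5046)], 0),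
    (40543, false, 1, [], [3], [(151, [(75, 2), (50, 3), (30, 5), (6, 5)]), (271, [(135, 2), (90, 3), (30, 3), (10, 3), (54, 5)]), (401, [(200, 2), (100, 2), (50, 2), (25, 2), (80, 5), (16, 5)])], [(13457, 841)], 2),
    (40949, false, 1, [], [], [(233, [(116, 2), (58, 2), (29, 2), (8, 29)]), (523, [(261, 2), (174, 3), (58, 3), (18, 29)])], [(13457, 841)], 2)] 2500 36301 = true := by
  decide +kernel

theorem ck29_41301 : chunk WW (search 1 ef29 fqT GT FN29 4 29) 29
    [(41413, false, 1, [], [3, 7], [(97, [(48, 2), (24, 2), (12, 2), (6, 2), (3, 2), (32, 3)]), (113, [(56, 2), (28, 2), (14, 2), (7, 2), (16, 7)]), (181, [(90, 2), (45, 2), (60, 3), (20, 3), (36, 5)]), (271, [(135, 2), (90, 3), (30, 3), (10, 3), (54, 5)]), (401, [(200, 2), (100, 2), (50, 2), (25, 2), (80, 5), (16, 5)])], [(13457, 841)], 3),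
    (41761, false, 1, [], [2, 3], [(313, [(156, 2), (78, 2), (39, 2), (104, 3), (24, 13)])], [(10093, 5046)], 1),
    (41969, false, 1, [(4, 7)], [], [(281, [(140, 2), (70, 2), (35, 2), (56, 5), (40, 7)])], [(6091, 3045)], 1),
    (42281, false, 1, [], [2], [(421, [(210, 2), (105, 2), (140, 3), (84, 5), (60, 7)])], [(6961, 3480)], 1),
    (42283, false, 1, [], [3], [(67, [(33, 2), (22, 3), (6, 11)]), (89, [(44, 2), (22, 2), (11, 2), (8, 11)]), (353, [(176, 2), (88, 2), (44, 2), (22, 2), (11, 2), (32, 11)])], [(13457, 841)], 1),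
    (42457, false, 1, [], [], [], [(10093, 5046)], 0),
    (42571, false, 1, [], [5], [(401, [(200, 2), (100, 2), (50, 2), (25, 2), (80, 5), (16, 5)])], [(9281, 928)], 1),
    (42689, false, 1, [], [], [(59, [(29, 2), (2, 29)]), (233, [(116, 2), (58, 2), (29, 2), (8, 29)])], [(10093, 5046)], 1),
    (42863, false, 1, [], [], [], [(10093, 5046)], 0),
    (42979, false, 1, [], [3], [(271, [(135, 2), (90, 3), (30, 3), (10, 3), (54, 5)])], [(10093, 5046)], 1),
    (43037, false, 1, [], [], [(59, [(29, 2), (2, 29)]), (233, [(116, 2), (58, 2), (29, 2), (8, 29)])], [(10093, 5046)], 1),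
    (43441, false, 1, [], [], [], [(10499, 5249)], 0),
    (44371, false, 1, [], [3], [(271, [(135, 2), (90, 3), (30, 3), (10, 3), (54, 5)])], [(10093, 5046)], 1),
    (44777, false, 1, [], [], [], [(10093, 5046)], 0),
    (44789, false, 1, [(4, 7)], [], [], [(7309, 1218)], 0),
    (44893, false, 1, [], [3], [(19, [(9, 2), (6, 3), (2, 3)])], [(10093, 5046)], 1),
    (45589, false, 1, [], [], [(97, [(48, 2), (24, 2), (12, 2), (6, 2), (3, 2), (32, 3)]), (313, [(156, 2), (78, 2), (39, 2), (104, 3), (24, 13)])], [(13457, 841)], 1),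
    (45763, false, 1, [], [3], [(17, [(8, 2), (4, 2), (2, 2), (1, 2)]), (271, [(135, 2), (90, 3), (30, 3), (10, 3), (54, 5)]), (281, [(140, 2), (70, 2), (35, 2), (56, 5), (40, 7)]), (313, [(156, 2), (78, 2), (39, 2), (104, 3), (24, 13)]), (337, [(168, 2), (84, 2), (42, 2), (21, 2), (112, 3), (48, 7)])], [(13457, 841)], 2),
    (45821, false, 1, [], [], [(59, [(29, 2), (2, 29)]), (233, [(116, 2), (58, 2), (29, 2), (8, 29)]), (271, [(135, 2), (90, 3), (30, 3), (10, 3), (54, 5)]), (349, [(174, 2), (87, 2), (116, 3), (12, 29)])], [(10093, 5046)], 2)] 2500 41301 = true := by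
  decide +kernel

theorem ck29_46301 : chunk WW (search 1 ef29 fqT GT FN29 4 29) 29
    [(46633, false, 1, [], [], [(5, [(2, 2), (1, 2)]), (271, [(135, 2), (90, 3), (30, 3), (10, 3), (54, 5)]), (349, [(174, 2), (87, 2), (116, 3), (12, 29)])], [(10093, 5046)], 2),
    (46691, false, 1, [], [], [], [(13457, 841)], 0),
    (46807, false, 1, [], [], [(67, [(33, 2), (22, 3), (6, 11)]), (271, [(135, 2), (90, 3), (30, 3), (10, 3), (54, 5)]), (331, [(165, 2), (110, 3), (66, 5), (30, 11)]), (349, [(174, 2), (87, 2), (116, 3), (12, 29)]), (401, [(200, 2), (100, 2), (50, 2), (25, 2), (80, 5), (16, 5)])], [(10093, 5046)], 2),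
    (47387, false, 1, [], [], [(59, [(29, 2), (2, 29)]), (233, [(116, 2), (58, 2), (29, 2), (8, 29)])], [(10093, 5046)], 1),
    (48779, false, 1, [], [], [], [(10093, 5046)], 0),
    (48953, false, 1, [], [], [], [(10093, 5046)], 0),
    (49069, false, 1, [], [3], [(67, [(33, 2), (22, 3), (6, 11)]), (271, [(135, 2), (90, 3), (30, 3), (10, 3), (54, 5)]), (331, [(165, 2), (110, 3), (66, 5), (30, 11)]), (401, [(200, 2), (100, 2), (50, 2), (25, 2), (80, 5), (16, 5)])], [(13457, 841)], 1),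
    (49307, false, 1, [(4, 7)], [], [], [(7309, 1218)], 0),
    (49417, false, 1, [], [], [], [(10093, 5046)], 0),
    (49823, false, 1, [], [], [(59, [(29, 2), (2, 29)]), (233, [(116, 2), (58, 2), (29, 2), (8, 29)]), (241, [(120, 2), (60, 2), (30, 2), (15, 2), (80, 3), (48, 5)]), (541, [(270, 2), (135, 2), (180, 3), (60, 3), (20, 3), (108, 5)])], [(10093, 5046)], 1),
    (49939, false, 1, [], [3], [(271, [(135, 2), (90, 3), (30, 3), (10, 3), (54, 5)]), (313, [(156, 2), (78, 2), (39, 2), (104, 3), (24, 13)]), (433, [(216, 2), (108, 2), (54, 2), (27, 2), (144, 3), (48, 3), (16, 3)])], [(10093, 5046)], 2),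
    (50119, false, 1, [(4, 7)], [], [(179, [(89, 2), (2, 89)]), (1069, [(534, 2), (267, 2), (356, 3), (12, 89)])], [(2437, 609)], 1),
    (50287, false, 1, [], [], [(349, [(174, 2), (87, 2), (116, 3), (12, 29)]), (449, [(224, 2), (112, 2), (56, 2), (28, 2), (14, 2), (7, 2), (64, 7)]), (577, [(288, 2), (144, 2), (72, 2), (36, 2), (18, 2), (9, 2), (192, 3), (64, 3)])], [(13457, 841)], 1),
    (50461, false, 1, [], [3, 5], [(181, [(90, 2), (45, 2), (60, 3), (20, 3), (36, 5)])], [(10093, 5046)], 1),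
    (50867, false, 1, [], [], [(523, [(261, 2), (174, 3), (58, 3), (18, 29)])], [(10093, 5046)], 1),
    (51157, false, 1, [], [3], [(61, [(30, 2), (15, 2), (20, 3), (12, 5)]), (271, [(135, 2), (90, 3), (30, 3), (10, 3), (54, 5)]), (313, [(156, 2), (78, 2), (39, 2), (104, 3), (24, 13)])], [(10093, 5046)], 2)] 2500 46301 = true := by
  decide +kernel

theorem ck29_51301 : chunk WW (search 1 ef29 fqT GT FN29 4 29) 29
    [(51563, false, 1, [], [], [(59, [(29, 2), (2, 29)]), (233, [(116, 2), (58, 2), (29, 2), (8, 29)])], [(13457, 841)], 1),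
    (51679, false, 1, [], [3], [(109, [(54, 2), (27, 2), (36, 3), (12, 3), (4, 3)])], [(10093, 5046)], 1),
    (51853, false, 1, [], [3], [(271, [(135, 2), (90, 3), (30, 3), (10, 3), (54, 5)])], [(10093, 5046)], 1),
    (51977, false, 1, [(4, 7)], [], [], [(10499, 5249)], 0),
    (52027, false, 1, [], [], [(59, [(29, 2), (2, 29)]), (233, [(116, 2), (58, 2), (29, 2), (8, 29)])], [(13457, 841)], 1),
    (52201, false, 1, [], [5], [(43, [(21, 2), (14, 3), (6, 7)]), (281, [(140, 2), (70, 2), (35, 2), (56, 5), (40, 7)])], [(13457, 841)], 1),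
    (52259, false, 1, [], [], [(59, [(29, 2), (2, 29)]), (233, [(116, 2), (58, 2), (29, 2), (8, 29)])], [(13457, 841)], 1),
    (52433, false, 1, [], [], [(5, [(2, 2), (1, 2)])], [(10093, 5046)], 1),
    (53129, false, 1, [], [2], [(421, [(210, 2), (105, 2), (140, 3), (84, 5), (60, 7)])], [(10093, 5046)], 1),
    (53231, false, 1, [(4, 7)], [5], [], [(10151, 5075)], 0),
    (53419, false, 1, [], [], [(271, [(135, 2), (90, 3), (30, 3), (10, 3), (54, 5)]), (523, [(261, 2), (174, 3), (58, 3), (18, 29)])], [(10093, 5046)], 2),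
    (53593, false, 1, [], [2, 3], [(61, [(30, 2), (15, 2), (20, 3), (12, 5)])], [(13457, 841)], 1),
    (53849, false, 1, [(4, 7)], [], [(521, [(260, 2), (130, 2), (65, 2), (104, 5), (40, 13)]), (547, [(273, 2), (182, 3), (78, 7), (42, 13)])], [(9803, 4901)], 2),
    (54347, false, 1, [], [], [(5, [(2, 2), (1, 2)])], [(10093, 5046)], 1),
    (54521, false, 1, [], [], [(13, [(6, 2), (3, 2), (4, 3)]), (211, [(105, 2), (70, 3), (42, 5), (30, 7)]), (271, [(135, 2), (90, 3), (30, 3), (10, 3), (54, 5)]), (401, [(200, 2), (100, 2), (50, 2), (25, 2), (80, 5), (16, 5)])], [(13457, 841)], 2),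
    (54869, false, 1, [], [], [(31, [(15, 2), (10, 3), (6, 5)]), (401, [(200, 2), (100, 2), (50, 2), (25, 2), (80, 5), (16, 5)])], [(13457, 841)], 1),
    (55217, false, 1, [], [], [(181, [(90, 2), (45, 2), (60, 3), (20, 3), (36, 5)]), (271, [(135, 2), (90, 3), (30, 3), (10, 3), (54, 5)]), (349, [(174, 2), (87, 2), (116, 3), (12, 29)]), (401, [(200, 2), (100, 2), (50, 2), (25, 2), (80, 5), (16, 5)])], [(10093, 5046)], 3),
    (55333, false, 1, [], [], [(73, [(36, 2), (18, 2), (9, 2), (24, 3), (8, 3)]), (313, [(156, 2), (78, 2), (39, 2), (104, 3), (24, 13)])], [(13457, 841)], 1),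
    (55681, false, 1, [], [2, 3], [(61, [(30, 2), (15, 2), (20, 3), (12, 5)]), (151, [(75, 2), (50, 3), (30, 5), (6, 5)]), (401, [(200, 2), (100, 2), (50, 2), (25, 2), (80, 5), (16, 5)])], [(13457, 841)], 1),
    (56087, false, 1, [], [], [(41, [(20, 2), (10, 2), (5, 2), (8, 5)]), (401, [(200, 2), (100, 2), (50, 2), (25, 2), (80, 5), (16, 5)])], [(13457, 841)], 1)] 2500 51301 = true := by
  decide +kernel

end Pool.Agent.NearSuper255
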