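import Pool.Agent.NearSuper255.TabX

/-!
# Ranges of excluded pairs, second part, file 6
-/

namespace Pool.Agent.NearSuper255

theorem ck29_56301 : chunk WW (search 1 ef29 fqT GT FN29 4 29) 29
    [(56377, false, 1, [], [2, 3], [(421, [(210, 2), (105, 2), (140, 3), (84, 5), (60, 7)]), (487, [(243, 2), (162, 3), (54, 3), (18, 3), (6, 3), (2, 3)])], [(10093, 5046)], 1),
    (56783, false, 1, [], [], [(59, [(29, 2), (2, 29)]), (233, [(116, 2), (58, 2), (29, 2), (8, 29)])], [(13457, 841)], 1),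
    (56957, false, 1, [], [], [], [(13457, 841)], 0),
    (57073, false, 1, [], [2, 3], [(181, [(90, 2), (45, 2), (60, 3), (20, 3), (36, 5)]), (271, [(135, 2), (90, 3), (30, 3), (10, 3), (54, 5)]), (401, [(200, 2), (100, 2), (50, 2), (25, 2), (80, 5), (16, 5)]), (421, [(210, 2), (105, 2), (140, 3), (84, 5), (60, 7)])], [(13457, 841)], 2),
    (57119, false, 1, [], [], [(17, [(8, 2), (4, 2), (2, 2), (1, 2)]), (421, [(210, 2), (105, 2), (140, 3), (84, 5), (60, 7)])], [(7309, 1218)], 1),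
    (57131, false, 1, [], [5], [(11, [(5, 2), (2, 5)]), (23, [(11, 2), (2, 11)]), (41, [(20, 2), (10, 2), (5, 2), (8, 5)]), (353, [(176, 2), (88, 2), (44, 2), (22, 2), (11, 2), (32, 11)])], [(13457, 841)], 1),
    (57653, false, 1, [], [], [(23, [(11, 2), (2, 11)]), (1277, [(638, 2), (319, 2), (116, 11), (44, 29)])], [(18503, 9251)], 2),
    (57943, false, 1, [], [3], [(271, [(135, 2), (90, 3), (30, 3), (10, 3), (54, 5)])], [(10093, 5046)], 1),
    (58153, false, 1, [(7, 2)], [2], [(421, [(210, 2), (105, 2), (140, 3), (84, 5), (60, 7)])], [(5801, 580)], 1),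
    (59219, false, 1, [], [], [(59, [(29, 2), (2, 29)])], [(18503, 9251)], 1),
    (59393, false, 1, [], [], [(19, [(9, 2), (6, 3), (2, 3)]), (59, [(29, 2), (2, 29)]), (233, [(116, 2), (58, 2), (29, 2), (8, 29)]), (271, [(135, 2), (90, 3), (30, 3), (10, 3), (54, 5)])], [(10093, 5046)], 1),
    (59509, false, 1, [], [3], [(109, [(54, 2), (27, 2), (36, 3), (12, 3), (4, 3)])], [(10093, 5046)], 1),
    (59567, false, 1, [], [], [(73, [(36, 2), (18, 2), (9, 2), (24, 3), (8, 3)]), (271, [(135, 2), (90, 3), (30, 3), (10, 3), (54, 5)]), (401, [(200, 2), (100, 2), (50, 2), (25, 2), (80, 5), (16, 5)]), (541, [(270, 2), (135, 2), (180, 3), (60, 3), (20, 3), (108, 5)])], [(13457, 841)], 2)] 1850 56301 = true := by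
  decide +kernel

theorem ck31_901 : chunk WW (search 1 ef31 fqT GT FN31 4 31) 31
    [(1117, true, 1, [(372, 3), (124, 3), (36, 31)], [], [(43, [(21, 2), (14, 3), (6, 7)]), (127, [(63, 2), (42, 3), (14, 3), (18, 7)])], [(20107, 10053)], 1),
    (1303, false, 1, [], [3, 7], [(211, [(105, 2), (70, 3), (42, 5), (30, 7)]), (241, [(120, 2), (60, 2), (30, 2), (15, 2), (80, 3), (48, 5)]), (337, [(168, 2), (84, 2), (42, 2), (21, 2), (112, 3), (48, 7)])], [(15377, 1922)], 1),
    (1427, true, 1, [(62, 23), (46, 31)], [], [(7, [(3, 2), (2, 3)])], [(8563, 8562)], 1),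
    (1487, false, 1, [], [], [], [(266291, 53258)], 0),
    (1489, true, 1, [(186, 2), (93, 2), (496, 3), (48, 31)], [], [(37, [(18, 2), (9, 2), (12, 3), (4, 3)]), (103, [(51, 2), (34, 3), (6, 17)])], [(50627, 25313)], 1),
    (1493, false, 1, [(10, 3)], [], [(541, [(270, 2), (135, 2), (180, 3), (60, 3), (20, 3), (108, 5)]), (577, [(288, 2), (144, 2), (72, 2), (36, 2), (18, 2), (9, 2), (192, 3), (64, 3)])], [(17299, 17298)], 1),
    (1613, false, 1, [], [], [], [(17299, 17298)], 0),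
    (1861, false, 1, [], [3], [(311, [(155, 2), (62, 5), (10, 31)]), (331, [(165, 2), (110, 3), (66, 5), (30, 11)]), (373, [(186, 2), (93, 2), (124, 3), (12, 31)])], [(17299, 17298)], 2),
    (2357, false, 1, [], [], [(109, [(54, 2), (27, 2), (36, 3), (12, 3), (4, 3)]), (131, [(65, 2), (26, 5), (10, 13)]), (163, [(81, 2), (54, 3), (18, 3), (6, 3), (2, 3)]), (421, [(210, 2), (105, 2), (140, 3), (84, 5), (60, 7)]), (521, [(260, 2), (130, 2), (65, 2), (104, 5), (40, 13)]), (547, [(273, 2), (182, 3), (78, 7), (42, 13)])], [(17299, 17298)], 3),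
    (2543, false, 1, [], [], [(37, [(18, 2), (9, 2), (12, 3), (4, 3)]), (53, [(26, 2), (13, 2), (4, 13)])], [(17299, 17298)], 2),
    (2729, false, 1, [], [11], [(397, [(198, 2), (99, 2), (132, 3), (44, 3), (36, 11)])], [(17299, 17298)], 1),
    (2791, false, 1, [], [3], [(577, [(288, 2), (144, 2), (72, 2), (36, 2), (18, 2), (9, 2), (192, 3), (64, 3)])], [(17299, 17298)], 1),
    (3163, false, 1, [], [17], [(113, [(56, 2), (28, 2), (14, 2), (7, 2), (16, 7)]), (137, [(68, 2), (34, 2), (17, 2), (8, 17)]), (241, [(120, 2), (60, 2), (30, 2), (15, 2), (80, 3), (48, 5)]), (337, [(168, 2), (84, 2), (42, 2), (21, 2), (112, 3), (48, 7)])], [(15377, 1922)], 1),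
    (3347, false, 31, [], [], [], [(78803, 78802)], 0),
    (3659, false, 1, [], [], [(61, [(30, 2), (15, 2), (20, 3), (12, 5)]), (181, [(90, 2), (45, 2), (60, 3), (20, 3), (36, 5)]), (373, [(186, 2), (93, 2), (124, 3), (12, 31)])], [(17299, 17298)], 1),
    (3907, false, 1, [], [3], [(577, [(288, 2), (144, 2), (72, 2), (36, 2), (18, 2), (9, 2), (192, 3), (64, 3)])], [(17299, 17298)], 1),
    (4093, false, 1, [], [11], [(397, [(198, 2), (99, 2), (132, 3), (44, 3), (36, 11)])], [(17299, 17298)], 1),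
    (4217, false, 1, [], [17], [(103, [(51, 2), (34, 3), (6, 17)]), (307, [(153, 2), (102, 3), (34, 3), (18, 17)]), (577, [(288, 2), (144, 2), (72, 2), (36, 2), (18, 2), (9, 2), (192, 3), (64, 3)])], [(17299, 17298)], 1),
    (4651, false, 1, [], [5], [(19, [(9, 2), (6, 3), (2, 3)]), (101, [(50, 2), (25, 2), (20, 5), (4, 5)]), (311, [(155, 2), (62, 5), (10, 31)]), (373, [(186, 2), (93, 2), (124, 3), (12, 31)]), (463, [(231, 2), (154, 3), (66, 7), (42, 11)])], [(17299, 17298)], 2),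
    (5023, false, 1, [], [3], [(577, [(288, 2), (144, 2), (72, 2), (36, 2), (18, 2), (9, 2), (192, 3), (64, 3)])], [(15377, 1922)], 1),
    (5147, false, 1, [], [], [(41, [(20, 2), (10, 2), (5, 2), (8, 5)]), (61, [(30, 2), (15, 2), (20, 3), (12, 5)]), (311, [(155, 2), (62, 5), (10, 31)]), (331, [(165, 2), (110, 3), (66, 5), (30, 11)])], [(17299, 17298)], 2),
    (5209, false, 1, [], [], [], [(17299, 17298)], 0),
    (5333, false, 1, [], [], [], [(15377, 1922)], 0),
    (5519, false, 1, [], [], [], [(17299, 17298)], 0),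
    (5581, false, 1, [], [], [], [(15377, 1922)], 0)] 2500 901 = true := by
  decide +kernel

theorem ck31_5901 : chunk WW (search 1 ef31 fqT GT FN31 4 31) 31
    [(5953, false, 1, [], [3], [(331, [(165, 2), (110, 3), (66, 5), (30, 11)])], [(17299, 17298)], 1),
    (6263, false, 1, [], [], [(7, [(3, 2), (2, 3)]), (29, [(14, 2), (7, 2), (4, 7)]), (37, [(18, 2), (9, 2), (12, 3), (4, 3)])], [(17299, 17298)], 2),
    (6449, false, 1, [], [], [(43, [(21, 2), (14, 3), (6, 7)]), (331, [(165, 2), (110, 3), (66, 5), (30, 11)])], [(17299, 17298)], 1),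
    (6883, false, 1, [], [3], [(19, [(9, 2), (6, 3), (2, 3)]), (311, [(155, 2), (62, 5), (10, 31)])], [(17299, 17298)], 1),
    (7069, false, 1, [], [3], [(101, [(50, 2), (25, 2), (20, 5), (4, 5)]), (151, [(75, 2), (50, 3), (30, 5), (6, 5)]), (311, [(155, 2), (62, 5), (10, 31)]), (373, [(186, 2), (93, 2), (124, 3), (12, 31)]), (401, [(200, 2), (100, 2), (50, 2), (25, 2), (80, 5), (16, 5)]), (409, [(204, 2), (102, 2), (51, 2), (136, 3), (24, 17)])], [(17299, 17298)], 1),
    (7193, false, 1, [], [], [(109, [(54, 2), (27, 2), (36, 3), (12, 3), (4, 3)]), (577, [(288, 2), (144, 2), (72, 2), (36, 2), (18, 2), (9, 2), (192, 3), (64, 3)])], [(17299, 17298)], 1),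
    (7937, false, 1, [], [], [(7, [(3, 2), (2, 3)]), (97, [(48, 2), (24, 2), (12, 2), (6, 2), (3, 2), (32, 3)]), (331, [(165, 2), (110, 3), (66, 5), (30, 11)]), (401, [(200, 2), (100, 2), (50, 2), (25, 2), (80, 5), (16, 5)])], [(15377, 1922)], 2),
    (8123, false, 1, [], [], [], [(17299, 17298)], 0),
    (8681, false, 1, [], [5], [(41, [(20, 2), (10, 2), (5, 2), (8, 5)]), (61, [(30, 2), (15, 2), (20, 3), (12, 5)]), (241, [(120, 2), (60, 2), (30, 2), (15, 2), (80, 3), (48, 5)]), (271, [(135, 2), (90, 3), (30, 3), (10, 3), (54, 5)]), (577, [(288, 2), (144, 2), (72, 2), (36, 2), (18, 2), (9, 2), (192, 3), (64, 3)])], [(15377, 1922)], 2),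
    (8867, false, 1, [], [11], [(397, [(198, 2), (99, 2), (132, 3), (44, 3), (36, 11)])], [(17299, 17298)], 1),
    (8929, false, 1, [], [2], [(37, [(18, 2), (9, 2), (12, 3), (4, 3)])], [(17299, 17298)], 1),
    (9239, false, 1, [], [], [(7, [(3, 2), (2, 3)]), (41, [(20, 2), (10, 2), (5, 2), (8, 5)]), (43, [(21, 2), (14, 3), (6, 7)]), (113, [(56, 2), (28, 2), (14, 2), (7, 2), (16, 7)]), (311, [(155, 2), (62, 5), (10, 31)]), (331, [(165, 2), (110, 3), (66, 5), (30, 11)]), (353, [(176, 2), (88, 2), (44, 2), (22, 2), (11, 2), (32, 11)])], [(15377, 1922)], 3),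
    (9739, false, 1, [], [3], [(577, [(288, 2), (144, 2), (72, 2), (36, 2), (18, 2), (9, 2), (192, 3), (64, 3)])], [(8929, 1488)], 1),
    (9859, false, 1, [], [], [], [(15377, 1922)], 0),
    (10169, false, 1, [], [], [(113, [(56, 2), (28, 2), (14, 2), (7, 2), (16, 7)]), (409, [(204, 2), (102, 2), (51, 2), (136, 3), (24, 17)])], [(15377, 1922)], 1),
    (10789, false, 1, [], [], [(13, [(6, 2), (3, 2), (4, 3)]), (37, [(18, 2), (9, 2), (12, 3), (4, 3)]), (373, [(186, 2), (93, 2), (124, 3), (12, 31)])], [(17299, 17298)], 1)] 2500 5901 = true := by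
  decide +kernel

theorem ck31_10901 : chunk WW (search 1 ef31 fqT GT FN31 4 31) 31
    [(11161, false, 1, [], [], [], [(15377, 1922)], 0),
    (11471, false, 1, [], [5], [(11, [(5, 2), (2, 5)]), (61, [(30, 2), (15, 2), (20, 3), (12, 5)]), (331, [(165, 2), (110, 3), (66, 5), (30, 11)]), (541, [(270, 2), (135, 2), (180, 3), (60, 3), (20, 3), (108, 5)]), (577, [(288, 2), (144, 2), (72, 2), (36, 2), (18, 2), (9, 2), (192, 3), (64, 3)])], [(17299, 17298)], 1),
    (11657, false, 1, [], [2], [(37, [(18, 2), (9, 2), (12, 3), (4, 3)])], [(17299, 17298)], 1),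
    (11719, false, 1, [], [3], [(109, [(54, 2), (27, 2), (36, 3), (12, 3), (4, 3)])], [(17299, 17298)], 1),
    (12277, false, 1, [], [3], [(577, [(288, 2), (144, 2), (72, 2), (36, 2), (18, 2), (9, 2), (192, 3), (64, 3)])], [(15377, 1922)], 1),
    (12401, false, 1, [], [5], [(53, [(26, 2), (13, 2), (4, 13)]), (181, [(90, 2), (45, 2), (60, 3), (20, 3), (36, 5)])], [(17299, 17298)], 1),
    (12959, false, 1, [], [11], [(229, [(114, 2), (57, 2), (76, 3), (12, 19)]), (397, [(198, 2), (99, 2), (132, 3), (44, 3), (36, 11)]), (409, [(204, 2), (102, 2), (51, 2), (136, 3), (24, 17)]), (419, [(209, 2), (38, 11), (22, 19)]), (457, [(228, 2), (114, 2), (57, 2), (152, 3), (24, 19)])], [(15377, 1922)], 3),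
    (13331, false, 1, [], [5], [(41, [(20, 2), (10, 2), (5, 2), (8, 5)])], [(15377, 1922)], 1),
    (14323, false, 1, [], [], [], [(5170181, 1292545)], 0),
    (14447, false, 1, [], [], [], [(15377, 1922)], 0),
    (14633, false, 1, [], [], [(271, [(135, 2), (90, 3), (30, 3), (10, 3), (54, 5)]), (577, [(288, 2), (144, 2), (72, 2), (36, 2), (18, 2), (9, 2), (192, 3), (64, 3)])], [(15377, 1922)], 1),
    (15377, false, 1, [], [], [(37, [(18, 2), (9, 2), (12, 3), (4, 3)]), (233, [(116, 2), (58, 2), (29, 2), (8, 29)])], [(17299, 17298)], 2),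
    (15439, false, 1, [], [], [(37, [(18, 2), (9, 2), (12, 3), (4, 3)]), (67, [(33, 2), (22, 3), (6, 11)]), (193, [(96, 2), (48, 2), (24, 2), (12, 2), (6, 2), (3, 2), (64, 3)]), (397, [(198, 2), (99, 2), (132, 3), (44, 3), (36, 11)])], [(17299, 17298)], 2),
    (15749, false, 1, [], [], [(7, [(3, 2), (2, 3)]), (19, [(9, 2), (6, 3), (2, 3)])], [(17299, 17298)], 1)] 2500 10901 = true := by
  decide +kernel

theorem ck31_15901 : chunk WW (search 1 ef31 fqT GT FN31 4 31) 31
    [(16183, false, 1, [], [3], [(331, [(165, 2), (110, 3), (66, 5), (30, 11)]), (397, [(198, 2), (99, 2), (132, 3), (44, 3), (36, 11)]), (463, [(231, 2), (154, 3), (66, 7), (42, 11)])], [(17299, 17298)], 2),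
    (16369, false, 1, [], [2, 11], [(89, [(44, 2), (22, 2), (11, 2), (8, 11)])], [(15377, 1922)], 1),
    (16493, false, 1, [], [19], [(41, [(20, 2), (10, 2), (5, 2), (8, 5)]), (191, [(95, 2), (38, 5), (10, 19)]), (311, [(155, 2), (62, 5), (10, 31)])], [(15377, 1922)], 2),
    (16741, false, 1, [], [3], [(577, [(288, 2), (144, 2), (72, 2), (36, 2), (18, 2), (9, 2), (192, 3), (64, 3)])], [(15377, 1922)], 1),
    (16927, false, 1, [], [], [(23, [(11, 2), (2, 11)]), (397, [(198, 2), (99, 2), (132, 3), (44, 3), (36, 11)])], [(17299, 17298)], 1),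
    (17299, false, 1, [], [3], [(109, [(54, 2), (27, 2), (36, 3), (12, 3), (4, 3)]), (331, [(165, 2), (110, 3), (66, 5), (30, 11)]), (401, [(200, 2), (100, 2), (50, 2), (25, 2), (80, 5), (16, 5)]), (433, [(216, 2), (108, 2), (54, 2), (27, 2), (144, 3), (48, 3), (16, 3)]), (487, [(243, 2), (162, 3), (54, 3), (18, 3), (6, 3), (2, 3)])], [(15377, 1922)], 2),
    (17483, false, 1, [], [], [], [(8929, 1488)], 0),
    (17609, false, 1, [], [], [], [(15377, 1922)], 0),
    (17981, false, 1, [], [5], [(11, [(5, 2), (2, 5)]), (311, [(155, 2), (62, 5), (10, 31)]), (373, [(186, 2), (93, 2), (124, 3), (12, 31)])], [(15377, 1922)], 1),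
    (18043, false, 1, [], [], [(13, [(6, 2), (3, 2), (4, 3)]), (37, [(18, 2), (9, 2), (12, 3), (4, 3)])], [(17299, 17298)], 1),
    (18229, false, 1, [], [3], [(241, [(120, 2), (60, 2), (30, 2), (15, 2), (80, 3), (48, 5)]), (331, [(165, 2), (110, 3), (66, 5), (30, 11)]), (409, [(204, 2), (102, 2), (51, 2), (136, 3), (24, 17)])], [(15377, 1922)], 2),
    (18353, false, 1, [], [2], [(409, [(204, 2), (102, 2), (51, 2), (136, 3), (24, 17)])], [(17299, 17298)], 1),
    (18539, false, 1, [], [23], [(41, [(20, 2), (10, 2), (5, 2), (8, 5)]), (47, [(23, 2), (2, 23)]), (73, [(36, 2), (18, 2), (9, 2), (24, 3), (8, 3)]), (139, [(69, 2), (46, 3), (6, 23)]), (311, [(155, 2), (62, 5), (10, 31)]), (331, [(165, 2), (110, 3), (66, 5), (30, 11)]), (577, [(288, 2), (144, 2), (72, 2), (36, 2), (18, 2), (9, 2), (192, 3), (64, 3)])], [(17299, 17298)], 2),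
    (18787, false, 1, [], [], [(11, [(5, 2), (2, 5)]), (41, [(20, 2), (10, 2), (5, 2), (8, 5)]), (181, [(90, 2), (45, 2), (60, 3), (20, 3), (36, 5)]), (389, [(194, 2), (97, 2), (4, 97)])], [(17299, 17298)], 2),
    (18911, false, 1, [], [5], [(197, [(98, 2), (49, 2), (28, 7), (4, 7)]), (281, [(140, 2), (70, 2), (35, 2), (56, 5), (40, 7)]), (337, [(168, 2), (84, 2), (42, 2), (21, 2), (112, 3), (48, 7)]), (409, [(204, 2), (102, 2), (51, 2), (136, 3), (24, 17)])], [(17299, 17298)], 1),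
    (18973, false, 1, [], [3], [(577, [(288, 2), (144, 2), (72, 2), (36, 2), (18, 2), (9, 2), (192, 3), (64, 3)])], [(17299, 17298)], 1),
    (19469, false, 1, [], [], [], [(15377, 1922)], 0),
    (19531, false, 1, [], [3], [(577, [(288, 2), (144, 2), (72, 2), (36, 2), (18, 2), (9, 2), (192, 3), (64, 3)])], [(15377, 1922)], 1),
    (19717, false, 1, [], [], [], [(15377, 1922)], 0),
    (19841, false, 1, [], [], [], [(17299, 17298)], 0)] 2050 15901 = true := by
  decide +kernel

theorem ck37_801 : chunk WW (search 1 ef37 fqT GT FN37 4 37) 37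
    [(1777, true, 1, [(222, 2), (111, 2), (592, 3), (48, 37)], [], [], [(42649, 10662)], 0)] 1800 801 = true := by
  decide +kernel

theorem ck41_261 : chunk W23 (search 1 ef41 fqT GT FN41 4 41) 41
    [] 221 261 = true := by
  decide +kernel

theorem ck41_703 : chunk WW (search 1 ef41 fqT GT FN41 4 41) 41
    [(739, true, 1, [(246, 3), (82, 3), (18, 41)], [], [], [(2957, 739)], 0),
    (821, true, 1, [(164, 5), (20, 41)], [], [], [(24631, 12315)], 0),
    (1231, true, 1, [(410, 3), (246, 5), (30, 41)], [], [], [(36931, 12310)], 0),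
    (1559, true, 1, [(82, 19), (38, 41)], [], [], [(59243, 59242)], 0),
    (1723, false, 1, [], [], [(83, [(41, 2), (2, 41)]), (101, [(50, 2), (25, 2), (20, 5), (4, 5)]), (173, [(86, 2), (43, 2), (4, 43)]), (353, [(176, 2), (88, 2), (44, 2), (22, 2), (11, 2), (32, 11)]), (431, [(215, 2), (86, 5), (10, 43)])], [(16811, 1681)], 3),
    (2297, false, 1, [], [7], [(71, [(35, 2), (14, 5), (10, 7)])], [(16811, 1681)], 1),
    (2543, false, 1, [], [], [], [(16811, 1681)], 0),
    (2707, false, 1, [], [], [(7, [(3, 2), (2, 3)]), (13, [(6, 2), (3, 2), (4, 3)]), (29, [(14, 2), (7, 2), (4, 7)]), (43, [(21, 2), (14, 3), (6, 7)]), (71, [(35, 2), (14, 5), (10, 7)])], [(16811, 1681)], 1),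
    (2789, false, 1, [], [17], [(31, [(15, 2), (10, 3), (6, 5)]), (83, [(41, 2), (2, 41)]), (103, [(51, 2), (34, 3), (6, 17)]), (137, [(68, 2), (34, 2), (17, 2), (8, 17)]), (241, [(120, 2), (60, 2), (30, 2), (15, 2), (80, 3), (48, 5)])], [(16811, 1681)], 1),
    (2953, false, 1, [], [2, 3], [(29, [(14, 2), (7, 2), (4, 7)]), (71, [(35, 2), (14, 5), (10, 7)]), (397, [(198, 2), (99, 2), (132, 3), (44, 3), (36, 11)]), (463, [(231, 2), (154, 3), (66, 7), (42, 11)])], [(16811, 1681)], 2),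
    (3527, false, 1, [], [], [], [(16811, 1681)], 0),
    (3691, false, 1, [], [], [], [(16811, 1681)], 0),
    (4019, false, 1, [], [7], [(71, [(35, 2), (14, 5), (10, 7)])], [(16811, 1681)], 1)] 1849 703 = true := by
  decide +kernel

theorem ck43_241 : chunk W23 (search 1 ef43 fqT GT FN43 4 43) 43
    [(431, true, 1, [(10, 43)], [], [(11, [(5, 2), (2, 5)]), (71, [(35, 2), (14, 5), (10, 7)]), (281, [(140, 2), (70, 2), (35, 2), (56, 5), (40, 7)]), (449, [(224, 2), (112, 2), (56, 2), (28, 2), (14, 2), (7, 2), (64, 7)])], [(3449, 862)], 1)] 231 241 = true := by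
  decide +kernel

end Pool.Agent.NearSuper255
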