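import Pool.Agent.NearSuper255.TabX

/-!
# Ranges of excluded pairs, second part, file 7
-/

namespace Pool.Agent.NearSuper255

theorem ck43_703 : chunk WW (search 1 ef43 fqT GT FN43 4 43) 43
    [(947, true, 1, [(22, 43)], [], [(79, [(39, 2), (26, 3), (6, 13)])], [(24623, 24622)], 1),
    (1033, true, 1, [(129, 2), (344, 3), (24, 43)], [], [], [(16529, 1033)], 0),
    (1291, true, 1, [(30, 43)], [], [(19, [(9, 2), (6, 3), (2, 3)])], [(15493, 7746)], 1),
    (1549, true, 1, [(516, 3), (172, 3), (36, 43)], [], [], [(46471, 23235)], 0),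
    (1721, true, 1, [(344, 5), (40, 43)], [], [], [(51631, 8605)], 0),
    (1979, true, 1, [(86, 23), (46, 43)], [], [(5, [(2, 2), (1, 2)]), (37, [(18, 2), (9, 2), (12, 3), (4, 3)]), (163, [(81, 2), (54, 3), (18, 3), (6, 3), (2, 3)])], [(47497, 11874)], 1),
    (2237, false, 1, [], [], [(139, [(69, 2), (46, 3), (6, 23)]), (373, [(186, 2), (93, 2), (124, 3), (12, 31)])], [(22189, 11094)], 2),
    (2753, false, 1, [], [2], [(37, [(18, 2), (9, 2), (12, 3), (4, 3)])], [(22189, 11094)], 1),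
    (3011, false, 1, [], [5, 7], [(281, [(140, 2), (70, 2), (35, 2), (56, 5), (40, 7)])], [(22189, 11094)], 1),
    (3527, false, 1, [], [], [(173, [(86, 2), (43, 2), (4, 43)]), (1291, [(645, 2), (430, 3), (258, 5), (30, 43)])], [(77659, 77658)], 1),
    (3613, false, 1, [], [3, 7], [(281, [(140, 2), (70, 2), (35, 2), (56, 5), (40, 7)]), (431, [(215, 2), (86, 5), (10, 43)]), (461, [(230, 2), (115, 2), (92, 5), (20, 23)]), (691, [(345, 2), (230, 3), (138, 5), (30, 23)])], [(22189, 11094)], 2),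
    (4129, false, 1, [], [2, 3], [(139, [(69, 2), (46, 3), (6, 23)]), (193, [(96, 2), (48, 2), (24, 2), (12, 2), (6, 2), (3, 2), (64, 3)])], [(22189, 11094)], 1)] 1849 703 = true := by
  decide +kernel

theorem ck47_241 : chunk W23 (search 1 ef47 fqT GT FN47 4 47) 47
    [] 231 241 = true := by
  decide +kernel

theorem ck47_703 : chunk WW (search 1 ef47 fqT GT FN47 4 47) 47
    [(773, true, 1, [(4, 193)], [], [], [(4639, 2319)], 0),
    (1223, true, 1, [(94, 13), (26, 47)], [], [], [(31799, 31798)], 0),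
    (1283, false, 1, [(2, 23)], [], [(61, [(30, 2), (15, 2), (20, 3), (12, 5)]), (277, [(138, 2), (69, 2), (92, 3), (12, 23)])], [(12973, 6486)], 2),
    (1693, true, 1, [(36, 47)], [], [], [(10159, 5079)], 0),
    (1787, false, 1, [], [19], [(67, [(33, 2), (22, 3), (6, 11)]), (283, [(141, 2), (94, 3), (6, 47)]), (419, [(209, 2), (38, 11), (22, 19)]), (571, [(285, 2), (190, 3), (114, 5), (30, 19)])], [(8837, 4418)], 3),
    (2063, true, 1, [(2, 1031)], [], [(43, [(21, 2), (14, 3), (6, 7)])], [(895343, 895342)], 1),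
    (2069, false, 1, [], [], [(5, [(2, 2), (1, 2)]), (17, [(8, 2), (4, 2), (2, 2), (1, 2)]), (113, [(56, 2), (28, 2), (14, 2), (7, 2), (16, 7)]), (157, [(78, 2), (39, 2), (52, 3), (12, 13)]), (283, [(141, 2), (94, 3), (6, 47)]), (337, [(168, 2), (84, 2), (42, 2), (21, 2), (112, 3), (48, 7)]), (449, [(224, 2), (112, 2), (56, 2), (28, 2), (14, 2), (7, 2), (64, 7)]), (577, [(288, 2), (144, 2), (72, 2), (36, 2), (18, 2), (9, 2), (192, 3), (64, 3)])], [(8837, 4418)], 2),
    (2207, true, 1, [(2, 1103)], [], [], [(2661643, 887214)], 0),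
    (3803, false, 1, [(2, 23)], [], [(17, [(8, 2), (4, 2), (2, 2), (1, 2)]), (317, [(158, 2), (79, 2), (4, 79)])], [(8837, 4418)], 2),
    (4363, false, 1, [(2, 23)], [], [(61, [(30, 2), (15, 2), (20, 3), (12, 5)]), (277, [(138, 2), (69, 2), (92, 3), (12, 23)])], [(12973, 6486)], 2),
    (4463, false, 1, [(2, 23)], [], [], [(20399, 2914)], 0),
    (4603, false, 1, [(2, 23)], [], [], [(38917, 2162)], 0),
    (4679, false, 1, [(2, 23)], [], [(5, [(2, 2), (1, 2)]), (17, [(8, 2), (4, 2), (2, 2), (1, 2)]), (457, [(228, 2), (114, 2), (57, 2), (152, 3), (24, 19)]), (571, [(285, 2), (190, 3), (114, 5), (30, 19)])], [(12503, 12502)], 1),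
    (4889, false, 1, [], [], [(283, [(141, 2), (94, 3), (6, 47)])], [(8837, 4418)], 1),
    (4937, false, 1, [(2, 23)], [], [(103, [(51, 2), (34, 3), (6, 17)]), (823, [(411, 2), (274, 3), (6, 137)])], [(283, 282)], 2),
    (5077, false, 1, [], [3], [(37, [(18, 2), (9, 2), (12, 3), (4, 3)]), (283, [(141, 2), (94, 3), (6, 47)])], [(8837, 4418)], 1),
    (5641, false, 1, [], [], [(37, [(18, 2), (9, 2), (12, 3), (4, 3)]), (283, [(141, 2), (94, 3), (6, 47)])], [(8837, 4418)], 2)] 2500 703 = true := by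
  decide +kernel

theorem ck47_5703 : chunk WW (search 1 ef47 fqT GT FN47 4 47) 47
    [(5843, false, 1, [(2, 23)], [], [], [(14947, 4982)], 0),
    (5849, false, 47, [(2, 23)], [], [], [(53017, 4418)], 0),
    (6299, false, 1, [], [], [(7, [(3, 2), (2, 3)]), (103, [(51, 2), (34, 3), (6, 17)]), (283, [(141, 2), (94, 3), (6, 47)])], [(8837, 4418)], 1),
    (6827, false, 1, [(2, 23)], [], [(97, [(48, 2), (24, 2), (12, 2), (6, 2), (3, 2), (32, 3)]), (569, [(284, 2), (142, 2), (71, 2), (8, 71)])], [(13537, 752)], 2),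
    (7703, false, 47, [(2, 23)], [], [], [(22091, 4418)], 0),
    (7927, false, 1, [(2, 23)], [], [(103, [(51, 2), (34, 3), (6, 17)]), (991, [(495, 2), (330, 3), (110, 3), (198, 5), (90, 11)])], [(36943, 36942)], 2),
    (8837, false, 1, [], [], [(283, [(141, 2), (94, 3), (6, 47)]), (491, [(245, 2), (98, 5), (70, 7), (10, 7)]), (1471, [(735, 2), (490, 3), (294, 5), (210, 7), (30, 7)])], [(22091, 4418)], 1),
    (8963, false, 1, [(2, 23)], [], [(691, [(345, 2), (230, 3), (138, 5), (30, 23)]), (1151, [(575, 2), (230, 5), (46, 5), (50, 23)])], [(2351, 2350)], 1),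
    (9227, false, 1, [(2, 23)], [], [], [(15511, 94)], 0),
    (9293, false, 1, [(2, 23)], [], [(691, [(345, 2), (230, 3), (138, 5), (30, 23)]), (1381, [(690, 2), (345, 2), (460, 3), (276, 5), (60, 23)])], [(12973, 6486)], 1),
    (9467, false, 1, [(2, 23)], [], [(311, [(155, 2), (62, 5), (10, 31)]), (1427, [(713, 2), (62, 23), (46, 31)])], [(11657, 5828)], 2),
    (9677, false, 1, [(2, 23)], [], [(1613, [(806, 2), (403, 2), (124, 13), (52, 31)]), (2237, [(1118, 2), (559, 2), (172, 13), (52, 43)])], [(84319, 84318)], 1),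
    (10247, false, 1, [], [], [(7, [(3, 2), (2, 3)]), (37, [(18, 2), (9, 2), (12, 3), (4, 3)]), (283, [(141, 2), (94, 3), (6, 47)])], [(8837, 4418)], 1),
    (10567, false, 1, [(2, 23)], [], [(131, [(65, 2), (26, 5), (10, 13)]), (599, [(299, 2), (46, 13), (26, 23)])], [(7333, 1222)], 2)] 2500 5703 = true := by
  decide +kernel

theorem ck47_10703 : chunk WW (search 1 ef47 fqT GT FN47 4 47) 47
    [(10883, false, 1, [(2, 23)], [], [(461, [(230, 2), (115, 2), (92, 5), (20, 23)]), (521, [(260, 2), (130, 2), (65, 2), (104, 5), (40, 13)])], [(12973, 6486)], 1),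
    (10957, false, 1, [(2, 23)], [11], [(829, [(414, 2), (207, 2), (276, 3), (92, 3), (36, 23)]), (1453, [(726, 2), (363, 2), (484, 3), (132, 11), (12, 11)])], [(34123, 34122)], 1),
    (11093, false, 1, [], [], [], [(994051, 994050)], 0),
    (11257, false, 1, [(2, 23)], [], [(109, [(54, 2), (27, 2), (36, 3), (12, 3), (4, 3)]), (433, [(216, 2), (108, 2), (54, 2), (27, 2), (144, 3), (48, 3), (16, 3)])], [(12973, 6486)], 2),
    (12071, false, 1, [(2, 23)], [], [], [(65519, 94)], 0),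
    (13487, false, 1, [(2, 23)], [], [], [(11093, 2773)], 0)] 1649 10703 = true := by
  decide +kernel

theorem ck53_1601 : chunk WW (search 1 ef53 fqT GT FN53 4 53) 53
    [(1697, true, 1, [(212, 2), (106, 2), (53, 2), (32, 53)], [], [(17, [(8, 2), (4, 2), (2, 2), (1, 2)]), (61, [(30, 2), (15, 2), (20, 3), (12, 5)]), (131, [(65, 2), (26, 5), (10, 13)])], [(33941, 8485)], 1),
    (1907, false, 1, [], [], [], [(46853, 11713)], 0),
    (2333, false, 1, [], [], [(107, [(53, 2), (2, 53)]), (281, [(140, 2), (70, 2), (35, 2), (56, 5), (40, 7)]), (389, [(194, 2), (97, 2), (4, 97)])], [(78653, 39326)], 2),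
    (2969, false, 1, [], [2], [(281, [(140, 2), (70, 2), (35, 2), (56, 5), (40, 7)])], [(78653, 39326)], 1),
    (3181, false, 1, [], [5], [(43, [(21, 2), (14, 3), (6, 7)]), (61, [(30, 2), (15, 2), (20, 3), (12, 5)]), (113, [(56, 2), (28, 2), (14, 2), (7, 2), (16, 7)]), (131, [(65, 2), (26, 5), (10, 13)])], [(78653, 39326)], 2),
    (3499, false, 1, [], [3], [(409, [(204, 2), (102, 2), (51, 2), (136, 3), (24, 17)])], [(95507, 47753)], 1),
    (3709, false, 1, [], [3], [(409, [(204, 2), (102, 2), (51, 2), (136, 3), (24, 17)])], [(5407, 2703)], 1),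
    (3779, false, 1, [(4, 13)], [], [(7, [(3, 2), (2, 3)]), (409, [(204, 2), (102, 2), (51, 2), (136, 3), (24, 17)])], [(8269, 689)], 1),
    (3923, false, 1, [], [], [(109, [(54, 2), (27, 2), (36, 3), (12, 3), (4, 3)]), (281, [(140, 2), (70, 2), (35, 2), (56, 5), (40, 7)]), (449, [(224, 2), (112, 2), (56, 2), (28, 2), (14, 2), (7, 2), (64, 7)])], [(78653, 39326)], 1),
    (3947, false, 1, [(4, 13)], [], [(7, [(3, 2), (2, 3)]), (47, [(23, 2), (2, 23)]), (139, [(69, 2), (46, 3), (6, 23)]), (277, [(138, 2), (69, 2), (92, 3), (12, 23)]), (281, [(140, 2), (70, 2), (35, 2), (56, 5), (40, 7)])], [(13781, 6890)], 1),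
    (4241, false, 1, [], [2], [(281, [(140, 2), (70, 2), (35, 2), (56, 5), (40, 7)])], [(78653, 39326)], 1)] 1400 1601 = true := by
  decide +kernel

theorem ck59_401 : chunk W23 (search 1 ef59 fqT GT FN59 4 59) 59
    [(499, false, 1, [(2, 29)], [], [], [(28793, 14396)], 0)] 151 401 = true := by
  decide +kernel

theorem ck59_703 : chunk WW (search 1 ef59 fqT GT FN59 4 59) 59
    [(709, true, 1, [(12, 59)], [], [], [(2837, 709)], 0),
    (827, true, 1, [(118, 7), (14, 59)], [], [], [(11579, 1654)], 0),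
    (1061, false, 1, [], [], [], [(53101, 1475)], 0),
    (1063, true, 1, [(118, 3), (18, 59)], [], [], [(6379, 2126)], 0),
    (1181, true, 1, [(236, 5), (20, 59)], [], [(43, [(21, 2), (14, 3), (6, 7)]), (101, [(50, 2), (25, 2), (20, 5), (4, 5)]), (127, [(63, 2), (42, 3), (14, 3), (18, 7)]), (151, [(75, 2), (50, 3), (30, 5), (6, 5)]), (197, [(98, 2), (49, 2), (28, 7), (4, 7)])], [(14173, 3543)], 2),
    (1439, true, 1, [(2, 719)], [], [], [(25903, 2878)], 0),
    (1613, false, 1, [(2, 29)], [], [(5, [(2, 2), (1, 2)]), (41, [(20, 2), (10, 2), (5, 2), (8, 5)]), (181, [(90, 2), (45, 2), (60, 3), (20, 3), (36, 5)]), (233, [(116, 2), (58, 2), (29, 2), (8, 29)]), (593, [(296, 2), (148, 2), (74, 2), (37, 2), (16, 37)])], [(13099, 4366)], 2),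
    (1889, true, 1, [(118, 2), (59, 2), (32, 59)], [], [], [(45337, 22668)], 0),
    (2039, false, 1, [(2, 29)], [], [(233, [(116, 2), (58, 2), (29, 2), (8, 29)]), (593, [(296, 2), (148, 2), (74, 2), (37, 2), (16, 37)])], [(13099, 4366)], 1),
    (2087, false, 1, [(2, 29)], [], [(5, [(2, 2), (1, 2)]), (17, [(8, 2), (4, 2), (2, 2), (1, 2)]), (593, [(296, 2), (148, 2), (74, 2), (37, 2), (16, 37)])], [(13099, 4366)], 1),
    (2243, false, 1, [], [], [], [(20887, 6962)], 0),
    (2819, false, 1, [(2, 29)], [], [(349, [(174, 2), (87, 2), (116, 3), (12, 29)])], [(10267, 10266)], 1),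
    (2833, false, 1, [], [3], [(163, [(81, 2), (54, 3), (18, 3), (6, 3), (2, 3)])], [(20887, 6962)], 1),
    (2957, false, 1, [(2, 29)], [], [(17, [(8, 2), (4, 2), (2, 2), (1, 2)]), (233, [(116, 2), (58, 2), (29, 2), (8, 29)]), (593, [(296, 2), (148, 2), (74, 2), (37, 2), (16, 37)])], [(10267, 10266)], 2),
    (3187, false, 1, [], [3], [(163, [(81, 2), (54, 3), (18, 3), (6, 3), (2, 3)])], [(20887, 6962)], 1),
    (3541, false, 1, [], [3], [(163, [(81, 2), (54, 3), (18, 3), (6, 3), (2, 3)])], [(20887, 6962)], 1),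
    (3659, false, 1, [], [], [(61, [(30, 2), (15, 2), (20, 3), (12, 5)]), (163, [(81, 2), (54, 3), (18, 3), (6, 3), (2, 3)])], [(20887, 6962)], 1),
    (3931, false, 1, [(2, 29)], [], [(349, [(174, 2), (87, 2), (116, 3), (12, 29)]), (523, [(261, 2), (174, 3), (58, 3), (18, 29)])], [(14869, 126)], 1),
    (4013, false, 1, [], [17], [(137, [(68, 2), (34, 2), (17, 2), (8, 17)]), (313, [(156, 2), (78, 2), (39, 2), (104, 3), (24, 13)]), (443, [(221, 2), (34, 13), (26, 17)]), (613, [(306, 2), (153, 2), (204, 3), (68, 3), (36, 17)]), (709, [(354, 2), (177, 2), (236, 3), (12, 59)])], [(20887, 6962)], 2)] 1849 703 = true := by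
  decide +kernel

theorem ck61_331 : chunk W23 (search 1 ef61 fqT GT FN61 4 61) 61
    [(367, true, 1, [(122, 3), (6, 61)], [], [], [(6607, 2202)], 0)] 186 331 = true := by
  decide +kernel

end Pool.Agent.NearSuper255
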