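import Pool.Agent.NearSuper255.TabX

/-!
# Ranges of excluded pairs, second part, file 8
-/

namespace Pool.Agent.NearSuper255

theorem ck61_703 : chunk WW (search 1 ef61 fqT GT FN61 4 61) 61
    [(733, true, 1, [(244, 3), (12, 61)], [], [], [(7331, 733)], 0),
    (977, true, 1, [(16, 61)], [], [], [(13679, 977)], 0),
    (1709, true, 1, [(244, 7), (28, 61)], [], [(19, [(9, 2), (6, 3), (2, 3)])], [(20509, 5127)], 1),
    (1831, true, 1, [(610, 3), (366, 5), (30, 61)], [], [], [(18311, 18310)], 0),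
    (2441, false, 1, [], [], [(31, [(15, 2), (10, 3), (6, 5)]), (37, [(18, 2), (9, 2), (12, 3), (4, 3)]), (41, [(20, 2), (10, 2), (5, 2), (8, 5)]), (101, [(50, 2), (25, 2), (20, 5), (4, 5)]), (131, [(65, 2), (26, 5), (10, 13)]), (151, [(75, 2), (50, 3), (30, 5), (6, 5)])], [(1160953, 44652)], 2)] 1000 703 = true := by
  decide +kernel

theorem ck61_2703 : chunk WW (search 1 ef61 fqT GT FN61 4 61) 61
    [(3539, false, 1, [], [], [(31, [(15, 2), (10, 3), (6, 5)])], [(580477, 96746)], 1),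
    (3659, false, 1, [], [], [], [(269377, 2806)], 0),
    (4027, false, 1, [], [], [(53, [(26, 2), (13, 2), (4, 13)]), (79, [(39, 2), (26, 3), (6, 13)])], [(1897711, 189771)], 1),
    (4271, false, 1, [], [5, 7], [(89, [(44, 2), (22, 2), (11, 2), (8, 11)]), (113, [(56, 2), (28, 2), (14, 2), (7, 2), (16, 7)]), (127, [(63, 2), (42, 3), (14, 3), (18, 7)]), (131, [(65, 2), (26, 5), (10, 13)]), (157, [(78, 2), (39, 2), (52, 3), (12, 13)])], [(1406539, 100467)], 2),
    (4637, false, 1, [], [19], [(31, [(15, 2), (10, 3), (6, 5)]), (43, [(21, 2), (14, 3), (6, 7)]), (71, [(35, 2), (14, 5), (10, 7)]), (97, [(48, 2), (24, 2), (12, 2), (6, 2), (3, 2), (32, 3)]), (127, [(63, 2), (42, 3), (14, 3), (18, 7)]), (191, [(95, 2), (38, 5), (10, 19)])], [(1979573, 494893)], 2)] 1000 2703 = true := by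
  decide +kernel

theorem ck61_4703 : chunk WW (search 1 ef61 fqT GT FN61 4 61) 61
    [(4759, false, 1, [], [13], [(79, [(39, 2), (26, 3), (6, 13)])], [(1160953, 44652)], 1),
    (5003, false, 1, [], [], [(31, [(15, 2), (10, 3), (6, 5)])], [(1897711, 189771)], 1),
    (5857, false, 1, [], [3], [(97, [(48, 2), (24, 2), (12, 2), (6, 2), (3, 2), (32, 3)]), (101, [(50, 2), (25, 2), (20, 5), (4, 5)]), (131, [(65, 2), (26, 5), (10, 13)])], [(1160953, 44652)], 1),
    (6101, false, 1, [], [5], [(31, [(15, 2), (10, 3), (6, 5)]), (131, [(65, 2), (26, 5), (10, 13)])], [(334891, 167445)], 1)] 1000 4703 = true := by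
  decide +kernel

theorem ck61_6703 : chunk WW (search 1 ef61 fqT GT FN61 4 61) 61
    [(6833, false, 1, [], [], [(31, [(15, 2), (10, 3), (6, 5)]), (97, [(48, 2), (24, 2), (12, 2), (6, 2), (3, 2), (32, 3)]), (131, [(65, 2), (26, 5), (10, 13)]), (151, [(75, 2), (50, 3), (30, 5), (6, 5)])], [(1160953, 44652)], 2),
    (7321, false, 1, [], [5], [(97, [(48, 2), (24, 2), (12, 2), (6, 2), (3, 2), (32, 3)]), (131, [(65, 2), (26, 5), (10, 13)]), (157, [(78, 2), (39, 2), (52, 3), (12, 13)])], [(1220489, 610244)], 2),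
    (7687, false, 1, [], [3, 7], [(97, [(48, 2), (24, 2), (12, 2), (6, 2), (3, 2), (32, 3)]), (127, [(63, 2), (42, 3), (14, 3), (18, 7)])], [(937693, 468846)], 1),
    (8053, false, 1, [], [3], [(97, [(48, 2), (24, 2), (12, 2), (6, 2), (3, 2), (32, 3)])], [(1116301, 915)], 1),
    (8297, false, 1, [], [], [(31, [(15, 2), (10, 3), (6, 5)])], [(1116301, 915)], 1),
    (8419, false, 1, [], [23], [(31, [(15, 2), (10, 3), (6, 5)]), (47, [(23, 2), (2, 23)]), (101, [(50, 2), (25, 2), (20, 5), (4, 5)]), (131, [(65, 2), (26, 5), (10, 13)])], [(2225159, 1112579)], 1),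
    (8663, false, 1, [], [], [], [(334891, 167445)], 0)] 1000 6703 = true := by
  decide +kernel

theorem ck61_8703 : chunk WW (search 1 ef61 fqT GT FN61 4 61) 61
    [(9029, false, 1, [], [], [(41, [(20, 2), (10, 2), (5, 2), (8, 5)]), (43, [(21, 2), (14, 3), (6, 7)]), (97, [(48, 2), (24, 2), (12, 2), (6, 2), (3, 2), (32, 3)]), (131, [(65, 2), (26, 5), (10, 13)])], [(1160953, 44652)], 2),
    (9151, false, 1, [], [3], [], [(334891, 167445)], 0),
    (9883, false, 1, [], [], [], [(267913, 133956)], 0)] 1000 8703 = true := by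
  decide +kernel

theorem ck61_10703 : chunk WW (search 1 ef61 fqT GT FN61 4 61) 61
    [(10859, false, 1, [], [], [(31, [(15, 2), (10, 3), (6, 5)]), (41, [(20, 2), (10, 2), (5, 2), (8, 5)]), (97, [(48, 2), (24, 2), (12, 2), (6, 2), (3, 2), (32, 3)]), (131, [(65, 2), (26, 5), (10, 13)]), (181, [(90, 2), (45, 2), (60, 3), (20, 3), (36, 5)])], [(1160953, 44652)], 3),
    (11471, false, 1, [(12, 5)], [5], [(103, [(51, 2), (34, 3), (6, 17)]), (239, [(119, 2), (34, 7), (14, 17)])], [(1831, 915)], 2),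
    (12323, false, 1, [], [], [(31, [(15, 2), (10, 3), (6, 5)]), (97, [(48, 2), (24, 2), (12, 2), (6, 2), (3, 2), (32, 3)]), (151, [(75, 2), (50, 3), (30, 5), (6, 5)])], [(1830733, 457683)], 2),
    (12689, false, 1, [], [2, 13], [(31, [(15, 2), (10, 3), (6, 5)]), (47, [(23, 2), (2, 23)]), (53, [(26, 2), (13, 2), (4, 13)]), (139, [(69, 2), (46, 3), (6, 23)]), (193, [(96, 2), (48, 2), (24, 2), (12, 2), (6, 2), (3, 2), (64, 3)])], [(2225159, 1112579)], 2)] 1000 10703 = true := by
  decide +kernel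

theorem ck61_12703 : chunk WW (search 1 ef61 fqT GT FN61 4 61) 61
    [(13177, false, 1, [], [3], [(31, [(15, 2), (10, 3), (6, 5)]), (97, [(48, 2), (24, 2), (12, 2), (6, 2), (3, 2), (32, 3)]), (113, [(56, 2), (28, 2), (14, 2), (7, 2), (16, 7)]), (127, [(63, 2), (42, 3), (14, 3), (18, 7)])], [(1823291, 182329)], 1),
    (13421, false, 1, [], [11], [(199, [(99, 2), (66, 3), (22, 3), (18, 11)])], [(245587, 40931)], 1)] 649 12703 = true := by
  decide +kernel

theorem ck67_241 : chunk W23 (search 1 ef67 fqT GT FN67 4 67) 67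
    [(269, true, 1, [(4, 67)], [], [], [(5381, 2690)], 0)] 231 241 = true := by
  decide +kernel

theorem ck67_703 : chunk WW (search 1 ef67 fqT GT FN67 4 67) 67
    [] 49 703 = true := by
  decide +kernel

theorem ck71_241 : chunk W23 (search 1 ef71 fqT GT FN71 4 71) 71
    [(359, true, 1, [(2, 179)], [], [], [(719, 718)], 0),
    (431, false, 1, [], [5], [(211, [(105, 2), (70, 3), (42, 5), (30, 7)])], [(10651, 10650)], 1),
    (463, false, 1, [], [7], [(883, [(441, 2), (294, 3), (98, 3), (126, 7), (18, 7)])], [(26839, 426)], 1),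
    (467, true, 1, [(2, 233)], [], [(13, [(6, 2), (3, 2), (4, 3)])], [(2803, 2802)], 1),
    (569, true, 1, [(71, 2), (8, 71)], [], [(19, [(9, 2), (6, 3), (2, 3)])], [(10243, 569)], 1)] 231 241 = true := by
  decide +kernel

theorem ck71_703 : chunk WW (search 1 ef71 fqT GT FN71 4 71) 71
    [(853, true, 1, [(284, 3), (12, 71)], [], [], [(3413, 853)], 0),
    (1061, true, 1, [(265, 2), (212, 5), (20, 53)], [5], [], [(21221, 10610)], 0),
    (1237, false, 1, [(10, 7)], [], [], [(29537, 3692)], 0),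
    (1279, true, 1, [(142, 3), (18, 71)], [], [], [(30697, 5116)], 0),
    (1283, false, 1, [(14, 5)], [], [(11, [(5, 2), (2, 5)]), (211, [(105, 2), (70, 3), (42, 5), (30, 7)])], [(4261, 1065)], 1),
    (1847, true, 1, [(142, 13), (26, 71)], [], [], [(11083, 11082)], 0),
    (2131, false, 1, [], [5], [], [(50411, 50410)], 0),
    (2153, false, 1, [(10, 7)], [2], [(359, [(179, 2), (2, 179)]), (1433, [(716, 2), (358, 2), (179, 2), (8, 179)])], [(569, 284)], 1),
    (2273, false, 1, [], [2], [(181, [(90, 2), (45, 2), (60, 3), (20, 3), (36, 5)]), (379, [(189, 2), (126, 3), (42, 3), (14, 3), (54, 7)]), (661, [(330, 2), (165, 2), (220, 3), (132, 5), (60, 11)]), (757, [(378, 2), (189, 2), (252, 3), (84, 3), (28, 3), (108, 7)])], [(50411, 50410)], 2),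
    (2557, false, 1, [], [3], [(109, [(54, 2), (27, 2), (36, 3), (12, 3), (4, 3)]), (193, [(96, 2), (48, 2), (24, 2), (12, 2), (6, 2), (3, 2), (64, 3)]), (433, [(216, 2), (108, 2), (54, 2), (27, 2), (144, 3), (48, 3), (16, 3)]), (449, [(224, 2), (112, 2), (56, 2), (28, 2), (14, 2), (7, 2), (64, 7)]), (577, [(288, 2), (144, 2), (72, 2), (36, 2), (18, 2), (9, 2), (192, 3), (64, 3)]), (631, [(315, 2), (210, 3), (70, 3), (126, 5), (90, 7)]), (641, [(320, 2), (160, 2), (80, 2), (40, 2), (20, 2), (10, 2), (5, 2), (128, 5)])], [(50411, 50410)], 2),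
    (2657, false, 1, [(10, 7)], [], [(239, [(119, 2), (34, 7), (14, 17)]), (443, [(221, 2), (34, 13), (26, 17)])], [(7243, 7242)], 2),
    (2699, false, 1, [], [19], [(191, [(95, 2), (38, 5), (10, 19)]), (211, [(105, 2), (70, 3), (42, 5), (30, 7)]), (229, [(114, 2), (57, 2), (76, 3), (12, 19)]), (1279, [(639, 2), (426, 3), (142, 3), (18, 71)])], [(50411, 50410)], 3)] 1000 703 = true := by
  decide +kernel

theorem ck71_2703 : chunk WW (search 1 ef71 fqT GT FN71 4 71) 71
    [(2803, false, 1, [(10, 7)], [], [], [(33797, 2414)], 0),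
    (3083, false, 1, [(10, 7)], [], [], [(17609, 2201)], 0),
    (3407, false, 1, [], [13], [(79, [(39, 2), (26, 3), (6, 13)])], [(101531, 101530)], 1),
    (3833, false, 1, [], [2], [(2129, [(1064, 2), (532, 2), (266, 2), (133, 2), (304, 7), (112, 19)]), (2521, [(1260, 2), (630, 2), (315, 2), (840, 3), (280, 3), (504, 5), (360, 7)])], [(74551, 74550)], 2),
    (4013, false, 1, [(10, 7)], [17], [(223, [(111, 2), (74, 3), (6, 37)]), (409, [(204, 2), (102, 2), (51, 2), (136, 3), (24, 17)])], [(7243, 7242)], 1),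
    (4091, false, 1, [(14, 5), (10, 7)], [], [(31, [(15, 2), (10, 3), (6, 5)]), (191, [(95, 2), (38, 5), (10, 19)]), (571, [(285, 2), (190, 3), (114, 5), (30, 19)])], [(2699, 2698)], 2)] 721 2703 = true := by
  decide +kernel

theorem ck73_241 : chunk W23 (search 1 ef73 fqT GT FN73 4 73) 73
    [(293, true, 1, [(4, 73)], [], [], [(587, 293)], 0),
    (439, true, 1, [(6, 73)], [], [(31, [(15, 2), (10, 3), (6, 5)]), (37, [(18, 2), (9, 2), (12, 3), (4, 3)])], [(13171, 4390)], 2)] 231 241 = true := by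
  decide +kernel

theorem ck73_703 : chunk WW (search 1 ef73 fqT GT FN73 4 73) 73
    [(877, true, 1, [(292, 3), (12, 73)], [], [(5, [(2, 2), (1, 2)]), (41, [(20, 2), (10, 2), (5, 2), (8, 5)]), (241, [(120, 2), (60, 2), (30, 2), (15, 2), (80, 3), (48, 5)]), (293, [(146, 2), (73, 2), (4, 73)])], [(14033, 877)], 2)] 443 703 = true := by
  decide +kernel

theorem ck79_241 : chunk W23 (search 1 ef79 fqT GT FN79 4 79) 79
    [(317, true, 1, [(4, 79)], [], [(53, [(26, 2), (13, 2), (4, 13)])], [(8243, 4121)], 1)] 231 241 = true := by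
  decide +kernel

theorem ck79_703 : chunk WW (search 1 ef79 fqT GT FN79 4 79) 79
    [(1423, true, 1, [(474, 3), (158, 3), (18, 79)], [], [], [(17077, 8538)], 0),
    (1439, false, 1, [(6, 13)], [], [], [(59567, 59566)], 0)] 605 703 = true := by
  decide +kernel

theorem ck83_241 : chunk W23 (search 1 ef83 fqT GT FN83 4 83) 83
    [(499, true, 1, [(6, 83)], [], [(7, [(3, 2), (2, 3)]), (67, [(33, 2), (22, 3), (6, 11)])], [(10979, 998)], 1)] 231 241 = true := by
  decide +kernel

theorem ck83_703 : chunk WW (search 1 ef83 fqT GT FN83 4 83) 83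
    [] 90 703 = true := by
  decide +kernel

end Pool.Agent.NearSuper255
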