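import Pool.Agent.NearSuper255.TabX

/-!
# Ranges of excluded pairs, second part, file 9
-/

namespace Pool.Agent.NearSuper255

theorem ck89_241 : chunk W23 (search 1 ef89 fqT GT FN89 4 89) 89
    [] 231 241 = true := by
  decide +kernel

theorem ck89_703 : chunk WW (search 1 ef89 fqT GT FN89 4 89) 89
    [] 49 703 = true := by
  decide +kernel

theorem ck113_661 : chunk W23 (search 1 ef113 fqT GT FN113 4 113) 113
    [] 21 661 = true := by
  decide +kernel

theorem ck113_703 : chunk WW (search 1 ef113 fqT GT FN113 4 113) 113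
    [(1583, true, 1, [(226, 7), (14, 113)], [], [(19, [(9, 2), (6, 3), (2, 3)]), (157, [(78, 2), (39, 2), (52, 3), (12, 13)])], [(37993, 18996)], 1)] 1000 703 = true := by
  decide +kernel

theorem ck113_2703 : chunk WW (search 1 ef113 fqT GT FN113 4 113) 113
    [(2713, false, 1, [], [], [(19, [(9, 2), (6, 3), (2, 3)]), (163, [(81, 2), (54, 3), (18, 3), (6, 3), (2, 3)]), (271, [(135, 2), (90, 3), (30, 3), (10, 3), (54, 5)])], [(127691, 63845)], 1),
    (2939, false, 1, [], [], [(19, [(9, 2), (6, 3), (2, 3)]), (211, [(105, 2), (70, 3), (42, 5), (30, 7)]), (251, [(125, 2), (50, 5), (10, 5), (2, 5)])], [(127691, 63845)], 1),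
    (3391, false, 1, [], [], [], [(127691, 63845)], 0),
    (3617, false, 1, [], [2], [(41, [(20, 2), (10, 2), (5, 2), (8, 5)]), (67, [(33, 2), (22, 3), (6, 11)]), (97, [(48, 2), (24, 2), (12, 2), (6, 2), (3, 2), (32, 3)]), (251, [(125, 2), (50, 5), (10, 5), (2, 5)])], [(127691, 63845)], 2)] 1000 2703 = true := by
  decide +kernel

theorem ck113_4703 : chunk WW (search 1 ef113 fqT GT FN113 4 113) 113
    [(4973, false, 1, [], [], [(19, [(9, 2), (6, 3), (2, 3)]), (73, [(36, 2), (18, 2), (9, 2), (24, 3), (8, 3)]), (127, [(63, 2), (42, 3), (14, 3), (18, 7)]), (281, [(140, 2), (70, 2), (35, 2), (56, 5), (40, 7)])], [(127691, 63845)], 1),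
    (5651, false, 1, [], [], [(227, [(113, 2), (2, 113)])], [(127691, 63845)], 1),
    (6329, false, 1, [], [], [(19, [(9, 2), (6, 3), (2, 3)]), (31, [(15, 2), (10, 3), (6, 5)]), (227, [(113, 2), (2, 113)]), (251, [(125, 2), (50, 5), (10, 5), (2, 5)])], [(127691, 63845)], 1)] 1000 4703 = true := by
  decide +kernel

theorem ck113_6703 : chunk WW (search 1 ef113 fqT GT FN113 4 113) 113
    [(6781, false, 1, [], [3, 5], [(691, [(345, 2), (230, 3), (138, 5), (30, 23)])], [(127691, 63845)], 1),
    (7459, false, 1, [], [11], [(617, [(308, 2), (154, 2), (77, 2), (88, 7), (56, 11)]), (673, [(336, 2), (168, 2), (84, 2), (42, 2), (21, 2), (224, 3), (96, 7)]), (701, [(350, 2), (175, 2), (140, 5), (28, 5), (100, 7)])], [(127691, 63845)], 1),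
    (8363, false, 1, [], [], [(227, [(113, 2), (2, 113)])], [(127691, 63845)], 1)] 1000 6703 = true := by
  decide +kernel

theorem ck113_8703 : chunk WW (search 1 ef113 fqT GT FN113 4 113) 113
    [(9041, false, 1, [], [5], [(251, [(125, 2), (50, 5), (10, 5), (2, 5)])], [(127691, 63845)], 1),
    (9719, false, 1, [], [], [], [(127691, 63845)], 0)] 1000 8703 = true := by
  decide +kernel

theorem ck113_10703 : chunk WW (search 1 ef113 fqT GT FN113 4 113) 113
    [(11527, false, 1, [], [], [(11, [(5, 2), (2, 5)]), (251, [(125, 2), (50, 5), (10, 5), (2, 5)])], [(127691, 63845)], 1)] 1000 10703 = true := by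
  decide +kernel

theorem ck113_12703 : chunk WW (search 1 ef113 fqT GT FN113 4 113) 113
    [] 77 12703 = true := by
  decide +kernel

theorem ck127_401 : chunk W23 (search 1 ef127 fqT GT FN127 4 127) 127
    [(509, true, 1, [(4, 127)], [], [(17, [(8, 2), (4, 2), (2, 2), (1, 2)]), (137, [(68, 2), (34, 2), (17, 2), (8, 17)]), (461, [(230, 2), (115, 2), (92, 5), (20, 23)])], [(10181, 5090)], 1)] 151 401 = true := by
  decide +kernel

theorem ck127_703 : chunk WW (search 1 ef127 fqT GT FN127 4 127) 127
    [] 124 703 = true := by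
  decide +kernel

theorem ck131_371 : chunk W23 (search 1 ef131 fqT GT FN131 4 131) 131
    [] 166 371 = true := by
  decide +kernel

theorem ck131_703 : chunk WW (search 1 ef131 fqT GT FN131 4 131) 131
    [(787, true, 1, [(262, 3), (6, 131)], [], [(197, [(98, 2), (49, 2), (28, 7), (4, 7)])], [(22037, 5509)], 1)] 49 703 = true := by
  decide +kernel

theorem ck137_331 : chunk W23 (search 1 ef137 fqT GT FN137 4 137) 137
    [] 186 331 = true := by
  decide +kernel

theorem ck137_703 : chunk WW (search 1 ef137 fqT GT FN137 4 137) 137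
    [] 49 703 = true := by
  decide +kernel

theorem ck139_321 : chunk W23 (search 1 ef139 fqT GT FN139 4 139) 139
    [(557, true, 1, [(4, 139)], [], [(17, [(8, 2), (4, 2), (2, 2), (1, 2)]), (31, [(15, 2), (10, 3), (6, 5)]), (41, [(20, 2), (10, 2), (5, 2), (8, 5)])], [(4457, 557)], 2)] 191 321 = true := by
  decide +kernel

theorem ck139_703 : chunk WW (search 1 ef139 fqT GT FN139 4 139) 139
    [] 49 703 = true := by
  decide +kernel

theorem ck149_281 : chunk W23 (search 1 ef149 fqT GT FN149 4 149) 149
    [] 211 281 = true := by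
  decide +kernel

theorem ck149_703 : chunk WW (search 1 ef149 fqT GT FN149 4 149) 149
    [] 49 703 = true := by
  decide +kernel

theorem ck151_271 : chunk W23 (search 1 ef151 fqT GT FN151 4 151) 151
    [] 216 271 = true := by
  decide +kernel

theorem ck151_703 : chunk WW (search 1 ef151 fqT GT FN151 4 151) 151
    [] 49 703 = true := by
  decide +kernel

end Pool.Agent.NearSuper255
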