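import Pool.Agent.NearSuper255.Excl
import Pool.Agent.NearSuper255.RngX0
import Pool.Agent.NearSuper255.RngX1
import Pool.Agent.NearSuper255.RngX2
import Pool.Agent.NearSuper255.RngX3
import Pool.Agent.NearSuper255.RngX4
import Pool.Agent.NearSuper255.RngX5
import Pool.Agent.NearSuper255.RngX6
import Pool.Agent.NearSuper255.RngX7
import Pool.Agent.NearSuper255.RngX8
import Pool.Agent.NearSuper255.RngX9
import Pool.Agent.NearSuper255.RngX10
import Pool.Agent.NearSuper255.RngX11
import Pool.Agent.NearSuper255.RngX12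
import Pool.Agent.NearSuper255.RngX13
import Pool.Agent.NearSuper255.RngX14
import Pool.Agent.NearSuper255.RngX15
import Pool.Agent.NearSuper255.RngX16
import Pool.Agent.NearSuper255.RngX17
import Pool.Agent.NearSuper255.RngX18
import Pool.Agent.NearSuper255.RngX19
import Pool.Agent.NearSuper255.RngX20
import Pool.Agent.NearSuper255.RngX21
import Pool.Agent.NearSuper255.RngX22
import Pool.Agent.NearSuper255.RngX23
import Pool.Agent.NearSuper255.RngX24
import Pool.Agent.NearSuper255.RngX25

/-!
# Excluded pairs of bases, second part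
-/

namespace Pool.Agent.NearSuper255

theorem EX7 {q : ℕ} (hq : q.Prime) (h1 : 1500 < q) (h2 : q ≤ 60000) {N M : ℕ}
    (h : Sol 7 q N M) : False := by
  have ho : q % 2 = 1 := (hq.eq_two_or_odd).resolve_left (by omega)
  rcases Nat.lt_or_ge q 6501 with hb | hb
  · exact chunk_sound ck7_1501 WW_dvd (by norm_num) Nat.one_pos ef7_prime fqT_prime GT_prime hq
      (by omega) (by omega) (by omega) h
  rcases Nat.lt_or_ge q 11501 with hb | hb
  · exact chunk_sound ck7_6501 WW_dvd (by norm_num) Nat.one_pos ef7_prime fqT_prime GT_prime hq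
      (by omega) (by omega) (by omega) h
  rcases Nat.lt_or_ge q 16501 with hb | hb
  · exact chunk_sound ck7_11501 WW_dvd (by norm_num) Nat.one_pos ef7_prime fqT_prime GT_prime hq
      (by omega) (by omega) (by omega) h
  rcases Nat.lt_or_ge q 21501 with hb | hb
  · exact chunk_sound ck7_16501 WW_dvd (by norm_num) Nat.one_pos ef7_prime fqT_prime GT_prime hq
      (by omega) (by omega) (by omega) h
  rcases Nat.lt_or_ge q 26501 with hb | hb
  · exact chunk_sound ck7_21501 WW_dvd (by norm_num) Nat.one_pos ef7_prime fqT_prime GT_prime hq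
      (by omega) (by omega) (by omega) h
  rcases Nat.lt_or_ge q 31501 with hb | hb
  · exact chunk_sound ck7_26501 WW_dvd (by norm_num) Nat.one_pos ef7_prime fqT_prime GT_prime hq
      (by omega) (by omega) (by omega) h
  rcases Nat.lt_or_ge q 36501 with hb | hb
  · exact chunk_sound ck7_31501 WW_dvd (by norm_num) Nat.one_pos ef7_prime fqT_prime GT_prime hq
      (by omega) (by omega) (by omega) h
  rcases Nat.lt_or_ge q 41501 with hb | hb
  · exact chunk_sound ck7_36501 WW_dvd (by norm_num) Nat.one_pos ef7_prime fqT_prime GT_prime hq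
      (by omega) (by omega) (by omega) h
  rcases Nat.lt_or_ge q 46501 with hb | hb
  · exact chunk_sound ck7_41501 WW_dvd (by norm_num) Nat.one_pos ef7_prime fqT_prime GT_prime hq
      (by omega) (by omega) (by omega) h
  rcases Nat.lt_or_ge q 51501 with hb | hb
  · exact chunk_sound ck7_46501 WW_dvd (by norm_num) Nat.one_pos ef7_prime fqT_prime GT_prime hq
      (by omega) (by omega) (by omega) h
  rcases Nat.lt_or_ge q 56501 with hb | hb
  · exact chunk_sound ck7_51501 WW_dvd (by norm_num) Nat.one_pos ef7_prime fqT_prime GT_prime hq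
      (by omega) (by omega) (by omega) h
  exact chunk_sound ck7_56501 WW_dvd (by norm_num) Nat.one_pos ef7_prime fqT_prime GT_prime hq
      (by omega) (by omega) (by omega) h

theorem EX11 {q : ℕ} (hq : q.Prime) (h1 : 1500 < q) (h2 : q ≤ 60000) {N M : ℕ}
    (h : Sol 11 q N M) : False := by
  have ho : q % 2 = 1 := (hq.eq_two_or_odd).resolve_left (by omega)
  rcases Nat.lt_or_ge q 6501 with hb | hb
  · exact chunk_sound ck11_1501 WW_dvd (by norm_num) Nat.one_pos ef11_prime fqT_prime GT_prime hq
      (by omega) (by omega) (by omega) h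
  rcases Nat.lt_or_ge q 11501 with hb | hb
  · exact chunk_sound ck11_6501 WW_dvd (by norm_num) Nat.one_pos ef11_prime fqT_prime GT_prime hq
      (by omega) (by omega) (by omega) h
  rcases Nat.lt_or_ge q 16501 with hb | hb
  · exact chunk_sound ck11_11501 WW_dvd (by norm_num) Nat.one_pos ef11_prime fqT_prime GT_prime hq
      (by omega) (by omega) (by omega) h
  rcases Nat.lt_or_ge q 21501 with hb | hb
  · exact chunk_sound ck11_16501 WW_dvd (by norm_num) Nat.one_pos ef11_prime fqT_prime GT_prime hq
      (by omega) (by omega) (by omega) h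
  rcases Nat.lt_or_ge q 26501 with hb | hb
  · exact chunk_sound ck11_21501 WW_dvd (by norm_num) Nat.one_pos ef11_prime fqT_prime GT_prime hq
      (by omega) (by omega) (by omega) h
  rcases Nat.lt_or_ge q 31501 with hb | hb
  · exact chunk_sound ck11_26501 WW_dvd (by norm_num) Nat.one_pos ef11_prime fqT_prime GT_prime hq
      (by omega) (by omega) (by omega) h
  rcases Nat.lt_or_ge q 36501 with hb | hb
  · exact chunk_sound ck11_31501 WW_dvd (by norm_num) Nat.one_pos ef11_prime fqT_prime GT_prime hq
      (by omega) (by omega) (by omega) h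
  rcases Nat.lt_or_ge q 41501 with hb | hb
  · exact chunk_sound ck11_36501 WW_dvd (by norm_num) Nat.one_pos ef11_prime fqT_prime GT_prime hq
      (by omega) (by omega) (by omega) h
  rcases Nat.lt_or_ge q 46501 with hb | hb
  · exact chunk_sound ck11_41501 WW_dvd (by norm_num) Nat.one_pos ef11_prime fqT_prime GT_prime hq
      (by omega) (by omega) (by omega) h
  rcases Nat.lt_or_ge q 51501 with hb | hb
  · exact chunk_sound ck11_46501 WW_dvd (by norm_num) Nat.one_pos ef11_prime fqT_prime GT_prime hq
      (by omega) (by omega) (by omega) h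
  rcases Nat.lt_or_ge q 56501 with hb | hb
  · exact chunk_sound ck11_51501 WW_dvd (by norm_num) Nat.one_pos ef11_prime fqT_prime GT_prime hq
      (by omega) (by omega) (by omega) h
  exact chunk_sound ck11_56501 WW_dvd (by norm_num) Nat.one_pos ef11_prime fqT_prime GT_prime hq
      (by omega) (by omega) (by omega) h

theorem EX13 {q : ℕ} (hq : q.Prime) (h1 : 250 < q) (h2 : q ≤ 40000) {N M : ℕ}
    (h : Sol 13 q N M) : False := by
  have ho : q % 2 = 1 := (hq.eq_two_or_odd).resolve_left (by omega)
  rcases Nat.lt_or_ge q 703 with hb | hb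
  · exact chunk_sound ck13_251 W23_dvd (by norm_num) Nat.one_pos ef13_prime fqT_prime GT_prime hq
      (by omega) (by omega) (by omega) h
  rcases Nat.lt_or_ge q 5703 with hb | hb
  · exact chunk_sound ck13_703 WW_dvd (by norm_num) Nat.one_pos ef13_prime fqT_prime GT_prime hq
      (by omega) (by omega) (by omega) h
  rcases Nat.lt_or_ge q 10703 with hb | hb
  · exact chunk_sound ck13_5703 WW_dvd (by norm_num) Nat.one_pos ef13_prime fqT_prime GT_prime hq
      (by omega) (by omega) (by omega) h
  rcases Nat.lt_or_ge q 15703 with hb | hb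
  · exact chunk_sound ck13_10703 WW_dvd (by norm_num) Nat.one_pos ef13_prime fqT_prime GT_prime hq
      (by omega) (by omega) (by omega) h
  rcases Nat.lt_or_ge q 20703 with hb | hb
  · exact chunk_sound ck13_15703 WW_dvd (by norm_num) Nat.one_pos ef13_prime fqT_prime GT_prime hq
      (by omega) (by omega) (by omega) h
  rcases Nat.lt_or_ge q 25703 with hb | hb
  · exact chunk_sound ck13_20703 WW_dvd (by norm_num) Nat.one_pos ef13_prime fqT_prime GT_prime hq
      (by omega) (by omega) (by omega) h
  rcases Nat.lt_or_ge q 30703 with hb | hb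
  · exact chunk_sound ck13_25703 WW_dvd (by norm_num) Nat.one_pos ef13_prime fqT_prime GT_prime hq
      (by omega) (by omega) (by omega) h
  rcases Nat.lt_or_ge q 35703 with hb | hb
  · exact chunk_sound ck13_30703 WW_dvd (by norm_num) Nat.one_pos ef13_prime fqT_prime GT_prime hq
      (by omega) (by omega) (by omega) h
  exact chunk_sound ck13_35703 WW_dvd (by norm_num) Nat.one_pos ef13_prime fqT_prime GT_prime hq
      (by omega) (by omega) (by omega) h

theorem EX23 {q : ℕ} (hq : q.Prime) (h1 : 2500 < q) (h2 : q ≤ 40000) {N M : ℕ}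
    (h : Sol 23 q N M) : False := by
  have ho : q % 2 = 1 := (hq.eq_two_or_odd).resolve_left (by omega)
  rcases Nat.lt_or_ge q 7501 with hb | hb
  · exact chunk_sound ck23_2501 WW_dvd (by norm_num) Nat.one_pos ef23_prime fqT_prime GT_prime hq
      (by omega) (by omega) (by omega) h
  rcases Nat.lt_or_ge q 12501 with hb | hb
  · exact chunk_sound ck23_7501 WW_dvd (by norm_num) Nat.one_pos ef23_prime fqT_prime GT_prime hq
      (by omega) (by omega) (by omega) h
  rcases Nat.lt_or_ge q 17501 with hb | hb
  · exact chunk_sound ck23_12501 WW_dvd (by norm_num) Nat.one_pos ef23_prime fqT_prime GT_prime hq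
      (by omega) (by omega) (by omega) h
  rcases Nat.lt_or_ge q 22501 with hb | hb
  · exact chunk_sound ck23_17501 WW_dvd (by norm_num) Nat.one_pos ef23_prime fqT_prime GT_prime hq
      (by omega) (by omega) (by omega) h
  rcases Nat.lt_or_ge q 27501 with hb | hb
  · exact chunk_sound ck23_22501 WW_dvd (by norm_num) Nat.one_pos ef23_prime fqT_prime GT_prime hq
      (by omega) (by omega) (by omega) h
  rcases Nat.lt_or_ge q 32501 with hb | hb
  · exact chunk_sound ck23_27501 WW_dvd (by norm_num) Nat.one_pos ef23_prime fqT_prime GT_prime hq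
      (by omega) (by omega) (by omega) h
  rcases Nat.lt_or_ge q 37501 with hb | hb
  · exact chunk_sound ck23_32501 WW_dvd (by norm_num) Nat.one_pos ef23_prime fqT_prime GT_prime hq
      (by omega) (by omega) (by omega) h
  exact chunk_sound ck23_37501 WW_dvd (by norm_num) Nat.one_pos ef23_prime fqT_prime GT_prime hq
      (by omega) (by omega) (by omega) h

theorem EX29 {q : ℕ} (hq : q.Prime) (h1 : 1300 < q) (h2 : q ≤ 60000) {N M : ℕ}
    (h : Sol 29 q N M) : False := by
  have ho : q % 2 = 1 := (hq.eq_two_or_odd).resolve_left (by omega)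
  rcases Nat.lt_or_ge q 6301 with hb | hb
  · exact chunk_sound ck29_1301 WW_dvd (by norm_num) Nat.one_pos ef29_prime fqT_prime GT_prime hq
      (by omega) (by omega) (by omega) h
  rcases Nat.lt_or_ge q 11301 with hb | hb
  · exact chunk_sound ck29_6301 WW_dvd (by norm_num) Nat.one_pos ef29_prime fqT_prime GT_prime hq
      (by omega) (by omega) (by omega) h
  rcases Nat.lt_or_ge q 16301 with hb | hb
  · exact chunk_sound ck29_11301 WW_dvd (by norm_num) Nat.one_pos ef29_prime fqT_prime GT_prime hq
      (by omega) (by omega) (by omega) h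
  rcases Nat.lt_or_ge q 21301 with hb | hb
  · exact chunk_sound ck29_16301 WW_dvd (by norm_num) Nat.one_pos ef29_prime fqT_prime GT_prime hq
      (by omega) (by omega) (by omega) h
  rcases Nat.lt_or_ge q 26301 with hb | hb
  · exact chunk_sound ck29_21301 WW_dvd (by norm_num) Nat.one_pos ef29_prime fqT_prime GT_prime hq
      (by omega) (by omega) (by omega) h
  rcases Nat.lt_or_ge q 31301 with hb | hb
  · exact chunk_sound ck29_26301 WW_dvd (by norm_num) Nat.one_pos ef29_prime fqT_prime GT_prime hq
      (by omega) (by omega) (by omega) h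
  rcases Nat.lt_or_ge q 36301 with hb | hb
  · exact chunk_sound ck29_31301 WW_dvd (by norm_num) Nat.one_pos ef29_prime fqT_prime GT_prime hq
      (by omega) (by omega) (by omega) h
  rcases Nat.lt_or_ge q 41301 with hb | hb
  · exact chunk_sound ck29_36301 WW_dvd (by norm_num) Nat.one_pos ef29_prime fqT_prime GT_prime hq
      (by omega) (by omega) (by omega) h
  rcases Nat.lt_or_ge q 46301 with hb | hb
  · exact chunk_sound ck29_41301 WW_dvd (by norm_num) Nat.one_pos ef29_prime fqT_prime GT_prime hq
      (by omega) (by omega) (by omega) h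
  rcases Nat.lt_or_ge q 51301 with hb | hb
  · exact chunk_sound ck29_46301 WW_dvd (by norm_num) Nat.one_pos ef29_prime fqT_prime GT_prime hq
      (by omega) (by omega) (by omega) h
  rcases Nat.lt_or_ge q 56301 with hb | hb
  · exact chunk_sound ck29_51301 WW_dvd (by norm_num) Nat.one_pos ef29_prime fqT_prime GT_prime hq
      (by omega) (by omega) (by omega) h
  exact chunk_sound ck29_56301 WW_dvd (by norm_num) Nat.one_pos ef29_prime fqT_prime GT_prime hq
      (by omega) (by omega) (by omega) h

theorem EX31 {q : ℕ} (hq : q.Prime) (h1 : 900 < q) (h2 : q ≤ 20000) {N M : ℕ}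
    (h : Sol 31 q N M) : False := by
  have ho : q % 2 = 1 := (hq.eq_two_or_odd).resolve_left (by omega)
  rcases Nat.lt_or_ge q 5901 with hb | hb
  · exact chunk_sound ck31_901 WW_dvd (by norm_num) Nat.one_pos ef31_prime fqT_prime GT_prime hq
      (by omega) (by omega) (by omega) h
  rcases Nat.lt_or_ge q 10901 with hb | hb
  · exact chunk_sound ck31_5901 WW_dvd (by norm_num) Nat.one_pos ef31_prime fqT_prime GT_prime hq
      (by omega) (by omega) (by omega) h
  rcases Nat.lt_or_ge q 15901 with hb | hb
  · exact chunk_sound ck31_10901 WW_dvd (by norm_num) Nat.one_pos ef31_prime fqT_prime GT_prime hq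
      (by omega) (by omega) (by omega) h
  exact chunk_sound ck31_15901 WW_dvd (by norm_num) Nat.one_pos ef31_prime fqT_prime GT_prime hq
      (by omega) (by omega) (by omega) h

theorem EX37 {q : ℕ} (hq : q.Prime) (h1 : 800 < q) (h2 : q ≤ 4400) {N M : ℕ}
    (h : Sol 37 q N M) : False := by
  have ho : q % 2 = 1 := (hq.eq_two_or_odd).resolve_left (by omega)
  exact chunk_sound ck37_801 WW_dvd (by norm_num) Nat.one_pos ef37_prime fqT_prime GT_prime hq
      (by omega) (by omega) (by omega) h

theorem EX41 {q : ℕ} (hq : q.Prime) (h1 : 260 < q) (h2 : q ≤ 4400) {N M : ℕ}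
    (h : Sol 41 q N M) : False := by
  have ho : q % 2 = 1 := (hq.eq_two_or_odd).resolve_left (by omega)
  rcases Nat.lt_or_ge q 703 with hb | hb
  · exact chunk_sound ck41_261 W23_dvd (by norm_num) Nat.one_pos ef41_prime fqT_prime GT_prime hq
      (by omega) (by omega) (by omega) h
  exact chunk_sound ck41_703 WW_dvd (by norm_num) Nat.one_pos ef41_prime fqT_prime GT_prime hq
      (by omega) (by omega) (by omega) h

theorem EX43 {q : ℕ} (hq : q.Prime) (h1 : 239 < q) (h2 : q ≤ 4400) {N M : ℕ}
    (h : Sol 43 q N M) : False := by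
  have ho : q % 2 = 1 := (hq.eq_two_or_odd).resolve_left (by omega)
  rcases Nat.lt_or_ge q 703 with hb | hb
  · exact chunk_sound ck43_241 W23_dvd (by norm_num) Nat.one_pos ef43_prime fqT_prime GT_prime hq
      (by omega) (by omega) (by omega) h
  exact chunk_sound ck43_703 WW_dvd (by norm_num) Nat.one_pos ef43_prime fqT_prime GT_prime hq
      (by omega) (by omega) (by omega) h

theorem EX47 {q : ℕ} (hq : q.Prime) (h1 : 239 < q) (h2 : q ≤ 14000) {N M : ℕ}
    (h : Sol 47 q N M) : False := by
  have ho : q % 2 = 1 := (hq.eq_two_or_odd).resolve_left (by omega)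
  rcases Nat.lt_or_ge q 703 with hb | hb
  · exact chunk_sound ck47_241 W23_dvd (by norm_num) Nat.one_pos ef47_prime fqT_prime GT_prime hq
      (by omega) (by omega) (by omega) h
  rcases Nat.lt_or_ge q 5703 with hb | hb
  · exact chunk_sound ck47_703 WW_dvd (by norm_num) Nat.one_pos ef47_prime fqT_prime GT_prime hq
      (by omega) (by omega) (by omega) h
  rcases Nat.lt_or_ge q 10703 with hb | hb
  · exact chunk_sound ck47_5703 WW_dvd (by norm_num) Nat.one_pos ef47_prime fqT_prime GT_prime hq
      (by omega) (by omega) (by omega) h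
  exact chunk_sound ck47_10703 WW_dvd (by norm_num) Nat.one_pos ef47_prime fqT_prime GT_prime hq
      (by omega) (by omega) (by omega) h

theorem EX53 {q : ℕ} (hq : q.Prime) (h1 : 1600 < q) (h2 : q ≤ 4400) {N M : ℕ}
    (h : Sol 53 q N M) : False := by
  have ho : q % 2 = 1 := (hq.eq_two_or_odd).resolve_left (by omega)
  exact chunk_sound ck53_1601 WW_dvd (by norm_num) Nat.one_pos ef53_prime fqT_prime GT_prime hq
      (by omega) (by omega) (by omega) h

theorem EX59 {q : ℕ} (hq : q.Prime) (h1 : 400 < q) (h2 : q ≤ 4400) {N M : ℕ}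
    (h : Sol 59 q N M) : False := by
  have ho : q % 2 = 1 := (hq.eq_two_or_odd).resolve_left (by omega)
  rcases Nat.lt_or_ge q 703 with hb | hb
  · exact chunk_sound ck59_401 W23_dvd (by norm_num) Nat.one_pos ef59_prime fqT_prime GT_prime hq
      (by omega) (by omega) (by omega) h
  exact chunk_sound ck59_703 WW_dvd (by norm_num) Nat.one_pos ef59_prime fqT_prime GT_prime hq
      (by omega) (by omega) (by omega) h

theorem EX61 {q : ℕ} (hq : q.Prime) (h1 : 330 < q) (h2 : q ≤ 14000) {N M : ℕ}
    (h : Sol 61 q N M) : False := by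
  have ho : q % 2 = 1 := (hq.eq_two_or_odd).resolve_left (by omega)
  rcases Nat.lt_or_ge q 703 with hb | hb
  · exact chunk_sound ck61_331 W23_dvd (by norm_num) Nat.one_pos ef61_prime fqT_prime GT_prime hq
      (by omega) (by omega) (by omega) h
  rcases Nat.lt_or_ge q 2703 with hb | hb
  · exact chunk_sound ck61_703 WW_dvd (by norm_num) Nat.one_pos ef61_prime fqT_prime GT_prime hq
      (by omega) (by omega) (by omega) h
  rcases Nat.lt_or_ge q 4703 with hb | hb
  · exact chunk_sound ck61_2703 WW_dvd (by norm_num) Nat.one_pos ef61_prime fqT_prime GT_prime hq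
      (by omega) (by omega) (by omega) h
  rcases Nat.lt_or_ge q 6703 with hb | hb
  · exact chunk_sound ck61_4703 WW_dvd (by norm_num) Nat.one_pos ef61_prime fqT_prime GT_prime hq
      (by omega) (by omega) (by omega) h
  rcases Nat.lt_or_ge q 8703 with hb | hb
  · exact chunk_sound ck61_6703 WW_dvd (by norm_num) Nat.one_pos ef61_prime fqT_prime GT_prime hq
      (by omega) (by omega) (by omega) h
  rcases Nat.lt_or_ge q 10703 with hb | hb
  · exact chunk_sound ck61_8703 WW_dvd (by norm_num) Nat.one_pos ef61_prime fqT_prime GT_prime hq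
      (by omega) (by omega) (by omega) h
  rcases Nat.lt_or_ge q 12703 with hb | hb
  · exact chunk_sound ck61_10703 WW_dvd (by norm_num) Nat.one_pos ef61_prime fqT_prime GT_prime hq
      (by omega) (by omega) (by omega) h
  exact chunk_sound ck61_12703 WW_dvd (by norm_num) Nat.one_pos ef61_prime fqT_prime GT_prime hq
      (by omega) (by omega) (by omega) h

theorem EX67 {q : ℕ} (hq : q.Prime) (h1 : 239 < q) (h2 : q ≤ 800) {N M : ℕ}
    (h : Sol 67 q N M) : False := by
  have ho : q % 2 = 1 := (hq.eq_two_or_odd).resolve_left (by omega)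
  rcases Nat.lt_or_ge q 703 with hb | hb
  · exact chunk_sound ck67_241 W23_dvd (by norm_num) Nat.one_pos ef67_prime fqT_prime GT_prime hq
      (by omega) (by omega) (by omega) h
  exact chunk_sound ck67_703 WW_dvd (by norm_num) Nat.one_pos ef67_prime fqT_prime GT_prime hq
      (by omega) (by omega) (by omega) h

theorem EX71 {q : ℕ} (hq : q.Prime) (h1 : 239 < q) (h2 : q ≤ 4144) {N M : ℕ}
    (h : Sol 71 q N M) : False := by
  have ho : q % 2 = 1 := (hq.eq_two_or_odd).resolve_left (by omega)
  rcases Nat.lt_or_ge q 703 with hb | hb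
  · exact chunk_sound ck71_241 W23_dvd (by norm_num) Nat.one_pos ef71_prime fqT_prime GT_prime hq
      (by omega) (by omega) (by omega) h
  rcases Nat.lt_or_ge q 2703 with hb | hb
  · exact chunk_sound ck71_703 WW_dvd (by norm_num) Nat.one_pos ef71_prime fqT_prime GT_prime hq
      (by omega) (by omega) (by omega) h
  exact chunk_sound ck71_2703 WW_dvd (by norm_num) Nat.one_pos ef71_prime fqT_prime GT_prime hq
      (by omega) (by omega) (by omega) h

theorem EX73 {q : ℕ} (hq : q.Prime) (h1 : 239 < q) (h2 : q ≤ 1588) {N M : ℕ}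
    (h : Sol 73 q N M) : False := by
  have ho : q % 2 = 1 := (hq.eq_two_or_odd).resolve_left (by omega)
  rcases Nat.lt_or_ge q 703 with hb | hb
  · exact chunk_sound ck73_241 W23_dvd (by norm_num) Nat.one_pos ef73_prime fqT_prime GT_prime hq
      (by omega) (by omega) (by omega) h
  exact chunk_sound ck73_703 WW_dvd (by norm_num) Nat.one_pos ef73_prime fqT_prime GT_prime hq
      (by omega) (by omega) (by omega) h

theorem EX79 {q : ℕ} (hq : q.Prime) (h1 : 239 < q) (h2 : q ≤ 1912) {N M : ℕ}
    (h : Sol 79 q N M) : False := by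
  have ho : q % 2 = 1 := (hq.eq_two_or_odd).resolve_left (by omega)
  rcases Nat.lt_or_ge q 703 with hb | hb
  · exact chunk_sound ck79_241 W23_dvd (by norm_num) Nat.one_pos ef79_prime fqT_prime GT_prime hq
      (by omega) (by omega) (by omega) h
  exact chunk_sound ck79_703 WW_dvd (by norm_num) Nat.one_pos ef79_prime fqT_prime GT_prime hq
      (by omega) (by omega) (by omega) h

theorem EX83 {q : ℕ} (hq : q.Prime) (h1 : 239 < q) (h2 : q ≤ 882) {N M : ℕ}
    (h : Sol 83 q N M) : False := by
  have ho : q % 2 = 1 := (hq.eq_two_or_odd).resolve_left (by omega)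
  rcases Nat.lt_or_ge q 703 with hb | hb
  · exact chunk_sound ck83_241 W23_dvd (by norm_num) Nat.one_pos ef83_prime fqT_prime GT_prime hq
      (by omega) (by omega) (by omega) h
  exact chunk_sound ck83_703 WW_dvd (by norm_num) Nat.one_pos ef83_prime fqT_prime GT_prime hq
      (by omega) (by omega) (by omega) h

theorem EX89 {q : ℕ} (hq : q.Prime) (h1 : 239 < q) (h2 : q ≤ 800) {N M : ℕ}
    (h : Sol 89 q N M) : False := by
  have ho : q % 2 = 1 := (hq.eq_two_or_odd).resolve_left (by omega)
  rcases Nat.lt_or_ge q 703 with hb | hb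
  · exact chunk_sound ck89_241 W23_dvd (by norm_num) Nat.one_pos ef89_prime fqT_prime GT_prime hq
      (by omega) (by omega) (by omega) h
  exact chunk_sound ck89_703 WW_dvd (by norm_num) Nat.one_pos ef89_prime fqT_prime GT_prime hq
      (by omega) (by omega) (by omega) h

theorem EX113 {q : ℕ} (hq : q.Prime) (h1 : 660 < q) (h2 : q ≤ 12856) {N M : ℕ}
    (h : Sol 113 q N M) : False := by
  have ho : q % 2 = 1 := (hq.eq_two_or_odd).resolve_left (by omega)
  rcases Nat.lt_or_ge q 703 with hb | hb
  · exact chunk_sound ck113_661 W23_dvd (by norm_num) Nat.one_pos ef113_prime fqT_prime GT_prime hq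
      (by omega) (by omega) (by omega) h
  rcases Nat.lt_or_ge q 2703 with hb | hb
  · exact chunk_sound ck113_703 WW_dvd (by norm_num) Nat.one_pos ef113_prime fqT_prime GT_prime hq
      (by omega) (by omega) (by omega) h
  rcases Nat.lt_or_ge q 4703 with hb | hb
  · exact chunk_sound ck113_2703 WW_dvd (by norm_num) Nat.one_pos ef113_prime fqT_prime GT_prime hq
      (by omega) (by omega) (by omega) h
  rcases Nat.lt_or_ge q 6703 with hb | hb
  · exact chunk_sound ck113_4703 WW_dvd (by norm_num) Nat.one_pos ef113_prime fqT_prime GT_prime hq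
      (by omega) (by omega) (by omega) h
  rcases Nat.lt_or_ge q 8703 with hb | hb
  · exact chunk_sound ck113_6703 WW_dvd (by norm_num) Nat.one_pos ef113_prime fqT_prime GT_prime hq
      (by omega) (by omega) (by omega) h
  rcases Nat.lt_or_ge q 10703 with hb | hb
  · exact chunk_sound ck113_8703 WW_dvd (by norm_num) Nat.one_pos ef113_prime fqT_prime GT_prime hq
      (by omega) (by omega) (by omega) h
  rcases Nat.lt_or_ge q 12703 with hb | hb
  · exact chunk_sound ck113_10703 WW_dvd (by norm_num) Nat.one_pos ef113_prime fqT_prime GT_prime hq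
      (by omega) (by omega) (by omega) h
  exact chunk_sound ck113_12703 WW_dvd (by norm_num) Nat.one_pos ef113_prime fqT_prime GT_prime hq
      (by omega) (by omega) (by omega) h

theorem EX127 {q : ℕ} (hq : q.Prime) (h1 : 400 < q) (h2 : q ≤ 949) {N M : ℕ}
    (h : Sol 127 q N M) : False := by
  have ho : q % 2 = 1 := (hq.eq_two_or_odd).resolve_left (by omega)
  rcases Nat.lt_or_ge q 703 with hb | hb
  · exact chunk_sound ck127_401 W23_dvd (by norm_num) Nat.one_pos ef127_prime fqT_prime GT_prime hq
      (by omega) (by omega) (by omega) h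
  exact chunk_sound ck127_703 WW_dvd (by norm_num) Nat.one_pos ef127_prime fqT_prime GT_prime hq
      (by omega) (by omega) (by omega) h

theorem EX131 {q : ℕ} (hq : q.Prime) (h1 : 370 < q) (h2 : q ≤ 800) {N M : ℕ}
    (h : Sol 131 q N M) : False := by
  have ho : q % 2 = 1 := (hq.eq_two_or_odd).resolve_left (by omega)
  rcases Nat.lt_or_ge q 703 with hb | hb
  · exact chunk_sound ck131_371 W23_dvd (by norm_num) Nat.one_pos ef131_prime fqT_prime GT_prime hq
      (by omega) (by omega) (by omega) h
  exact chunk_sound ck131_703 WW_dvd (by norm_num) Nat.one_pos ef131_prime fqT_prime GT_prime hq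
      (by omega) (by omega) (by omega) h

theorem EX137 {q : ℕ} (hq : q.Prime) (h1 : 330 < q) (h2 : q ≤ 800) {N M : ℕ}
    (h : Sol 137 q N M) : False := by
  have ho : q % 2 = 1 := (hq.eq_two_or_odd).resolve_left (by omega)
  rcases Nat.lt_or_ge q 703 with hb | hb
  · exact chunk_sound ck137_331 W23_dvd (by norm_num) Nat.one_pos ef137_prime fqT_prime GT_prime hq
      (by omega) (by omega) (by omega) h
  exact chunk_sound ck137_703 WW_dvd (by norm_num) Nat.one_pos ef137_prime fqT_prime GT_prime hq
      (by omega) (by omega) (by omega) h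

theorem EX139 {q : ℕ} (hq : q.Prime) (h1 : 320 < q) (h2 : q ≤ 800) {N M : ℕ}
    (h : Sol 139 q N M) : False := by
  have ho : q % 2 = 1 := (hq.eq_two_or_odd).resolve_left (by omega)
  rcases Nat.lt_or_ge q 703 with hb | hb
  · exact chunk_sound ck139_321 W23_dvd (by norm_num) Nat.one_pos ef139_prime fqT_prime GT_prime hq
      (by omega) (by omega) (by omega) h
  exact chunk_sound ck139_703 WW_dvd (by norm_num) Nat.one_pos ef139_prime fqT_prime GT_prime hq
      (by omega) (by omega) (by omega) h

theorem EX149 {q : ℕ} (hq : q.Prime) (h1 : 280 < q) (h2 : q ≤ 800) {N M : ℕ}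
    (h : Sol 149 q N M) : False := by
  have ho : q % 2 = 1 := (hq.eq_two_or_odd).resolve_left (by omega)
  rcases Nat.lt_or_ge q 703 with hb | hb
  · exact chunk_sound ck149_281 W23_dvd (by norm_num) Nat.one_pos ef149_prime fqT_prime GT_prime hq
      (by omega) (by omega) (by omega) h
  exact chunk_sound ck149_703 WW_dvd (by norm_num) Nat.one_pos ef149_prime fqT_prime GT_prime hq
      (by omega) (by omega) (by omega) h

theorem EX151 {q : ℕ} (hq : q.Prime) (h1 : 270 < q) (h2 : q ≤ 800) {N M : ℕ}
    (h : Sol 151 q N M) : False := by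
  have ho : q % 2 = 1 := (hq.eq_two_or_odd).resolve_left (by omega)
  rcases Nat.lt_or_ge q 703 with hb | hb
  · exact chunk_sound ck151_271 W23_dvd (by norm_num) Nat.one_pos ef151_prime fqT_prime GT_prime hq
      (by omega) (by omega) (by omega) h
  exact chunk_sound ck151_703 WW_dvd (by norm_num) Nat.one_pos ef151_prime fqT_prime GT_prime hq
      (by omega) (by omega) (by omega) h

theorem EX157 {q : ℕ} (hq : q.Prime) (h1 : 250 < q) (h2 : q ≤ 800) {N M : ℕ}
    (h : Sol 157 q N M) : False := by
  have ho : q % 2 = 1 := (hq.eq_two_or_odd).resolve_left (by omega)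
  rcases Nat.lt_or_ge q 703 with hb | hb
  · exact chunk_sound ck157_251 W23_dvd (by norm_num) Nat.one_pos ef157_prime fqT_prime GT_prime hq
      (by omega) (by omega) (by omega) h
  exact chunk_sound ck157_703 WW_dvd (by norm_num) Nat.one_pos ef157_prime fqT_prime GT_prime hq
      (by omega) (by omega) (by omega) h

theorem EX163 {q : ℕ} (hq : q.Prime) (h1 : 239 < q) (h2 : q ≤ 800) {N M : ℕ}
    (h : Sol 163 q N M) : False := by
  have ho : q % 2 = 1 := (hq.eq_two_or_odd).resolve_left (by omega)
  rcases Nat.lt_or_ge q 703 with hb | hb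
  · exact chunk_sound ck163_241 W23_dvd (by norm_num) Nat.one_pos ef163_prime fqT_prime GT_prime hq
      (by omega) (by omega) (by omega) h
  exact chunk_sound ck163_703 WW_dvd (by norm_num) Nat.one_pos ef163_prime fqT_prime GT_prime hq
      (by omega) (by omega) (by omega) h

theorem EX167 {q : ℕ} (hq : q.Prime) (h1 : 239 < q) (h2 : q ≤ 800) {N M : ℕ}
    (h : Sol 167 q N M) : False := by
  have ho : q % 2 = 1 := (hq.eq_two_or_odd).resolve_left (by omega)
  rcases Nat.lt_or_ge q 703 with hb | hb
  · exact chunk_sound ck167_241 W23_dvd (by norm_num) Nat.one_pos ef167_prime fqT_prime GT_prime hq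
      (by omega) (by omega) (by omega) h
  exact chunk_sound ck167_703 WW_dvd (by norm_num) Nat.one_pos ef167_prime fqT_prime GT_prime hq
      (by omega) (by omega) (by omega) h

theorem EX173 {q : ℕ} (hq : q.Prime) (h1 : 239 < q) (h2 : q ≤ 800) {N M : ℕ}
    (h : Sol 173 q N M) : False := by
  have ho : q % 2 = 1 := (hq.eq_two_or_odd).resolve_left (by omega)
  rcases Nat.lt_or_ge q 703 with hb | hb
  · exact chunk_sound ck173_241 W23_dvd (by norm_num) Nat.one_pos ef173_prime fqT_prime GT_prime hq
      (by omega) (by omega) (by omega) h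
  exact chunk_sound ck173_703 WW_dvd (by norm_num) Nat.one_pos ef173_prime fqT_prime GT_prime hq
      (by omega) (by omega) (by omega) h

theorem EX179 {q : ℕ} (hq : q.Prime) (h1 : 239 < q) (h2 : q ≤ 800) {N M : ℕ}
    (h : Sol 179 q N M) : False := by
  have ho : q % 2 = 1 := (hq.eq_two_or_odd).resolve_left (by omega)
  rcases Nat.lt_or_ge q 703 with hb | hb
  · exact chunk_sound ck179_241 W23_dvd (by norm_num) Nat.one_pos ef179_prime fqT_prime GT_prime hq
      (by omega) (by omega) (by omega) h
  exact chunk_sound ck179_703 WW_dvd (by norm_num) Nat.one_pos ef179_prime fqT_prime GT_prime hq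
      (by omega) (by omega) (by omega) h

theorem EX181 {q : ℕ} (hq : q.Prime) (h1 : 239 < q) (h2 : q ≤ 800) {N M : ℕ}
    (h : Sol 181 q N M) : False := by
  have ho : q % 2 = 1 := (hq.eq_two_or_odd).resolve_left (by omega)
  rcases Nat.lt_or_ge q 703 with hb | hb
  · exact chunk_sound ck181_241 W23_dvd (by norm_num) Nat.one_pos ef181_prime fqT_prime GT_prime hq
      (by omega) (by omega) (by omega) h
  exact chunk_sound ck181_703 WW_dvd (by norm_num) Nat.one_pos ef181_prime fqT_prime GT_prime hq
      (by omega) (by omega) (by omega) h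

theorem EX191 {q : ℕ} (hq : q.Prime) (h1 : 239 < q) (h2 : q ≤ 10512) {N M : ℕ}
    (h : Sol 191 q N M) : False := by
  have ho : q % 2 = 1 := (hq.eq_two_or_odd).resolve_left (by omega)
  rcases Nat.lt_or_ge q 703 with hb | hb
  · exact chunk_sound ck191_241 W23_dvd (by norm_num) Nat.one_pos ef191_prime fqT_prime GT_prime hq
      (by omega) (by omega) (by omega) h
  rcases Nat.lt_or_ge q 2703 with hb | hb
  · exact chunk_sound ck191_703 WW_dvd (by norm_num) Nat.one_pos ef191_prime fqT_prime GT_prime hq
      (by omega) (by omega) (by omega) h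
  rcases Nat.lt_or_ge q 4703 with hb | hb
  · exact chunk_sound ck191_2703 WW_dvd (by norm_num) Nat.one_pos ef191_prime fqT_prime GT_prime hq
      (by omega) (by omega) (by omega) h
  rcases Nat.lt_or_ge q 6703 with hb | hb
  · exact chunk_sound ck191_4703 WW_dvd (by norm_num) Nat.one_pos ef191_prime fqT_prime GT_prime hq
      (by omega) (by omega) (by omega) h
  rcases Nat.lt_or_ge q 8703 with hb | hb
  · exact chunk_sound ck191_6703 WW_dvd (by norm_num) Nat.one_pos ef191_prime fqT_prime GT_prime hq
      (by omega) (by omega) (by omega) h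
  exact chunk_sound ck191_8703 WW_dvd (by norm_num) Nat.one_pos ef191_prime fqT_prime GT_prime hq
      (by omega) (by omega) (by omega) h

theorem EX193 {q : ℕ} (hq : q.Prime) (h1 : 239 < q) (h2 : q ≤ 6690) {N M : ℕ}
    (h : Sol 193 q N M) : False := by
  have ho : q % 2 = 1 := (hq.eq_two_or_odd).resolve_left (by omega)
  rcases Nat.lt_or_ge q 703 with hb | hb
  · exact chunk_sound ck193_241 W23_dvd (by norm_num) Nat.one_pos ef193_prime fqT_prime GT_prime hq
      (by omega) (by omega) (by omega) h
  rcases Nat.lt_or_ge q 2703 with hb | hb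
  · exact chunk_sound ck193_703 WW_dvd (by norm_num) Nat.one_pos ef193_prime fqT_prime GT_prime hq
      (by omega) (by omega) (by omega) h
  rcases Nat.lt_or_ge q 4703 with hb | hb
  · exact chunk_sound ck193_2703 WW_dvd (by norm_num) Nat.one_pos ef193_prime fqT_prime GT_prime hq
      (by omega) (by omega) (by omega) h
  exact chunk_sound ck193_4703 WW_dvd (by norm_num) Nat.one_pos ef193_prime fqT_prime GT_prime hq
      (by omega) (by omega) (by omega) h

theorem EX197 {q : ℕ} (hq : q.Prime) (h1 : 239 < q) (h2 : q ≤ 3925) {N M : ℕ}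
    (h : Sol 197 q N M) : False := by
  have ho : q % 2 = 1 := (hq.eq_two_or_odd).resolve_left (by omega)
  rcases Nat.lt_or_ge q 703 with hb | hb
  · exact chunk_sound ck197_241 W23_dvd (by norm_num) Nat.one_pos ef197_prime fqT_prime GT_prime hq
      (by omega) (by omega) (by omega) h
  rcases Nat.lt_or_ge q 2703 with hb | hb
  · exact chunk_sound ck197_703 WW_dvd (by norm_num) Nat.one_pos ef197_prime fqT_prime GT_prime hq
      (by omega) (by omega) (by omega) h
  exact chunk_sound ck197_2703 WW_dvd (by norm_num) Nat.one_pos ef197_prime fqT_prime GT_prime hq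
      (by omega) (by omega) (by omega) h

theorem EX199 {q : ℕ} (hq : q.Prime) (h1 : 239 < q) (h2 : q ≤ 3270) {N M : ℕ}
    (h : Sol 199 q N M) : False := by
  have ho : q % 2 = 1 := (hq.eq_two_or_odd).resolve_left (by omega)
  rcases Nat.lt_or_ge q 703 with hb | hb
  · exact chunk_sound ck199_241 W23_dvd (by norm_num) Nat.one_pos ef199_prime fqT_prime GT_prime hq
      (by omega) (by omega) (by omega) h
  rcases Nat.lt_or_ge q 2703 with hb | hb
  · exact chunk_sound ck199_703 WW_dvd (by norm_num) Nat.one_pos ef199_prime fqT_prime GT_prime hq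
      (by omega) (by omega) (by omega) h
  exact chunk_sound ck199_2703 WW_dvd (by norm_num) Nat.one_pos ef199_prime fqT_prime GT_prime hq
      (by omega) (by omega) (by omega) h

theorem EX211 {q : ℕ} (hq : q.Prime) (h1 : 239 < q) (h2 : q ≤ 1692) {N M : ℕ}
    (h : Sol 211 q N M) : False := by
  have ho : q % 2 = 1 := (hq.eq_two_or_odd).resolve_left (by omega)
  rcases Nat.lt_or_ge q 703 with hb | hb
  · exact chunk_sound ck211_241 W23_dvd (by norm_num) Nat.one_pos ef211_prime fqT_prime GT_prime hq
      (by omega) (by omega) (by omega) h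
  exact chunk_sound ck211_703 WW_dvd (by norm_num) Nat.one_pos ef211_prime fqT_prime GT_prime hq
      (by omega) (by omega) (by omega) h

theorem EX223 {q : ℕ} (hq : q.Prime) (h1 : 239 < q) (h2 : q ≤ 1184) {N M : ℕ}
    (h : Sol 223 q N M) : False := by
  have ho : q % 2 = 1 := (hq.eq_two_or_odd).resolve_left (by omega)
  rcases Nat.lt_or_ge q 703 with hb | hb
  · exact chunk_sound ck223_241 W23_dvd (by norm_num) Nat.one_pos ef223_prime fqT_prime GT_prime hq
      (by omega) (by omega) (by omega) h
  exact chunk_sound ck223_703 WW_dvd (by norm_num) Nat.one_pos ef223_prime fqT_prime GT_prime hq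
      (by omega) (by omega) (by omega) h

theorem EX227 {q : ℕ} (hq : q.Prime) (h1 : 239 < q) (h2 : q ≤ 1084) {N M : ℕ}
    (h : Sol 227 q N M) : False := by
  have ho : q % 2 = 1 := (hq.eq_two_or_odd).resolve_left (by omega)
  rcases Nat.lt_or_ge q 703 with hb | hb
  · exact chunk_sound ck227_241 W23_dvd (by norm_num) Nat.one_pos ef227_prime fqT_prime GT_prime hq
      (by omega) (by omega) (by omega) h
  exact chunk_sound ck227_703 WW_dvd (by norm_num) Nat.one_pos ef227_prime fqT_prime GT_prime hq
      (by omega) (by omega) (by omega) h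

theorem EX229 {q : ℕ} (hq : q.Prime) (h1 : 239 < q) (h2 : q ≤ 1041) {N M : ℕ}
    (h : Sol 229 q N M) : False := by
  have ho : q % 2 = 1 := (hq.eq_two_or_odd).resolve_left (by omega)
  rcases Nat.lt_or_ge q 703 with hb | hb
  · exact chunk_sound ck229_241 W23_dvd (by norm_num) Nat.one_pos ef229_prime fqT_prime GT_prime hq
      (by omega) (by omega) (by omega) h
  exact chunk_sound ck229_703 WW_dvd (by norm_num) Nat.one_pos ef229_prime fqT_prime GT_prime hq
      (by omega) (by omega) (by omega) h

theorem EX233 {q : ℕ} (hq : q.Prime) (h1 : 239 < q) (h2 : q ≤ 965) {N M : ℕ}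
    (h : Sol 233 q N M) : False := by
  have ho : q % 2 = 1 := (hq.eq_two_or_odd).resolve_left (by omega)
  rcases Nat.lt_or_ge q 703 with hb | hb
  · exact chunk_sound ck233_241 W23_dvd (by norm_num) Nat.one_pos ef233_prime fqT_prime GT_prime hq
      (by omega) (by omega) (by omega) h
  exact chunk_sound ck233_703 WW_dvd (by norm_num) Nat.one_pos ef233_prime fqT_prime GT_prime hq
      (by omega) (by omega) (by omega) h

theorem ef239_prime : ∀ x ∈ ef239, x.2.Prime := prL_sound (by decide +kernel)

theorem EX239 {q : ℕ} (hq : q.Prime) (h1 : 239 < q) (h2 : q ≤ 875) {N M : ℕ}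
    (h : Sol 239 q N M) : False := by
  have ho : q % 2 = 1 := (hq.eq_two_or_odd).resolve_left (by omega)
  rcases Nat.lt_or_ge q 703 with hb | hb
  · exact chunk_sound ck239_241 W23_dvd (by norm_num) Nat.one_pos ef239_prime fqT_prime GT_prime hq
      (by omega) (by omega) (by omega) h
  exact chunk_sound ck239_703 WW_dvd (by norm_num) Nat.one_pos ef239_prime fqT_prime GT_prime hq
      (by omega) (by omega) (by omega) h

theorem ef241_prime : ∀ x ∈ ef241, x.2.Prime := prL_sound (by decide +kernel)

theorem EX241 {q : ℕ} (hq : q.Prime) (h1 : 241 < q) (h2 : q ≤ 850) {N M : ℕ}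
    (h : Sol 241 q N M) : False := by
  have ho : q % 2 = 1 := (hq.eq_two_or_odd).resolve_left (by omega)
  rcases Nat.lt_or_ge q 703 with hb | hb
  · exact chunk_sound ck241_243 W23_dvd (by norm_num) Nat.one_pos ef241_prime fqT_prime GT_prime hq
      (by omega) (by omega) (by omega) h
  exact chunk_sound ck241_703 WW_dvd (by norm_num) Nat.one_pos ef241_prime fqT_prime GT_prime hq
      (by omega) (by omega) (by omega) h

theorem ef251_prime : ∀ x ∈ ef251, x.2.Prime := prL_sound (by decide +kernel)

theorem EX251 {q : ℕ} (hq : q.Prime) (h1 : 251 < q) (h2 : q ≤ 800) {N M : ℕ}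
    (h : Sol 251 q N M) : False := by
  have ho : q % 2 = 1 := (hq.eq_two_or_odd).resolve_left (by omega)
  rcases Nat.lt_or_ge q 703 with hb | hb
  · exact chunk_sound ck251_253 W23_dvd (by norm_num) Nat.one_pos ef251_prime fqT_prime GT_prime hq
      (by omega) (by omega) (by omega) h
  exact chunk_sound ck251_703 WW_dvd (by norm_num) Nat.one_pos ef251_prime fqT_prime GT_prime hq
      (by omega) (by omega) (by omega) h

theorem EX331 {q : ℕ} (hq : q.Prime) (h1 : 1150 < q) (h2 : q ≤ 19715) {N M : ℕ}
    (h : Sol 331 q N M) : False := by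
  have ho : q % 2 = 1 := (hq.eq_two_or_odd).resolve_left (by omega)
  rcases Nat.lt_or_ge q 3151 with hb | hb
  · exact chunk_sound ck331_1151 WW_dvd (by norm_num) Nat.one_pos ef331_prime fqT_prime GT_prime hq
      (by omega) (by omega) (by omega) h
  rcases Nat.lt_or_ge q 5151 with hb | hb
  · exact chunk_sound ck331_3151 WW_dvd (by norm_num) Nat.one_pos ef331_prime fqT_prime GT_prime hq
      (by omega) (by omega) (by omega) h
  rcases Nat.lt_or_ge q 7151 with hb | hb
  · exact chunk_sound ck331_5151 WW_dvd (by norm_num) Nat.one_pos ef331_prime fqT_prime GT_prime hq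
      (by omega) (by omega) (by omega) h
  rcases Nat.lt_or_ge q 9151 with hb | hb
  · exact chunk_sound ck331_7151 WW_dvd (by norm_num) Nat.one_pos ef331_prime fqT_prime GT_prime hq
      (by omega) (by omega) (by omega) h
  rcases Nat.lt_or_ge q 11151 with hb | hb
  · exact chunk_sound ck331_9151 WW_dvd (by norm_num) Nat.one_pos ef331_prime fqT_prime GT_prime hq
      (by omega) (by omega) (by omega) h
  rcases Nat.lt_or_ge q 13151 with hb | hb
  · exact chunk_sound ck331_11151 WW_dvd (by norm_num) Nat.one_pos ef331_prime fqT_prime GT_prime hq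
      (by omega) (by omega) (by omega) h
  rcases Nat.lt_or_ge q 15151 with hb | hb
  · exact chunk_sound ck331_13151 WW_dvd (by norm_num) Nat.one_pos ef331_prime fqT_prime GT_prime hq
      (by omega) (by omega) (by omega) h
  rcases Nat.lt_or_ge q 17151 with hb | hb
  · exact chunk_sound ck331_15151 WW_dvd (by norm_num) Nat.one_pos ef331_prime fqT_prime GT_prime hq
      (by omega) (by omega) (by omega) h
  rcases Nat.lt_or_ge q 19151 with hb | hb
  · exact chunk_sound ck331_17151 WW_dvd (by norm_num) Nat.one_pos ef331_prime fqT_prime GT_prime hq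
      (by omega) (by omega) (by omega) h
  exact chunk_sound ck331_19151 WW_dvd (by norm_num) Nat.one_pos ef331_prime fqT_prime GT_prime hq
      (by omega) (by omega) (by omega) h

theorem EX337 {q : ℕ} (hq : q.Prime) (h1 : 1080 < q) (h2 : q ≤ 9568) {N M : ℕ}
    (h : Sol 337 q N M) : False := by
  have ho : q % 2 = 1 := (hq.eq_two_or_odd).resolve_left (by omega)
  rcases Nat.lt_or_ge q 3081 with hb | hb
  · exact chunk_sound ck337_1081 WW_dvd (by norm_num) Nat.one_pos ef337_prime fqT_prime GT_prime hq
      (by omega) (by omega) (by omega) h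
  rcases Nat.lt_or_ge q 5081 with hb | hb
  · exact chunk_sound ck337_3081 WW_dvd (by norm_num) Nat.one_pos ef337_prime fqT_prime GT_prime hq
      (by omega) (by omega) (by omega) h
  rcases Nat.lt_or_ge q 7081 with hb | hb
  · exact chunk_sound ck337_5081 WW_dvd (by norm_num) Nat.one_pos ef337_prime fqT_prime GT_prime hq
      (by omega) (by omega) (by omega) h
  rcases Nat.lt_or_ge q 9081 with hb | hb
  · exact chunk_sound ck337_7081 WW_dvd (by norm_num) Nat.one_pos ef337_prime fqT_prime GT_prime hq
      (by omega) (by omega) (by omega) h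
  exact chunk_sound ck337_9081 WW_dvd (by norm_num) Nat.one_pos ef337_prime fqT_prime GT_prime hq
      (by omega) (by omega) (by omega) h

theorem EX347 {q : ℕ} (hq : q.Prime) (h1 : 990 < q) (h2 : q ≤ 5264) {N M : ℕ}
    (h : Sol 347 q N M) : False := by
  have ho : q % 2 = 1 := (hq.eq_two_or_odd).resolve_left (by omega)
  rcases Nat.lt_or_ge q 2991 with hb | hb
  · exact chunk_sound ck347_991 WW_dvd (by norm_num) Nat.one_pos ef347_prime fqT_prime GT_prime hq
      (by omega) (by omega) (by omega) h
  rcases Nat.lt_or_ge q 4991 with hb | hb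
  · exact chunk_sound ck347_2991 WW_dvd (by norm_num) Nat.one_pos ef347_prime fqT_prime GT_prime hq
      (by omega) (by omega) (by omega) h
  exact chunk_sound ck347_4991 WW_dvd (by norm_num) Nat.one_pos ef347_prime fqT_prime GT_prime hq
      (by omega) (by omega) (by omega) h

theorem EX349 {q : ℕ} (hq : q.Prime) (h1 : 975 < q) (h2 : q ≤ 4843) {N M : ℕ}
    (h : Sol 349 q N M) : False := by
  have ho : q % 2 = 1 := (hq.eq_two_or_odd).resolve_left (by omega)
  rcases Nat.lt_or_ge q 2977 with hb | hb
  · exact chunk_sound ck349_977 WW_dvd (by norm_num) Nat.one_pos ef349_prime fqT_prime GT_prime hq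
      (by omega) (by omega) (by omega) h
  exact chunk_sound ck349_2977 WW_dvd (by norm_num) Nat.one_pos ef349_prime fqT_prime GT_prime hq
      (by omega) (by omega) (by omega) h

theorem EX353 {q : ℕ} (hq : q.Prime) (h1 : 945 < q) (h2 : q ≤ 4186) {N M : ℕ}
    (h : Sol 353 q N M) : False := by
  have ho : q % 2 = 1 := (hq.eq_two_or_odd).resolve_left (by omega)
  rcases Nat.lt_or_ge q 2947 with hb | hb
  · exact chunk_sound ck353_947 WW_dvd (by norm_num) Nat.one_pos ef353_prime fqT_prime GT_prime hq
      (by omega) (by omega) (by omega) h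
  exact chunk_sound ck353_2947 WW_dvd (by norm_num) Nat.one_pos ef353_prime fqT_prime GT_prime hq
      (by omega) (by omega) (by omega) h

theorem EX359 {q : ℕ} (hq : q.Prime) (h1 : 905 < q) (h2 : q ≤ 3494) {N M : ℕ}
    (h : Sol 359 q N M) : False := by
  have ho : q % 2 = 1 := (hq.eq_two_or_odd).resolve_left (by omega)
  rcases Nat.lt_or_ge q 2907 with hb | hb
  · exact chunk_sound ck359_907 WW_dvd (by norm_num) Nat.one_pos ef359_prime fqT_prime GT_prime hq
      (by omega) (by omega) (by omega) h
  exact chunk_sound ck359_2907 WW_dvd (by norm_num) Nat.one_pos ef359_prime fqT_prime GT_prime hq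
      (by omega) (by omega) (by omega) h

theorem EX367 {q : ℕ} (hq : q.Prime) (h1 : 860 < q) (h2 : q ≤ 2884) {N M : ℕ}
    (h : Sol 367 q N M) : False := by
  have ho : q % 2 = 1 := (hq.eq_two_or_odd).resolve_left (by omega)
  rcases Nat.lt_or_ge q 2861 with hb | hb
  · exact chunk_sound ck367_861 WW_dvd (by norm_num) Nat.one_pos ef367_prime fqT_prime GT_prime hq
      (by omega) (by omega) (by omega) h
  exact chunk_sound ck367_2861 WW_dvd (by norm_num) Nat.one_pos ef367_prime fqT_prime GT_prime hq
      (by omega) (by omega) (by omega) h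

theorem EX373 {q : ℕ} (hq : q.Prime) (h1 : 830 < q) (h2 : q ≤ 2562) {N M : ℕ}
    (h : Sol 373 q N M) : False := by
  have ho : q % 2 = 1 := (hq.eq_two_or_odd).resolve_left (by omega)
  exact chunk_sound ck373_831 WW_dvd (by norm_num) Nat.one_pos ef373_prime fqT_prime GT_prime hq
      (by omega) (by omega) (by omega) h

theorem EX379 {q : ℕ} (hq : q.Prime) (h1 : 800 < q) (h2 : q ≤ 2311) {N M : ℕ}
    (h : Sol 379 q N M) : False := by
  have ho : q % 2 = 1 := (hq.eq_two_or_odd).resolve_left (by omega)
  exact chunk_sound ck379_801 WW_dvd (by norm_num) Nat.one_pos ef379_prime fqT_prime GT_prime hq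
      (by omega) (by omega) (by omega) h

theorem EX383 {q : ℕ} (hq : q.Prime) (h1 : 780 < q) (h2 : q ≤ 2174) {N M : ℕ}
    (h : Sol 383 q N M) : False := by
  have ho : q % 2 = 1 := (hq.eq_two_or_odd).resolve_left (by omega)
  exact chunk_sound ck383_781 WW_dvd (by norm_num) Nat.one_pos ef383_prime fqT_prime GT_prime hq
      (by omega) (by omega) (by omega) h

theorem EX389 {q : ℕ} (hq : q.Prime) (h1 : 760 < q) (h2 : q ≤ 1999) {N M : ℕ}
    (h : Sol 389 q N M) : False := by
  have ho : q % 2 = 1 := (hq.eq_two_or_odd).resolve_left (by omega)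
  exact chunk_sound ck389_761 WW_dvd (by norm_num) Nat.one_pos ef389_prime fqT_prime GT_prime hq
      (by omega) (by omega) (by omega) h

theorem EX397 {q : ℕ} (hq : q.Prime) (h1 : 730 < q) (h2 : q ≤ 1812) {N M : ℕ}
    (h : Sol 397 q N M) : False := by
  have ho : q % 2 = 1 := (hq.eq_two_or_odd).resolve_left (by omega)
  exact chunk_sound ck397_731 WW_dvd (by norm_num) Nat.one_pos ef397_prime fqT_prime GT_prime hq
      (by omega) (by omega) (by omega) h

theorem EX401 {q : ℕ} (hq : q.Prime) (h1 : 720 < q) (h2 : q ≤ 1734) {N M : ℕ}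
    (h : Sol 401 q N M) : False := by
  have ho : q % 2 = 1 := (hq.eq_two_or_odd).resolve_left (by omega)
  exact chunk_sound ck401_721 WW_dvd (by norm_num) Nat.one_pos ef401_prime fqT_prime GT_prime hq
      (by omega) (by omega) (by omega) h

theorem EX409 {q : ℕ} (hq : q.Prime) (h1 : 695 < q) (h2 : q ≤ 1600) {N M : ℕ}
    (h : Sol 409 q N M) : False := by
  have ho : q % 2 = 1 := (hq.eq_two_or_odd).resolve_left (by omega)
  rcases Nat.lt_or_ge q 703 with hb | hb
  · exact chunk_sound ck409_697 W23_dvd (by norm_num) Nat.one_pos ef409_prime fqT_prime GT_prime hq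
      (by omega) (by omega) (by omega) h
  exact chunk_sound ck409_703 WW_dvd (by norm_num) Nat.one_pos ef409_prime fqT_prime GT_prime hq
      (by omega) (by omega) (by omega) h

theorem EX419 {q : ℕ} (hq : q.Prime) (h1 : 670 < q) (h2 : q ≤ 1463) {N M : ℕ}
    (h : Sol 419 q N M) : False := by
  have ho : q % 2 = 1 := (hq.eq_two_or_odd).resolve_left (by omega)
  rcases Nat.lt_or_ge q 703 with hb | hb
  · exact chunk_sound ck419_671 W23_dvd (by norm_num) Nat.one_pos ef419_prime fqT_prime GT_prime hq
      (by omega) (by omega) (by omega) h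
  exact chunk_sound ck419_703 WW_dvd (by norm_num) Nat.one_pos ef419_prime fqT_prime GT_prime hq
      (by omega) (by omega) (by omega) h

theorem EX421 {q : ℕ} (hq : q.Prime) (h1 : 660 < q) (h2 : q ≤ 1440) {N M : ℕ}
    (h : Sol 421 q N M) : False := by
  have ho : q % 2 = 1 := (hq.eq_two_or_odd).resolve_left (by omega)
  rcases Nat.lt_or_ge q 703 with hb | hb
  · exact chunk_sound ck421_661 W23_dvd (by norm_num) Nat.one_pos ef421_prime fqT_prime GT_prime hq
      (by omega) (by omega) (by omega) h
  exact chunk_sound ck421_703 WW_dvd (by norm_num) Nat.one_pos ef421_prime fqT_prime GT_prime hq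
      (by omega) (by omega) (by omega) h

theorem EX431 {q : ℕ} (hq : q.Prime) (h1 : 640 < q) (h2 : q ≤ 1335) {N M : ℕ}
    (h : Sol 431 q N M) : False := by
  have ho : q % 2 = 1 := (hq.eq_two_or_odd).resolve_left (by omega)
  rcases Nat.lt_or_ge q 703 with hb | hb
  · exact chunk_sound ck431_641 W23_dvd (by norm_num) Nat.one_pos ef431_prime fqT_prime GT_prime hq
      (by omega) (by omega) (by omega) h
  exact chunk_sound ck431_703 WW_dvd (by norm_num) Nat.one_pos ef431_prime fqT_prime GT_prime hq
      (by omega) (by omega) (by omega) h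

theorem EX433 {q : ℕ} (hq : q.Prime) (h1 : 635 < q) (h2 : q ≤ 1316) {N M : ℕ}
    (h : Sol 433 q N M) : False := by
  have ho : q % 2 = 1 := (hq.eq_two_or_odd).resolve_left (by omega)
  rcases Nat.lt_or_ge q 703 with hb | hb
  · exact chunk_sound ck433_637 W23_dvd (by norm_num) Nat.one_pos ef433_prime fqT_prime GT_prime hq
      (by omega) (by omega) (by omega) h
  exact chunk_sound ck433_703 WW_dvd (by norm_num) Nat.one_pos ef433_prime fqT_prime GT_prime hq
      (by omega) (by omega) (by omega) h

theorem EX439 {q : ℕ} (hq : q.Prime) (h1 : 620 < q) (h2 : q ≤ 1264) {N M : ℕ}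
    (h : Sol 439 q N M) : False := by
  have ho : q % 2 = 1 := (hq.eq_two_or_odd).resolve_left (by omega)
  rcases Nat.lt_or_ge q 703 with hb | hb
  · exact chunk_sound ck439_621 W23_dvd (by norm_num) Nat.one_pos ef439_prime fqT_prime GT_prime hq
      (by omega) (by omega) (by omega) h
  exact chunk_sound ck439_703 WW_dvd (by norm_num) Nat.one_pos ef439_prime fqT_prime GT_prime hq
      (by omega) (by omega) (by omega) h

theorem EX443 {q : ℕ} (hq : q.Prime) (h1 : 615 < q) (h2 : q ≤ 1232) {N M : ℕ}
    (h : Sol 443 q N M) : False := by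
  have ho : q % 2 = 1 := (hq.eq_two_or_odd).resolve_left (by omega)
  rcases Nat.lt_or_ge q 703 with hb | hb
  · exact chunk_sound ck443_617 W23_dvd (by norm_num) Nat.one_pos ef443_prime fqT_prime GT_prime hq
      (by omega) (by omega) (by omega) h
  exact chunk_sound ck443_703 WW_dvd (by norm_num) Nat.one_pos ef443_prime fqT_prime GT_prime hq
      (by omega) (by omega) (by omega) h

theorem EX449 {q : ℕ} (hq : q.Prime) (h1 : 600 < q) (h2 : q ≤ 1189) {N M : ℕ}
    (h : Sol 449 q N M) : False := by
  have ho : q % 2 = 1 := (hq.eq_two_or_odd).resolve_left (by omega)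
  rcases Nat.lt_or_ge q 703 with hb | hb
  · exact chunk_sound ck449_601 W23_dvd (by norm_num) Nat.one_pos ef449_prime fqT_prime GT_prime hq
      (by omega) (by omega) (by omega) h
  exact chunk_sound ck449_703 WW_dvd (by norm_num) Nat.one_pos ef449_prime fqT_prime GT_prime hq
      (by omega) (by omega) (by omega) h

theorem EX457 {q : ℕ} (hq : q.Prime) (h1 : 590 < q) (h2 : q ≤ 1137) {N M : ℕ}
    (h : Sol 457 q N M) : False := by
  have ho : q % 2 = 1 := (hq.eq_two_or_odd).resolve_left (by omega)
  rcases Nat.lt_or_ge q 703 with hb | hb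
  · exact chunk_sound ck457_591 W23_dvd (by norm_num) Nat.one_pos ef457_prime fqT_prime GT_prime hq
      (by omega) (by omega) (by omega) h
  exact chunk_sound ck457_703 WW_dvd (by norm_num) Nat.one_pos ef457_prime fqT_prime GT_prime hq
      (by omega) (by omega) (by omega) h

theorem EX461 {q : ℕ} (hq : q.Prime) (h1 : 580 < q) (h2 : q ≤ 1113) {N M : ℕ}
    (h : Sol 461 q N M) : False := by
  have ho : q % 2 = 1 := (hq.eq_two_or_odd).resolve_left (by omega)
  rcases Nat.lt_or_ge q 703 with hb | hb
  · exact chunk_sound ck461_581 W23_dvd (by norm_num) Nat.one_pos ef461_prime fqT_prime GT_prime hq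
      (by omega) (by omega) (by omega) h
  exact chunk_sound ck461_703 WW_dvd (by norm_num) Nat.one_pos ef461_prime fqT_prime GT_prime hq
      (by omega) (by omega) (by omega) h

theorem EX463 {q : ℕ} (hq : q.Prime) (h1 : 580 < q) (h2 : q ≤ 1102) {N M : ℕ}
    (h : Sol 463 q N M) : False := by
  have ho : q % 2 = 1 := (hq.eq_two_or_odd).resolve_left (by omega)
  rcases Nat.lt_or_ge q 703 with hb | hb
  · exact chunk_sound ck463_581 W23_dvd (by norm_num) Nat.one_pos ef463_prime fqT_prime GT_prime hq
      (by omega) (by omega) (by omega) h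
  exact chunk_sound ck463_703 WW_dvd (by norm_num) Nat.one_pos ef463_prime fqT_prime GT_prime hq
      (by omega) (by omega) (by omega) h

theorem EX467 {q : ℕ} (hq : q.Prime) (h1 : 575 < q) (h2 : q ≤ 1080) {N M : ℕ}
    (h : Sol 467 q N M) : False := by
  have ho : q % 2 = 1 := (hq.eq_two_or_odd).resolve_left (by omega)
  rcases Nat.lt_or_ge q 703 with hb | hb
  · exact chunk_sound ck467_577 W23_dvd (by norm_num) Nat.one_pos ef467_prime fqT_prime GT_prime hq
      (by omega) (by omega) (by omega) h
  exact chunk_sound ck467_703 WW_dvd (by norm_num) Nat.one_pos ef467_prime fqT_prime GT_prime hq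
      (by omega) (by omega) (by omega) h

theorem EX479 {q : ℕ} (hq : q.Prime) (h1 : 560 < q) (h2 : q ≤ 1021) {N M : ℕ}
    (h : Sol 479 q N M) : False := by
  have ho : q % 2 = 1 := (hq.eq_two_or_odd).resolve_left (by omega)
  rcases Nat.lt_or_ge q 703 with hb | hb
  · exact chunk_sound ck479_561 W23_dvd (by norm_num) Nat.one_pos ef479_prime fqT_prime GT_prime hq
      (by omega) (by omega) (by omega) h
  exact chunk_sound ck479_703 WW_dvd (by norm_num) Nat.one_pos ef479_prime fqT_prime GT_prime hq
      (by omega) (by omega) (by omega) h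

theorem EX487 {q : ℕ} (hq : q.Prime) (h1 : 545 < q) (h2 : q ≤ 986) {N M : ℕ}
    (h : Sol 487 q N M) : False := by
  have ho : q % 2 = 1 := (hq.eq_two_or_odd).resolve_left (by omega)
  rcases Nat.lt_or_ge q 703 with hb | hb
  · exact chunk_sound ck487_547 W23_dvd (by norm_num) Nat.one_pos ef487_prime fqT_prime GT_prime hq
      (by omega) (by omega) (by omega) h
  exact chunk_sound ck487_703 WW_dvd (by norm_num) Nat.one_pos ef487_prime fqT_prime GT_prime hq
      (by omega) (by omega) (by omega) h

theorem EX491 {q : ℕ} (hq : q.Prime) (h1 : 540 < q) (h2 : q ≤ 971) {N M : ℕ}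
    (h : Sol 491 q N M) : False := by
  have ho : q % 2 = 1 := (hq.eq_two_or_odd).resolve_left (by omega)
  rcases Nat.lt_or_ge q 703 with hb | hb
  · exact chunk_sound ck491_541 W23_dvd (by norm_num) Nat.one_pos ef491_prime fqT_prime GT_prime hq
      (by omega) (by omega) (by omega) h
  exact chunk_sound ck491_703 WW_dvd (by norm_num) Nat.one_pos ef491_prime fqT_prime GT_prime hq
      (by omega) (by omega) (by omega) h

theorem EX499 {q : ℕ} (hq : q.Prime) (h1 : 530 < q) (h2 : q ≤ 941) {N M : ℕ}
    (h : Sol 499 q N M) : False := by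
  have ho : q % 2 = 1 := (hq.eq_two_or_odd).resolve_left (by omega)
  rcases Nat.lt_or_ge q 703 with hb | hb
  · exact chunk_sound ck499_531 W23_dvd (by norm_num) Nat.one_pos ef499_prime fqT_prime GT_prime hq
      (by omega) (by omega) (by omega) h
  exact chunk_sound ck499_703 WW_dvd (by norm_num) Nat.one_pos ef499_prime fqT_prime GT_prime hq
      (by omega) (by omega) (by omega) h

theorem EX503 {q : ℕ} (hq : q.Prime) (h1 : 530 < q) (h2 : q ≤ 927) {N M : ℕ}
    (h : Sol 503 q N M) : False := by
  have ho : q % 2 = 1 := (hq.eq_two_or_odd).resolve_left (by omega)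
  rcases Nat.lt_or_ge q 703 with hb | hb
  · exact chunk_sound ck503_531 W23_dvd (by norm_num) Nat.one_pos ef503_prime fqT_prime GT_prime hq
      (by omega) (by omega) (by omega) h
  exact chunk_sound ck503_703 WW_dvd (by norm_num) Nat.one_pos ef503_prime fqT_prime GT_prime hq
      (by omega) (by omega) (by omega) h

theorem EX509 {q : ℕ} (hq : q.Prime) (h1 : 520 < q) (h2 : q ≤ 908) {N M : ℕ}
    (h : Sol 509 q N M) : False := by
  have ho : q % 2 = 1 := (hq.eq_two_or_odd).resolve_left (by omega)
  rcases Nat.lt_or_ge q 703 with hb | hb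
  · exact chunk_sound ck509_521 W23_dvd (by norm_num) Nat.one_pos ef509_prime fqT_prime GT_prime hq
      (by omega) (by omega) (by omega) h
  exact chunk_sound ck509_703 WW_dvd (by norm_num) Nat.one_pos ef509_prime fqT_prime GT_prime hq
      (by omega) (by omega) (by omega) h

theorem ef521_prime : ∀ x ∈ ef521, x.2.Prime := prL_sound (by decide +kernel)

theorem EX521 {q : ℕ} (hq : q.Prime) (h1 : 521 < q) (h2 : q ≤ 873) {N M : ℕ}
    (h : Sol 521 q N M) : False := by
  have ho : q % 2 = 1 := (hq.eq_two_or_odd).resolve_left (by omega)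
  rcases Nat.lt_or_ge q 703 with hb | hb
  · exact chunk_sound ck521_523 W23_dvd (by norm_num) Nat.one_pos ef521_prime fqT_prime GT_prime hq
      (by omega) (by omega) (by omega) h
  exact chunk_sound ck521_703 WW_dvd (by norm_num) Nat.one_pos ef521_prime fqT_prime GT_prime hq
      (by omega) (by omega) (by omega) h

theorem ef523_prime : ∀ x ∈ ef523, x.2.Prime := prL_sound (by decide +kernel)

theorem EX523 {q : ℕ} (hq : q.Prime) (h1 : 523 < q) (h2 : q ≤ 867) {N M : ℕ}
    (h : Sol 523 q N M) : False := by
  have ho : q % 2 = 1 := (hq.eq_two_or_odd).resolve_left (by omega)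
  rcases Nat.lt_or_ge q 703 with hb | hb
  · exact chunk_sound ck523_525 W23_dvd (by norm_num) Nat.one_pos ef523_prime fqT_prime GT_prime hq
      (by omega) (by omega) (by omega) h
  exact chunk_sound ck523_703 WW_dvd (by norm_num) Nat.one_pos ef523_prime fqT_prime GT_prime hq
      (by omega) (by omega) (by omega) h

theorem ef541_prime : ∀ x ∈ ef541, x.2.Prime := prL_sound (by decide +kernel)

theorem EX541 {q : ℕ} (hq : q.Prime) (h1 : 541 < q) (h2 : q ≤ 822) {N M : ℕ}
    (h : Sol 541 q N M) : False := by
  have ho : q % 2 = 1 := (hq.eq_two_or_odd).resolve_left (by omega)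
  rcases Nat.lt_or_ge q 703 with hb | hb
  · exact chunk_sound ck541_543 W23_dvd (by norm_num) Nat.one_pos ef541_prime fqT_prime GT_prime hq
      (by omega) (by omega) (by omega) h
  exact chunk_sound ck541_703 WW_dvd (by norm_num) Nat.one_pos ef541_prime fqT_prime GT_prime hq
      (by omega) (by omega) (by omega) h

theorem ef547_prime : ∀ x ∈ ef547, x.2.Prime := prL_sound (by decide +kernel)

theorem EX547 {q : ℕ} (hq : q.Prime) (h1 : 547 < q) (h2 : q ≤ 809) {N M : ℕ}
    (h : Sol 547 q N M) : False := by
  have ho : q % 2 = 1 := (hq.eq_two_or_odd).resolve_left (by omega)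
  rcases Nat.lt_or_ge q 703 with hb | hb
  · exact chunk_sound ck547_549 W23_dvd (by norm_num) Nat.one_pos ef547_prime fqT_prime GT_prime hq
      (by omega) (by omega) (by omega) h
  exact chunk_sound ck547_703 WW_dvd (by norm_num) Nat.one_pos ef547_prime fqT_prime GT_prime hq
      (by omega) (by omega) (by omega) h

theorem ef557_prime : ∀ x ∈ ef557, x.2.Prime := prL_sound (by decide +kernel)

theorem EX557 {q : ℕ} (hq : q.Prime) (h1 : 557 < q) (h2 : q ≤ 800) {N M : ℕ}
    (h : Sol 557 q N M) : False := by
  have ho : q % 2 = 1 := (hq.eq_two_or_odd).resolve_left (by omega)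
  rcases Nat.lt_or_ge q 703 with hb | hb
  · exact chunk_sound ck557_559 W23_dvd (by norm_num) Nat.one_pos ef557_prime fqT_prime GT_prime hq
      (by omega) (by omega) (by omega) h
  exact chunk_sound ck557_703 WW_dvd (by norm_num) Nat.one_pos ef557_prime fqT_prime GT_prime hq
      (by omega) (by omega) (by omega) h

theorem ef563_prime : ∀ x ∈ ef563, x.2.Prime := prL_sound (by decide +kernel)

theorem EX563 {q : ℕ} (hq : q.Prime) (h1 : 563 < q) (h2 : q ≤ 800) {N M : ℕ}
    (h : Sol 563 q N M) : False := by
  have ho : q % 2 = 1 := (hq.eq_two_or_odd).resolve_left (by omega)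
  rcases Nat.lt_or_ge q 703 with hb | hb
  · exact chunk_sound ck563_565 W23_dvd (by norm_num) Nat.one_pos ef563_prime fqT_prime GT_prime hq
      (by omega) (by omega) (by omega) h
  exact chunk_sound ck563_703 WW_dvd (by norm_num) Nat.one_pos ef563_prime fqT_prime GT_prime hq
      (by omega) (by omega) (by omega) h

theorem ef569_prime : ∀ x ∈ ef569, x.2.Prime := prL_sound (by decide +kernel)

theorem EX569 {q : ℕ} (hq : q.Prime) (h1 : 569 < q) (h2 : q ≤ 800) {N M : ℕ}
    (h : Sol 569 q N M) : False := by
  have ho : q % 2 = 1 := (hq.eq_two_or_odd).resolve_left (by omega)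
  rcases Nat.lt_or_ge q 703 with hb | hb
  · exact chunk_sound ck569_571 W23_dvd (by norm_num) Nat.one_pos ef569_prime fqT_prime GT_prime hq
      (by omega) (by omega) (by omega) h
  exact chunk_sound ck569_703 WW_dvd (by norm_num) Nat.one_pos ef569_prime fqT_prime GT_prime hq
      (by omega) (by omega) (by omega) h

theorem ef571_prime : ∀ x ∈ ef571, x.2.Prime := prL_sound (by decide +kernel)

theorem EX571 {q : ℕ} (hq : q.Prime) (h1 : 571 < q) (h2 : q ≤ 800) {N M : ℕ}
    (h : Sol 571 q N M) : False := by
  have ho : q % 2 = 1 := (hq.eq_two_or_odd).resolve_left (by omega)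
  rcases Nat.lt_or_ge q 703 with hb | hb
  · exact chunk_sound ck571_573 W23_dvd (by norm_num) Nat.one_pos ef571_prime fqT_prime GT_prime hq
      (by omega) (by omega) (by omega) h
  exact chunk_sound ck571_703 WW_dvd (by norm_num) Nat.one_pos ef571_prime fqT_prime GT_prime hq
      (by omega) (by omega) (by omega) h

theorem ef577_prime : ∀ x ∈ ef577, x.2.Prime := prL_sound (by decide +kernel)

theorem EX577 {q : ℕ} (hq : q.Prime) (h1 : 577 < q) (h2 : q ≤ 800) {N M : ℕ}
    (h : Sol 577 q N M) : False := by
  have ho : q % 2 = 1 := (hq.eq_two_or_odd).resolve_left (by omega)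
  rcases Nat.lt_or_ge q 703 with hb | hb
  · exact chunk_sound ck577_579 W23_dvd (by norm_num) Nat.one_pos ef577_prime fqT_prime GT_prime hq
      (by omega) (by omega) (by omega) h
  exact chunk_sound ck577_703 WW_dvd (by norm_num) Nat.one_pos ef577_prime fqT_prime GT_prime hq
      (by omega) (by omega) (by omega) h

theorem ef587_prime : ∀ x ∈ ef587, x.2.Prime := prL_sound (by decide +kernel)

theorem EX587 {q : ℕ} (hq : q.Prime) (h1 : 587 < q) (h2 : q ≤ 800) {N M : ℕ}
    (h : Sol 587 q N M) : False := by
  have ho : q % 2 = 1 := (hq.eq_two_or_odd).resolve_left (by omega)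
  rcases Nat.lt_or_ge q 703 with hb | hb
  · exact chunk_sound ck587_589 W23_dvd (by norm_num) Nat.one_pos ef587_prime fqT_prime GT_prime hq
      (by omega) (by omega) (by omega) h
  exact chunk_sound ck587_703 WW_dvd (by norm_num) Nat.one_pos ef587_prime fqT_prime GT_prime hq
      (by omega) (by omega) (by omega) h

theorem ef593_prime : ∀ x ∈ ef593, x.2.Prime := prL_sound (by decide +kernel)

theorem EX593 {q : ℕ} (hq : q.Prime) (h1 : 593 < q) (h2 : q ≤ 800) {N M : ℕ}
    (h : Sol 593 q N M) : False := by
  have ho : q % 2 = 1 := (hq.eq_two_or_odd).resolve_left (by omega)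
  rcases Nat.lt_or_ge q 703 with hb | hb
  · exact chunk_sound ck593_595 W23_dvd (by norm_num) Nat.one_pos ef593_prime fqT_prime GT_prime hq
      (by omega) (by omega) (by omega) h
  exact chunk_sound ck593_703 WW_dvd (by norm_num) Nat.one_pos ef593_prime fqT_prime GT_prime hq
      (by omega) (by omega) (by omega) h

theorem ef599_prime : ∀ x ∈ ef599, x.2.Prime := prL_sound (by decide +kernel)

theorem EX599 {q : ℕ} (hq : q.Prime) (h1 : 599 < q) (h2 : q ≤ 800) {N M : ℕ}
    (h : Sol 599 q N M) : False := by
  have ho : q % 2 = 1 := (hq.eq_two_or_odd).resolve_left (by omega)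
  rcases Nat.lt_or_ge q 703 with hb | hb
  · exact chunk_sound ck599_601 W23_dvd (by norm_num) Nat.one_pos ef599_prime fqT_prime GT_prime hq
      (by omega) (by omega) (by omega) h
  exact chunk_sound ck599_703 WW_dvd (by norm_num) Nat.one_pos ef599_prime fqT_prime GT_prime hq
      (by omega) (by omega) (by omega) h

theorem ef601_prime : ∀ x ∈ ef601, x.2.Prime := prL_sound (by decide +kernel)

theorem EX601 {q : ℕ} (hq : q.Prime) (h1 : 601 < q) (h2 : q ≤ 800) {N M : ℕ}
    (h : Sol 601 q N M) : False := by
  have ho : q % 2 = 1 := (hq.eq_two_or_odd).resolve_left (by omega)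
  rcases Nat.lt_or_ge q 703 with hb | hb
  · exact chunk_sound ck601_603 W23_dvd (by norm_num) Nat.one_pos ef601_prime fqT_prime GT_prime hq
      (by omega) (by omega) (by omega) h
  exact chunk_sound ck601_703 WW_dvd (by norm_num) Nat.one_pos ef601_prime fqT_prime GT_prime hq
      (by omega) (by omega) (by omega) h

theorem ef607_prime : ∀ x ∈ ef607, x.2.Prime := prL_sound (by decide +kernel)

theorem EX607 {q : ℕ} (hq : q.Prime) (h1 : 607 < q) (h2 : q ≤ 800) {N M : ℕ}
    (h : Sol 607 q N M) : False := by
  have ho : q % 2 = 1 := (hq.eq_two_or_odd).resolve_left (by omega)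
  rcases Nat.lt_or_ge q 703 with hb | hb
  · exact chunk_sound ck607_609 W23_dvd (by norm_num) Nat.one_pos ef607_prime fqT_prime GT_prime hq
      (by omega) (by omega) (by omega) h
  exact chunk_sound ck607_703 WW_dvd (by norm_num) Nat.one_pos ef607_prime fqT_prime GT_prime hq
      (by omega) (by omega) (by omega) h

theorem ef613_prime : ∀ x ∈ ef613, x.2.Prime := prL_sound (by decide +kernel)

theorem EX613 {q : ℕ} (hq : q.Prime) (h1 : 613 < q) (h2 : q ≤ 800) {N M : ℕ}
    (h : Sol 613 q N M) : False := by
  have ho : q % 2 = 1 := (hq.eq_two_or_odd).resolve_left (by omega)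
  rcases Nat.lt_or_ge q 703 with hb | hb
  · exact chunk_sound ck613_615 W23_dvd (by norm_num) Nat.one_pos ef613_prime fqT_prime GT_prime hq
      (by omega) (by omega) (by omega) h
  exact chunk_sound ck613_703 WW_dvd (by norm_num) Nat.one_pos ef613_prime fqT_prime GT_prime hq
      (by omega) (by omega) (by omega) h

theorem ef617_prime : ∀ x ∈ ef617, x.2.Prime := prL_sound (by decide +kernel)

theorem EX617 {q : ℕ} (hq : q.Prime) (h1 : 617 < q) (h2 : q ≤ 800) {N M : ℕ}
    (h : Sol 617 q N M) : False := by
  have ho : q % 2 = 1 := (hq.eq_two_or_odd).resolve_left (by omega)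
  rcases Nat.lt_or_ge q 703 with hb | hb
  · exact chunk_sound ck617_619 W23_dvd (by norm_num) Nat.one_pos ef617_prime fqT_prime GT_prime hq
      (by omega) (by omega) (by omega) h
  exact chunk_sound ck617_703 WW_dvd (by norm_num) Nat.one_pos ef617_prime fqT_prime GT_prime hq
      (by omega) (by omega) (by omega) h

theorem ef619_prime : ∀ x ∈ ef619, x.2.Prime := prL_sound (by decide +kernel)

theorem EX619 {q : ℕ} (hq : q.Prime) (h1 : 619 < q) (h2 : q ≤ 800) {N M : ℕ}
    (h : Sol 619 q N M) : False := by
  have ho : q % 2 = 1 := (hq.eq_two_or_odd).resolve_left (by omega)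
  rcases Nat.lt_or_ge q 703 with hb | hb
  · exact chunk_sound ck619_621 W23_dvd (by norm_num) Nat.one_pos ef619_prime fqT_prime GT_prime hq
      (by omega) (by omega) (by omega) h
  exact chunk_sound ck619_703 WW_dvd (by norm_num) Nat.one_pos ef619_prime fqT_prime GT_prime hq
      (by omega) (by omega) (by omega) h

theorem ef631_prime : ∀ x ∈ ef631, x.2.Prime := prL_sound (by decide +kernel)

theorem EX631 {q : ℕ} (hq : q.Prime) (h1 : 631 < q) (h2 : q ≤ 800) {N M : ℕ}
    (h : Sol 631 q N M) : False := by
  have ho : q % 2 = 1 := (hq.eq_two_or_odd).resolve_left (by omega)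
  rcases Nat.lt_or_ge q 703 with hb | hb
  · exact chunk_sound ck631_633 W23_dvd (by norm_num) Nat.one_pos ef631_prime fqT_prime GT_prime hq
      (by omega) (by omega) (by omega) h
  exact chunk_sound ck631_703 WW_dvd (by norm_num) Nat.one_pos ef631_prime fqT_prime GT_prime hq
      (by omega) (by omega) (by omega) h

theorem ef641_prime : ∀ x ∈ ef641, x.2.Prime := prL_sound (by decide +kernel)

theorem EX641 {q : ℕ} (hq : q.Prime) (h1 : 641 < q) (h2 : q ≤ 800) {N M : ℕ}
    (h : Sol 641 q N M) : False := by
  have ho : q % 2 = 1 := (hq.eq_two_or_odd).resolve_left (by omega)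
  rcases Nat.lt_or_ge q 703 with hb | hb
  · exact chunk_sound ck641_643 W23_dvd (by norm_num) Nat.one_pos ef641_prime fqT_prime GT_prime hq
      (by omega) (by omega) (by omega) h
  exact chunk_sound ck641_703 WW_dvd (by norm_num) Nat.one_pos ef641_prime fqT_prime GT_prime hq
      (by omega) (by omega) (by omega) h

theorem ef643_prime : ∀ x ∈ ef643, x.2.Prime := prL_sound (by decide +kernel)

theorem EX643 {q : ℕ} (hq : q.Prime) (h1 : 643 < q) (h2 : q ≤ 800) {N M : ℕ}
    (h : Sol 643 q N M) : False := by
  have ho : q % 2 = 1 := (hq.eq_two_or_odd).resolve_left (by omega)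
  rcases Nat.lt_or_ge q 703 with hb | hb
  · exact chunk_sound ck643_645 W23_dvd (by norm_num) Nat.one_pos ef643_prime fqT_prime GT_prime hq
      (by omega) (by omega) (by omega) h
  exact chunk_sound ck643_703 WW_dvd (by norm_num) Nat.one_pos ef643_prime fqT_prime GT_prime hq
      (by omega) (by omega) (by omega) h

theorem ef647_prime : ∀ x ∈ ef647, x.2.Prime := prL_sound (by decide +kernel)

theorem EX647 {q : ℕ} (hq : q.Prime) (h1 : 647 < q) (h2 : q ≤ 800) {N M : ℕ}
    (h : Sol 647 q N M) : False := by
  have ho : q % 2 = 1 := (hq.eq_two_or_odd).resolve_left (by omega)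
  rcases Nat.lt_or_ge q 703 with hb | hb
  · exact chunk_sound ck647_649 W23_dvd (by norm_num) Nat.one_pos ef647_prime fqT_prime GT_prime hq
      (by omega) (by omega) (by omega) h
  exact chunk_sound ck647_703 WW_dvd (by norm_num) Nat.one_pos ef647_prime fqT_prime GT_prime hq
      (by omega) (by omega) (by omega) h

theorem ef653_prime : ∀ x ∈ ef653, x.2.Prime := prL_sound (by decide +kernel)

theorem EX653 {q : ℕ} (hq : q.Prime) (h1 : 653 < q) (h2 : q ≤ 800) {N M : ℕ}
    (h : Sol 653 q N M) : False := by
  have ho : q % 2 = 1 := (hq.eq_two_or_odd).resolve_left (by omega)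
  rcases Nat.lt_or_ge q 703 with hb | hb
  · exact chunk_sound ck653_655 W23_dvd (by norm_num) Nat.one_pos ef653_prime fqT_prime GT_prime hq
      (by omega) (by omega) (by omega) h
  exact chunk_sound ck653_703 WW_dvd (by norm_num) Nat.one_pos ef653_prime fqT_prime GT_prime hq
      (by omega) (by omega) (by omega) h

theorem ef659_prime : ∀ x ∈ ef659, x.2.Prime := prL_sound (by decide +kernel)

theorem EX659 {q : ℕ} (hq : q.Prime) (h1 : 659 < q) (h2 : q ≤ 800) {N M : ℕ}
    (h : Sol 659 q N M) : False := by
  have ho : q % 2 = 1 := (hq.eq_two_or_odd).resolve_left (by omega)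
  rcases Nat.lt_or_ge q 703 with hb | hb
  · exact chunk_sound ck659_661 W23_dvd (by norm_num) Nat.one_pos ef659_prime fqT_prime GT_prime hq
      (by omega) (by omega) (by omega) h
  exact chunk_sound ck659_703 WW_dvd (by norm_num) Nat.one_pos ef659_prime fqT_prime GT_prime hq
      (by omega) (by omega) (by omega) h

theorem ef661_prime : ∀ x ∈ ef661, x.2.Prime := prL_sound (by decide +kernel)

theorem EX661 {q : ℕ} (hq : q.Prime) (h1 : 661 < q) (h2 : q ≤ 800) {N M : ℕ}
    (h : Sol 661 q N M) : False := by
  have ho : q % 2 = 1 := (hq.eq_two_or_odd).resolve_left (by omega)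
  rcases Nat.lt_or_ge q 703 with hb | hb
  · exact chunk_sound ck661_663 W23_dvd (by norm_num) Nat.one_pos ef661_prime fqT_prime GT_prime hq
      (by omega) (by omega) (by omega) h
  exact chunk_sound ck661_703 WW_dvd (by norm_num) Nat.one_pos ef661_prime fqT_prime GT_prime hq
      (by omega) (by omega) (by omega) h

theorem ef673_prime : ∀ x ∈ ef673, x.2.Prime := prL_sound (by decide +kernel)

theorem EX673 {q : ℕ} (hq : q.Prime) (h1 : 673 < q) (h2 : q ≤ 800) {N M : ℕ}
    (h : Sol 673 q N M) : False := by
  have ho : q % 2 = 1 := (hq.eq_two_or_odd).resolve_left (by omega)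
  rcases Nat.lt_or_ge q 703 with hb | hb
  · exact chunk_sound ck673_675 W23_dvd (by norm_num) Nat.one_pos ef673_prime fqT_prime GT_prime hq
      (by omega) (by omega) (by omega) h
  exact chunk_sound ck673_703 WW_dvd (by norm_num) Nat.one_pos ef673_prime fqT_prime GT_prime hq
      (by omega) (by omega) (by omega) h

theorem ef677_prime : ∀ x ∈ ef677, x.2.Prime := prL_sound (by decide +kernel)

theorem EX677 {q : ℕ} (hq : q.Prime) (h1 : 677 < q) (h2 : q ≤ 800) {N M : ℕ}
    (h : Sol 677 q N M) : False := by
  have ho : q % 2 = 1 := (hq.eq_two_or_odd).resolve_left (by omega)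
  rcases Nat.lt_or_ge q 703 with hb | hb
  · exact chunk_sound ck677_679 W23_dvd (by norm_num) Nat.one_pos ef677_prime fqT_prime GT_prime hq
      (by omega) (by omega) (by omega) h
  exact chunk_sound ck677_703 WW_dvd (by norm_num) Nat.one_pos ef677_prime fqT_prime GT_prime hq
      (by omega) (by omega) (by omega) h

theorem ef683_prime : ∀ x ∈ ef683, x.2.Prime := prL_sound (by decide +kernel)

theorem EX683 {q : ℕ} (hq : q.Prime) (h1 : 683 < q) (h2 : q ≤ 800) {N M : ℕ}
    (h : Sol 683 q N M) : False := by
  have ho : q % 2 = 1 := (hq.eq_two_or_odd).resolve_left (by omega)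
  rcases Nat.lt_or_ge q 703 with hb | hb
  · exact chunk_sound ck683_685 W23_dvd (by norm_num) Nat.one_pos ef683_prime fqT_prime GT_prime hq
      (by omega) (by omega) (by omega) h
  exact chunk_sound ck683_703 WW_dvd (by norm_num) Nat.one_pos ef683_prime fqT_prime GT_prime hq
      (by omega) (by omega) (by omega) h

theorem ef691_prime : ∀ x ∈ ef691, x.2.Prime := prL_sound (by decide +kernel)

theorem EX691 {q : ℕ} (hq : q.Prime) (h1 : 691 < q) (h2 : q ≤ 800) {N M : ℕ}
    (h : Sol 691 q N M) : False := by
  have ho : q % 2 = 1 := (hq.eq_two_or_odd).resolve_left (by omega)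
  rcases Nat.lt_or_ge q 703 with hb | hb
  · exact chunk_sound ck691_693 W23_dvd (by norm_num) Nat.one_pos ef691_prime fqT_prime GT_prime hq
      (by omega) (by omega) (by omega) h
  exact chunk_sound ck691_703 WW_dvd (by norm_num) Nat.one_pos ef691_prime fqT_prime GT_prime hq
      (by omega) (by omega) (by omega) h

theorem ef701_prime : ∀ x ∈ ef701, x.2.Prime := prL_sound (by decide +kernel)

theorem EX701 {q : ℕ} (hq : q.Prime) (h1 : 701 < q) (h2 : q ≤ 800) {N M : ℕ}
    (h : Sol 701 q N M) : False := by
  have ho : q % 2 = 1 := (hq.eq_two_or_odd).resolve_left (by omega)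
  exact chunk_sound ck701_703 WW_dvd (by norm_num) Nat.one_pos ef701_prime fqT_prime GT_prime hq
      (by omega) (by omega) (by omega) h

theorem ef709_prime : ∀ x ∈ ef709, x.2.Prime := prL_sound (by decide +kernel)

theorem EX709 {q : ℕ} (hq : q.Prime) (h1 : 709 < q) (h2 : q ≤ 800) {N M : ℕ}
    (h : Sol 709 q N M) : False := by
  have ho : q % 2 = 1 := (hq.eq_two_or_odd).resolve_left (by omega)
  exact chunk_sound ck709_711 WW_dvd (by norm_num) Nat.one_pos ef709_prime fqT_prime GT_prime hq
      (by omega) (by omega) (by omega) h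

theorem ef719_prime : ∀ x ∈ ef719, x.2.Prime := prL_sound (by decide +kernel)

theorem EX719 {q : ℕ} (hq : q.Prime) (h1 : 719 < q) (h2 : q ≤ 800) {N M : ℕ}
    (h : Sol 719 q N M) : False := by
  have ho : q % 2 = 1 := (hq.eq_two_or_odd).resolve_left (by omega)
  exact chunk_sound ck719_721 WW_dvd (by norm_num) Nat.one_pos ef719_prime fqT_prime GT_prime hq
      (by omega) (by omega) (by omega) h

theorem ef727_prime : ∀ x ∈ ef727, x.2.Prime := prL_sound (by decide +kernel)

theorem EX727 {q : ℕ} (hq : q.Prime) (h1 : 727 < q) (h2 : q ≤ 800) {N M : ℕ}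
    (h : Sol 727 q N M) : False := by
  have ho : q % 2 = 1 := (hq.eq_two_or_odd).resolve_left (by omega)
  exact chunk_sound ck727_729 WW_dvd (by norm_num) Nat.one_pos ef727_prime fqT_prime GT_prime hq
      (by omega) (by omega) (by omega) h

theorem ef733_prime : ∀ x ∈ ef733, x.2.Prime := prL_sound (by decide +kernel)

theorem EX733 {q : ℕ} (hq : q.Prime) (h1 : 733 < q) (h2 : q ≤ 800) {N M : ℕ}
    (h : Sol 733 q N M) : False := by
  have ho : q % 2 = 1 := (hq.eq_two_or_odd).resolve_left (by omega)
  exact chunk_sound ck733_735 WW_dvd (by norm_num) Nat.one_pos ef733_prime fqT_prime GT_prime hq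
      (by omega) (by omega) (by omega) h

theorem ef739_prime : ∀ x ∈ ef739, x.2.Prime := prL_sound (by decide +kernel)

theorem EX739 {q : ℕ} (hq : q.Prime) (h1 : 739 < q) (h2 : q ≤ 800) {N M : ℕ}
    (h : Sol 739 q N M) : False := by
  have ho : q % 2 = 1 := (hq.eq_two_or_odd).resolve_left (by omega)
  exact chunk_sound ck739_741 WW_dvd (by norm_num) Nat.one_pos ef739_prime fqT_prime GT_prime hq
      (by omega) (by omega) (by omega) h

theorem ef743_prime : ∀ x ∈ ef743, x.2.Prime := prL_sound (by decide +kernel)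

theorem EX743 {q : ℕ} (hq : q.Prime) (h1 : 743 < q) (h2 : q ≤ 800) {N M : ℕ}
    (h : Sol 743 q N M) : False := by
  have ho : q % 2 = 1 := (hq.eq_two_or_odd).resolve_left (by omega)
  exact chunk_sound ck743_745 WW_dvd (by norm_num) Nat.one_pos ef743_prime fqT_prime GT_prime hq
      (by omega) (by omega) (by omega) h

theorem ef751_prime : ∀ x ∈ ef751, x.2.Prime := prL_sound (by decide +kernel)

theorem EX751 {q : ℕ} (hq : q.Prime) (h1 : 751 < q) (h2 : q ≤ 800) {N M : ℕ}
    (h : Sol 751 q N M) : False := by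
  have ho : q % 2 = 1 := (hq.eq_two_or_odd).resolve_left (by omega)
  exact chunk_sound ck751_753 WW_dvd (by norm_num) Nat.one_pos ef751_prime fqT_prime GT_prime hq
      (by omega) (by omega) (by omega) h

theorem ef757_prime : ∀ x ∈ ef757, x.2.Prime := prL_sound (by decide +kernel)

theorem EX757 {q : ℕ} (hq : q.Prime) (h1 : 757 < q) (h2 : q ≤ 800) {N M : ℕ}
    (h : Sol 757 q N M) : False := by
  have ho : q % 2 = 1 := (hq.eq_two_or_odd).resolve_left (by omega)
  exact chunk_sound ck757_759 WW_dvd (by norm_num) Nat.one_pos ef757_prime fqT_prime GT_prime hq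
      (by omega) (by omega) (by omega) h

theorem ef761_prime : ∀ x ∈ ef761, x.2.Prime := prL_sound (by decide +kernel)

theorem EX761 {q : ℕ} (hq : q.Prime) (h1 : 761 < q) (h2 : q ≤ 800) {N M : ℕ}
    (h : Sol 761 q N M) : False := by
  have ho : q % 2 = 1 := (hq.eq_two_or_odd).resolve_left (by omega)
  exact chunk_sound ck761_763 WW_dvd (by norm_num) Nat.one_pos ef761_prime fqT_prime GT_prime hq
      (by omega) (by omega) (by omega) h

theorem ef769_prime : ∀ x ∈ ef769, x.2.Prime := prL_sound (by decide +kernel)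

theorem EX769 {q : ℕ} (hq : q.Prime) (h1 : 769 < q) (h2 : q ≤ 800) {N M : ℕ}
    (h : Sol 769 q N M) : False := by
  have ho : q % 2 = 1 := (hq.eq_two_or_odd).resolve_left (by omega)
  exact chunk_sound ck769_771 WW_dvd (by norm_num) Nat.one_pos ef769_prime fqT_prime GT_prime hq
      (by omega) (by omega) (by omega) h

theorem ef773_prime : ∀ x ∈ ef773, x.2.Prime := prL_sound (by decide +kernel)

theorem EX773 {q : ℕ} (hq : q.Prime) (h1 : 773 < q) (h2 : q ≤ 800) {N M : ℕ}
    (h : Sol 773 q N M) : False := by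
  have ho : q % 2 = 1 := (hq.eq_two_or_odd).resolve_left (by omega)
  exact chunk_sound ck773_775 WW_dvd (by norm_num) Nat.one_pos ef773_prime fqT_prime GT_prime hq
      (by omega) (by omega) (by omega) h

theorem ef787_prime : ∀ x ∈ ef787, x.2.Prime := prL_sound (by decide +kernel)

theorem EX787 {q : ℕ} (hq : q.Prime) (h1 : 787 < q) (h2 : q ≤ 800) {N M : ℕ}
    (h : Sol 787 q N M) : False := by
  have ho : q % 2 = 1 := (hq.eq_two_or_odd).resolve_left (by omega)
  exact chunk_sound ck787_789 WW_dvd (by norm_num) Nat.one_pos ef787_prime fqT_prime GT_prime hq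
      (by omega) (by omega) (by omega) h

theorem ef797_prime : ∀ x ∈ ef797, x.2.Prime := prL_sound (by decide +kernel)

theorem EX797 {q : ℕ} (hq : q.Prime) (h1 : 797 < q) (h2 : q ≤ 800) {N M : ℕ}
    (h : Sol 797 q N M) : False := by
  have ho : q % 2 = 1 := (hq.eq_two_or_odd).resolve_left (by omega)
  exact chunk_sound ck797_799 WW_dvd (by norm_num) Nat.one_pos ef797_prime fqT_prime GT_prime hq
      (by omega) (by omega) (by omega) h

end Pool.Agent.NearSuper255
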