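import Pool.Agent.NearSuper255.RtDef

/-!
# The second table of bounds for the second base
-/

namespace Pool.Agent.NearSuper255

def R2L : List (ℕ × ℕ) :=
  [(3, 300000), (5, 300000), (7, 60000), (11, 60000), (13, 40000), (17, 300000), (19, 30000), (23, 40000), (29, 60000), (31, 20000), (37, 4400), (41, 4400), (43, 4400), (47, 14000), (53, 4400), (59, 4400), (61, 14000), (67, 800), (71, 4144), (73, 1588), (79, 1912), (83, 882), (89, 800), (97, 14600), (101, 2100), (103, 1500), (107, 970), (109, 830), (113, 12856), (127, 949), (131, 800), (137, 800), (139, 800), (149, 800), (151, 800), (157, 800), (163, 800), (167, 800), (173, 800), (179, 800), (181, 800), (191, 10512), (193, 6690), (197, 3925), (199, 3270), (211, 1692), (223, 1184), (227, 1084), (229, 1041), (233, 965), (239, 875), (241, 850), (251, 800), (257, 190200), (263, 10600), (269, 5600), (271, 4850), (277, 3500), (281, 2970), (283, 2760), (293, 2070), (307, 1570), (311, 1470), (313, 1430), (317, 1350), (331, 19715), (337, 9568), (347, 5264), (349, 4843), (353, 4186), (359, 3494), (367, 2884), (373, 2562), (379, 2311),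 (383, 2174), (389, 1999), (397, 1812), (401, 1734), (409, 1600), (419, 1463), (421, 1440), (431, 1335), (433, 1316), (439, 1264), (443, 1232), (449, 1189), (457, 1137), (461, 1113), (463, 1102), (467, 1080), (479, 1021), (487, 986), (491, 971), (499, 941), (503, 927), (509, 908), (521, 873), (523, 867), (541, 822), (547, 809), (557, 800), (563, 800), (569, 800), (571, 800), (577, 800), (587, 800), (593, 800), (599, 800), (601, 800), (607, 800), (613, 800), (617, 800), (619, 800), (631, 800), (641, 800), (643, 800), (647, 800), (653, 800), (659, 800), (661, 800), (673, 800), (677, 800), (683, 800), (691, 800), (701, 800), (709, 800), (719, 800), (727, 800), (733, 800), (739, 800), (743, 800), (751, 800), (757, 800), (761, 800), (769, 800), (773, 800), (787, 800), (797, 800)]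

/-- For an odd prime `x`, no prime `q` with `x < q ≤ Rt2 x` shares a value with `x`. -/
def Rt2 (x : ℕ) : ℕ := if 797 < x then 239 else lookupR x R2L

def PL2st : List ℕ := [3, 5, 7, 11, 13, 17, 19, 23, 29, 31, 37, 41, 43, 47, 53, 59, 61, 67, 71, 73, 79, 83, 89, 97, 101, 103, 107, 109, 113, 127, 131, 137, 139, 149, 151, 157, 163, 167, 173, 179, 181, 191, 193, 197, 199, 211, 223, 227, 229, 233, 239, 241, 251, 257, 263, 269, 271, 277, 281, 283, 293, 307, 311, 313, 317, 331, 337, 347, 349, 353, 359, 367, 373, 379, 383, 389, 397, 401, 409, 419, 421, 431, 433, 439, 443, 449, 457, 461, 463, 467, 479, 487, 491, 499, 503, 509, 521, 523, 541, 547, 557, 563, 569, 571, 577, 587, 593, 599, 601, 607, 613, 617, 619, 631, 641, 643, 647, 653, 659, 661, 673, 677, 683, 691, 701, 709, 719, 727, 733, 739, 743, 751, 757, 761, 769, 773, 787, 797]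

theorem cover_PL2 : ∀ t ∈ List.range 798, t < 3 ∨ memB t PL2st = true ∨ hasDiv t = true := by
  decide +kernel

end Pool.Agent.NearSuper255
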