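import Pool.Agent.NearSuper255.Excl2
import Pool.Agent.NearSuper255.RtDef2

/-!
# Excluded pairs of bases, the second table
-/

namespace Pool.Agent.NearSuper255

theorem pair_excl2 {p q : ℕ} (hp : p.Prime) (h3 : 3 ≤ p) (hq : q.Prime) (hpq : p < q)
    (hR : q ≤ Rt2 p) {N M : ℕ} (h : Sol p q N M) : False := by
  rcases Nat.lt_or_ge 797 p with h5 | h5
  · rw [Rt2, if_pos h5] at hR
    omega
  have hmem : p ∈ PL2st := by
    rcases cover_PL2 p (List.mem_range.2 (by omega)) with h6 | h6 | h6
    · omega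
    · exact memB_sound h6
    · exact absurd hp (hasDiv_sound h6)
  rw [Rt2, if_neg (by omega)] at hR
  simp only [PL2st, List.mem_cons, List.not_mem_nil, or_false] at hmem
  rcases hmem with rfl | rfl | rfl | rfl | rfl | rfl | rfl | rfl | rfl | rfl | rfl | rfl | rfl | rfl | rfl | rfl | rfl | rfl | rfl | rfl | rfl | rfl | rfl | rfl | rfl | rfl | rfl | rfl | rfl | rfl | rfl | rfl | rfl | rfl | rfl | rfl | rfl | rfl | rfl | rfl | rfl | rfl | rfl | rfl | rfl | rfl | rfl | rfl | rfl | rfl | rfl | rfl | rfl | rfl | rfl | rfl | rfl | rfl | rfl | rfl | rfl | rfl | rfl | rfl | rfl | rfl | rfl | rfl | rfl | rfl | rfl | rfl | rfl | rfl | rfl | rfl | rfl | rfl | rfl | rfl | rfl | rfl | rfl | rfl | rfl | rfl | rfl | rfl | rfl | rfl | rfl | rfl | rfl | rfl | rfl | rfl | rfl | rfl | rfl | rfl | rfl | rfl | rfl | rfl | rfl | rfl | rfl | rfl | rfl | rfl | rfl | rfl | rfl | rfl | rfl | rfl | rfl | rfl | rfl | rfl | rfl | rfl | rfl | rfl | rfl | rfl | rfl | rfl | rfl | rfl | rfl | rfl | rfl | rfl | rfl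 | rfl | rfl | rfl
  · exact pair_excl hp h3 hq hpq (le_trans hR (by decide : lookupR 3 R2L ≤ Rt 3)) h
  · exact pair_excl hp h3 hq hpq (le_trans hR (by decide : lookupR 5 R2L ≤ Rt 5)) h
  · rcases Nat.lt_or_ge 1500 q with h8 | h8
    · exact EX7 hq h8 (by simpa [R2L, lookupR] using hR) h
    · exact pair_excl hp h3 hq hpq (le_trans h8 (by decide : 1500 ≤ Rt 7)) h
  · rcases Nat.lt_or_ge 1500 q with h8 | h8
    · exact EX11 hq h8 (by simpa [R2L, lookupR] using hR) h
    · exact pair_excl hp h3 hq hpq (le_trans h8 (by decide : 1500 ≤ Rt 11)) h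
  · rcases Nat.lt_or_ge 250 q with h8 | h8
    · exact EX13 hq h8 (by simpa [R2L, lookupR] using hR) h
    · exact pair_excl hp h3 hq hpq (le_trans h8 (by decide : 250 ≤ Rt 13)) h
  · exact pair_excl hp h3 hq hpq (le_trans hR (by decide : lookupR 17 R2L ≤ Rt 17)) h
  · exact pair_excl hp h3 hq hpq (le_trans hR (by decide : lookupR 19 R2L ≤ Rt 19)) h
  · rcases Nat.lt_or_ge 2500 q with h8 | h8
    · exact EX23 hq h8 (by simpa [R2L, lookupR] using hR) h
    · exact pair_excl hp h3 hq hpq (le_trans h8 (by decide : 2500 ≤ Rt 23)) h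
  · rcases Nat.lt_or_ge 1300 q with h8 | h8
    · exact EX29 hq h8 (by simpa [R2L, lookupR] using hR) h
    · exact pair_excl hp h3 hq hpq (le_trans h8 (by decide : 1300 ≤ Rt 29)) h
  · rcases Nat.lt_or_ge 900 q with h8 | h8
    · exact EX31 hq h8 (by simpa [R2L, lookupR] using hR) h
    · exact pair_excl hp h3 hq hpq (le_trans h8 (by decide : 900 ≤ Rt 31)) h
  · rcases Nat.lt_or_ge 800 q with h8 | h8
    · exact EX37 hq h8 (by simpa [R2L, lookupR] using hR) h
    · exact pair_excl hp h3 hq hpq (le_trans h8 (by decide : 800 ≤ Rt 37)) h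
  · rcases Nat.lt_or_ge 260 q with h8 | h8
    · exact EX41 hq h8 (by simpa [R2L, lookupR] using hR) h
    · exact pair_excl hp h3 hq hpq (le_trans h8 (by decide : 260 ≤ Rt 41)) h
  · rcases Nat.lt_or_ge 239 q with h8 | h8
    · exact EX43 hq h8 (by simpa [R2L, lookupR] using hR) h
    · exact pair_excl hp h3 hq hpq (le_trans h8 (by decide : 239 ≤ Rt 43)) h
  · rcases Nat.lt_or_ge 239 q with h8 | h8
    · exact EX47 hq h8 (by simpa [R2L, lookupR] using hR) h
    · exact pair_excl hp h3 hq hpq (le_trans h8 (by decide : 239 ≤ Rt 47)) h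
  · rcases Nat.lt_or_ge 1600 q with h8 | h8
    · exact EX53 hq h8 (by simpa [R2L, lookupR] using hR) h
    · exact pair_excl hp h3 hq hpq (le_trans h8 (by decide : 1600 ≤ Rt 53)) h
  · rcases Nat.lt_or_ge 400 q with h8 | h8
    · exact EX59 hq h8 (by simpa [R2L, lookupR] using hR) h
    · exact pair_excl hp h3 hq hpq (le_trans h8 (by decide : 400 ≤ Rt 59)) h
  · rcases Nat.lt_or_ge 330 q with h8 | h8
    · exact EX61 hq h8 (by simpa [R2L, lookupR] using hR) h
    · exact pair_excl hp h3 hq hpq (le_trans h8 (by decide : 330 ≤ Rt 61)) h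
  · rcases Nat.lt_or_ge 239 q with h8 | h8
    · exact EX67 hq h8 (by simpa [R2L, lookupR] using hR) h
    · exact pair_excl hp h3 hq hpq (le_trans h8 (by decide : 239 ≤ Rt 67)) h
  · rcases Nat.lt_or_ge 239 q with h8 | h8
    · exact EX71 hq h8 (by simpa [R2L, lookupR] using hR) h
    · exact pair_excl hp h3 hq hpq (le_trans h8 (by decide : 239 ≤ Rt 71)) h
  · rcases Nat.lt_or_ge 239 q with h8 | h8
    · exact EX73 hq h8 (by simpa [R2L, lookupR] using hR) h
    · exact pair_excl hp h3 hq hpq (le_trans h8 (by decide : 239 ≤ Rt 73)) h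
  · rcases Nat.lt_or_ge 239 q with h8 | h8
    · exact EX79 hq h8 (by simpa [R2L, lookupR] using hR) h
    · exact pair_excl hp h3 hq hpq (le_trans h8 (by decide : 239 ≤ Rt 79)) h
  · rcases Nat.lt_or_ge 239 q with h8 | h8
    · exact EX83 hq h8 (by simpa [R2L, lookupR] using hR) h
    · exact pair_excl hp h3 hq hpq (le_trans h8 (by decide : 239 ≤ Rt 83)) h
  · rcases Nat.lt_or_ge 239 q with h8 | h8
    · exact EX89 hq h8 (by simpa [R2L, lookupR] using hR) h
    · exact pair_excl hp h3 hq hpq (le_trans h8 (by decide : 239 ≤ Rt 89)) h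
  · exact pair_excl hp h3 hq hpq (le_trans hR (by decide : lookupR 97 R2L ≤ Rt 97)) h
  · exact pair_excl hp h3 hq hpq (le_trans hR (by decide : lookupR 101 R2L ≤ Rt 101)) h
  · exact pair_excl hp h3 hq hpq (le_trans hR (by decide : lookupR 103 R2L ≤ Rt 103)) h
  · exact pair_excl hp h3 hq hpq (le_trans hR (by decide : lookupR 107 R2L ≤ Rt 107)) h
  · exact pair_excl hp h3 hq hpq (le_trans hR (by decide : lookupR 109 R2L ≤ Rt 109)) h
  · rcases Nat.lt_or_ge 660 q with h8 | h8
    · exact EX113 hq h8 (by simpa [R2L, lookupR] using hR) h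
    · exact pair_excl hp h3 hq hpq (le_trans h8 (by decide : 660 ≤ Rt 113)) h
  · rcases Nat.lt_or_ge 400 q with h8 | h8
    · exact EX127 hq h8 (by simpa [R2L, lookupR] using hR) h
    · exact pair_excl hp h3 hq hpq (le_trans h8 (by decide : 400 ≤ Rt 127)) h
  · rcases Nat.lt_or_ge 370 q with h8 | h8
    · exact EX131 hq h8 (by simpa [R2L, lookupR] using hR) h
    · exact pair_excl hp h3 hq hpq (le_trans h8 (by decide : 370 ≤ Rt 131)) h
  · rcases Nat.lt_or_ge 330 q with h8 | h8
    · exact EX137 hq h8 (by simpa [R2L, lookupR] using hR) h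
    · exact pair_excl hp h3 hq hpq (le_trans h8 (by decide : 330 ≤ Rt 137)) h
  · rcases Nat.lt_or_ge 320 q with h8 | h8
    · exact EX139 hq h8 (by simpa [R2L, lookupR] using hR) h
    · exact pair_excl hp h3 hq hpq (le_trans h8 (by decide : 320 ≤ Rt 139)) h
  · rcases Nat.lt_or_ge 280 q with h8 | h8
    · exact EX149 hq h8 (by simpa [R2L, lookupR] using hR) h
    · exact pair_excl hp h3 hq hpq (le_trans h8 (by decide : 280 ≤ Rt 149)) h
  · rcases Nat.lt_or_ge 270 q with h8 | h8
    · exact EX151 hq h8 (by simpa [R2L, lookupR] using hR) h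
    · exact pair_excl hp h3 hq hpq (le_trans h8 (by decide : 270 ≤ Rt 151)) h
  · rcases Nat.lt_or_ge 250 q with h8 | h8
    · exact EX157 hq h8 (by simpa [R2L, lookupR] using hR) h
    · exact pair_excl hp h3 hq hpq (le_trans h8 (by decide : 250 ≤ Rt 157)) h
  · rcases Nat.lt_or_ge 239 q with h8 | h8
    · exact EX163 hq h8 (by simpa [R2L, lookupR] using hR) h
    · exact pair_excl hp h3 hq hpq (le_trans h8 (by decide : 239 ≤ Rt 163)) h
  · rcases Nat.lt_or_ge 239 q with h8 | h8
    · exact EX167 hq h8 (by simpa [R2L, lookupR] using hR) h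
    · exact pair_excl hp h3 hq hpq (le_trans h8 (by decide : 239 ≤ Rt 167)) h
  · rcases Nat.lt_or_ge 239 q with h8 | h8
    · exact EX173 hq h8 (by simpa [R2L, lookupR] using hR) h
    · exact pair_excl hp h3 hq hpq (le_trans h8 (by decide : 239 ≤ Rt 173)) h
  · rcases Nat.lt_or_ge 239 q with h8 | h8
    · exact EX179 hq h8 (by simpa [R2L, lookupR] using hR) h
    · exact pair_excl hp h3 hq hpq (le_trans h8 (by decide : 239 ≤ Rt 179)) h
  · rcases Nat.lt_or_ge 239 q with h8 | h8
    · exact EX181 hq h8 (by simpa [R2L, lookupR] using hR) h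
    · exact pair_excl hp h3 hq hpq (le_trans h8 (by decide : 239 ≤ Rt 181)) h
  · rcases Nat.lt_or_ge 239 q with h8 | h8
    · exact EX191 hq h8 (by simpa [R2L, lookupR] using hR) h
    · exact pair_excl hp h3 hq hpq (le_trans h8 (by decide : 239 ≤ Rt 191)) h
  · rcases Nat.lt_or_ge 239 q with h8 | h8
    · exact EX193 hq h8 (by simpa [R2L, lookupR] using hR) h
    · exact pair_excl hp h3 hq hpq (le_trans h8 (by decide : 239 ≤ Rt 193)) h
  · rcases Nat.lt_or_ge 239 q with h8 | h8
    · exact EX197 hq h8 (by simpa [R2L, lookupR] using hR) h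
    · exact pair_excl hp h3 hq hpq (le_trans h8 (by decide : 239 ≤ Rt 197)) h
  · rcases Nat.lt_or_ge 239 q with h8 | h8
    · exact EX199 hq h8 (by simpa [R2L, lookupR] using hR) h
    · exact pair_excl hp h3 hq hpq (le_trans h8 (by decide : 239 ≤ Rt 199)) h
  · rcases Nat.lt_or_ge 239 q with h8 | h8
    · exact EX211 hq h8 (by simpa [R2L, lookupR] using hR) h
    · exact pair_excl hp h3 hq hpq (le_trans h8 (by decide : 239 ≤ Rt 211)) h
  · rcases Nat.lt_or_ge 239 q with h8 | h8
    · exact EX223 hq h8 (by simpa [R2L, lookupR] using hR) h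
    · exact pair_excl hp h3 hq hpq (le_trans h8 (by decide : 239 ≤ Rt 223)) h
  · rcases Nat.lt_or_ge 239 q with h8 | h8
    · exact EX227 hq h8 (by simpa [R2L, lookupR] using hR) h
    · exact pair_excl hp h3 hq hpq (le_trans h8 (by decide : 239 ≤ Rt 227)) h
  · rcases Nat.lt_or_ge 239 q with h8 | h8
    · exact EX229 hq h8 (by simpa [R2L, lookupR] using hR) h
    · exact pair_excl hp h3 hq hpq (le_trans h8 (by decide : 239 ≤ Rt 229)) h
  · rcases Nat.lt_or_ge 239 q with h8 | h8
    · exact EX233 hq h8 (by simpa [R2L, lookupR] using hR) h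
    · exact pair_excl hp h3 hq hpq (le_trans h8 (by decide : 239 ≤ Rt 233)) h
  · rcases Nat.lt_or_ge 239 q with h8 | h8
    · exact EX239 hq h8 (by simpa [R2L, lookupR] using hR) h
    · omega
  · rcases Nat.lt_or_ge 241 q with h8 | h8
    · exact EX241 hq h8 (by simpa [R2L, lookupR] using hR) h
    · omega
  · rcases Nat.lt_or_ge 251 q with h8 | h8
    · exact EX251 hq h8 (by simpa [R2L, lookupR] using hR) h
    · omega
  · exact pair_excl hp h3 hq hpq (le_trans hR (by decide : lookupR 257 R2L ≤ Rt 257)) h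
  · exact pair_excl hp h3 hq hpq (le_trans hR (by decide : lookupR 263 R2L ≤ Rt 263)) h
  · exact pair_excl hp h3 hq hpq (le_trans hR (by decide : lookupR 269 R2L ≤ Rt 269)) h
  · exact pair_excl hp h3 hq hpq (le_trans hR (by decide : lookupR 271 R2L ≤ Rt 271)) h
  · exact pair_excl hp h3 hq hpq (le_trans hR (by decide : lookupR 277 R2L ≤ Rt 277)) h
  · exact pair_excl hp h3 hq hpq (le_trans hR (by decide : lookupR 281 R2L ≤ Rt 281)) h
  · exact pair_excl hp h3 hq hpq (le_trans hR (by decide : lookupR 283 R2L ≤ Rt 283)) h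
  · exact pair_excl hp h3 hq hpq (le_trans hR (by decide : lookupR 293 R2L ≤ Rt 293)) h
  · exact pair_excl hp h3 hq hpq (le_trans hR (by decide : lookupR 307 R2L ≤ Rt 307)) h
  · exact pair_excl hp h3 hq hpq (le_trans hR (by decide : lookupR 311 R2L ≤ Rt 311)) h
  · exact pair_excl hp h3 hq hpq (le_trans hR (by decide : lookupR 313 R2L ≤ Rt 313)) h
  · exact pair_excl hp h3 hq hpq (le_trans hR (by decide : lookupR 317 R2L ≤ Rt 317)) h
  · rcases Nat.lt_or_ge 1150 q with h8 | h8
    · exact EX331 hq h8 (by simpa [R2L, lookupR] using hR) h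
    · exact pair_excl hp h3 hq hpq (le_trans h8 (by decide : 1150 ≤ Rt 331)) h
  · rcases Nat.lt_or_ge 1080 q with h8 | h8
    · exact EX337 hq h8 (by simpa [R2L, lookupR] using hR) h
    · exact pair_excl hp h3 hq hpq (le_trans h8 (by decide : 1080 ≤ Rt 337)) h
  · rcases Nat.lt_or_ge 990 q with h8 | h8
    · exact EX347 hq h8 (by simpa [R2L, lookupR] using hR) h
    · exact pair_excl hp h3 hq hpq (le_trans h8 (by decide : 990 ≤ Rt 347)) h
  · rcases Nat.lt_or_ge 975 q with h8 | h8
    · exact EX349 hq h8 (by simpa [R2L, lookupR] using hR) h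
    · exact pair_excl hp h3 hq hpq (le_trans h8 (by decide : 975 ≤ Rt 349)) h
  · rcases Nat.lt_or_ge 945 q with h8 | h8
    · exact EX353 hq h8 (by simpa [R2L, lookupR] using hR) h
    · exact pair_excl hp h3 hq hpq (le_trans h8 (by decide : 945 ≤ Rt 353)) h
  · rcases Nat.lt_or_ge 905 q with h8 | h8
    · exact EX359 hq h8 (by simpa [R2L, lookupR] using hR) h
    · exact pair_excl hp h3 hq hpq (le_trans h8 (by decide : 905 ≤ Rt 359)) h
  · rcases Nat.lt_or_ge 860 q with h8 | h8
    · exact EX367 hq h8 (by simpa [R2L, lookupR] using hR) h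
    · exact pair_excl hp h3 hq hpq (le_trans h8 (by decide : 860 ≤ Rt 367)) h
  · rcases Nat.lt_or_ge 830 q with h8 | h8
    · exact EX373 hq h8 (by simpa [R2L, lookupR] using hR) h
    · exact pair_excl hp h3 hq hpq (le_trans h8 (by decide : 830 ≤ Rt 373)) h
  · rcases Nat.lt_or_ge 800 q with h8 | h8
    · exact EX379 hq h8 (by simpa [R2L, lookupR] using hR) h
    · exact pair_excl hp h3 hq hpq (le_trans h8 (by decide : 800 ≤ Rt 379)) h
  · rcases Nat.lt_or_ge 780 q with h8 | h8
    · exact EX383 hq h8 (by simpa [R2L, lookupR] using hR) h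
    · exact pair_excl hp h3 hq hpq (le_trans h8 (by decide : 780 ≤ Rt 383)) h
  · rcases Nat.lt_or_ge 760 q with h8 | h8
    · exact EX389 hq h8 (by simpa [R2L, lookupR] using hR) h
    · exact pair_excl hp h3 hq hpq (le_trans h8 (by decide : 760 ≤ Rt 389)) h
  · rcases Nat.lt_or_ge 730 q with h8 | h8
    · exact EX397 hq h8 (by simpa [R2L, lookupR] using hR) h
    · exact pair_excl hp h3 hq hpq (le_trans h8 (by decide : 730 ≤ Rt 397)) h
  · rcases Nat.lt_or_ge 720 q with h8 | h8
    · exact EX401 hq h8 (by simpa [R2L, lookupR] using hR) h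
    · exact pair_excl hp h3 hq hpq (le_trans h8 (by decide : 720 ≤ Rt 401)) h
  · rcases Nat.lt_or_ge 695 q with h8 | h8
    · exact EX409 hq h8 (by simpa [R2L, lookupR] using hR) h
    · exact pair_excl hp h3 hq hpq (le_trans h8 (by decide : 695 ≤ Rt 409)) h
  · rcases Nat.lt_or_ge 670 q with h8 | h8
    · exact EX419 hq h8 (by simpa [R2L, lookupR] using hR) h
    · exact pair_excl hp h3 hq hpq (le_trans h8 (by decide : 670 ≤ Rt 419)) h
  · rcases Nat.lt_or_ge 660 q with h8 | h8
    · exact EX421 hq h8 (by simpa [R2L, lookupR] using hR) h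
    · exact pair_excl hp h3 hq hpq (le_trans h8 (by decide : 660 ≤ Rt 421)) h
  · rcases Nat.lt_or_ge 640 q with h8 | h8
    · exact EX431 hq h8 (by simpa [R2L, lookupR] using hR) h
    · exact pair_excl hp h3 hq hpq (le_trans h8 (by decide : 640 ≤ Rt 431)) h
  · rcases Nat.lt_or_ge 635 q with h8 | h8
    · exact EX433 hq h8 (by simpa [R2L, lookupR] using hR) h
    · exact pair_excl hp h3 hq hpq (le_trans h8 (by decide : 635 ≤ Rt 433)) h
  · rcases Nat.lt_or_ge 620 q with h8 | h8
    · exact EX439 hq h8 (by simpa [R2L, lookupR] using hR) h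
    · exact pair_excl hp h3 hq hpq (le_trans h8 (by decide : 620 ≤ Rt 439)) h
  · rcases Nat.lt_or_ge 615 q with h8 | h8
    · exact EX443 hq h8 (by simpa [R2L, lookupR] using hR) h
    · exact pair_excl hp h3 hq hpq (le_trans h8 (by decide : 615 ≤ Rt 443)) h
  · rcases Nat.lt_or_ge 600 q with h8 | h8
    · exact EX449 hq h8 (by simpa [R2L, lookupR] using hR) h
    · exact pair_excl hp h3 hq hpq (le_trans h8 (by decide : 600 ≤ Rt 449)) h
  · rcases Nat.lt_or_ge 590 q with h8 | h8
    · exact EX457 hq h8 (by simpa [R2L, lookupR] using hR) h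
    · exact pair_excl hp h3 hq hpq (le_trans h8 (by decide : 590 ≤ Rt 457)) h
  · rcases Nat.lt_or_ge 580 q with h8 | h8
    · exact EX461 hq h8 (by simpa [R2L, lookupR] using hR) h
    · exact pair_excl hp h3 hq hpq (le_trans h8 (by decide : 580 ≤ Rt 461)) h
  · rcases Nat.lt_or_ge 580 q with h8 | h8
    · exact EX463 hq h8 (by simpa [R2L, lookupR] using hR) h
    · exact pair_excl hp h3 hq hpq (le_trans h8 (by decide : 580 ≤ Rt 463)) h
  · rcases Nat.lt_or_ge 575 q with h8 | h8
    · exact EX467 hq h8 (by simpa [R2L, lookupR] using hR) h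
    · exact pair_excl hp h3 hq hpq (le_trans h8 (by decide : 575 ≤ Rt 467)) h
  · rcases Nat.lt_or_ge 560 q with h8 | h8
    · exact EX479 hq h8 (by simpa [R2L, lookupR] using hR) h
    · exact pair_excl hp h3 hq hpq (le_trans h8 (by decide : 560 ≤ Rt 479)) h
  · rcases Nat.lt_or_ge 545 q with h8 | h8
    · exact EX487 hq h8 (by simpa [R2L, lookupR] using hR) h
    · exact pair_excl hp h3 hq hpq (le_trans h8 (by decide : 545 ≤ Rt 487)) h
  · rcases Nat.lt_or_ge 540 q with h8 | h8
    · exact EX491 hq h8 (by simpa [R2L, lookupR] using hR) h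
    · exact pair_excl hp h3 hq hpq (le_trans h8 (by decide : 540 ≤ Rt 491)) h
  · rcases Nat.lt_or_ge 530 q with h8 | h8
    · exact EX499 hq h8 (by simpa [R2L, lookupR] using hR) h
    · exact pair_excl hp h3 hq hpq (le_trans h8 (by decide : 530 ≤ Rt 499)) h
  · rcases Nat.lt_or_ge 530 q with h8 | h8
    · exact EX503 hq h8 (by simpa [R2L, lookupR] using hR) h
    · exact pair_excl hp h3 hq hpq (le_trans h8 (by decide : 530 ≤ Rt 503)) h
  · rcases Nat.lt_or_ge 520 q with h8 | h8
    · exact EX509 hq h8 (by simpa [R2L, lookupR] using hR) h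
    · exact pair_excl hp h3 hq hpq (le_trans h8 (by decide : 520 ≤ Rt 509)) h
  · rcases Nat.lt_or_ge 521 q with h8 | h8
    · exact EX521 hq h8 (by simpa [R2L, lookupR] using hR) h
    · omega
  · rcases Nat.lt_or_ge 523 q with h8 | h8
    · exact EX523 hq h8 (by simpa [R2L, lookupR] using hR) h
    · omega
  · rcases Nat.lt_or_ge 541 q with h8 | h8
    · exact EX541 hq h8 (by simpa [R2L, lookupR] using hR) h
    · omega
  · rcases Nat.lt_or_ge 547 q with h8 | h8
    · exact EX547 hq h8 (by simpa [R2L, lookupR] using hR) h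
    · omega
  · rcases Nat.lt_or_ge 557 q with h8 | h8
    · exact EX557 hq h8 (by simpa [R2L, lookupR] using hR) h
    · omega
  · rcases Nat.lt_or_ge 563 q with h8 | h8
    · exact EX563 hq h8 (by simpa [R2L, lookupR] using hR) h
    · omega
  · rcases Nat.lt_or_ge 569 q with h8 | h8
    · exact EX569 hq h8 (by simpa [R2L, lookupR] using hR) h
    · omega
  · rcases Nat.lt_or_ge 571 q with h8 | h8
    · exact EX571 hq h8 (by simpa [R2L, lookupR] using hR) h
    · omega
  · rcases Nat.lt_or_ge 577 q with h8 | h8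
    · exact EX577 hq h8 (by simpa [R2L, lookupR] using hR) h
    · omega
  · rcases Nat.lt_or_ge 587 q with h8 | h8
    · exact EX587 hq h8 (by simpa [R2L, lookupR] using hR) h
    · omega
  · rcases Nat.lt_or_ge 593 q with h8 | h8
    · exact EX593 hq h8 (by simpa [R2L, lookupR] using hR) h
    · omega
  · rcases Nat.lt_or_ge 599 q with h8 | h8
    · exact EX599 hq h8 (by simpa [R2L, lookupR] using hR) h
    · omega
  · rcases Nat.lt_or_ge 601 q with h8 | h8
    · exact EX601 hq h8 (by simpa [R2L, lookupR] using hR) h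
    · omega
  · rcases Nat.lt_or_ge 607 q with h8 | h8
    · exact EX607 hq h8 (by simpa [R2L, lookupR] using hR) h
    · omega
  · rcases Nat.lt_or_ge 613 q with h8 | h8
    · exact EX613 hq h8 (by simpa [R2L, lookupR] using hR) h
    · omega
  · rcases Nat.lt_or_ge 617 q with h8 | h8
    · exact EX617 hq h8 (by simpa [R2L, lookupR] using hR) h
    · omega
  · rcases Nat.lt_or_ge 619 q with h8 | h8
    · exact EX619 hq h8 (by simpa [R2L, lookupR] using hR) h
    · omega
  · rcases Nat.lt_or_ge 631 q with h8 | h8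
    · exact EX631 hq h8 (by simpa [R2L, lookupR] using hR) h
    · omega
  · rcases Nat.lt_or_ge 641 q with h8 | h8
    · exact EX641 hq h8 (by simpa [R2L, lookupR] using hR) h
    · omega
  · rcases Nat.lt_or_ge 643 q with h8 | h8
    · exact EX643 hq h8 (by simpa [R2L, lookupR] using hR) h
    · omega
  · rcases Nat.lt_or_ge 647 q with h8 | h8
    · exact EX647 hq h8 (by simpa [R2L, lookupR] using hR) h
    · omega
  · rcases Nat.lt_or_ge 653 q with h8 | h8
    · exact EX653 hq h8 (by simpa [R2L, lookupR] using hR) h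
    · omega
  · rcases Nat.lt_or_ge 659 q with h8 | h8
    · exact EX659 hq h8 (by simpa [R2L, lookupR] using hR) h
    · omega
  · rcases Nat.lt_or_ge 661 q with h8 | h8
    · exact EX661 hq h8 (by simpa [R2L, lookupR] using hR) h
    · omega
  · rcases Nat.lt_or_ge 673 q with h8 | h8
    · exact EX673 hq h8 (by simpa [R2L, lookupR] using hR) h
    · omega
  · rcases Nat.lt_or_ge 677 q with h8 | h8
    · exact EX677 hq h8 (by simpa [R2L, lookupR] using hR) h
    · omega
  · rcases Nat.lt_or_ge 683 q with h8 | h8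
    · exact EX683 hq h8 (by simpa [R2L, lookupR] using hR) h
    · omega
  · rcases Nat.lt_or_ge 691 q with h8 | h8
    · exact EX691 hq h8 (by simpa [R2L, lookupR] using hR) h
    · omega
  · rcases Nat.lt_or_ge 701 q with h8 | h8
    · exact EX701 hq h8 (by simpa [R2L, lookupR] using hR) h
    · omega
  · rcases Nat.lt_or_ge 709 q with h8 | h8
    · exact EX709 hq h8 (by simpa [R2L, lookupR] using hR) h
    · omega
  · rcases Nat.lt_or_ge 719 q with h8 | h8
    · exact EX719 hq h8 (by simpa [R2L, lookupR] using hR) h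
    · omega
  · rcases Nat.lt_or_ge 727 q with h8 | h8
    · exact EX727 hq h8 (by simpa [R2L, lookupR] using hR) h
    · omega
  · rcases Nat.lt_or_ge 733 q with h8 | h8
    · exact EX733 hq h8 (by simpa [R2L, lookupR] using hR) h
    · omega
  · rcases Nat.lt_or_ge 739 q with h8 | h8
    · exact EX739 hq h8 (by simpa [R2L, lookupR] using hR) h
    · omega
  · rcases Nat.lt_or_ge 743 q with h8 | h8
    · exact EX743 hq h8 (by simpa [R2L, lookupR] using hR) h
    · omega
  · rcases Nat.lt_or_ge 751 q with h8 | h8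
    · exact EX751 hq h8 (by simpa [R2L, lookupR] using hR) h
    · omega
  · rcases Nat.lt_or_ge 757 q with h8 | h8
    · exact EX757 hq h8 (by simpa [R2L, lookupR] using hR) h
    · omega
  · rcases Nat.lt_or_ge 761 q with h8 | h8
    · exact EX761 hq h8 (by simpa [R2L, lookupR] using hR) h
    · omega
  · rcases Nat.lt_or_ge 769 q with h8 | h8
    · exact EX769 hq h8 (by simpa [R2L, lookupR] using hR) h
    · omega
  · rcases Nat.lt_or_ge 773 q with h8 | h8
    · exact EX773 hq h8 (by simpa [R2L, lookupR] using hR) h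
    · omega
  · rcases Nat.lt_or_ge 787 q with h8 | h8
    · exact EX787 hq h8 (by simpa [R2L, lookupR] using hR) h
    · omega
  · rcases Nat.lt_or_ge 797 q with h8 | h8
    · exact EX797 hq h8 (by simpa [R2L, lookupR] using hR) h
    · omega

end Pool.Agent.NearSuper255
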