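import Pool.Agent.NearSuper255.FinTab

/-!
# The finite check
-/

namespace Pool.Agent.NearSuper255

open Finset

/-- lower bound for the partner of `t` in its class -/
def Xf (t : ℕ) : ℕ := max (Rt t) t + 1

def amin (t : ℕ) : ℕ :=
  if t = 3 then 16 else if t = 5 then 6 else if t = 7 then 4 else if t = 13 then 4
  else if t = 17 then 4 else if t = 19 then 4 else 2

def entOk (e : Ent) : Bool :=
  Nat.beq e.2.1 (e.1 * Xf e.1 * (Xf e.1) ^ 2) &&
  (Nat.beq e.2.2.1 ((e.1 - 1) * (Xf e.1 - 1) * ((Xf e.1) ^ 2 - 1)) &&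
  (Nat.beq e.2.2.2.1 (e.1 * (Xf e.1) ^ 7 * (Xf e.1) ^ 2) &&
  (Nat.beq e.2.2.2.2.1 ((e.1 - 1) * (Xf e.1 - 1) ^ 7 * ((Xf e.1) ^ 2 - 1)) &&
  (Nat.ble 3 e.1 &&
  ((Nat.beq e.1 523 && (Nat.beq e.2.2.2.2.2.1 1 && Nat.beq e.2.2.2.2.2.2 1)) ||
   (Nat.ble e.1 522 && (Nat.beq e.2.2.2.2.2.1 (S e.1 (amin e.1 + 1)) &&
      Nat.beq e.2.2.2.2.2.2 (e.1 ^ amin e.1))))))))

/-- product bound or abundancy violation, exponent one, four classes -/
def okA (b c d : Ent) : Bool :=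
  Nat.ble (Nat.mul (Nat.mul (Nat.mul e3.2.1 b.2.1) c.2.1) d.2.1)
    (Nat.mul (Nat.mul (Nat.mul (Nat.mul 2 e3.2.2.1) b.2.2.1) c.2.2.1) d.2.2.1) ||
  Nat.ble (Nat.mul (Nat.mul (Nat.mul (Nat.mul 1062883 e3.2.2.2.2.2.2) b.2.2.2.2.2.2)
      c.2.2.2.2.2.2) d.2.2.2.2.2.2)
    (Nat.mul (Nat.mul (Nat.mul (Nat.mul 531441 e3.2.2.2.2.2.1) b.2.2.2.2.2.1)
      c.2.2.2.2.2.1) d.2.2.2.2.2.1)

/-- product bound or abundancy violation, exponent seven, three classes -/
def okB (b c : Ent) : Bool :=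
  Nat.ble (Nat.mul (Nat.mul e3.2.2.2.1 b.2.2.2.1) c.2.2.2.1)
    (Nat.mul (Nat.mul (Nat.mul 2 e3.2.2.2.2.1) b.2.2.2.2.1) c.2.2.2.2.1) ||
  Nat.ble (Nat.mul (Nat.mul (Nat.mul 1062883 e3.2.2.2.2.2.2) b.2.2.2.2.2.2)
      c.2.2.2.2.2.2)
    (Nat.mul (Nat.mul (Nat.mul 531441 e3.2.2.2.2.2.1) b.2.2.2.2.2.1)
      c.2.2.2.2.2.1)

def guardT (b c : Ent) : Bool := Nat.ble c.1 b.1 && !(Nat.beq c.1 523)

def allE (f : Ent → Bool) (l : List Ent) : Bool :=
  @List.rec Ent (fun _ => Bool) true (fun x _ ih => @Bool.rec (fun _ => Bool) false ih (f x)) l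

theorem allE_cons (f : Ent → Bool) (x : Ent) (l : List Ent) :
    allE f (x :: l) = (f x && allE f l) := by
  show @Bool.rec (fun _ => Bool) false (allE f l) (f x) = _
  cases f x <;> rfl

theorem allE_sound {f : Ent → Bool} : ∀ {l : List Ent}, allE f l = true → ∀ x ∈ l, f x = true := by
  intro l
  induction l with
  | nil => intro _ x hx; simp at hx
  | cons a l ih =>
    intro h x hx
    rw [allE_cons, Bool.and_eq_true] at h
    rcases List.mem_cons.1 hx with rfl | hx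
    · exact h.1
    · exact ih h.2 x hx

theorem tl_ok : allE entOk (e3 :: TL) = true := by decide +kernel

theorem chkB : allE (fun b => allE (fun c => guardT b c || okB b c) TL) TL = true := by
  decide +kernel

theorem chkA : allE (fun b => allE (fun c => guardT b c ||
    allE (fun d => guardT c d || okA b c d) TL) TL) TL = true := by
  decide +kernel

theorem cover_TL : ∀ t ∈ List.range 524, t < 5 ∨ memB t (TL.map Prod.fst) = true ∨
    hasDiv t = true := by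
  decide +kernel

end Pool.Agent.NearSuper255
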