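import Pool.Agent.NearSuper255.Defs

/-!
# MP_255fbb_nt, module C2: the abundancy of the components
-/

set_option autoImplicit false

namespace Pool.Agent.NearSuper255

open Finset

private theorem modC2_sigma_gt (M : ℕ) (hM : 1 < M) : M < ArithmeticFunction.sigma 1 M := by
  rw [ArithmeticFunction.sigma_one_apply]
  have hsub : ({1, M} : Finset ℕ) ⊆ M.divisors := by
    intro x hx
    rw [Finset.mem_insert, Finset.mem_singleton] at hx
    rw [Nat.mem_divisors]
    rcases hx with rfl | rfl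
    · exact ⟨one_dvd _, by omega⟩
    · exact ⟨dvd_rfl, by omega⟩
  have h1 := Finset.sum_le_sum_of_subset (f := fun x : ℕ => x) hsub
  rw [Finset.sum_pair (by omega)] at h1
  omega

private theorem modC2_rv_ge (n p : ℕ) : p ^ (n.factorization p) ≤ rv n p := by
  unfold rv S
  exact Finset.single_le_sum (f := fun i => p ^ i) (fun i _ => Nat.zero_le _)
    (Finset.mem_range.2 (Nat.lt_succ_self _))

/-- C2. -/
theorem abund_lt {n : ℕ} (hn : n ≠ 0) (hr : ∀ p ∈ n.primeFactors, (rv n p).Prime)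
    (hs : ArithmeticFunction.sigma 1 n = ∏ p ∈ n.primeFactors, rv n p)
    (hN : NearSP n) (h16 : 16 ≤ n.factorization 3)
    (h3 : ¬ 3 ^ 5 ∣ ArithmeticFunction.sigma 1 (ArithmeticFunction.sigma 1 n))
    (T : Finset ℕ) (hT : T ⊆ n.primeFactors) :
    ∏ p ∈ T, ((rv n p : ℚ) / (p : ℚ) ^ (n.factorization p)) < 2 + 1 / 3 ^ 12 := by
  have _ := hr
  obtain ⟨d, hd0, ⟨m, hm⟩, hd⟩ := hN
  have hm0 : m ≠ 0 := by
    rintro rfl
    exact hn (by rw [hm, mul_zero])
  -- `3 ^ 12 ∣ m`
  have hd5 : ¬ 3 ^ 5 ∣ d := by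
    intro h
    apply h3
    rw [hd, hm]
    exact Nat.dvd_add (Dvd.dvd.mul_left (Dvd.dvd.mul_right h m) 2) h
  have hfd : d.factorization 3 < 5 := by
    by_contra hcon
    exact hd5 ((Nat.Prime.pow_dvd_iff_le_factorization Nat.prime_three hd0.ne').2 (by omega))
  have hfm : 12 ≤ m.factorization 3 := by
    have h1 : n.factorization 3 = d.factorization 3 + m.factorization 3 := by
      rw [hm, Nat.factorization_mul hd0.ne' hm0, Finsupp.add_apply]
    omega
  have hm12 : 3 ^ 12 ≤ m := Nat.le_of_dvd (Nat.pos_of_ne_zero hm0)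
    ((Nat.Prime.pow_dvd_iff_le_factorization Nat.prime_three hm0).2 hfm)
  -- the sigma of sigma
  have hn3 : 1 < n := by
    have h1 : 3 ^ 16 ∣ n := (Nat.Prime.pow_dvd_iff_le_factorization Nat.prime_three hn).2 h16
    have h2 := Nat.le_of_dvd (Nat.pos_of_ne_zero hn) h1
    have h4 : (1 : ℕ) < 3 ^ 16 := by norm_num
    omega
  have hsn : n < ArithmeticFunction.sigma 1 n := modC2_sigma_gt n hn3
  have hssn := modC2_sigma_gt (ArithmeticFunction.sigma 1 n) (by omega)
  have hnQ : (0 : ℚ) < n := by exact_mod_cast Nat.pos_of_ne_zero hn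
  have hdQ : (0 : ℚ) < d := by exact_mod_cast hd0
  have hmQ : (0 : ℚ) < m := by exact_mod_cast Nat.pos_of_ne_zero hm0
  have e1 : ((ArithmeticFunction.sigma 1 n : ℕ) : ℚ) / n < 2 + 1 / 3 ^ 12 := by
    have h1 : ((ArithmeticFunction.sigma 1 n : ℕ) : ℚ) / n <
        ((ArithmeticFunction.sigma 1 (ArithmeticFunction.sigma 1 n) : ℕ) : ℚ) / n := by
      rw [div_lt_div_iff_of_pos_right hnQ]
      exact_mod_cast hssn
    have h2 : ((ArithmeticFunction.sigma 1 (ArithmeticFunction.sigma 1 n) : ℕ) : ℚ) / n = 2 + 1 / m := by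
      rw [hd, hm]
      push_cast
      field_simp
    have h4 : (1 : ℚ) / m ≤ 1 / 3 ^ 12 := by
      apply one_div_le_one_div_of_le (by norm_num)
      exact_mod_cast hm12
    linarith
  -- the product
  have e2 : ((ArithmeticFunction.sigma 1 n : ℕ) : ℚ) / n =
      ∏ p ∈ n.primeFactors, ((rv n p : ℚ) / (p : ℚ) ^ (n.factorization p)) := by
    rw [Finset.prod_div_distrib, hs]
    push_cast
    congr 1
    have h1 : (n : ℚ) = ((∏ p ∈ n.primeFactors, p ^ (n.factorization p) : ℕ) : ℚ) := by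
      have h2 := Nat.prod_factorization_pow_eq_self hn
      rw [Finsupp.prod, Nat.support_factorization] at h2
      exact congrArg (fun z : ℕ => (z : ℚ)) h2.symm
    rw [h1]
    push_cast
    rfl
  have hone : ∀ p ∈ n.primeFactors, (1 : ℚ) ≤ (rv n p : ℚ) / (p : ℚ) ^ (n.factorization p) := by
    intro p hp
    have hp0 : (0 : ℚ) < (p : ℚ) ^ (n.factorization p) := by
      have : 0 < p := (Nat.prime_of_mem_primeFactors hp).pos
      positivity
    rw [le_div_iff₀ hp0, one_mul]
    exact_mod_cast modC2_rv_ge n p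
  have e3 : ∏ p ∈ T, ((rv n p : ℚ) / (p : ℚ) ^ (n.factorization p)) ≤
      ∏ p ∈ n.primeFactors, ((rv n p : ℚ) / (p : ℚ) ^ (n.factorization p)) := by
    rw [← Finset.prod_sdiff hT]
    refine le_mul_of_one_le_left ?_ ?_
    · exact Finset.prod_nonneg fun p hp => zero_le_one.trans (hone p (hT hp))
    · have h1 : ∏ p ∈ n.primeFactors \ T, (1 : ℚ) ≤
          ∏ p ∈ n.primeFactors \ T, ((rv n p : ℚ) / (p : ℚ) ^ (n.factorization p)) :=
        Finset.prod_le_prod (fun _ _ => zero_le_one) fun p hp => hone p (Finset.sdiff_subset hp)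
      rwa [Finset.prod_const_one] at h1
  rw [← e2] at e3
  exact e3.trans_lt e1

end Pool.Agent.NearSuper255
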