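import Pool.Agent.NearSuper255.Defs

/-!
# Near superperfect numbers, module D: minimal exponents
-/

namespace Pool.Agent.NearSuper255

open Finset

private theorem modD_pow_lt (q e : ℕ) (he : 1 ≤ e) : q ^ e < S q (e + 1) := by
  unfold S
  rw [sum_range_succ]
  have h0 : 0 < ∑ i ∈ range e, q ^ i := by
    have h1 : (q ^ 0) ≤ ∑ i ∈ range e, q ^ i :=
      single_le_sum (f := fun i => q ^ i) (fun i _ => Nat.zero_le _) (mem_range.2 he)
    simp only [pow_zero] at h1
    omega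
  omega

/-- the values below `797162` at odd numbers -/
private theorem modD_chk2 : ∀ q < 893, q % 2 = 1 → S q 3 ≠ 1093 ∧ S q 3 ≠ 797161 ∧ (q ≠ 5 → S q 3 ≠ 31) ∧
    (q ≠ 17 → S q 3 ≠ 307) ∧ (q ≠ 3 → S q 3 ≠ 13) := by
  decide +kernel

private theorem modD_chk4 : ∀ q < 30, ∀ e < 13, (3 ≤ q ∧ q % 2 = 1 ∧ 4 ≤ e ∧ e % 2 = 0) →
    (S q (e + 1) ≠ 13 ∧ S q (e + 1) ≠ 31 ∧ S q (e + 1) ≠ 307) := by
  decide +kernel

private theorem modD_chk4b : ∀ q < 30, ∀ e < 13, (4 ≤ q ∧ q % 2 = 1 ∧ 4 ≤ e ∧ e % 2 = 0) →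
    (S q (e + 1) ≠ 1093 ∧ S q (e + 1) ≠ 797161) := by
  decide +kernel

/-- the other odd numbers with a value in the list -/
private theorem modD_val (q e r p : ℕ) (hq : 3 ≤ q) (hqo : q % 2 = 1) (he : 2 ≤ e) (heo : e % 2 = 0)
    (hS : S q (e + 1) = r)
    (hr : (r = 13 ∧ p = 3) ∨ (r = 1093 ∧ p = 3) ∨ (r = 797161 ∧ p = 3) ∨ (r = 31 ∧ p = 5) ∨ (r = 307 ∧ p = 17)) :
    q = p := by
  have hlt : q ^ e < r := by
    rw [← hS]
    exact modD_pow_lt q e (by omega)
  have hr8 : r ≤ 797161 := by omega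
  have h3 : 3 ^ e ≤ q ^ e := Nat.pow_le_pow_left hq e
  have he13 : e < 13 := by
    by_contra hcon
    have h13 : 3 ^ 13 ≤ 3 ^ e := Nat.pow_le_pow_right (by norm_num) (by omega)
    norm_num at h13
    omega
  by_cases h4 : 4 ≤ e
  · have h5 : q ^ 4 ≤ q ^ e := Nat.pow_le_pow_right (by omega) h4
    have hq30 : q < 30 := by
      by_contra hcon
      have h30 : 30 ^ 4 ≤ q ^ 4 := Nat.pow_le_pow_left (by omega) 4
      norm_num at h30
      omega
    have := modD_chk4 q hq30 e he13 ⟨hq, hqo, h4, heo⟩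
    have hb : q ≠ 3 → (S q (e + 1) ≠ 1093 ∧ S q (e + 1) ≠ 797161) := fun hne =>
      modD_chk4b q hq30 e he13 ⟨by omega, hqo, h4, heo⟩
    rcases hr with ⟨h, h'⟩ | ⟨h, h'⟩ | ⟨h, h'⟩ | ⟨h, h'⟩ | ⟨h, h'⟩ <;> subst h <;> subst h' <;> by_contra hne <;> tauto
  · have he2 : e = 2 := by omega
    subst he2
    have hq893 : q < 893 := by
      by_contra hcon
      have h893 : 893 ^ 2 ≤ q ^ 2 := Nat.pow_le_pow_left (by omega) 2
      norm_num at h893
      omega
    have := modD_chk2 q hq893 hqo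
    rcases hr with ⟨h, h'⟩ | ⟨h, h'⟩ | ⟨h, h'⟩ | ⟨h, h'⟩ | ⟨h, h'⟩ <;> subst h <;> subst h' <;> by_contra hne <;> tauto

private theorem modD_other {n p r : ℕ} (hp : p ∈ n.primeFactors) (hr : rv n p = r)
    (hf : Even ((n.primeFactors.filter (fun q => rv n q = r)).card)) :
    ∃ q ∈ n.primeFactors, q ≠ p ∧ rv n q = r := by
  have hmem : p ∈ n.primeFactors.filter (fun q => rv n q = r) := mem_filter.2 ⟨hp, hr⟩
  have h1 : 0 < (n.primeFactors.filter (fun q => rv n q = r)).card := card_pos.2 ⟨p, hmem⟩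
  have h2 : 1 < (n.primeFactors.filter (fun q => rv n q = r)).card := by
    obtain ⟨m, hm⟩ := hf
    omega
  obtain ⟨q, hq, hne⟩ := exists_mem_ne h2 p
  exact ⟨q, (mem_filter.1 hq).1, hne, (mem_filter.1 hq).2⟩

private theorem modD_not {n : ℕ} (ho : Odd n)
    (he : ∀ p ∈ n.primeFactors, Even (n.factorization p) ∧ 2 ≤ n.factorization p)
    (hf : ∀ r : ℕ, Even ((n.primeFactors.filter (fun p => rv n p = r)).card))
    (p r : ℕ) (hp : p ∈ n.primeFactors)
    (hr : (r = 13 ∧ p = 3) ∨ (r = 1093 ∧ p = 3) ∨ (r = 797161 ∧ p = 3) ∨ (r = 31 ∧ p = 5) ∨ (r = 307 ∧ p = 17)) :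
    rv n p ≠ r := by
  intro h
  obtain ⟨q, hq, hne, hqr⟩ := modD_other hp h (hf r)
  have hqp : q.Prime := Nat.prime_of_mem_primeFactors hq
  have hqd : q ∣ n := Nat.dvd_of_mem_primeFactors hq
  have hqo : Odd q := ho.of_dvd_nat hqd
  have hqo' : q % 2 = 1 := Nat.odd_iff.1 hqo
  have hq3 : 3 ≤ q := by
    have := hqp.two_le
    omega
  obtain ⟨h1, h2⟩ := he q hq
  exact hne (modD_val q (n.factorization q) r p hq3 hqo' h2 (Nat.even_iff.1 h1) hqr hr)

private theorem modD_comp : S 3 5 = 11 * 11 ∧ S 3 9 = 13 * 757 ∧ S 3 11 = 23 * 3851 ∧ S 3 15 = 11 * 652223 ∧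
    S 5 5 = 11 * 71 ∧ S 7 3 = 3 * 19 ∧ S 13 3 = 3 * 61 ∧ S 19 3 = 3 * 127 ∧ S 3 3 = 13 ∧ S 3 7 = 1093 ∧
    S 3 13 = 797161 ∧ S 5 3 = 31 ∧ S 17 3 = 307 := by
  decide +kernel

theorem exp_min {n : ℕ} (ho : Odd n) (hr : ∀ p ∈ n.primeFactors, (rv n p).Prime)
    (he : ∀ p ∈ n.primeFactors, Even (n.factorization p) ∧ 2 ≤ n.factorization p)
    (hf : ∀ r : ℕ, Even ((n.primeFactors.filter (fun p => rv n p = r)).card)) :
    (3 ∣ n → 16 ≤ n.factorization 3) ∧ (5 ∣ n → 6 ≤ n.factorization 5) ∧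
    (7 ∣ n → 4 ≤ n.factorization 7) ∧ (13 ∣ n → 4 ≤ n.factorization 13) ∧
    (17 ∣ n → 4 ≤ n.factorization 17) ∧ (19 ∣ n → 4 ≤ n.factorization 19) := by
  have hn0 : n ≠ 0 := by
    rintro rfl
    exact absurd ho (by decide)
  obtain ⟨c1, c2, c3, c4, c5, c6, c7, c8, v1, v2, v3, v4, v5⟩ := modD_comp
  have hm : ∀ p : ℕ, p.Prime → p ∣ n → p ∈ n.primeFactors := fun p h1 h2 => Nat.mem_primeFactors.2 ⟨h1, h2, hn0⟩
  have hcomp : ∀ a b : ℕ, a ≠ 1 → b ≠ 1 → ¬ (a * b).Prime := fun a b h1 h2 => Nat.not_prime_mul h1 h2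
  refine ⟨fun h => ?_, fun h => ?_, fun h => ?_, fun h => ?_, fun h => ?_, fun h => ?_⟩
  · have hp := hm 3 (by norm_num) h
    obtain ⟨h1, h2⟩ := he 3 hp
    have h1' := Nat.even_iff.1 h1
    have hP := hr 3 hp
    have n1 := modD_not ho he hf 3 13 hp (by tauto)
    have n2 := modD_not ho he hf 3 1093 hp (by tauto)
    have n3 := modD_not ho he hf 3 797161 hp (by tauto)
    unfold rv at hP n1 n2 n3
    by_contra hcon
    have hlt : n.factorization 3 < 16 := by omega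
    generalize n.factorization 3 = e at *
    have : e = 2 ∨ e = 4 ∨ e = 6 ∨ e = 8 ∨ e = 10 ∨ e = 12 ∨ e = 14 := by omega
    rcases this with rfl | rfl | rfl | rfl | rfl | rfl | rfl
    · exact n1 v1
    · rw [c1] at hP; exact hcomp 11 11 (by norm_num) (by norm_num) hP
    · exact n2 v2
    · rw [c2] at hP; exact hcomp 13 757 (by norm_num) (by norm_num) hP
    · rw [c3] at hP; exact hcomp 23 3851 (by norm_num) (by norm_num) hP
    · exact n3 v3
    · rw [c4] at hP; exact hcomp 11 652223 (by norm_num) (by norm_num) hP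
  · have hp := hm 5 (by norm_num) h
    obtain ⟨h1, h2⟩ := he 5 hp
    have h1' := Nat.even_iff.1 h1
    have hP := hr 5 hp
    have n1 := modD_not ho he hf 5 31 hp (by tauto)
    unfold rv at hP n1
    by_contra hcon
    generalize n.factorization 5 = e at *
    have : e = 2 ∨ e = 4 := by omega
    rcases this with rfl | rfl
    · exact n1 v4
    · rw [c5] at hP; exact hcomp 11 71 (by norm_num) (by norm_num) hP
  · have hp := hm 7 (by norm_num) h
    obtain ⟨h1, h2⟩ := he 7 hp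
    have h1' := Nat.even_iff.1 h1
    have hP := hr 7 hp
    unfold rv at hP
    by_contra hcon
    generalize n.factorization 7 = e at *
    have : e = 2 := by omega
    subst this
    rw [c6] at hP; exact hcomp 3 19 (by norm_num) (by norm_num) hP
  · have hp := hm 13 (by norm_num) h
    obtain ⟨h1, h2⟩ := he 13 hp
    have h1' := Nat.even_iff.1 h1
    have hP := hr 13 hp
    unfold rv at hP
    by_contra hcon
    generalize n.factorization 13 = e at *
    have : e = 2 := by omega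
    subst this
    rw [c7] at hP; exact hcomp 3 61 (by norm_num) (by norm_num) hP
  · have hp := hm 17 (by norm_num) h
    obtain ⟨h1, h2⟩ := he 17 hp
    have h1' := Nat.even_iff.1 h1
    have n1 := modD_not ho he hf 17 307 hp (by tauto)
    unfold rv at n1
    by_contra hcon
    generalize n.factorization 17 = e at *
    have : e = 2 := by omega
    subst this
    exact n1 v5
  · have hp := hm 19 (by norm_num) h
    obtain ⟨h1, h2⟩ := he 19 hp
    have h1' := Nat.even_iff.1 h1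
    have hP := hr 19 hp
    unfold rv at hP
    by_contra hcon
    generalize n.factorization 19 = e at *
    have : e = 2 := by omega
    subst this
    rw [c8] at hP; exact hcomp 3 127 (by norm_num) (by norm_num) hP

end Pool.Agent.NearSuper255
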