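import Pool.Agent.NearSuper255.Defs

/-!
# Project NSP, module A: components and even fibers
-/

set_option autoImplicit false

namespace Pool.Agent.NearSuper255

open Finset

theorem modA_sigma_pow {p : ℕ} (hp : p.Prime) (a : ℕ) :
    ArithmeticFunction.sigma 1 (p ^ a) = S p (a + 1) := by
  rw [ArithmeticFunction.sigma_one_apply_prime_pow hp]
  rfl

theorem modA_S_mod {x : ℕ} (hx : Odd x) (n : ℕ) : S x n % 2 = n % 2 := by
  induction n with
  | zero => simp [S]
  | succ n ih =>
    have h1 : S x (n + 1) = S x n + x ^ n := by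
      unfold S
      rw [Finset.sum_range_succ]
    have h2 : x ^ n % 2 = 1 := Nat.odd_iff.1 (hx.pow)
    rw [h1]
    omega

theorem rv_prime {n : ℕ} (hn : n ≠ 0) (hP : PropP n) {p : ℕ} (hp : p ∈ n.primeFactors) :
    (rv n p).Prime := by
  have hpp : p.Prime := Nat.prime_of_mem_primeFactors hp
  have hd : p ∣ n := Nat.dvd_of_mem_primeFactors hp
  have h1 : 1 ≤ n.factorization p := (hpp.dvd_iff_one_le_factorization hn).1 hd
  have h := hP p (n.factorization p) hpp h1 (Nat.ordProj_dvd n p)
    (Nat.pow_succ_factorization_not_dvd hn hpp)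
  rw [modA_sigma_pow hpp] at h
  exact h

theorem sigma_eq_prod {n : ℕ} (hn : n ≠ 0) :
    ArithmeticFunction.sigma 1 n = ∏ p ∈ n.primeFactors, rv n p := by
  rw [ArithmeticFunction.isMultiplicative_sigma.multiplicative_factorization _ hn]
  refine Finset.prod_congr n.support_factorization fun p hp => ?_
  exact modA_sigma_pow (Nat.prime_of_mem_primeFactors hp) _

theorem exp_even {n : ℕ} (ho : Odd n) (hP : PropP n) {p : ℕ} (hp : p ∈ n.primeFactors) :
    Even (n.factorization p) ∧ 2 ≤ n.factorization p := by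
  have hn : n ≠ 0 := by
    rintro rfl
    simp at ho
  have hpp : p.Prime := Nat.prime_of_mem_primeFactors hp
  have hd : p ∣ n := Nat.dvd_of_mem_primeFactors hp
  have h1 : 1 ≤ n.factorization p := (hpp.dvd_iff_one_le_factorization hn).1 hd
  have hpo : Odd p := Odd.of_dvd_nat ho hd
  have hev : Even (n.factorization p) := by
    by_contra hne
    have hodd : n.factorization p % 2 = 1 := Nat.odd_iff.1 (Nat.not_even_iff_odd.1 hne)
    have hm := modA_S_mod hpo (n.factorization p + 1)
    have hpr := rv_prime hn hP hp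
    have h2 : 2 ∣ rv n p := by
      unfold rv
      omega
    have h3 : rv n p = 2 := ((Nat.prime_dvd_prime_iff_eq Nat.prime_two hpr).1 h2).symm
    have h4 : 1 + p ≤ rv n p := by
      unfold rv S
      have h5 : (range 2) ⊆ range (n.factorization p + 1) := by
        intro i hi
        rw [mem_range] at hi ⊢
        omega
      have h6 := Finset.sum_le_sum_of_subset (f := fun i => p ^ i) h5
      simpa [Finset.sum_range_succ] using h6
    have h7 : 2 ≤ p := hpp.two_le
    omega
  refine ⟨hev, ?_⟩
  obtain ⟨k, hk⟩ := hev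
  omega

theorem modA_rv_odd {n : ℕ} (ho : Odd n) (hP : PropP n) {p : ℕ} (hp : p ∈ n.primeFactors) :
    Odd (rv n p) := by
  have hpo : Odd p := Odd.of_dvd_nat ho (Nat.dvd_of_mem_primeFactors hp)
  obtain ⟨k, hk⟩ := (exp_even ho hP hp).1
  have hm := modA_S_mod hpo (n.factorization p + 1)
  rw [Nat.odd_iff]
  unfold rv
  omega

theorem modA_factorization {n : ℕ} (hn : n ≠ 0) (hP : PropP n) (r : ℕ) :
    (ArithmeticFunction.sigma 1 n).factorization r =
      (n.primeFactors.filter (fun p => rv n p = r)).card := by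
  rw [sigma_eq_prod hn, Nat.factorization_prod fun p hp => (rv_prime hn hP hp).ne_zero]
  rw [Finset.card_filter, Finsupp.finsetSum_apply]
  refine Finset.sum_congr rfl fun p hp => ?_
  rw [(rv_prime hn hP hp).factorization, Finsupp.single_apply]

theorem fiber_even {n : ℕ} (ho : Odd n) (hP : PropP n) (hN : NearSP n) (r : ℕ) :
    Even ((n.primeFactors.filter (fun p => rv n p = r)).card) := by
  have hn : n ≠ 0 := by
    rintro rfl
    simp at ho
  rw [← modA_factorization hn hP r]
  obtain ⟨M, hM⟩ : ∃ M : ℕ, M = ArithmeticFunction.sigma 1 n := ⟨_, rfl⟩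
  rw [← hM]
  by_cases hr : r ∈ M.primeFactors
  · have hrp : r.Prime := Nat.prime_of_mem_primeFactors hr
    have hrd : r ∣ M := Nat.dvd_of_mem_primeFactors hr
    have hM0 : M ≠ 0 := (Nat.mem_primeFactors.1 hr).2.2
    have hro : Odd r := by
      rw [hM, sigma_eq_prod hn] at hrd
      obtain ⟨p, hp, hpd⟩ := (Nat.Prime.prime hrp).exists_mem_finset_dvd hrd
      exact Odd.of_dvd_nat (modA_rv_odd ho hP hp) hpd
    obtain ⟨d, _, hdn, hs⟩ := hN
    have hdo : Odd d := Odd.of_dvd_nat ho hdn
    have hso : Odd (ArithmeticFunction.sigma 1 M) := by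
      rw [hM, hs]
      exact (even_two_mul n).add_odd hdo
    have h1 : rv M r ∣ ArithmeticFunction.sigma 1 M := by
      rw [sigma_eq_prod hM0]
      exact Finset.dvd_prod_of_mem _ hr
    have h2 : Odd (rv M r) := Odd.of_dvd_nat hso h1
    have h3 := modA_S_mod hro (M.factorization r + 1)
    rw [Nat.odd_iff] at h2
    unfold rv at h2
    rw [Nat.even_iff]
    omega
  · have h0 : M.factorization r = 0 := by
      rw [← Nat.support_factorization, Finsupp.mem_support_iff, not_not] at hr
      exact hr
    rw [h0]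
    exact Even.zero

end Pool.Agent.NearSuper255
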