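import Pool.Agent.NearSuper255.Defs

/-!
# NSP module B: abundancy upper bound
-/

namespace Pool.Agent.NearSuper255

open Finset

private lemma b81_geom (p k : ℕ) (hp : p.Prime) :
    ((∑ i ∈ range (k + 1), p ^ i : ℕ) : ℚ) ≤ (p : ℚ) ^ k * ((p : ℚ) / (p - 1)) := by
  have hp1 : (1 : ℚ) < p := by exact_mod_cast hp.one_lt
  have hpos : (0 : ℚ) < (p : ℚ) - 1 := by linarith
  push_cast
  rw [← mul_div_assoc, le_div_iff₀ hpos, geom_sum_mul, ← pow_succ]
  linarith

private lemma b81_sigma_le (M : ℕ) (hM : M ≠ 0) :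
    ((ArithmeticFunction.sigma 1 M : ℕ) : ℚ) ≤
      (M : ℚ) * ∏ r ∈ M.primeFactors, (r : ℚ) / (r - 1) := by
  have h1 : ArithmeticFunction.sigma 1 M =
      ∏ p ∈ M.primeFactors, ∑ i ∈ range (M.factorization p + 1), p ^ i := by
    rw [ArithmeticFunction.isMultiplicative_sigma.multiplicative_factorization _ hM,
      Finsupp.prod, Nat.support_factorization]
    refine Finset.prod_congr rfl ?_
    intro p hp
    rw [ArithmeticFunction.sigma_one_apply_prime_pow (Nat.prime_of_mem_primeFactors hp)]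
  have h2 : M = ∏ p ∈ M.primeFactors, p ^ (M.factorization p) := by
    conv_lhs => rw [← Nat.factorization_prod_pow_eq_self hM]
    rw [Finsupp.prod, Nat.support_factorization]
  have h3 : (M : ℚ) = ∏ p ∈ M.primeFactors, (p : ℚ) ^ (M.factorization p) := by
    conv_lhs => rw [h2]
    push_cast
    rfl
  rw [h1]
  conv_rhs => rw [h3]
  rw [← Finset.prod_mul_distrib]
  push_cast
  refine Finset.prod_le_prod ?_ ?_
  · intro p _
    positivity
  · intro p hp
    have := b81_geom p (M.factorization p) (Nat.prime_of_mem_primeFactors hp)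
    push_cast at this
    exact this

private lemma b81_factors {n : ℕ} (hn : n ≠ 0) (hr : ∀ p ∈ n.primeFactors, (rv n p).Prime)
    (hs : ArithmeticFunction.sigma 1 n = ∏ p ∈ n.primeFactors, rv n p) :
    (ArithmeticFunction.sigma 1 n).primeFactors = n.primeFactors.image (rv n) := by
  have h0 : ArithmeticFunction.sigma 1 n ≠ 0 := by
    rw [hs]
    exact Finset.prod_ne_zero_iff.mpr (fun p hp => (hr p hp).ne_zero)
  ext q
  rw [Nat.mem_primeFactors_of_ne_zero h0, Finset.mem_image]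
  constructor
  · rintro ⟨hq, hd⟩
    rw [hs, Prime.dvd_finset_prod_iff hq.prime] at hd
    obtain ⟨p, hp, hd⟩ := hd
    exact ⟨p, hp, ((Nat.prime_dvd_prime_iff_eq hq (hr p hp)).mp hd).symm⟩
  · rintro ⟨p, hp, rfl⟩
    refine ⟨hr p hp, ?_⟩
    rw [hs]
    exact Finset.dvd_prod_of_mem _ hp

/-- Abundancy upper bound for near superperfect numbers with prime components. -/
theorem abund_gt {n : ℕ} (hn : n ≠ 0) (hr : ∀ p ∈ n.primeFactors, (rv n p).Prime)
    (hs : ArithmeticFunction.sigma 1 n = ∏ p ∈ n.primeFactors, rv n p) (hN : NearSP n) :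
    (2 : ℚ) < (∏ p ∈ n.primeFactors, (p : ℚ) / (p - 1)) *
      ∏ r ∈ n.primeFactors.image (rv n), (r : ℚ) / (r - 1) := by
  obtain ⟨d, hd0, _, hd⟩ := hN
  have h0 : ArithmeticFunction.sigma 1 n ≠ 0 := by
    rw [hs]
    exact Finset.prod_ne_zero_iff.mpr (fun p hp => (hr p hp).ne_zero)
  have hA := b81_sigma_le n hn
  have hB := b81_sigma_le _ h0
  rw [b81_factors hn hr hs, hd] at hB
  have hP : (0 : ℚ) ≤ ∏ r ∈ n.primeFactors.image (rv n), (r : ℚ) / (r - 1) := by
    refine Finset.prod_nonneg ?_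
    intro r hr'
    obtain ⟨p, hp, rfl⟩ := Finset.mem_image.mp hr'
    have h1 : (1 : ℚ) < (rv n p : ℚ) := by exact_mod_cast (hr p hp).one_lt
    exact div_nonneg (by linarith) (by linarith)
  have hnpos : (0 : ℚ) < (n : ℚ) := by exact_mod_cast Nat.pos_of_ne_zero hn
  have hdpos : (0 : ℚ) < (d : ℚ) := by exact_mod_cast hd0
  have hC := mul_le_mul_of_nonneg_right hA hP
  have hD : (n : ℚ) * 2 < (n : ℚ) * ((∏ p ∈ n.primeFactors, (p : ℚ) / (p - 1)) *
      ∏ r ∈ n.primeFactors.image (rv n), (r : ℚ) / (r - 1)) := by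
    rw [← mul_assoc]
    push_cast at hB
    linarith
  exact lt_of_mul_lt_mul_left hD hnpos.le

end Pool.Agent.NearSuper255
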