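import Pool.Agent.NearSuper255.Defs
import Pool.Agent.NearSuper255.ModA
import Pool.Agent.NearSuper255.ModB

/-!
# NSP module E: class bound
-/

set_option autoImplicit false

namespace Pool.Agent.NearSuper255

open Finset

private lemma e88_anti {x y : ℚ} (hx : 1 < x) (hxy : x ≤ y) : y / (y - 1) ≤ x / (x - 1) := by
  have h1 : 0 < x - 1 := by linarith
  have h2 : 0 < y - 1 := by linarith
  rw [div_le_div_iff₀ h2 h1]
  nlinarith

private lemma e88_rv_ge {n q : ℕ} (h : 2 ≤ n.factorization q) : q ^ 2 + 1 ≤ rv n q := by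
  unfold rv S
  have h5 : (range 3) ⊆ range (n.factorization q + 1) := by
    intro i hi
    rw [mem_range] at hi ⊢
    omega
  have h6 := Finset.sum_le_sum_of_subset (f := fun i => q ^ i) h5
  have h7 : ∑ i ∈ range 3, q ^ i = 1 + q + q ^ 2 := by
    simp [Finset.sum_range_succ]
  rw [h7] at h6
  omega

theorem class_bound {n : ℕ} (ho : Odd n) (hP : PropP n) (hN : NearSP n) (X : ℕ → ℕ)
    (hX2 : ∀ t, 2 ≤ X t)
    (hX : ∀ p q : ℕ, p ∈ n.primeFactors → q ∈ n.primeFactors → p < q → rv n p = rv n q →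
      X p ≤ q) :
    ∃ (T : Finset ℕ) (s : ℕ → ℕ), T ⊆ n.primeFactors ∧ (∀ t ∈ T, Even (s t) ∧ 2 ≤ s t) ∧
      ∑ t ∈ T, s t = n.primeFactors.card ∧
      (∀ m ∈ n.primeFactors, (∀ p ∈ n.primeFactors, m ≤ p) → m ∈ T) ∧
      (2 : ℚ) < ∏ t ∈ T, ((t : ℚ) / (t - 1)) * ((X t : ℚ) / (X t - 1)) ^ (s t - 1) *
        ((X t : ℚ) ^ 2 / ((X t : ℚ) ^ 2 - 1)) := by
  have hn : n ≠ 0 := by
    rintro rfl
    simp at ho
  obtain ⟨P, hPd⟩ : ∃ P : Finset ℕ, P = n.primeFactors := ⟨_, rfl⟩
  obtain ⟨T, hT⟩ : ∃ T : Finset ℕ, T = P.filter (fun t => ∀ q ∈ P, rv n q = rv n t → t ≤ q) :=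
    ⟨_, rfl⟩
  obtain ⟨F, hF⟩ : ∃ F : ℕ → Finset ℕ, ∀ t, F t = P.filter (fun q => rv n q = rv n t) :=
    ⟨fun t => P.filter (fun q => rv n q = rv n t), fun _ => rfl⟩
  have hTP : ∀ t ∈ T, t ∈ P := fun t ht => by
    rw [hT, mem_filter] at ht
    exact ht.1
  have hTmin : ∀ t ∈ T, ∀ q ∈ P, rv n q = rv n t → t ≤ q := fun t ht => by
    rw [hT, mem_filter] at ht
    exact ht.2
  have hinj : Set.InjOn (rv n) (T : Set ℕ) := by
    intro a ha b hb hab
    have ha' : a ∈ T := by exact_mod_cast ha
    have hb' : b ∈ T := by exact_mod_cast hb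
    have h1 := hTmin a ha' b (hTP b hb') hab.symm
    have h2 := hTmin b hb' a (hTP a ha') hab
    omega
  have himg : T.image (rv n) = P.image (rv n) := by
    apply Finset.Subset.antisymm
    · intro r hr
      rw [mem_image] at hr ⊢
      obtain ⟨t, ht, rfl⟩ := hr
      exact ⟨t, hTP t ht, rfl⟩
    · intro r hr
      rw [mem_image] at hr ⊢
      obtain ⟨p, hp, rfl⟩ := hr
      have hne : (F p).Nonempty := ⟨p, by rw [hF, mem_filter]; exact ⟨hp, rfl⟩⟩
      have hm := Finset.min'_mem (F p) hne
      have hFm : ∀ x, x ∈ F p ↔ x ∈ P ∧ rv n x = rv n p := fun x => by rw [hF, mem_filter]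
      have hm2 := (hFm _).1 hm
      refine ⟨(F p).min' hne, ?_, hm2.2⟩
      rw [hT, mem_filter]
      refine ⟨hm2.1, fun q hq hqr => ?_⟩
      apply Finset.min'_le
      exact (hFm q).2 ⟨hq, hqr.trans hm2.2⟩
  -- products over the fibers
  have hprod : ∀ f : ℕ → ℚ, ∏ p ∈ P, f p = ∏ t ∈ T, ∏ p ∈ F t, f p := by
    intro f
    have h1 := Finset.prod_fiberwise_of_maps_to (s := P) (t := P.image (rv n)) (g := rv n)
      (fun x hx => mem_image_of_mem _ hx) f
    rw [← h1, ← himg, Finset.prod_image hinj]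
    exact Finset.prod_congr rfl fun t _ => by rw [hF]
  have hcard : ∑ t ∈ T, (F t).card = P.card := by
    have h1 := Finset.card_eq_sum_card_fiberwise (s := P) (t := P.image (rv n)) (f := rv n)
      (fun x hx => by
        have hx' : x ∈ P := by exact_mod_cast hx
        exact_mod_cast mem_image_of_mem (rv n) hx')
    rw [h1, ← himg, Finset.sum_image hinj]
    exact Finset.sum_congr rfl fun t _ => by rw [hF]
  have hself : ∀ t ∈ T, t ∈ F t := fun t ht => by
    rw [hF, mem_filter]
    exact ⟨hTP t ht, rfl⟩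
  have heven : ∀ t, Even (F t).card := fun t => by
    rw [hF, hPd]
    exact fiber_even ho hP hN (rv n t)
  have hs2 : ∀ t ∈ T, 2 ≤ (F t).card := fun t ht => by
    have h1 : 0 < (F t).card := Finset.card_pos.2 ⟨t, hself t ht⟩
    obtain ⟨k, hk⟩ := heven t
    omega
  refine ⟨T, fun t => (F t).card, ?_, fun t ht => ⟨heven t, hs2 t ht⟩, ?_, ?_, ?_⟩
  · intro t ht
    rw [← hPd]
    exact hTP t ht
  · rw [← hPd]
    exact hcard
  · intro m hm hmin
    rw [hT, mem_filter, hPd]
    exact ⟨hm, fun q hq _ => hmin q hq⟩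
  · have hab := abund_gt hn (fun p hp => rv_prime hn hP hp) (sigma_eq_prod hn) hN
    rw [← hPd] at hab
    rw [hprod, ← himg, Finset.prod_image hinj, ← Finset.prod_mul_distrib] at hab
    refine lt_of_lt_of_le hab ?_
    apply Finset.prod_le_prod
    · intro t ht
      have h1 : (1 : ℚ) < (rv n t : ℚ) := by
        exact_mod_cast (rv_prime hn hP (hPd ▸ hTP t ht)).one_lt
      apply mul_nonneg
      · apply Finset.prod_nonneg
        intro p hp
        rw [hF, mem_filter, hPd] at hp
        have h2 : (1 : ℚ) < (p : ℚ) := by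
          exact_mod_cast (Nat.prime_of_mem_primeFactors hp.1).one_lt
        exact div_nonneg (by linarith) (by linarith)
      · exact div_nonneg (by linarith) (by linarith)
    · intro t ht
      have hXt : (2 : ℚ) ≤ (X t : ℚ) := by exact_mod_cast hX2 t
      have htP : t ∈ n.primeFactors := hPd ▸ hTP t ht
      have ht1 : (1 : ℚ) < (t : ℚ) := by
        exact_mod_cast (Nat.prime_of_mem_primeFactors htP).one_lt
      have hother : ∀ q ∈ (F t).erase t, X t ≤ q ∧ q ∈ n.primeFactors ∧ rv n q = rv n t := by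
        intro q hq
        rw [mem_erase, hF, mem_filter] at hq
        obtain ⟨hqt, hqP, hqr⟩ := hq
        have hle := hTmin t ht q hqP hqr
        have hlt : t < q := lt_of_le_of_ne hle (Ne.symm hqt)
        have hqP' : q ∈ n.primeFactors := hPd ▸ hqP
        exact ⟨hX t q htP hqP' hlt hqr.symm, hqP', hqr⟩
      apply mul_le_mul
      · rw [← Finset.mul_prod_erase (F t) _ (hself t ht)]
        apply mul_le_mul_of_nonneg_left _ (div_nonneg (by linarith) (by linarith))
        have hc : (F t).card - 1 = ((F t).erase t).card := by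
          rw [Finset.card_erase_of_mem (hself t ht)]
        show ∏ x ∈ (F t).erase t, (x : ℚ) / (x - 1) ≤ ((X t : ℚ) / (X t - 1)) ^ ((F t).card - 1)
        rw [hc, ← Finset.prod_const]
        apply Finset.prod_le_prod
        · intro q hq
          have h1 : (1 : ℚ) < (q : ℚ) := by
            exact_mod_cast (Nat.prime_of_mem_primeFactors (hother q hq).2.1).one_lt
          exact div_nonneg (by linarith) (by linarith)
        · intro q hq
          apply e88_anti (by linarith)
          exact_mod_cast (hother q hq).1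
      · have hpos : 0 < ((F t).erase t).card := by
          rw [Finset.card_erase_of_mem (hself t ht)]
          have := hs2 t ht
          omega
        obtain ⟨q, hq⟩ := Finset.card_pos.1 hpos
        obtain ⟨hXq, hqP, hqr⟩ := hother q hq
        have h1 := e88_rv_ge (exp_even ho hP hqP).2
        rw [hqr] at h1
        have h2 : X t ^ 2 ≤ rv n t := by
          have : X t ^ 2 ≤ q ^ 2 := Nat.pow_le_pow_left hXq 2
          omega
        have h3 : ((X t : ℚ)) ^ 2 ≤ (rv n t : ℚ) := by exact_mod_cast h2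
        apply e88_anti _ h3
        nlinarith
      · have h1 : (1 : ℚ) < (rv n t : ℚ) := by
          exact_mod_cast (rv_prime hn hP htP).one_lt
        exact div_nonneg (by linarith) (by linarith)
      · apply mul_nonneg (div_nonneg (by linarith) (by linarith))
        apply pow_nonneg
        exact div_nonneg (by linarith) (by linarith)

end Pool.Agent.NearSuper255
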