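import Mathlib
import Pool.Agent.NearSuper255.Defs

/-!
# Project NSP, module F: the case of all primes at least 5
-/

set_option autoImplicit false

namespace Pool.Agent.NearSuper255

open Finset

/-- `x / (x - 1)` is decreasing. -/
theorem h92F_anti (x y : ℚ) (hx : 1 < x) (hxy : x ≤ y) : y / (y - 1) ≤ x / (x - 1) := by
  rw [div_le_div_iff₀ (by linarith) (by linarith)]
  nlinarith

theorem h92F_pos (x : ℚ) (hx : 1 < x) : 0 < x / (x - 1) := div_pos (by linarith) (by linarith)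

theorem h92F_step (c L : ℕ) (B : ℚ) (hL5 : 5 ≤ L) (hL : ((Finset.Ico 5 L).filter Nat.Prime).card ≤ c)
    (ih : ∀ T : Finset ℕ, (∀ t ∈ T, t.Prime ∧ 5 ≤ t) → T.card = c → ∏ t ∈ T, ((t : ℚ) / (t - 1)) ≤ B) :
    ∀ T : Finset ℕ, (∀ t ∈ T, t.Prime ∧ 5 ≤ t) → T.card = c + 1 →
      ∏ t ∈ T, ((t : ℚ) / (t - 1)) ≤ B * ((L : ℚ) / (L - 1)) := by
  intro T hT hc
  have hex : ∃ t ∈ T, L ≤ t := by
    by_contra hno
    push Not at hno
    have hsub : T ⊆ (Finset.Ico 5 L).filter Nat.Prime := by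
      intro t ht
      rw [Finset.mem_filter, Finset.mem_Ico]
      exact ⟨⟨(hT t ht).2, hno t ht⟩, (hT t ht).1⟩
    have := Finset.card_le_card hsub
    omega
  obtain ⟨t, htT, hLt⟩ := hex
  have hT' : ∀ u ∈ T.erase t, u.Prime ∧ 5 ≤ u := fun u hu => hT u (Finset.mem_of_mem_erase hu)
  have hcard : (T.erase t).card = c := by
    rw [Finset.card_erase_of_mem htT, hc]
    omega
  have hprod := ih (T.erase t) hT' hcard
  have hLq : (1 : ℚ) < L := by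
    have : (5 : ℚ) ≤ L := by exact_mod_cast hL5
    linarith
  have hLt' : (L : ℚ) ≤ t := by exact_mod_cast hLt
  have hF := h92F_anti L t hLq hLt'
  have hpos : 0 ≤ ∏ u ∈ T.erase t, ((u : ℚ) / (u - 1)) := by
    refine Finset.prod_nonneg (fun u hu => ?_)
    have h5 : (5 : ℚ) ≤ u := by exact_mod_cast (hT' u hu).2
    exact (h92F_pos u (by linarith)).le
  rw [← Finset.prod_erase_mul T _ htT]
  exact mul_le_mul hprod hF (h92F_pos t (by linarith)).le (le_trans hpos hprod)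

theorem h92F_c0 : ∀ T : Finset ℕ, (∀ t ∈ T, t.Prime ∧ 5 ≤ t) → T.card = 0 →
    ∏ t ∈ T, ((t : ℚ) / (t - 1)) ≤ 1 := by
  intro T _ hc
  rw [Finset.card_eq_zero.1 hc]
  simp

theorem h92F_c1 : ∀ T : Finset ℕ, (∀ t ∈ T, t.Prime ∧ 5 ≤ t) → T.card = 1 →
    ∏ t ∈ T, ((t : ℚ) / (t - 1)) ≤ 5 / 4 := by
  intro T hT hc
  refine (h92F_step 0 5 1 (by norm_num) (by decide) h92F_c0 T hT hc).trans ?_
  norm_num

theorem h92F_c2 : ∀ T : Finset ℕ, (∀ t ∈ T, t.Prime ∧ 5 ≤ t) → T.card = 2 →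
    ∏ t ∈ T, ((t : ℚ) / (t - 1)) ≤ 35 / 24 := by
  intro T hT hc
  refine (h92F_step 1 7 (5 / 4) (by norm_num) (by decide) h92F_c1 T hT hc).trans ?_
  norm_num

theorem h92F_c3 : ∀ T : Finset ℕ, (∀ t ∈ T, t.Prime ∧ 5 ≤ t) → T.card = 3 →
    ∏ t ∈ T, ((t : ℚ) / (t - 1)) ≤ 77 / 48 := by
  intro T hT hc
  refine (h92F_step 2 11 (35 / 24) (by norm_num) (by decide) h92F_c2 T hT hc).trans ?_
  norm_num

theorem h92F_c4 : ∀ T : Finset ℕ, (∀ t ∈ T, t.Prime ∧ 5 ≤ t) → T.card = 4 →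
    ∏ t ∈ T, ((t : ℚ) / (t - 1)) ≤ 1001 / 576 := by
  intro T hT hc
  refine (h92F_step 3 13 (77 / 48) (by norm_num) (by decide) h92F_c3 T hT hc).trans ?_
  norm_num

theorem h92F_c5 : ∀ T : Finset ℕ, (∀ t ∈ T, t.Prime ∧ 5 ≤ t) → T.card = 5 →
    ∏ t ∈ T, ((t : ℚ) / (t - 1)) ≤ 17017 / 9216 := by
  intro T hT hc
  refine (h92F_step 4 17 (1001 / 576) (by norm_num) (by decide) h92F_c4 T hT hc).trans ?_
  norm_num

theorem h92F_c6 : ∀ T : Finset ℕ, (∀ t ∈ T, t.Prime ∧ 5 ≤ t) → T.card = 6 →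
    ∏ t ∈ T, ((t : ℚ) / (t - 1)) ≤ 323323 / 165888 := by
  intro T hT hc
  refine (h92F_step 5 19 (17017 / 9216) (by norm_num) (by decide) h92F_c5 T hT hc).trans ?_
  norm_num

theorem caseB (T : Finset ℕ) (s X : ℕ → ℕ) (hT : ∀ t ∈ T, t.Prime ∧ 5 ≤ t)
    (hs : ∀ t ∈ T, 2 ≤ s t) (hk : ∑ t ∈ T, s t ≤ 12) (hX : ∀ t, 240 ≤ X t) :
    ∏ t ∈ T, (((t : ℚ) / (t - 1)) * ((X t : ℚ) / (X t - 1)) ^ (s t - 1) *
        ((X t : ℚ) ^ 2 / ((X t : ℚ) ^ 2 - 1))) ≤ 2 := by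
  have hcard : 2 * T.card ≤ 12 := by
    calc 2 * T.card = ∑ t ∈ T, 2 := by simp [mul_comm]
      _ ≤ ∑ t ∈ T, s t := Finset.sum_le_sum hs
      _ ≤ 12 := hk
  have hsum : ∑ t ∈ T, (s t - 1) + T.card ≤ 12 := by
    have h1 : ∑ t ∈ T, (s t - 1) + T.card = ∑ t ∈ T, ((s t - 1) + 1) := by
      rw [Finset.sum_add_distrib]
      simp
    rw [h1]
    refine le_trans (le_of_eq ?_) hk
    refine Finset.sum_congr rfl (fun t ht => ?_)
    have := hs t ht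
    omega
  set A : ℚ := (240 : ℚ) / (240 - 1) with hA
  set E : ℚ := (57600 : ℚ) / (57600 - 1) with hE
  have hA1 : 1 ≤ A := by rw [hA]; norm_num
  have hE1 : 1 ≤ E := by rw [hE]; norm_num
  have hFpos : ∀ t ∈ T, 0 < (t : ℚ) / (t - 1) := by
    intro t ht
    have h5 : (5 : ℚ) ≤ t := by exact_mod_cast (hT t ht).2
    exact h92F_pos t (by linarith)
  have hstep : ∏ t ∈ T, (((t : ℚ) / (t - 1)) * ((X t : ℚ) / (X t - 1)) ^ (s t - 1) *
        ((X t : ℚ) ^ 2 / ((X t : ℚ) ^ 2 - 1))) ≤ ∏ t ∈ T, (((t : ℚ) / (t - 1)) * A ^ (s t - 1) * E) := by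
    refine Finset.prod_le_prod ?_ ?_
    · intro t ht
      have hx : (240 : ℚ) ≤ X t := by exact_mod_cast hX t
      have h1 := h92F_pos (X t) (by linarith)
      have h2 := h92F_pos ((X t : ℚ) ^ 2) (by nlinarith)
      have h3 := hFpos t ht
      positivity
    · intro t ht
      have hx : (240 : ℚ) ≤ X t := by exact_mod_cast hX t
      have h1 := h92F_pos (X t) (by linarith)
      have h2 := h92F_pos ((X t : ℚ) ^ 2) (by nlinarith)
      have h3 := hFpos t ht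
      have h4 : (X t : ℚ) / (X t - 1) ≤ A := h92F_anti 240 (X t) (by norm_num) hx
      have h5 : (X t : ℚ) ^ 2 / ((X t : ℚ) ^ 2 - 1) ≤ E := h92F_anti 57600 ((X t : ℚ) ^ 2) (by norm_num) (by nlinarith)
      have h6 : ((X t : ℚ) / (X t - 1)) ^ (s t - 1) ≤ A ^ (s t - 1) := pow_le_pow_left₀ h1.le h4 _
      have h7 : ((t : ℚ) / (t - 1)) * ((X t : ℚ) / (X t - 1)) ^ (s t - 1) ≤ ((t : ℚ) / (t - 1)) * A ^ (s t - 1) :=
        mul_le_mul_of_nonneg_left h6 h3.le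
      exact mul_le_mul h7 h5 h2.le (by positivity)
  have heq : ∏ t ∈ T, (((t : ℚ) / (t - 1)) * A ^ (s t - 1) * E) =
      (∏ t ∈ T, ((t : ℚ) / (t - 1))) * A ^ (∑ t ∈ T, (s t - 1)) * E ^ T.card := by
    rw [Finset.prod_mul_distrib, Finset.prod_mul_distrib, Finset.prod_pow_eq_pow_sum, Finset.prod_const]
  rw [heq] at hstep
  refine le_trans hstep ?_
  have hc6 : T.card ≤ 6 := by omega
  have hApos : 0 ≤ A := by linarith
  have hEpos : 0 ≤ E := by linarith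
  have hPnn : 0 ≤ ∏ t ∈ T, ((t : ℚ) / (t - 1)) := Finset.prod_nonneg (fun t ht => (hFpos t ht).le)
  have fin : ∀ (P : ℚ) (a : ℕ), ∏ t ∈ T, ((t : ℚ) / (t - 1)) ≤ P → ∑ t ∈ T, (s t - 1) ≤ a →
      P * A ^ a * E ^ 6 ≤ 2 →
      (∏ t ∈ T, ((t : ℚ) / (t - 1))) * A ^ (∑ t ∈ T, (s t - 1)) * E ^ T.card ≤ 2 := by
    intro P a hP ha h2
    refine le_trans ?_ h2
    have hPp : 0 ≤ P := le_trans hPnn hP
    have e1 : A ^ (∑ t ∈ T, (s t - 1)) ≤ A ^ a := pow_le_pow_right₀ hA1 ha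
    have e2 : E ^ T.card ≤ E ^ 6 := pow_le_pow_right₀ hE1 hc6
    have e3 : (∏ t ∈ T, ((t : ℚ) / (t - 1))) * A ^ (∑ t ∈ T, (s t - 1)) ≤ P * A ^ a :=
      mul_le_mul hP e1 (by positivity) hPp
    exact mul_le_mul e3 e2 (by positivity) (by positivity)
  rcases Nat.lt_or_ge T.card 6 with hlt | hge
  · have h12 : ∑ t ∈ T, (s t - 1) ≤ 12 := by omega
    have hnum : ∀ P : ℚ, P ≤ 1.8464632 → P * A ^ 12 * E ^ 6 ≤ 2 := by
      intro P hP
      have h1 : P * A ^ 12 * E ^ 6 ≤ 1.8464632 * A ^ 12 * E ^ 6 := by gcongr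
      refine le_trans h1 ?_
      rw [hA, hE]
      norm_num
    have hcases : T.card = 0 ∨ T.card = 1 ∨ T.card = 2 ∨ T.card = 3 ∨ T.card = 4 ∨ T.card = 5 := by omega
    rcases hcases with h | h | h | h | h | h
    · exact fin _ 12 (h92F_c0 T hT h) h12 (hnum _ (by norm_num))
    · exact fin _ 12 (h92F_c1 T hT h) h12 (hnum _ (by norm_num))
    · exact fin _ 12 (h92F_c2 T hT h) h12 (hnum _ (by norm_num))
    · exact fin _ 12 (h92F_c3 T hT h) h12 (hnum _ (by norm_num))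
    · exact fin _ 12 (h92F_c4 T hT h) h12 (hnum _ (by norm_num))
    · exact fin _ 12 (h92F_c5 T hT h) h12 (hnum _ (by norm_num))
  · have h6 : T.card = 6 := by omega
    have h6' : ∑ t ∈ T, (s t - 1) ≤ 6 := by omega
    refine fin _ 6 (h92F_c6 T hT h6) h6' ?_
    rw [hA, hE]
    norm_num

end Pool.Agent.NearSuper255
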