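import Pool.Agent.NearSuper255.ModC1
import Pool.Agent.NearSuper255.ModC2
import Pool.Agent.NearSuper255.ModD
import Pool.Agent.NearSuper255.ModE
import Pool.Agent.NearSuper255.ModF
import Pool.Agent.NearSuper255.CaseA
import Pool.Agent.NearSuper255.Excl

/-!
# The bound for the number of prime factors
-/

namespace Pool.Agent.NearSuper255

open Finset

theorem chkA_use {b c d : Ent} (hb : b ∈ TL) (hc : c ∈ TL) (hd : d ∈ TL)
    (h1 : b.1 < c.1 ∨ c.1 = 523) (h2 : c.1 < d.1 ∨ d.1 = 523) : okA b c d = true := by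
  have h := allE_sound (allE_sound chkA b hb) c hc
  rw [Bool.or_eq_true] at h
  have g1 : ∀ x y : Ent, (x.1 < y.1 ∨ y.1 = 523) → guardT x y = true → False := by
    intro x y hxy hg
    unfold guardT at hg
    rw [Bool.and_eq_true, Bool.not_eq_true'] at hg
    rcases hxy with h | h
    · have := Nat.le_of_ble_eq_true hg.1
      omega
    · have := hg.2
      rw [h] at this
      simp at this
  rcases h with h | h
  · exact (g1 _ _ h1 h).elim
  · have h3 := allE_sound h d hd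
    rw [Bool.or_eq_true] at h3
    rcases h3 with h3 | h3
    · exact (g1 _ _ h2 h3).elim
    · exact h3

theorem chkB_use {b c : Ent} (hb : b ∈ TL) (hc : c ∈ TL)
    (h1 : b.1 < c.1 ∨ c.1 = 523) : okB b c = true := by
  have h := allE_sound (allE_sound chkB b hb) c hc
  rw [Bool.or_eq_true] at h
  rcases h with h | h
  · exfalso
    unfold guardT at h
    rw [Bool.and_eq_true, Bool.not_eq_true'] at h
    rcases h1 with h2 | h2
    · have := Nat.le_of_ble_eq_true h.1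
      omega
    · have := h.2
      rw [h2] at this
      simp at this
  · exact h

theorem mul_le_two_of {N1 N2 N3 N4 D1 D2 D3 D4 : ℕ} (h : N1 * N2 * N3 * N4 ≤ 2 * D1 * D2 * D3 * D4)
    (h1 : 0 < D1) (h2 : 0 < D2) (h3 : 0 < D3) (h4 : 0 < D4) :
    (N1 : ℚ) / D1 * (N2 / D2) * (N3 / D3) * (N4 / D4) ≤ 2 := by
  have h' : (N1 : ℚ) * N2 * N3 * N4 ≤ 2 * D1 * D2 * D3 * D4 := by exact_mod_cast h
  have e1 : (0 : ℚ) < D1 := by exact_mod_cast h1
  have e2 : (0 : ℚ) < D2 := by exact_mod_cast h2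
  have e3 : (0 : ℚ) < D3 := by exact_mod_cast h3
  have e4 : (0 : ℚ) < D4 := by exact_mod_cast h4
  have : (N1 : ℚ) / D1 * (N2 / D2) * (N3 / D3) * (N4 / D4) =
      (N1 * N2 * N3 * N4) / (D1 * D2 * D3 * D4) := by field_simp
  rw [this, div_le_iff₀ (by positivity)]
  linarith

theorem ge_of_mul {L1 L2 L3 L4 M1 M2 M3 M4 : ℕ}
    (h : 1062883 * M1 * M2 * M3 * M4 ≤ 531441 * L1 * L2 * L3 * L4)
    (h1 : 0 < M1) (h2 : 0 < M2) (h3 : 0 < M3) (h4 : 0 < M4) :
    (2 : ℚ) + 1 / 3 ^ 12 ≤ (L1 : ℚ) / M1 * (L2 / M2) * (L3 / M3) * (L4 / M4) := by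
  have h' : (1062883 : ℚ) * M1 * M2 * M3 * M4 ≤ 531441 * L1 * L2 * L3 * L4 := by exact_mod_cast h
  have e1 : (0 : ℚ) < M1 := by exact_mod_cast h1
  have e2 : (0 : ℚ) < M2 := by exact_mod_cast h2
  have e3 : (0 : ℚ) < M3 := by exact_mod_cast h3
  have e4 : (0 : ℚ) < M4 := by exact_mod_cast h4
  have : (L1 : ℚ) / M1 * (L2 / M2) * (L3 / M3) * (L4 / M4) =
      (L1 * L2 * L3 * L4) / (M1 * M2 * M3 * M4) := by field_simp
  rw [this, le_div_iff₀ (by positivity)]
  have h9 : (2 : ℚ) + 1 / 3 ^ 12 = 1062883 / 531441 := by norm_num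
  rw [h9, div_mul_eq_mul_div, div_le_iff₀ (by norm_num)]
  linarith

theorem e3_ok : entOk e3 = true := allE_sound tl_ok e3 List.mem_cons_self

theorem e_ok {e : Ent} (h : e ∈ TL) : entOk e = true :=
  allE_sound tl_ok e (List.mem_cons_of_mem _ h)

theorem amin_le {n : ℕ} (ho : Odd n) (hP : PropP n) (hN : NearSP n) {x : ℕ}
    (hx : x ∈ n.primeFactors) : amin x ≤ n.factorization x := by
  have hn : n ≠ 0 := by rintro rfl; simp at ho
  have h := exp_min ho (fun p hp => rv_prime hn hP hp) (fun p hp => exp_even ho hP hp)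
    (fiber_even ho hP hN)
  have hd : x ∣ n := Nat.dvd_of_mem_primeFactors hx
  obtain ⟨h3, h5, h7, h13, h17, h19⟩ := h
  unfold amin
  split_ifs with a1 a2 a3 a4 a5 a6
  · subst a1; exact h3 hd
  · subst a2; exact h5 hd
  · subst a3; exact h7 hd
  · subst a4; exact h13 hd
  · subst a5; exact h17 hd
  · subst a6; exact h19 hd
  · exact (exp_even ho hP hx).2

theorem no_share {n : ℕ} (ho : Odd n) (hP : PropP n) {p q : ℕ}
    (hp : p ∈ n.primeFactors) (hq : q ∈ n.primeFactors) (hpq : p < q) (hr : rv n p = rv n q) :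
    Xf p ≤ q := by
  have hpp := Nat.prime_of_mem_primeFactors hp
  have hqp := Nat.prime_of_mem_primeFactors hq
  have hd : p ∣ n := Nat.dvd_of_mem_primeFactors hp
  have hp3 : 3 ≤ p := by
    have h2 := hpp.two_le
    have : p ≠ 2 := by
      rintro rfl
      exact (Nat.not_even_iff_odd.2 ho) (even_iff_two_dvd.2 hd)
    omega
  obtain ⟨e1, g1⟩ := exp_even ho hP hp
  obtain ⟨e2, g2⟩ := exp_even ho hP hq
  have hS : Sol p q (n.factorization p) (n.factorization q) :=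
    ⟨hpp.two_le, hqp.two_le, g1, g2, even_iff_two_dvd.1 e1, even_iff_two_dvd.1 e2, hr⟩
  unfold Xf
  by_contra hlt
  push_neg at hlt
  have h1 : q ≤ max (Rt p) p := by omega
  have h2 : q ≤ Rt p := by
    rcases le_total (Rt p) p with h | h
    · rw [max_eq_right h] at h1
      omega
    · rwa [max_eq_left h] at h1
  exact pair_excl hpp hp3 hqp hpq h2 hS

theorem card_three_sorted {U : Finset ℕ} (h : U.card = 3) :
    ∃ b c d, b < c ∧ c < d ∧ U = {b, c, d} := by
  obtain ⟨x, y, z, hxy, hxz, hyz, rfl⟩ := Finset.card_eq_three.1 h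
  rcases lt_or_gt_of_ne hxy with h1 | h1 <;> rcases lt_or_gt_of_ne hxz with h2 | h2 <;>
    rcases lt_or_gt_of_ne hyz with h3 | h3
  · exact ⟨x, y, z, h1, h3, rfl⟩
  · exact ⟨x, z, y, h2, h3, by ext w; simp; tauto⟩
  · omega
  · exact ⟨z, x, y, h2, h1, by ext w; simp; tauto⟩
  · exact ⟨y, x, z, h1, h2, by ext w; simp; tauto⟩
  · omega
  · exact ⟨y, z, x, h3, h2, by ext w; simp; tauto⟩
  · exact ⟨z, y, x, h3, h1, by ext w; simp; tauto⟩

/-- the bound for three further classes, all of size two -/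
theorem fin_three {n : ℕ} (ho : Odd n) (hP : PropP n) (hN : NearSP n)
    (hlt : ∀ T : Finset ℕ, T ⊆ n.primeFactors →
      ∏ p ∈ T, ((rv n p : ℚ) / (p : ℚ) ^ (n.factorization p)) < 2 + 1 / 3 ^ 12)
    (h3 : 3 ∈ n.primeFactors) {b c d : ℕ} (hb : b ∈ n.primeFactors) (hc : c ∈ n.primeFactors)
    (hd : d ∈ n.primeFactors) (h3b : 3 < b) (hbc : b < c) (hcd : c < d) :
    fW 1 3 * fW 1 b * fW 1 c * fW 1 d ≤ 2 := by
  have pb := Nat.prime_of_mem_primeFactors hb
  have pc := Nat.prime_of_mem_primeFactors hc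
  have pd := Nat.prime_of_mem_primeFactors hd
  have b5 : 5 ≤ b := by
    have : b ≠ 4 := by rintro rfl; exact absurd pb (by norm_num)
    omega
  obtain ⟨eb, mb, tb⟩ := exists_ent pb b5
  obtain ⟨ec, mc, tc⟩ := exists_ent pc (by omega)
  obtain ⟨ed, md, td⟩ := exists_ent pd (by omega)
  have hok := chkA_use mb mc md (by omega) (by omega)
  have s3 := ent_spec e3_ok
  have sb := ent_spec (e_ok mb)
  have sc := ent_spec (e_ok mc)
  have sd := ent_spec (e_ok md)
  unfold okA at hok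
  rw [Bool.or_eq_true] at hok
  have f3 : fW 1 3 = (e3.2.1 : ℚ) / e3.2.2.1 := s3.2.1
  have fb : fW 1 b ≤ (eb.2.1 : ℚ) / eb.2.2.1 := by
    rw [← sb.2.1, tb]; exact fW_le_min 1
  have fc : fW 1 c ≤ (ec.2.1 : ℚ) / ec.2.2.1 := by
    rw [← sc.2.1, tc]; exact fW_le_min 1
  have fd : fW 1 d ≤ (ed.2.1 : ℚ) / ed.2.2.1 := by
    rw [← sd.2.1, td]; exact fW_le_min 1
  have p3 := fW_one_le 1 (x := 3) (by norm_num)
  have qb := fW_one_le 1 (x := b) (by omega)
  have qc := fW_one_le 1 (x := c) (by omega)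
  have qd := fW_one_le 1 (x := d) (by omega)
  rcases hok with hok | hok
  · have h1 := Nat.le_of_ble_eq_true hok
    have h2 := mul_le_two_of (N1 := e3.2.1) (N2 := eb.2.1) (N3 := ec.2.1) (N4 := ed.2.1)
      (D1 := e3.2.2.1) (D2 := eb.2.2.1) (D3 := ec.2.2.1) (D4 := ed.2.2.1) h1
      s3.2.2.2.1 sb.2.2.2.1 sc.2.2.2.1 sd.2.2.2.1
    refine le_trans ?_ h2
    rw [f3] at p3 ⊢
    refine mul_le_mul (mul_le_mul (mul_le_mul_of_nonneg_left fb (by linarith)) fc
      (by linarith) ?_) fd (by linarith) ?_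
    · exact mul_nonneg (by linarith) (by linarith)
    · exact mul_nonneg (mul_nonneg (by linarith) (by linarith)) (by linarith)
  · exfalso
    have h1 := Nat.le_of_ble_eq_true hok
    have h2 := ge_of_mul (M1 := e3.2.2.2.2.2.2) (M2 := eb.2.2.2.2.2.2) (M3 := ec.2.2.2.2.2.2)
      (M4 := ed.2.2.2.2.2.2) (L1 := e3.2.2.2.2.2.1) (L2 := eb.2.2.2.2.2.1)
      (L3 := ec.2.2.2.2.2.1) (L4 := ed.2.2.2.2.2.1) h1
      s3.2.2.2.2.2.2.1 sb.2.2.2.2.2.2.1 sc.2.2.2.2.2.2.1 sd.2.2.2.2.2.2.1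
    have l3 := lb_factor (n := n) (x := 3) (by norm_num) (amin_le ho hP hN h3) e3_ok rfl
    have lb := lb_factor (n := n) (x := b) (by omega) (amin_le ho hP hN hb) (e_ok mb) tb
    have lc := lb_factor (n := n) (x := c) (by omega) (amin_le ho hP hN hc) (e_ok mc) tc
    have ld := lb_factor (n := n) (x := d) (by omega) (amin_le ho hP hN hd) (e_ok md) td
    have h4 := hlt {3, b, c, d} (by
      intro x hx
      simp only [mem_insert, mem_singleton] at hx
      rcases hx with rfl | rfl | rfl | rfl <;> assumption)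
    rw [prod_insert (by simp; omega), prod_insert (by simp; omega), prod_insert (by simp; omega),
      prod_singleton] at h4
    have n3 : (0 : ℚ) ≤ (e3.2.2.2.2.2.1 : ℚ) / e3.2.2.2.2.2.2 := by positivity
    have nb : (0 : ℚ) ≤ (eb.2.2.2.2.2.1 : ℚ) / eb.2.2.2.2.2.2 := by positivity
    have nc : (0 : ℚ) ≤ (ec.2.2.2.2.2.1 : ℚ) / ec.2.2.2.2.2.2 := by positivity
    have nd : (0 : ℚ) ≤ (ed.2.2.2.2.2.1 : ℚ) / ed.2.2.2.2.2.2 := by positivity
    have h5 : (e3.2.2.2.2.2.1 : ℚ) / e3.2.2.2.2.2.2 * (eb.2.2.2.2.2.1 / eb.2.2.2.2.2.2) *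
        (ec.2.2.2.2.2.1 / ec.2.2.2.2.2.2) * (ed.2.2.2.2.2.1 / ed.2.2.2.2.2.2) ≤
        (rv n 3 : ℚ) / (3 : ℚ) ^ (n.factorization 3) * ((rv n b : ℚ) / (b : ℚ) ^ (n.factorization b))
        * ((rv n c : ℚ) / (c : ℚ) ^ (n.factorization c)) *
        ((rv n d : ℚ) / (d : ℚ) ^ (n.factorization d)) := by
      have l3' : (e3.2.2.2.2.2.1 : ℚ) / e3.2.2.2.2.2.2 ≤
        (rv n 3 : ℚ) / (3 : ℚ) ^ (n.factorization 3) := by exact_mod_cast l3
      refine mul_le_mul (mul_le_mul (mul_le_mul l3' lb nb (le_trans n3 l3')) lc nc ?_) ld nd ?_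
      · exact mul_nonneg (le_trans n3 l3') (le_trans nb lb)
      · exact mul_nonneg (mul_nonneg (le_trans n3 l3') (le_trans nb lb)) (le_trans nc lc)
    push_cast at h4
    have h6 := le_trans h2 h5
    have h7 : (rv n 3 : ℚ) / (3 : ℚ) ^ (n.factorization 3) *
        ((rv n b : ℚ) / (b : ℚ) ^ (n.factorization b))
        * ((rv n c : ℚ) / (c : ℚ) ^ (n.factorization c)) *
        ((rv n d : ℚ) / (d : ℚ) ^ (n.factorization d)) < 2 + 1 / 3 ^ 12 := by
      refine lt_of_eq_of_lt ?_ h4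
      ring
    exact absurd h6 (not_le.2 h7)

end Pool.Agent.NearSuper255
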