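import Pool.Agent.NearSuper255.Main

/-!
# The bound for the number of prime factors, continued
-/

namespace Pool.Agent.NearSuper255

open Finset

theorem fin_two' {eb ec : Ent} (mb : eb ∈ TL) (mc : ec ∈ TL) (hbc : eb.1 < ec.1 ∨ ec.1 = 523)
    {R3 Rb Rc fb fc : ℚ} (hfb : fb ≤ (eb.2.2.2.1 : ℚ) / eb.2.2.2.2.1)
    (hfc : fc ≤ (ec.2.2.2.1 : ℚ) / ec.2.2.2.2.1) (hb1 : 1 ≤ fb) (hc1 : 1 ≤ fc)
    (h3 : (e3.2.2.2.2.2.1 : ℚ) / e3.2.2.2.2.2.2 ≤ R3)
    (hRb : (eb.2.2.2.2.2.1 : ℚ) / eb.2.2.2.2.2.2 ≤ Rb)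
    (hRc : (ec.2.2.2.2.2.1 : ℚ) / ec.2.2.2.2.2.2 ≤ Rc)
    (hlt : R3 * Rb * Rc < 2 + 1 / 3 ^ 12) : fW 7 3 * fb * fc ≤ 2 := by
  have hok := chkB_use mb mc hbc
  have s3 := ent_spec e3_ok
  have sb := ent_spec (e_ok mb)
  have sc := ent_spec (e_ok mc)
  unfold okB at hok
  rw [Bool.or_eq_true] at hok
  have f3 : fW 7 3 = (e3.2.2.2.1 : ℚ) / e3.2.2.2.2.1 := s3.2.2.1
  have p3 := fW_one_le 7 (x := 3) (by norm_num)
  rcases hok with hok | hok
  · have h1 := Nat.le_of_ble_eq_true hok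
    have h2 := mul_le_two_of (N1 := e3.2.2.2.1) (N2 := eb.2.2.2.1) (N3 := ec.2.2.2.1) (N4 := 1)
      (D1 := e3.2.2.2.2.1) (D2 := eb.2.2.2.2.1) (D3 := ec.2.2.2.2.1) (D4 := 1)
      (by rw [mul_one, mul_one]; exact h1)
      s3.2.2.2.2.1 sb.2.2.2.2.1 sc.2.2.2.2.1 Nat.one_pos
    rw [Nat.cast_one, div_one, mul_one] at h2
    refine le_trans ?_ h2
    rw [f3] at p3 ⊢
    refine mul_le_mul (mul_le_mul_of_nonneg_left hfb (by linarith)) hfc
      (by linarith) ?_
    exact mul_nonneg (by linarith) (by linarith)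
  · exfalso
    have h1 := Nat.le_of_ble_eq_true hok
    have h2 := ge_of_mul (M1 := e3.2.2.2.2.2.2) (M2 := eb.2.2.2.2.2.2) (M3 := ec.2.2.2.2.2.2)
      (M4 := 1) (L1 := e3.2.2.2.2.2.1) (L2 := eb.2.2.2.2.2.1)
      (L3 := ec.2.2.2.2.2.1) (L4 := 1) (by rw [mul_one, mul_one]; exact h1)
      s3.2.2.2.2.2.2.1 sb.2.2.2.2.2.2.1 sc.2.2.2.2.2.2.1 Nat.one_pos
    rw [Nat.cast_one, div_one, mul_one] at h2
    have n3 : (0 : ℚ) ≤ (e3.2.2.2.2.2.1 : ℚ) / e3.2.2.2.2.2.2 := by positivity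
    have nb : (0 : ℚ) ≤ (eb.2.2.2.2.2.1 : ℚ) / eb.2.2.2.2.2.2 := by positivity
    have nc : (0 : ℚ) ≤ (ec.2.2.2.2.2.1 : ℚ) / ec.2.2.2.2.2.2 := by positivity
    have h5 : (e3.2.2.2.2.2.1 : ℚ) / e3.2.2.2.2.2.2 * (eb.2.2.2.2.2.1 / eb.2.2.2.2.2.2) *
        (ec.2.2.2.2.2.1 / ec.2.2.2.2.2.2) ≤ R3 * Rb * Rc := by
      refine mul_le_mul (mul_le_mul h3 hRb nb (le_trans n3 h3)) hRc nc ?_
      exact mul_nonneg (le_trans n3 h3) (le_trans nb hRb)
    exact absurd (le_trans h2 h5) (not_le.2 hlt)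

theorem pad_ent : ∃ e ∈ TL, e.1 = 523 ∧ (1 : ℚ) ≤ (e.2.2.2.1 : ℚ) / e.2.2.2.2.1 ∧
    (e.2.2.2.2.2.1 : ℚ) / e.2.2.2.2.2.2 ≤ 1 := by
  obtain ⟨e, he, h1⟩ := exists_ent (by norm_num : Nat.Prime 523) (by norm_num)
  rw [min_self] at h1
  have s := ent_spec (e_ok he)
  refine ⟨e, he, h1, ?_, ?_⟩
  · rw [← s.2.2.1, h1]
    exact fW_one_le 7 (by norm_num)
  · obtain ⟨h2, h3⟩ := s.2.2.2.2.2.2.2.1 h1
    rw [h2, h3]
    norm_num

/-- the bound for at most two further classes -/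
theorem fin_two {n : ℕ} (ho : Odd n) (hP : PropP n) (hN : NearSP n)
    (hlt : ∀ T : Finset ℕ, T ⊆ n.primeFactors →
      ∏ p ∈ T, ((rv n p : ℚ) / (p : ℚ) ^ (n.factorization p)) < 2 + 1 / 3 ^ 12)
    (h3 : 3 ∈ n.primeFactors) {U : Finset ℕ} (hU : U ⊆ n.primeFactors)
    (h3U : ∀ x ∈ U, 3 < x) (hc : U.card ≤ 2) :
    fW 7 3 * ∏ x ∈ U, fW 7 x ≤ 2 := by
  have l3 : (e3.2.2.2.2.2.1 : ℚ) / e3.2.2.2.2.2.2 ≤
      (rv n 3 : ℚ) / ((3 : ℕ) : ℚ) ^ (n.factorization 3) :=
    lb_factor (n := n) (x := 3) (by norm_num) (amin_le ho hP hN h3) e3_ok rfl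
  obtain ⟨e, me, e523, epad, epad2⟩ := pad_ent
  have hpr : ∀ x ∈ U, x.Prime := fun x hx => Nat.prime_of_mem_primeFactors (hU hx)
  have h5 : ∀ x ∈ U, 5 ≤ x := by
    intro x hx
    have h1 := h3U x hx
    have h2 := hpr x hx
    have : x ≠ 4 := by rintro rfl; exact absurd h2 (by norm_num)
    omega
  have key : ∀ x ∈ U, ∃ ex ∈ TL, ex.1 = min x 523 ∧ fW 7 x ≤ (ex.2.2.2.1 : ℚ) / ex.2.2.2.2.1 ∧
      1 ≤ fW 7 x ∧ (ex.2.2.2.2.2.1 : ℚ) / ex.2.2.2.2.2.2 ≤
        (rv n x : ℚ) / (x : ℚ) ^ (n.factorization x) := by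
    intro x hx
    obtain ⟨ex, mx, tx⟩ := exists_ent (hpr x hx) (h5 x hx)
    have sx := ent_spec (e_ok mx)
    refine ⟨ex, mx, tx, ?_, fW_one_le 7 (by have := h5 x hx; omega),
      lb_factor (by have := h5 x hx; omega) (amin_le ho hP hN (hU hx)) (e_ok mx) tx⟩
    rw [← sx.2.2.1, tx]
    exact fW_le_min 7
  rcases Nat.lt_or_ge U.card 1 with h0 | h0
  · have hU0 : U = ∅ := Finset.card_eq_zero.1 (by omega)
    subst hU0
    have h4 := hlt {3} (by simpa using h3)
    rw [prod_singleton] at h4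
    have := fin_two' me me (Or.inr e523) (fb := 1) (fc := 1) (Rb := 1) (Rc := 1) epad epad
      (le_refl _) (le_refl _) l3 epad2 epad2 (by rw [mul_one, mul_one]; exact h4)
    simpa using this
  rcases Nat.lt_or_ge U.card 2 with h1 | h1
  · obtain ⟨x, rfl⟩ := Finset.card_eq_one.1 (by omega : U.card = 1)
    obtain ⟨ex, mx, tx, g1, g2, g3⟩ := key x (mem_singleton_self x)
    have hne : (3 : ℕ) ∉ ({x} : Finset ℕ) := by
      intro h
      have := h3U 3 h
      omega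
    have h4 := hlt (insert 3 {x}) (by
      intro y hy
      rcases mem_insert.1 hy with rfl | hy
      · exact h3
      · exact hU hy)
    rw [prod_insert hne, prod_singleton] at h4
    have := fin_two' mx me (Or.inr e523) (fc := 1) (Rc := 1) g1 epad
      g2 (le_refl _) l3 g3 epad2 (by rw [mul_one]; exact h4)
    rw [prod_singleton]
    simpa using this
  · obtain ⟨x, y, hxy, rfl⟩ := Finset.card_eq_two.1 (by omega : U.card = 2)
    have hgen : ∀ a b : ℕ, a < b → a ∈ ({x, y} : Finset ℕ) → b ∈ ({x, y} : Finset ℕ) →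
        fW 7 3 * fW 7 a * fW 7 b ≤ 2 := by
      intro a b hab ha hb
      obtain ⟨ea, ma, ta, a1, a2, a3⟩ := key a ha
      obtain ⟨eb, mb, tb, b1, b2, b3⟩ := key b hb
      have h4 := hlt {3, a, b} (by
        intro z hz
        simp only [mem_insert, mem_singleton] at hz
        rcases hz with rfl | rfl | rfl
        · exact h3
        · exact hU ha
        · exact hU hb)
      have hna := h3U a ha
      have hnb := h3U b hb
      rw [prod_insert (by simp; omega), prod_insert (by simp; omega), prod_singleton,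
        ← mul_assoc] at h4
      exact fin_two' ma mb (by omega) a1 b1 a2 b2 l3 a3 b3 h4
    rw [prod_insert (by simpa using hxy), prod_singleton, ← mul_assoc]
    rcases lt_or_gt_of_ne hxy with h | h
    · exact hgen x y h (by simp) (by simp)
    · have := hgen y x h (by simp) (by simp)
      linarith

theorem caseA {n : ℕ} (ho : Odd n) (hP : PropP n) (hN : NearSP n) (h3n : 3 ∣ n)
    (hk : n.primeFactors.card ≤ 8) : False := by
  have hn : n ≠ 0 := by rintro rfl; simp at ho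
  have hr : ∀ p ∈ n.primeFactors, (rv n p).Prime := fun p hp => rv_prime hn hP hp
  have hs := sigma_eq_prod hn
  have hf := fiber_even ho hP hN
  have he : ∀ p ∈ n.primeFactors, Even (n.factorization p) ∧ 2 ≤ n.factorization p :=
    fun p hp => exp_even ho hP hp
  have h3 := three_adic hn hr hs hf hk
  have h16 := (exp_min ho hr he hf).1 h3n
  have hlt := abund_lt hn hr hs hN h16 h3
  have h3mem : 3 ∈ n.primeFactors := Nat.mem_primeFactors.2 ⟨by norm_num, h3n, hn⟩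
  obtain ⟨T, s, hT, hs2, hsum, hmin, h2⟩ := class_bound ho hP hN Xf
    (fun t => by have := Xf_ge t; omega) (fun p q hp hq hpq hr => no_share ho hP hp hq hpq hr)
  have hge3 : ∀ p ∈ n.primeFactors, 3 ≤ p := by
    intro p hp
    have h1 := (Nat.prime_of_mem_primeFactors hp).two_le
    have : p ≠ 2 := by
      rintro rfl
      exact (Nat.not_even_iff_odd.2 ho) (even_iff_two_dvd.2 (Nat.dvd_of_mem_primeFactors hp))
    omega
  have h3T : 3 ∈ T := hmin 3 h3mem hge3
  have h2' : (2 : ℚ) < ∏ t ∈ T, fW (s t - 1) t := h2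
  have hcard : 2 * T.card ≤ 8 := by
    have : ∑ t ∈ T, 2 ≤ ∑ t ∈ T, s t := Finset.sum_le_sum (fun t ht => (hs2 t ht).2)
    rw [Finset.sum_const, smul_eq_mul] at this
    omega
  have hTe : T = insert 3 (T.erase 3) := (Finset.insert_erase h3T).symm
  have hcT : T.card = (T.erase 3).card + 1 := by
    rw [Finset.card_erase_of_mem h3T]
    have := Finset.card_pos.2 ⟨3, h3T⟩
    omega
  have hU : T.erase 3 ⊆ n.primeFactors := (Finset.erase_subset _ _).trans hT
  have hU3 : ∀ x ∈ T.erase 3, 3 < x := by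
    intro x hx
    have h4 := hge3 x (hU hx)
    have h5 := (Finset.mem_erase.1 hx).1
    omega
  have hprod : ∏ t ∈ T, fW (s t - 1) t =
      fW (s 3 - 1) 3 * ∏ t ∈ T.erase 3, fW (s t - 1) t := by
    rw [← Finset.mul_prod_erase T _ h3T]
  have hs8 : ∀ t ∈ T, s t ≤ 8 := by
    intro t ht
    have := Finset.single_le_sum (f := s) (fun i _ => Nat.zero_le _) ht
    omega
  rcases Nat.lt_or_ge (T.erase 3).card 3 with hc | hc
  · have h5 := fin_two ho hP hN hlt h3mem hU hU3 (by omega)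
    have h6 : ∏ t ∈ T, fW (s t - 1) t ≤ fW 7 3 * ∏ x ∈ T.erase 3, fW 7 x := by
      rw [hprod]
      refine mul_le_mul (fW_mono (by have := hs8 3 h3T; omega) (by norm_num)) ?_ ?_ ?_
      · refine Finset.prod_le_prod ?_ ?_
        · intro x hx
          have := fW_one_le (s x - 1) (x := x) (by have := hU3 x hx; omega)
          linarith
        · intro x hx
          exact fW_mono (by have := hs8 x (Finset.mem_of_mem_erase hx); omega)
            (by have := hU3 x hx; omega)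
      · refine Finset.prod_nonneg ?_
        intro x hx
        have := fW_one_le (s x - 1) (x := x) (by have := hU3 x hx; omega)
        linarith
      · have := fW_one_le 7 (x := 3) (by norm_num)
        linarith
    linarith
  · have hc3 : (T.erase 3).card = 3 := by omega
    have hs2' : ∀ t ∈ T, s t = 2 := by
      intro t ht
      by_contra hne
      have h7 : 2 < s t := lt_of_le_of_ne (hs2 t ht).2 (Ne.symm hne)
      have : ∑ t ∈ T, 2 < ∑ t ∈ T, s t :=
        Finset.sum_lt_sum (fun t ht => (hs2 t ht).2) ⟨t, ht, h7⟩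
      rw [Finset.sum_const, smul_eq_mul] at this
      omega
    obtain ⟨b, c, d, hbc, hcd, hU'⟩ := card_three_sorted hc3
    have hb : b ∈ T.erase 3 := by rw [hU']; simp
    have hc' : c ∈ T.erase 3 := by rw [hU']; simp
    have hd : d ∈ T.erase 3 := by rw [hU']; simp
    have h8 := fin_three ho hP hN hlt h3mem (hU hb) (hU hc') (hU hd) (hU3 b hb) hbc hcd
    have h9 : ∏ t ∈ T, fW (s t - 1) t = fW 1 3 * fW 1 b * fW 1 c * fW 1 d := by
      rw [hprod, hs2' 3 h3T]
      have : ∏ t ∈ T.erase 3, fW (s t - 1) t = ∏ t ∈ T.erase 3, fW 1 t :=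
        Finset.prod_congr rfl (fun t ht => by rw [hs2' t (Finset.mem_of_mem_erase ht)])
      rw [this, hU', prod_insert (by simp; omega), prod_insert (by simp; omega), prod_singleton]
      ring
    linarith

theorem caseB' {n : ℕ} (ho : Odd n) (hP : PropP n) (hN : NearSP n) (h3n : ¬ 3 ∣ n)
    (hk : n.primeFactors.card ≤ 12) : False := by
  obtain ⟨T, s, hT, hs2, hsum, hmin, h2⟩ := class_bound ho hP hN Xf
    (fun t => by have := Xf_ge t; omega) (fun p q hp hq hpq hr => no_share ho hP hp hq hpq hr)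
  have h5 : ∀ t ∈ T, t.Prime ∧ 5 ≤ t := by
    intro t ht
    have h1 := Nat.prime_of_mem_primeFactors (hT ht)
    have h3 := Nat.dvd_of_mem_primeFactors (hT ht)
    refine ⟨h1, ?_⟩
    have h4 := h1.two_le
    have g2 : t ≠ 2 := by
      rintro rfl
      exact (Nat.not_even_iff_odd.2 ho) (even_iff_two_dvd.2 h3)
    have g3 : t ≠ 3 := by rintro rfl; exact h3n h3
    have g4 : t ≠ 4 := by rintro rfl; exact absurd h1 (by norm_num)
    omega
  have := caseB T s Xf h5 (fun t ht => (hs2 t ht).2) (by omega) Xf_ge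
  exact absurd this (not_le.2 h2)

theorem card_even {n : ℕ} (ho : Odd n) (hP : PropP n) (hN : NearSP n) :
    Even n.primeFactors.card := by
  have h := Finset.card_eq_sum_card_image (rv n) n.primeFactors
  rw [h]
  exact Finset.even_sum _ (fun r _ => fiber_even ho hP hN r)

end Pool.Agent.NearSuper255
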