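import Pool.Agent.NearSuper255.Defs

/-!
# Project NSP, module H: the 5-adic bound and the abundancy of the components
-/

set_option autoImplicit false

namespace Pool.Agent.NearSuper255

open Finset

private lemma h85H_S_ne_zero (x n : ℕ) : S x (n + 1) ≠ 0 := by
  unfold S
  rw [sum_range_succ']
  have : x ^ 0 = 1 := pow_zero x
  omega

private lemma h85H_S_mod (x n m : ℕ) : S x n % m = S (x % m) n % m := by
  have h : S x n ≡ S (x % m) n [MOD m] := by
    unfold S
    induction n with
    | zero => exact Nat.ModEq.refl _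
    | succ k ih =>
      rw [sum_range_succ, sum_range_succ]
      exact Nat.ModEq.add ih ((Nat.mod_modEq x m).symm.pow k)
  exact h

private lemma h85H_fact_lt {a k : ℕ} (ha : a ≠ 0) (h : ¬ 5 ^ k ∣ a) : a.factorization 5 < k := by
  by_contra hcon
  push Not at hcon
  exact h ((Nat.prime_five.pow_dvd_iff_le_factorization ha).2 hcon)

/-- If no residue class gives a multiple of `5 ^ k` then there is none. -/
private lemma h85H_S_lt (r f k : ℕ) (h : ∀ t < 5 ^ k, S t (f + 1) % 5 ^ k ≠ 0) :
    (S r (f + 1)).factorization 5 < k := by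
  refine h85H_fact_lt (h85H_S_ne_zero r f) (fun hd => ?_)
  have h1 := Nat.mod_eq_zero_of_dvd hd
  rw [h85H_S_mod] at h1
  exact h _ (Nat.mod_lt _ (by positivity)) h1

private lemma h85H_bound (r f : ℕ) (hf : Even f) (h14 : f ≤ 14) :
    4 * (S r (f + 1)).factorization 5 ≤ f := by
  obtain ⟨g, rfl⟩ := hf
  have hg : g ≤ 7 := by omega
  interval_cases g
  · have h1 : S r (0 + 0 + 1) = 1 := by
      unfold S
      simp
    rw [h1, Nat.factorization_one]
    simp
  · have := h85H_S_lt r 2 1 (by decide)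
    show 4 * (S r (2 + 1)).factorization 5 ≤ 2
    omega
  · have := h85H_S_lt r 4 2 (by decide +kernel)
    show 4 * (S r (4 + 1)).factorization 5 ≤ 4
    omega
  · have := h85H_S_lt r 6 1 (by decide)
    show 4 * (S r (6 + 1)).factorization 5 ≤ 6
    omega
  · have := h85H_S_lt r 8 1 (by decide)
    show 4 * (S r (8 + 1)).factorization 5 ≤ 8
    omega
  · have := h85H_S_lt r 10 1 (by decide +kernel)
    show 4 * (S r (10 + 1)).factorization 5 ≤ 10
    omega
  · have := h85H_S_lt r 12 1 (by decide +kernel)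
    show 4 * (S r (12 + 1)).factorization 5 ≤ 12
    omega
  · have := h85H_S_lt r 14 2 (by decide +kernel)
    show 4 * (S r (14 + 1)).factorization 5 ≤ 14
    omega

private theorem h85H_five_adic {n : ℕ} (hr : ∀ p ∈ n.primeFactors, (rv n p).Prime)
    (hs : ArithmeticFunction.sigma 1 n = ∏ p ∈ n.primeFactors, rv n p)
    (hf : ∀ r : ℕ, Even ((n.primeFactors.filter (fun p => rv n p = r)).card))
    (hk : n.primeFactors.card ≤ 14) :
    ¬ 5 ^ 4 ∣ ArithmeticFunction.sigma 1 (ArithmeticFunction.sigma 1 n) := by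
  classical
  intro hdvd
  obtain ⟨M, hM⟩ : ∃ M, M = ArithmeticFunction.sigma 1 n := ⟨_, rfl⟩
  rw [← hM] at hs hdvd
  have hM0 : M ≠ 0 := by
    rw [hs, Finset.prod_ne_zero_iff]
    exact fun p hp => (hr p hp).ne_zero
  have hfac : ∀ r, M.factorization r = (n.primeFactors.filter (fun p => rv n p = r)).card := by
    intro r
    rw [hs, Nat.factorization_prod (fun p hp => (hr p hp).ne_zero), Finsupp.finsetSum_apply,
      Finset.card_filter]
    refine Finset.sum_congr rfl fun p hp => ?_
    rw [(hr p hp).factorization, Finsupp.single_apply]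
  obtain ⟨R, hR⟩ : ∃ R, R = n.primeFactors.image (rv n) := ⟨_, rfl⟩
  have hsupp : M.factorization.support ⊆ R := by
    intro r hr'
    rw [Finsupp.mem_support_iff, hfac] at hr'
    obtain ⟨p, hp⟩ := Finset.card_pos.1 (Nat.pos_of_ne_zero hr')
    rw [Finset.mem_filter] at hp
    rw [hR, Finset.mem_image]
    exact ⟨p, hp.1, hp.2⟩
  have hRp : ∀ r ∈ R, r.Prime := by
    intro r hr'
    rw [hR, Finset.mem_image] at hr'
    obtain ⟨p, hp, rfl⟩ := hr'
    exact hr p hp
  have hsig : ArithmeticFunction.sigma 1 M =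
      ∏ r ∈ R, S r ((n.primeFactors.filter (fun p => rv n p = r)).card + 1) := by
    rw [ArithmeticFunction.IsMultiplicative.multiplicative_factorization _
      ArithmeticFunction.isMultiplicative_sigma hM0]
    rw [Finsupp.prod_of_support_subset _ hsupp _ (by intro i _; simp)]
    refine Finset.prod_congr rfl fun r hr' => ?_
    rw [ArithmeticFunction.sigma_one_apply_prime_pow (hRp r hr'), hfac r]
    rfl
  have h3 : (ArithmeticFunction.sigma 1 M).factorization 5 =
      ∑ r ∈ R, (S r ((n.primeFactors.filter (fun p => rv n p = r)).card + 1)).factorization 5 := by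
    rw [hsig, Nat.factorization_prod (fun r _ => h85H_S_ne_zero r _), Finsupp.finsetSum_apply]
  have h4 : n.primeFactors.card = ∑ r ∈ R, (n.primeFactors.filter (fun p => rv n p = r)).card := by
    rw [hR]
    exact Finset.card_eq_sum_card_image (rv n) n.primeFactors
  have h5 : 4 * (ArithmeticFunction.sigma 1 M).factorization 5 ≤ n.primeFactors.card := by
    rw [h3, h4, Finset.mul_sum]
    refine Finset.sum_le_sum fun r _ => h85H_bound r _ (hf r) ?_
    exact (Finset.card_filter_le _ _).trans hk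
  have h6 : ArithmeticFunction.sigma 1 M ≠ 0 := by
    rw [hsig, Finset.prod_ne_zero_iff]
    exact fun r _ => h85H_S_ne_zero r _
  have h7 := (Nat.prime_five.pow_dvd_iff_le_factorization h6).1 hdvd
  omega

private theorem h85H_sigma_gt (M : ℕ) (hM : 1 < M) : M < ArithmeticFunction.sigma 1 M := by
  rw [ArithmeticFunction.sigma_one_apply]
  have hsub : ({1, M} : Finset ℕ) ⊆ M.divisors := by
    intro x hx
    rw [Finset.mem_insert, Finset.mem_singleton] at hx
    rw [Nat.mem_divisors]
    rcases hx with rfl | rfl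
    · exact ⟨one_dvd _, by omega⟩
    · exact ⟨dvd_rfl, by omega⟩
  have h1 := Finset.sum_le_sum_of_subset (f := fun x : ℕ => x) hsub
  rw [Finset.sum_pair (by omega)] at h1
  omega

private theorem h85H_rv_ge (n p : ℕ) : p ^ (n.factorization p) ≤ rv n p := by
  unfold rv S
  exact Finset.single_le_sum (f := fun i => p ^ i) (fun i _ => Nat.zero_le _)
    (Finset.mem_range.2 (Nat.lt_succ_self _))

/-- H. -/
theorem abund_lt5 {n : ℕ} (hn : n ≠ 0)
    (hr : ∀ p ∈ n.primeFactors, (rv n p).Prime)
    (hs : ArithmeticFunction.sigma 1 n = ∏ p ∈ n.primeFactors, rv n p)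
    (hf : ∀ r : ℕ, Even ((n.primeFactors.filter (fun p => rv n p = r)).card))
    (hk : n.primeFactors.card ≤ 14) (hN : NearSP n) (h10 : 10 ≤ n.factorization 5)
    (T : Finset ℕ) (hT : T ⊆ n.primeFactors) :
    ∏ p ∈ T, ((rv n p : ℚ) / (p : ℚ) ^ (n.factorization p)) < 2 + 1 / 5 ^ 7 := by
  have h5 := h85H_five_adic hr hs hf hk
  obtain ⟨d, hd0, ⟨m, hm⟩, hd⟩ := hN
  have hm0 : m ≠ 0 := by
    rintro rfl
    exact hn (by rw [hm, mul_zero])
  -- `5 ^ 7 ∣ m`
  have hd5 : ¬ 5 ^ 4 ∣ d := by
    intro h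
    apply h5
    rw [hd, hm]
    exact Nat.dvd_add (Dvd.dvd.mul_left (Dvd.dvd.mul_right h m) 2) h
  have hfd : d.factorization 5 < 4 := by
    by_contra hcon
    exact hd5 ((Nat.Prime.pow_dvd_iff_le_factorization Nat.prime_five hd0.ne').2 (by omega))
  have hfm : 7 ≤ m.factorization 5 := by
    have h1 : n.factorization 5 = d.factorization 5 + m.factorization 5 := by
      rw [hm, Nat.factorization_mul hd0.ne' hm0, Finsupp.add_apply]
    omega
  have hm12 : 5 ^ 7 ≤ m := Nat.le_of_dvd (Nat.pos_of_ne_zero hm0)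
    ((Nat.Prime.pow_dvd_iff_le_factorization Nat.prime_five hm0).2 hfm)
  -- the sigma of sigma
  have hn3 : 1 < n := by
    have h1 : 5 ^ 10 ∣ n := (Nat.Prime.pow_dvd_iff_le_factorization Nat.prime_five hn).2 h10
    have h2 := Nat.le_of_dvd (Nat.pos_of_ne_zero hn) h1
    have h4 : (1 : ℕ) < 5 ^ 10 := by norm_num
    omega
  have hsn : n < ArithmeticFunction.sigma 1 n := h85H_sigma_gt n hn3
  have hssn := h85H_sigma_gt (ArithmeticFunction.sigma 1 n) (by omega)
  have hnQ : (0 : ℚ) < n := by exact_mod_cast Nat.pos_of_ne_zero hn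
  have hdQ : (0 : ℚ) < d := by exact_mod_cast hd0
  have hmQ : (0 : ℚ) < m := by exact_mod_cast Nat.pos_of_ne_zero hm0
  have e1 : ((ArithmeticFunction.sigma 1 n : ℕ) : ℚ) / n < 2 + 1 / 5 ^ 7 := by
    have h1 : ((ArithmeticFunction.sigma 1 n : ℕ) : ℚ) / n <
        ((ArithmeticFunction.sigma 1 (ArithmeticFunction.sigma 1 n) : ℕ) : ℚ) / n := by
      rw [div_lt_div_iff_of_pos_right hnQ]
      exact_mod_cast hssn
    have h2 : ((ArithmeticFunction.sigma 1 (ArithmeticFunction.sigma 1 n) : ℕ) : ℚ) / n = 2 + 1 / m := by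
      rw [hd, hm]
      push_cast
      field_simp
    have h4 : (1 : ℚ) / m ≤ 1 / 5 ^ 7 := by
      apply one_div_le_one_div_of_le (by norm_num)
      exact_mod_cast hm12
    linarith
  -- the product
  have e2 : ((ArithmeticFunction.sigma 1 n : ℕ) : ℚ) / n =
      ∏ p ∈ n.primeFactors, ((rv n p : ℚ) / (p : ℚ) ^ (n.factorization p)) := by
    rw [Finset.prod_div_distrib, hs]
    push_cast
    congr 1
    have h1 : (n : ℚ) = ((∏ p ∈ n.primeFactors, p ^ (n.factorization p) : ℕ) : ℚ) := by
      have h2 := Nat.prod_factorization_pow_eq_self hn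
      rw [Finsupp.prod, Nat.support_factorization] at h2
      exact congrArg (fun z : ℕ => (z : ℚ)) h2.symm
    rw [h1]
    push_cast
    rfl
  have hone : ∀ p ∈ n.primeFactors, (1 : ℚ) ≤ (rv n p : ℚ) / (p : ℚ) ^ (n.factorization p) := by
    intro p hp
    have hp0 : (0 : ℚ) < (p : ℚ) ^ (n.factorization p) := by
      have : 0 < p := (Nat.prime_of_mem_primeFactors hp).pos
      positivity
    rw [le_div_iff₀ hp0, one_mul]
    exact_mod_cast h85H_rv_ge n p
  have e3 : ∏ p ∈ T, ((rv n p : ℚ) / (p : ℚ) ^ (n.factorization p)) ≤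
      ∏ p ∈ n.primeFactors, ((rv n p : ℚ) / (p : ℚ) ^ (n.factorization p)) := by
    rw [← Finset.prod_sdiff hT]
    refine le_mul_of_one_le_left ?_ ?_
    · exact Finset.prod_nonneg fun p hp => zero_le_one.trans (hone p (hT hp))
    · have h1 : ∏ p ∈ n.primeFactors \ T, (1 : ℚ) ≤
          ∏ p ∈ n.primeFactors \ T, ((rv n p : ℚ) / (p : ℚ) ^ (n.factorization p)) :=
        Finset.prod_le_prod (fun _ _ => zero_le_one) fun p hp => hone p (Finset.sdiff_subset hp)
      rwa [Finset.prod_const_one] at h1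
  rw [← e2] at e3
  exact e3.trans_lt e1

end Pool.Agent.NearSuper255
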