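import Pool.Agent.NearSuper255.Defs

/-!
# MP_255fbb_nt, module I: the 3-adic bound and the abundancy for ten primes
-/

set_option autoImplicit false

namespace Pool.Agent.NearSuper255

open Finset

private lemma modI_S_ne_zero (x n : ℕ) : S x (n + 1) ≠ 0 := by
  unfold S
  rw [sum_range_succ']
  have : x ^ 0 = 1 := pow_zero x
  omega

private lemma modI_S_mod (x n m : ℕ) : S x n % m = S (x % m) n % m := by
  have h : S x n ≡ S (x % m) n [MOD m] := by
    unfold S
    induction n with
    | zero => exact Nat.ModEq.refl _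
    | succ k ih =>
      rw [sum_range_succ, sum_range_succ]
      exact Nat.ModEq.add ih ((Nat.mod_modEq x m).symm.pow k)
  exact h

private lemma modI_S3 (r : ℕ) : ¬ 3 ^ 2 ∣ S r 3 := by
  intro h
  have h1 := Nat.mod_eq_zero_of_dvd h
  rw [modI_S_mod] at h1
  have h2 : r % 3 ^ 2 < 9 := Nat.mod_lt _ (by norm_num)
  generalize r % 3 ^ 2 = t at h1 h2
  unfold S at h1
  interval_cases t <;> revert h1 <;> decide

private lemma modI_S5 (r : ℕ) : ¬ 3 ^ 1 ∣ S r 5 := by
  intro h
  have h1 := Nat.mod_eq_zero_of_dvd h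
  rw [modI_S_mod] at h1
  have h2 : r % 3 ^ 1 < 3 := Nat.mod_lt _ (by norm_num)
  generalize r % 3 ^ 1 = t at h1 h2
  unfold S at h1
  interval_cases t <;> revert h1 <;> decide

private lemma modI_S7 (r : ℕ) : ¬ 3 ^ 1 ∣ S r 7 := by
  intro h
  have h1 := Nat.mod_eq_zero_of_dvd h
  rw [modI_S_mod] at h1
  have h2 : r % 3 ^ 1 < 3 := Nat.mod_lt _ (by norm_num)
  generalize r % 3 ^ 1 = t at h1 h2
  unfold S at h1
  interval_cases t <;> revert h1 <;> decide

private lemma modI_S9 (r : ℕ) : ¬ 3 ^ 3 ∣ S r 9 := by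
  intro h
  have h1 := Nat.mod_eq_zero_of_dvd h
  rw [modI_S_mod] at h1
  have h2 : r % 3 ^ 3 < 27 := Nat.mod_lt _ (by norm_num)
  generalize r % 3 ^ 3 = t at h1 h2
  unfold S at h1
  interval_cases t <;> revert h1 <;> norm_num [sum_range_succ]

private lemma modI_S11 (r : ℕ) : ¬ 3 ^ 1 ∣ S r 11 := by
  intro h
  have h1 := Nat.mod_eq_zero_of_dvd h
  rw [modI_S_mod] at h1
  have h2 : r % 3 ^ 1 < 3 := Nat.mod_lt _ (by norm_num)
  generalize r % 3 ^ 1 = t at h1 h2
  unfold S at h1
  interval_cases t <;> revert h1 <;> norm_num [sum_range_succ]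

private lemma modI_fact_lt {a k : ℕ} (ha : a ≠ 0) (h : ¬ 3 ^ k ∣ a) : a.factorization 3 < k := by
  by_contra hcon
  push Not at hcon
  exact h ((Nat.prime_three.pow_dvd_iff_le_factorization ha).2 hcon)

private lemma modI_bound (r f : ℕ) (hf : Even f) (h8 : f ≤ 10) :
    2 * (S r (f + 1)).factorization 3 ≤ f := by
  obtain ⟨g, rfl⟩ := hf
  have hg : g ≤ 5 := by omega
  interval_cases g
  · have h1 : S r (0 + 0 + 1) = 1 := by
      unfold S
      simp
    rw [h1, Nat.factorization_one]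
    simp
  · have := modI_fact_lt (modI_S_ne_zero r 2) (modI_S3 r)
    show 2 * (S r 3).factorization 3 ≤ 2
    have h' : (S r (2 + 1)).factorization 3 = (S r 3).factorization 3 := rfl
    omega
  · have := modI_fact_lt (modI_S_ne_zero r 4) (modI_S5 r)
    show 2 * (S r 5).factorization 3 ≤ 4
    have h' : (S r (4 + 1)).factorization 3 = (S r 5).factorization 3 := rfl
    omega
  · have := modI_fact_lt (modI_S_ne_zero r 6) (modI_S7 r)
    show 2 * (S r 7).factorization 3 ≤ 6
    have h' : (S r (6 + 1)).factorization 3 = (S r 7).factorization 3 := rfl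
    omega
  · have := modI_fact_lt (modI_S_ne_zero r 8) (modI_S9 r)
    show 2 * (S r 9).factorization 3 ≤ 8
    have h' : (S r (8 + 1)).factorization 3 = (S r 9).factorization 3 := rfl
    omega
  · have := modI_fact_lt (modI_S_ne_zero r 10) (modI_S11 r)
    show 2 * (S r 11).factorization 3 ≤ 10
    have h' : (S r (10 + 1)).factorization 3 = (S r 11).factorization 3 := rfl
    omega

private theorem modI_three_adic {n : ℕ} (hn : n ≠ 0) (hr : ∀ p ∈ n.primeFactors, (rv n p).Prime)
    (hs : ArithmeticFunction.sigma 1 n = ∏ p ∈ n.primeFactors, rv n p)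
    (hf : ∀ r : ℕ, Even ((n.primeFactors.filter (fun p => rv n p = r)).card))
    (hk : n.primeFactors.card ≤ 10) :
    ¬ 3 ^ 6 ∣ ArithmeticFunction.sigma 1 (ArithmeticFunction.sigma 1 n) := by
  classical
  intro hdvd
  obtain ⟨M, hM⟩ : ∃ M, M = ArithmeticFunction.sigma 1 n := ⟨_, rfl⟩
  rw [← hM] at hs hdvd
  have hM0 : M ≠ 0 := by
    rw [hs, Finset.prod_ne_zero_iff]
    exact fun p hp => (hr p hp).ne_zero
  have hfac : ∀ r, M.factorization r = (n.primeFactors.filter (fun p => rv n p = r)).card := by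
    intro r
    rw [hs, Nat.factorization_prod (fun p hp => (hr p hp).ne_zero), Finsupp.finsetSum_apply,
      Finset.card_filter]
    refine Finset.sum_congr rfl fun p hp => ?_
    rw [(hr p hp).factorization, Finsupp.single_apply]
  obtain ⟨R, hR⟩ : ∃ R, R = n.primeFactors.image (rv n) := ⟨_, rfl⟩
  have hsupp : M.factorization.support ⊆ R := by
    intro r hr'
    rw [Finsupp.mem_support_iff, hfac] at hr'
    obtain ⟨p, hp⟩ := Finset.card_pos.1 (Nat.pos_of_ne_zero hr')
    rw [Finset.mem_filter] at hp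
    rw [hR, Finset.mem_image]
    exact ⟨p, hp.1, hp.2⟩
  have hRp : ∀ r ∈ R, r.Prime := by
    intro r hr'
    rw [hR, Finset.mem_image] at hr'
    obtain ⟨p, hp, rfl⟩ := hr'
    exact hr p hp
  have hsig : ArithmeticFunction.sigma 1 M =
      ∏ r ∈ R, S r ((n.primeFactors.filter (fun p => rv n p = r)).card + 1) := by
    rw [ArithmeticFunction.IsMultiplicative.multiplicative_factorization _
      ArithmeticFunction.isMultiplicative_sigma hM0]
    rw [Finsupp.prod_of_support_subset _ hsupp _ (by intro i _; simp)]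
    refine Finset.prod_congr rfl fun r hr' => ?_
    rw [ArithmeticFunction.sigma_one_apply_prime_pow (hRp r hr'), hfac r]
    rfl
  have h3 : (ArithmeticFunction.sigma 1 M).factorization 3 =
      ∑ r ∈ R, (S r ((n.primeFactors.filter (fun p => rv n p = r)).card + 1)).factorization 3 := by
    rw [hsig, Nat.factorization_prod (fun r _ => modI_S_ne_zero r _), Finsupp.finsetSum_apply]
  have h4 : n.primeFactors.card = ∑ r ∈ R, (n.primeFactors.filter (fun p => rv n p = r)).card := by
    rw [hR]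
    exact Finset.card_eq_sum_card_image (rv n) n.primeFactors
  have h5 : 2 * (ArithmeticFunction.sigma 1 M).factorization 3 ≤ n.primeFactors.card := by
    rw [h3, h4, Finset.mul_sum]
    refine Finset.sum_le_sum fun r _ => modI_bound r _ (hf r) ?_
    exact (Finset.card_filter_le _ _).trans hk
  have h6 : ArithmeticFunction.sigma 1 M ≠ 0 := by
    rw [hsig, Finset.prod_ne_zero_iff]
    exact fun r _ => modI_S_ne_zero r _
  have h7 := (Nat.prime_three.pow_dvd_iff_le_factorization h6).1 hdvd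
  omega


private theorem modI_sigma_gt (M : ℕ) (hM : 1 < M) : M < ArithmeticFunction.sigma 1 M := by
  rw [ArithmeticFunction.sigma_one_apply]
  have hsub : ({1, M} : Finset ℕ) ⊆ M.divisors := by
    intro x hx
    rw [Finset.mem_insert, Finset.mem_singleton] at hx
    rw [Nat.mem_divisors]
    rcases hx with rfl | rfl
    · exact ⟨one_dvd _, by omega⟩
    · exact ⟨dvd_rfl, by omega⟩
  have h1 := Finset.sum_le_sum_of_subset (f := fun x : ℕ => x) hsub
  rw [Finset.sum_pair (by omega)] at h1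
  omega

private theorem modI_rv_ge (n p : ℕ) : p ^ (n.factorization p) ≤ rv n p := by
  unfold rv S
  exact Finset.single_le_sum (f := fun i => p ^ i) (fun i _ => Nat.zero_le _)
    (Finset.mem_range.2 (Nat.lt_succ_self _))

private theorem modI_abund {n : ℕ} (hn : n ≠ 0) (hr : ∀ p ∈ n.primeFactors, (rv n p).Prime)
    (hs : ArithmeticFunction.sigma 1 n = ∏ p ∈ n.primeFactors, rv n p)
    (hN : NearSP n) (h16 : 16 ≤ n.factorization 3)
    (h3 : ¬ 3 ^ 6 ∣ ArithmeticFunction.sigma 1 (ArithmeticFunction.sigma 1 n))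
    (T : Finset ℕ) (hT : T ⊆ n.primeFactors) :
    ∏ p ∈ T, ((rv n p : ℚ) / (p : ℚ) ^ (n.factorization p)) < 2 + 1 / 3 ^ 11 := by
  have _ := hr
  obtain ⟨d, hd0, ⟨m, hm⟩, hd⟩ := hN
  have hm0 : m ≠ 0 := by
    rintro rfl
    exact hn (by rw [hm, mul_zero])
  -- `3 ^ 11 ∣ m`
  have hd5 : ¬ 3 ^ 6 ∣ d := by
    intro h
    apply h3
    rw [hd, hm]
    exact Nat.dvd_add (Dvd.dvd.mul_left (Dvd.dvd.mul_right h m) 2) h
  have hfd : d.factorization 3 < 6 := by
    by_contra hcon
    exact hd5 ((Nat.Prime.pow_dvd_iff_le_factorization Nat.prime_three hd0.ne').2 (by omega))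
  have hfm : 11 ≤ m.factorization 3 := by
    have h1 : n.factorization 3 = d.factorization 3 + m.factorization 3 := by
      rw [hm, Nat.factorization_mul hd0.ne' hm0, Finsupp.add_apply]
    omega
  have hm12 : 3 ^ 11 ≤ m := Nat.le_of_dvd (Nat.pos_of_ne_zero hm0)
    ((Nat.Prime.pow_dvd_iff_le_factorization Nat.prime_three hm0).2 hfm)
  -- the sigma of sigma
  have hn3 : 1 < n := by
    have h1 : 3 ^ 16 ∣ n := (Nat.Prime.pow_dvd_iff_le_factorization Nat.prime_three hn).2 h16
    have h2 := Nat.le_of_dvd (Nat.pos_of_ne_zero hn) h1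
    have h4 : (1 : ℕ) < 3 ^ 16 := by norm_num
    omega
  have hsn : n < ArithmeticFunction.sigma 1 n := modI_sigma_gt n hn3
  have hssn := modI_sigma_gt (ArithmeticFunction.sigma 1 n) (by omega)
  have hnQ : (0 : ℚ) < n := by exact_mod_cast Nat.pos_of_ne_zero hn
  have hdQ : (0 : ℚ) < d := by exact_mod_cast hd0
  have hmQ : (0 : ℚ) < m := by exact_mod_cast Nat.pos_of_ne_zero hm0
  have e1 : ((ArithmeticFunction.sigma 1 n : ℕ) : ℚ) / n < 2 + 1 / 3 ^ 11 := by
    have h1 : ((ArithmeticFunction.sigma 1 n : ℕ) : ℚ) / n <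
        ((ArithmeticFunction.sigma 1 (ArithmeticFunction.sigma 1 n) : ℕ) : ℚ) / n := by
      rw [div_lt_div_iff_of_pos_right hnQ]
      exact_mod_cast hssn
    have h2 : ((ArithmeticFunction.sigma 1 (ArithmeticFunction.sigma 1 n) : ℕ) : ℚ) / n = 2 + 1 / m := by
      rw [hd, hm]
      push_cast
      field_simp
    have h4 : (1 : ℚ) / m ≤ 1 / 3 ^ 11 := by
      apply one_div_le_one_div_of_le (by norm_num)
      exact_mod_cast hm12
    linarith
  -- the product
  have e2 : ((ArithmeticFunction.sigma 1 n : ℕ) : ℚ) / n =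
      ∏ p ∈ n.primeFactors, ((rv n p : ℚ) / (p : ℚ) ^ (n.factorization p)) := by
    rw [Finset.prod_div_distrib, hs]
    push_cast
    congr 1
    have h1 : (n : ℚ) = ((∏ p ∈ n.primeFactors, p ^ (n.factorization p) : ℕ) : ℚ) := by
      have h2 := Nat.prod_factorization_pow_eq_self hn
      rw [Finsupp.prod, Nat.support_factorization] at h2
      exact congrArg (fun z : ℕ => (z : ℚ)) h2.symm
    rw [h1]
    push_cast
    rfl
  have hone : ∀ p ∈ n.primeFactors, (1 : ℚ) ≤ (rv n p : ℚ) / (p : ℚ) ^ (n.factorization p) := by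
    intro p hp
    have hp0 : (0 : ℚ) < (p : ℚ) ^ (n.factorization p) := by
      have : 0 < p := (Nat.prime_of_mem_primeFactors hp).pos
      positivity
    rw [le_div_iff₀ hp0, one_mul]
    exact_mod_cast modI_rv_ge n p
  have e3 : ∏ p ∈ T, ((rv n p : ℚ) / (p : ℚ) ^ (n.factorization p)) ≤
      ∏ p ∈ n.primeFactors, ((rv n p : ℚ) / (p : ℚ) ^ (n.factorization p)) := by
    rw [← Finset.prod_sdiff hT]
    refine le_mul_of_one_le_left ?_ ?_
    · exact Finset.prod_nonneg fun p hp => zero_le_one.trans (hone p (hT hp))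
    · have h1 : ∏ p ∈ n.primeFactors \ T, (1 : ℚ) ≤
          ∏ p ∈ n.primeFactors \ T, ((rv n p : ℚ) / (p : ℚ) ^ (n.factorization p)) :=
        Finset.prod_le_prod (fun _ _ => zero_le_one) fun p hp => hone p (Finset.sdiff_subset hp)
      rwa [Finset.prod_const_one] at h1
  rw [← e2] at e3
  exact e3.trans_lt e1

/-- Module I. -/
theorem abund_lt3 {n : ℕ} (hn : n ≠ 0)
    (hr : ∀ p ∈ n.primeFactors, (rv n p).Prime)
    (hs : ArithmeticFunction.sigma 1 n = ∏ p ∈ n.primeFactors, rv n p)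
    (hf : ∀ r : ℕ, Even ((n.primeFactors.filter (fun p => rv n p = r)).card))
    (hk : n.primeFactors.card ≤ 10) (hN : NearSP n) (h16 : 16 ≤ n.factorization 3)
    (T : Finset ℕ) (hT : T ⊆ n.primeFactors) :
    ∏ p ∈ T, ((rv n p : ℚ) / (p : ℚ) ^ (n.factorization p)) < 2 + 1 / 3 ^ 11 :=
  modI_abund hn hr hs hN h16 (modI_three_adic hn hr hs hf hk) T hT

end Pool.Agent.NearSuper255
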