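import Mathlib
import Pool.Agent.NearSuper255.ModF

/-!
# Project NSP, module J: two coarse bounds
-/

set_option autoImplicit false

namespace Pool.Agent.NearSuper255

open Finset

theorem h56J_step (Q : ℕ → Prop) [DecidablePred Q] (hQ2 : ∀ t, Q t → 2 ≤ t) (c L : ℕ) (B : ℚ) (hL2 : 2 ≤ L)
    (hL : ((Finset.range L).filter Q).card ≤ c)
    (ih : ∀ T : Finset ℕ, (∀ t ∈ T, Q t) → T.card = c → ∏ t ∈ T, ((t : ℚ) / (t - 1)) ≤ B) :
    ∀ T : Finset ℕ, (∀ t ∈ T, Q t) → T.card = c + 1 →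
      ∏ t ∈ T, ((t : ℚ) / (t - 1)) ≤ B * ((L : ℚ) / (L - 1)) := by
  intro T hT hc
  have hex : ∃ t ∈ T, L ≤ t := by
    by_contra hno
    push Not at hno
    have hsub : T ⊆ (Finset.range L).filter Q := by
      intro t ht
      rw [Finset.mem_filter, Finset.mem_range]
      exact ⟨hno t ht, hT t ht⟩
    have := Finset.card_le_card hsub
    omega
  obtain ⟨t, htT, hLt⟩ := hex
  have hT' : ∀ u ∈ T.erase t, Q u := fun u hu => hT u (Finset.mem_of_mem_erase hu)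
  have hcard : (T.erase t).card = c := by
    rw [Finset.card_erase_of_mem htT, hc]
    omega
  have hprod := ih (T.erase t) hT' hcard
  have hLq : (1 : ℚ) < L := by
    have : (2 : ℚ) ≤ L := by exact_mod_cast hL2
    linarith
  have hLt' : (L : ℚ) ≤ t := by exact_mod_cast hLt
  have hF := h92F_anti L t hLq hLt'
  have hpos : 0 ≤ ∏ u ∈ T.erase t, ((u : ℚ) / (u - 1)) := by
    refine Finset.prod_nonneg (fun u hu => ?_)
    have h2 : (2 : ℚ) ≤ u := by exact_mod_cast hQ2 u (hT' u hu)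
    exact (h92F_pos u (by linarith)).le
  rw [← Finset.prod_erase_mul T _ htT]
  exact mul_le_mul hprod hF (h92F_pos t (by linarith)).le (le_trans hpos hprod)

theorem h56J_main (T : Finset ℕ) (s X : ℕ → ℕ) (hT : ∀ t ∈ T, 2 ≤ t) (hX : ∀ t, 240 ≤ X t) (P : ℚ) (a c : ℕ)
    (hP : ∏ t ∈ T, ((t : ℚ) / (t - 1)) ≤ P) (ha : ∑ t ∈ T, (s t - 1) ≤ a) (hc : T.card ≤ c)
    (hnum : P * ((240 : ℚ) / (240 - 1)) ^ a * ((57600 : ℚ) / (57600 - 1)) ^ c ≤ 2) :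
    ∏ t ∈ T, (((t : ℚ) / (t - 1)) * ((X t : ℚ) / (X t - 1)) ^ (s t - 1) *
        ((X t : ℚ) ^ 2 / ((X t : ℚ) ^ 2 - 1))) ≤ 2 := by
  set A : ℚ := (240 : ℚ) / (240 - 1) with hA
  set E : ℚ := (57600 : ℚ) / (57600 - 1) with hE
  have hA1 : 1 ≤ A := by rw [hA]; norm_num
  have hE1 : 1 ≤ E := by rw [hE]; norm_num
  have hFpos : ∀ t ∈ T, 0 < (t : ℚ) / (t - 1) := by
    intro t ht
    have h2 : (2 : ℚ) ≤ t := by exact_mod_cast hT t ht
    exact h92F_pos t (by linarith)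
  have hstep : ∏ t ∈ T, (((t : ℚ) / (t - 1)) * ((X t : ℚ) / (X t - 1)) ^ (s t - 1) *
        ((X t : ℚ) ^ 2 / ((X t : ℚ) ^ 2 - 1))) ≤ ∏ t ∈ T, (((t : ℚ) / (t - 1)) * A ^ (s t - 1) * E) := by
    refine Finset.prod_le_prod ?_ ?_
    · intro t ht
      have hx : (240 : ℚ) ≤ X t := by exact_mod_cast hX t
      have h1 := h92F_pos (X t) (by linarith)
      have h2 := h92F_pos ((X t : ℚ) ^ 2) (by nlinarith)
      have h3 := hFpos t ht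
      positivity
    · intro t ht
      have hx : (240 : ℚ) ≤ X t := by exact_mod_cast hX t
      have h1 := h92F_pos (X t) (by linarith)
      have h2 := h92F_pos ((X t : ℚ) ^ 2) (by nlinarith)
      have h3 := hFpos t ht
      have h4 : (X t : ℚ) / (X t - 1) ≤ A := h92F_anti 240 (X t) (by norm_num) hx
      have h5 : (X t : ℚ) ^ 2 / ((X t : ℚ) ^ 2 - 1) ≤ E := h92F_anti 57600 ((X t : ℚ) ^ 2) (by norm_num) (by nlinarith)
      have h6 : ((X t : ℚ) / (X t - 1)) ^ (s t - 1) ≤ A ^ (s t - 1) := pow_le_pow_left₀ h1.le h4 _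
      have h7 : ((t : ℚ) / (t - 1)) * ((X t : ℚ) / (X t - 1)) ^ (s t - 1) ≤ ((t : ℚ) / (t - 1)) * A ^ (s t - 1) :=
        mul_le_mul_of_nonneg_left h6 h3.le
      exact mul_le_mul h7 h5 h2.le (by positivity)
  have heq : ∏ t ∈ T, (((t : ℚ) / (t - 1)) * A ^ (s t - 1) * E) =
      (∏ t ∈ T, ((t : ℚ) / (t - 1))) * A ^ (∑ t ∈ T, (s t - 1)) * E ^ T.card := by
    rw [Finset.prod_mul_distrib, Finset.prod_mul_distrib, Finset.prod_pow_eq_pow_sum, Finset.prod_const]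
  rw [heq] at hstep
  refine le_trans hstep ?_
  have hApos : 0 ≤ A := by linarith
  have hEpos : 0 ≤ E := by linarith
  have hPnn : 0 ≤ ∏ t ∈ T, ((t : ℚ) / (t - 1)) := Finset.prod_nonneg (fun t ht => (hFpos t ht).le)
  refine le_trans ?_ hnum
  have hPp : 0 ≤ P := le_trans hPnn hP
  have e1 : A ^ (∑ t ∈ T, (s t - 1)) ≤ A ^ a := pow_le_pow_right₀ hA1 ha
  have e2 : E ^ T.card ≤ E ^ c := pow_le_pow_right₀ hE1 hc
  have e3 : (∏ t ∈ T, ((t : ℚ) / (t - 1))) * A ^ (∑ t ∈ T, (s t - 1)) ≤ P * A ^ a :=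
    mul_le_mul hP e1 (by positivity) hPp
  exact mul_le_mul e3 e2 (by positivity) (by positivity)

theorem h56J_sum (T : Finset ℕ) (s : ℕ → ℕ) (k : ℕ) (hs : ∀ t ∈ T, 2 ≤ s t) (hk : ∑ t ∈ T, s t ≤ k) :
    ∑ t ∈ T, (s t - 1) + T.card ≤ k := by
  have h1 : ∑ t ∈ T, (s t - 1) + T.card = ∑ t ∈ T, ((s t - 1) + 1) := by
    rw [Finset.sum_add_distrib]
    simp
  rw [h1]
  refine le_trans (le_of_eq ?_) hk
  refine Finset.sum_congr rfl (fun t ht => ?_)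
  have := hs t ht
  omega

theorem coarse5 (T : Finset ℕ) (s X : ℕ → ℕ) (hT : ∀ t ∈ T, t.Prime ∧ 5 ≤ t)
    (hs : ∀ t ∈ T, 2 ≤ s t) (hk : ∑ t ∈ T, s t ≤ 14) (hX : ∀ t, 240 ≤ X t)
    (hc : T.card ≤ 5) :
    ∏ t ∈ T, (((t : ℚ) / (t - 1)) * ((X t : ℚ) / (X t - 1)) ^ (s t - 1) *
        ((X t : ℚ) ^ 2 / ((X t : ℚ) ^ 2 - 1))) ≤ 2 := by
  have hsum := h56J_sum T s 14 hs hk
  have hT2 : ∀ t ∈ T, 2 ≤ t := fun t ht => le_trans (by norm_num) (hT t ht).2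
  have hP : ∏ t ∈ T, ((t : ℚ) / (t - 1)) ≤ 17017 / 9216 := by
    have hcases : T.card = 0 ∨ T.card = 1 ∨ T.card = 2 ∨ T.card = 3 ∨ T.card = 4 ∨ T.card = 5 := by omega
    rcases hcases with h | h | h | h | h | h
    · exact (h92F_c0 T hT h).trans (by norm_num)
    · exact (h92F_c1 T hT h).trans (by norm_num)
    · exact (h92F_c2 T hT h).trans (by norm_num)
    · exact (h92F_c3 T hT h).trans (by norm_num)
    · exact (h92F_c4 T hT h).trans (by norm_num)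
    · exact h92F_c5 T hT h
  exact h56J_main T s X hT2 hX (17017 / 9216) 14 5 hP (by omega) hc (by norm_num)

theorem h56J_Q2 : ∀ t : ℕ, (t = 3 ∨ (t.Prime ∧ 7 ≤ t)) → 2 ≤ t := by
  rintro t (rfl | ⟨_, h⟩)
  · norm_num
  · omega

theorem h56J_q0 : ∀ T : Finset ℕ, (∀ t ∈ T, t = 3 ∨ (t.Prime ∧ 7 ≤ t)) → T.card = 0 →
    ∏ t ∈ T, ((t : ℚ) / (t - 1)) ≤ 1 := by
  intro T _ hc
  rw [Finset.card_eq_zero.1 hc]
  simp

theorem h56J_q1 : ∀ T : Finset ℕ, (∀ t ∈ T, t = 3 ∨ (t.Prime ∧ 7 ≤ t)) → T.card = 1 →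
    ∏ t ∈ T, ((t : ℚ) / (t - 1)) ≤ 3 / 2 := by
  intro T hT hc
  refine (h56J_step (fun t => t = 3 ∨ (t.Prime ∧ 7 ≤ t)) h56J_Q2 0 3 1 (by norm_num) (by decide) h56J_q0 T hT
    hc).trans ?_
  norm_num

theorem h56J_q2 : ∀ T : Finset ℕ, (∀ t ∈ T, t = 3 ∨ (t.Prime ∧ 7 ≤ t)) → T.card = 2 →
    ∏ t ∈ T, ((t : ℚ) / (t - 1)) ≤ 7 / 4 := by
  intro T hT hc
  refine (h56J_step (fun t => t = 3 ∨ (t.Prime ∧ 7 ≤ t)) h56J_Q2 1 7 (3 / 2) (by norm_num) (by decide) h56J_q1 T hT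
    hc).trans ?_
  norm_num

theorem h56J_q3 : ∀ T : Finset ℕ, (∀ t ∈ T, t = 3 ∨ (t.Prime ∧ 7 ≤ t)) → T.card = 3 →
    ∏ t ∈ T, ((t : ℚ) / (t - 1)) ≤ 77 / 40 := by
  intro T hT hc
  refine (h56J_step (fun t => t = 3 ∨ (t.Prime ∧ 7 ≤ t)) h56J_Q2 2 11 (7 / 4) (by norm_num) (by decide) h56J_q2 T hT
    hc).trans ?_
  norm_num

theorem coarse37 (T : Finset ℕ) (s X : ℕ → ℕ) (hT : ∀ t ∈ T, t = 3 ∨ (t.Prime ∧ 7 ≤ t))
    (hs : ∀ t ∈ T, 2 ≤ s t) (hk : ∑ t ∈ T, s t ≤ 10) (hX : ∀ t, 240 ≤ X t)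
    (hc : T.card ≤ 3) :
    ∏ t ∈ T, (((t : ℚ) / (t - 1)) * ((X t : ℚ) / (X t - 1)) ^ (s t - 1) *
        ((X t : ℚ) ^ 2 / ((X t : ℚ) ^ 2 - 1))) ≤ 2 := by
  have hsum := h56J_sum T s 10 hs hk
  have hT2 : ∀ t ∈ T, 2 ≤ t := fun t ht => h56J_Q2 t (hT t ht)
  rcases Nat.eq_zero_or_pos T.card with h0 | hpos
  · exact h56J_main T s X hT2 hX 1 10 3 (h56J_q0 T hT h0) (by omega) hc (by norm_num)
  · have hP : ∏ t ∈ T, ((t : ℚ) / (t - 1)) ≤ 77 / 40 := by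
      have hcases : T.card = 1 ∨ T.card = 2 ∨ T.card = 3 := by omega
      rcases hcases with h | h | h
      · exact (h56J_q1 T hT h).trans (by norm_num)
      · exact (h56J_q2 T hT h).trans (by norm_num)
      · exact h56J_q3 T hT h
    exact h56J_main T s X hT2 hX (77 / 40) 9 3 hP (by omega) hc (by norm_num)

end Pool.Agent.NearSuper255
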