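import Mathlib
import Pool.Agent.NearSuper255.ModF

/-!
# Project NSP, module K: the case of all primes at least 7, at most 13 of them
-/

set_option autoImplicit false

namespace Pool.Agent.NearSuper255

open Finset

theorem h33K_step (c L : ℕ) (B C : ℚ) (hL5 : 7 ≤ L)
    (hL : ((Finset.Ico 7 L).filter Nat.Prime).card ≤ c)
    (ih : ∀ T : Finset ℕ, (∀ t ∈ T, t.Prime ∧ 7 ≤ t) → T.card = c → ∏ t ∈ T, ((t : ℚ) / (t - 1)) ≤ B)
    (hC : B * ((L : ℚ) / (L - 1)) ≤ C) :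
    ∀ T : Finset ℕ, (∀ t ∈ T, t.Prime ∧ 7 ≤ t) → T.card = c + 1 →
      ∏ t ∈ T, ((t : ℚ) / (t - 1)) ≤ C := by
  intro T hT hc
  have hex : ∃ t ∈ T, L ≤ t := by
    by_contra hno
    push Not at hno
    have hsub : T ⊆ (Finset.Ico 7 L).filter Nat.Prime := by
      intro t ht
      rw [Finset.mem_filter, Finset.mem_Ico]
      exact ⟨⟨(hT t ht).2, hno t ht⟩, (hT t ht).1⟩
    have := Finset.card_le_card hsub
    omega
  obtain ⟨t, htT, hLt⟩ := hex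
  have hT' : ∀ u ∈ T.erase t, u.Prime ∧ 7 ≤ u := fun u hu => hT u (Finset.mem_of_mem_erase hu)
  have hcard : (T.erase t).card = c := by
    rw [Finset.card_erase_of_mem htT, hc]
    omega
  have hprod := ih (T.erase t) hT' hcard
  have hLq : (1 : ℚ) < L := by
    have : (7 : ℚ) ≤ L := by exact_mod_cast hL5
    linarith
  have hLt' : (L : ℚ) ≤ t := by exact_mod_cast hLt
  have hF := h92F_anti L t hLq hLt'
  have hpos : 0 ≤ ∏ u ∈ T.erase t, ((u : ℚ) / (u - 1)) := by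
    refine Finset.prod_nonneg (fun u hu => ?_)
    have h5 : (7 : ℚ) ≤ u := by exact_mod_cast (hT' u hu).2
    exact (h92F_pos u (by linarith)).le
  refine le_trans ?_ hC
  rw [← Finset.prod_erase_mul T _ htT]
  exact mul_le_mul hprod hF (h92F_pos t (by linarith)).le (le_trans hpos hprod)

theorem h33K_c0 : ∀ T : Finset ℕ, (∀ t ∈ T, t.Prime ∧ 7 ≤ t) → T.card = 0 →
    ∏ t ∈ T, ((t : ℚ) / (t - 1)) ≤ 1 := by
  intro T _ hc
  rw [Finset.card_eq_zero.1 hc]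
  simp

theorem h33K_c1 : ∀ T : Finset ℕ, (∀ t ∈ T, t.Prime ∧ 7 ≤ t) → T.card = 1 →
    ∏ t ∈ T, ((t : ℚ) / (t - 1)) ≤ 7 / 6 :=
  h33K_step 0 7 (1) (7 / 6) (by norm_num) (by decide) h33K_c0 (by norm_num)

theorem h33K_c2 : ∀ T : Finset ℕ, (∀ t ∈ T, t.Prime ∧ 7 ≤ t) → T.card = 2 →
    ∏ t ∈ T, ((t : ℚ) / (t - 1)) ≤ 77 / 60 :=
  h33K_step 1 11 (7 / 6) (77 / 60) (by norm_num) (by decide) h33K_c1 (by norm_num)

theorem h33K_c3 : ∀ T : Finset ℕ, (∀ t ∈ T, t.Prime ∧ 7 ≤ t) → T.card = 3 →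
    ∏ t ∈ T, ((t : ℚ) / (t - 1)) ≤ 1001 / 720 :=
  h33K_step 2 13 (77 / 60) (1001 / 720) (by norm_num) (by decide) h33K_c2 (by norm_num)

theorem h33K_c4 : ∀ T : Finset ℕ, (∀ t ∈ T, t.Prime ∧ 7 ≤ t) → T.card = 4 →
    ∏ t ∈ T, ((t : ℚ) / (t - 1)) ≤ 17017 / 11520 :=
  h33K_step 3 17 (1001 / 720) (17017 / 11520) (by norm_num) (by decide) h33K_c3 (by norm_num)

theorem h33K_c5 : ∀ T : Finset ℕ, (∀ t ∈ T, t.Prime ∧ 7 ≤ t) → T.card = 5 →
    ∏ t ∈ T, ((t : ℚ) / (t - 1)) ≤ 323323 / 207360 :=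
  h33K_step 4 19 (17017 / 11520) (323323 / 207360) (by norm_num) (by decide) h33K_c4 (by norm_num)

theorem h33K_c6 : ∀ T : Finset ℕ, (∀ t ∈ T, t.Prime ∧ 7 ≤ t) → T.card = 6 →
    ∏ t ∈ T, ((t : ℚ) / (t - 1)) ≤ 676039 / 414720 :=
  h33K_step 5 23 (323323 / 207360) (676039 / 414720) (by norm_num) (by decide) h33K_c5 (by norm_num)

theorem h33K_c7 : ∀ T : Finset ℕ, (∀ t ∈ T, t.Prime ∧ 7 ≤ t) → T.card = 7 →
    ∏ t ∈ T, ((t : ℚ) / (t - 1)) ≤ 2800733 / 1658880 :=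
  h33K_step 6 29 (676039 / 414720) (2800733 / 1658880) (by norm_num) (by decide) h33K_c6 (by norm_num)

theorem h33K_c8 : ∀ T : Finset ℕ, (∀ t ∈ T, t.Prime ∧ 7 ≤ t) → T.card = 8 →
    ∏ t ∈ T, ((t : ℚ) / (t - 1)) ≤ 86822723 / 49766400 :=
  h33K_step 7 31 (2800733 / 1658880) (86822723 / 49766400) (by norm_num) (by decide) h33K_c7 (by norm_num)

theorem h33K_c9 : ∀ T : Finset ℕ, (∀ t ∈ T, t.Prime ∧ 7 ≤ t) → T.card = 9 →
    ∏ t ∈ T, ((t : ℚ) / (t - 1)) ≤ 3212440751 / 1791590400 :=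
  h33K_step 8 37 (86822723 / 49766400) (3212440751 / 1791590400) (by norm_num) (by decide) h33K_c8 (by norm_num)

theorem h33K_c10 : ∀ T : Finset ℕ, (∀ t ∈ T, t.Prime ∧ 7 ≤ t) → T.card = 10 →
    ∏ t ∈ T, ((t : ℚ) / (t - 1)) ≤ 131710070791 / 71663616000 :=
  h33K_step 9 41 (3212440751 / 1791590400) (131710070791 / 71663616000) (by norm_num) (by decide) h33K_c9 (by norm_num)

theorem h33K_c11 : ∀ T : Finset ℕ, (∀ t ∈ T, t.Prime ∧ 7 ≤ t) → T.card = 11 →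
    ∏ t ∈ T, ((t : ℚ) / (t - 1)) ≤ 5663533044013 / 3009871872000 :=
  h33K_step 10 43 (131710070791 / 71663616000) (5663533044013 / 3009871872000) (by norm_num) (by decide) h33K_c10 (by norm_num)

theorem h33K_c12 : ∀ T : Finset ℕ, (∀ t ∈ T, t.Prime ∧ 7 ≤ t) → T.card = 12 →
    ∏ t ∈ T, ((t : ℚ) / (t - 1)) ≤ 11573306655157 / 6019743744000 :=
  h33K_step 11 47 (5663533044013 / 3009871872000) (11573306655157 / 6019743744000) (by norm_num) (by decide) h33K_c11 (by norm_num)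

theorem h33K_c13 : ∀ T : Finset ℕ, (∀ t ∈ T, t.Prime ∧ 7 ≤ t) → T.card = 13 →
    ∏ t ∈ T, ((t : ℚ) / (t - 1)) ≤ 47183480978717 / 24078974976000 :=
  h33K_step 12 53 (11573306655157 / 6019743744000) (47183480978717 / 24078974976000) (by norm_num) (by decide) h33K_c12 (by norm_num)

theorem coarse7 (T : Finset ℕ) (s X : ℕ → ℕ) (hT : ∀ t ∈ T, t.Prime ∧ 7 ≤ t)
    (hs : ∀ t ∈ T, 2 ≤ s t) (hk : ∑ t ∈ T, s t ≤ 28) (hX : ∀ t ∈ T, 801 ≤ X t)
    (hc : T.card ≤ 13) :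
    ∏ t ∈ T, (((t : ℚ) / (t - 1)) * ((X t : ℚ) / (X t - 1)) ^ (s t - 1) *
        ((X t : ℚ) ^ 2 / ((X t : ℚ) ^ 2 - 1))) ≤ 2 := by
  have hsum : ∑ t ∈ T, (s t - 1) + T.card ≤ 28 := by
    have h1 : ∑ t ∈ T, (s t - 1) + T.card = ∑ t ∈ T, ((s t - 1) + 1) := by
      rw [Finset.sum_add_distrib]
      simp
    rw [h1]
    refine le_trans (le_of_eq ?_) hk
    refine Finset.sum_congr rfl (fun t ht => ?_)
    have := hs t ht
    omega
  set A : ℚ := (801 : ℚ) / (801 - 1) with hA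
  set E : ℚ := (641601 : ℚ) / (641601 - 1) with hE
  have hA1 : 1 ≤ A := by rw [hA]; norm_num
  have hE1 : 1 ≤ E := by rw [hE]; norm_num
  have hFpos : ∀ t ∈ T, 0 < (t : ℚ) / (t - 1) := by
    intro t ht
    have h5 : (7 : ℚ) ≤ t := by exact_mod_cast (hT t ht).2
    exact h92F_pos t (by linarith)
  have hstep : ∏ t ∈ T, (((t : ℚ) / (t - 1)) * ((X t : ℚ) / (X t - 1)) ^ (s t - 1) *
        ((X t : ℚ) ^ 2 / ((X t : ℚ) ^ 2 - 1))) ≤ ∏ t ∈ T, (((t : ℚ) / (t - 1)) * A ^ (s t - 1) * E) := by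
    refine Finset.prod_le_prod ?_ ?_
    · intro t ht
      have hx : (801 : ℚ) ≤ X t := by exact_mod_cast hX t ht
      have h1 := h92F_pos (X t) (by linarith)
      have h2 := h92F_pos ((X t : ℚ) ^ 2) (by nlinarith)
      have h3 := hFpos t ht
      positivity
    · intro t ht
      have hx : (801 : ℚ) ≤ X t := by exact_mod_cast hX t ht
      have h1 := h92F_pos (X t) (by linarith)
      have h2 := h92F_pos ((X t : ℚ) ^ 2) (by nlinarith)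
      have h3 := hFpos t ht
      have h4 : (X t : ℚ) / (X t - 1) ≤ A := h92F_anti 801 (X t) (by norm_num) hx
      have h5 : (X t : ℚ) ^ 2 / ((X t : ℚ) ^ 2 - 1) ≤ E :=
        h92F_anti 641601 ((X t : ℚ) ^ 2) (by norm_num) (by nlinarith)
      have h6 : ((X t : ℚ) / (X t - 1)) ^ (s t - 1) ≤ A ^ (s t - 1) := pow_le_pow_left₀ h1.le h4 _
      have h7 : ((t : ℚ) / (t - 1)) * ((X t : ℚ) / (X t - 1)) ^ (s t - 1) ≤ ((t : ℚ) / (t - 1)) * A ^ (s t - 1) :=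
        mul_le_mul_of_nonneg_left h6 h3.le
      exact mul_le_mul h7 h5 h2.le (by positivity)
  have heq : ∏ t ∈ T, (((t : ℚ) / (t - 1)) * A ^ (s t - 1) * E) =
      (∏ t ∈ T, ((t : ℚ) / (t - 1))) * A ^ (∑ t ∈ T, (s t - 1)) * E ^ T.card := by
    rw [Finset.prod_mul_distrib, Finset.prod_mul_distrib, Finset.prod_pow_eq_pow_sum, Finset.prod_const]
  rw [heq] at hstep
  refine le_trans hstep ?_
  have hApos : 0 ≤ A := by linarith
  have hEpos : 0 ≤ E := by linarith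
  have hPnn : 0 ≤ ∏ t ∈ T, ((t : ℚ) / (t - 1)) := Finset.prod_nonneg (fun t ht => (hFpos t ht).le)
  have fin : ∀ (P : ℚ) (a : ℕ), ∏ t ∈ T, ((t : ℚ) / (t - 1)) ≤ P → ∑ t ∈ T, (s t - 1) ≤ a →
      P * A ^ a * E ^ 13 ≤ 2 →
      (∏ t ∈ T, ((t : ℚ) / (t - 1))) * A ^ (∑ t ∈ T, (s t - 1)) * E ^ T.card ≤ 2 := by
    intro P a hP ha h2
    refine le_trans ?_ h2
    have hPp : 0 ≤ P := le_trans hPnn hP
    have e1 : A ^ (∑ t ∈ T, (s t - 1)) ≤ A ^ a := pow_le_pow_right₀ hA1 ha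
    have e2 : E ^ T.card ≤ E ^ 13 := pow_le_pow_right₀ hE1 hc
    have e3 : (∏ t ∈ T, ((t : ℚ) / (t - 1))) * A ^ (∑ t ∈ T, (s t - 1)) ≤ P * A ^ a :=
      mul_le_mul hP e1 (by positivity) hPp
    exact mul_le_mul e3 e2 (by positivity) (by positivity)
  rcases Nat.lt_or_ge T.card 13 with hlt | hge
  · have h28 : ∑ t ∈ T, (s t - 1) ≤ 28 := by omega
    have hnum : ∀ P : ℚ, P ≤ 1.9225607 → P * A ^ 28 * E ^ 13 ≤ 2 := by
      intro P hP
      have h1 : P * A ^ 28 * E ^ 13 ≤ 1.9225607 * A ^ 28 * E ^ 13 := by gcongr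
      refine le_trans h1 ?_
      rw [hA, hE]
      norm_num
    have hcases : T.card = 0 ∨ T.card = 1 ∨ T.card = 2 ∨ T.card = 3 ∨ T.card = 4 ∨ T.card = 5 ∨
        T.card = 6 ∨ T.card = 7 ∨ T.card = 8 ∨ T.card = 9 ∨ T.card = 10 ∨ T.card = 11 ∨
        T.card = 12 := by omega
    rcases hcases with h | h | h | h | h | h | h | h | h | h | h | h | h
    · exact fin _ 28 (h33K_c0 T hT h) h28 (hnum _ (by norm_num))
    · exact fin _ 28 (h33K_c1 T hT h) h28 (hnum _ (by norm_num))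
    · exact fin _ 28 (h33K_c2 T hT h) h28 (hnum _ (by norm_num))
    · exact fin _ 28 (h33K_c3 T hT h) h28 (hnum _ (by norm_num))
    · exact fin _ 28 (h33K_c4 T hT h) h28 (hnum _ (by norm_num))
    · exact fin _ 28 (h33K_c5 T hT h) h28 (hnum _ (by norm_num))
    · exact fin _ 28 (h33K_c6 T hT h) h28 (hnum _ (by norm_num))
    · exact fin _ 28 (h33K_c7 T hT h) h28 (hnum _ (by norm_num))
    · exact fin _ 28 (h33K_c8 T hT h) h28 (hnum _ (by norm_num))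
    · exact fin _ 28 (h33K_c9 T hT h) h28 (hnum _ (by norm_num))
    · exact fin _ 28 (h33K_c10 T hT h) h28 (hnum _ (by norm_num))
    · exact fin _ 28 (h33K_c11 T hT h) h28 (hnum _ (by norm_num))
    · exact fin _ 28 (h33K_c12 T hT h) h28 (hnum _ (by norm_num))
  · have h13 : T.card = 13 := by omega
    have h15 : ∑ t ∈ T, (s t - 1) ≤ 15 := by omega
    refine fin _ 15 (h33K_c13 T hT h13) h15 ?_
    rw [hA, hE]
    norm_num

end Pool.Agent.NearSuper255
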