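import Mathlib

/-!
# Project NSP, module L: fourteen classes, all primes at least 7
-/

set_option autoImplicit false

namespace Pool.Agent.NearSuper255

open Finset

/-- `x / (x - 1)` is decreasing. -/
private theorem h85L_anti (x y : ℚ) (hx : 1 < x) (hxy : x ≤ y) : y / (y - 1) ≤ x / (x - 1) := by
  rw [div_le_div_iff₀ (by linarith) (by linarith)]
  nlinarith

private theorem h85L_pos (x : ℚ) (hx : 1 < x) : 0 < x / (x - 1) := div_pos (by linarith) (by linarith)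

/-- The bound for the factor at `t`. -/
private def h85L_V (t : ℕ) : ℚ :=
  ((min t 59 : ℕ) : ℚ) / (((min t 59 : ℕ) : ℚ) - 1) * (4401 / (4401 - 1)) *
    (4401 ^ 2 / (4401 ^ 2 - 1))

private theorem h85L_V_pos (t : ℕ) (ht : 7 ≤ t) : 0 < h85L_V t := by
  unfold h85L_V
  have h1 : (7 : ℚ) ≤ ((min t 59 : ℕ) : ℚ) := by
    have : 7 ≤ min t 59 := by omega
    exact_mod_cast this
  have h2 := h85L_pos ((min t 59 : ℕ) : ℚ) (by linarith)
  have h3 : (0 : ℚ) < 4401 / (4401 - 1) := by norm_num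
  have h4 : (0 : ℚ) < 4401 ^ 2 / (4401 ^ 2 - 1) := by norm_num
  positivity

private theorem h85L_V_anti (L t : ℕ) (hL : 7 ≤ L) (hLt : L ≤ t) : h85L_V t ≤ h85L_V L := by
  unfold h85L_V
  have h1 : (7 : ℚ) ≤ ((min L 59 : ℕ) : ℚ) := by
    have : 7 ≤ min L 59 := by omega
    exact_mod_cast this
  have h2 : ((min L 59 : ℕ) : ℚ) ≤ ((min t 59 : ℕ) : ℚ) := by
    have : min L 59 ≤ min t 59 := by omega
    exact_mod_cast this
  have h3 := h85L_anti _ _ (by linarith) h2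
  have h4 : (0 : ℚ) ≤ 4401 / (4401 - 1) := by norm_num
  have h5 : (0 : ℚ) ≤ 4401 ^ 2 / (4401 ^ 2 - 1) := by norm_num
  exact mul_le_mul_of_nonneg_right (mul_le_mul_of_nonneg_right h3 h4) h5

private theorem h85L_step (c L : ℕ) (B : ℚ) (hL7 : 7 ≤ L)
    (hL : ((Finset.Ico 7 L).filter Nat.Prime).card ≤ c)
    (ih : ∀ T : Finset ℕ, (∀ t ∈ T, t.Prime ∧ 7 ≤ t) → T.card = c → ∏ t ∈ T, h85L_V t ≤ B) :
    ∀ T : Finset ℕ, (∀ t ∈ T, t.Prime ∧ 7 ≤ t) → T.card = c + 1 →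
      ∏ t ∈ T, h85L_V t ≤ B * h85L_V L := by
  intro T hT hc
  have hex : ∃ t ∈ T, L ≤ t := by
    by_contra hno
    push Not at hno
    have hsub : T ⊆ (Finset.Ico 7 L).filter Nat.Prime := by
      intro t ht
      rw [Finset.mem_filter, Finset.mem_Ico]
      exact ⟨⟨(hT t ht).2, hno t ht⟩, (hT t ht).1⟩
    have := Finset.card_le_card hsub
    omega
  obtain ⟨t, htT, hLt⟩ := hex
  have hT' : ∀ u ∈ T.erase t, u.Prime ∧ 7 ≤ u := fun u hu => hT u (Finset.mem_of_mem_erase hu)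
  have hcard : (T.erase t).card = c := by
    rw [Finset.card_erase_of_mem htT, hc]
    omega
  have hprod := ih (T.erase t) hT' hcard
  have hpos : 0 ≤ ∏ u ∈ T.erase t, h85L_V u :=
    Finset.prod_nonneg (fun u hu => (h85L_V_pos u (hT' u hu).2).le)
  rw [← Finset.prod_erase_mul T _ htT]
  exact mul_le_mul hprod (h85L_V_anti L t hL7 hLt) (h85L_V_pos t (hT t htT).2).le
    (le_trans hpos hprod)

private theorem h85L_c0 : ∀ T : Finset ℕ, (∀ t ∈ T, t.Prime ∧ 7 ≤ t) → T.card = 0 →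
    ∏ t ∈ T, h85L_V t ≤ 1 := by
  intro T _ hc
  rw [Finset.card_eq_zero.1 hc]
  simp

private theorem h85L_all : ∀ T : Finset ℕ, (∀ t ∈ T, t.Prime ∧ 7 ≤ t) → T.card = 14 →
    ∏ t ∈ T, h85L_V t ≤ 1 * h85L_V 7 * h85L_V 11 * h85L_V 13 * h85L_V 17 * h85L_V 19 *
      h85L_V 23 * h85L_V 29 * h85L_V 31 * h85L_V 37 * h85L_V 41 * h85L_V 43 * h85L_V 47 *
      h85L_V 53 * h85L_V 59 :=
  h85L_step 13 59 _ (by norm_num) (by decide) <|
  h85L_step 12 53 _ (by norm_num) (by decide) <|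
  h85L_step 11 47 _ (by norm_num) (by decide) <|
  h85L_step 10 43 _ (by norm_num) (by decide) <|
  h85L_step 9 41 _ (by norm_num) (by decide) <|
  h85L_step 8 37 _ (by norm_num) (by decide) <|
  h85L_step 7 31 _ (by norm_num) (by decide) <|
  h85L_step 6 29 _ (by norm_num) (by decide) <|
  h85L_step 5 23 _ (by norm_num) (by decide) <|
  h85L_step 4 19 _ (by norm_num) (by decide) <|
  h85L_step 3 17 _ (by norm_num) (by decide) <|
  h85L_step 2 13 _ (by norm_num) (by decide) <|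
  h85L_step 1 11 _ (by norm_num) (by decide) <|
  h85L_step 0 7 _ (by norm_num) (by decide) h85L_c0

private theorem h85L_num : 1 * h85L_V 7 * h85L_V 11 * h85L_V 13 * h85L_V 17 * h85L_V 19 *
      h85L_V 23 * h85L_V 29 * h85L_V 31 * h85L_V 37 * h85L_V 41 * h85L_V 43 * h85L_V 47 *
      h85L_V 53 * h85L_V 59 ≤ 2 := by
  norm_num [h85L_V]

/-- The factor at `t` is at most `V t`. -/
private theorem h85L_fac (t x : ℕ) (ht : t.Prime) (h7 : 7 ≤ t) (h1 : t ≤ 59 → 4401 ≤ x)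
    (h2 : t = 61 → 1301 ≤ x) (h3 : 801 ≤ x) :
    ((t : ℚ) / (t - 1)) * ((x : ℚ) / (x - 1)) * ((x : ℚ) ^ 2 / ((x : ℚ) ^ 2 - 1)) ≤ h85L_V t := by
  have gen : ∀ (a y : ℚ), 1 < a → 1 < y → a ≤ t → y ≤ x →
      ((t : ℚ) / (t - 1)) * ((x : ℚ) / (x - 1)) * ((x : ℚ) ^ 2 / ((x : ℚ) ^ 2 - 1)) ≤
        (a / (a - 1)) * (y / (y - 1)) * (y ^ 2 / (y ^ 2 - 1)) := by
    intro a y ha hy hat hyx
    have hsq : y ^ 2 ≤ (x : ℚ) ^ 2 := pow_le_pow_left₀ (by linarith) hyx 2
    have hy2 : 1 < y ^ 2 := by nlinarith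
    have e1 := h85L_anti a t ha hat
    have e2 := h85L_anti y x hy hyx
    have e3 := h85L_anti (y ^ 2) ((x : ℚ) ^ 2) hy2 hsq
    have p1 := h85L_pos (t : ℚ) (by linarith)
    have p2 := h85L_pos (x : ℚ) (by linarith)
    have p3 := h85L_pos ((x : ℚ) ^ 2) (by linarith)
    have q1 := h85L_pos a ha
    have q2 := h85L_pos y hy
    exact mul_le_mul (mul_le_mul e1 e2 p2.le q1.le) e3 p3.le (mul_pos q1 q2).le
  rcases Nat.lt_or_ge 59 t with hlt | hge
  · have hV : h85L_V t = h85L_V 59 := by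
      unfold h85L_V
      have : min t 59 = min 59 59 := by omega
      rw [this]
    rw [hV]
    rcases Nat.lt_or_ge t 67 with h67 | h67
    · have h61 : t = 61 := by
        interval_cases t
        · exact absurd ht (by norm_num)
        · rfl
        · exact absurd ht (by norm_num)
        · exact absurd ht (by norm_num)
        · exact absurd ht (by norm_num)
        · exact absurd ht (by norm_num)
        · exact absurd ht (by norm_num)
      refine (gen 61 1301 (by norm_num) (by norm_num) (by rw [h61]; norm_num)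
        (by exact_mod_cast h2 h61)).trans ?_
      norm_num [h85L_V]
    · refine (gen 67 801 (by norm_num) (by norm_num) (by exact_mod_cast h67)
        (by exact_mod_cast h3)).trans ?_
      norm_num [h85L_V]
  · have hm : min t 59 = t := by omega
    refine (gen t 4401 ?_ (by norm_num) le_rfl (by exact_mod_cast h1 hge)).trans ?_
    · have : (7 : ℚ) ≤ t := by exact_mod_cast h7
      linarith
    · unfold h85L_V
      rw [hm]

theorem top14 (T : Finset ℕ) (X : ℕ → ℕ) (hT : ∀ t ∈ T, t.Prime ∧ 7 ≤ t) (hc : T.card = 14)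
    (hX1 : ∀ t ∈ T, t ≤ 59 → 4401 ≤ X t) (hX2 : ∀ t ∈ T, t = 61 → 1301 ≤ X t)
    (hX3 : ∀ t ∈ T, 801 ≤ X t) :
    ∏ t ∈ T, (((t : ℚ) / (t - 1)) * ((X t : ℚ) / (X t - 1)) *
        ((X t : ℚ) ^ 2 / ((X t : ℚ) ^ 2 - 1))) ≤ 2 := by
  have hstep : ∏ t ∈ T, (((t : ℚ) / (t - 1)) * ((X t : ℚ) / (X t - 1)) *
        ((X t : ℚ) ^ 2 / ((X t : ℚ) ^ 2 - 1))) ≤ ∏ t ∈ T, h85L_V t := by
    refine Finset.prod_le_prod ?_ ?_
    · intro t ht
      have h7 : (7 : ℚ) ≤ t := by exact_mod_cast (hT t ht).2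
      have hx : (801 : ℚ) ≤ X t := by exact_mod_cast hX3 t ht
      have h1 := h85L_pos (X t) (by linarith)
      have h2 := h85L_pos ((X t : ℚ) ^ 2) (by nlinarith)
      have h3 := h85L_pos (t : ℚ) (by linarith)
      positivity
    · intro t ht
      exact h85L_fac t (X t) (hT t ht).1 (hT t ht).2 (hX1 t ht) (hX2 t ht) (hX3 t ht)
  exact hstep.trans ((h85L_all T hT hc).trans h85L_num)

end Pool.Agent.NearSuper255
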