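import Pool.Agent.NearSuper255.ModG
import Pool.Agent.NearSuper255.ModH
import Pool.Agent.NearSuper255.ModI
import Pool.Agent.NearSuper255.ModJ
import Pool.Agent.NearSuper255.ModK
import Pool.Agent.NearSuper255.ModL
import Pool.Agent.NearSuper255.BnbChk
import Pool.Agent.NearSuper255.Excl3
import Pool.Agent.NearSuper255.Main2

/-!
# The bounds for the number of prime factors, second part
-/

namespace Pool.Agent.NearSuper255

open Finset

theorem amin2_le {n : ℕ} (ho : Odd n) (hP : PropP n) (hN : NearSP n) {x : ℕ}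
    (hx : x ∈ n.primeFactors) : amin2 x ≤ n.factorization x := by
  have hn : n ≠ 0 := by rintro rfl; simp at ho
  have h := exp_min ho (fun p hp => rv_prime hn hP hp) (fun p hp => exp_even ho hP hp)
    (fiber_even ho hP hN)
  have g := exp_min2 ho (fun p hp => rv_prime hn hP hp) (fun p hp => exp_even ho hP hp)
    (fiber_even ho hP hN)
  have hd : x ∣ n := Nat.dvd_of_mem_primeFactors hx
  obtain ⟨h3, -, -, h13, h17, h19⟩ := h
  obtain ⟨g5, g7, g11, g23, g29⟩ := g
  unfold amin2
  split_ifs with a1 a2 a3 a4 a5 a6 a7 a8 a9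
  · subst a1; exact h3 hd
  · subst a2; exact g5 hd
  · subst a3; exact g7 hd
  · subst a4; exact g11 hd
  · subst a5; exact h13 hd
  · subst a6; exact h17 hd
  · subst a7; exact h19 hd
  · subst a8; exact g23 hd
  · subst a9; exact g29 hd
  · exact (exp_even ho hP hx).2

theorem ge_three {n : ℕ} (ho : Odd n) {p : ℕ} (hp : p ∈ n.primeFactors) : 3 ≤ p := by
  have h1 := (Nat.prime_of_mem_primeFactors hp).two_le
  have : p ≠ 2 := by
    rintro rfl
    exact (Nat.not_even_iff_odd.2 ho) (even_iff_two_dvd.2 (Nat.dvd_of_mem_primeFactors hp))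
  omega

theorem no_share2 {n : ℕ} (ho : Odd n) (hP : PropP n) {p q : ℕ}
    (hp : p ∈ n.primeFactors) (hq : q ∈ n.primeFactors) (hpq : p < q) (hr : rv n p = rv n q) :
    Xg p ≤ q := by
  have hpp := Nat.prime_of_mem_primeFactors hp
  have hqp := Nat.prime_of_mem_primeFactors hq
  obtain ⟨e1, g1⟩ := exp_even ho hP hp
  obtain ⟨e2, g2⟩ := exp_even ho hP hq
  have hS : Sol p q (n.factorization p) (n.factorization q) :=
    ⟨hpp.two_le, hqp.two_le, g1, g2, even_iff_two_dvd.1 e1, even_iff_two_dvd.1 e2, hr⟩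
  unfold Xg
  by_contra hlt
  have hlt' : q < max (Rt2 p) p + 1 := not_le.1 hlt
  have h1 : q ≤ max (Rt2 p) p := by omega
  have h2 : q ≤ Rt2 p := by
    rcases le_total (Rt2 p) p with h | h
    · rw [max_eq_right h] at h1
      omega
    · rwa [max_eq_left h] at h1
  exact pair_excl2 hpp (ge_three ho hp) hqp hpq h2 hS

/-- the class bound with the second table -/
theorem class2 {n : ℕ} (ho : Odd n) (hP : PropP n) (hN : NearSP n) :
    ∃ (T : Finset ℕ) (s : ℕ → ℕ), T ⊆ n.primeFactors ∧ (∀ t ∈ T, Even (s t) ∧ 2 ≤ s t) ∧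
      ∑ t ∈ T, s t = n.primeFactors.card ∧
      (∀ m ∈ n.primeFactors, (∀ p ∈ n.primeFactors, m ≤ p) → m ∈ T) ∧
      (2 : ℚ) < ∏ t ∈ T, gW (s t - 1) t :=
  class_bound ho hP hN Xg (fun t => by have := Xg_ge t; omega)
    (fun p q hp hq hpq hr => no_share2 ho hP hp hq hpq hr)

theorem two_card_le {T : Finset ℕ} {s : ℕ → ℕ} {k : ℕ} (h : ∀ t ∈ T, Even (s t) ∧ 2 ≤ s t)
    (hs : ∑ t ∈ T, s t ≤ k) : 2 * T.card ≤ k := by
  have : ∑ t ∈ T, 2 ≤ ∑ t ∈ T, s t := Finset.sum_le_sum (fun t ht => (h t ht).2)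
  rw [Finset.sum_const, smul_eq_mul] at this
  omega

theorem size_le {T : Finset ℕ} {s : ℕ → ℕ} {k : ℕ} (h : ∀ t ∈ T, Even (s t) ∧ 2 ≤ s t)
    (hs : ∑ t ∈ T, s t ≤ k) {t : ℕ} (ht : t ∈ T) : s t + 2 * (T.card - 1) ≤ k := by
  have h1 := two_card_le (T := T.erase t) (s := s) (k := k - s t)
    (fun x hx => h x (Finset.mem_of_mem_erase hx)) (by
      have := Finset.add_sum_erase T s ht
      omega)
  rw [Finset.card_erase_of_mem ht] at h1
  have h2 : s t ≤ ∑ t ∈ T, s t := Finset.single_le_sum (f := s) (fun i _ => Nat.zero_le _) ht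
  omega

theorem prod_gW_mono {T : Finset ℕ} {s : ℕ → ℕ} {k : ℕ} (hT : ∀ t ∈ T, 3 ≤ t)
    (hs : ∀ t ∈ T, s t - 1 ≤ k) : ∏ t ∈ T, gW (s t - 1) t ≤ ∏ t ∈ T, gW k t := by
  refine Finset.prod_le_prod ?_ ?_
  · intro x hx
    have := fun h => gW_one_le (s x - 1) (x := x) h
    have h2 := this (by have := hT x hx; omega)
    linarith
  · intro x hx
    exact gW_mono (hs x hx) (by have := hT x hx; omega)

theorem memFL {x : ℕ} (hx : x.Prime) (h : 5 ≤ x) :
    x ∈ (f5 :: FL).map Prod.fst ∨ 798 ≤ x := by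
  rcases Nat.lt_or_ge x 798 with h1 | h1
  · rcases cover5 x (List.mem_range.2 h1) with h2 | h2 | h2
    · omega
    · exact Or.inl (memB_sound h2)
    · exact absurd hx (hasDiv_sound h2)
  · exact Or.inr h1

theorem memFL7 {x : ℕ} (hx : x.Prime) (h : 7 ≤ x) :
    x ∈ FL.map Prod.fst ∨ 798 ≤ x := by
  rcases Nat.lt_or_ge x 798 with h1 | h1
  · rcases cover7 x (List.mem_range.2 h1) with h2 | h2 | h2
    · omega
    · exact Or.inl (memB_sound h2)
    · exact absurd hx (hasDiv_sound h2)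
  · exact Or.inr h1

/-- the lower bound factor of `n` at `x` -/
def lbf (n x : ℕ) : ℚ := (rv n x : ℚ) / (x : ℚ) ^ (n.factorization x)

theorem ent_use {n : ℕ} (ho : Odd n) (hP : PropP n) (hN : NearSP n) {e : En2}
    (he : entOk2 e = true) (hm : e.1 ∈ n.primeFactors) :
    (e.2.2.2.2.2.1 : ℚ) / e.2.2.2.2.2.2 ≤ lbf n e.1 :=
  lb_factor2 he (amin2_le ho hP hN hm)

theorem lbf_nonneg (n x : ℕ) : 0 ≤ lbf n x := by
  unfold lbf
  positivity

/-- the case of primes at least five -/
theorem case5 {n : ℕ} (ho : Odd n) (hP : PropP n) (hN : NearSP n) (h3n : ¬ 3 ∣ n)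
    (h5n : 5 ∣ n) (hk : n.primeFactors.card ≤ 14) : False := by
  have hn : n ≠ 0 := by rintro rfl; simp at ho
  have hr : ∀ p ∈ n.primeFactors, (rv n p).Prime := fun p hp => rv_prime hn hP hp
  have hs := sigma_eq_prod hn
  have hf := fiber_even ho hP hN
  have he : ∀ p ∈ n.primeFactors, Even (n.factorization p) ∧ 2 ≤ n.factorization p :=
    fun p hp => exp_even ho hP hp
  have h10 := (exp_min2 ho hr he hf).1 h5n
  have hlt : ∀ T : Finset ℕ, T ⊆ n.primeFactors → ∏ p ∈ T, lbf n p < 2 + 1 / 5 ^ 7 :=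
    fun T hT => abund_lt5 hn hr hs hf hk hN h10 T hT
  obtain ⟨T, s, hT, hs2, hsum, -, h2⟩ := class2 ho hP hN
  have hge : ∀ t ∈ n.primeFactors, 5 ≤ t := by
    intro t ht
    have h1 := ge_three ho ht
    have h2 := Nat.prime_of_mem_primeFactors ht
    have g3 : t ≠ 3 := by rintro rfl; exact h3n (Nat.dvd_of_mem_primeFactors ht)
    have g4 : t ≠ 4 := by rintro rfl; exact absurd h2 (by norm_num)
    omega
  have hpr : ∀ t ∈ T, t.Prime ∧ 5 ≤ t :=
    fun t ht => ⟨Nat.prime_of_mem_primeFactors (hT ht), hge t (hT ht)⟩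
  have hsum' : ∑ t ∈ T, s t ≤ 14 := by omega
  have hc7 := two_card_le hs2 hsum'
  rcases Nat.lt_or_ge T.card 6 with hc | hc
  · have := coarse5 T s Xg hpr (fun t ht => (hs2 t ht).2) hsum' Xg_ge (by omega)
    exact absurd this (not_le.2 h2)
  have hok : ∀ e ∈ (f5 :: FL), entOk2 e = true := fun e he =>
    allF_sound fl_ok e (List.mem_cons_of_mem _ he)
  have hTN : ∀ U ⊆ n.primeFactors, ∏ x ∈ U, lbf n x < ((156251 : ℕ) : ℚ) / ((78125 : ℕ) : ℚ) := by
    intro U hU
    refine lt_of_lt_of_le (hlt U hU) (le_of_eq (by norm_num))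
  rcases Nat.lt_or_ge T.card 7 with hc' | hc'
  · have h6 : T.card = 6 := by omega
    have hb := bb_sound (w := gW 3) (lb := lbf n) (V := n.primeFactors) (tmax := 798)
      (by norm_num) (by norm_num) (by norm_num) (by norm_num) hTN
      (fun x _ => lbf_nonneg n x)
      (fun x hx => by have := gW_one_le 3 (x := x) (by have := hge x hx; omega); linarith)
      (fun t x ht htx _ => coarse_bd 3 ht htx) (fun x hx _ => tail_bd 3 hx) (f5 :: FL)
      (fun e he => by
        have := ent_spec2 (hok e he)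
        exact ⟨by omega, by omega, this.2.2.2.2.2.1, this.2.2.2.2.2.2.1⟩)
      (fun e he hm => ⟨(ent_spec2 (hok e he)).2.2.2.1.le, ent_use ho hP hN (hok e he) hm⟩)
      fl_sorted 6 1 1 1 1 bb2 T ∅ 1 hT (Finset.empty_subset _) (Finset.disjoint_empty_left _) h6
      (fun x hx => memFL (hpr x hx).1 (hpr x hx).2) (by norm_num) (by norm_num) (by norm_num)
      (by norm_num) (by simp)
    have h9 := prod_gW_mono (T := T) (s := s) (k := 3) (fun t ht => by have := hpr t ht; omega)
      (fun t ht => by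
        have := size_le hs2 hsum' ht
        omega)
    rw [one_mul] at hb
    linarith
  · have h7 : T.card = 7 := by omega
    have hb := bb_sound (w := gW 1) (lb := lbf n) (V := n.primeFactors) (tmax := 798)
      (by norm_num) (by norm_num) (by norm_num) (by norm_num) hTN
      (fun x _ => lbf_nonneg n x)
      (fun x hx => by have := gW_one_le 1 (x := x) (by have := hge x hx; omega); linarith)
      (fun t x ht htx _ => coarse_bd 1 ht htx) (fun x hx _ => tail_bd 1 hx) (f5 :: FL)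
      (fun e he => by
        have := ent_spec2 (hok e he)
        exact ⟨by omega, by omega, this.2.2.2.2.1, this.2.2.2.2.2.2.1⟩)
      (fun e he hm => ⟨(ent_spec2 (hok e he)).2.2.1.le, ent_use ho hP hN (hok e he) hm⟩)
      fl_sorted 7 1 1 1 1 bb1 T ∅ 1 hT (Finset.empty_subset _) (Finset.disjoint_empty_left _) h7
      (fun x hx => memFL (hpr x hx).1 (hpr x hx).2) (by norm_num) (by norm_num) (by norm_num)
      (by norm_num) (by simp)
    have h9 := prod_gW_mono (T := T) (s := s) (k := 1) (fun t ht => by have := hpr t ht; omega)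
      (fun t ht => by
        have := size_le hs2 hsum' ht
        omega)
    rw [one_mul] at hb
    linarith

/-- the case of primes at least seven -/
theorem case7 {n : ℕ} (ho : Odd n) (hP : PropP n) (hN : NearSP n) (h3n : ¬ 3 ∣ n)
    (h5n : ¬ 5 ∣ n) (hk : n.primeFactors.card ≤ 28) : False := by
  obtain ⟨T, s, hT, hs2, hsum, -, h2⟩ := class2 ho hP hN
  have hge : ∀ t ∈ n.primeFactors, 7 ≤ t := by
    intro t ht
    have h1 := ge_three ho ht
    have h2 := Nat.prime_of_mem_primeFactors ht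
    have g3 : t ≠ 3 := by rintro rfl; exact h3n (Nat.dvd_of_mem_primeFactors ht)
    have g4 : t ≠ 4 := by rintro rfl; exact absurd h2 (by norm_num)
    have g5 : t ≠ 5 := by rintro rfl; exact h5n (Nat.dvd_of_mem_primeFactors ht)
    have g6 : t ≠ 6 := by rintro rfl; exact absurd h2 (by norm_num)
    omega
  have hpr : ∀ t ∈ T, t.Prime ∧ 7 ≤ t :=
    fun t ht => ⟨Nat.prime_of_mem_primeFactors (hT ht), hge t (hT ht)⟩
  have hsum' : ∑ t ∈ T, s t ≤ 28 := by omega
  have hc14 := two_card_le hs2 hsum'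
  have hX : ∀ t ∈ T, (t ≤ 59 → 4401 ≤ Xg t) ∧ (t = 61 → 1301 ≤ Xg t) ∧ 801 ≤ Xg t := by
    intro t ht
    obtain ⟨htp, ht7⟩ := hpr t ht
    rcases Nat.lt_or_ge t 798 with h1 | h1
    · have hc := cover7 t (List.mem_range.2 h1)
      have hall : ∀ e ∈ FL, (e.1 ≤ 59 → 4401 ≤ Xg e.1) ∧ (e.1 = 61 → 1301 ≤ Xg e.1) ∧
          801 ≤ Xg e.1 := by decide +kernel
      rcases hc with hc | hc | hc
      · omega
      · obtain ⟨e, he, rfl⟩ := List.mem_map.1 (memB_sound hc)
        exact hall e he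
      · exact absurd htp (hasDiv_sound hc)
    · have h3 := Xg_gt t
      have h4 : t ≠ 798 := by rintro rfl; exact absurd htp (by norm_num)
      have h5 : t ≠ 799 := by rintro rfl; exact absurd htp (by norm_num)
      exact ⟨fun h => by omega, fun h => by omega, by omega⟩
  rcases Nat.lt_or_ge T.card 14 with hc | hc
  · have := coarse7 T s Xg hpr (fun t ht => (hs2 t ht).2) hsum' (fun t ht => (hX t ht).2.2)
      (by omega)
    exact absurd this (not_le.2 h2)
  · have h9 := prod_gW_mono (T := T) (s := s) (k := 1) (fun t ht => by have := hpr t ht; omega)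
      (fun t ht => by
        have := size_le hs2 hsum' ht
        omega)
    have h10 := top14 T Xg hpr (by omega) (fun t ht => (hX t ht).1) (fun t ht => (hX t ht).2.1)
      (fun t ht => (hX t ht).2.2)
    have h11 : ∏ t ∈ T, gW 1 t = ∏ t ∈ T, (((t : ℚ) / (t - 1)) * ((Xg t : ℚ) / (Xg t - 1)) *
        ((Xg t : ℚ) ^ 2 / ((Xg t : ℚ) ^ 2 - 1))) :=
      Finset.prod_congr rfl (fun t _ => by unfold gW; rw [pow_one])
    rw [← h11] at h10
    linarith

/-- the case of multiples of three that are not multiples of five -/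
theorem case37 {n : ℕ} (ho : Odd n) (hP : PropP n) (hN : NearSP n) (h3n : 3 ∣ n)
    (h5n : ¬ 5 ∣ n) (hk : n.primeFactors.card ≤ 10) : False := by
  have hn : n ≠ 0 := by rintro rfl; simp at ho
  have hr : ∀ p ∈ n.primeFactors, (rv n p).Prime := fun p hp => rv_prime hn hP hp
  have hs := sigma_eq_prod hn
  have hf := fiber_even ho hP hN
  have he : ∀ p ∈ n.primeFactors, Even (n.factorization p) ∧ 2 ≤ n.factorization p :=
    fun p hp => exp_even ho hP hp
  have h16 := (exp_min ho hr he hf).1 h3n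
  have hlt : ∀ T : Finset ℕ, T ⊆ n.primeFactors → ∏ p ∈ T, lbf n p < 2 + 1 / 3 ^ 11 :=
    fun T hT => abund_lt3 hn hr hs hf hk hN h16 T hT
  have h3mem : 3 ∈ n.primeFactors := Nat.mem_primeFactors.2 ⟨by norm_num, h3n, hn⟩
  obtain ⟨T, s, hT, hs2, hsum, hmin, h2⟩ := class2 ho hP hN
  have hge3 : ∀ p ∈ n.primeFactors, 3 ≤ p := fun p hp => ge_three ho hp
  have h3T : 3 ∈ T := hmin 3 h3mem hge3
  have hge : ∀ t ∈ n.primeFactors, t ≠ 3 → 7 ≤ t := by
    intro t ht g3
    have h1 := ge_three ho ht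
    have h2 := Nat.prime_of_mem_primeFactors ht
    have g4 : t ≠ 4 := by rintro rfl; exact absurd h2 (by norm_num)
    have g5 : t ≠ 5 := by rintro rfl; exact h5n (Nat.dvd_of_mem_primeFactors ht)
    have g6 : t ≠ 6 := by rintro rfl; exact absurd h2 (by norm_num)
    omega
  have hsum' : ∑ t ∈ T, s t ≤ 10 := by omega
  have hc5 := two_card_le hs2 hsum'
  rcases Nat.lt_or_ge T.card 4 with hc | hc
  · have := coarse37 T s Xg (fun t ht => by
      by_cases h : t = 3
      · exact Or.inl h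
      · exact Or.inr ⟨Nat.prime_of_mem_primeFactors (hT ht), hge t (hT ht) h⟩)
      (fun t ht => (hs2 t ht).2) hsum' Xg_ge (by omega)
    exact absurd this (not_le.2 h2)
  have hok : ∀ e ∈ FL, entOk2 e = true := fun e he =>
    allF_sound fl_ok e (List.mem_cons_of_mem _ (List.mem_cons_of_mem _ he))
  have hok3 : entOk2 f3 = true := allF_sound fl_ok f3 List.mem_cons_self
  have s3 := ent_spec2 hok3
  have l3 : (f3.2.2.2.2.2.1 : ℚ) / f3.2.2.2.2.2.2 ≤ lbf n 3 := ent_use ho hP hN hok3 h3mem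
  have hTN : ∀ U ⊆ n.primeFactors, ∏ x ∈ U, lbf n x < ((354295 : ℕ) : ℚ) / ((177147 : ℕ) : ℚ) := by
    intro U hU
    refine lt_of_lt_of_le (hlt U hU) (le_of_eq (by norm_num))
  have hTe : T.erase 3 ⊆ n.primeFactors := (Finset.erase_subset _ _).trans hT
  have hcov : ∀ x ∈ T.erase 3, x ∈ FL.map Prod.fst ∨ 798 ≤ x := by
    intro x hx
    exact memFL7 (Nat.prime_of_mem_primeFactors (hTe hx))
      (hge x (hTe hx) (Finset.mem_erase.1 hx).1)
  have hdis : Disjoint ({3} : Finset ℕ) (T.erase 3) := by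
    rw [Finset.disjoint_singleton_left]
    exact Finset.notMem_erase 3 T
  have hsub3 : ({3} : Finset ℕ) ⊆ n.primeFactors := by
    simpa using h3mem
  have hsorted : FL.Pairwise (fun a b => a.1 < b.1) := (List.pairwise_cons.1 fl_sorted).2
  rcases Nat.lt_or_ge T.card 5 with hc' | hc'
  · have h3c : (T.erase 3).card = 3 := by
      rw [Finset.card_erase_of_mem h3T]
      omega
    have hb := bb_sound (w := gW 3) (lb := lbf n) (V := n.primeFactors) (tmax := 798)
      (by norm_num) (by norm_num) (by norm_num) (by norm_num) hTN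
      (fun x _ => lbf_nonneg n x)
      (fun x hx => by have := gW_one_le 3 (x := x) (by have := hge3 x hx; omega); linarith)
      (fun t x ht htx _ => coarse_bd 3 ht htx) (fun x hx _ => tail_bd 3 hx) FL
      (fun e he => by
        have := ent_spec2 (hok e he)
        exact ⟨by omega, by omega, this.2.2.2.2.2.1, this.2.2.2.2.2.2.1⟩)
      (fun e he hm => ⟨(ent_spec2 (hok e he)).2.2.2.1.le, ent_use ho hP hN (hok e he) hm⟩)
      hsorted 3 (n3 f3) (d3 f3) f3.2.2.2.2.2.1 f3.2.2.2.2.2.2 bb4 (T.erase 3) {3} (gW 3 3)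
      hTe hsub3 hdis h3c hcov
      (by have := gW_one_le 3 (x := 3) (by norm_num); linarith)
      s3.2.2.2.1.le s3.2.2.2.2.2.1 s3.2.2.2.2.2.2.1 (by rw [Finset.prod_singleton]; exact l3)
    have h9 := prod_gW_mono (T := T) (s := s) (k := 3) (fun t ht => hge3 t (hT ht))
      (fun t ht => by
        have := size_le hs2 hsum' ht
        omega)
    rw [← Finset.mul_prod_erase T (gW 3) h3T] at h9
    linarith
  · have h4c : (T.erase 3).card = 4 := by
      rw [Finset.card_erase_of_mem h3T]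
      omega
    have hb := bb_sound (w := gW 1) (lb := lbf n) (V := n.primeFactors) (tmax := 798)
      (by norm_num) (by norm_num) (by norm_num) (by norm_num) hTN
      (fun x _ => lbf_nonneg n x)
      (fun x hx => by have := gW_one_le 1 (x := x) (by have := hge3 x hx; omega); linarith)
      (fun t x ht htx _ => coarse_bd 1 ht htx) (fun x hx _ => tail_bd 1 hx) FL
      (fun e he => by
        have := ent_spec2 (hok e he)
        exact ⟨by omega, by omega, this.2.2.2.2.1, this.2.2.2.2.2.2.1⟩)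
      (fun e he hm => ⟨(ent_spec2 (hok e he)).2.2.1.le, ent_use ho hP hN (hok e he) hm⟩)
      hsorted 4 (n1 f3) (d1 f3) f3.2.2.2.2.2.1 f3.2.2.2.2.2.2 bb3 (T.erase 3) {3} (gW 1 3)
      hTe hsub3 hdis h4c hcov
      (by have := gW_one_le 1 (x := 3) (by norm_num); linarith)
      s3.2.2.1.le s3.2.2.2.2.1 s3.2.2.2.2.2.2.1 (by rw [Finset.prod_singleton]; exact l3)
    have h9 := prod_gW_mono (T := T) (s := s) (k := 1) (fun t ht => hge3 t (hT ht))
      (fun t ht => by
        have := size_le hs2 hsum' ht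
        omega)
    rw [← Finset.mul_prod_erase T (gW 1) h3T] at h9
    linarith

end Pool.Agent.NearSuper255
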