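import Pool.Agent.NearSuper255.Defs

/-!
# Project NSP, module C1: the 3-adic bound
-/

namespace Pool.Agent.NearSuper255

open Finset

private lemma h32_S_ne_zero (x n : ℕ) : S x (n + 1) ≠ 0 := by
  unfold S
  rw [sum_range_succ']
  have : x ^ 0 = 1 := pow_zero x
  omega

private lemma h32_S_mod (x n m : ℕ) : S x n % m = S (x % m) n % m := by
  have h : S x n ≡ S (x % m) n [MOD m] := by
    unfold S
    induction n with
    | zero => exact Nat.ModEq.refl _
    | succ k ih =>
      rw [sum_range_succ, sum_range_succ]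
      exact Nat.ModEq.add ih ((Nat.mod_modEq x m).symm.pow k)
  exact h

private lemma h32_S3 (r : ℕ) : ¬ 3 ^ 2 ∣ S r 3 := by
  intro h
  have h1 := Nat.mod_eq_zero_of_dvd h
  rw [h32_S_mod] at h1
  have h2 : r % 3 ^ 2 < 9 := Nat.mod_lt _ (by norm_num)
  generalize r % 3 ^ 2 = t at h1 h2
  unfold S at h1
  interval_cases t <;> revert h1 <;> decide

private lemma h32_S5 (r : ℕ) : ¬ 3 ^ 1 ∣ S r 5 := by
  intro h
  have h1 := Nat.mod_eq_zero_of_dvd h
  rw [h32_S_mod] at h1
  have h2 : r % 3 ^ 1 < 3 := Nat.mod_lt _ (by norm_num)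
  generalize r % 3 ^ 1 = t at h1 h2
  unfold S at h1
  interval_cases t <;> revert h1 <;> decide

private lemma h32_S7 (r : ℕ) : ¬ 3 ^ 1 ∣ S r 7 := by
  intro h
  have h1 := Nat.mod_eq_zero_of_dvd h
  rw [h32_S_mod] at h1
  have h2 : r % 3 ^ 1 < 3 := Nat.mod_lt _ (by norm_num)
  generalize r % 3 ^ 1 = t at h1 h2
  unfold S at h1
  interval_cases t <;> revert h1 <;> decide

private lemma h32_S9 (r : ℕ) : ¬ 3 ^ 3 ∣ S r 9 := by
  intro h
  have h1 := Nat.mod_eq_zero_of_dvd h
  rw [h32_S_mod] at h1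
  have h2 : r % 3 ^ 3 < 27 := Nat.mod_lt _ (by norm_num)
  generalize r % 3 ^ 3 = t at h1 h2
  unfold S at h1
  interval_cases t <;> revert h1 <;> norm_num [sum_range_succ]

private lemma h32_fact_lt {a k : ℕ} (ha : a ≠ 0) (h : ¬ 3 ^ k ∣ a) : a.factorization 3 < k := by
  by_contra hcon
  push Not at hcon
  exact h ((Nat.prime_three.pow_dvd_iff_le_factorization ha).2 hcon)

private lemma h32_bound (r f : ℕ) (hf : Even f) (h8 : f ≤ 8) :
    2 * (S r (f + 1)).factorization 3 ≤ f := by
  obtain ⟨g, rfl⟩ := hf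
  have hg : g ≤ 4 := by omega
  interval_cases g
  · have h1 : S r (0 + 0 + 1) = 1 := by
      unfold S
      simp
    rw [h1, Nat.factorization_one]
    simp
  · have := h32_fact_lt (h32_S_ne_zero r 2) (h32_S3 r)
    show 2 * (S r 3).factorization 3 ≤ 2
    have h' : (S r (2 + 1)).factorization 3 = (S r 3).factorization 3 := rfl
    omega
  · have := h32_fact_lt (h32_S_ne_zero r 4) (h32_S5 r)
    show 2 * (S r 5).factorization 3 ≤ 4
    have h' : (S r (4 + 1)).factorization 3 = (S r 5).factorization 3 := rfl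
    omega
  · have := h32_fact_lt (h32_S_ne_zero r 6) (h32_S7 r)
    show 2 * (S r 7).factorization 3 ≤ 6
    have h' : (S r (6 + 1)).factorization 3 = (S r 7).factorization 3 := rfl
    omega
  · have := h32_fact_lt (h32_S_ne_zero r 8) (h32_S9 r)
    show 2 * (S r 9).factorization 3 ≤ 8
    have h' : (S r (8 + 1)).factorization 3 = (S r 9).factorization 3 := rfl
    omega

theorem three_adic {n : ℕ} (hn : n ≠ 0) (hr : ∀ p ∈ n.primeFactors, (rv n p).Prime)
    (hs : ArithmeticFunction.sigma 1 n = ∏ p ∈ n.primeFactors, rv n p)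
    (hf : ∀ r : ℕ, Even ((n.primeFactors.filter (fun p => rv n p = r)).card))
    (hk : n.primeFactors.card ≤ 8) :
    ¬ 3 ^ 5 ∣ ArithmeticFunction.sigma 1 (ArithmeticFunction.sigma 1 n) := by
  classical
  intro hdvd
  obtain ⟨M, hM⟩ : ∃ M, M = ArithmeticFunction.sigma 1 n := ⟨_, rfl⟩
  rw [← hM] at hs hdvd
  have hM0 : M ≠ 0 := by
    rw [hs, Finset.prod_ne_zero_iff]
    exact fun p hp => (hr p hp).ne_zero
  have hfac : ∀ r, M.factorization r = (n.primeFactors.filter (fun p => rv n p = r)).card := by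
    intro r
    rw [hs, Nat.factorization_prod (fun p hp => (hr p hp).ne_zero), Finsupp.finset_sum_apply,
      Finset.card_filter]
    refine Finset.sum_congr rfl fun p hp => ?_
    rw [(hr p hp).factorization, Finsupp.single_apply]
  obtain ⟨R, hR⟩ : ∃ R, R = n.primeFactors.image (rv n) := ⟨_, rfl⟩
  have hsupp : M.factorization.support ⊆ R := by
    intro r hr'
    rw [Finsupp.mem_support_iff, hfac] at hr'
    obtain ⟨p, hp⟩ := Finset.card_pos.1 (Nat.pos_of_ne_zero hr')
    rw [Finset.mem_filter] at hp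
    rw [hR, Finset.mem_image]
    exact ⟨p, hp.1, hp.2⟩
  have hRp : ∀ r ∈ R, r.Prime := by
    intro r hr'
    rw [hR, Finset.mem_image] at hr'
    obtain ⟨p, hp, rfl⟩ := hr'
    exact hr p hp
  have hsig : ArithmeticFunction.sigma 1 M =
      ∏ r ∈ R, S r ((n.primeFactors.filter (fun p => rv n p = r)).card + 1) := by
    rw [ArithmeticFunction.IsMultiplicative.multiplicative_factorization _
      ArithmeticFunction.isMultiplicative_sigma hM0]
    rw [Finsupp.prod_of_support_subset _ hsupp _ (by intro i _; simp)]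
    refine Finset.prod_congr rfl fun r hr' => ?_
    rw [ArithmeticFunction.sigma_one_apply_prime_pow (hRp r hr'), hfac r]
    rfl
  have h3 : (ArithmeticFunction.sigma 1 M).factorization 3 =
      ∑ r ∈ R, (S r ((n.primeFactors.filter (fun p => rv n p = r)).card + 1)).factorization 3 := by
    rw [hsig, Nat.factorization_prod (fun r _ => h32_S_ne_zero r _), Finsupp.finset_sum_apply]
  have h4 : n.primeFactors.card = ∑ r ∈ R, (n.primeFactors.filter (fun p => rv n p = r)).card := by
    rw [hR]
    exact Finset.card_eq_sum_card_image (rv n) n.primeFactors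
  have h5 : 2 * (ArithmeticFunction.sigma 1 M).factorization 3 ≤ n.primeFactors.card := by
    rw [h3, h4, Finset.mul_sum]
    refine Finset.sum_le_sum fun r _ => h32_bound r _ (hf r) ?_
    exact (Finset.card_filter_le _ _).trans hk
  have h6 : ArithmeticFunction.sigma 1 M ≠ 0 := by
    rw [hsig, Finset.prod_ne_zero_iff]
    exact fun r _ => h32_S_ne_zero r _
  have h7 := (Nat.prime_three.pow_dvd_iff_le_factorization h6).1 hdvd
  omega

end Pool.Agent.NearSuper255
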