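import Pool.Agent.NearSuper255.Defs

/-!
# Near superperfect numbers, module G: minimal exponents, second list
-/

namespace Pool.Agent.NearSuper255

open Finset

private theorem modG_pow_lt (q e : ℕ) (he : 1 ≤ e) : q ^ e < S q (e + 1) := by
  unfold S
  rw [sum_range_succ]
  have h0 : 0 < ∑ i ∈ range e, q ^ i := by
    have h1 : (q ^ 0) ≤ ∑ i ∈ range e, q ^ i :=
      single_le_sum (f := fun i => q ^ i) (fun i _ => Nat.zero_le _) (mem_range.2 he)
    simp only [pow_zero] at h1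
    omega
  omega

private theorem modG_chk5 : ∀ q < 140, ∀ e < 9, (3 ≤ q ∧ q % 2 = 1 ∧ 2 ≤ e ∧ e % 2 = 0 ∧ q ≠ 5) →
    (S q (e + 1) ≠ 31 ∧ S q (e + 1) ≠ 19531) := by
  decide +kernel

private theorem modG_chk7 : ∀ q < 140, ∀ e < 9, (3 ≤ q ∧ q % 2 = 1 ∧ 2 ≤ e ∧ e % 2 = 0 ∧ q ≠ 7) →
    S q (e + 1) ≠ 2801 := by
  decide +kernel

/-- the other odd numbers with a value in the list -/
private theorem modG_val (q e r p : ℕ) (hq : 3 ≤ q) (hqo : q % 2 = 1) (he : 2 ≤ e) (heo : e % 2 = 0)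
    (hS : S q (e + 1) = r)
    (hr : (r = 31 ∧ p = 5) ∨ (r = 19531 ∧ p = 5) ∨ (r = 2801 ∧ p = 7)) :
    q = p := by
  have hlt : q ^ e < r := by
    rw [← hS]
    exact modG_pow_lt q e (by omega)
  have hr8 : r ≤ 19531 := by omega
  have h3 : 3 ^ e ≤ q ^ e := Nat.pow_le_pow_left hq e
  have he9 : e < 9 := by
    by_contra hcon
    have h13 : 3 ^ 9 ≤ 3 ^ e := Nat.pow_le_pow_right (by norm_num) (by omega)
    norm_num at h13
    omega
  have h5 : q ^ 2 ≤ q ^ e := Nat.pow_le_pow_right (by omega) he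
  have hq140 : q < 140 := by
    by_contra hcon
    have h30 : 140 ^ 2 ≤ q ^ 2 := Nat.pow_le_pow_left (by omega) 2
    norm_num at h30
    omega
  rcases hr with ⟨h, h'⟩ | ⟨h, h'⟩ | ⟨h, h'⟩
  · subst h'
    by_contra hne
    exact (modG_chk5 q hq140 e he9 ⟨hq, hqo, he, heo, hne⟩).1 (hS.trans h)
  · subst h'
    by_contra hne
    exact (modG_chk5 q hq140 e he9 ⟨hq, hqo, he, heo, hne⟩).2 (hS.trans h)
  · subst h'
    by_contra hne
    exact modG_chk7 q hq140 e he9 ⟨hq, hqo, he, heo, hne⟩ (hS.trans h)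

private theorem modG_other {n p r : ℕ} (hp : p ∈ n.primeFactors) (hr : rv n p = r)
    (hf : Even ((n.primeFactors.filter (fun q => rv n q = r)).card)) :
    ∃ q ∈ n.primeFactors, q ≠ p ∧ rv n q = r := by
  have hmem : p ∈ n.primeFactors.filter (fun q => rv n q = r) := mem_filter.2 ⟨hp, hr⟩
  have h1 : 0 < (n.primeFactors.filter (fun q => rv n q = r)).card := card_pos.2 ⟨p, hmem⟩
  have h2 : 1 < (n.primeFactors.filter (fun q => rv n q = r)).card := by
    obtain ⟨m, hm⟩ := hf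
    omega
  obtain ⟨q, hq, hne⟩ := exists_mem_ne h2 p
  exact ⟨q, (mem_filter.1 hq).1, hne, (mem_filter.1 hq).2⟩

private theorem modG_not {n : ℕ} (ho : Odd n)
    (he : ∀ p ∈ n.primeFactors, Even (n.factorization p) ∧ 2 ≤ n.factorization p)
    (hf : ∀ r : ℕ, Even ((n.primeFactors.filter (fun p => rv n p = r)).card))
    (p r : ℕ) (hp : p ∈ n.primeFactors)
    (hr : (r = 31 ∧ p = 5) ∨ (r = 19531 ∧ p = 5) ∨ (r = 2801 ∧ p = 7)) :
    rv n p ≠ r := by
  intro h
  obtain ⟨q, hq, hne, hqr⟩ := modG_other hp h (hf r)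
  have hqp : q.Prime := Nat.prime_of_mem_primeFactors hq
  have hqd : q ∣ n := Nat.dvd_of_mem_primeFactors hq
  have hqo : Odd q := ho.of_dvd_nat hqd
  have hqo' : q % 2 = 1 := Nat.odd_iff.1 hqo
  have hq3 : 3 ≤ q := by
    have := hqp.two_le
    omega
  obtain ⟨h1, h2⟩ := he q hq
  exact hne (modG_val q (n.factorization q) r p hq3 hqo' h2 (Nat.even_iff.1 h1) hqr hr)

private theorem modG_comp : S 5 5 = 11 * 71 ∧ S 5 9 = 19 * 25699 ∧ S 7 3 = 3 * 19 ∧ S 11 3 = 7 * 19 ∧
    S 23 3 = 7 * 79 ∧ S 29 3 = 13 * 67 ∧ S 5 3 = 31 ∧ S 5 7 = 19531 ∧ S 7 5 = 2801 := by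
  decide +kernel

theorem exp_min2 {n : ℕ} (ho : Odd n) (hr : ∀ p ∈ n.primeFactors, (rv n p).Prime)
    (he : ∀ p ∈ n.primeFactors, Even (n.factorization p) ∧ 2 ≤ n.factorization p)
    (hf : ∀ r : ℕ, Even ((n.primeFactors.filter (fun p => rv n p = r)).card)) :
    (5 ∣ n → 10 ≤ n.factorization 5) ∧ (7 ∣ n → 6 ≤ n.factorization 7) ∧
    (11 ∣ n → 4 ≤ n.factorization 11) ∧ (23 ∣ n → 4 ≤ n.factorization 23) ∧
    (29 ∣ n → 4 ≤ n.factorization 29) := by
  have hn0 : n ≠ 0 := by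
    rintro rfl
    exact absurd ho (by decide)
  obtain ⟨c1, c2, c3, c4, c5, c6, v1, v2, v3⟩ := modG_comp
  have hm : ∀ p : ℕ, p.Prime → p ∣ n → p ∈ n.primeFactors := fun p h1 h2 => Nat.mem_primeFactors.2 ⟨h1, h2, hn0⟩
  have hcomp : ∀ a b : ℕ, a ≠ 1 → b ≠ 1 → ¬ (a * b).Prime := fun a b h1 h2 => Nat.not_prime_mul h1 h2
  refine ⟨fun h => ?_, fun h => ?_, fun h => ?_, fun h => ?_, fun h => ?_⟩
  · have hp := hm 5 (by norm_num) h
    obtain ⟨h1, h2⟩ := he 5 hp
    have h1' := Nat.even_iff.1 h1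
    have hP := hr 5 hp
    have n1 := modG_not ho he hf 5 31 hp (by tauto)
    have n2 := modG_not ho he hf 5 19531 hp (by tauto)
    unfold rv at hP n1 n2
    by_contra hcon
    have hlt : n.factorization 5 < 10 := by omega
    generalize n.factorization 5 = e at *
    have : e = 2 ∨ e = 4 ∨ e = 6 ∨ e = 8 := by omega
    rcases this with rfl | rfl | rfl | rfl
    · exact n1 v1
    · rw [c1] at hP; exact hcomp 11 71 (by norm_num) (by norm_num) hP
    · exact n2 v2
    · rw [c2] at hP; exact hcomp 19 25699 (by norm_num) (by norm_num) hP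
  · have hp := hm 7 (by norm_num) h
    obtain ⟨h1, h2⟩ := he 7 hp
    have h1' := Nat.even_iff.1 h1
    have hP := hr 7 hp
    have n1 := modG_not ho he hf 7 2801 hp (by tauto)
    unfold rv at hP n1
    by_contra hcon
    generalize n.factorization 7 = e at *
    have : e = 2 ∨ e = 4 := by omega
    rcases this with rfl | rfl
    · rw [c3] at hP; exact hcomp 3 19 (by norm_num) (by norm_num) hP
    · exact n1 v3
  · have hp := hm 11 (by norm_num) h
    obtain ⟨h1, h2⟩ := he 11 hp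
    have h1' := Nat.even_iff.1 h1
    have hP := hr 11 hp
    unfold rv at hP
    by_contra hcon
    generalize n.factorization 11 = e at *
    have : e = 2 := by omega
    subst this
    rw [c4] at hP; exact hcomp 7 19 (by norm_num) (by norm_num) hP
  · have hp := hm 23 (by norm_num) h
    obtain ⟨h1, h2⟩ := he 23 hp
    have h1' := Nat.even_iff.1 h1
    have hP := hr 23 hp
    unfold rv at hP
    by_contra hcon
    generalize n.factorization 23 = e at *
    have : e = 2 := by omega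
    subst this
    rw [c5] at hP; exact hcomp 7 79 (by norm_num) (by norm_num) hP
  · have hp := hm 29 (by norm_num) h
    obtain ⟨h1, h2⟩ := he 29 hp
    have h1' := Nat.even_iff.1 h1
    have hP := hr 29 hp
    unfold rv at hP
    by_contra hcon
    generalize n.factorization 29 = e at *
    have : e = 2 := by omega
    subst this
    rw [c6] at hP; exact hcomp 13 67 (by norm_num) (by norm_num) hP

end Pool.Agent.NearSuper255
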