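import Pool.Agent.NearSuper255.Defs

/-!
# Excluding a pair of bases by congruences

For bases `p`, `q` the equation `S p (N + 1) = S q (M + 1)` with `N, M` even and at least two
is excluded by a chain of congruences: known divisors `u` of `N` and `v` of `M` are enlarged
through moduli `t`, and in the end every class of `M / v` modulo `p` is refuted.
-/

namespace Pool.Agent.NearSuper255

open Finset

theorem beq_iff (a b : ℕ) : (Nat.beq a b = true) = (a = b) := by
  apply propext
  constructor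
  · exact Nat.eq_of_beq_eq_true
  · rintro rfl
    exact Nat.beq_refl a

/-! ### Modular powers -/

/-- evaluate `n` to a literal before applying `f` -/
def force {α : Type} (n : ℕ) (f : ℕ → α) : α :=
  @Nat.rec (fun _ => α) (f 0) (fun k _ => f (Nat.succ k)) n

theorem force_eq {α : Type} (n : ℕ) (f : ℕ → α) : force n f = f n := by
  cases n <;> rfl

/-- `if c then x else y` by the recursor, for fast kernel evaluation -/
@[reducible] def sel {α : Type} (c : Bool) (x y : α) : α := @Bool.rec (fun _ => α) y x c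

theorem sel_eq {α : Type} (c : Bool) (x y : α) : sel c x y = bif c then x else y := by
  cases c <;> rfl

def pw0 (b e t : ℕ) : ℕ := Nat.mod (Nat.pow (Nat.mod b t) e) t

def pw1 (b e t : ℕ) : ℕ :=
  @Bool.rec (fun _ => ℕ)
    (Nat.mod (Nat.mul (Nat.pow (pw0 b (Nat.div e 1024) t) 1024)
      (Nat.pow (Nat.mod b t) (Nat.mod e 1024))) t)
    (Nat.mod (Nat.pow (Nat.mod b t) e) t) (Nat.ble e 1023)

def pw2 (b e t : ℕ) : ℕ :=
  @Bool.rec (fun _ => ℕ)
    (Nat.mod (Nat.mul (Nat.pow (pw1 b (Nat.div e 1024) t) 1024)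
      (Nat.pow (Nat.mod b t) (Nat.mod e 1024))) t)
    (Nat.mod (Nat.pow (Nat.mod b t) e) t) (Nat.ble e 1023)

/-- `b ^ e` modulo `t`. -/
def pw (b e t : ℕ) : ℕ :=
  @Bool.rec (fun _ => ℕ)
    (Nat.mod (Nat.mul (Nat.pow (pw2 b (Nat.div e 1024) t) 1024)
      (Nat.pow (Nat.mod b t) (Nat.mod e 1024))) t)
    (Nat.mod (Nat.pow (Nat.mod b t) e) t) (Nat.ble e 1023)

theorem pw0_eq (b e t : ℕ) : pw0 b e t = b ^ e % t := by
  show (b % t) ^ e % t = b ^ e % t
  exact (Nat.pow_mod b e t).symm

theorem pw_step (b e t x : ℕ) (hx : x = b ^ (e / 1024) % t) :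
    @Bool.rec (fun _ => ℕ)
      (Nat.mod (Nat.mul (Nat.pow x 1024)
      (Nat.pow (Nat.mod b t) (Nat.mod e 1024))) t)
      (Nat.mod (Nat.pow (Nat.mod b t) e) t) (Nat.ble e 1023) = b ^ e % t := by
  cases h : Nat.ble e 1023 with
  | true =>
    show (b % t) ^ e % t = b ^ e % t
    exact (Nat.pow_mod b e t).symm
  | false =>
    show (x ^ 1024 * (b % t) ^ (e % 1024)) % t = b ^ e % t
    subst hx
    have h1 : b ^ e = (b ^ (e / 1024)) ^ 1024 * b ^ (e % 1024) := by
      rw [← pow_mul, ← pow_add]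
      congr 1
      omega
    rw [h1, Nat.mul_mod, ← Nat.pow_mod, ← Nat.pow_mod, ← Nat.mul_mod]

theorem pw1_eq (b e t : ℕ) : pw1 b e t = b ^ e % t := pw_step b e t _ (pw0_eq _ _ _)

theorem pw2_eq (b e t : ℕ) : pw2 b e t = b ^ e % t := pw_step b e t _ (pw1_eq _ _ _)

theorem pw_eq (b e t : ℕ) : pw b e t = b ^ e % t := pw_step b e t _ (pw2_eq _ _ _)

theorem pw_one_iff {b e t : ℕ} (ht : 1 % t = 1) :
    pw b e t = 1 ↔ ((b : ℕ) : ZMod t) ^ e = 1 := by
  rw [pw_eq]
  have h := ZMod.natCast_eq_natCast_iff' (b ^ e) 1 t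
  rw [ht] at h
  rw [← h]
  push_cast
  rfl

/-! ### The equation -/

/-- The equation `S p (N + 1) = S q (M + 1)` with `N, M` even and at least two. -/
structure Sol (p q N M : ℕ) : Prop where
  hp : 2 ≤ p
  hq : 2 ≤ q
  hN : 2 ≤ N
  hM : 2 ≤ M
  eN : 2 ∣ N
  eM : 2 ∣ M
  eq : S p (N + 1) = S q (M + 1)

theorem Sol.symm {p q N M : ℕ} (h : Sol p q N M) : Sol q p M N :=
  ⟨h.hq, h.hp, h.hM, h.hN, h.eM, h.eN, h.eq.symm⟩

theorem S_mul {R : Type*} [CommRing R] (x n : ℕ) :
    ((S x n : ℕ) : R) * ((x : R) - 1) = (x : R) ^ n - 1 := by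
  unfold S
  push_cast
  exact geom_sum_mul _ _

theorem Sol.ident {p q N M : ℕ} (h : Sol p q N M) (R : Type*) [CommRing R] :
    ((q : R) - 1) * (p : R) ^ (N + 1) = ((p : R) - 1) * (q : R) ^ (M + 1) + q - p := by
  have h1 := S_mul (R := R) p (N + 1)
  have h2 := S_mul (R := R) q (M + 1)
  rw [h.eq] at h1
  linear_combination (-(q : R) + 1) * h1 + ((p : R) - 1) * h2

theorem grow_core {G : Type*} [Monoid G] (g : G) {M v e f : ℕ} (hf : f.Prime) (hvM : v ∣ M)
    (h1 : g ^ M = 1) (h2 : g ^ (v * e * f) = 1) (h3 : g ^ (v * e) ≠ 1) : v * f ∣ M := by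
  obtain ⟨x, rfl⟩ := hvM
  haveI := Fact.mk hf
  have ho : orderOf (g ^ (v * e)) = f := orderOf_eq_prime (by rw [← pow_mul]; exact h2) h3
  have hx : f ∣ x := by
    rw [← ho]
    apply orderOf_dvd_of_pow_eq_one
    rw [← pow_mul, show v * e * x = (v * x) * e by ring, pow_mul, h1, one_pow]
  exact Nat.mul_dvd_mul_left v hx

/-- grow `v` through the modulus `t`, given that `q ^ M = 1` modulo `t`. -/
def growL (q t : ℕ) (l : List (ℕ × ℕ)) : ℕ → ℕ :=
  @List.rec (ℕ × ℕ) (fun _ => ℕ → ℕ) (fun v => v)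
    (fun x _ ih v =>
      @Bool.rec (fun _ => ℕ)
        (@Bool.rec (fun _ => ℕ) (ih v) (ih (Nat.mul v x.2))
          (Nat.beq (pw q (Nat.mul (Nat.mul v x.1) x.2) t) 1))
        (ih v) (Nat.beq (pw q (Nat.mul v x.1) t) 1)) l

theorem growL_cons (q t : ℕ) (x : ℕ × ℕ) (l : List (ℕ × ℕ)) (v : ℕ) :
    growL q t (x :: l) v =
    bif (!(Nat.beq (pw q (v * x.1) t) 1)) && Nat.beq (pw q (v * x.1 * x.2) t) 1 then
      growL q t l (v * x.2)
    else growL q t l v := by
  show @Bool.rec (fun _ => ℕ)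
        (@Bool.rec (fun _ => ℕ) (growL q t l v) (growL q t l (v * x.2))
          (Nat.beq (pw q (v * x.1 * x.2) t) 1))
        (growL q t l v) (Nat.beq (pw q (v * x.1) t) 1) = _
  cases Nat.beq (pw q (v * x.1) t) 1 <;> cases Nat.beq (pw q (v * x.1 * x.2) t) 1 <;> rfl

theorem growL_sound {q t M : ℕ} (ht : 1 % t = 1) (h1 : ((q : ℕ) : ZMod t) ^ M = 1) :
    ∀ (l : List (ℕ × ℕ)) (v : ℕ), (∀ x ∈ l, x.2.Prime) → v ∣ M → growL q t l v ∣ M := by
  intro l
  induction l with
  | nil => intro v _ hv; exact hv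
  | cons x l ih =>
    intro v hl hv
    have hl' : ∀ x ∈ l, x.2.Prime := fun y hy => hl y (List.mem_cons_of_mem _ hy)
    rw [growL_cons]
    cases hc : ((!(Nat.beq (pw q (v * x.1) t) 1)) && Nat.beq (pw q (v * x.1 * x.2) t) 1) with
    | false => simpa using ih v hl' hv
    | true =>
      simp only [Bool.and_eq_true, Bool.not_eq_true', beq_iff] at hc
      simp only [cond_true]
      apply ih _ hl'
      refine grow_core ((q : ℕ) : ZMod t) (hl x List.mem_cons_self) hv h1
        ((pw_one_iff ht).1 hc.2) ?_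
      intro h
      have h4 := (pw_one_iff ht).2 h
      have h5 := hc.1
      rw [h4] at h5
      simp at h5

/-- growth of `v` through a modulus `t` with `p ^ u = 1` modulo `t`. -/
def growV (p q u t : ℕ) (l : List (ℕ × ℕ)) (v : ℕ) : ℕ :=
  @Bool.rec (fun _ => ℕ) v (@Bool.rec (fun _ => ℕ) v (@Bool.rec (fun _ => ℕ) v
    (growL q t l v) (Nat.beq (Nat.gcd t (Nat.mul (Nat.sub p 1) q)) 1))
    (Nat.beq (Nat.mod 1 t) 1)) (Nat.beq (pw p u t) 1)

theorem growV_eq (p q u t : ℕ) (l : List (ℕ × ℕ)) (v : ℕ) : growV p q u t l v =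
    bif Nat.beq (1 % t) 1 && (Nat.beq (pw p u t) 1 && Nat.beq (Nat.gcd t ((p - 1) * q)) 1) then
    growL q t l v else v := by
  show @Bool.rec (fun _ => ℕ) v (@Bool.rec (fun _ => ℕ) v (@Bool.rec (fun _ => ℕ) v
    (growL q t l v) (Nat.beq (Nat.gcd t ((p - 1) * q)) 1))
    (Nat.beq (1 % t) 1)) (Nat.beq (pw p u t) 1) = _
  cases Nat.beq (1 % t) 1 <;> cases Nat.beq (pw p u t) 1 <;>
    cases Nat.beq (Nat.gcd t ((p - 1) * q)) 1 <;> rfl

theorem growV_sound {p q N M u t v : ℕ} (h : Sol p q N M) (hu : u ∣ N) (hv : v ∣ M)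
    {l : List (ℕ × ℕ)} (hl : ∀ x ∈ l, x.2.Prime) : growV p q u t l v ∣ M := by
  rw [growV_eq]
  cases hc : (Nat.beq (1 % t) 1 && (Nat.beq (pw p u t) 1 &&
    Nat.beq (Nat.gcd t ((p - 1) * q)) 1)) with
  | false => simpa using hv
  | true =>
    simp only [Bool.and_eq_true, beq_iff] at hc
    obtain ⟨ht, hpu, hg⟩ := hc
    simp only [cond_true]
    refine growL_sound ht ?_ l v hl hv
    have hpN : ((p : ℕ) : ZMod t) ^ N = 1 := by
      obtain ⟨x, rfl⟩ := hu
      rw [pow_mul, (pw_one_iff ht).1 hpu, one_pow]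
    have hid := h.ident (ZMod t)
    rw [pow_succ, hpN, one_mul] at hid
    have hcop : Nat.Coprime ((p - 1) * q) t := (Nat.coprime_iff_gcd_eq_one.2 hg).symm
    have hunit : IsUnit ((((p - 1) * q : ℕ)) : ZMod t) := (ZMod.isUnit_iff_coprime _ _).2 hcop
    have hcast : (((p - 1) * q : ℕ) : ZMod t) = ((p : ZMod t) - 1) * q := by
      rw [Nat.cast_mul, Nat.cast_sub (by have := h.hp; omega)]
      simp
    rw [hcast] at hunit
    have h0 : (((p : ZMod t) - 1) * q) * ((q : ZMod t) ^ M) = (((p : ZMod t) - 1) * q) * 1 := by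
      have : (q : ZMod t) ^ (M + 1) = q ^ M * q := pow_succ _ _
      rw [this] at hid
      linear_combination -hid
    exact hunit.mul_left_cancel h0

/-- growth of `v` through the modulus `p` itself. -/
def growP (p q : ℕ) (l : List (ℕ × ℕ)) (v : ℕ) : ℕ :=
  bif Nat.beq (1 % p) 1 && Nat.beq (Nat.gcd p q) 1 then growL q p l v else v

theorem growP_sound {p q N M v : ℕ} (h : Sol p q N M) (hv : v ∣ M)
    {l : List (ℕ × ℕ)} (hl : ∀ x ∈ l, x.2.Prime) : growP p q l v ∣ M := by
  unfold growP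
  cases hc : (Nat.beq (1 % p) 1 && Nat.beq (Nat.gcd p q) 1) with
  | false => simpa using hv
  | true =>
    simp only [Bool.and_eq_true, beq_iff] at hc
    obtain ⟨ht, hg⟩ := hc
    simp only [cond_true]
    refine growL_sound ht ?_ l v hl hv
    have hid := h.ident (ZMod p)
    have hp0 : ((p : ℕ) : ZMod p) = 0 := ZMod.natCast_self p
    rw [hp0] at hid
    have hunit : IsUnit ((q : ℕ) : ZMod p) :=
      (ZMod.isUnit_iff_coprime _ _).2 (Nat.coprime_iff_gcd_eq_one.2 hg).symm
    have h0 : (q : ZMod p) * ((q : ZMod p) ^ M) = (q : ZMod p) * 1 := by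
      have h3 : (q : ZMod p) ^ (M + 1) = q ^ M * q := pow_succ _ _
      rw [h3] at hid
      have h4 : (0 : ZMod p) ^ (N + 1) = 0 := zero_pow (by omega)
      rw [h4] at hid
      linear_combination hid
    exact hunit.mul_left_cancel h0

/-! ### Exactness at `p` -/

/-- the congruence satisfied by `q ^ (M + 1)` modulo a divisor of `(q - 1) p ^ 3` -/
theorem Sol.exact {p q N M : ℕ} (h : Sol p q N M) {mm : ℕ} (hmm : (q - 1) * p ^ 3 % mm = 0) :
    ((p - 1) * q ^ (M + 1) + q) % mm = p % mm := by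
  rw [← ZMod.natCast_eq_natCast_iff']
  have hid := h.ident (ZMod mm)
  have h0 : ((q : ZMod mm) - 1) * (p : ZMod mm) ^ (N + 1) = 0 := by
    have h1 : (((q - 1) * p ^ 3 : ℕ) : ZMod mm) = 0 := by
      rw [ZMod.natCast_eq_zero_iff]
      exact Nat.dvd_of_mod_eq_zero hmm
    rw [Nat.cast_mul, Nat.cast_sub (by have := h.hq; omega), Nat.cast_pow, Nat.cast_one] at h1
    obtain ⟨k, hk⟩ : ∃ k, N + 1 = 3 + k := ⟨N - 2, by have := h.hN; omega⟩
    rw [hk, pow_add, ← mul_assoc, h1, zero_mul]
  rw [h0] at hid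
  rw [Nat.cast_add, Nat.cast_mul, Nat.cast_pow, Nat.cast_sub (by have := h.hp; omega),
    Nat.cast_one]
  linear_combination -hid

theorem pow_class {q v Y x y mm k : ℕ} (hx : x = Y * k + y) (h1 : q ^ (v * Y) % mm = 1 % mm) :
    q ^ (v * x + 1) % mm = q ^ (v * y + 1) % mm := by
  subst hx
  have : q ^ (v * (Y * k + y) + 1) = (q ^ (v * Y)) ^ k * q ^ (v * y + 1) := by
    rw [← pow_mul, ← pow_add]
    congr 1
    ring
  rw [this, Nat.mul_mod, Nat.pow_mod, h1, ← Nat.pow_mod, one_pow, ← Nat.mul_mod, one_mul]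

/-- all `y` with `y0 ≤ y < y0 + k` fail the congruence modulo `mm`, or pass the test -/
def cLoop (p1 q mm c g : ℕ) (test : ℕ → Bool) (k : ℕ) : ℕ → ℕ → Bool :=
  @Nat.rec (fun _ => ℕ → ℕ → Bool) (fun _ _ => true)
    (fun _ ih y cur =>
      @Bool.rec (fun _ => Bool)
        (force (Nat.succ y) fun y' => force (Nat.mod (Nat.mul cur g) mm) fun cur' => ih y' cur')
        (@Bool.rec (fun _ => Bool) false
          (force (Nat.succ y) fun y' => force (Nat.mod (Nat.mul cur g) mm) fun cur' => ih y' cur')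
          (test y))
        (Nat.beq (Nat.mod (Nat.add (Nat.mul p1 cur) q) mm) c)) k

theorem cLoop_succ (p1 q mm c g : ℕ) (test : ℕ → Bool) (k y cur : ℕ) :
    cLoop p1 q mm c g test (k + 1) y cur =
    ((bif Nat.beq ((p1 * cur + q) % mm) c then test y else true) &&
      cLoop p1 q mm c g test k (y + 1) (cur * g % mm)) := by
  have h : cLoop p1 q mm c g test (k + 1) y cur = @Bool.rec (fun _ => Bool)
        (force (y + 1) fun y' => force (cur * g % mm) fun cur' =>
          cLoop p1 q mm c g test k y' cur')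
        (@Bool.rec (fun _ => Bool) false (force (y + 1) fun y' => force (cur * g % mm) fun cur' =>
          cLoop p1 q mm c g test k y' cur')
          (test y))
        (Nat.beq ((p1 * cur + q) % mm) c) := rfl
  rw [h]
  simp only [force_eq]
  cases Nat.beq ((p1 * cur + q) % mm) c <;> cases test y <;> rfl

theorem cLoop_sound {p q mm c g v : ℕ} {test : ℕ → Bool} (hg : g = q ^ v % mm) :
    ∀ (k y cur : ℕ), cur % mm = q ^ (v * y + 1) % mm → cLoop (p - 1) q mm c g test k y cur = true →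
      ∀ z, y ≤ z → z < y + k → ((p - 1) * q ^ (v * z + 1) + q) % mm = c → test z = true := by
  intro k
  induction k with
  | zero => intro y cur _ _ z h1 h2; omega
  | succ k ih =>
    intro y cur hcur hl z hz1 hz2 hz
    rw [cLoop_succ, Bool.and_eq_true] at hl
    rcases Nat.eq_or_lt_of_le hz1 with h | h
    · subst h
      have h1 : ((p - 1) * cur + q) % mm = c := by
        rw [← hz, Nat.add_mod, Nat.mul_mod, hcur, ← Nat.mul_mod, ← Nat.add_mod]
      have h2 := hl.1
      rw [h1] at h2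
      simpa using h2
    · refine ih (y + 1) (cur * g % mm) ?_ hl.2 z (by omega) (by omega) hz
      subst hg
      rw [Nat.mod_mod, Nat.mul_mod, hcur, Nat.mod_mod, ← Nat.mul_mod, ← pow_add]
      congr 2
      ring

/-- brute force growth at `p`: only the class `0` modulo `f` survives -/
def brute (p q v f mm : ℕ) : Bool :=
  Nat.beq ((q - 1) * p ^ 3 % mm) 0 && (Nat.beq (pw q (v * f) mm) (1 % mm) &&
    cLoop (p - 1) q mm (p % mm) (pw q v mm) (fun _ => false) (f - 1) 1 (pw q (v + 1) mm))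

theorem brute_sound {p q N M v f mm : ℕ} (h : Sol p q N M) (hf : 0 < f) (hv : v ∣ M)
    (hb : brute p q v f mm = true) : v * f ∣ M := by
  unfold brute at hb
  simp only [Bool.and_eq_true, beq_iff] at hb
  obtain ⟨h1, h2, h3⟩ := hb
  rw [pw_eq] at h2
  obtain ⟨x, rfl⟩ := hv
  have hx : x = f * (x / f) + x % f := (Nat.div_add_mod x f).symm
  have he := h.exact h1
  have hc := pow_class (q := q) (v := v) (mm := mm) hx h2
  have he' : ((p - 1) * q ^ (v * (x % f) + 1) + q) % mm = p % mm := by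
    rw [← he, Nat.add_mod, Nat.mul_mod, ← hc, ← Nat.mul_mod, ← Nat.add_mod]
  by_cases hy : x % f = 0
  · exact Nat.mul_dvd_mul_left v (Nat.dvd_of_mod_eq_zero hy)
  · exfalso
    have := cLoop_sound (pw_eq q v mm) (f - 1) 1 (pw q (v + 1) mm)
      (by rw [pw_eq, Nat.mod_mod, mul_one]) h3 (x % f) (by omega)
      (by have := Nat.mod_lt x hf; omega) he'
    simp at this

/-- the test of the class `y` through one modulus `t` (`a` the order of `p` modulo `t`) -/
def tst1 (p q u v Y y t a : ℕ) : Bool :=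
  @Bool.rec (fun _ => Bool) false
    (@Bool.rec (fun _ => Bool) false
      (@Bool.rec (fun _ => Bool) false
        (@Bool.rec (fun _ => Bool) true false
          (Nat.beq (pw (Nat.add (Nat.add (Nat.mul (Nat.sub p 1) (pw q (Nat.succ (Nat.mul v y)) t))
              q) (Nat.mul (Nat.sub t 1) p)) (Nat.div a (Nat.gcd a u)) t)
            (pw (Nat.mul (Nat.sub q 1) p) (Nat.div a (Nat.gcd a u)) t)))
        (Nat.beq (pw p (Nat.mul u (Nat.div a (Nat.gcd a u))) t) 1))
      (Nat.beq (Nat.mod 1 t) 1))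
    (Nat.beq (pw q (Nat.mul v Y) t) 1)

theorem tst1_eq (p q u v Y y t a : ℕ) : tst1 p q u v Y y t a =
    (Nat.beq (1 % t) 1 && (Nat.beq (pw q (v * Y) t) 1 &&
      (Nat.beq (pw p (u * (a / Nat.gcd a u)) t) 1 &&
        !(Nat.beq (pw ((p - 1) * pw q (v * y + 1) t + q + (t - 1) * p)
            (a / Nat.gcd a u) t)
          (pw ((q - 1) * p) (a / Nat.gcd a u) t))))) := by
  show @Bool.rec (fun _ => Bool) false
    (@Bool.rec (fun _ => Bool) false
      (@Bool.rec (fun _ => Bool) false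
        (@Bool.rec (fun _ => Bool) true false
          (Nat.beq (pw ((p - 1) * pw q (v * y + 1) t + q + (t - 1) * p)
            (a / Nat.gcd a u) t)
          (pw ((q - 1) * p) (a / Nat.gcd a u) t)))
        (Nat.beq (pw p (u * (a / Nat.gcd a u)) t) 1))
      (Nat.beq (1 % t) 1))
    (Nat.beq (pw q (v * Y) t) 1) = _
  cases Nat.beq (pw ((p - 1) * pw q (v * y + 1) t + q + (t - 1) * p) (a / Nat.gcd a u) t)
          (pw ((q - 1) * p) (a / Nat.gcd a u) t) <;>
    cases Nat.beq (pw p (u * (a / Nat.gcd a u)) t) 1 <;> cases Nat.beq (1 % t) 1 <;>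
    cases Nat.beq (pw q (v * Y) t) 1 <;> rfl

/-- the test of the class `y` through the moduli of a list -/
def tst (p q u v Y y : ℕ) (l : List (ℕ × ℕ)) : Bool :=
  @List.rec (ℕ × ℕ) (fun _ => Bool) false
    (fun x _ ih => @Bool.rec (fun _ => Bool) ih true (tst1 p q u v Y y x.1 x.2)) l

theorem tst_cons (p q u v Y y : ℕ) (x : ℕ × ℕ) (l : List (ℕ × ℕ)) :
    tst p q u v Y y (x :: l) = (tst1 p q u v Y y x.1 x.2 || tst p q u v Y y l) := by
  show @Bool.rec (fun _ => Bool) (tst p q u v Y y l) true (tst1 p q u v Y y x.1 x.2) = _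
  cases tst1 p q u v Y y x.1 x.2 <;> rfl

theorem tst_sound {p q N u v Y x y : ℕ} (h : Sol p q N (v * x)) (hu : u ∣ N)
    {k : ℕ} (hx : x = Y * k + y) :
    ∀ l : List (ℕ × ℕ), tst p q u v Y y l = true → False := by
  intro l
  induction l with
  | nil => intro h; simp [tst] at h
  | cons a l ih =>
    intro hl
    rw [tst_cons, Bool.or_eq_true, tst1_eq] at hl
    rcases hl with hl | hl
    · simp only [Bool.and_eq_true, Bool.not_eq_true', beq_iff] at hl
      obtain ⟨ht, h1, h2, h3⟩ := hl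
      set t := a.1 with hta
      set w := a.2 / Nat.gcd a.2 u with hw
      have h1' : q ^ (v * Y) % t = 1 % t := by rw [← pw_eq, h1, ht]
      have hc := pow_class (q := q) (v := v) (mm := t) hx h1'
      have hp2 := (pw_one_iff ht).1 h2
      obtain ⟨z, rfl⟩ := hu
      have hid := h.ident (ZMod t)
      have hcz : ((q : ℕ) : ZMod t) ^ (v * x + 1) = (q : ZMod t) ^ (v * y + 1) := by
        have := (ZMod.natCast_eq_natCast_iff' _ _ t).2 hc
        push_cast at this
        exact this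
      have hA : ((((p - 1) * pw q (v * y + 1) t + q + (t - 1) * p : ℕ)) : ZMod t) =
          ((q : ZMod t) - 1) * p ^ (u * z + 1) := by
        rw [hid, hcz, pw_eq]
        have ht1 : 1 ≤ t := by
          rcases Nat.eq_zero_or_pos t with h0 | h0
          · rw [h0] at h2 
            have := h.hp
            rw [pw_eq, Nat.mod_zero] at h2
            by_contra
            rw [h0] at hp2
            have h9 : p ^ (u * w) = 1 := h2
            have hqv := h1
            rw [h0, pw_eq, Nat.mod_zero] at hqv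
            rw [h0] at h3
            simp only [pw_eq, Nat.mod_zero] at h3
            have hw0 : u * w = 0 := by
              by_contra hne
              have := Nat.one_lt_pow hne h.hp
              omega
            rcases Nat.mul_eq_zero.1 hw0 with h5 | h5
            · have := h.hN
              rw [h5] at this
              omega
            · rw [h5] at h3
              simp at h3
          · exact h0
        push_cast [Nat.cast_sub (show 1 ≤ p by have := h.hp; omega), Nat.cast_sub ht1]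
        rw [ZMod.natCast_mod, ZMod.natCast_self]
        push_cast
        ring
      have hAw : ((((p - 1) * pw q (v * y + 1) t + q + (t - 1) * p : ℕ)) : ZMod t) ^ w =
          ((((q - 1) * p : ℕ)) : ZMod t) ^ w := by
        rw [hA]
        push_cast [Nat.cast_sub (show 1 ≤ q by have := h.hq; omega)]
        rw [mul_pow, mul_pow, ← pow_mul,
          show (u * z + 1) * w = (u * w) * z + w by ring, pow_add, pow_mul, hp2, one_pow, one_mul]
      have hfin : pw ((p - 1) * pw q (v * y + 1) t + q + (t - 1) * p) w t =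
          pw ((q - 1) * p) w t := by
        rw [pw_eq _ w t, pw_eq _ w t, ← ZMod.natCast_eq_natCast_iff']
        push_cast
        push_cast at hAw
        exact hAw
      rw [hfin] at h3
      simp at h3
    · exact ih hl

/-- the final check: every class of `M / v` modulo `Y` is refuted -/
def fin (p q u v Y mm : ℕ) (l : List (ℕ × ℕ)) : Bool :=
  Nat.beq ((q - 1) * p ^ 3 % mm) 0 && (Nat.beq (pw q (v * Y) mm) (1 % mm) &&
    cLoop (p - 1) q mm (p % mm) (pw q v mm) (fun y => tst p q u v Y y l) Y 0 (q % mm))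

theorem fin_sound {p q N M u v Y mm : ℕ} (h : Sol p q N M) (hY : 0 < Y) (hu : u ∣ N)
    (hv : v ∣ M) {l : List (ℕ × ℕ)} (hb : fin p q u v Y mm l = true) : False := by
  unfold fin at hb
  simp only [Bool.and_eq_true, beq_iff] at hb
  obtain ⟨h1, h2, h3⟩ := hb
  rw [pw_eq] at h2
  obtain ⟨x, rfl⟩ := hv
  have hx : x = Y * (x / Y) + x % Y := (Nat.div_add_mod x Y).symm
  have he := h.exact h1
  have hc := pow_class (q := q) (v := v) (mm := mm) hx h2
  have he' : ((p - 1) * q ^ (v * (x % Y) + 1) + q) % mm = p % mm := by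
    rw [← he, Nat.add_mod, Nat.mul_mod, ← hc, ← Nat.mul_mod, ← Nat.add_mod]
  have := cLoop_sound (pw_eq q v mm) Y 0 (q % mm)
    (by rw [Nat.mod_mod, mul_zero, zero_add, pow_one]) h3 (x % Y) (by omega)
    (by have := Nat.mod_lt x hY; omega) he'
  exact tst_sound h hu hx l this

end Pool.Agent.NearSuper255
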