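import Pool.Agent.NearSuper255.Tab

/-!
# Ranges of excluded pairs, file 13
-/

namespace Pool.Agent.NearSuper255

theorem ck257_22703 : chunk WW (search 1 ef257 fqT GT FN257 4 257) 257
    [(23131, false, 1, [], [], [], [(16644349, 8322174)], 0),
    (23371, false, 1, [(1, 2)], [], [(43, [(21, 2), (14, 3), (6, 7)]), (181, [(90, 2), (45, 2), (60, 3), (20, 3), (36, 5)]), (199, [(99, 2), (66, 3), (22, 3), (18, 11)]), (421, [(210, 2), (105, 2), (140, 3), (84, 5), (60, 7)]), (491, [(245, 2), (98, 5), (70, 7), (10, 7)])], [(16963, 771)], 2)] 1000 22703 = true := by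
  decide +kernel

theorem ck257_24703 : chunk WW (search 1 ef257 fqT GT FN257 4 257) 257
    [] 1000 24703 = true := by
  decide +kernel

theorem ck257_26703 : chunk WW (search 1 ef257 fqT GT FN257 4 257) 257
    [(26729, false, 1, [], [], [], [(11360429, 5680214)], 0)] 1000 26703 = true := by
  decide +kernel

theorem ck257_28703 : chunk WW (search 1 ef257 fqT GT FN257 4 257) 257
    [(28723, false, 1, [(32, 2), (16, 2), (8, 2), (4, 2), (2, 2), (1, 2)], [], [(167, [(83, 2), (2, 83)]), (499, [(249, 2), (166, 3), (6, 83)]), (577, [(288, 2), (144, 2), (72, 2), (36, 2), (18, 2), (9, 2), (192, 3), (64, 3)])], [(1543, 771)], 2)] 1000 28703 = true := by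
  decide +kernel

theorem ck257_30703 : chunk WW (search 1 ef257 fqT GT FN257 4 257) 257
    [(30841, false, 1, [], [5], [(43, [(21, 2), (14, 3), (6, 7)]), (71, [(35, 2), (14, 5), (10, 7)]), (101, [(50, 2), (25, 2), (20, 5), (4, 5)]), (127, [(63, 2), (42, 3), (14, 3), (18, 7)]), (151, [(75, 2), (50, 3), (30, 5), (6, 5)]), (199, [(99, 2), (66, 3), (22, 3), (18, 11)])], [(36326951, 18163475)], 2)] 1000 30703 = true := by
  decide +kernel

end Pool.Agent.NearSuper255
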