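import Pool.Agent.NearSuper255.Tab

/-!
# Ranges of excluded pairs, file 28
-/

namespace Pool.Agent.NearSuper255

theorem ck257_176703 : chunk WW (search 1 ef257 fqT GT FN257 4 257) 257
    [(177493, false, 1, [(64, 2), (32, 2), (16, 2), (8, 2), (4, 2), (2, 2), (1, 2)], [7], [(29, [(14, 2), (7, 2), (4, 7)]), (97, [(48, 2), (24, 2), (12, 2), (6, 2), (3, 2), (32, 3)]), (449, [(224, 2), (112, 2), (56, 2), (28, 2), (14, 2), (7, 2), (64, 7)])], [(16963, 771)], 2),
    (177797, false, 1, [(64, 2), (32, 2), (16, 2), (8, 2), (4, 2), (2, 2), (1, 2)], [], [(43, [(21, 2), (14, 3), (6, 7)]), (97, [(48, 2), (24, 2), (12, 2), (6, 2), (3, 2), (32, 3)]), (449, [(224, 2), (112, 2), (56, 2), (28, 2), (14, 2), (7, 2), (64, 7)])], [(1543, 771)], 2)] 1000 176703 = true := by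
  decide +kernel

theorem ck257_178703 : chunk WW (search 1 ef257 fqT GT FN257 4 257) 257
    [(178873, false, 1, [], [], [(17, [(8, 2), (4, 2), (2, 2), (1, 2)]), (19, [(9, 2), (6, 3), (2, 3)]), (37, [(18, 2), (9, 2), (12, 3), (4, 3)]), (43, [(21, 2), (14, 3), (6, 7)]), (199, [(99, 2), (66, 3), (22, 3), (18, 11)])], [(8718469, 1453078)], 2)] 1000 178703 = true := by
  decide +kernel

theorem ck257_180703 : chunk WW (search 1 ef257 fqT GT FN257 4 257) 257
    [(181777, false, 1, [(64, 2), (32, 2), (16, 2), (8, 2), (4, 2), (2, 2), (1, 2)], [], [(191, [(95, 2), (38, 5), (10, 19)]), (457, [(228, 2), (114, 2), (57, 2), (152, 3), (24, 19)])], [(9767, 4883)], 2),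
    (181957, false, 1, [], [3], [(43, [(21, 2), (14, 3), (6, 7)]), (61, [(30, 2), (15, 2), (20, 3), (12, 5)])], [(16644349, 8322174)], 1),
    (182471, false, 1, [], [], [(43, [(21, 2), (14, 3), (6, 7)])], [(30514639, 15257319)], 1),
    (182537, false, 1, [(16, 2), (8, 2), (4, 2), (2, 2), (1, 2)], [], [(43, [(21, 2), (14, 3), (6, 7)]), (127, [(63, 2), (42, 3), (14, 3), (18, 7)]), (281, [(140, 2), (70, 2), (35, 2), (56, 5), (40, 7)]), (421, [(210, 2), (105, 2), (140, 3), (84, 5), (60, 7)])], [(1543, 771)], 2)] 1000 180703 = true := by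
  decide +kernel

theorem ck257_182703 : chunk WW (search 1 ef257 fqT GT FN257 4 257) 257
    [(182981, false, 1, [(64, 2), (32, 2), (16, 2), (8, 2), (4, 2), (2, 2), (1, 2)], [5], [(43, [(21, 2), (14, 3), (6, 7)]), (421, [(210, 2), (105, 2), (140, 3), (84, 5), (60, 7)]), (449, [(224, 2), (112, 2), (56, 2), (28, 2), (14, 2), (7, 2), (64, 7)]), (577, [(288, 2), (144, 2), (72, 2), (36, 2), (18, 2), (9, 2), (192, 3), (64, 3)])], [(1543, 771)], 2),
    (183499, false, 1, [], [3], [], [(5151823, 2575911)], 0),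
    (184013, false, 1, [], [], [(17, [(8, 2), (4, 2), (2, 2), (1, 2)]), (43, [(21, 2), (14, 3), (6, 7)]), (113, [(56, 2), (28, 2), (14, 2), (7, 2), (16, 7)])], [(37515833, 4689479)], 2)] 1000 182703 = true := by
  decide +kernel

theorem ck257_184703 : chunk WW (search 1 ef257 fqT GT FN257 4 257) 257
    [(186397, false, 1, [(32, 2), (16, 2), (8, 2), (4, 2), (2, 2), (1, 2)], [7], [(13, [(6, 2), (3, 2), (4, 3)]), (197, [(98, 2), (49, 2), (28, 7), (4, 7)]), (337, [(168, 2), (84, 2), (42, 2), (21, 2), (112, 3), (48, 7)])], [(16963, 771)], 2),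
    (186583, false, 1, [], [11], [(43, [(21, 2), (14, 3), (6, 7)]), (61, [(30, 2), (15, 2), (20, 3), (12, 5)]), (127, [(63, 2), (42, 3), (14, 3), (18, 7)]), (199, [(99, 2), (66, 3), (22, 3), (18, 11)])], [(36326951, 18163475)], 2)] 1000 184703 = true := by
  decide +kernel

theorem ck257_186703 : chunk WW (search 1 ef257 fqT GT FN257 4 257) 257
    [(187373, false, 1, [(64, 2), (32, 2), (16, 2), (8, 2), (4, 2), (2, 2), (1, 2)], [], [(11, [(5, 2), (2, 5)]), (43, [(21, 2), (14, 3), (6, 7)]), (421, [(210, 2), (105, 2), (140, 3), (84, 5), (60, 7)]), (449, [(224, 2), (112, 2), (56, 2), (28, 2), (14, 2), (7, 2), (64, 7)])], [(1543, 771)], 2),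
    (187631, false, 1, [(32, 2), (16, 2), (8, 2), (4, 2), (2, 2), (1, 2)], [5], [(43, [(21, 2), (14, 3), (6, 7)]), (421, [(210, 2), (105, 2), (140, 3), (84, 5), (60, 7)]), (449, [(224, 2), (112, 2), (56, 2), (28, 2), (14, 2), (7, 2), (64, 7)])], [(13879, 6939)], 2)] 1000 186703 = true := by
  decide +kernel

end Pool.Agent.NearSuper255
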