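import Pool.Agent.NearSuper255.TabX

/-!
# Ranges of excluded pairs, second part, file 12
-/

namespace Pool.Agent.NearSuper255

theorem ck197_703 : chunk WW (search 1 ef197 fqT GT FN197 4 197) 197
    [] 1000 703 = true := by
  decide +kernel

theorem ck197_2703 : chunk WW (search 1 ef197 fqT GT FN197 4 197) 197
    [(3547, false, 1, [], [3], [(37, [(18, 2), (9, 2), (12, 3), (4, 3)])], [(4191373, 77618)], 1)] 612 2703 = true := by
  decide +kernel

theorem ck199_241 : chunk W23 (search 1 ef199 fqT GT FN199 4 199) 199
    [] 231 241 = true := by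
  decide +kernel

theorem ck199_703 : chunk WW (search 1 ef199 fqT GT FN199 4 199) 199
    [(797, true, 1, [(4, 199)], [], [], [(11159, 5579)], 0),
    (1193, false, 1, [], [], [(5, [(2, 2), (1, 2)])], [(378101, 189050)], 1),
    (2389, false, 1, [], [3], [(433, [(216, 2), (108, 2), (54, 2), (27, 2), (144, 3), (48, 3), (16, 3)])], [(237607, 237606)], 1)] 1000 703 = true := by
  decide +kernel

theorem ck199_2703 : chunk WW (search 1 ef199 fqT GT FN199 4 199) 199
    [] 284 2703 = true := by
  decide +kernel

theorem ck211_241 : chunk W23 (search 1 ef211 fqT GT FN211 4 211) 211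
    [] 231 241 = true := by
  decide +kernel

theorem ck211_703 : chunk WW (search 1 ef211 fqT GT FN211 4 211) 211
    [] 495 703 = true := by
  decide +kernel

theorem ck223_241 : chunk W23 (search 1 ef223 fqT GT FN223 4 223) 223
    [(587, false, 1, [(6, 37)], [], [(5, [(2, 2), (1, 2)]), (149, [(74, 2), (37, 2), (4, 37)])], [(141829, 35457)], 2)] 231 241 = true := by
  decide +kernel

theorem ck223_703 : chunk WW (search 1 ef223 fqT GT FN223 4 223) 223
    [] 241 703 = true := by
  decide +kernel

theorem ck227_241 : chunk W23 (search 1 ef227 fqT GT FN227 4 227) 227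
    [(503, true, 1, [(2, 251)], [], [(7, [(3, 2), (2, 3)]), (19, [(9, 2), (6, 3), (2, 3)])], [(15091, 15090)], 1)] 231 241 = true := by
  decide +kernel

theorem ck227_703 : chunk WW (search 1 ef227 fqT GT FN227 4 227) 227
    [(733, false, 1, [(2, 113)], [2, 3], [(709, [(354, 2), (177, 2), (236, 3), (12, 59)]), (1063, [(531, 2), (354, 3), (118, 3), (18, 59)]), (1181, [(590, 2), (295, 2), (236, 5), (20, 59)])], [(27241, 4540)], 1)] 191 703 = true := by
  decide +kernel

end Pool.Agent.NearSuper255
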