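import Pool.Agent.NearSuper255.Search

/-!
# The table of bounds for the second base
-/

namespace Pool.Agent.NearSuper255

/-- the table of the bounds for the second base -/
def RtL : List (ℕ × ℕ) :=
  [(3, 300000), (5, 300000), (7, 1500), (11, 1500), (13, 250), (17, 300000), (19, 30000), (23, 2500), (29, 1300), (31, 900), (37, 800), (41, 260), (53, 1600), (59, 400), (61, 330), (97, 14600), (101, 2100), (103, 1500), (107, 970), (109, 830), (113, 660), (127, 400), (131, 370), (137, 330), (139, 320), (149, 280), (151, 270), (157, 250), (257, 190200), (263, 10600), (269, 5600), (271, 4850), (277, 3500), (281, 2970), (283, 2760), (293, 2070), (307, 1570), (311, 1470), (313, 1430), (317, 1350), (331, 1150), (337, 1080), (347, 990), (349, 975), (353, 945), (359, 905), (367, 860), (373, 830), (379, 800), (383, 780), (389, 760), (397, 730), (401, 720), (409, 695), (419, 670), (421, 660), (431, 640), (433, 635), (439, 620), (443, 615), (449, 600), (457, 590), (461, 580), (463, 580), (467, 575), (479, 560), (487, 545), (491, 540), (499, 530), (503, 530),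 (509, 520)]

def lookupR (x : ℕ) : List (ℕ × ℕ) → ℕ
  | [] => 239
  | a :: l => if x = a.1 then a.2 else lookupR x l

/-- For an odd prime `x`, no prime `q` with `x < q ≤ Rt x` shares a value with `x`. -/
def Rt (x : ℕ) : ℕ := if 509 < x then 239 else lookupR x RtL

def PLst : List ℕ := [3, 5, 7, 11, 13, 17, 19, 23, 29, 31, 37, 41, 43, 47, 53, 59, 61, 67, 71, 73, 79, 83, 89, 97, 101, 103, 107, 109, 113, 127, 131, 137, 139, 149, 151, 157, 163, 167, 173, 179, 181, 191, 193, 197, 199, 211, 223, 227, 229, 233, 239, 241, 251, 257, 263, 269, 271, 277, 281, 283, 293, 307, 311, 313, 317, 331, 337, 347, 349, 353, 359, 367, 373, 379, 383, 389, 397, 401, 409, 419, 421, 431, 433, 439, 443, 449, 457, 461, 463, 467, 479, 487, 491, 499, 503, 509]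

def hasDiv (t : ℕ) : Bool := (List.range t).any (fun d => decide (2 ≤ d) && decide (t % d = 0))

theorem hasDiv_sound {t : ℕ} (h : hasDiv t = true) : ¬ t.Prime := by
  unfold hasDiv at h
  rw [List.any_eq_true] at h
  obtain ⟨d, hd, hd2⟩ := h
  rw [Bool.and_eq_true, decide_eq_true_eq, decide_eq_true_eq] at hd2
  intro ht
  rcases (Nat.dvd_prime ht).1 (Nat.dvd_of_mod_eq_zero hd2.2) with h1 | h1
  · omega
  · have := List.mem_range.1 hd
    omega

theorem cover_PL : ∀ t ∈ List.range 510, t < 3 ∨ memB t PLst = true ∨ hasDiv t = true := by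
  decide +kernel

end Pool.Agent.NearSuper255
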