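import Pool.Agent.NearSuper255.Pair

/-!
# A search procedure excluding pairs of bases, and its use on ranges
-/

namespace Pool.Agent.NearSuper255

open Finset

/-- the list of pairs `(m / f ^ i, f)` for `i = 1, ...`, while `f ^ i` divides `m` -/
def efl (f : ℕ) : ℕ → ℕ → List (ℕ × ℕ)
  | 0, _ => []
  | k + 1, m => bif Nat.beq (m % f) 0 then (m / f, f) :: efl f k (m / f) else []

theorem efl_prime {f : ℕ} (hf : f.Prime) : ∀ (k m : ℕ), ∀ x ∈ efl f k m, x.2.Prime := by
  intro k
  induction k with
  | zero => intro m x hx; simp [efl] at hx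
  | succ k ih =>
    intro m x hx
    unfold efl at hx
    cases h : Nat.beq (m % f) 0 with
    | false => rw [h] at hx; simp at hx
    | true =>
      rw [h] at hx
      simp only [cond_true, List.mem_cons] at hx
      rcases hx with rfl | hx
      · exact hf
      · exact ih _ x hx

/-- growth of `u` through the modulus `q` -/
def growQ (p q : ℕ) : List ℕ → ℕ → ℕ
  | [], u => u
  | f :: l, u => force (growP q p (efl f 4 (q - 1)) u) fun u' => growQ p q l u'

theorem growQ_sound {p q N M : ℕ} (h : Sol p q N M) :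
    ∀ (l : List ℕ) (u : ℕ), (∀ f ∈ l, f.Prime) → u ∣ N → growQ p q l u ∣ N := by
  intro l
  induction l with
  | nil => intro u _ hu; exact hu
  | cons f l ih =>
    intro u hl hu
    unfold growQ
    rw [force_eq]
    exact ih _ (fun g hg => hl g (List.mem_cons_of_mem _ hg))
      (growP_sound h.symm hu (efl_prime (hl f List.mem_cons_self) _ _))

/-- one pass over the growth moduli, continuation passing -/
def gPass (p q : ℕ) : List (ℕ × List (ℕ × ℕ)) → ℕ → ℕ → (ℕ → ℕ → Bool) → Bool
  | [], u, v, k => k u v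
  | g :: G, u, v, k =>
    force (growV p q u g.1 g.2 v) fun v' =>
      force (growV q p v' g.1 g.2 u) fun u' => gPass p q G u' v' k

theorem gPass_sound {p q N M : ℕ} (h : Sol p q N M) {k : ℕ → ℕ → Bool}
    (hk : ∀ u v, u ∣ N → v ∣ M → k u v = true → False) :
    ∀ (G : List (ℕ × List (ℕ × ℕ))) (u v : ℕ), (∀ g ∈ G, ∀ x ∈ g.2, x.2.Prime) →
      u ∣ N → v ∣ M → gPass p q G u v k = true → False := by
  intro G
  induction G with
  | nil => intro u v _ hu hv hb; exact hk u v hu hv hb
  | cons g G ih =>
    intro u v hG hu hv hb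
    unfold gPass at hb
    rw [force_eq, force_eq] at hb
    have hg := hG g List.mem_cons_self
    have h1 := growV_sound (t := g.1) h hu hv hg
    exact ih _ _ (fun g' hg' => hG g' (List.mem_cons_of_mem _ hg'))
      (growV_sound h.symm h1 hu hg) h1 hb

/-- repeated passes with the final check in between -/
def stg (p q Y mm : ℕ) (G : List (ℕ × List (ℕ × ℕ))) (FN : List (ℕ × ℕ)) : ℕ → ℕ → ℕ → Bool
  | 0, u, v => fin p q u v Y mm FN
  | n + 1, u, v => fin p q u v Y mm FN ||
      gPass p q G u v (fun u' v' => stg p q Y mm G FN n u' v')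

theorem stg_sound {p q N M Y mm : ℕ} (h : Sol p q N M) (hY : 0 < Y)
    {G : List (ℕ × List (ℕ × ℕ))}
    (hG : ∀ g ∈ G, ∀ x ∈ g.2, x.2.Prime) (FN : List (ℕ × ℕ)) :
    ∀ (n u v : ℕ), u ∣ N → v ∣ M → stg p q Y mm G FN n u v = true → False := by
  intro n
  induction n with
  | zero =>
    intro u v hu hv hb
    exact fin_sound h hY hu hv hb
  | succ n ih =>
    intro u v hu hv hb
    unfold stg at hb
    rw [Bool.or_eq_true] at hb
    rcases hb with hb | hb
    · exact fin_sound h hY hu hv hb
    · exact gPass_sound h (fun u' v' hu' hv' hb' => ih u' v' hu' hv' hb') G u v hG hu hv hb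

/-- the `p` part of `m` -/
def ppart (p : ℕ) : ℕ → ℕ → ℕ
  | 0, _ => 1
  | k + 1, m => bif Nat.beq (m % p) 0 then p * ppart p k (m / p) else 1

/-- the starting value of `v` -/
def initV (p q pp : ℕ) (efp : List (ℕ × ℕ)) : ℕ :=
  bif Nat.beq pp 1 then growP p q efp 2
  else bif brute p q 2 p (p * pp) then 2 * p else 2

theorem initV_sound {p q N M pp : ℕ} (h : Sol p q N M) {efp : List (ℕ × ℕ)}
    (he : ∀ x ∈ efp, x.2.Prime) : initV p q pp efp ∣ M := by
  unfold initV
  cases h1 : Nat.beq pp 1 with
  | true => exact growP_sound h h.eM he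
  | false =>
    simp only [cond_false]
    cases h2 : brute p q 2 p (p * pp) with
    | true => exact brute_sound h (by have := h.hp; omega) h.eM h2
    | false => exact h.eM

/-- the search: the final modulus is `p ^ 2 Y0` times the `p` part of `q - 1`, `efp` lists the pairs `((p - 1) / f ^ i, f)`, `fq` small primes, `G` the growth
moduli and `FN` the final moduli with the orders of `p`. -/
def search (Y0 : ℕ) (efp : List (ℕ × ℕ)) (fq : List ℕ) (G : List (ℕ × List (ℕ × ℕ)))
    (FN : List (ℕ × ℕ)) (n p q : ℕ) : Bool :=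
  force (ppart p 20 (q - 1)) fun pp =>
    force (p * p * pp * Y0) fun mm =>
      force (initV p q pp efp) fun v =>
        fin p q 2 v (p * Y0) mm FN ||
          force (growQ p q fq 2) fun u => stg p q (p * Y0) mm G FN n u v

theorem search_sound {p q N M Y0 : ℕ} (h : Sol p q N M) (hY : 0 < Y0) {efp : List (ℕ × ℕ)} {fq : List ℕ}
    {G : List (ℕ × List (ℕ × ℕ))} {FN : List (ℕ × ℕ)} {n : ℕ}
    (he : ∀ x ∈ efp, x.2.Prime) (hfq : ∀ f ∈ fq, f.Prime)
    (hG : ∀ g ∈ G, ∀ x ∈ g.2, x.2.Prime)
    (hs : search Y0 efp fq G FN n p q = true) : False := by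
  have hY' : 0 < p * Y0 := Nat.mul_pos (by have := h.hp; omega) hY
  unfold search at hs
  rw [force_eq, force_eq, force_eq, Bool.or_eq_true] at hs
  have hv : initV p q (ppart p 20 (q - 1)) efp ∣ M := initV_sound h he
  rcases hs with hs | hs
  · exact fin_sound h hY' h.eN hv hs
  · rw [force_eq] at hs
    exact stg_sound h hY' hG FN n _ _ (growQ_sound h fq 2 hfq h.eN) hv hs

/-- `q` is seen to be composite through the gcd with `W` -/
def skip (W q : ℕ) : Bool := !(Nat.beq (Nat.gcd q W) 1)

theorem skip_sound {W B q : ℕ} (hW : W ∣ B.factorial) (hB : B < q) (h : skip W q = true) :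
    ¬ q.Prime := by
  intro hq
  have h1 : Nat.gcd q W = 1 := by
    rcases (Nat.dvd_prime hq).1 (Nat.gcd_dvd_left q W) with h1 | h1
    · exact h1
    · exfalso
      have h2 : q ∣ B.factorial := (h1 ▸ Nat.gcd_dvd_right q W).trans hW
      have := (hq.dvd_factorial).1 h2
      omega
  unfold skip at h
  rw [h1] at h
  simp at h

def memB (q : ℕ) : List ℕ → Bool
  | [] => false
  | x :: l => Nat.beq q x || memB q l

theorem memB_sound {q : ℕ} : ∀ {l : List ℕ}, memB q l = true → q ∈ l := by
  intro l
  induction l with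
  | nil => intro h; simp [memB] at h
  | cons x l ih =>
    intro h
    unfold memB at h
    rw [Bool.or_eq_true] at h
    rcases h with h | h
    · rw [beq_iff] at h
      rw [h]
      exact List.mem_cons_self
    · exact List.mem_cons_of_mem _ (ih h)

/-- the check of `q0, q0 + 2, ..., q0 + 2 (k - 1)` -/
def rchk (W : ℕ) (ex : List ℕ) (s : ℕ → Bool) : ℕ → ℕ → Bool
  | 0, _ => true
  | k + 1, q => (skip W q || (s q || memB q ex)) && force (q + 2) fun q' => rchk W ex s k q'

theorem rchk_sound {W B : ℕ} (hW : W ∣ B.factorial) {ex : List ℕ} {s : ℕ → Bool} :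
    ∀ (k q0 : ℕ), B < q0 → rchk W ex s k q0 = true → ∀ q, q.Prime → q0 ≤ q → q < q0 + 2 * k →
      q % 2 = q0 % 2 → s q = true ∨ q ∈ ex := by
  intro k
  induction k with
  | zero => intro q0 _ _ q _ h1 h2; omega
  | succ k ih =>
    intro q0 hB h q hq h1 h2 h3
    unfold rchk at h
    rw [Bool.and_eq_true, force_eq] at h
    rcases Nat.eq_or_lt_of_le h1 with h4 | h4
    · subst h4
      have h5 := h.1
      rw [Bool.or_eq_true, Bool.or_eq_true] at h5
      rcases h5 with h5 | h5 | h5
      · exact absurd hq (skip_sound hW hB h5)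
      · exact Or.inl h5
      · exact Or.inr (memB_sound h5)
    · exact ih (q0 + 2) (by omega) h.2 q hq (by omega) (by omega) (by omega)

end Pool.Agent.NearSuper255
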